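import Pool.Agent.H6.CB.Defs

/-! The weighted combinatorial inequality. With `A = ∑ t a`, `Z = ∑ z j s j`, `B = ∑ t a ^ 2 ≤ min (τ A) (A ^ 2)`, `Q = ∑ z j ^ 2 s j ^ 2 ≤ min (zp τ Z) (Z ^ 2)` the right side is `(A ^ 2 - B) / 2 - A Z + (Z ^ 2 - Q) / 2`. If all `s j` vanish it is `(A ^ 2 - B) / 2 ≥ 0`. Otherwise `m = 1`: put `x = A / τ`, `y = Z / τ`, `β = zp`: it is at least `τ ^ 2 ((x ^ 2 - x)₊ / 2 - x y + (y ^ 2 - β y)₊ / 2)`, to be shown `≥ - 2 (1 + β) ^ 2 τ ^ 2 x`: if `y ≤ β` trivially `≥ - β x`; if `y > β` and `x ≥ 1` it is `(y - x) ^ 2 / 2 - β y / 2 - x / 2 ≥ - β ^ 2 / 8 - (β + 1) x / 2`; if `y > β`, `x < 1` it is at least `(y ^ 2 - β y) / 2 - x y`, which is `≥ - β x` when `x ≤ β / 2` (increasing in `y ≥ β`), and `≥ - (β / 2 + x) ^ 2 / 2 ≥ - 2 x ^ 2 ≥ - 2 x` when `x > β / 2`. (`τ = 0` is trivial.) -/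

open MeasureTheory Finset

namespace H6.CB

open H6.CM

private theorem combJ_sum {n : ℕ} (t : Fin n → ℝ) :
    ∑ a, ∑ b ∈ univ.erase a, t a * t b = (∑ a, t a) ^ 2 - ∑ a, t a ^ 2 := by
  have h : ∀ a, ∑ b ∈ univ.erase a, t a * t b = t a * (∑ b, t b) - t a ^ 2 := by
    intro a
    rw [Finset.sum_erase_eq_sub (Finset.mem_univ a), Finset.mul_sum, sq]
  rw [Finset.sum_congr rfl fun a _ => h a, Finset.sum_sub_distrib, ← Finset.sum_mul, sq]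

private theorem combJ_sq {n : ℕ} (t : Fin n → ℝ) (ht : ∀ a, 0 ≤ t a) :
    ∑ a, t a ^ 2 ≤ (∑ a, t a) ^ 2 := Finset.sum_sq_le_sq_sum_of_nonneg fun a _ => ht a

private theorem combJ_num {A B Z Q τ β : ℝ} (hA : 0 ≤ A) (hτ : 0 ≤ τ) (hβ : 0 ≤ β) (hZ : 0 ≤ Z)
    (hB1 : B ≤ τ * A) (hB2 : B ≤ A ^ 2) (hQ1 : Q ≤ β * τ * Z) (hQ2 : Q ≤ Z ^ 2) :
    -(2 * (1 + β) ^ 2) * (A * τ) ≤ (A ^ 2 - B) / 2 - A * Z + (Z ^ 2 - Q) / 2 := by
  have hAτ : 0 ≤ A * τ := mul_nonneg hA hτ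
  have hβ2 : 0 ≤ β ^ 2 := sq_nonneg β
  rcases le_or_gt Z (β * τ) with h1 | h1
  · have h2 : A * Z ≤ A * (β * τ) := mul_le_mul_of_nonneg_left h1 hA
    have h3 : 0 ≤ (2 + 3 * β + 2 * β ^ 2) * (A * τ) := by positivity
    nlinarith
  · rcases le_or_gt τ A with h2 | h2
    · have h3 : β ^ 2 * τ * τ ≤ β ^ 2 * τ * A := mul_le_mul_of_nonneg_left h2 (by positivity)
      have h4 : 0 ≤ (Z - A - β * τ / 2) ^ 2 := sq_nonneg _
      have h5 : 0 ≤ (A * τ) * (2 * (1 + β) ^ 2 - β ^ 2 / 8 - (1 + β) / 2) := by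
        apply mul_nonneg hAτ
        nlinarith
      nlinarith
    · rcases le_or_gt A (β * τ / 2) with h3 | h3
      · have h4 : 0 ≤ (Z - β * τ) * (Z - 2 * A) := mul_nonneg (by linarith) (by linarith)
        have h5 : 0 ≤ (2 + 3 * β + 2 * β ^ 2) * (A * τ) := by positivity
        nlinarith
      · have h4 : 0 ≤ (Z - A - β * τ / 2) ^ 2 := sq_nonneg _
        have h6 : (A + β * τ / 2) ^ 2 ≤ (2 * A) ^ 2 := by
          apply pow_le_pow_left₀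
          · have : 0 ≤ β * τ := mul_nonneg hβ hτ
            linarith
          · linarith
        have h7 : A ^ 2 ≤ A * τ := by nlinarith
        have h5 : 0 ≤ (4 * β + 2 * β ^ 2) * (A * τ) := by positivity
        nlinarith

theorem combJ {n k : ℕ} (z : Fin k → ℝ) (zp τ : ℝ) (hz : ∀ j, 0 ≤ z j ∧ z j ≤ zp)
    (hzp : 0 ≤ zp) (hτ : 0 ≤ τ)
    (t : Fin n → ℝ) (s : Fin k → ℝ) (ht : ∀ a, 0 ≤ t a ∧ t a ≤ τ) (hs : ∀ j, 0 ≤ s j ∧ s j ≤ τ)
    (m : ℝ) (hm : (∃ j, s j ≠ 0) → m = 1) (hm0 : 0 ≤ m) :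
    -(2 * (1 + zp) ^ 2) * ∑ a, t a * τ * m ≤
      (∑ a, ∑ b ∈ univ.erase a, t a * t b) / 2 - ∑ a, ∑ j, z j * (t a * s j) +
        (∑ j, ∑ l ∈ univ.erase j, z j * z l * (s j * s l)) / 2 := by
  have e1 := combJ_sum t
  have e2 : ∑ a, ∑ j, z j * (t a * s j) = (∑ a, t a) * ∑ j, z j * s j := by
    rw [Finset.sum_mul]
    refine Finset.sum_congr rfl fun a _ => ?_
    rw [Finset.mul_sum]
    exact Finset.sum_congr rfl fun j _ => by ring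
  have e3 : ∑ j, ∑ l ∈ univ.erase j, z j * z l * (s j * s l) =
      (∑ j, z j * s j) ^ 2 - ∑ j, (z j * s j) ^ 2 := by
    rw [← combJ_sum fun j => z j * s j]
    exact Finset.sum_congr rfl fun j _ => Finset.sum_congr rfl fun l _ => by ring
  have e4 : ∑ a, t a * τ * m = (∑ a, t a) * τ * m := by
    rw [Finset.sum_mul, Finset.sum_mul]
  rw [e1, e2, e3, e4]
  have hA : 0 ≤ ∑ a, t a := Finset.sum_nonneg fun a _ => (ht a).1
  have hB2 := combJ_sq t fun a => (ht a).1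
  by_cases h : ∃ j, s j ≠ 0
  · rw [hm h, mul_one]
    refine combJ_num hA hτ hzp (Finset.sum_nonneg fun j _ => mul_nonneg (hz j).1 (hs j).1) ?_ hB2
      ?_ (combJ_sq _ fun j => mul_nonneg (hz j).1 (hs j).1)
    · rw [Finset.mul_sum]
      refine Finset.sum_le_sum fun a _ => ?_
      rw [sq]
      exact mul_le_mul_of_nonneg_right (ht a).2 (ht a).1
    · rw [Finset.mul_sum]
      refine Finset.sum_le_sum fun j _ => ?_
      rw [sq]
      exact mul_le_mul_of_nonneg_right (mul_le_mul (hz j).2 (hs j).2 (hs j).1 hzp)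
        (mul_nonneg (hz j).1 (hs j).1)
  · push Not at h
    have h0 : ∑ j, z j * s j = 0 := Finset.sum_eq_zero fun j _ => by rw [h j, mul_zero]
    have h1 : ∑ j, (z j * s j) ^ 2 = 0 := Finset.sum_eq_zero fun j _ => by rw [h j]; ring
    rw [h0, h1]
    have h2 : 0 ≤ 2 * (1 + zp) ^ 2 * ((∑ a, t a) * τ * m) := by positivity
    nlinarith

end H6.CB
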