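import Pool.Agent.H6.CM.Main

/-! Definitions for the bulk theorem (local boundedness of density and potential). -/

open MeasureTheory Finset

namespace H6.CB

open H6.CM

/-- smooth functions with compact support in `Λ ^ (n + k)`, antisymmetric only under the
permutations of the electrons which fix electron `a` -/
structure Sa (q n k : ℕ) (Λ : Set E3) (a : Fin n) (ψ : (Fin n → Fin q) → Cfg n k → ℂ) : Prop where
  smooth : ∀ σ, ContDiff ℝ (⊤ : ℕ∞) (ψ σ)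
  cpt : ∀ σ, HasCompactSupport (ψ σ)
  supp : ∀ σ p, p ∈ tsupport (ψ σ) → (∀ b, p.1 b ∈ Λ) ∧ ∀ j, p.2 j ∈ Λ
  anti : ∀ π : Equiv.Perm (Fin n), π a = a → ∀ (σ : Fin n → Fin q) (p : Cfg n k),
    ψ (σ ∘ π) (p.1 ∘ π, p.2) = ((Equiv.Perm.sign π : ℤ) : ℂ) * ψ σ p

/-- smooth functions with compact support (no symmetry) -/
structure Sm (q n k : ℕ) (Λ : Set E3) (ψ : (Fin n → Fin q) → Cfg n k → ℂ) : Prop where
  smooth : ∀ σ, ContDiff ℝ (⊤ : ℕ∞) (ψ σ)
  cpt : ∀ σ, HasCompactSupport (ψ σ)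
  supp : ∀ σ p, p ∈ tsupport (ψ σ) → (∀ b, p.1 b ∈ Λ) ∧ ∀ j, p.2 j ∈ Λ

/-- multiplication of a wave function by a real function of the configuration -/
noncomputable def mf {q n k : ℕ} (f : Cfg n k → ℝ) (ψ : (Fin n → Fin q) → Cfg n k → ℂ) :
    (Fin n → Fin q) → Cfg n k → ℂ :=
  fun σ p => ((f p : ℝ) : ℂ) * ψ σ p

/-- the squared gradient of a real function of the configuration, with the kinetic
coefficients -/
noncomputable def Gm {n k : ℕ} (κ : Fin k → ℝ) (f : Cfg n k → ℝ) (p : Cfg n k) : ℝ :=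
  ∑ a, gr (fun v => f (Function.update p.1 a v, p.2)) (p.1 a) +
    ∑ j, κ j * gr (fun v => f (p.1, Function.update p.2 j v)) (p.2 j)

/-- symmetric in the electrons -/
def Sy {n k : ℕ} (f : Cfg n k → ℝ) : Prop :=
  ∀ (π : Equiv.Perm (Fin n)) (p : Cfg n k), f (p.1 ∘ π, p.2) = f p

/-- the partition of unity of `H6.CM.Part` with largest scale `r0` -/
noncomputable def slS {n : ℕ} (θ : E3 → ℝ) (r0 : ℝ) (a : Fin n) (w : E3) (l : ℕ)
    (x : Fin n → E3) : ℝ :=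
  sl θ a (r0⁻¹ • w) l (fun b => r0⁻¹ • x b)

/-- its remainder -/
noncomputable def rmS {n : ℕ} (θ : E3 → ℝ) (r0 : ℝ) (a : Fin n) (w : E3) (l : ℕ)
    (x : Fin n → E3) : ℝ :=
  rm θ a (r0⁻¹ • w) l (fun b => r0⁻¹ • x b)

/-- its cost -/
noncomputable def DlS {n : ℕ} (r0 : ℝ) (a : Fin n) (w : E3) (L : ℕ) (x : Fin n → E3) : ℝ :=
  Dl a (r0⁻¹ • w) L (fun b => r0⁻¹ • x b)

/-- the doubly smeared Coulomb potential at scale `s` -/
noncomputable def UU (χ : E3 → ℝ) (s : ℝ) (v : E3) : ℝ :=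
  ∫ w, chr χ s w ^ 2 * U (chr χ s) (v - w)

/-- the doubly smeared potential of all the charges -/
noncomputable def ph {n k : ℕ} (χ : E3 → ℝ) (s : ℝ) (z : Fin k → ℝ) (p : Cfg n k) (v : E3) : ℝ :=
  ∑ j, z j * UU χ s (v - p.2 j) - ∑ a, UU χ s (v - p.1 a)

/-- the same without electron `a` -/
noncomputable def phE {n k : ℕ} (χ : E3 → ℝ) (s : ℝ) (z : Fin k → ℝ) (a : Fin n) (p : Cfg n k)
    (v : E3) : ℝ :=
  ∑ j, z j * UU χ s (v - p.2 j) - ∑ b ∈ univ.erase a, UU χ s (v - p.1 b)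

/-- the reference potential: the average over the finite set `W` at scale one -/
noncomputable def pr {n k : ℕ} (χ : E3 → ℝ) (W : Finset E3) (z : Fin k → ℝ) (p : Cfg n k) : ℝ :=
  (W.card : ℝ)⁻¹ * ∑ w ∈ W, ph χ 1 z p w

/-- the doubly smeared potential relative to the reference potential -/
noncomputable def uh {n k : ℕ} (χ : E3 → ℝ) (s : ℝ) (W : Finset E3) (z : Fin k → ℝ)
    (p : Cfg n k) (v : E3) : ℝ :=
  ph χ s z p v - pr χ W z p

/-- number of electrons at distance less than `r` from `v` -/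
noncomputable def ce {n k : ℕ} (p : Cfg n k) (v : E3) (r : ℝ) : ℝ :=
  ∑ a, (if ‖p.1 a - v‖ < r then 1 else 0)

/-- number of nuclei at distance less than `r` from `v` -/
noncomputable def cn {n k : ℕ} (p : Cfg n k) (v : E3) (r : ℝ) : ℝ :=
  ∑ j, (if ‖p.2 j - v‖ < r then 1 else 0)

/-- the truncated sum of the inverse fourth powers of the distances from `v` -/
noncomputable def q4 {n k : ℕ} (s : ℝ) (p : Cfg n k) (v : E3) : ℝ :=
  ∑ a, (max s ‖p.1 a - v‖ ^ 4)⁻¹ + ∑ j, (max s ‖p.2 j - v‖ ^ 4)⁻¹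

/-- the same for the particles at distance at least `r` -/
noncomputable def tl {n k : ℕ} (r : ℝ) (p : Cfg n k) (x : E3) : ℝ :=
  ∑ a, (if ‖p.1 a - x‖ < r then 0 else (‖p.1 a - x‖ ^ 4)⁻¹) +
    ∑ j, (if ‖p.2 j - x‖ < r then 0 else (‖p.2 j - x‖ ^ 4)⁻¹)

/-- the reference set is admissible for `ψ` -/
structure Rf {q n k : ℕ} (A : ℝ) (Λ : Set E3) (W : Finset E3)
    (ψ : (Fin n → Fin q) → Cfg n k → ℂ) : Prop where
  ne : W.Nonempty
  sub : ∀ w ∈ W, Metric.closedBall w 2 ⊆ Λ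
  bd : ∀ σ p, ψ σ p ≠ 0 → ∑ w ∈ W, q4 1 p w ≤ A * W.card

/-- the cutoff around `x` at scale `r` -/
noncomputable def Jc (θ : E3 → ℝ) (x : E3) (r : ℝ) (v : E3) : ℝ := 1 - θ (r⁻¹ • (v - x))

/-- the smooth number of electrons within `32` of `x` -/
noncomputable def mm {n k : ℕ} (θ : E3 → ℝ) (x : E3) (p : Cfg n k) : ℝ :=
  ∑ a, Jc θ x 32 (p.1 a) ^ 2

/-- profile of the sectors -/
noncomputable def bt (t : ℝ) : ℝ :=
  Real.smoothTransition ((64 * t - 1) / 7) * Real.smoothTransition ((64 - t) / 56)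

/-- the sector functions of the count -/
noncomputable def gl : ℕ → ℝ → ℝ
  | 0, t => Real.smoothTransition ((64 - t) / 56) ^ 2
  | l + 1, t => bt (t / 64 ^ (l + 1)) ^ 2

/-- the sector amplitudes -/
noncomputable def Gs {n k : ℕ} (θ : E3 → ℝ) (x : E3) (l : ℕ) (p : Cfg n k) : ℝ :=
  gl l (mm θ x p)

/-- the scale of sector `l` -/
noncomputable def sc (l : ℕ) : ℝ := ((2 : ℝ) ^ (l + 3))⁻¹

/-- local kinetic energy of the electrons -/
noncomputable def TE {q n k : ℕ} (ψ : (Fin n → Fin q) → Cfg n k → ℂ) (x : E3) (r : ℝ) : ℝ :=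
  ∑ a, ∑ σ, ∫ p, (if ‖p.1 a - x‖ < r then ge (ψ σ) a p else 0)

/-- local kinetic energy of the nuclei (without the coefficients) -/
noncomputable def TN {q n k : ℕ} (ψ : (Fin n → Fin q) → Cfg n k → ℂ) (x : E3) (r : ℝ) : ℝ :=
  ∑ j, ∑ σ, ∫ p, (if ‖p.2 j - x‖ < r then gn (ψ σ) j p else 0)

/-- the second moments of the smeared potentials in the sectors, integrated over a ball -/
noncomputable def WW {q n k : ℕ} (χ θ : E3 → ℝ) (W : Finset E3) (z : Fin k → ℝ)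
    (ψ : (Fin n → Fin q) → Cfg n k → ℂ) (x : E3) : ℝ :=
  ∑ l ∈ range (n + 1), ∫ v in Metric.ball x 12,
    mean ψ (fun p => Gs θ x l p ^ 2 * uh χ (sc l) W z p v ^ 2)

/-- the second moments of the local counts in the sectors -/
noncomputable def SS {q n k : ℕ} (θ : E3 → ℝ) (ψ : (Fin n → Fin q) → Cfg n k → ℂ)
    (x : E3) : ℝ :=
  ∑ l ∈ range (n + 1), ∫ v in Metric.ball x 12,
    mean ψ (fun p => Gs θ x l p ^ 2 * ((sc l ^ 2)⁻¹ * ce p v (7 * sc l) ^ 2))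

/-- the Coulomb energy with weights `J` -/
noncomputable def VJ {n k : ℕ} (J : E3 → ℝ) (z : Fin k → ℝ) (p : Cfg n k) : ℝ :=
  (∑ a, ∑ b, J (p.1 a) * J (p.1 b) * ‖p.1 a - p.1 b‖⁻¹) / 2 -
    ∑ a, ∑ j, z j * (J (p.1 a) * J (p.2 j) * ‖p.1 a - p.2 j‖⁻¹) +
    (∑ j, ∑ l, z j * z l * (J (p.2 j) * J (p.2 l) * ‖p.2 j - p.2 l‖⁻¹)) / 2

end H6.CB
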