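import Pool.Agent.H6.CB.Defs

/-! Calculus of expectations. -/

open MeasureTheory Finset

namespace H6.CB

open H6.CM

/-- integrability of `F` against the density of `ψ` -/
def IM {q n k : ℕ} (ψ : (Fin n → Fin q) → Cfg n k → ℂ) (F : Cfg n k → ℝ) : Prop :=
  ∀ σ, Integrable (fun p => F p * ‖ψ σ p‖ ^ 2)

/-- integrability on the product -/
def IP {q n k : ℕ} (ψ : (Fin n → Fin q) → Cfg n k → ℂ) (c : E3 → ℝ)
    (F : E3 → Cfg n k → ℝ) : Prop :=
  ∀ σ, Integrable (fun u : Cfg n k × E3 => c u.2 * F u.2 u.1 * ‖ψ σ u.1‖ ^ 2)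

section lin

variable {q n k : ℕ} {ψ : (Fin n → Fin q) → Cfg n k → ℂ}

theorem IM.add {F G : Cfg n k → ℝ} (hF : IM ψ F) (hG : IM ψ G) :
    IM ψ (fun p => F p + G p) := by
  intro σ
  refine ((hF σ).add (hG σ)).congr (Filter.Eventually.of_forall fun p => ?_)
  simp only [Pi.add_apply]
  ring

theorem IM.sub {F G : Cfg n k → ℝ} (hF : IM ψ F) (hG : IM ψ G) :
    IM ψ (fun p => F p - G p) := by
  intro σ
  refine ((hF σ).sub (hG σ)).congr (Filter.Eventually.of_forall fun p => ?_)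
  simp only [Pi.sub_apply]
  ring

theorem IM.cmul (c : ℝ) {F : Cfg n k → ℝ} (hF : IM ψ F) : IM ψ (fun p => c * F p) := by
  intro σ
  refine ((hF σ).const_mul c).congr (Filter.Eventually.of_forall fun p => ?_)
  simp only
  ring

theorem IM.neg {F : Cfg n k → ℝ} (hF : IM ψ F) : IM ψ (fun p => -F p) := by
  intro σ
  refine ((hF σ).neg).congr (Filter.Eventually.of_forall fun p => ?_)
  simp only [Pi.neg_apply]
  ring

theorem IM.sum {ι : Type*} (I : Finset ι) {F : ι → Cfg n k → ℝ} (hF : ∀ i ∈ I, IM ψ (F i)) :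
    IM ψ (fun p => ∑ i ∈ I, F i p) := by
  intro σ
  refine (integrable_finsetSum I fun i hi => hF i hi σ).congr
    (Filter.Eventually.of_forall fun p => ?_)
  simp only [sum_mul]

theorem IM.abs {F : Cfg n k → ℝ} (hF : IM ψ F) : IM ψ (fun p => |F p|) := by
  intro σ
  refine (hF σ).norm.congr (Filter.Eventually.of_forall fun p => ?_)
  simp only [norm_mul, Real.norm_eq_abs, abs_pow, abs_norm]

/-- multiplication with a bounded measurable function -/
theorem IM.bmul {F : Cfg n k → ℝ} (hF : IM ψ F) {c : Cfg n k → ℝ} (hc : Measurable c) (M : ℝ)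
    (hM : ∀ p, |c p| ≤ M) : IM ψ (fun p => c p * F p) := by
  intro σ
  refine ((hF σ).bdd_mul hc.aestronglyMeasurable (c := M)
    (Filter.Eventually.of_forall fun p => by simpa using hM p)).congr
    (Filter.Eventually.of_forall fun p => ?_)
  simp only
  ring

theorem mean_add {F G : Cfg n k → ℝ} (hF : IM ψ F) (hG : IM ψ G) :
    mean ψ (fun p => F p + G p) = mean ψ F + mean ψ G := by
  unfold mean
  rw [← sum_add_distrib]
  refine sum_congr rfl fun σ _ => ?_
  rw [← integral_add (hF σ) (hG σ)]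
  congr 1
  funext p
  ring

theorem mean_sub {F G : Cfg n k → ℝ} (hF : IM ψ F) (hG : IM ψ G) :
    mean ψ (fun p => F p - G p) = mean ψ F - mean ψ G := by
  unfold mean
  rw [← sum_sub_distrib]
  refine sum_congr rfl fun σ _ => ?_
  rw [← integral_sub (hF σ) (hG σ)]
  congr 1
  funext p
  ring

theorem mean_cmul (c : ℝ) (F : Cfg n k → ℝ) :
    mean ψ (fun p => c * F p) = c * mean ψ F := by
  unfold mean
  rw [mul_sum]
  refine sum_congr rfl fun σ _ => ?_
  rw [← integral_const_mul]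
  congr 1
  funext p
  ring

theorem mean_neg (F : Cfg n k → ℝ) : mean ψ (fun p => -F p) = -mean ψ F := by
  have := mean_cmul (ψ := ψ) (-1) F
  simpa using this

theorem mean_sum {ι : Type*} (I : Finset ι) {F : ι → Cfg n k → ℝ}
    (hF : ∀ i ∈ I, IM ψ (F i)) : mean ψ (fun p => ∑ i ∈ I, F i p) = ∑ i ∈ I, mean ψ (F i) := by
  unfold mean
  rw [sum_comm]
  refine sum_congr rfl fun σ _ => ?_
  rw [← integral_finsetSum I fun i hi => hF i hi σ]
  congr 1
  funext p
  rw [sum_mul]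

theorem mean_congr {F G : Cfg n k → ℝ} (h : ∀ σ p, ψ σ p ≠ 0 → F p = G p) :
    mean ψ F = mean ψ G := by
  unfold mean
  refine sum_congr rfl fun σ _ => ?_
  congr 1
  funext p
  by_cases hp : ψ σ p = 0
  · simp [hp]
  · rw [h σ p hp]

theorem IM.congr {F G : Cfg n k → ℝ} (hF : IM ψ F) (h : ∀ σ p, ψ σ p ≠ 0 → F p = G p) :
    IM ψ G := by
  intro σ
  refine (hF σ).congr (Filter.Eventually.of_forall fun p => ?_)
  by_cases hp : ψ σ p = 0
  · simp [hp]
  · simp only [h σ p hp]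

/-- monotonicity; the inequality is only needed on the support of `ψ` -/
theorem mean_mono {F G : Cfg n k → ℝ} (hF : IM ψ F) (hG : IM ψ G)
    (h : ∀ σ p, ψ σ p ≠ 0 → F p ≤ G p) : mean ψ F ≤ mean ψ G := by
  unfold mean
  refine sum_le_sum fun σ _ => ?_
  refine integral_mono (hF σ) (hG σ) fun p => ?_
  by_cases hp : ψ σ p = 0
  · simp [hp]
  · exact mul_le_mul_of_nonneg_right (h σ p hp) (sq_nonneg _)

/-- monotonicity with a nonnegative left side, which need not be integrable -/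
theorem mean_mono0 {F G : Cfg n k → ℝ} (h0 : ∀ p, 0 ≤ F p) (hG : IM ψ G)
    (h : ∀ σ p, ψ σ p ≠ 0 → F p ≤ G p) : mean ψ F ≤ mean ψ G := by
  unfold mean
  refine sum_le_sum fun σ _ => ?_
  refine integral_mono_of_nonneg (Filter.Eventually.of_forall fun p =>
    mul_nonneg (h0 p) (sq_nonneg _)) (hG σ) (Filter.Eventually.of_forall fun p => ?_)
  by_cases hp : ψ σ p = 0
  · simp [hp]
  · exact mul_le_mul_of_nonneg_right (h σ p hp) (sq_nonneg _)

theorem mean_nonneg {F : Cfg n k → ℝ} (h : ∀ σ p, ψ σ p ≠ 0 → 0 ≤ F p) : 0 ≤ mean ψ F := by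
  unfold mean
  refine sum_nonneg fun σ _ => ?_
  refine integral_nonneg fun p => ?_
  by_cases hp : ψ σ p = 0
  · simp [hp]
  · exact mul_nonneg (h σ p hp) (sq_nonneg _)

theorem mean_one : mean ψ (fun _ => 1) = mass ψ := by
  unfold mean mass
  simp only [one_mul]

theorem mean_const (c : ℝ) : mean ψ (fun _ => c) = c * mass ψ := by
  rw [← mean_one, ← mean_cmul]
  simp

theorem mass_nonneg : 0 ≤ mass ψ := by
  rw [← mean_one]
  exact mean_nonneg fun _ _ _ => zero_le_one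

/-- Fubini -/
theorem mean_fub {c : E3 → ℝ} {F : E3 → Cfg n k → ℝ} (hF : IP ψ c F) :
    Integrable (fun w => c w * mean ψ (F w)) ∧ IM ψ (fun p => ∫ w, c w * F w p) ∧
    ∫ w, c w * mean ψ (F w) = mean ψ (fun p => ∫ w, c w * F w p) := by
  have e1 : ∀ w, c w * mean ψ (F w) = ∑ σ, ∫ p, c w * F w p * ‖ψ σ p‖ ^ 2 := by
    intro w
    unfold mean
    rw [mul_sum]
    refine sum_congr rfl fun σ _ => ?_
    rw [← integral_const_mul]
    congr 1
    funext p
    ring
  have e2 : ∀ σ, Integrable (fun w => ∫ p, c w * F w p * ‖ψ σ p‖ ^ 2) := fun σ =>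
    (hF σ).integral_prod_right
  have e3 : ∀ σ, (fun p => (∫ w, c w * F w p) * ‖ψ σ p‖ ^ 2) =
      fun p => ∫ w, c w * F w p * ‖ψ σ p‖ ^ 2 := by
    intro σ
    funext p
    rw [integral_mul_const]
  refine ⟨?_, ?_, ?_⟩
  · simp only [e1]
    exact integrable_finsetSum _ fun σ _ => e2 σ
  · intro σ
    rw [e3 σ]
    exact (hF σ).integral_prod_left
  · simp only [e1]
    rw [integral_finsetSum _ fun σ _ => e2 σ]
    unfold mean
    refine sum_congr rfl fun σ _ => ?_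
    rw [e3 σ]
    exact (integral_integral_swap (f := fun p w => c w * F w p * ‖ψ σ p‖ ^ 2) (hF σ)).symm

end lin

section cls

variable {q n k : ℕ} {Λ : Set E3} {ψ : (Fin n → Fin q) → Cfg n k → ℂ}

theorem St_sm (h : St q n k Λ ψ) : Sm q n k Λ ψ := ⟨h.smooth, h.cpt, h.supp⟩

theorem Sa_sm {a : Fin n} (h : Sa q n k Λ a ψ) : Sm q n k Λ ψ := ⟨h.smooth, h.cpt, h.supp⟩

theorem St_sa (h : St q n k Λ ψ) (a : Fin n) : Sa q n k Λ a ψ :=
  ⟨h.smooth, h.cpt, h.supp, fun π _ => h.anti π⟩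

theorem Sm_sq (h : Sm q n k Λ ψ) (σ : Fin n → Fin q) :
    Continuous (fun p => ‖ψ σ p‖ ^ 2) ∧ HasCompactSupport (fun p => ‖ψ σ p‖ ^ 2) :=
  ⟨(h.smooth σ).continuous.norm.pow 2, (h.cpt σ).comp_left (g := fun x : ℂ => ‖x‖ ^ 2) (by simp)⟩

theorem IM.cont (h : Sm q n k Λ ψ) {F : Cfg n k → ℝ} (hF : Continuous F) : IM ψ F := by
  intro σ
  exact (hF.mul (Sm_sq h σ).1).integrable_of_hasCompactSupport (Sm_sq h σ).2.mul_left

/-- bounded measurable functions are integrable -/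
theorem IM.bdd (h : Sm q n k Λ ψ) {F : Cfg n k → ℝ} (hF : Measurable F) (M : ℝ)
    (hM : ∀ p, |F p| ≤ M) : IM ψ F := by
  have h1 : IM ψ (fun _ => (1 : ℝ)) := IM.cont h continuous_const
  have h2 := h1.bmul hF M hM
  simpa using h2

/-- locally bounded: a measurable function which is at most a continuous function -/
theorem IM.dom {F G : Cfg n k → ℝ} (hF : Measurable F) (hG : IM ψ G) (hψ : Sm q n k Λ ψ)
    (hM : ∀ p, |F p| ≤ G p) : IM ψ F := by
  intro σ
  refine (hG σ).mono' (hF.mul (Sm_sq hψ σ).1.measurable).aestronglyMeasurable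
    (Filter.Eventually.of_forall fun p => ?_)
  simp only [norm_mul, Real.norm_eq_abs, abs_pow, abs_norm]
  exact mul_le_mul_of_nonneg_right (hM p) (sq_nonneg _)

theorem mean_mf (f F : Cfg n k → ℝ) : mean (mf f ψ) F = mean ψ (fun p => f p ^ 2 * F p) := by
  unfold mean mf
  refine sum_congr rfl fun σ _ => ?_
  congr 1
  funext p
  rw [norm_mul, Complex.norm_real, mul_pow, Real.norm_eq_abs, sq_abs]
  ring

theorem mass_mf (f : Cfg n k → ℝ) : mass (mf f ψ) = mean ψ (fun p => f p ^ 2) := by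
  rw [← mean_one, mean_mf]
  simp

theorem IM_mf {f F : Cfg n k → ℝ} : IM (mf f ψ) F ↔ IM ψ (fun p => f p ^ 2 * F p) := by
  have e : ∀ (σ : Fin n → Fin q), (fun p => F p * ‖mf f ψ σ p‖ ^ 2) =
      fun p => f p ^ 2 * F p * ‖ψ σ p‖ ^ 2 := by
    intro σ
    funext p
    unfold mf
    rw [norm_mul, Complex.norm_real, mul_pow, Real.norm_eq_abs, sq_abs]
    ring
  unfold IM
  simp only [e]

theorem mf_mf (f g : Cfg n k → ℝ) : mf f (mf g ψ) = mf (fun p => f p * g p) ψ := by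
  funext σ p
  simp only [mf]
  push_cast
  ring

theorem mf_ne {f : Cfg n k → ℝ} {σ : Fin n → Fin q} {p : Cfg n k} (h : mf f ψ σ p ≠ 0) :
    f p ≠ 0 ∧ ψ σ p ≠ 0 := by
  unfold mf at h
  constructor
  · intro h0
    exact h (by simp [h0])
  · intro h0
    exact h (by simp [h0])

theorem mf_sm (h : Sm q n k Λ ψ) {f : Cfg n k → ℝ} (hf : ContDiff ℝ (⊤ : ℕ∞) f) :
    Sm q n k Λ (mf f ψ) := by
  have hc : ContDiff ℝ (⊤ : ℕ∞) (fun p => ((f p : ℝ) : ℂ)) :=
    Complex.ofRealCLM.contDiff.comp hf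
  refine ⟨fun σ => hc.mul (h.smooth σ), fun σ => (h.cpt σ).mul_left, fun σ p hp => ?_⟩
  exact h.supp σ p (tsupport_mul_subset_right hp)

theorem mf_st (h : St q n k Λ ψ) {f : Cfg n k → ℝ} (hf : ContDiff ℝ (⊤ : ℕ∞) f) (hs : Sy f) :
    St q n k Λ (mf f ψ) := by
  have h1 := mf_sm (St_sm h) hf
  refine ⟨h1.smooth, h1.cpt, h1.supp, fun π σ p => ?_⟩
  unfold mf
  rw [h.anti π σ p, hs π p]
  ring

theorem mf_sa {a : Fin n} (h : Sa q n k Λ a ψ) {f : Cfg n k → ℝ} (hf : ContDiff ℝ (⊤ : ℕ∞) f)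
    (hs : ∀ π : Equiv.Perm (Fin n), π a = a → ∀ p, f (p.1 ∘ π, p.2) = f p) :
    Sa q n k Λ a (mf f ψ) := by
  have h1 := mf_sm (Sa_sm h) hf
  refine ⟨h1.smooth, h1.cpt, h1.supp, fun π hπ σ p => ?_⟩
  unfold mf
  rw [h.anti π hπ σ p, hs π hπ p]
  ring

theorem Rf_mf {A : ℝ} {W : Finset E3} (h : Rf A Λ W ψ) (f : Cfg n k → ℝ) :
    Rf A Λ W (mf f ψ) :=
  ⟨h.ne, h.sub, fun σ p hp => h.bd σ p (mf_ne hp).2⟩

/-! ### kinetic energies -/

theorem kE_int (h : Sm q n k Λ ψ) (σ : Fin n → Fin q) (a : Fin n) : Integrable (ge (ψ σ) a) :=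
  (ge_cont (ψ σ) ((h.smooth σ).of_le (by exact_mod_cast le_top)) a).integrable_of_hasCompactSupport
    (ge_cpt (ψ σ) ((h.smooth σ).of_le (by exact_mod_cast le_top)) (h.cpt σ) a)

theorem kN_int (h : Sm q n k Λ ψ) (σ : Fin n → Fin q) (j : Fin k) : Integrable (gn (ψ σ) j) :=
  (gn_cont (ψ σ) ((h.smooth σ).of_le (by exact_mod_cast le_top)) j).integrable_of_hasCompactSupport
    (gn_cpt (ψ σ) ((h.smooth σ).of_le (by exact_mod_cast le_top)) (h.cpt σ) j)

theorem ge_nonneg (F : Cfg n k → ℂ) (a : Fin n) (p : Cfg n k) : 0 ≤ ge F a p := g3_nonneg _ _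

theorem gn_nonneg (F : Cfg n k → ℂ) (j : Fin k) (p : Cfg n k) : 0 ≤ gn F j p := g3_nonneg _ _

theorem kE_nonneg (ψ : (Fin n → Fin q) → Cfg n k → ℂ) (a : Fin n) : 0 ≤ kE ψ a :=
  sum_nonneg fun _ _ => integral_nonneg fun _ => ge_nonneg _ _ _

theorem kN_nonneg (ψ : (Fin n → Fin q) → Cfg n k → ℂ) (j : Fin k) : 0 ≤ kN ψ j :=
  sum_nonneg fun _ _ => integral_nonneg fun _ => gn_nonneg _ _ _

/-! ### Coulomb terms -/

theorem IM_ee (h : Sm q n k Λ ψ) (a b : Fin n) : IM ψ (fun p => ‖p.1 a - p.1 b‖⁻¹) := fun σ =>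
  int_ee _ (Sm_sq h σ).1 (Sm_sq h σ).2 a b

theorem IM_en (h : Sm q n k Λ ψ) (a : Fin n) (j : Fin k) : IM ψ (fun p => ‖p.1 a - p.2 j‖⁻¹) :=
  fun σ => int_en _ (Sm_sq h σ).1 (Sm_sq h σ).2 a j

theorem IM_nn (h : Sm q n k Λ ψ) (j l : Fin k) : IM ψ (fun p => ‖p.2 j - p.2 l‖⁻¹) := fun σ =>
  int_nn _ (Sm_sq h σ).1 (Sm_sq h σ).2 j l

theorem IM_we (h : Sm q n k Λ ψ) (w : E3) (a : Fin n) : IM ψ (fun p => ‖w - p.1 a‖⁻¹) := fun σ =>
  int_we _ (Sm_sq h σ).1 (Sm_sq h σ).2 w a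

theorem IM_wn (h : Sm q n k Λ ψ) (w : E3) (j : Fin k) : IM ψ (fun p => ‖w - p.2 j‖⁻¹) := fun σ =>
  int_wn _ (Sm_sq h σ).1 (Sm_sq h σ).2 w j

theorem IM_V (h : Sm q n k Λ ψ) (z : Fin k → ℝ) : IM ψ (V z) := by
  have h1 : IM ψ (fun p => (∑ a, ∑ b, ‖p.1 a - p.1 b‖⁻¹) / 2) := by
    have h2 : IM ψ (fun p => ∑ a, ∑ b, ‖p.1 a - p.1 b‖⁻¹) :=
      IM.sum _ fun a _ => IM.sum _ fun b _ => IM_ee h a b
    have h3 := h2.cmul (1 / 2)
    refine h3.congr fun _ p _ => by ring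
  have h4 : IM ψ (fun p => ∑ a, ∑ j, z j * ‖p.1 a - p.2 j‖⁻¹) :=
    IM.sum _ fun a _ => IM.sum _ fun j _ => (IM_en h a j).cmul (z j)
  have h5 : IM ψ (fun p => (∑ j, ∑ l, z j * z l * ‖p.2 j - p.2 l‖⁻¹) / 2) := by
    have h2 : IM ψ (fun p => ∑ j, ∑ l, z j * z l * ‖p.2 j - p.2 l‖⁻¹) :=
      IM.sum _ fun j _ => IM.sum _ fun l _ => (IM_nn h j l).cmul (z j * z l)
    have h3 := h2.cmul (1 / 2)
    refine h3.congr fun _ p _ => by ring
  exact (h1.sub h4).add h5

theorem IM_phiE (h : Sm q n k Λ ψ) (z : Fin k → ℝ) (a : Fin n) :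
    IM ψ (fun p => phiE z a p (p.1 a)) :=
  (IM.sum _ fun j _ => (IM_en h a j).cmul (z j)).sub (IM.sum _ fun b _ => IM_ee h a b)

theorem IM_phiN (h : Sm q n k Λ ψ) (z : Fin k → ℝ) (j : Fin k) :
    IM ψ (fun p => phiN z j p (p.2 j)) := by
  refine (IM.sum _ fun l _ => (IM_nn h j l).cmul (z l)).sub (IM.sum _ fun a _ => ?_)
  exact (IM_en h a j).congr fun _ p _ => by rw [norm_sub_rev]

theorem IM_phi (h : Sm q n k Λ ψ) (z : Fin k → ℝ) (x : E3) : IM ψ (fun p => phi z p x) :=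
  (IM.sum _ fun j _ => (IM_wn h x j).cmul (z j)).sub (IM.sum _ fun a _ => IM_we h x a)

/-! ### counts -/

theorem ind_meas {Y : Type*} [MeasurableSpace Y] {f : Y → E3} (hf : Measurable f) (v : E3)
    (r : ℝ) : Measurable (fun p => if ‖f p - v‖ < r then (1 : ℝ) else 0) := by
  have h1 : Measurable (fun p => ‖f p - v‖) := (hf.sub_const v).norm
  have h2 : MeasurableSet {p | ‖f p - v‖ < r} := measurableSet_lt h1 measurable_const
  exact Measurable.ite h2 measurable_const measurable_const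

theorem meas_e (a : Fin n) : Measurable (fun p : Cfg n k => p.1 a) :=
  ((continuous_apply a).comp continuous_fst).measurable

theorem meas_n (j : Fin k) : Measurable (fun p : Cfg n k => p.2 j) :=
  ((continuous_apply j).comp continuous_snd).measurable

theorem ce_meas (v : E3) (r : ℝ) : Measurable (fun p : Cfg n k => ce p v r) :=
  Finset.measurable_fun_sum _ fun a _ => ind_meas (meas_e a) v r

theorem cn_meas (v : E3) (r : ℝ) : Measurable (fun p : Cfg n k => cn p v r) :=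
  Finset.measurable_fun_sum _ fun j _ => ind_meas (meas_n j) v r

theorem ce_nonneg (p : Cfg n k) (v : E3) (r : ℝ) : 0 ≤ ce p v r :=
  sum_nonneg fun a _ => by positivity

theorem cn_nonneg (p : Cfg n k) (v : E3) (r : ℝ) : 0 ≤ cn p v r :=
  sum_nonneg fun a _ => by positivity

theorem ce_le (p : Cfg n k) (v : E3) (r : ℝ) : ce p v r ≤ n := by
  have : ce p v r ≤ ∑ _a : Fin n, (1 : ℝ) := sum_le_sum fun a _ => by split_ifs <;> norm_num
  simpa using this

theorem cn_le (p : Cfg n k) (v : E3) (r : ℝ) : cn p v r ≤ k := by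
  have : cn p v r ≤ ∑ _a : Fin k, (1 : ℝ) := sum_le_sum fun a _ => by split_ifs <;> norm_num
  simpa using this

theorem ce_mono (p : Cfg n k) {v w : E3} {r t : ℝ} (h : ‖v - w‖ + r ≤ t) : ce p v r ≤ ce p w t := by
  refine sum_le_sum fun a _ => ?_
  split_ifs with h1 h2
  · exact le_rfl
  · exfalso
    apply h2
    calc ‖p.1 a - w‖ ≤ ‖p.1 a - v‖ + ‖v - w‖ := norm_sub_le_norm_sub_add_norm_sub _ _ _
      _ < t := by linarith
  · norm_num
  · exact le_rfl

theorem cn_mono (p : Cfg n k) {v w : E3} {r t : ℝ} (h : ‖v - w‖ + r ≤ t) : cn p v r ≤ cn p w t := by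
  refine sum_le_sum fun a _ => ?_
  split_ifs with h1 h2
  · exact le_rfl
  · exfalso
    apply h2
    calc ‖p.2 a - w‖ ≤ ‖p.2 a - v‖ + ‖v - w‖ := norm_sub_le_norm_sub_add_norm_sub _ _ _
      _ < t := by linarith
  · norm_num
  · exact le_rfl

theorem IM_ce (h : Sm q n k Λ ψ) (v : E3) (r : ℝ) : IM ψ (fun p => ce p v r) :=
  IM.bdd h (ce_meas v r) n fun p => by rw [abs_of_nonneg (ce_nonneg p v r)]; exact ce_le p v r

theorem IM_cn (h : Sm q n k Λ ψ) (v : E3) (r : ℝ) : IM ψ (fun p => cn p v r) :=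
  IM.bdd h (cn_meas v r) k fun p => by rw [abs_of_nonneg (cn_nonneg p v r)]; exact cn_le p v r

/-- exchange of the expectation and an integral over a ball -/
theorem mean_ball (h : Sm q n k Λ ψ) (x : E3) (r : ℝ) {F : E3 → Cfg n k → ℝ}
    (hF : Measurable (fun u : Cfg n k × E3 => F u.2 u.1)) {G : Cfg n k → ℝ} (hG : Continuous G)
    (hFG : ∀ v ∈ Metric.ball x r, ∀ p, |F v p| ≤ G p) :
    IntegrableOn (fun v => mean ψ (F v)) (Metric.ball x r) ∧
    IM ψ (fun p => ∫ v in Metric.ball x r, F v p) ∧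
    ∫ v in Metric.ball x r, mean ψ (F v) = mean ψ (fun p => ∫ v in Metric.ball x r, F v p) := by
  have hI : IP ψ ((Metric.ball x r).indicator fun _ => (1 : ℝ)) F := by
    intro σ
    have h1 : Integrable (fun p => G p * ‖ψ σ p‖ ^ 2) := IM.cont h hG σ
    have h2' : IntegrableOn (fun _ => (1 : ℝ)) (Metric.ball x r) :=
      integrableOn_const (hs := measure_ball_lt_top.ne)
    have h2 : Integrable ((Metric.ball x r).indicator fun _ => (1 : ℝ)) :=
      h2'.integrable_indicator Metric.isOpen_ball.measurableSet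
    have h3 : Integrable (fun u : Cfg n k × E3 => (G u.1 * ‖ψ σ u.1‖ ^ 2) *
        (Metric.ball x r).indicator (fun _ => (1 : ℝ)) u.2) := h1.mul_prod h2
    have hm : Measurable ((Metric.ball x r).indicator fun _ => (1 : ℝ)) :=
      measurable_const.indicator Metric.isOpen_ball.measurableSet
    refine h3.mono' ?_ (Filter.Eventually.of_forall fun u => ?_)
    · exact (((hm.comp measurable_snd).mul hF).mul
        ((Sm_sq h σ).1.measurable.comp measurable_fst)).aestronglyMeasurable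
    · by_cases hu : u.2 ∈ Metric.ball x r
      · simp only [Set.indicator_of_mem hu, one_mul, mul_one, norm_mul, Real.norm_eq_abs, abs_pow,
          abs_norm]
        exact mul_le_mul_of_nonneg_right (hFG u.2 hu u.1) (sq_nonneg _)
      · simp [Set.indicator_of_notMem hu]
  obtain ⟨a1, a2, a3⟩ := mean_fub hI
  have e1 : ∀ g : E3 → ℝ, (fun w => (Metric.ball x r).indicator (fun _ => (1 : ℝ)) w * g w) =
      (Metric.ball x r).indicator g := by
    intro g
    funext w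
    by_cases hw : w ∈ Metric.ball x r
    · simp [Set.indicator_of_mem hw]
    · simp [Set.indicator_of_notMem hw]
  simp only [e1 (fun w => mean ψ (F w))] at a1 a3
  have e2 : ∀ p, (∫ w, (Metric.ball x r).indicator (fun _ => (1 : ℝ)) w * F w p) =
      ∫ w in Metric.ball x r, F w p := by
    intro p
    rw [e1 (fun w => F w p), integral_indicator Metric.isOpen_ball.measurableSet]
  simp only [e2] at a2 a3
  rw [integral_indicator Metric.isOpen_ball.measurableSet] at a3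
  exact ⟨(integrable_indicator_iff Metric.isOpen_ball.measurableSet).1 a1, a2, a3⟩

end cls

end H6.CB
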