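import Pool.Agent.H6.CB.UB

/-! Smoothness and gradient of the doubly smeared potential. It is the convolution of the smooth compactly supported function `chr χ s ^ 2` with the locally integrable function `U (chr χ s)` (`HasCompactSupport.contDiff_convolution_left`). Scaling: `UU χ s v = s⁻¹ * UU χ 1 (s⁻¹ • v)`, so `gr (UU χ s) v = (s ^ 4)⁻¹ * gr (UU χ 1) (s⁻¹ • v)`; and `gr (UU χ 1)` is continuous, hence bounded on the ball of radius `2`, and equals `gr (fun v => ‖v‖⁻¹) v = (‖v‖ ^ 4)⁻¹` for `1 < ‖v‖`. -/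

open MeasureTheory Finset

namespace H6.CB

open H6.CM

variable {χ : E3 → ℝ} (h : Bump χ)
include h

theorem UU_smooth (s : ℝ) (hs : 0 < s) : ContDiff ℝ (⊤ : ℕ∞) (UU χ s) := by
  have hcpt : HasCompactSupport (fun w => chr χ s w ^ 2) := by
    refine HasCompactSupport.intro (isCompact_closedBall (0 : E3) (s / 2)) fun w hw => ?_
    have h0 : chr χ s w = 0 := by
      by_contra h0
      apply hw
      rw [Metric.mem_closedBall, dist_zero_right]
      exact (chr_supp h s hs w h0).le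
    simp only [h0]
    norm_num
  have hsm : ContDiff ℝ (⊤ : ℕ∞) (fun w => chr χ s w ^ 2) := (chr_smooth h s hs).pow 2
  have hloc : LocallyIntegrable (U (chr χ s)) (volume : Measure E3) :=
    (U_cont h s hs).locallyIntegrable
  have h1 := hcpt.contDiff_convolution_left (ContinuousLinearMap.mul ℝ ℝ) hsm hloc
  exact h1

private theorem ug_one (w : E3) : chr χ 1 w = χ w := by
  unfold chr
  rw [Real.one_rpow, one_mul, inv_one, one_smul]

omit h in
private theorem ug_sq (r : ℝ) (hr : 0 < r) : (r ^ (-(3 / 2) : ℝ)) ^ 2 = (r ^ 3)⁻¹ := by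
  rw [← Real.rpow_natCast, ← Real.rpow_mul hr.le]
  have : (-(3 / 2) : ℝ) * ((2 : ℕ) : ℝ) = -((3 : ℕ) : ℝ) := by
    push_cast
    norm_num
  rw [this, Real.rpow_neg hr.le, Real.rpow_natCast]

theorem UU_scale (s : ℝ) (hs : 0 < s) (v : E3) : UU χ s v = s⁻¹ * UU χ 1 (s⁻¹ • v) := by
  have hU : ∀ y, U (chr χ s) y = s⁻¹ * U (chr χ 1) (s⁻¹ • y) := by
    intro y
    rw [chr_eq h s hs y, chr_eq h 1 one_pos (s⁻¹ • y), inv_one, one_mul, one_smul]
  unfold UU
  have e : ∀ w, chr χ s w ^ 2 * U (chr χ s) (v - w) = (s ^ 3)⁻¹ * (s⁻¹ *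
      (fun w => chr χ 1 w ^ 2 * U (chr χ 1) (s⁻¹ • v - w)) (s⁻¹ • w)) := by
    intro w
    simp only
    rw [hU, ug_one h, smul_sub]
    have h1 : chr χ s w ^ 2 = (s ^ 3)⁻¹ * χ (s⁻¹ • w) ^ 2 := by
      unfold chr
      rw [mul_pow, ug_sq s hs]
    rw [h1]
    ring
  simp only [e]
  rw [integral_const_mul, integral_const_mul,
    Measure.integral_comp_inv_smul_of_nonneg volume
      (fun w => chr χ 1 w ^ 2 * U (chr χ 1) (s⁻¹ • v - w)) hs.le,
    finrank_euclideanSpace_fin, smul_eq_mul]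
  field_simp

theorem UU_grad : ∃ C : ℝ, 0 ≤ C ∧ ∀ (s : ℝ) (_ : 0 < s) (v : E3),
    gr (UU χ s) v ≤ C * (max s ‖v‖ ^ 4)⁻¹ := by
  have hsm := UU_smooth h 1 one_pos
  have hcont : Continuous (gr (UU χ 1)) := by
    unfold gr
    refine continuous_finsetSum _ fun d _ => ?_
    exact ((hsm.continuous_fderiv (by simp)).clm_apply continuous_const).pow 2
  obtain ⟨C0, hC0⟩ := (isCompact_closedBall (0 : E3) 1).exists_bound_of_continuousOn
    hcont.continuousOn
  have hC00 : 0 ≤ max C0 1 := le_trans zero_le_one (le_max_right _ _)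
  -- outside the unit ball
  have hout : ∀ u : E3, 1 < ‖u‖ → gr (UU χ 1) u = (‖u‖ ^ 4)⁻¹ := by
    intro u hu
    have hu0 : 0 < ‖u‖ := by linarith
    have h1 : UU χ 1 =ᶠ[nhds u] fun v => ‖v‖⁻¹ := by
      have hopen : IsOpen {w : E3 | 1 < ‖w‖} := isOpen_lt continuous_const continuous_norm
      filter_upwards [hopen.mem_nhds hu] with w hw
      exact UU_eq h 1 one_pos w (le_of_lt hw)
    have h2 : HasFDerivAt (fun v : E3 => ‖v‖ ^ 2) (2 • (innerSL ℝ u)) u :=
      (hasStrictFDerivAt_norm_sq u).hasFDerivAt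
    have h3 := h2.sqrt (by positivity)
    have h4 : (fun v : E3 => Real.sqrt (‖v‖ ^ 2)) = fun v : E3 => ‖v‖ := by
      funext v
      exact Real.sqrt_sq (norm_nonneg v)
    rw [h4, Real.sqrt_sq (norm_nonneg u)] at h3
    have h5 : HasFDerivAt (fun v : E3 => ‖v‖⁻¹)
        (-(‖u‖ ^ 2)⁻¹ • ((1 / (2 * ‖u‖)) • (2 • (innerSL ℝ u)))) u :=
      (hasDerivAt_inv hu0.ne').comp_hasFDerivAt u h3
    unfold gr
    rw [h1.fderiv_eq, h5.fderiv]
    have h6 : ∀ d : Fin 3, ((-(‖u‖ ^ 2)⁻¹ • ((1 / (2 * ‖u‖)) • (2 • (innerSL ℝ u)))) :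
        E3 →L[ℝ] ℝ) (EuclideanSpace.single d 1) ^ 2 = (‖u‖ ^ 6)⁻¹ * (u d) ^ 2 := by
      intro d
      have h7 : inner ℝ u (EuclideanSpace.single d (1 : ℝ)) = u d := by
        rw [EuclideanSpace.inner_single_right]
        simp
      have h8 : ((-(‖u‖ ^ 2)⁻¹ • ((1 / (2 * ‖u‖)) • (2 • (innerSL ℝ u)))) :
        E3 →L[ℝ] ℝ) (EuclideanSpace.single d 1) = -(‖u‖ ^ 2)⁻¹ * ((1 / (2 * ‖u‖)) * (2 * u d)) := by
        simp only [ContinuousLinearMap.smul_apply, innerSL_apply_apply, h7, smul_eq_mul, nsmul_eq_mul,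
          Nat.cast_ofNat]
      rw [h8]
      field_simp
    rw [Finset.sum_congr rfl fun d _ => h6 d, ← Finset.mul_sum, ← EuclideanSpace.real_norm_sq_eq]
    field_simp
  have hone : ∀ u : E3, gr (UU χ 1) u ≤ max C0 1 * (max 1 ‖u‖ ^ 4)⁻¹ := by
    intro u
    rcases le_or_gt ‖u‖ 1 with hu | hu
    · rw [max_eq_left hu, one_pow, inv_one, mul_one]
      have h1 := hC0 u (by rw [Metric.mem_closedBall, dist_zero_right]; exact hu)
      exact ((le_abs_self _).trans h1).trans (le_max_left _ _)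
    · rw [max_eq_right hu.le, hout u hu]
      have h1 : 0 ≤ (‖u‖ ^ 4)⁻¹ := by positivity
      exact le_mul_of_one_le_left h1 (le_max_right _ _)
  refine ⟨max C0 1, hC00, fun s hs v => ?_⟩
  have hs0 : (0 : ℝ) < s⁻¹ := inv_pos.2 hs
  have hgr : gr (UU χ s) v = (s ^ 4)⁻¹ * gr (UU χ 1) (s⁻¹ • v) := by
    have h1 : HasFDerivAt (UU χ 1) (fderiv ℝ (UU χ 1) (s⁻¹ • v)) (s⁻¹ • v) :=
      (hsm.differentiable (by simp)).differentiableAt.hasFDerivAt
    have h2 : HasFDerivAt (fun v : E3 => s⁻¹ • v) (s⁻¹ • ContinuousLinearMap.id ℝ E3) v :=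
      (hasFDerivAt_id v).const_smul s⁻¹
    have h3 := (h1.comp v h2).const_mul s⁻¹
    have h4 : UU χ s = fun v => s⁻¹ * UU χ 1 (s⁻¹ • v) := by
      funext w
      exact UU_scale h s hs w
    have h5 : HasFDerivAt (UU χ s) (s⁻¹ •
        ((fderiv ℝ (UU χ 1) (s⁻¹ • v)).comp (s⁻¹ • ContinuousLinearMap.id ℝ E3))) v := by
      rw [h4]
      exact h3
    unfold gr
    rw [h5.fderiv, Finset.mul_sum]
    refine Finset.sum_congr rfl fun d _ => ?_
    rw [ContinuousLinearMap.comp_smul, ContinuousLinearMap.comp_id, smul_smul,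
      ContinuousLinearMap.smul_apply, smul_eq_mul, mul_pow]
    congr 1
    field_simp
  rw [hgr]
  have h1 := mul_le_mul_of_nonneg_left (hone (s⁻¹ • v)) (show 0 ≤ (s ^ 4)⁻¹ by positivity)
  refine h1.trans_eq ?_
  have h2 : max s ‖v‖ = s * max 1 ‖s⁻¹ • v‖ := by
    rw [norm_smul, Real.norm_of_nonneg hs0.le, mul_max_of_nonneg _ _ hs.le, mul_one]
    congr 1
    field_simp
  rw [h2, mul_pow, mul_inv]
  ring

end H6.CB
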