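import Pool.Agent.H6.CB.UB
import Pool.Agent.H6.CB.UG
import Pool.Agent.H6.CB.Lib
import Pool.Agent.H6.CM.Nuc

/-! Relocation of a nucleus with double smearing: apply `H6.CM.nuc` with the bump `chr χ s` (`chr_bump`) at every point `w` with `chr χ s (w - v) ≠ 0` (then `‖w - v‖ < 1/2`), multiply by `chr χ s (w - v) ^ 2` and integrate over `w` (`chr_norm`, `chr_grad`, `mean_fub`, `UU_dbl`); the average of `∫ u, chr χ s (u - w) ^ 2 * phiN z j p u` is `ph χ s z p v - z j * UU χ s (v - p.2 j) ≤ ph χ s z p v`. -/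

open MeasureTheory Finset

namespace H6.CB

open H6.CM

private theorem ns_Um {B : E3 → ℝ} (hB : Bump B) : Measurable (U B) := by
  have h1 : Measurable (fun p : E3 × E3 => B p.2 ^ 2 * ‖p.1 - p.2‖⁻¹) :=
    ((hB.smooth.continuous.measurable.comp measurable_snd).pow_const 2).mul
      ((measurable_fst.sub measurable_snd).norm.inv)
  exact (h1.stronglyMeasurable.integral_prod_right' (ν := volume)).measurable

private theorem ns_term {q n k : ℕ} {Λ : Set E3} {ψ : (Fin n → Fin q) → Cfg n k → ℂ}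
    (hψ : St q n k Λ ψ) {B : E3 → ℝ} (hB : Bump B) (v : E3) {g : Cfg n k → E3}
    (hg : Measurable g) (σ : Fin n → Fin q) :
    Integrable (fun u : Cfg n k × E3 =>
      B (u.2 - v) ^ 2 * U B (g u.1 - u.2) * ‖ψ σ u.1‖ ^ 2) := by
  obtain ⟨C, hC, hbd⟩ := U_bd hB
  have h1 : Integrable (fun u : Cfg n k × E3 => B (u.2 - v) ^ 2 * ‖ψ σ u.1‖ ^ 2) :=
    nuc_prod (nuc_F_int hψ σ) (nuc_h_int hB v)
  have h2 : Measurable (fun u : Cfg n k × E3 => U B (g u.1 - u.2)) :=
    (ns_Um hB).comp ((hg.comp measurable_fst).sub measurable_snd)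
  refine (h1.bdd_mul h2.aestronglyMeasurable (c := C) (Filter.Eventually.of_forall fun u => ?_)).congr
    (Filter.Eventually.of_forall fun u => ?_)
  · rw [Real.norm_of_nonneg (U_nonneg _ _)]
    exact hbd _
  · simp only
    ring

theorem nucS {χ : E3 → ℝ} (hχ : Bump χ) {q n k : ℕ} {Λ : Set E3} {z κ : Fin k → ℝ} {E : ℝ}
    (hE : LB q n k Λ z κ E) (hz : ∀ j, 0 ≤ z j)
    {ψ : (Fin n → Fin q) → Cfg n k → ℂ} (hψ : St q n k Λ ψ) (j : Fin k) (s : ℝ) (hs : 0 < s)
    (hs1 : s ≤ 1) (v : E3) (hv : Metric.closedBall v 2 ⊆ Λ) :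
    E * mass ψ ≤ energy z κ ψ - κ j * kN ψ j - z j * mean ψ (fun p => phiN z j p (p.2 j)) +
      κ j * ((s ^ 2)⁻¹ * ∫ v, gr χ v) * mass ψ + z j * mean ψ (fun p => ph χ s z p v) := by
  have hB : Bump (chr χ s) := chr_bump hχ s hs hs1
  obtain ⟨A, hA⟩ : ∃ A, A = energy z κ ψ - κ j * kN ψ j -
    z j * mean ψ (fun p => phiN z j p (p.2 j)) +
      κ j * ((s ^ 2)⁻¹ * ∫ v, gr χ v) * mass ψ := ⟨_, rfl⟩
  rw [← hA]
  have hc1 : ∫ w, chr χ s (w - v) ^ 2 = 1 := by
    rw [integral_sub_right_eq_self (fun w => chr χ s w ^ 2) v]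
    exact hB.norm
  have hci : Integrable (fun w => chr χ s (w - v) ^ 2) := nuc_h_int hB v
  -- the averaged potential
  have hF : ∀ w (p : Cfg n k), ∫ u, chr χ s (u - w) ^ 2 * phiN z j p u =
      ∑ l ∈ univ.erase j, z l * U (chr χ s) (p.2 l - w) - ∑ a, U (chr χ s) (p.1 a - w) := by
    intro w p
    have hi : ∀ y : E3, Integrable (fun u => chr χ s (u - w) ^ 2 * ‖u - y‖⁻¹) := by
      intro y
      exact chr_pot_int hχ s hs w y
    have e : ∀ u, chr χ s (u - w) ^ 2 * phiN z j p u =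
        ∑ l ∈ univ.erase j, z l * (chr χ s (u - w) ^ 2 * ‖u - p.2 l‖⁻¹) -
          ∑ a, chr χ s (u - w) ^ 2 * ‖u - p.1 a‖⁻¹ := by
      intro u
      unfold phiN
      rw [mul_sub, mul_sum, mul_sum]
      congr 1
      exact sum_congr rfl fun l _ => by ring
    simp only [e]
    rw [integral_sub (integrable_finsetSum _ fun l _ => (hi (p.2 l)).const_mul (z l))
      (integrable_finsetSum _ fun a _ => hi (p.1 a)),
      integral_finsetSum _ (fun l _ => (hi (p.2 l)).const_mul (z l)),
      integral_finsetSum _ (fun a _ => hi (p.1 a))]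
    simp only [integral_const_mul, U_trans hB]
  have hIP : IP ψ (fun w => chr χ s (w - v) ^ 2) (fun w p =>
      ∑ l ∈ univ.erase j, z l * U (chr χ s) (p.2 l - w) - ∑ a, U (chr χ s) (p.1 a - w)) := by
    intro σ
    have h1 : Integrable (fun u : Cfg n k × E3 =>
        ∑ l ∈ univ.erase j, z l * (chr χ s (u.2 - v) ^ 2 * U (chr χ s) (u.1.2 l - u.2) *
          ‖ψ σ u.1‖ ^ 2) -
        ∑ a, chr χ s (u.2 - v) ^ 2 * U (chr χ s) (u.1.1 a - u.2) * ‖ψ σ u.1‖ ^ 2) := by
      refine Integrable.sub ?_ ?_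
      · exact integrable_finsetSum _ fun l _ => (ns_term hψ hB v (meas_n l) σ).const_mul (z l)
      · exact integrable_finsetSum _ fun a _ => ns_term hψ hB v (meas_e a) σ
    refine h1.congr (Filter.Eventually.of_forall fun u => ?_)
    simp only
    rw [mul_sub, sub_mul, mul_sum, mul_sum, sum_mul, sum_mul]
    congr 1
    exact sum_congr rfl fun l _ => by ring
  obtain ⟨m1, m2, m3⟩ := mean_fub hIP
  have hpt : ∀ w, chr χ s (w - v) ^ 2 * (E * mass ψ) ≤ chr χ s (w - v) ^ 2 * A +
      z j * (chr χ s (w - v) ^ 2 * mean ψ (fun p => ∑ l ∈ univ.erase j,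
        z l * U (chr χ s) (p.2 l - w) - ∑ a, U (chr χ s) (p.1 a - w))) := by
    intro w
    by_cases h0 : chr χ s (w - v) = 0
    · rw [h0]
      simp
    · have h1 : ‖w - v‖ < s / 2 := chr_supp hχ s hs _ h0
      have h2 : Metric.closedBall w 1 ⊆ Λ := by
        refine (Metric.closedBall_subset_closedBall' ?_).trans hv
        rw [dist_eq_norm]
        linarith
      have h3 := nuc hE hψ hB j w h2
      rw [chr_grad hχ s hs, ← hA] at h3
      simp only [hF] at h3
      have h4 := mul_le_mul_of_nonneg_left h3 (sq_nonneg (chr χ s (w - v)))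
      linarith
  have hint : ∫ w, chr χ s (w - v) ^ 2 * (E * mass ψ) ≤ ∫ w, (chr χ s (w - v) ^ 2 * A +
      z j * (chr χ s (w - v) ^ 2 * mean ψ (fun p => ∑ l ∈ univ.erase j,
        z l * U (chr χ s) (p.2 l - w) - ∑ a, U (chr χ s) (p.1 a - w)))) :=
    integral_mono (hci.mul_const _) ((hci.mul_const _).add (m1.const_mul (z j))) hpt
  rw [integral_mul_const, hc1, one_mul, integral_add (hci.mul_const _) (m1.const_mul (z j)),
    integral_mul_const, hc1, one_mul, integral_const_mul, m3] at hint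
  refine hint.trans ?_
  have hav : ∀ p : Cfg n k, (∫ w, chr χ s (w - v) ^ 2 * (∑ l ∈ univ.erase j,
      z l * U (chr χ s) (p.2 l - w) - ∑ a, U (chr χ s) (p.1 a - w))) =
      ph χ s z p v - z j * UU χ s (v - p.2 j) := by
    intro p
    have e : ∀ w, chr χ s (w - v) ^ 2 * (∑ l ∈ univ.erase j,
        z l * U (chr χ s) (p.2 l - w) - ∑ a, U (chr χ s) (p.1 a - w)) =
        ∑ l ∈ univ.erase j, z l * (chr χ s (w - v) ^ 2 * U (chr χ s) (p.2 l - w)) -
          ∑ a, chr χ s (w - v) ^ 2 * U (chr χ s) (p.1 a - w) := by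
      intro w
      rw [mul_sub, mul_sum, mul_sum]
      congr 1
      exact sum_congr rfl fun l _ => by ring
    simp only [e]
    rw [integral_sub (integrable_finsetSum _ fun l _ => ((UU_avg hχ s hs v _).1).const_mul (z l))
      (integrable_finsetSum _ fun a _ => (UU_avg hχ s hs v _).1),
      integral_finsetSum _ (fun l _ => ((UU_avg hχ s hs v _).1).const_mul (z l)),
      integral_finsetSum _ (fun a _ => (UU_avg hχ s hs v _).1)]
    simp only [integral_const_mul, (UU_avg hχ s hs v _).2]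
    unfold ph
    rw [← Finset.sum_erase_add _ _ (mem_univ j)]
    ring
  have hIph : IM ψ (fun p => ph χ s z p v) := by
    refine IM.cont (St_sm hψ) ?_
    have hUc : Continuous (UU χ s) := (UU_smooth hχ s hs).continuous
    unfold ph
    refine Continuous.sub ?_ ?_
    · refine continuous_finsetSum _ fun l _ => continuous_const.mul (hUc.comp ?_)
      exact continuous_const.sub ((continuous_apply l).comp continuous_snd)
    · refine continuous_finsetSum _ fun a _ => hUc.comp ?_
      exact continuous_const.sub ((continuous_apply a).comp continuous_fst)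
  have hmean := mean_mono m2 hIph (fun σ p _ => by
    rw [hav p]
    have := mul_nonneg (hz j) (UU_nonneg hχ s hs (v - p.2 j))
    linarith)
  have := mul_le_mul_of_nonneg_left hmean (hz j)
  linarith

end H6.CB
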