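import Pool.Agent.H6.CB.ERelS
import Pool.Agent.H6.CB.NucS

/-! Relocation of one particle into the reference set: average `erelS` (with `s = r0 = 1`) and `nucS` (with `s = 1`) over `w ∈ W`. On the support of `ψ` one has `∑ w ∈ W, ce p w 2 ≤ 16 * ∑ w ∈ W, q4 1 p w ≤ 16 * A * W.card` (`‖p.1 a - w‖ < 2` gives `(max 1 ‖p.1 a - w‖ ^ 4)⁻¹ ≥ 1/16`; `q4` is nonnegative); the means of continuous functions are linear (`mean_sum`, `IM.cont`; `ph χ 1 z p w` is continuous in `p`, see `UU_smooth`). -/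

open MeasureTheory Finset

namespace H6.CB

open H6.CM

private theorem ej_ph_cont {χ : E3 → ℝ} (hχ : Bump χ) {n k : ℕ} (z : Fin k → ℝ) (w : E3) :
    Continuous (fun p : Cfg n k => ph χ 1 z p w) := by
  have hUc : Continuous (UU χ 1) := (UU_smooth hχ 1 one_pos).continuous
  unfold ph
  refine Continuous.sub ?_ ?_
  · refine continuous_finsetSum _ fun l _ => continuous_const.mul (hUc.comp ?_)
    exact continuous_const.sub ((continuous_apply l).comp continuous_snd)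
  · refine continuous_finsetSum _ fun a _ => hUc.comp ?_
    exact continuous_const.sub ((continuous_apply a).comp continuous_fst)

private theorem ej_pr {χ : E3 → ℝ} (hχ : Bump χ) {q n k : ℕ} {Λ : Set E3} (z : Fin k → ℝ)
    {ψ : (Fin n → Fin q) → Cfg n k → ℂ} (hψ : Sm q n k Λ ψ) (W : Finset E3) :
    (W.card : ℝ)⁻¹ * ∑ w ∈ W, mean ψ (fun p => ph χ 1 z p w) = mean ψ (pr χ W z) := by
  have h1 : mean ψ (fun p => ∑ w ∈ W, ph χ 1 z p w) = ∑ w ∈ W, mean ψ (fun p => ph χ 1 z p w) :=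
    mean_sum W fun w _ => IM.cont hψ (ej_ph_cont hχ z w)
  rw [← h1, ← mean_cmul]
  rfl

private theorem ej_avg {W : Finset E3} (hW : W.Nonempty) {f : E3 → ℝ} {c : ℝ}
    (h : ∀ w ∈ W, c ≤ f w) : c ≤ (W.card : ℝ)⁻¹ * ∑ w ∈ W, f w := by
  have hc : (0 : ℝ) < W.card := by exact_mod_cast hW.card_pos
  rw [inv_mul_eq_div, le_div_iff₀ hc, mul_comm, ← nsmul_eq_mul]
  exact card_nsmul_le_sum W f c h

private theorem ej_ce {n k : ℕ} (p : Cfg n k) (w : E3) : ce p w 2 ≤ 16 * q4 1 p w := by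
  unfold ce q4
  have h1 : 0 ≤ ∑ j, (max 1 ‖p.2 j - w‖ ^ 4)⁻¹ := sum_nonneg fun j _ => by positivity
  have h2 : ∑ a, (if ‖p.1 a - w‖ < 2 then (1 : ℝ) else 0) ≤
      16 * ∑ a, (max 1 ‖p.1 a - w‖ ^ 4)⁻¹ := by
    rw [mul_sum]
    refine sum_le_sum fun a _ => ?_
    have h3 : 0 < max 1 ‖p.1 a - w‖ := lt_max_of_lt_left one_pos
    split_ifs with h
    · have h4 : max 1 ‖p.1 a - w‖ ≤ 2 := max_le (by norm_num) h.le
      have h5 : max 1 ‖p.1 a - w‖ ^ 4 ≤ 2 ^ 4 := pow_le_pow_left₀ h3.le h4 4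
      have h6 : (2 ^ 4 : ℝ)⁻¹ ≤ (max 1 ‖p.1 a - w‖ ^ 4)⁻¹ := inv_anti₀ (by positivity) h5
      norm_num at h6
      linarith
    · positivity
  linarith

private theorem ej_card {q n k : ℕ} {Λ : Set E3} {ψ : (Fin n → Fin q) → Cfg n k → ℂ}
    (hψ : Sm q n k Λ ψ) {A : ℝ} {W : Finset E3} (hW : Rf A Λ W ψ) :
    (W.card : ℝ)⁻¹ * ∑ w ∈ W, mean ψ (fun p => ce p w 2) ≤ 16 * A * mass ψ := by
  have hc : (0 : ℝ) < W.card := by exact_mod_cast hW.ne.card_pos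
  have h1 : mean ψ (fun p => ∑ w ∈ W, ce p w 2) = ∑ w ∈ W, mean ψ (fun p => ce p w 2) :=
    mean_sum W fun w _ => IM_ce hψ w 2
  have h2 : mean ψ (fun p => ∑ w ∈ W, ce p w 2) ≤ mean ψ (fun _ => 16 * A * W.card) := by
    refine mean_mono (IM.sum _ fun w _ => IM_ce hψ w 2) (IM.cont hψ continuous_const)
      fun σ p hp => ?_
    have h3 := hW.bd σ p hp
    calc ∑ w ∈ W, ce p w 2 ≤ ∑ w ∈ W, 16 * q4 1 p w := sum_le_sum fun w _ => ej_ce p w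
      _ = 16 * ∑ w ∈ W, q4 1 p w := (mul_sum _ _ _).symm
      _ ≤ 16 * A * W.card := by linarith
  rw [mean_const] at h2
  rw [← h1, inv_mul_le_iff₀ hc]
  linarith

theorem ej {χ : E3 → ℝ} (hχ : Bump χ) : ∃ C : ℝ, 0 ≤ C ∧
    ∀ (q n k : ℕ) (Λ : Set E3) (z κ : Fin k → ℝ) (_ : ∀ j, 0 ≤ z j) (_ : ∀ j, 0 ≤ κ j) (E : ℝ)
    (_ : LB q n k Λ z κ E) (a : Fin n) (ψ : (Fin n → Fin q) → Cfg n k → ℂ)
    (_ : Sa q n k Λ a ψ) (A : ℝ) (_ : 0 ≤ A) (W : Finset E3) (_ : Rf A Λ W ψ),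
    kE ψ a - mean ψ (fun p => phiE z a p (p.1 a)) + mean ψ (pr χ W z) ≤
      (energy z κ ψ - E * mass ψ) + C * (1 + A) * mass ψ := by
  obtain ⟨C, hC, h⟩ := erelS hχ
  refine ⟨32 * C, by positivity, ?_⟩
  intro q n k Λ z κ hz hκ E hE a ψ hψ A hA W hW
  have hm : 0 ≤ mass ψ := mass_nonneg
  have hsm := Sa_sm hψ
  have h1 : ∀ w ∈ W, E * mass ψ - (energy z κ ψ - kE ψ a +
      mean ψ (fun p => phiE z a p (p.1 a)) + C * mass ψ) ≤
      2 * C * mean ψ (fun p => ce p w 2) - mean ψ (fun p => ph χ 1 z p w) := by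
    intro w hw
    have h2 := h q n k Λ z κ hz hκ E hE a ψ hψ 1 1 one_pos le_rfl le_rfl w (hW.sub w hw)
    norm_num at h2
    linarith
  have h2 := ej_avg hW.ne h1
  rw [sum_sub_distrib, ← mul_sum, mul_sub] at h2
  have h3 := ej_card hsm hW
  have h4 := ej_pr hχ z hsm W
  have h5 : (W.card : ℝ)⁻¹ * (2 * C * ∑ w ∈ W, mean ψ (fun p => ce p w 2)) =
      2 * C * ((W.card : ℝ)⁻¹ * ∑ w ∈ W, mean ψ (fun p => ce p w 2)) := by ring
  rw [h5, h4] at h2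
  have h6 := mul_le_mul_of_nonneg_left h3 (by positivity : 0 ≤ 2 * C)
  have h7 : 0 ≤ C * mass ψ := mul_nonneg hC hm
  nlinarith [mul_nonneg hA h7]

theorem nj {χ : E3 → ℝ} (hχ : Bump χ) : ∃ C : ℝ, 0 ≤ C ∧
    ∀ (q n k : ℕ) (Λ : Set E3) (z κ : Fin k → ℝ) (_ : ∀ j, 0 ≤ z j) (_ : ∀ j, 0 ≤ κ j) (E : ℝ)
    (_ : LB q n k Λ z κ E) (j : Fin k) (ψ : (Fin n → Fin q) → Cfg n k → ℂ)
    (_ : St q n k Λ ψ) (A : ℝ) (W : Finset E3) (_ : Rf A Λ W ψ),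
    κ j * kN ψ j + z j * mean ψ (fun p => phiN z j p (p.2 j)) - z j * mean ψ (pr χ W z) ≤
      (energy z κ ψ - E * mass ψ) + C * κ j * mass ψ := by
  have hg : 0 ≤ ∫ v, gr χ v := integral_nonneg fun v => by
    unfold gr
    exact sum_nonneg fun d _ => sq_nonneg _
  refine ⟨∫ v, gr χ v, hg, ?_⟩
  intro q n k Λ z κ hz hκ E hE j ψ hψ A W hW
  have hsm := St_sm hψ
  have h1 : ∀ w ∈ W, E * mass ψ - (energy z κ ψ - κ j * kN ψ j -
      z j * mean ψ (fun p => phiN z j p (p.2 j)) + κ j * (∫ v, gr χ v) * mass ψ) ≤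
      z j * mean ψ (fun p => ph χ 1 z p w) := by
    intro w hw
    have h2 := nucS hχ hE hz hψ j 1 one_pos le_rfl w (hW.sub w hw)
    norm_num at h2
    linarith
  have h2 := ej_avg hW.ne h1
  rw [← mul_sum] at h2
  have h4 := ej_pr hχ z hsm W
  have h5 : (W.card : ℝ)⁻¹ * (z j * ∑ w ∈ W, mean ψ (fun p => ph χ 1 z p w)) =
      z j * ((W.card : ℝ)⁻¹ * ∑ w ∈ W, mean ψ (fun p => ph χ 1 z p w)) := by ring
  rw [h5, h4] at h2
  linarith

end H6.CB
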