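import Pool.Agent.H6.CM.Newton
import Pool.Agent.H6.CM.UBd
import Pool.Agent.H6.CM.ChR
import Pool.Agent.H6.CB.Defs

/-! Theorem of Newton in full: the potential of a radial density is the integral of the density times `1 / max ‖w‖ ‖u‖`. The cylindrical coordinates `H6.CM.cyl` and the inner integral are as in `Pool/Agent/H6/CM/Newton.lean` (`∫ z in -s..s, (W ^ 2 + s ^ 2 - 2 * W * z) ^ (-1/2) = 2 * min s W / W = 2 * s / max s W`); at `w = 0` it is trivial. The other facts are immediate consequences (`chr_norm`, `chr_supp`, and `U (chr χ s) v = s⁻¹ * U χ (s⁻¹ • v) = ∫ χ ^ 2 / max ‖v‖ (s * ‖u‖)`, `chr_pot`). -/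

open MeasureTheory Finset

namespace H6.CB

open H6.CM

private noncomputable def nx_e3 : E3 := EuclideanSpace.single (2 : Fin 3) (1 : ℝ)

private theorem nx_norm : ‖nx_e3‖ = 1 := by simp [nx_e3]

private theorem nx_we (W : ℝ) (u : E3) :
    ‖W • nx_e3 - u‖ = Real.sqrt (W ^ 2 + ‖u‖ ^ 2 - 2 * W * u 2) := by
  have h1 : ‖W • nx_e3 - u‖ ^ 2 = W ^ 2 + ‖u‖ ^ 2 - 2 * W * u 2 := by
    rw [norm_sub_sq_real, real_inner_smul_left, norm_smul, nx_norm]
    have h2 : inner ℝ nx_e3 u = u 2 := by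
      unfold nx_e3
      rw [EuclideanSpace.inner_single_left]
      simp
    rw [h2, mul_one, Real.norm_eq_abs, sq_abs]
    ring
  rw [← h1, Real.sqrt_sq (norm_nonneg _)]

private theorem nx_inner (W s : ℝ) (hW : 0 < W) (hs : 0 < s) :
    ∫⁻ z in Set.Ioo (-s) s, ENNReal.ofReal ((Real.sqrt (W ^ 2 + s ^ 2 - 2 * W * z))⁻¹)
      = ENNReal.ofReal (2 * min s W / W) := by
  have hpos : ∀ z ∈ Set.Ioo (-s) s, 0 < W ^ 2 + s ^ 2 - 2 * W * z := by
    intro z hz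
    nlinarith [sq_nonneg (W - s), mul_pos hW (sub_pos.mpr hz.2)]
  have hcont : ContinuousOn (fun z : ℝ => -(Real.sqrt (W ^ 2 + s ^ 2 - 2 * W * z)) / W)
      (Set.Icc (-s) s) := by
    fun_prop
  have hderiv : ∀ z ∈ Set.Ioo (-s) s,
      HasDerivAt (fun z : ℝ => -(Real.sqrt (W ^ 2 + s ^ 2 - 2 * W * z)) / W)
        ((Real.sqrt (W ^ 2 + s ^ 2 - 2 * W * z))⁻¹) z := by
    intro z hz
    have h1 : HasDerivAt (fun z : ℝ => W ^ 2 + s ^ 2 - 2 * W * z) (-(2 * W)) z := by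
      have := ((hasDerivAt_id z).const_mul (2 * W)).const_sub (W ^ 2 + s ^ 2)
      simpa using this
    have h2 := ((h1.sqrt (hpos z hz).ne').fun_neg).div_const W
    have h3 : -(-(2 * W) / (2 * Real.sqrt (W ^ 2 + s ^ 2 - 2 * W * z))) / W
        = (Real.sqrt (W ^ 2 + s ^ 2 - 2 * W * z))⁻¹ := by
      have := Real.sqrt_pos.mpr (hpos z hz)
      field_simp
    rw [h3] at h2
    exact h2
  have hint : IntegrableOn (fun z : ℝ => (Real.sqrt (W ^ 2 + s ^ 2 - 2 * W * z))⁻¹)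
      (Set.Ioc (-s) s) :=
    intervalIntegral.integrableOn_deriv_of_nonneg hcont hderiv (fun z _ => by positivity)
  have hle : -s ≤ s := by linarith
  have hII : IntervalIntegrable (fun z : ℝ => (Real.sqrt (W ^ 2 + s ^ 2 - 2 * W * z))⁻¹)
      volume (-s) s := (intervalIntegrable_iff_integrableOn_Ioc_of_le hle).mpr hint
  have hval := intervalIntegral.integral_eq_sub_of_hasDerivAt_of_le hle hcont hderiv hII
  rw [intervalIntegral.integral_of_le hle, integral_Ioc_eq_integral_Ioo] at hval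
  rw [← ofReal_integral_eq_lintegral_ofReal (hint.mono_set Set.Ioo_subset_Ioc_self)
    (Filter.Eventually.of_forall fun z => inv_nonneg.mpr (Real.sqrt_nonneg _)), hval]
  congr 1
  have h1 : Real.sqrt (W ^ 2 + s ^ 2 - 2 * W * s) = |W - s| := by
    rw [← Real.sqrt_sq_eq_abs]
    congr 1
    ring
  have h2 : Real.sqrt (W ^ 2 + s ^ 2 - 2 * W * (-s)) = W + s := by
    have h3 : W ^ 2 + s ^ 2 - 2 * W * (-s) = (W + s) ^ 2 := by ring
    rw [h3, Real.sqrt_sq (by linarith)]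
  rw [h1, h2]
  rcases le_total s W with h | h
  · rw [min_eq_left h, abs_of_nonneg (by linarith)]
    ring
  · rw [min_eq_right h, abs_of_nonpos (by linarith)]
    ring

private theorem nx_rad {χ : E3 → ℝ} (h : Bump χ) (u : E3) : χ u = χ (‖u‖ • nx_e3) := by
  apply h.radial
  rw [norm_smul, nx_norm, mul_one, norm_norm]

private theorem nx_cont {χ : E3 → ℝ} (h : Bump χ) : Continuous fun s : ℝ => χ (s • nx_e3) ^ 2 :=
  (h.smooth.continuous.comp (continuous_id.smul continuous_const)).pow 2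

private theorem nx_lint {χ : E3 → ℝ} (h : Bump χ) (W : ℝ) (hW : 0 < W) :
    ∫⁻ u : E3, ENNReal.ofReal (χ u ^ 2 * ‖W • nx_e3 - u‖⁻¹)
      = ENNReal.ofReal (2 * Real.pi) * ∫⁻ s in Set.Ioi (0 : ℝ), ENNReal.ofReal s *
        (ENNReal.ofReal (χ (s • nx_e3) ^ 2) * ENNReal.ofReal (2 * min s W / W)) := by
  have hg := (nx_cont h).measurable
  have hF : Measurable fun u : ℝ × ℝ => ENNReal.ofReal (χ (u.1 • nx_e3) ^ 2) *
      ENNReal.ofReal ((Real.sqrt (W ^ 2 + u.1 ^ 2 - 2 * W * u.2))⁻¹) := by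
    have h1 : Measurable fun u : ℝ × ℝ => χ (u.1 • nx_e3) ^ 2 := hg.comp measurable_fst
    have h2 : Measurable fun u : ℝ × ℝ => (Real.sqrt (W ^ 2 + u.1 ^ 2 - 2 * W * u.2))⁻¹ := by
      fun_prop
    exact (ENNReal.measurable_ofReal.comp h1).mul (ENNReal.measurable_ofReal.comp h2)
  have hcyl := cyl (fun s z => ENNReal.ofReal (χ (s • nx_e3) ^ 2) *
      ENNReal.ofReal ((Real.sqrt (W ^ 2 + s ^ 2 - 2 * W * z))⁻¹)) hF
  have h1 : ∀ u : E3, ENNReal.ofReal (χ u ^ 2 * ‖W • nx_e3 - u‖⁻¹)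
      = ENNReal.ofReal (χ (‖u‖ • nx_e3) ^ 2) *
      ENNReal.ofReal ((Real.sqrt (W ^ 2 + ‖u‖ ^ 2 - 2 * W * u 2))⁻¹) := by
    intro u
    rw [ENNReal.ofReal_mul (sq_nonneg _), nx_we, ← nx_rad h u]
  simp_rw [h1]
  rw [hcyl]
  congr 1
  refine setLIntegral_congr_fun measurableSet_Ioi fun s hs => ?_
  have hs0 : 0 < s := hs
  show ENNReal.ofReal s * ∫⁻ z in Set.Ioo (-s) s, ENNReal.ofReal (χ (s • nx_e3) ^ 2) *
      ENNReal.ofReal ((Real.sqrt (W ^ 2 + s ^ 2 - 2 * W * z))⁻¹)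
    = ENNReal.ofReal s *
        (ENNReal.ofReal (χ (s • nx_e3) ^ 2) * ENNReal.ofReal (2 * min s W / W))
  have hm : Measurable fun z : ℝ => ENNReal.ofReal ((Real.sqrt (W ^ 2 + s ^ 2 - 2 * W * z))⁻¹) := by
    fun_prop
  rw [lintegral_const_mul _ hm, nx_inner W s hW hs0]

private theorem nx_rot {χ : E3 → ℝ} (h : Bump χ) (w : E3) : U χ w = U χ (‖w‖ • nx_e3) := by
  have hn : ‖w‖ = ‖‖w‖ • nx_e3‖ := by rw [norm_smul, nx_norm, mul_one, norm_norm]
  obtain ⟨T, hT⟩ : ∃ T : E3 ≃ₗᵢ[ℝ] E3, T w = ‖w‖ • nx_e3 :=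
    ⟨_, Submodule.reflection_sub hn⟩
  have hmp := T.measurePreserving
  have h1 := hmp.integral_comp T.toMeasurableEquiv.measurableEmbedding
    (fun u : E3 => χ u ^ 2 * ‖‖w‖ • nx_e3 - u‖⁻¹)
  unfold U
  rw [← h1]
  refine integral_congr_ae (Filter.Eventually.of_forall fun u => ?_)
  show χ u ^ 2 * ‖w - u‖⁻¹ = χ (T u) ^ 2 * ‖‖w‖ • nx_e3 - T u‖⁻¹
  rw [← hT, ← map_sub, T.norm_map, h.radial (T u) u (T.norm_map u)]

private theorem nx_Ulint {χ : E3 → ℝ} (h : Bump χ) (W : ℝ) :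
    U χ (W • nx_e3) = (∫⁻ u : E3, ENNReal.ofReal (χ u ^ 2 * ‖W • nx_e3 - u‖⁻¹)).toReal := by
  unfold U
  rw [integral_eq_lintegral_of_nonneg_ae]
  · exact Filter.Eventually.of_forall fun u => mul_nonneg (sq_nonneg _)
      (inv_nonneg.mpr (norm_nonneg _))
  · have h1 : Measurable fun u : E3 => χ u ^ 2 * ‖W • nx_e3 - u‖⁻¹ :=
      (h.smooth.continuous.measurable.pow_const 2).mul
        ((continuous_const.sub continuous_id).norm.measurable.inv)
    exact h1.aestronglyMeasurable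

private theorem nx_meas {χ : E3 → ℝ} (h : Bump χ) (W s : ℝ) :
    Measurable fun u : E3 => χ u ^ 2 * (max W (s * ‖u‖))⁻¹ :=
  (h.smooth.continuous.measurable.pow_const 2).mul
    ((measurable_const.max (continuous_norm.measurable.const_mul s)).inv)

private theorem nx_max {χ : E3 → ℝ} (h : Bump χ) (W : ℝ) (hW : 0 < W) :
    ∫⁻ u : E3, ENNReal.ofReal (χ u ^ 2 * (max W ‖u‖)⁻¹)
      = ENNReal.ofReal (2 * Real.pi) * ∫⁻ s in Set.Ioi (0 : ℝ), ENNReal.ofReal s *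
        (ENNReal.ofReal (χ (s • nx_e3) ^ 2) * ENNReal.ofReal (2 * min s W / W)) := by
  have hg := (nx_cont h).measurable
  have hF : Measurable fun u : ℝ × ℝ => ENNReal.ofReal (χ (u.1 • nx_e3) ^ 2) *
      ENNReal.ofReal ((max W u.1)⁻¹) := by
    have h1 : Measurable fun u : ℝ × ℝ => χ (u.1 • nx_e3) ^ 2 := hg.comp measurable_fst
    have h2 : Measurable fun u : ℝ × ℝ => (max W u.1)⁻¹ :=
      (measurable_const.max measurable_fst).inv
    exact (ENNReal.measurable_ofReal.comp h1).mul (ENNReal.measurable_ofReal.comp h2)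
  have hcyl := cyl (fun s _ => ENNReal.ofReal (χ (s • nx_e3) ^ 2) *
      ENNReal.ofReal ((max W s)⁻¹)) hF
  have h1 : ∀ u : E3, ENNReal.ofReal (χ u ^ 2 * (max W ‖u‖)⁻¹)
      = ENNReal.ofReal (χ (‖u‖ • nx_e3) ^ 2) * ENNReal.ofReal ((max W ‖u‖)⁻¹) := by
    intro u
    rw [ENNReal.ofReal_mul (sq_nonneg _), ← nx_rad h u]
  simp_rw [h1]
  rw [hcyl]
  congr 1
  refine setLIntegral_congr_fun measurableSet_Ioi fun s hs => ?_
  have hs0 : 0 < s := hs
  show ENNReal.ofReal s * ∫⁻ z in Set.Ioo (-s) s, ENNReal.ofReal (χ (s • nx_e3) ^ 2) *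
      ENNReal.ofReal ((max W s)⁻¹)
    = ENNReal.ofReal s *
        (ENNReal.ofReal (χ (s • nx_e3) ^ 2) * ENNReal.ofReal (2 * min s W / W))
  have hm : 2 * min s W / W = (max W s)⁻¹ * (s - -s) := by
    rcases le_total s W with hsW | hsW
    · rw [min_eq_left hsW, max_eq_left hsW, div_eq_inv_mul]
      ring
    · rw [min_eq_right hsW, max_eq_right hsW]
      field_simp
      ring
  rw [lintegral_const, Measure.restrict_apply MeasurableSet.univ, Set.univ_inter, Real.volume_Ioo,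
    hm, ENNReal.ofReal_mul (inv_nonneg.mpr (le_max_of_le_left hW.le)), mul_assoc]

theorem newton_max {χ : E3 → ℝ} (h : Bump χ) (w : E3) :
    Integrable (fun u => χ u ^ 2 * (max ‖w‖ ‖u‖)⁻¹) ∧
    U χ w = ∫ u, χ u ^ 2 * (max ‖w‖ ‖u‖)⁻¹ := by
  have hmeas : Measurable fun u : E3 => χ u ^ 2 * (max ‖w‖ ‖u‖)⁻¹ := by
    have := nx_meas h ‖w‖ 1
    simpa only [one_mul] using this
  by_cases hw : w = 0
  · subst hw
    have h1 : (fun u : E3 => χ u ^ 2 * (max ‖(0 : E3)‖ ‖u‖)⁻¹) =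
        fun u => χ u ^ 2 * ‖(0 : E3) - u‖⁻¹ := by
      funext u
      rw [norm_zero, max_eq_right (norm_nonneg _), zero_sub, norm_neg]
    rw [h1]
    exact ⟨U_intble h 0, rfl⟩
  · have hW : 0 < ‖w‖ := norm_pos_iff.mpr hw
    have hnn : ∀ u : E3, 0 ≤ χ u ^ 2 * (max ‖w‖ ‖u‖)⁻¹ := fun u =>
      mul_nonneg (sq_nonneg _) (inv_nonneg.mpr (le_max_of_le_left hW.le))
    refine ⟨?_, ?_⟩
    · refine Integrable.mono' (h.int.mul_const ‖w‖⁻¹) hmeas.aestronglyMeasurable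
        (Filter.Eventually.of_forall fun u => ?_)
      rw [Real.norm_of_nonneg (hnn u)]
      exact mul_le_mul_of_nonneg_left (inv_anti₀ hW (le_max_left _ _)) (sq_nonneg _)
    · rw [nx_rot h w, nx_Ulint h, nx_lint h _ hW, integral_eq_lintegral_of_nonneg_ae
        (Filter.Eventually.of_forall hnn) hmeas.aestronglyMeasurable, nx_max h _ hW]

variable {χ : E3 → ℝ} (h : Bump χ)
include h

theorem chr_eq (s : ℝ) (hs : 0 < s) (v : E3) : U (chr χ s) v = s⁻¹ * U χ (s⁻¹ • v) := by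
  have h1 := chr_pot (χ := χ) h s hs 0 v
  rw [sub_zero] at h1
  rw [← h1]
  unfold U
  refine integral_congr_ae (Filter.Eventually.of_forall fun u => ?_)
  simp only
  rw [sub_zero, norm_sub_rev]

private theorem nx_form (s : ℝ) (hs : 0 < s) (v : E3) :
    Integrable (fun u => χ u ^ 2 * (max ‖v‖ (s * ‖u‖))⁻¹) ∧
      U (chr χ s) v = ∫ u, χ u ^ 2 * (max ‖v‖ (s * ‖u‖))⁻¹ := by
  obtain ⟨h1, h2⟩ := newton_max h (s⁻¹ • v)
  have h3 : (fun u : E3 => χ u ^ 2 * (max ‖v‖ (s * ‖u‖))⁻¹) =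
      fun u => s⁻¹ * (χ u ^ 2 * (max ‖s⁻¹ • v‖ ‖u‖)⁻¹) := by
    funext u
    have h4 : max ‖s⁻¹ • v‖ ‖u‖ = s⁻¹ * max ‖v‖ (s * ‖u‖) := by
      rw [mul_max_of_nonneg _ _ (inv_nonneg.mpr hs.le), norm_smul,
        Real.norm_of_nonneg (inv_nonneg.mpr hs.le), inv_mul_cancel_left₀ hs.ne']
    rw [h4, mul_inv, inv_inv]
    field_simp
  rw [h3]
  refine ⟨h1.const_mul _, ?_⟩
  rw [integral_const_mul, ← h2, chr_eq h s hs]

/-- more concentrated densities have larger potentials -/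
theorem U_anti (r s : ℝ) (hr : 0 < r) (hrs : r ≤ s) (v : E3) :
    U (chr χ s) v ≤ U (chr χ r) v := by
  obtain ⟨h1, h2⟩ := nx_form h r hr v
  obtain ⟨h3, h4⟩ := nx_form h s (hr.trans_le hrs) v
  rw [h2, h4]
  refine integral_mono h3 h1 fun u => ?_
  refine mul_le_mul_of_nonneg_left ?_ (sq_nonneg _)
  by_cases hu : u = 0
  · rw [hu, norm_zero, mul_zero, mul_zero]
  · have hu' : 0 < ‖u‖ := norm_pos_iff.mpr hu
    refine inv_anti₀ (lt_max_of_lt_right (mul_pos hr hu')) ?_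
    exact max_le_max le_rfl (mul_le_mul_of_nonneg_right hrs hu'.le)

theorem U_low (s : ℝ) (hs : 0 < s) (v : E3) : (max ‖v‖ (s / 2))⁻¹ ≤ U (chr χ s) v := by
  obtain ⟨h1, h2⟩ := nx_form h s hs v
  rw [h2]
  have h3 : (max ‖v‖ (s / 2))⁻¹ = ∫ u, χ u ^ 2 * (max ‖v‖ (s / 2))⁻¹ := by
    rw [integral_mul_const, h.norm, one_mul]
  rw [h3]
  refine integral_mono_ae (h.int.mul_const _) h1 ?_
  have h0 : ∀ᵐ u : E3, u ≠ 0 := by
    rw [ae_iff]
    simp
  filter_upwards [h0] with u hu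
  by_cases hχ : χ u = 0
  · rw [hχ]
    simp
  · have h4 := h.supp u hχ
    have hu' : 0 < ‖u‖ := norm_pos_iff.mpr hu
    refine mul_le_mul_of_nonneg_left ?_ (sq_nonneg _)
    refine inv_anti₀ (lt_max_of_lt_right (mul_pos hs hu')) ?_
    refine max_le_max le_rfl ?_
    nlinarith

theorem U_out (s : ℝ) (hs : 0 < s) (v : E3) (hv : s / 2 ≤ ‖v‖) : U (chr χ s) v = ‖v‖⁻¹ := by
  have h1 : ‖s⁻¹ • v‖ = s⁻¹ * ‖v‖ := by
    rw [norm_smul, Real.norm_of_nonneg (inv_nonneg.mpr hs.le)]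
  have h2 : 1 / 2 ≤ ‖s⁻¹ • v‖ := by
    rw [h1, le_inv_mul_iff₀ hs]
    linarith
  rw [chr_eq h s hs, newton_out h _ h2, h1, mul_inv, inv_inv, inv_mul_cancel_left₀ hs.ne']

theorem U_le (s : ℝ) (hs : 0 < s) (v : E3) (hv : v ≠ 0) : U (chr χ s) v ≤ ‖v‖⁻¹ := by
  have h1 : ‖s⁻¹ • v‖ = s⁻¹ * ‖v‖ := by
    rw [norm_smul, Real.norm_of_nonneg (inv_nonneg.mpr hs.le)]
  have h2 := newton_le h (s⁻¹ • v) (smul_ne_zero (inv_ne_zero hs.ne') hv)
  rw [h1, mul_inv, inv_inv] at h2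
  rw [chr_eq h s hs]
  calc s⁻¹ * U χ (s⁻¹ • v) ≤ s⁻¹ * (s * ‖v‖⁻¹) :=
        mul_le_mul_of_nonneg_left h2 (inv_nonneg.mpr hs.le)
    _ = ‖v‖⁻¹ := inv_mul_cancel_left₀ hs.ne' _

/-- potential of a density without mass near the centre -/
theorem U_shell (ρ : ℝ) (hρ : 0 < ρ) (hs : ∀ v, χ v ≠ 0 → ρ < ‖v‖) (s : ℝ) (hs0 : 0 < s)
    (v : E3) : U (chr χ s) v ≤ (max ‖v‖ (ρ * s))⁻¹ := by
  obtain ⟨h1, h2⟩ := nx_form h s hs0 v
  rw [h2]
  have h3 : (max ‖v‖ (ρ * s))⁻¹ = ∫ u, χ u ^ 2 * (max ‖v‖ (ρ * s))⁻¹ := by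
    rw [integral_mul_const, h.norm, one_mul]
  rw [h3]
  refine integral_mono h1 (h.int.mul_const _) fun u => ?_
  by_cases hχ : χ u = 0
  · simp [hχ]
  · have h4 := hs u hχ
    refine mul_le_mul_of_nonneg_left ?_ (sq_nonneg _)
    refine inv_anti₀ (lt_max_of_lt_right (mul_pos hρ hs0)) ?_
    refine max_le_max le_rfl ?_
    nlinarith

theorem U_bds : ∃ C : ℝ, 0 ≤ C ∧ ∀ (s : ℝ) (_ : 0 < s) (v : E3),
    0 ≤ U (chr χ s) v ∧ U (chr χ s) v ≤ C * s⁻¹ := by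
  obtain ⟨C, hC, h1⟩ := U_bd h
  refine ⟨C, hC.le, fun s hs v => ⟨U_nonneg _ _, ?_⟩⟩
  rw [chr_eq h s hs, mul_comm]
  exact mul_le_mul_of_nonneg_right (h1 _) (inv_nonneg.mpr hs.le)

theorem U_cont (s : ℝ) (hs : 0 < s) : Continuous (U (chr χ s)) := by
  have h1 : Continuous (U χ) := by
    have h2 : U χ = fun w => ∫ u, χ u ^ 2 * (max ‖w‖ ‖u‖)⁻¹ := by
      funext w
      exact (newton_max h w).2
    rw [h2]
    have h0 : ∀ᵐ u : E3, u ≠ 0 := by
      rw [ae_iff]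
      simp
    refine continuous_of_dominated (bound := fun u => χ u ^ 2 * ‖(0 : E3) - u‖⁻¹) ?_ ?_
      (U_intble h 0) ?_
    · intro w
      have := nx_meas h ‖w‖ 1
      simp only [one_mul] at this
      exact this.aestronglyMeasurable
    · intro w
      filter_upwards [h0] with u hu
      have hu' : 0 < ‖u‖ := norm_pos_iff.mpr hu
      rw [Real.norm_of_nonneg (mul_nonneg (sq_nonneg _)
        (inv_nonneg.mpr (le_max_of_le_left (norm_nonneg _)))), zero_sub, norm_neg]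
      exact mul_le_mul_of_nonneg_left (inv_anti₀ hu' (le_max_right _ _)) (sq_nonneg _)
    · filter_upwards [h0] with u hu
      have hu' : 0 < ‖u‖ := norm_pos_iff.mpr hu
      refine continuous_const.mul (Continuous.inv₀ (continuous_norm.max continuous_const) ?_)
      intro w
      exact (lt_max_of_lt_right hu').ne'
  have h3 : U (chr χ s) = fun v => s⁻¹ * U χ (s⁻¹ • v) := by
    funext v
    exact chr_eq h s hs v
  rw [h3]
  exact continuous_const.mul (h1.comp (continuous_const_smul _))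

end H6.CB
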