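import Pool.Agent.H6.CB.PartS
import Pool.Agent.H6.CB.NMax

/-! Lower bound of the potential felt by the inserted electron, as in `Pool/Agent/H6/CM/PotLow.lean`. With `r = r0 * 2 ^ -(l+1)` one has `∫ v, chr χ r (v - w) ^ 2 * ‖v - y‖⁻¹ = U (chr χ r) (y - w)` (`chr_pot`, `chr_eq`); for an electron `b ≠ a` and `slS l ≠ 0` the distance is at least `r` and this is at most `‖w - x b‖⁻¹`; for a nucleus it is at least `U (chr χ s) (R - w)` by `U_anti` (`r ≤ r0 ≤ s`). Then `partS_sum` (`∑ slS ^ 2 = 1 - rmS ^ 2 ≤ 1`). -/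

open MeasureTheory Finset

namespace H6.CB

open H6.CM

private theorem ps_int {χ : E3 → ℝ} (hχ : Bump χ) {n k : ℕ} (z : Fin k → ℝ) (a : Fin n) (w : E3)
    (r : ℝ) (hr : 0 < r) (p : Cfg n k) :
    ∫ v, chr χ r (v - w) ^ 2 * phiE z a p v =
      ∑ j, z j * U (chr χ r) (p.2 j - w) -
        ∑ b ∈ univ.erase a, U (chr χ r) (p.1 b - w) := by
  have h1 : ∀ v, chr χ r (v - w) ^ 2 * phiE z a p v =
      ∑ j, z j * (chr χ r (v - w) ^ 2 * ‖v - p.2 j‖⁻¹) -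
        ∑ b ∈ univ.erase a, chr χ r (v - w) ^ 2 * ‖v - p.1 b‖⁻¹ := by
    intro v
    rw [phiE, mul_sub, mul_sum, mul_sum]
    congr 1
    apply sum_congr rfl
    intro j _
    ring
  simp only [h1]
  rw [integral_sub (integrable_finsetSum _ fun j _ => (chr_pot_int hχ r hr w (p.2 j)).const_mul _)
    (integrable_finsetSum _ fun b _ => chr_pot_int hχ r hr w (p.1 b)),
    integral_finsetSum _ (fun j _ => (chr_pot_int hχ r hr w (p.2 j)).const_mul _),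
    integral_finsetSum _ (fun b _ => chr_pot_int hχ r hr w (p.1 b))]
  congr 1
  · apply sum_congr rfl
    intro j _
    rw [integral_const_mul, chr_pot hχ r hr, chr_eq hχ r hr]
  · apply sum_congr rfl
    intro b _
    rw [chr_pot hχ r hr, chr_eq hχ r hr]

theorem potS {θ : E3 → ℝ} (h : Cut θ) {χ : E3 → ℝ} (hχ : Bump χ) {n k : ℕ}
    (z : Fin k → ℝ) (hz : ∀ j, 0 ≤ z j) (a : Fin n) (w : E3) (s r0 : ℝ) (hr : 0 < r0)
    (hrs : r0 ≤ s) (L : ℕ) (p : Cfg n k) :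
    (1 - rmS θ r0 a w L p.1 ^ 2) * ∑ j, z j * U (chr χ s) (p.2 j - w) -
        ∑ b ∈ univ.erase a, ‖w - p.1 b‖⁻¹ ≤
      ∑ l ∈ range (L + 1), slS θ r0 a w l p.1 ^ 2 *
        ∫ v, chr χ (r0 * ((2 : ℝ) ^ (l + 1))⁻¹) (v - w) ^ 2 * phiE z a p v := by
  obtain ⟨R, hR⟩ : ∃ R : ℝ, R = ∑ j, z j * U (chr χ s) (p.2 j - w) -
      ∑ b ∈ univ.erase a, ‖w - p.1 b‖⁻¹ := ⟨_, rfl⟩
  have key : ∀ l ∈ range (L + 1), slS θ r0 a w l p.1 ^ 2 * R ≤ slS θ r0 a w l p.1 ^ 2 *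
        ∫ v, chr χ (r0 * ((2 : ℝ) ^ (l + 1))⁻¹) (v - w) ^ 2 * phiE z a p v := by
    intro l _
    obtain ⟨r, hr'⟩ : ∃ r : ℝ, r = r0 * ((2 : ℝ) ^ (l + 1))⁻¹ := ⟨_, rfl⟩
    have hr0 : 0 < r := by rw [hr']; positivity
    have hr1 : r ≤ s := by
      refine le_trans ?_ hrs
      rw [hr']
      have h2 : ((2 : ℝ) ^ (l + 1))⁻¹ ≤ 1 := inv_le_one_of_one_le₀ (one_le_pow₀ (by norm_num))
      nlinarith
    rw [← hr', ps_int hχ z a w r hr0 p]
    by_cases hs : slS θ r0 a w l p.1 = 0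
    · rw [hs]
      simp
    · apply mul_le_mul_of_nonneg_left _ (sq_nonneg _)
      rw [hR]
      apply sub_le_sub
      · exact sum_le_sum fun j _ =>
          mul_le_mul_of_nonneg_left (U_anti hχ r s hr0 hr1 _) (hz j)
      · apply sum_le_sum
        intro b hb
        have h4 := slS_far h r0 hr a w l p.1 hs b (ne_of_mem_erase hb)
        rw [← hr'] at h4
        have h5 : p.1 b - w ≠ 0 := by
          intro h0
          rw [h0, norm_zero] at h4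
          linarith
        have h7 := U_le hχ r hr0 _ h5
        rwa [norm_sub_rev] at h7
  refine le_trans ?_ (sum_le_sum key)
  rw [← sum_mul]
  have hps := partS_sum h r0 hr a w L p.1
  have hs1 : ∑ l ∈ range (L + 1), slS θ r0 a w l p.1 ^ 2 = 1 - rmS θ r0 a w L p.1 ^ 2 := by
    linarith
  have hB0 : 0 ≤ ∑ b ∈ univ.erase a, ‖w - p.1 b‖⁻¹ := sum_nonneg fun b _ => by positivity
  have hm0 : 0 ≤ rmS θ r0 a w L p.1 ^ 2 := sq_nonneg _
  rw [hs1, hR]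
  have h8 := mul_nonneg hm0 hB0
  linarith

end H6.CB
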