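import Pool.Agent.H6.CB.NMax

/-! Elementary properties of the doubly smeared potential `UU χ s v = ∫ w, chr χ s w ^ 2 * U (chr χ s) (v - w)`. `UU_le_U` and `UU_inv`: `UU χ s v = ∫ u, chr χ s u ^ 2 * (∫ w, chr χ s w ^ 2 * ‖v - u - w‖⁻¹)` (Fubini) and `∫ w, chr χ s w ^ 2 * ‖y - w‖⁻¹ = U (chr χ s) y ≤ ‖y‖⁻¹`; `UU_eq`: where `s ≤ ‖v‖`, one has `s / 2 ≤ ‖v - w‖` for `‖w‖ < s / 2`, so `UU χ s v = ∫ w, chr χ s w ^ 2 * ‖v - w‖⁻¹ = U (chr χ s) v = ‖v‖⁻¹`; `UU_low`: `‖v - w‖ ≤ ‖v‖ + s / 2` and `U_low`. -/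

open MeasureTheory Finset

namespace H6.CB

open H6.CM

variable {χ : E3 → ℝ} (h : Bump χ)
include h

private theorem ub_rad (s : ℝ) (u v : E3) (huv : ‖u‖ = ‖v‖) : chr χ s u = chr χ s v := by
  unfold chr
  rw [h.radial (s⁻¹ • u) (s⁻¹ • v) (by rw [norm_smul, norm_smul, huv])]

private theorem ub_int (s : ℝ) (hs : 0 < s) : Integrable (fun w => chr χ s w ^ 2) := by
  apply Integrable.of_integral_ne_zero
  rw [chr_norm h s hs]
  exact one_ne_zero

private theorem ub_pot (s : ℝ) (hs : 0 < s) (v : E3) :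
    Integrable (fun w => chr χ s w ^ 2 * ‖v - w‖⁻¹) := by
  have h1 := chr_pot_int h s hs 0 v
  refine h1.congr (Filter.Eventually.of_forall fun w => ?_)
  simp only [sub_zero]
  rw [norm_sub_rev]

private theorem ub_ne (v : E3) : ∀ᵐ w : E3, v - w ≠ 0 := by
  have h1 : ∀ᵐ w : E3, w ≠ v := by
    rw [ae_iff]
    have : {a : E3 | ¬a ≠ v} = {v} := by
      ext a
      simp
    rw [this]
    exact measure_singleton v
  filter_upwards [h1] with w hw h2
  exact hw (sub_eq_zero.1 h2).symm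

private theorem ub_even (s : ℝ) (y : E3) : U (chr χ s) (-y) = U (chr χ s) y := by
  unfold U
  rw [← integral_neg_eq_self (μ := volume) (fun u => chr χ s u ^ 2 * ‖y - u‖⁻¹)]
  refine integral_congr_ae (Filter.Eventually.of_forall fun u => ?_)
  simp only
  rw [ub_rad h s (-u) u (norm_neg u), ← norm_neg (-y - u)]
  congr 3
  abel

theorem chr_bump (s : ℝ) (hs : 0 < s) (hs1 : s ≤ 1) : Bump (chr χ s) where
  smooth := chr_smooth h s hs
  supp := fun v hv => by
    have := chr_supp h s hs v hv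
    linarith
  radial := fun u v huv => ub_rad h s u v huv
  norm := chr_norm h s hs

theorem UU_int (s : ℝ) (hs : 0 < s) (v : E3) :
    Integrable (fun w => chr χ s w ^ 2 * U (chr χ s) (v - w)) := by
  obtain ⟨C, hC, hb⟩ := U_bds h
  have h1 : Continuous (fun w => U (chr χ s) (v - w)) :=
    (U_cont h s hs).comp (continuous_const.sub continuous_id)
  refine Integrable.mono' ((ub_int h s hs).mul_const (C * s⁻¹))
    ((ub_int h s hs).aestronglyMeasurable.mul h1.aestronglyMeasurable)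
    (Filter.Eventually.of_forall fun w => ?_)
  rw [norm_mul, Real.norm_eq_abs, Real.norm_eq_abs, abs_of_nonneg (sq_nonneg _),
    abs_of_nonneg (hb s hs (v - w)).1]
  exact mul_le_mul_of_nonneg_left (hb s hs (v - w)).2 (sq_nonneg _)

theorem UU_nonneg (s : ℝ) (hs : 0 < s) (v : E3) : 0 ≤ UU χ s v := by
  unfold UU
  exact integral_nonneg fun w => mul_nonneg (sq_nonneg _) (U_nonneg _ _)

theorem UU_le_U (s : ℝ) (hs : 0 < s) (v : E3) : UU χ s v ≤ U (chr χ s) v := by
  unfold UU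
  rw [show U (chr χ s) v = ∫ u, chr χ s u ^ 2 * ‖v - u‖⁻¹ from rfl]
  refine integral_mono_ae (UU_int h s hs v) (ub_pot h s hs v) ?_
  filter_upwards [ub_ne h v] with w hw
  exact mul_le_mul_of_nonneg_left (U_le h s hs (v - w) hw) (sq_nonneg _)

theorem UU_inv (s : ℝ) (hs : 0 < s) (v : E3) (hv : v ≠ 0) : UU χ s v ≤ ‖v‖⁻¹ :=
  (UU_le_U h s hs v).trans (U_le h s hs v hv)

theorem UU_eq (s : ℝ) (hs : 0 < s) (v : E3) (hv : s ≤ ‖v‖) : UU χ s v = ‖v‖⁻¹ := by
  rw [← U_out h s hs v (by linarith)]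
  unfold UU
  rw [show U (chr χ s) v = ∫ u, chr χ s u ^ 2 * ‖v - u‖⁻¹ from rfl]
  refine integral_congr_ae (Filter.Eventually.of_forall fun w => ?_)
  simp only
  by_cases hw : chr χ s w = 0
  · rw [hw]
    simp
  · have h1 := chr_supp h s hs w hw
    have h2 : s / 2 ≤ ‖v - w‖ := by
      have := norm_sub_norm_le v w
      linarith
    rw [U_out h s hs (v - w) h2]

theorem UU_low (s : ℝ) (hs : 0 < s) (v : E3) : (‖v‖ + s / 2)⁻¹ ≤ UU χ s v := by
  have h0 : (‖v‖ + s / 2)⁻¹ = ∫ w, chr χ s w ^ 2 * (‖v‖ + s / 2)⁻¹ := by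
    rw [integral_mul_const, chr_norm h s hs, one_mul]
  rw [h0]
  unfold UU
  refine integral_mono ((ub_int h s hs).mul_const _) (UU_int h s hs v) fun w => ?_
  simp only
  by_cases hw : chr χ s w = 0
  · rw [hw]
    simp
  · have h1 := chr_supp h s hs w hw
    refine mul_le_mul_of_nonneg_left ?_ (sq_nonneg _)
    refine le_trans ?_ (U_low h s hs (v - w))
    have h3 : 0 < max ‖v - w‖ (s / 2) := lt_max_of_lt_right (by linarith)
    refine inv_anti₀ h3 (max_le ?_ ?_)
    · have := norm_sub_le v w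
      linarith
    · have := norm_nonneg v
      linarith

theorem UU_neg (s : ℝ) (v : E3) : UU χ s (-v) = UU χ s v := by
  unfold UU
  rw [← integral_neg_eq_self (μ := volume) (fun w => chr χ s w ^ 2 * U (chr χ s) (v - w))]
  refine integral_congr_ae (Filter.Eventually.of_forall fun w => ?_)
  simp only
  rw [ub_rad h s (-w) w (norm_neg w), ← ub_even h s (-v - w)]
  congr 2
  abel

theorem UU_bd : ∃ C : ℝ, 0 ≤ C ∧ ∀ (s : ℝ) (_ : 0 < s) (v : E3), UU χ s v ≤ C * s⁻¹ := by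
  obtain ⟨C, hC, hb⟩ := U_bds h
  exact ⟨C, hC, fun s hs v => (UU_le_U h s hs v).trans (hb s hs v).2⟩

/-- average of the single smeared potential -/
theorem UU_avg (s : ℝ) (hs : 0 < s) (v y : E3) :
    Integrable (fun w => chr χ s (w - v) ^ 2 * U (chr χ s) (y - w)) ∧
    ∫ w, chr χ s (w - v) ^ 2 * U (chr χ s) (y - w) = UU χ s (v - y) := by
  have h1 : ∀ w, chr χ s (w - v) ^ 2 * U (chr χ s) (y - w) =
      (fun w => chr χ s w ^ 2 * U (chr χ s) ((y - v) - w)) (w - v) := by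
    intro w
    simp only
    congr 2
    abel
  constructor
  · simp_rw [h1]
    exact (UU_int h s hs (y - v)).comp_sub_right v
  · simp_rw [h1]
    rw [integral_sub_right_eq_self (fun w => chr χ s w ^ 2 * U (chr χ s) ((y - v) - w)) v]
    rw [← UU_neg h s (v - y), neg_sub]
    rfl

/-- the doubly smeared potential as a double integral of the Coulomb potential -/
theorem UU_dbl (s : ℝ) (hs : 0 < s) (v y : E3) :
    ∫ w, chr χ s (w - v) ^ 2 * (∫ u, chr χ s (u - w) ^ 2 * ‖u - y‖⁻¹) = UU χ s (v - y) := by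
  rw [← (UU_avg h s hs v y).2]
  refine integral_congr_ae (Filter.Eventually.of_forall fun w => ?_)
  simp only
  rw [chr_pot h s hs w y, ← chr_eq h s hs (y - w)]

end H6.CB
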