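import Pool.Agent.H6.CB.SumS
import Pool.Agent.H6.CB.PotS
import Pool.Agent.H6.CB.UB

/-! Multiply `sumS` and `potS` by `chr χ s (w - v) ^ 2`, integrate over `w` and exchange the integrals over `w` and `p` (`mean_fub`; integrability on the product as in `Pool/Agent/H6/CM/ERelA.lean`, `int_pe`). Where `chr χ s (w - v) ≠ 0` the closed unit ball around `w` lies in `Λ`. The average of the electron part of `potS` is `∑ U (chr χ s) (x b - v)` (`U_trans` for the bump `chr χ s`). -/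

open MeasureTheory Finset

namespace H6.CB

open H6.CM

/-- the remainder terms -/
private noncomputable def P6 {n k : ℕ} (θ B : E3 → ℝ) (z : Fin k → ℝ) (r0 : ℝ) (a : Fin n)
    (L : ℕ) (w : E3) (p : Cfg n k) : ℝ :=
  ∑ j, z j * (rmS θ r0 a w L p.1 ^ 2 * U B (p.2 j - w))

/-- the lower bound of the potential -/
private noncomputable def P7 {n k : ℕ} (B : E3 → ℝ) (z : Fin k → ℝ) (a : Fin n) (w : E3)
    (p : Cfg n k) : ℝ :=
  ∑ j, z j * U B (p.2 j - w) - ∑ b ∈ univ.erase a, ‖w - p.1 b‖⁻¹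

section meas

variable {q n k : ℕ} {Λ : Set E3} {ψ : (Fin n → Fin q) → Cfg n k → ℂ} (hψ : Sm q n k Λ ψ)
  {θ : E3 → ℝ} (h : Cut θ) {B : E3 → ℝ} (hB : Bump B) (r0 : ℝ) (hr : 0 < r0) (a : Fin n)
  (v : E3) (L : ℕ)

include hψ hB in
private theorem ip_bdd {F : E3 → Cfg n k → ℝ} (hF : Measurable (fun u : Cfg n k × E3 => F u.2 u.1))
    (M : ℝ) (hM : ∀ w p, |F w p| ≤ M) : IP ψ (fun w => B (w - v) ^ 2) F := by
  intro σ
  have h1 : Integrable (fun u : Cfg n k × E3 => B (u.2 - v) ^ 2 * ‖ψ σ u.1‖ ^ 2) :=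
    nuc_prod ((Sm_sq hψ σ).1.integrable_of_hasCompactSupport (Sm_sq hψ σ).2) (nuc_h_int hB v)
  refine (h1.bdd_mul hF.aestronglyMeasurable (c := M)
    (Filter.Eventually.of_forall fun u => by simpa using hM u.2 u.1)).congr
    (Filter.Eventually.of_forall fun u => ?_)
  simp only
  ring

include h hr in
private theorem rm_cont2 : Continuous (fun u : Cfg n k × E3 => rmS θ r0 a u.2 L u.1.1 ^ 2) := by
  have h1 : Continuous (fun u : Cfg n k × E3 => ((u.2, u.1.1) : E3 × (Fin n → E3))) :=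
    continuous_snd.prodMk (continuous_fst.comp continuous_fst)
  exact ((rmS_joint h r0 hr a L).comp h1).pow 2

private theorem rm_le (w : E3) (x : Fin n → E3) : rmS θ r0 a w L x ^ 2 ≤ 1 := by
  unfold rmS rm
  exact Real.cos_sq_le_one _

include hψ h hB hr in
private theorem ip0 : IP ψ (fun w => B (w - v) ^ 2) (fun w p => rmS θ r0 a w L p.1 ^ 2) := by
  refine ip_bdd hψ hB v (rm_cont2 h r0 hr a L).measurable 1 fun w p => ?_
  rw [abs_of_nonneg (sq_nonneg _)]
  exact rm_le r0 a L w p.1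

include h hB hr in
private theorem ip1 (Φ : Cfg n k → ℝ) (hΦ : IM ψ Φ) : IP ψ (fun w => B (w - v) ^ 2)
    (fun w p => rmS θ r0 a w L p.1 ^ 2 * |Φ p|) := by
  intro σ
  have h2 : Integrable (fun u : Cfg n k × E3 => B (u.2 - v) ^ 2 * (|Φ u.1| * ‖ψ σ u.1‖ ^ 2)) :=
    nuc_prod (hΦ.abs σ) (nuc_h_int hB v)
  have h3 := h2.bdd_mul (c := 1) (f := fun u : Cfg n k × E3 => rmS θ r0 a u.2 L u.1.1 ^ 2)
    (rm_cont2 h r0 hr a L).aestronglyMeasurable (Filter.Eventually.of_forall fun u => by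
      rw [Real.norm_eq_abs, abs_of_nonneg (sq_nonneg _)]
      exact rm_le r0 a L _ _)
  refine h3.congr (Filter.Eventually.of_forall fun u => ?_)
  simp only
  ring

private theorem dl_nonneg (w : E3) (x : Fin n → E3) : 0 ≤ DlS r0 a w L x := by
  unfold DlS Dl
  refine sum_nonneg fun b _ => sum_nonneg fun l _ => ?_
  split_ifs <;> positivity

private theorem dl_bound : ∃ M : ℝ, ∀ (w : E3) (x : Fin n → E3), DlS r0 a w L x ≤ M := by
  refine ⟨∑ b ∈ univ.erase a, ∑ l ∈ range (L + 1), (4 : ℝ) ^ l, fun w x => ?_⟩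
  unfold DlS Dl
  refine sum_le_sum fun b _ => sum_le_sum fun l _ => ?_
  split_ifs
  · rw [mul_one]
  · rw [mul_zero]
    positivity

private theorem dl_meas {Y : Type*} [TopologicalSpace Y] [MeasurableSpace Y]
    [OpensMeasurableSpace Y] {f : Y → E3} {g : Y → Fin n → E3} (hf : Continuous f)
    (hg : Continuous g) : Measurable (fun u : Y => DlS r0 a (f u) L (g u)) := by
  unfold DlS Dl
  refine Finset.measurable_fun_sum _ fun b _ => Finset.measurable_fun_sum _ fun l _ => ?_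
  refine Measurable.const_mul ?_ _
  refine Measurable.ite ?_ measurable_const measurable_const
  have hc : Continuous (fun u : Y => ‖r0⁻¹ • g u b - r0⁻¹ • f u‖) :=
    ((((continuous_apply b).comp hg).const_smul r0⁻¹).sub (hf.const_smul r0⁻¹)).norm
  exact (isClosed_le hc continuous_const).measurableSet

include hψ hB in
private theorem ip2 : IP ψ (fun w => B (w - v) ^ 2) (fun w p => 1 + DlS r0 a w L p.1) := by
  obtain ⟨M, hM⟩ := dl_bound r0 a L (n := n)
  refine ip_bdd hψ hB v ((dl_meas r0 a L continuous_snd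
    (continuous_fst.comp continuous_fst)).const_add 1) (1 + M) fun w p => ?_
  have h4 := dl_nonneg r0 a L w p.1
  rw [abs_of_nonneg (by linarith)]
  linarith [hM w p.1]

include hψ h hB hr in
private theorem ip6 (hU : Continuous (U B)) (z : Fin k → ℝ) (hz : ∀ j, 0 ≤ z j) :
    IP ψ (fun w => B (w - v) ^ 2) (P6 θ B z r0 a L) := by
  obtain ⟨C, hC, hbd⟩ := U_bd hB
  refine ip_bdd hψ hB v ?_ (∑ j, z j * (1 * C)) fun w p => ?_
  · unfold P6
    refine Finset.measurable_fun_sum _ fun j _ => Measurable.const_mul ?_ _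
    refine (rm_cont2 h r0 hr a L).measurable.mul (hU.comp ?_).measurable
    exact ((continuous_apply j).comp (continuous_snd.comp continuous_fst)).sub continuous_snd
  · unfold P6
    refine (abs_sum_le_sum_abs _ _).trans (sum_le_sum fun j _ => ?_)
    have h0 := U_nonneg B (p.2 j - w)
    rw [abs_of_nonneg (mul_nonneg (hz j) (mul_nonneg (sq_nonneg _) h0))]
    refine mul_le_mul_of_nonneg_left ?_ (hz j)
    exact mul_le_mul (rm_le r0 a L w p.1) (hbd _) h0 zero_le_one

include hψ hB in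
private theorem ip7 (hU : Continuous (U B)) (z : Fin k → ℝ) (hz : ∀ j, 0 ≤ z j) :
    IP ψ (fun w => B (w - v) ^ 2) (P7 B z a) := by
  obtain ⟨C, hC, hbd⟩ := U_bd hB
  have h1 : IP ψ (fun w => B (w - v) ^ 2) (fun w p => ∑ j, z j * U B (p.2 j - w)) := by
    refine ip_bdd hψ hB v ?_ (∑ j, z j * C) fun w p => ?_
    · refine Finset.measurable_fun_sum _ fun j _ => Measurable.const_mul ?_ _
      refine (hU.comp ?_).measurable
      exact ((continuous_apply j).comp (continuous_snd.comp continuous_fst)).sub continuous_snd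
    · refine (abs_sum_le_sum_abs _ _).trans (sum_le_sum fun j _ => ?_)
      have h0 := U_nonneg B (p.2 j - w)
      rw [abs_of_nonneg (mul_nonneg (hz j) h0)]
      exact mul_le_mul_of_nonneg_left (hbd _) (hz j)
  intro σ
  have hg : Continuous (fun u : Cfg n k × E3 => B (u.2 - v) ^ 2 * ‖ψ σ u.1‖ ^ 2) ∧
      HasCompactSupport (fun u : Cfg n k × E3 => B (u.2 - v) ^ 2 * ‖ψ σ u.1‖ ^ 2) := by
    constructor
    · have h1 : Continuous (fun v' => B (v' - v)) := (nuc_h_smooth hB v).continuous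
      exact ((h1.comp continuous_snd).pow 2).mul ((Sm_sq hψ σ).1.comp continuous_fst)
    · refine HasCompactSupport.intro ((hψ.cpt σ).isCompact.prod (nuc_h_cpt hB v).isCompact) ?_
      intro u hu
      rw [Set.mem_prod, not_and_or] at hu
      rcases hu with hu | hu
      · have h3 : ψ σ u.1 = 0 := image_eq_zero_of_notMem_tsupport hu
        rw [h3]
        simp
      · have h4 : B (u.2 - v) = 0 :=
          image_eq_zero_of_notMem_tsupport (f := fun v' => B (v' - v)) hu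
        rw [h4]
        simp
  have h2 : Integrable (fun u : Cfg n k × E3 =>
      ∑ b ∈ univ.erase a, ‖u.2 - u.1.1 b‖⁻¹ * (B (u.2 - v) ^ 2 * ‖ψ σ u.1‖ ^ 2)) :=
    integrable_finsetSum _ fun b _ => int_pe _ hg.1 hg.2 b
  refine ((h1 σ).sub h2).congr (Filter.Eventually.of_forall fun u => ?_)
  simp only [Pi.sub_apply, P7]
  rw [mul_sub, sub_mul, mul_sum (univ.erase a), sum_mul (univ.erase a)]
  congr 1
  exact sum_congr rfl fun b _ => by ring

include hψ h hr in
private theorem im6 (hU : Continuous (U B)) (z : Fin k → ℝ) (w : E3) :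
    IM ψ (P6 θ B z r0 a L w) := by
  refine IM.cont hψ ?_
  unfold P6
  refine continuous_finsetSum _ fun j _ => continuous_const.mul ?_
  refine ((((rmS_smooth h r0 hr a w L).continuous).comp continuous_fst).pow 2).mul (hU.comp ?_)
  exact ((continuous_apply j).comp continuous_snd).sub continuous_const

include hψ in
private theorem im7 (hU : Continuous (U B)) (z : Fin k → ℝ) (w : E3) :
    IM ψ (P7 B z a w) := by
  have h1 : IM ψ (fun p => ∑ j, z j * U B (p.2 j - w)) := by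
    refine IM.cont hψ ?_
    refine continuous_finsetSum _ fun j _ => continuous_const.mul (hU.comp ?_)
    exact ((continuous_apply j).comp continuous_snd).sub continuous_const
  exact h1.sub (IM.sum _ fun b _ => IM_we hψ w b)

include hψ in
private theorem im_pot (z : Fin k → ℝ) {χ : E3 → ℝ}
    (hχ : Bump χ) (r : ℝ) (hr : 0 < r) (w : E3) {s : (Fin n → E3) → ℝ}
    (hs : ContDiff ℝ (⊤ : ℕ∞) s) :
    IM ψ (fun p => s p.1 ^ 2 * ∫ v, chr χ r (v - w) ^ 2 * phiE z a p v) := by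
  intro σ
  obtain ⟨g, hg⟩ : ∃ g : Cfg n k × E3 → ℝ,
    g = fun u => chr χ r (u.2 - w) ^ 2 * (s u.1.1 ^ 2 * ‖ψ σ u.1‖ ^ 2) := ⟨_, rfl⟩
  have hc : Continuous g := by
    rw [hg]
    have h1 : Continuous (fun v => chr χ r (v - w)) := (rl_h_smooth hχ r hr w).continuous
    exact ((h1.comp continuous_snd).pow 2).mul
      (((hs.continuous.comp (continuous_fst.comp continuous_fst)).pow 2).mul
        ((((hψ.smooth σ).continuous).comp continuous_fst).norm.pow 2))
  have hk : HasCompactSupport g := by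
    rw [hg]
    refine HasCompactSupport.intro ((hψ.cpt σ).isCompact.prod
      (rl_h_cpt hχ r hr w).isCompact) ?_
    intro u hu
    rw [Set.mem_prod, not_and_or] at hu
    rcases hu with hu | hu
    · have h3 : ψ σ u.1 = 0 := image_eq_zero_of_notMem_tsupport hu
      rw [h3]
      simp
    · have h4 : chr χ r (u.2 - w) = 0 :=
        image_eq_zero_of_notMem_tsupport (f := fun v => chr χ r (v - w)) hu
      rw [h4]
      simp
  have h5 : Integrable (fun u : Cfg n k × E3 => phiE z a u.1 u.2 * g u) := by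
    have h1 : ∀ u : Cfg n k × E3, phiE z a u.1 u.2 * g u =
        ∑ j, z j * (‖u.2 - u.1.2 j‖⁻¹ * g u) - ∑ b ∈ univ.erase a, ‖u.2 - u.1.1 b‖⁻¹ * g u := by
      intro u
      unfold phiE
      rw [sub_mul, sum_mul, sum_mul]
      simp only [mul_assoc]
    simp only [h1]
    refine Integrable.sub ?_ ?_
    · exact integrable_finsetSum _ fun j _ => (int_pn g hc hk j).const_mul (z j)
    · exact integrable_finsetSum _ fun b _ => int_pe g hc hk b
  refine h5.integral_prod_left.congr (Filter.Eventually.of_forall fun p => ?_)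
  have h2 : ∀ v, phiE z a p v * g (p, v) =
      chr χ r (v - w) ^ 2 * phiE z a p v * (s p.1 ^ 2 * ‖ψ σ p‖ ^ 2) := by
    intro v
    rw [hg]
    ring
  simp only [h2]
  rw [integral_mul_const]
  ring

end meas

private theorem combo {f0 f1 f2 f3 f5 f6 f7 : E3 → ℝ} (h0 : Integrable f0)
    (h1 : Integrable f1) (h2 : Integrable f2) (h3 : Integrable f3)
    (h5 : Integrable f5) (h6 : Integrable f6) (h7 : Integrable f7)
    (key : ∀ w, f0 w - f1 w ≤ f2 w + f3 w + f5 w + f6 w - f7 w) :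
    (∫ w, f0 w) - (∫ w, f1 w) ≤ (∫ w, f2 w) + (∫ w, f3 w) + (∫ w, f5 w) +
      (∫ w, f6 w) - (∫ w, f7 w) := by
  have e : (∫ w, f0 w) + (∫ w, f7 w) ≤ (∫ w, f2 w) + (∫ w, f3 w) +
      (∫ w, f5 w) + (∫ w, f6 w) + (∫ w, f1 w) := by
    rw [← integral_add h0 h7, ← integral_add h2 h3]
    have g3 : Integrable (fun w => f2 w + f3 w) := h2.add h3
    rw [← integral_add g3 h5]
    have g5 : Integrable (fun w => f2 w + f3 w + f5 w) := g3.add h5
    rw [← integral_add g5 h6]
    have g6 : Integrable (fun w => f2 w + f3 w + f5 w + f6 w) := g5.add h6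
    rw [← integral_add g6 h1]
    have g7 : Integrable (fun w => f2 w + f3 w + f5 w + f6 w + f1 w) := g6.add h1
    have g8 : Integrable (fun w => f0 w + f7 w) := h0.add h7
    refine integral_mono g8 g7 fun w => ?_
    have := key w
    simp only
    linarith
  linarith

private theorem pointwise {θ : E3 → ℝ} (h : Cut θ) {χ : E3 → ℝ} (hχ : Bump χ) : ∃ C : ℝ, 0 ≤ C ∧
    ∀ (q n k : ℕ) (Λ : Set E3) (z κ : Fin k → ℝ) (_ : ∀ j, 0 ≤ z j)
    (_ : ∀ j, 0 ≤ κ j) (E : ℝ) (_ : LB q n k Λ z κ E) (a : Fin n)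
    (ψ : (Fin n → Fin q) → Cfg n k → ℂ) (_ : Sa q n k Λ a ψ) (s r0 : ℝ) (_ : 0 < r0)
    (_ : r0 ≤ s) (_ : s ≤ 1) (w : E3) (_ : Metric.closedBall w 1 ⊆ Λ) (L : ℕ),
    E * (mass ψ - mean ψ (fun p => rmS θ r0 a w L p.1 ^ 2)) ≤
      energy z κ ψ - kE ψ a + mean ψ (fun p => phiE z a p (p.1 a)) +
      mean ψ (fun p => rmS θ r0 a w L p.1 ^ 2 * |V z p + phiE z a p (p.1 a)|) +
      C * (r0 ^ 2)⁻¹ * mean ψ (fun p => 1 + DlS r0 a w L p.1) +
      mean ψ (P6 θ (chr χ s) z r0 a L w) - mean ψ (P7 (chr χ s) z a w) := by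
  obtain ⟨C, hC, H⟩ := sumS h hχ
  refine ⟨C, hC, ?_⟩
  intro q n k Λ z κ hz hκ E hE a ψ hψa s r0 hr0 hrs hs1 w hw L
  have hs : 0 < s := hr0.trans_le hrs
  have hB : Bump (chr χ s) := chr_bump hχ s hs hs1
  have hU : Continuous (U (chr χ s)) := U_cont hχ s hs
  have hψ : Sm q n k Λ ψ := Sa_sm hψa
  have h1 := H q n k Λ z κ hκ E hE a ψ hψa r0 hr0 (hrs.trans hs1) w hw L
  have i6 : IM ψ (P6 θ (chr χ s) z r0 a L w) := im6 hψ h r0 hr0 a L hU z w
  have i7 : IM ψ (P7 (chr χ s) z a w) := im7 hψ a hU z w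
  have h2 : mean ψ (fun p => P7 (chr χ s) z a w p - P6 θ (chr χ s) z r0 a L w p) ≤
      mean ψ (fun p => ∑ l ∈ range (L + 1), slS θ r0 a w l p.1 ^ 2 *
        ∫ v, chr χ (r0 * ((2 : ℝ) ^ (l + 1))⁻¹) (v - w) ^ 2 * phiE z a p v) := by
    refine mean_mono (i7.sub i6) (IM.sum _ fun l _ => im_pot hψ a z hχ _ (by positivity) w
      (slS_smooth h r0 hr0 a w l)) ?_
    intro σ p _
    refine le_trans (le_of_eq ?_) (potS h hχ z hz a w s r0 hr0 hrs L p)
    unfold P7 P6
    rw [sub_mul, one_mul, mul_sum univ _ (rmS θ r0 a w L p.1 ^ 2)]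
    have e : ∑ j, z j * (rmS θ r0 a w L p.1 ^ 2 * U (chr χ s) (p.2 j - w)) =
        ∑ j, rmS θ r0 a w L p.1 ^ 2 * (z j * U (chr χ s) (p.2 j - w)) :=
      sum_congr rfl fun j _ => by ring
    rw [e]
    ring
  rw [mean_sub i7 i6] at h2
  linarith

theorem erelAS {θ : E3 → ℝ} (h : Cut θ) {χ : E3 → ℝ} (hχ : Bump χ) : ∃ C : ℝ, 0 ≤ C ∧
    ∀ (q n k : ℕ) (Λ : Set E3) (z κ : Fin k → ℝ) (_ : ∀ j, 0 ≤ z j)
    (_ : ∀ j, 0 ≤ κ j) (E : ℝ) (_ : LB q n k Λ z κ E) (a : Fin n)
    (ψ : (Fin n → Fin q) → Cfg n k → ℂ) (_ : Sa q n k Λ a ψ) (s r0 : ℝ) (_ : 0 < r0)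
    (_ : r0 ≤ s) (_ : s ≤ 1) (v : E3) (_ : Metric.closedBall v 2 ⊆ Λ) (L : ℕ),
    E * (mass ψ - mean ψ (fun p => ∫ w, chr χ s (w - v) ^ 2 * rmS θ r0 a w L p.1 ^ 2)) ≤
      energy z κ ψ - kE ψ a + mean ψ (fun p => phiE z a p (p.1 a)) +
      mean ψ (fun p => (∫ w, chr χ s (w - v) ^ 2 * rmS θ r0 a w L p.1 ^ 2) *
        |V z p + phiE z a p (p.1 a)|) +
      C * (r0 ^ 2)⁻¹ * mean ψ (fun p => 1 + ∫ w, chr χ s (w - v) ^ 2 * DlS r0 a w L p.1) +
      mean ψ (fun p => ∑ j, z j * ∫ w, chr χ s (w - v) ^ 2 *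
        (rmS θ r0 a w L p.1 ^ 2 * U (chr χ s) (p.2 j - w))) -
      mean ψ (fun p => ∑ j, z j * UU χ s (v - p.2 j) -
        ∑ b ∈ univ.erase a, U (chr χ s) (p.1 b - v)) := by
  obtain ⟨C, hC, H⟩ := pointwise h hχ
  refine ⟨C, hC, ?_⟩
  intro q n k Λ z κ hz hκ E hE a ψ hψa s r0 hr0 hrs hs1 v hv L
  have hs : 0 < s := hr0.trans_le hrs
  have hB : Bump (chr χ s) := chr_bump hχ s hs hs1
  have hU : Continuous (U (chr χ s)) := U_cont hχ s hs
  have hψ : Sm q n k Λ ψ := Sa_sm hψa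
  have hΦ : IM ψ (fun p => V z p + phiE z a p (p.1 a)) := (IM_V hψ z).add (IM_phiE hψ z a)
  have hcw : Integrable (fun w => chr χ s (w - v) ^ 2) := nuc_h_int hB v
  have hc1 : ∫ w, chr χ s (w - v) ^ 2 = 1 := by
    rw [integral_sub_right_eq_self (fun w => chr χ s w ^ 2) v]
    exact hB.norm
  obtain ⟨i0, j0, e0⟩ := mean_fub (ip0 hψ h hB r0 hr0 a v L)
  obtain ⟨i1, j1, e1⟩ := mean_fub (ip1 h hB r0 hr0 a v L _ hΦ)
  obtain ⟨i2, j2, e2⟩ := mean_fub (ip2 hψ hB r0 a v L)
  obtain ⟨i6, j6, e6⟩ := mean_fub (ip6 hψ h hB r0 hr0 a v L hU z hz)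
  obtain ⟨i7, j7, e7⟩ := mean_fub (ip7 hψ hB a v hU z hz)
  have key : ∀ w, chr χ s (w - v) ^ 2 * (E * mass ψ) -
      E * (chr χ s (w - v) ^ 2 * mean ψ (fun p => rmS θ r0 a w L p.1 ^ 2)) ≤
      chr χ s (w - v) ^ 2 * (energy z κ ψ - kE ψ a + mean ψ (fun p => phiE z a p (p.1 a))) +
      chr χ s (w - v) ^ 2 *
        mean ψ (fun p => rmS θ r0 a w L p.1 ^ 2 * |V z p + phiE z a p (p.1 a)|) +
      C * (r0 ^ 2)⁻¹ * (chr χ s (w - v) ^ 2 * mean ψ (fun p => 1 + DlS r0 a w L p.1)) +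
      chr χ s (w - v) ^ 2 * mean ψ (P6 θ (chr χ s) z r0 a L w) -
      chr χ s (w - v) ^ 2 * mean ψ (P7 (chr χ s) z a w) := by
    intro w
    by_cases hw : chr χ s (w - v) = 0
    · simp [hw]
    · have hw1 : ‖w - v‖ < 1 / 2 := hB.supp _ hw
      have hsub : Metric.closedBall w 1 ⊆ Λ := by
        refine (Metric.closedBall_subset_closedBall' ?_).trans hv
        rw [dist_eq_norm]
        linarith
      have h1 := H q n k Λ z κ hz hκ E hE a ψ hψa s r0 hr0 hrs hs1 w hsub L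
      have h2 := mul_le_mul_of_nonneg_left h1 (sq_nonneg (chr χ s (w - v)))
      refine le_trans (le_of_eq ?_) (h2.trans (le_of_eq ?_))
      · ring
      · ring
  have hint := combo (hcw.mul_const (E * mass ψ)) (i0.const_mul E)
    (hcw.mul_const (energy z κ ψ - kE ψ a + mean ψ (fun p => phiE z a p (p.1 a))))
    i1 (i2.const_mul (C * (r0 ^ 2)⁻¹)) i6 i7 key
  have r1 : mean ψ (fun p => ∫ w, chr χ s (w - v) ^ 2 *
      (rmS θ r0 a w L p.1 ^ 2 * |V z p + phiE z a p (p.1 a)|)) =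
      mean ψ (fun p => (∫ w, chr χ s (w - v) ^ 2 * rmS θ r0 a w L p.1 ^ 2) *
        |V z p + phiE z a p (p.1 a)|) := by
    congr 1
    funext p
    rw [← integral_mul_const]
    congr 1
    funext w
    ring
  -- integrability in `w` for a fixed configuration
  have hbw : ∀ (F : E3 → ℝ) (M : ℝ), Measurable F → (∀ w, |F w| ≤ M) →
      Integrable (fun w => chr χ s (w - v) ^ 2 * F w) := by
    intro F M hF hM
    refine (hcw.bdd_mul (c := M) hF.aestronglyMeasurable
      (Filter.Eventually.of_forall fun w => by simpa using hM w)).congr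
      (Filter.Eventually.of_forall fun w => ?_)
    simp only
    ring
  have r2 : mean ψ (fun p => ∫ w, chr χ s (w - v) ^ 2 * (1 + DlS r0 a w L p.1)) =
      mean ψ (fun p => 1 + ∫ w, chr χ s (w - v) ^ 2 * DlS r0 a w L p.1) := by
    obtain ⟨M, hM⟩ := dl_bound r0 a L (n := n)
    congr 1
    funext p
    have h1 : Integrable (fun w => chr χ s (w - v) ^ 2 * DlS r0 a w L p.1) :=
      hbw _ M (dl_meas r0 a L continuous_id continuous_const) fun w => by
        rw [abs_of_nonneg (dl_nonneg r0 a L w p.1)]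
        exact hM w p.1
    have h2 := integral_add hcw h1
    rw [hc1] at h2
    rw [← h2]
    congr 1
    funext w
    ring
  obtain ⟨C6, hC6, hbd⟩ := U_bd hB
  have r6 : mean ψ (fun p => ∫ w, chr χ s (w - v) ^ 2 * P6 θ (chr χ s) z r0 a L w p) =
      mean ψ (fun p => ∑ j, z j * ∫ w, chr χ s (w - v) ^ 2 *
        (rmS θ r0 a w L p.1 ^ 2 * U (chr χ s) (p.2 j - w))) := by
    congr 1
    funext p
    have h1 : ∀ j, Integrable (fun w => chr χ s (w - v) ^ 2 *
        (rmS θ r0 a w L p.1 ^ 2 * U (chr χ s) (p.2 j - w))) := by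
      intro j
      refine hbw _ (1 * C6) ?_ fun w => ?_
      · refine Measurable.mul ?_ (hU.comp (continuous_const.sub continuous_id)).measurable
        have h3 : Continuous (fun w : E3 => ((w, p.1) : E3 × (Fin n → E3))) :=
          continuous_id.prodMk continuous_const
        exact (((rmS_joint h r0 hr0 a L).comp h3).pow 2).measurable
      · have h0 := U_nonneg (chr χ s) (p.2 j - w)
        rw [abs_of_nonneg (mul_nonneg (sq_nonneg _) h0)]
        exact mul_le_mul (rm_le r0 a L w p.1) (hbd _) h0 zero_le_one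
    have h2 : ∀ w, chr χ s (w - v) ^ 2 * P6 θ (chr χ s) z r0 a L w p =
        ∑ j, z j * (chr χ s (w - v) ^ 2 *
          (rmS θ r0 a w L p.1 ^ 2 * U (chr χ s) (p.2 j - w))) := by
      intro w
      unfold P6
      rw [mul_sum]
      exact sum_congr rfl fun j _ => by ring
    simp only [h2]
    rw [integral_finsetSum _ fun j _ => (h1 j).const_mul (z j)]
    simp only [integral_const_mul]
  have r7 : mean ψ (fun p => ∫ w, chr χ s (w - v) ^ 2 * P7 (chr χ s) z a w p) =
      mean ψ (fun p => ∑ j, z j * UU χ s (v - p.2 j) -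
        ∑ b ∈ univ.erase a, U (chr χ s) (p.1 b - v)) := by
    congr 1
    funext p
    have h2 : ∀ w, chr χ s (w - v) ^ 2 * P7 (chr χ s) z a w p =
        ∑ j, z j * (chr χ s (w - v) ^ 2 * U (chr χ s) (p.2 j - w)) -
          ∑ b ∈ univ.erase a, chr χ s (w - v) ^ 2 * ‖w - p.1 b‖⁻¹ := by
      intro w
      unfold P7
      rw [mul_sub, mul_sum, mul_sum]
      congr 1
      exact sum_congr rfl fun j _ => by ring
    simp only [h2]
    rw [integral_sub (integrable_finsetSum _ fun j _ => ((UU_avg hχ s hs v _).1).const_mul (z j))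
      (integrable_finsetSum _ fun b _ => chr_pot_int hχ s hs v _),
      integral_finsetSum _ (fun j _ => ((UU_avg hχ s hs v _).1).const_mul (z j)),
      integral_finsetSum _ (fun b _ => chr_pot_int hχ s hs v _)]
    simp only [integral_const_mul, (UU_avg hχ s hs v _).2, U_trans hB]
  have s3 : ∫ w, chr χ s (w - v) ^ 2 *
      (energy z κ ψ - kE ψ a + mean ψ (fun p => phiE z a p (p.1 a))) =
      energy z κ ψ - kE ψ a + mean ψ (fun p => phiE z a p (p.1 a)) := by
    rw [integral_mul_const, hc1, one_mul]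
  have s5 : ∫ w, C * (r0 ^ 2)⁻¹ * (chr χ s (w - v) ^ 2 *
      mean ψ (fun p => 1 + DlS r0 a w L p.1)) =
      C * (r0 ^ 2)⁻¹ * mean ψ (fun p => 1 + ∫ w, chr χ s (w - v) ^ 2 * DlS r0 a w L p.1) := by
    rw [integral_const_mul, e2, r2]
  have s1 : ∫ w, chr χ s (w - v) ^ 2 * (E * mass ψ) = E * mass ψ := by
    rw [integral_mul_const, hc1, one_mul]
  have s2 : ∫ w, E * (chr χ s (w - v) ^ 2 * mean ψ (fun p => rmS θ r0 a w L p.1 ^ 2)) =
      E * mean ψ (fun p => ∫ w, chr χ s (w - v) ^ 2 * rmS θ r0 a w L p.1 ^ 2) := by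
    rw [integral_const_mul, e0]
  rw [s1, s2, s3, s5, e1, e6, e7, r1, r6, r7] at hint
  rw [mul_sub]
  exact hint

end H6.CB
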