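import Pool.Agent.H6.CB.PartS
import Pool.Agent.H6.CM.WInt
import Pool.Agent.H6.CM.ChR

/-! Averages over `w` with the weight `chr χ s (w - v) ^ 2`, which is at most `C * (s ^ 3)⁻¹` and supported in the ball of radius `s / 2` around `v` (`chr_supp`): volumes of balls as in `Pool/Agent/H6/CM/WInt.lean`. For `wintS_D`: the indicator of `‖r0⁻¹ • y - r0⁻¹ • w‖ ≤ 2 ^ -l` is the ball of radius `r0 * 2 ^ -l` around `y` with volume `C * r0 ^ 3 * 8 ^ -l`, times `4 ^ l`, and only electrons with `‖x b - v‖ ≤ s / 2 + r0 < 2 * s` contribute. For `wintS_rm`: `rmS_near`, `rmS ^ 2 ≤ 1`. -/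

open MeasureTheory Finset

namespace H6.CB

open H6.CM

private theorem ws_bd {χ : E3 → ℝ} (hχ : Bump χ) : ∃ M : ℝ, 0 ≤ M ∧
    ∀ (s : ℝ), 0 < s → ∀ v, chr χ s v ^ 2 ≤ M * (s ^ 3)⁻¹ := by
  obtain ⟨C, hC⟩ := hχ.cpt.exists_bound_of_continuous hχ.smooth.continuous
  refine ⟨C ^ 2, sq_nonneg C, fun s hs v => ?_⟩
  have h1 : (s ^ (-(3 / 2) : ℝ)) ^ 2 = (s ^ 3)⁻¹ := by
    rw [← Real.rpow_natCast, ← Real.rpow_mul hs.le]
    have : (-(3 / 2) : ℝ) * ((2 : ℕ) : ℝ) = -((3 : ℕ) : ℝ) := by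
      push_cast
      norm_num
    rw [this, Real.rpow_neg hs.le, Real.rpow_natCast]
  rw [chr, mul_pow, h1, mul_comm]
  apply mul_le_mul_of_nonneg_right _ (by positivity)
  rw [← sq_abs (χ _)]
  exact pow_le_pow_left₀ (abs_nonneg _) (hC _) 2

private noncomputable def wsB : ℝ := (volume (Metric.ball (0 : E3) 1)).toReal

private theorem wsB_nonneg : 0 ≤ wsB := ENNReal.toReal_nonneg

private theorem ws_vol (y : E3) (ρ : ℝ) (hρ : 0 ≤ ρ) :
    (volume (Metric.closedBall y ρ)).toReal = ρ ^ 3 * wsB := by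
  rw [Measure.addHaar_closedBall _ _ hρ, ENNReal.toReal_mul, finrank_euclideanSpace_fin,
    ENNReal.toReal_ofReal (by positivity), wsB]

private theorem ws_ind_int (y : E3) (ρ M : ℝ) :
    Integrable ((Metric.closedBall y ρ).indicator fun _ => M) := by
  rw [integrable_indicator_iff measurableSet_closedBall]
  exact integrableOn_const measure_closedBall_lt_top.ne (by simp)

private theorem ws_ind (y : E3) (ρ M : ℝ) (hρ : 0 ≤ ρ) :
    ∫ w, (Metric.closedBall y ρ).indicator (fun _ => M) w = M * (ρ ^ 3 * wsB) := by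
  rw [integral_indicator_const _ measurableSet_closedBall, Measure.real, ws_vol y ρ hρ,
    smul_eq_mul, mul_comm]

private theorem ws_pow (l : ℕ) : 0 < ((2 : ℝ) ^ l)⁻¹ ∧ ((2 : ℝ) ^ l)⁻¹ ≤ 1 :=
  ⟨by positivity, inv_le_one_of_one_le₀ (one_le_pow₀ (by norm_num))⟩

private theorem ws_scale (r0 : ℝ) (hr : 0 < r0) (y w : E3) (ρ : ℝ) :
    ‖r0⁻¹ • y - r0⁻¹ • w‖ ≤ ρ ↔ ‖y - w‖ ≤ r0 * ρ := by
  rw [← smul_sub, norm_smul, Real.norm_of_nonneg (by positivity), inv_mul_le_iff₀ hr]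

private theorem ws_int {χ : E3 → ℝ} (hχ : Bump χ) (s : ℝ) (hs : 0 < s) :
    Integrable (fun v => chr χ s v ^ 2) := by
  by_contra h
  have h1 := chr_norm hχ s hs
  rw [integral_undef h] at h1
  norm_num at h1

private theorem ws_term {χ : E3 → ℝ} (hχ : Bump χ) (M : ℝ) (s r0 : ℝ) (hr : 0 < r0) (hrs : r0 ≤ s)
    (hM : ∀ v, chr χ s v ^ 2 ≤ M * (s ^ 3)⁻¹)
    (v y : E3) (l : ℕ) :
    Integrable (fun w => chr χ s (w - v) ^ 2 *
      ((4 : ℝ) ^ l * (if ‖r0⁻¹ • y - r0⁻¹ • w‖ ≤ ((2 : ℝ) ^ l)⁻¹ then 1 else 0))) ∧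
    ∫ w, chr χ s (w - v) ^ 2 *
      ((4 : ℝ) ^ l * (if ‖r0⁻¹ • y - r0⁻¹ • w‖ ≤ ((2 : ℝ) ^ l)⁻¹ then 1 else 0)) ≤
      M * wsB * (r0 ^ 3 * (s ^ 3)⁻¹) * (1 / 2) ^ l * (if ‖y - v‖ < 2 * s then 1 else 0) := by
  obtain ⟨hp, hp1⟩ := ws_pow l
  have hs : 0 < s := hr.trans_le hrs
  have hM0 : 0 ≤ M * (s ^ 3)⁻¹ := (sq_nonneg _).trans (hM 0)
  simp only [ws_scale r0 hr]
  have hf0 : ∀ w, 0 ≤ chr χ s (w - v) ^ 2 *
      ((4 : ℝ) ^ l * (if ‖y - w‖ ≤ r0 * ((2 : ℝ) ^ l)⁻¹ then 1 else 0)) := by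
    intro w
    split_ifs <;> positivity
  constructor
  · have h1 : Integrable (fun w => chr χ s (w - v) ^ 2 * (4 : ℝ) ^ l) :=
      ((ws_int hχ s hs).comp_sub_right v).mul_const _
    refine h1.mono' ?_ (Filter.Eventually.of_forall fun w => ?_)
    · apply Measurable.aestronglyMeasurable
      have m1 : Measurable fun w => chr χ s (w - v) := by
        have := (chr_smooth hχ s hs).continuous
        fun_prop
      refine (m1.pow_const 2).mul (measurable_const.mul (Measurable.ite ?_ measurable_const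
        measurable_const))
      exact measurableSet_le (by fun_prop) measurable_const
    · rw [Real.norm_of_nonneg (hf0 w)]
      apply mul_le_mul_of_nonneg_left _ (sq_nonneg _)
      split_ifs
      · rw [mul_one]
      · rw [mul_zero]
        positivity
  · split_ifs with hxy
    · rw [mul_one]
      have h2 : ∀ w, chr χ s (w - v) ^ 2 *
          ((4 : ℝ) ^ l * (if ‖y - w‖ ≤ r0 * ((2 : ℝ) ^ l)⁻¹ then 1 else 0)) ≤
          (Metric.closedBall y (r0 * ((2 : ℝ) ^ l)⁻¹)).indicator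
            (fun _ => M * (s ^ 3)⁻¹ * 4 ^ l) w := by
        intro w
        by_cases hw : ‖y - w‖ ≤ r0 * ((2 : ℝ) ^ l)⁻¹
        · have hw2 : w ∈ Metric.closedBall y (r0 * ((2 : ℝ) ^ l)⁻¹) := by
            rw [Metric.mem_closedBall, dist_comm, dist_eq_norm]
            exact hw
          rw [Set.indicator_of_mem hw2, if_pos hw, mul_one]
          exact mul_le_mul_of_nonneg_right (hM _) (by positivity)
        · rw [if_neg hw, mul_zero, mul_zero]
          exact Set.indicator_nonneg (fun _ _ => by positivity) w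
      refine (integral_mono_of_nonneg (Filter.Eventually.of_forall hf0) (ws_ind_int _ _ _)
        (Filter.Eventually.of_forall h2)).trans ?_
      rw [ws_ind _ _ _ (by positivity)]
      apply le_of_eq
      have e1 : (4 : ℝ) ^ l = (2 ^ l) ^ 2 := by
        rw [← pow_mul, mul_comm, pow_mul]
        norm_num
      have e2 : ((2 : ℝ) ^ l) ≠ 0 := by positivity
      have e3 : ((1 : ℝ) / 2) ^ l = ((2 : ℝ) ^ l)⁻¹ := by rw [one_div, inv_pow]
      rw [e1, e3]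
      field_simp
    · rw [mul_zero]
      apply le_of_eq
      apply integral_eq_zero_of_ae
      refine Filter.Eventually.of_forall fun w => ?_
      simp only [Pi.zero_apply]
      by_cases hχw : chr χ s (w - v) = 0
      · rw [hχw]
        ring
      · have h3 := chr_supp hχ s hs _ hχw
        rw [if_neg, mul_zero, mul_zero]
        intro h4
        apply hxy
        have h5 : y - v = (w - v) + (y - w) := by abel
        rw [h5]
        refine (norm_add_le _ _).trans_lt ?_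
        have h6 : r0 * ((2 : ℝ) ^ l)⁻¹ ≤ s := by
          calc r0 * ((2 : ℝ) ^ l)⁻¹ ≤ r0 * 1 := mul_le_mul_of_nonneg_left hp1 hr.le
            _ = r0 := mul_one r0
            _ ≤ s := hrs
        linarith

private theorem ws_rm_le {θ : E3 → ℝ} {n : ℕ} (r0 : ℝ) (a : Fin n) (w : E3) (L : ℕ)
    (x : Fin n → E3) : rmS θ r0 a w L x ^ 2 ≤ 1 := by
  unfold rmS rm
  exact Real.cos_sq_le_one _


theorem wintS_D {χ : E3 → ℝ} (hχ : Bump χ) : ∃ C : ℝ, 0 ≤ C ∧
    ∀ (n : ℕ) (a : Fin n) (v : E3) (s r0 : ℝ) (_ : 0 < r0) (_ : r0 ≤ s) (L : ℕ)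
      (x : Fin n → E3),
      Integrable (fun w => chr χ s (w - v) ^ 2 * DlS r0 a w L x) ∧
      ∫ w, chr χ s (w - v) ^ 2 * DlS r0 a w L x ≤
        C * (r0 ^ 3 * (s ^ 3)⁻¹) * ∑ b, (if ‖x b - v‖ < 2 * s then 1 else 0) := by
  obtain ⟨M, hM0, hM⟩ := ws_bd hχ
  have hV := wsB_nonneg
  refine ⟨2 * (M * wsB), by positivity, fun n a v s r0 hr hrs L x => ?_⟩
  have hs : 0 < s := hr.trans_le hrs
  obtain ⟨Q, hQ⟩ : ∃ Q : ℝ, Q = r0 ^ 3 * (s ^ 3)⁻¹ := ⟨_, rfl⟩
  have hQ0 : 0 ≤ Q := by rw [hQ]; positivity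
  have e : ∀ w, chr χ s (w - v) ^ 2 * DlS r0 a w L x = ∑ b ∈ univ.erase a, ∑ l ∈ range (L + 1),
      chr χ s (w - v) ^ 2 * ((4 : ℝ) ^ l *
        (if ‖r0⁻¹ • x b - r0⁻¹ • w‖ ≤ ((2 : ℝ) ^ l)⁻¹ then 1 else 0)) := by
    intro w
    rw [DlS, Dl, mul_sum]
    apply sum_congr rfl
    intro b _
    rw [mul_sum]
  have hT := fun b l => ws_term hχ M s r0 hr hrs (hM s hs) v (x b) l
  rw [← hQ] at hT ⊢
  simp only [e]
  constructor
  · exact integrable_finsetSum _ fun b _ => integrable_finsetSum _ fun l _ => (hT b l).1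
  · rw [integral_finsetSum _ fun b _ => integrable_finsetSum _ fun l _ => (hT b l).1]
    have h1 : ∀ b ∈ univ.erase a, (∫ w, ∑ l ∈ range (L + 1), chr χ s (w - v) ^ 2 * ((4 : ℝ) ^ l *
        (if ‖r0⁻¹ • x b - r0⁻¹ • w‖ ≤ ((2 : ℝ) ^ l)⁻¹ then 1 else 0))) ≤
        2 * (M * wsB) * Q * (if ‖x b - v‖ < 2 * s then 1 else 0) := by
      intro b _
      rw [integral_finsetSum _ fun l _ => (hT b l).1]
      refine (sum_le_sum fun l _ => (hT b l).2).trans ?_
      rw [← sum_mul, ← mul_sum]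
      apply mul_le_mul_of_nonneg_right
      · have h3 := sum_geometric_two_le (L + 1)
        have h2 : 0 ≤ M * wsB * Q := by positivity
        calc M * wsB * Q * ∑ i ∈ range (L + 1), (1 / 2 : ℝ) ^ i ≤ M * wsB * Q * 2 :=
              mul_le_mul_of_nonneg_left h3 h2
          _ = 2 * (M * wsB) * Q := by ring
      · split_ifs <;> norm_num
    refine (sum_le_sum h1).trans ?_
    rw [← mul_sum]
    apply mul_le_mul_of_nonneg_left _ (by positivity)
    apply sum_le_sum_of_subset_of_nonneg (erase_subset _ _)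
    intro b _ _
    split_ifs <;> norm_num

theorem wintS_rm {θ : E3 → ℝ} (h : Cut θ) {χ : E3 → ℝ} (hχ : Bump χ) : ∃ C : ℝ, 0 ≤ C ∧
    ∀ (n : ℕ) (a : Fin n) (v : E3) (s r0 : ℝ) (_ : 0 < r0) (_ : r0 ≤ s) (L : ℕ)
      (x : Fin n → E3),
      ∫ w, chr χ s (w - v) ^ 2 * rmS θ r0 a w L x ^ 2 ≤ C * n * ((2 : ℝ) ^ L)⁻¹ := by
  obtain ⟨M, hM0, hM⟩ := ws_bd hχ
  have hV := wsB_nonneg
  refine ⟨M * wsB, by positivity, fun n a v s r0 hr hrs L x => ?_⟩
  have hs : 0 < s := hr.trans_le hrs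
  obtain ⟨ρ, hρ⟩ : ∃ ρ : ℝ, ρ = ((2 : ℝ) ^ L)⁻¹ := ⟨_, rfl⟩
  obtain ⟨hp, hp1⟩ := ws_pow L
  rw [← hρ] at hp hp1 ⊢
  obtain ⟨N, hN⟩ : ∃ N : ℝ, N = M * (s ^ 3)⁻¹ := ⟨_, rfl⟩
  have hN0 : 0 ≤ N := by rw [hN]; positivity
  have hM' : ∀ u, chr χ s u ^ 2 ≤ N := by rw [hN]; exact hM s hs
  have h2 : ∀ w, chr χ s (w - v) ^ 2 * rmS θ r0 a w L x ^ 2 ≤
      ∑ b, (Metric.closedBall (x b) (r0 * ρ)).indicator (fun _ => N) w := by
    intro w
    by_cases hr' : rmS θ r0 a w L x = 0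
    · rw [hr']
      refine le_trans (by simp) (sum_nonneg fun b _ => Set.indicator_nonneg (fun _ _ => hN0) w)
    · obtain ⟨b, -, hb⟩ := rmS_near h r0 hr a w L x hr'
      rw [← hρ] at hb
      have hw2 : w ∈ Metric.closedBall (x b) (r0 * ρ) := by
        rw [Metric.mem_closedBall, dist_comm, dist_eq_norm]
        exact hb.le
      calc chr χ s (w - v) ^ 2 * rmS θ r0 a w L x ^ 2 ≤ N * 1 :=
            mul_le_mul (hM' _) (ws_rm_le r0 a w L x) (sq_nonneg _) hN0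
        _ = (Metric.closedBall (x b) (r0 * ρ)).indicator (fun _ => N) w := by
            rw [Set.indicator_of_mem hw2, mul_one]
        _ ≤ _ := single_le_sum (f := fun b => (Metric.closedBall (x b) (r0 * ρ)).indicator
            (fun _ => N) w) (fun b _ => Set.indicator_nonneg (fun _ _ => hN0) w) (mem_univ b)
  refine (integral_mono_of_nonneg (Filter.Eventually.of_forall fun w => by positivity)
    (integrable_finsetSum _ fun b _ => ws_ind_int (x b) (r0 * ρ) N)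
    (Filter.Eventually.of_forall h2)).trans ?_
  rw [integral_finsetSum _ fun b _ => ws_ind_int (x b) (r0 * ρ) N]
  simp only [ws_ind _ _ _ (mul_pos hr hp).le, sum_const, card_univ, Fintype.card_fin, nsmul_eq_mul]
  have h3 : ρ ^ 3 ≤ ρ := by
    calc ρ ^ 3 ≤ ρ ^ 1 := pow_le_pow_of_le_one hp.le hp1 (by norm_num)
      _ = ρ := pow_one ρ
  have h5 : r0 ^ 3 * (s ^ 3)⁻¹ ≤ 1 := by
    rw [mul_inv_le_iff₀ (by positivity), one_mul]
    exact pow_le_pow_left₀ hr.le hrs 3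
  have h6 : r0 ^ 3 * (s ^ 3)⁻¹ * ρ ^ 3 ≤ 1 * ρ :=
    mul_le_mul h5 h3 (by positivity) zero_le_one
  have h4 : 0 ≤ (n : ℝ) * (M * wsB) := by positivity
  calc (n : ℝ) * (N * ((r0 * ρ) ^ 3 * wsB)) =
        (n : ℝ) * (M * wsB) * (r0 ^ 3 * (s ^ 3)⁻¹ * ρ ^ 3) := by rw [hN]; ring
    _ ≤ (n : ℝ) * (M * wsB) * (1 * ρ) := mul_le_mul_of_nonneg_left h6 h4
    _ = M * wsB * n * ρ := by ring

end H6.CB
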