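import Pool.Agent.H6.CB.ERelAS
import Pool.Agent.H6.CB.WIntS
import Pool.Agent.H6.CB.UG

/-! Relocation of an electron with smearing `s` and holes of scale `r0`: bound the terms of `erelAS` with `wintS_D` and `wintS_rm` and let `L → ∞` (as in `Pool/Agent/H6/CM/ERel.lean`); `U (chr χ s) (x b - v) ≤ UU χ s (v - x b) + C s⁻¹ 1[‖x b - v‖ < s]` (`U_out`, `UU_eq`, `U_bds`); `∑ j, z j * UU χ s (v - p.2 j) - ∑ b ≠ a, UU χ s (v - p.1 b) = ph χ s z p v + UU χ s (v - p.1 a) ≥ ph χ s z p v`. -/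

open MeasureTheory Finset

namespace H6.CB

open H6.CM

private theorem ers_lim (A R K : ℝ) (h : ∀ L : ℕ, A ≤ R + K * ((2 : ℝ) ^ L)⁻¹) : A ≤ R := by
  have h1 : Filter.Tendsto (fun L : ℕ => R + K * ((2 : ℝ) ^ L)⁻¹) Filter.atTop
      (nhds (R + K * 0)) := by
    refine Filter.Tendsto.const_add _ (Filter.Tendsto.const_mul _ ?_)
    have h2 : Filter.Tendsto (fun L : ℕ => ((2 : ℝ)⁻¹) ^ L) Filter.atTop (nhds 0) :=
      tendsto_pow_atTop_nhds_zero_of_lt_one (by norm_num) (by norm_num)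
    refine h2.congr fun L => ?_
    rw [inv_pow]
  rw [mul_zero, add_zero] at h1
  exact ge_of_tendsto' h1 h

private theorem ers_rmc {θ : E3 → ℝ} (h : Cut θ) {n : ℕ} (r0 : ℝ) (a : Fin n) (L : ℕ)
    (x : Fin n → E3) : Continuous (fun w => rmS θ r0 a w L x) := by
  have h0 : Continuous θ := h.smooth.continuous
  have h1 : Continuous (fun w : E3 => G θ a (r0⁻¹ • w) L (fun b => r0⁻¹ • x b)) := by
    unfold G
    refine continuous_finsetProd _ fun b _ => ?_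
    have h2 : Continuous (fun w : E3 => (2 : ℝ) ^ (L + 1) • (r0⁻¹ • x b - r0⁻¹ • w)) := by
      fun_prop
    exact h0.comp h2
  unfold rmS rm
  exact Real.continuous_cos.comp (continuous_const.mul h1)

private theorem ers_int {θ : E3 → ℝ} (h : Cut θ) {χ : E3 → ℝ} (hχ : Bump χ) {n : ℕ} (s : ℝ)
    (hs : 0 < s) (r0 : ℝ) (a : Fin n) (v : E3) (L : ℕ) (x : Fin n → E3) :
    Integrable (fun w => chr χ s (w - v) ^ 2 * rmS θ r0 a w L x ^ 2) := by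
  have h1 : Continuous (fun w => chr χ s (w - v) ^ 2) :=
    ((chr_smooth hχ s hs).continuous.comp (continuous_id.sub continuous_const)).pow 2
  have h2 : Continuous (fun w => rmS θ r0 a w L x ^ 2) := (ers_rmc h r0 a L x).pow 2
  have h3 : HasCompactSupport (fun w => chr χ s (w - v) ^ 2) := by
    refine HasCompactSupport.intro (isCompact_closedBall v (s / 2)) fun w hw => ?_
    have h0 : chr χ s (w - v) = 0 := by
      by_contra h0
      apply hw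
      rw [Metric.mem_closedBall, dist_eq_norm]
      exact (chr_supp hχ s hs _ h0).le
    simp only [h0]
    norm_num
  exact (h1.mul h2).integrable_of_hasCompactSupport h3.mul_right

private theorem ers_pt {θ : E3 → ℝ} (h : Cut θ) {χ : E3 → ℝ} (hχ : Bump χ) {n : ℕ} (s : ℝ)
    (hs : 0 < s) (r0 : ℝ) (a : Fin n) (v y : E3) (L : ℕ) (x : Fin n → E3) (C4 : ℝ)
    (H4 : ∀ v, 0 ≤ U (chr χ s) v ∧ U (chr χ s) v ≤ C4 * s⁻¹) :
    ∫ w, chr χ s (w - v) ^ 2 * (rmS θ r0 a w L x ^ 2 * U (chr χ s) (y - w)) ≤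
      C4 * s⁻¹ * ∫ w, chr χ s (w - v) ^ 2 * rmS θ r0 a w L x ^ 2 := by
  rw [← integral_const_mul]
  refine integral_mono_of_nonneg (Filter.Eventually.of_forall fun w => ?_)
    ((ers_int h hχ s hs r0 a v L x).const_mul _) (Filter.Eventually.of_forall fun w => ?_)
  · exact mul_nonneg (sq_nonneg _) (mul_nonneg (sq_nonneg _) (H4 _).1)
  · simp only
    have h1 : 0 ≤ chr χ s (w - v) ^ 2 * rmS θ r0 a w L x ^ 2 :=
      mul_nonneg (sq_nonneg _) (sq_nonneg _)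
    have h2 := mul_le_mul_of_nonneg_left (H4 (y - w)).2 h1
    linarith

private theorem ers_U {χ : E3 → ℝ} (hχ : Bump χ) (s : ℝ) (hs : 0 < s) (v x : E3) (C4 : ℝ)
    (hC4 : 0 ≤ C4) (H4 : ∀ v, 0 ≤ U (chr χ s) v ∧ U (chr χ s) v ≤ C4 * s⁻¹) :
    U (chr χ s) (x - v) ≤ UU χ s (v - x) + C4 * s⁻¹ * (if ‖x - v‖ < 2 * s then 1 else 0) := by
  have hp : 0 ≤ C4 * s⁻¹ := mul_nonneg hC4 (inv_nonneg.2 hs.le)
  by_cases h1 : s ≤ ‖x - v‖
  · have h2 : s ≤ ‖v - x‖ := by rwa [norm_sub_rev]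
    rw [U_out hχ s hs (x - v) (by linarith), UU_eq hχ s hs (v - x) h2, norm_sub_rev v x]
    have h3 : 0 ≤ C4 * s⁻¹ * (if ‖x - v‖ < 2 * s then (1 : ℝ) else 0) := by
      refine mul_nonneg hp ?_
      split_ifs <;> norm_num
    linarith
  · have h2 : ‖x - v‖ < 2 * s := by
      have := not_le.1 h1
      linarith
    rw [if_pos h2, mul_one]
    have h3 := UU_nonneg hχ s hs (v - x)
    have h4 := (H4 (x - v)).2
    linarith

private theorem ers_sum {χ : E3 → ℝ} (hχ : Bump χ) {n k : ℕ} (z : Fin k → ℝ) (a : Fin n)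
    (s : ℝ) (hs : 0 < s) (v : E3) (p : Cfg n k) (C4 : ℝ)
    (hC4 : 0 ≤ C4) (H4 : ∀ v, 0 ≤ U (chr χ s) v ∧ U (chr χ s) v ≤ C4 * s⁻¹) :
    ph χ s z p v - C4 * s⁻¹ * ce p v (2 * s) ≤
      ∑ j, z j * UU χ s (v - p.2 j) - ∑ b ∈ univ.erase a, U (chr χ s) (p.1 b - v) := by
  have hp : 0 ≤ C4 * s⁻¹ := mul_nonneg hC4 (inv_nonneg.2 hs.le)
  have h1 : ∑ b ∈ univ.erase a, U (chr χ s) (p.1 b - v) ≤
      ∑ b ∈ univ.erase a, (UU χ s (v - p.1 b) +
        C4 * s⁻¹ * (if ‖p.1 b - v‖ < 2 * s then 1 else 0)) :=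
    sum_le_sum fun b _ => ers_U hχ s hs v (p.1 b) C4 hC4 H4
  have h2 : ∑ b ∈ univ.erase a, (UU χ s (v - p.1 b) +
        C4 * s⁻¹ * (if ‖p.1 b - v‖ < 2 * s then 1 else 0)) ≤
      ∑ b, (UU χ s (v - p.1 b) + C4 * s⁻¹ * (if ‖p.1 b - v‖ < 2 * s then 1 else 0)) := by
    refine sum_le_sum_of_subset_of_nonneg (erase_subset _ _) fun b _ _ => ?_
    refine add_nonneg (UU_nonneg hχ s hs _) (mul_nonneg hp ?_)
    split_ifs <;> norm_num
  have h3 : ∑ b, (UU χ s (v - p.1 b) + C4 * s⁻¹ * (if ‖p.1 b - v‖ < 2 * s then 1 else 0)) =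
      ∑ b, UU χ s (v - p.1 b) + C4 * s⁻¹ * ce p v (2 * s) := by
    rw [sum_add_distrib]
    unfold ce
    rw [mul_sum]
  unfold ph
  linarith

theorem erelS {χ : E3 → ℝ} (hχ : Bump χ) : ∃ C : ℝ, 0 ≤ C ∧
    ∀ (q n k : ℕ) (Λ : Set E3) (z κ : Fin k → ℝ) (_ : ∀ j, 0 ≤ z j)
    (_ : ∀ j, 0 ≤ κ j) (E : ℝ) (_ : LB q n k Λ z κ E) (a : Fin n)
    (ψ : (Fin n → Fin q) → Cfg n k → ℂ) (_ : Sa q n k Λ a ψ) (s r0 : ℝ) (_ : 0 < r0)
    (_ : r0 ≤ s) (_ : s ≤ 1) (v : E3) (_ : Metric.closedBall v 2 ⊆ Λ),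
    E * mass ψ ≤ energy z κ ψ - kE ψ a + mean ψ (fun p => phiE z a p (p.1 a)) +
      C * ((r0 ^ 2)⁻¹ * mass ψ + (r0 * (s ^ 3)⁻¹ + s⁻¹) * mean ψ (fun p => ce p v (2 * s))) -
      mean ψ (fun p => ph χ s z p v) := by
  obtain ⟨θ, hθ⟩ := cut_ex
  obtain ⟨C1, hC1, H1⟩ := erelAS hθ hχ
  obtain ⟨C2, hC2, H2⟩ := wintS_D hχ
  obtain ⟨C3, hC3, H3⟩ := wintS_rm hθ hχ
  obtain ⟨C4, hC4, H4⟩ := U_bds hχ
  refine ⟨C1 * (1 + C2) + C4, by positivity, ?_⟩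
  intro q n k Λ z κ hz hκ E hE a ψ hψ s r0 hr0 hrs hs1 v hv
  have hs : 0 < s := lt_of_lt_of_le hr0 hrs
  have hm : Sm q n k Λ ψ := Sa_sm hψ
  have hmass : 0 ≤ mass ψ := mass_nonneg
  have hIce := IM_ce hm v (2 * s)
  have hI1 : IM ψ (fun _ => (1 : ℝ)) := IM.cont hm continuous_const
  have hce : 0 ≤ mean ψ (fun p => ce p v (2 * s)) := mean_nonneg fun _ p _ => ce_nonneg p v _
  have hVI : IM ψ (fun p => |V z p + phiE z a p (p.1 a)|) := ((IM_V hm z).add (IM_phiE hm z a)).abs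
  have hMV : 0 ≤ mean ψ (fun p => |V z p + phiE z a p (p.1 a)|) :=
    mean_nonneg fun _ p _ => abs_nonneg _
  have hzs : 0 ≤ ∑ j, z j := sum_nonneg fun j _ => hz j
  have hr2 : 0 ≤ (r0 ^ 2)⁻¹ := by positivity
  have hr3 : 0 ≤ r0 * (s ^ 3)⁻¹ := by positivity
  have hsi : 0 ≤ s⁻¹ := by positivity
  -- the potential
  have hUUc : Continuous (UU χ s) := (UU_smooth hχ s hs).continuous
  have hUc : Continuous (U (chr χ s)) := U_cont hχ s hs
  have hce1 : ∀ b : Fin n, Continuous (fun p : Cfg n k => p.1 b) := fun b =>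
    (continuous_apply b).comp continuous_fst
  have hcn1 : ∀ j : Fin k, Continuous (fun p : Cfg n k => p.2 j) := fun j =>
    (continuous_apply j).comp continuous_snd
  have hN : Continuous (fun p : Cfg n k => ∑ j, z j * UU χ s (v - p.2 j)) :=
    continuous_finsetSum _ fun j _ =>
      continuous_const.mul (hUUc.comp (continuous_const.sub (hcn1 j)))
  have hP : Continuous (fun p : Cfg n k => ph χ s z p v) := by
    unfold ph
    exact hN.sub (continuous_finsetSum _ fun b _ => hUUc.comp (continuous_const.sub (hce1 b)))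
  have hQ : Continuous (fun p : Cfg n k => ∑ j, z j * UU χ s (v - p.2 j) -
      ∑ b ∈ univ.erase a, U (chr χ s) (p.1 b - v)) :=
    hN.sub (continuous_finsetSum _ fun b _ => hUc.comp ((hce1 b).sub continuous_const))
  have f4 : mean ψ (fun p => ph χ s z p v) - C4 * s⁻¹ * mean ψ (fun p => ce p v (2 * s)) ≤
      mean ψ (fun p => ∑ j, z j * UU χ s (v - p.2 j) -
        ∑ b ∈ univ.erase a, U (chr χ s) (p.1 b - v)) := by
    rw [← mean_cmul, ← mean_sub (IM.cont hm hP) (hIce.cmul _)]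
    exact mean_mono ((IM.cont hm hP).sub (hIce.cmul _)) (IM.cont hm hQ)
      fun _ p _ => ers_sum hχ z a s hs v p C4 hC4 (H4 s hs)
  refine ers_lim _ _ (|E| * (C3 * n * mass ψ) +
    C3 * n * mean ψ (fun p => |V z p + phiE z a p (p.1 a)|) +
    (∑ j, z j) * (C4 * s⁻¹) * (C3 * n) * mass ψ) ?_
  intro L
  have key := H1 q n k Λ z κ hz hκ E hE a ψ hψ s r0 hr0 hrs hs1 v hv L
  set r : ℝ := ((2 : ℝ) ^ L)⁻¹ with hr
  have hrp : 0 ≤ r := by positivity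
  have hrm0 : ∀ p : Cfg n k, 0 ≤ ∫ w, chr χ s (w - v) ^ 2 * rmS θ r0 a w L p.1 ^ 2 := fun p =>
    integral_nonneg fun w => mul_nonneg (sq_nonneg _) (sq_nonneg _)
  have hD0 : ∀ p : Cfg n k, 0 ≤ ∫ w, chr χ s (w - v) ^ 2 * DlS r0 a w L p.1 := fun p =>
    integral_nonneg fun w => mul_nonneg (sq_nonneg _) (by
      unfold DlS Dl
      refine sum_nonneg fun b _ => sum_nonneg fun l _ => mul_nonneg (by positivity) ?_
      split_ifs <;> norm_num)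
  have hrm1 : ∀ p : Cfg n k, ∫ w, chr χ s (w - v) ^ 2 * rmS θ r0 a w L p.1 ^ 2 ≤ C3 * n * r :=
    fun p => H3 n a v s r0 hr0 hrs L p.1
  have e1 : mean ψ (fun p => ∫ w, chr χ s (w - v) ^ 2 * rmS θ r0 a w L p.1 ^ 2) ≤
      C3 * n * r * mass ψ := by
    rw [← mean_const (C3 * n * r)]
    refine mean_mono0 hrm0 (IM.cont hm continuous_const) fun _ p _ => hrm1 p
  have e1' : 0 ≤ mean ψ (fun p => ∫ w, chr χ s (w - v) ^ 2 * rmS θ r0 a w L p.1 ^ 2) :=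
    mean_nonneg fun _ p _ => hrm0 p
  have e2 : mean ψ (fun p => (∫ w, chr χ s (w - v) ^ 2 * rmS θ r0 a w L p.1 ^ 2) *
      |V z p + phiE z a p (p.1 a)|) ≤
      C3 * n * r * mean ψ (fun p => |V z p + phiE z a p (p.1 a)|) := by
    rw [← mean_cmul (C3 * n * r)]
    exact mean_mono0 (fun p => mul_nonneg (hrm0 p) (abs_nonneg _)) (hVI.cmul _)
      (fun _ p _ => mul_le_mul_of_nonneg_right (hrm1 p) (abs_nonneg _))
  have e3 : mean ψ (fun p => 1 + ∫ w, chr χ s (w - v) ^ 2 * DlS r0 a w L p.1) ≤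
      mass ψ + C2 * (r0 ^ 3 * (s ^ 3)⁻¹) * mean ψ (fun p => ce p v (2 * s)) := by
    rw [← mean_one, ← mean_cmul, ← mean_add hI1 (hIce.cmul _)]
    refine mean_mono0 (fun p => add_nonneg zero_le_one (hD0 p)) (hI1.add (hIce.cmul _))
      fun _ p _ => ?_
    have h4 := (H2 n a v s r0 hr0 hrs L p.1).2
    have h5 : ce p v (2 * s) = ∑ b, (if ‖p.1 b - v‖ < 2 * s then (1 : ℝ) else 0) := rfl
    rw [h5]
    linarith
  have e4 : mean ψ (fun p => ∑ j, z j * ∫ w, chr χ s (w - v) ^ 2 *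
        (rmS θ r0 a w L p.1 ^ 2 * U (chr χ s) (p.2 j - w))) ≤
      ((∑ j, z j) * (C4 * s⁻¹ * (C3 * n * r))) * mass ψ := by
    rw [← mean_const]
    refine mean_mono0 (fun p => sum_nonneg fun j _ => mul_nonneg (hz j)
      (integral_nonneg fun w => mul_nonneg (sq_nonneg _) (mul_nonneg (sq_nonneg _)
        (H4 s hs _).1))) (IM.cont hm continuous_const) fun _ p _ => ?_
    rw [sum_mul]
    refine sum_le_sum fun j _ => mul_le_mul_of_nonneg_left ?_ (hz j)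
    refine (ers_pt hθ hχ s hs r0 a v (p.2 j) L p.1 C4 (H4 s hs)).trans ?_
    exact mul_le_mul_of_nonneg_left (hrm1 p) (mul_nonneg hC4 hsi)
  have f1 : E * mean ψ (fun p => ∫ w, chr χ s (w - v) ^ 2 * rmS θ r0 a w L p.1 ^ 2) ≤
      |E| * (C3 * n * r * mass ψ) :=
    (mul_le_mul_of_nonneg_right (le_abs_self E) e1').trans
      (mul_le_mul_of_nonneg_left e1 (abs_nonneg E))
  have f3 := mul_le_mul_of_nonneg_left e3 (mul_nonneg hC1 hr2)
  have f5 : C1 * (r0 ^ 2)⁻¹ * (mass ψ + C2 * (r0 ^ 3 * (s ^ 3)⁻¹) *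
      mean ψ (fun p => ce p v (2 * s))) =
      C1 * ((r0 ^ 2)⁻¹ * mass ψ) + C1 * C2 * (r0 * (s ^ 3)⁻¹) *
        mean ψ (fun p => ce p v (2 * s)) := by
    field_simp
  have f6 : 0 ≤ (r0 ^ 2)⁻¹ * mass ψ := mul_nonneg hr2 hmass
  have f7 : 0 ≤ r0 * (s ^ 3)⁻¹ * mean ψ (fun p => ce p v (2 * s)) := mul_nonneg hr3 hce
  have f8 : 0 ≤ s⁻¹ * mean ψ (fun p => ce p v (2 * s)) := mul_nonneg hsi hce
  have g0 : C1 * ((r0 ^ 2)⁻¹ * mass ψ) + C1 * C2 * (r0 * (s ^ 3)⁻¹) *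
        mean ψ (fun p => ce p v (2 * s)) + C4 * s⁻¹ * mean ψ (fun p => ce p v (2 * s)) ≤
      (C1 * (1 + C2) + C4) * ((r0 ^ 2)⁻¹ * mass ψ +
        (r0 * (s ^ 3)⁻¹ + s⁻¹) * mean ψ (fun p => ce p v (2 * s))) := by
    have g01 : (C1 * (1 + C2) + C4) * ((r0 ^ 2)⁻¹ * mass ψ +
        (r0 * (s ^ 3)⁻¹ + s⁻¹) * mean ψ (fun p => ce p v (2 * s))) =
        C1 * ((r0 ^ 2)⁻¹ * mass ψ) + C1 * C2 * (r0 * (s ^ 3)⁻¹) *
        mean ψ (fun p => ce p v (2 * s)) + C4 * s⁻¹ * mean ψ (fun p => ce p v (2 * s)) +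
        ((C1 * C2 + C4) * ((r0 ^ 2)⁻¹ * mass ψ) +
          (C1 + C4) * (r0 * (s ^ 3)⁻¹ * mean ψ (fun p => ce p v (2 * s))) +
          C1 * (1 + C2) * (s⁻¹ * mean ψ (fun p => ce p v (2 * s)))) := by ring
    have g02 : 0 ≤ (C1 * C2 + C4) * ((r0 ^ 2)⁻¹ * mass ψ) := mul_nonneg (by positivity) f6
    have g03 : 0 ≤ (C1 + C4) * (r0 * (s ^ 3)⁻¹ * mean ψ (fun p => ce p v (2 * s))) :=
      mul_nonneg (by positivity) f7
    have g04 : 0 ≤ C1 * (1 + C2) * (s⁻¹ * mean ψ (fun p => ce p v (2 * s))) :=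
      mul_nonneg (by positivity) f8
    linarith
  have g1 : |E| * (C3 * n * r * mass ψ) + C3 * n * r *
      mean ψ (fun p => |V z p + phiE z a p (p.1 a)|) +
      ((∑ j, z j) * (C4 * s⁻¹ * (C3 * n * r))) * mass ψ = (|E| * (C3 * n * mass ψ) +
    C3 * n * mean ψ (fun p => |V z p + phiE z a p (p.1 a)|) +
    (∑ j, z j) * (C4 * s⁻¹) * (C3 * n) * mass ψ) * r := by ring
  rw [mul_sub] at key
  linarith

end H6.CB
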