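import Mathlib

/-! The amplitude `eh u = exp (arsinh u / 2)`: `eh u ^ 2 = exp (arsinh u) = u + sqrt (1 + u ^ 2)` (`Real.exp_arsinh`), the derivative is `eh u / (2 sqrt (1 + u ^ 2))` (`Real.hasDerivAt_arsinh`), whose square is at most `2 sqrt (1 + u^2) / (4 (1 + u ^ 2)) ≤ 1/2`. For `u ≤ 0`: `u * (u + sqrt (1 + u^2)) = u / (sqrt (1 + u^2) - u) ≥ -1/2`. -/

namespace H6.CB

/-- the amplitude -/
noncomputable def eh (u : ℝ) : ℝ := Real.exp (Real.arsinh u / 2)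

theorem eh_smooth : ContDiff ℝ (⊤ : ℕ∞) eh :=
  Real.contDiff_exp.comp (Real.contDiff_arsinh.div_const 2)

theorem eh_pos (u : ℝ) : 0 < eh u := Real.exp_pos _

theorem eh_sq (u : ℝ) : eh u ^ 2 = u + Real.sqrt (1 + u ^ 2) := by
  unfold eh
  rw [sq, ← Real.exp_add, add_halves, Real.exp_arsinh]

theorem eh_le (u : ℝ) : eh u ^ 2 ≤ 1 + 2 * |u| := by
  rw [eh_sq]
  have h1 : Real.sqrt (1 + u ^ 2) ≤ 1 + |u| := by
    rw [Real.sqrt_le_left (by positivity)]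
    nlinarith [abs_nonneg u, sq_abs u]
  have h2 := le_abs_self u
  linarith

theorem eh_low (u : ℝ) : 2 * max u 0 ^ 2 - 1 / 2 ≤ u * eh u ^ 2 := by
  rw [eh_sq]
  have h1 : Real.sqrt (1 + u ^ 2) ^ 2 = 1 + u ^ 2 := Real.sq_sqrt (by positivity)
  have h2 : 0 ≤ Real.sqrt (1 + u ^ 2) := Real.sqrt_nonneg _
  rcases le_total u 0 with hu | hu
  · rw [max_eq_right hu]
    nlinarith [sq_nonneg (Real.sqrt (1 + u ^ 2) + u)]
  · rw [max_eq_left hu]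
    have h3 : u ≤ Real.sqrt (1 + u ^ 2) := by
      apply Real.le_sqrt_of_sq_le
      linarith
    nlinarith

theorem eh_two (u : ℝ) : 2 * u ^ 2 - 1 ≤ u * eh u ^ 2 + (-u) * eh (-u) ^ 2 := by
  rw [eh_sq, eh_sq, neg_sq]
  nlinarith

theorem eh_deriv (u : ℝ) : deriv eh u ^ 2 ≤ 1 / 2 := by
  have h1 : HasDerivAt eh (Real.exp (Real.arsinh u / 2) * ((Real.sqrt (1 + u ^ 2))⁻¹ / 2)) u :=
    ((Real.hasDerivAt_arsinh u).div_const 2).exp
  rw [h1.deriv]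
  have h2 : Real.exp (Real.arsinh u / 2) ^ 2 = u + Real.sqrt (1 + u ^ 2) := eh_sq u
  rw [mul_pow, h2]
  have h3 : 1 ≤ Real.sqrt (1 + u ^ 2) := by
    rw [Real.one_le_sqrt]
    nlinarith [sq_nonneg u]
  have h4 : u ≤ Real.sqrt (1 + u ^ 2) := by
    apply Real.le_sqrt_of_sq_le
    linarith
  have h5 : 0 < Real.sqrt (1 + u ^ 2) := by linarith
  have h6 : (u + Real.sqrt (1 + u ^ 2)) * ((Real.sqrt (1 + u ^ 2))⁻¹ / 2) ^ 2 =
      (u + Real.sqrt (1 + u ^ 2)) / (4 * Real.sqrt (1 + u ^ 2) ^ 2) := by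
    field_simp
    ring
  rw [h6, div_le_iff₀ (by positivity)]
  nlinarith

end H6.CB
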