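import Pool.Agent.H6.CB.Poten
import Pool.Agent.H6.CM.BumpEx

/-! The field energy is bounded by the Coulomb energy. Let `w = pot ρ`, `η v = 1 - θ (R'⁻¹ • v)` with a cut `θ` (`cut_ex`) and `R' ≥ R`, `R'` so large that `η = 1` on the support of `ρ`. Integration by parts (`ibp`, with the compactly supported functions `η ^ 2 w pd d w`) and `pot_lap`: `∫ η² |∇w|² = 4 π ∫ η² w ρ - 2 ∫ η w ∇η · ∇w ≤ 4 π Dd ρ ρ + (1/2) ∫ η² |∇w|² + 2 ∫ w² |∇η|²`; the last integral is at most `C R'⁻² * R'⁻² * R' ^ 3` by `pot_decay`, which tends to `0` as `R' → ∞`. -/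

open MeasureTheory Finset

namespace H6.CB

open H6.CM

private theorem ener_pd_smooth {f : E3 → ℝ} (hf : ContDiff ℝ (⊤ : ℕ∞) f) (d : Fin 3) :
    ContDiff ℝ (⊤ : ℕ∞) (pd d f) := by
  unfold pd
  exact (hf.fderiv_right (m := (⊤ : ℕ∞)) (by simp)).clm_apply contDiff_const

private theorem ener_pd_cc {f : E3 → ℝ} (hf : Cc f) (d : Fin 3) : Cc (pd d f) := by
  refine ⟨ener_pd_smooth hf.1 d, ?_⟩
  have h1 : HasCompactSupport (fderiv ℝ f) := hf.2.fderiv ℝ
  exact h1.comp_left (g := fun L : E3 →L[ℝ] ℝ => L (EuclideanSpace.single d 1)) (by simp)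

private theorem ener_pd_mul {f g : E3 → ℝ} (hf : ContDiff ℝ (⊤ : ℕ∞) f)
    (hg : ContDiff ℝ (⊤ : ℕ∞) g) (d : Fin 3) (v : E3) :
    pd d (fun x => f x * g x) v = f v * pd d g v + pd d f v * g v := by
  unfold pd
  rw [fderiv_fun_mul ((hf.differentiable (by simp)) v) ((hg.differentiable (by simp)) v)]
  simp only [_root_.add_apply, _root_.smul_apply, smul_eq_mul]
  ring

private theorem ener_gr (f : E3 → ℝ) (v : E3) : gr f v = ∑ d : Fin 3, pd d f v ^ 2 := rfl

private theorem ener_gr_nonneg (f : E3 → ℝ) (v : E3) : 0 ≤ gr f v := by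
  rw [ener_gr]
  exact Finset.sum_nonneg fun _ _ => sq_nonneg _

private theorem ener_gr_cont {f : E3 → ℝ} (hf : ContDiff ℝ (⊤ : ℕ∞) f) : Continuous (gr f) := by
  have e : gr f = fun v => ∑ d : Fin 3, pd d f v ^ 2 := rfl
  rw [e]
  exact continuous_finsetSum _ fun d _ => (ener_pd_smooth hf d).continuous.pow 2

private theorem ener_int {f g : E3 → ℝ} (hf : Continuous f) (hg : Continuous g)
    (hs : HasCompactSupport g) : Integrable (fun v => g v * f v) :=
  (hg.mul hf).integrable_of_hasCompactSupport hs.mul_right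

/-- integration by parts with a cutoff -/
private theorem ener_ibp {w η ρ : E3 → ℝ} (hw : ContDiff ℝ (⊤ : ℕ∞) w) (hη : Cc η)
    (hl : ∀ x, lap w x = -(4 * Real.pi * ρ x)) (hρ : Continuous ρ) :
    ∫ v, η v * (η v * gr w v) = 4 * Real.pi * (∫ v, η v * (η v * (w v * ρ v))) -
      2 * ∫ v, η v * (w v * ∑ d : Fin 3, pd d η v * pd d w v) := by
  have hpw : ∀ d, Continuous (pd d w) := fun d => (ener_pd_smooth hw d).continuous
  have hpη : ∀ d, Continuous (pd d η) := fun d => (ener_pd_smooth hη.1 d).continuous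
  have hw0 := hw.continuous
  have hη0 := hη.1.continuous
  -- one coordinate
  have h1 : ∀ d : Fin 3, ∫ v, η v * (η v * pd d w v ^ 2) =
      -(∫ v, η v * (η v * (w v * pd d (pd d w) v))) -
        2 * ∫ v, η v * (w v * (pd d η v * pd d w v)) := by
    intro d
    have hg : Cc (fun v => η v * (η v * pd d w v)) :=
      ⟨hη.1.mul (hη.1.mul (ener_pd_smooth hw d)), hη.2.mul_right⟩
    have h2 := ibp d w _ hw hg
    have h3 : ∀ v, pd d (fun v => η v * (η v * pd d w v)) v =
        η v * (η v * pd d (pd d w) v) + 2 * (η v * (pd d η v * pd d w v)) := by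
      intro v
      rw [ener_pd_mul hη.1 (hη.1.mul (ener_pd_smooth hw d)),
        ener_pd_mul hη.1 (ener_pd_smooth hw d)]
      ring
    have i1 : Integrable (fun v => η v * (η v * (w v * pd d (pd d w) v))) :=
      ener_int (hη0.mul (hw0.mul (ener_pd_smooth (ener_pd_smooth hw d) d).continuous)) hη0 hη.2
    have i2 : Integrable (fun v => η v * (w v * (pd d η v * pd d w v))) :=
      ener_int (hw0.mul ((hpη d).mul (hpw d))) hη0 hη.2
    have h4 : ∫ v, w v * pd d (fun v => η v * (η v * pd d w v)) v =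
        (∫ v, η v * (η v * (w v * pd d (pd d w) v))) +
          2 * ∫ v, η v * (w v * (pd d η v * pd d w v)) := by
      rw [← integral_const_mul, ← integral_add i1 (i2.const_mul 2)]
      refine integral_congr_ae (Filter.Eventually.of_forall fun v => ?_)
      simp only [h3]
      ring
    have h5 : ∫ v, pd d w v * (η v * (η v * pd d w v)) = ∫ v, η v * (η v * pd d w v ^ 2) := by
      refine integral_congr_ae (Filter.Eventually.of_forall fun v => ?_)
      simp only
      ring
    rw [h4, h5] at h2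
    linarith
  have i3 : ∀ d : Fin 3, Integrable (fun v => η v * (η v * pd d w v ^ 2)) := fun d =>
    ener_int (hη0.mul ((hpw d).pow 2)) hη0 hη.2
  have i4 : ∀ d : Fin 3, Integrable (fun v => η v * (η v * (w v * pd d (pd d w) v))) := fun d =>
    ener_int (hη0.mul (hw0.mul (ener_pd_smooth (ener_pd_smooth hw d) d).continuous)) hη0 hη.2
  have i5 : ∀ d : Fin 3, Integrable (fun v => η v * (w v * (pd d η v * pd d w v))) := fun d =>
    ener_int (hw0.mul ((hpη d).mul (hpw d))) hη0 hη.2
  have e1 : ∫ v, η v * (η v * gr w v) = ∑ d : Fin 3, ∫ v, η v * (η v * pd d w v ^ 2) := by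
    rw [← integral_finsetSum _ fun d _ => i3 d]
    refine integral_congr_ae (Filter.Eventually.of_forall fun v => ?_)
    simp only [ener_gr, Finset.mul_sum]
  have e2 : 4 * Real.pi * (∫ v, η v * (η v * (w v * ρ v))) =
      -∑ d : Fin 3, ∫ v, η v * (η v * (w v * pd d (pd d w) v)) := by
    rw [← integral_finsetSum _ fun d _ => i4 d, ← integral_neg, ← integral_const_mul]
    refine integral_congr_ae (Filter.Eventually.of_forall fun v => ?_)
    have h6 := hl v
    unfold lap at h6
    simp only [← Finset.mul_sum]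
    rw [h6]
    ring
  have e3 : ∫ v, η v * (w v * ∑ d : Fin 3, pd d η v * pd d w v) =
      ∑ d : Fin 3, ∫ v, η v * (w v * (pd d η v * pd d w v)) := by
    rw [← integral_finsetSum _ fun d _ => i5 d]
    refine integral_congr_ae (Filter.Eventually.of_forall fun v => ?_)
    simp only [Finset.mul_sum]
  rw [e1, e2, e3, Finset.sum_congr rfl fun d _ => h1 d, Finset.sum_sub_distrib,
    Finset.sum_neg_distrib, ← Finset.mul_sum]

/-- the energy estimate with a cutoff -/
private theorem ener_cut {w η ρ : E3 → ℝ} (hw : ContDiff ℝ (⊤ : ℕ∞) w) (hη : Cc η)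
    (hl : ∀ x, lap w x = -(4 * Real.pi * ρ x)) (hρ : Continuous ρ)
    (h1 : ∀ v, ρ v ≠ 0 → η v = 1) :
    ∫ v, η v * (η v * gr w v) ≤ 8 * Real.pi * (∫ v, ρ v * w v) + 4 * ∫ v, gr η v * w v ^ 2 := by
  have hη0 := hη.1.continuous
  have hpη : ∀ d, Continuous (pd d η) := fun d => (ener_pd_smooth hη.1 d).continuous
  have hpw : ∀ d, Continuous (pd d w) := fun d => (ener_pd_smooth hw d).continuous
  have h2 := ener_ibp hw hη hl hρ
  have h3 : ∫ v, η v * (η v * (w v * ρ v)) = ∫ v, ρ v * w v := by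
    refine integral_congr_ae (Filter.Eventually.of_forall fun v => ?_)
    simp only
    by_cases h : ρ v = 0
    · rw [h]; ring
    · rw [h1 v h]; ring
  have hgs : HasCompactSupport (gr η) := by
    have e : gr η = fun v => pd 0 η v * pd 0 η v + pd 1 η v * pd 1 η v +
        pd 2 η v * pd 2 η v := by
      funext v
      rw [ener_gr, Fin.sum_univ_three]
      ring
    rw [e]
    exact ((ener_pd_cc hη 0).2.mul_right.add (ener_pd_cc hη 1).2.mul_right).add
      (ener_pd_cc hη 2).2.mul_right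
  have i1 : Integrable (fun v => η v * (η v * gr w v)) :=
    ener_int (hη0.mul (ener_gr_cont hw)) hη0 hη.2
  have i2 : Integrable (fun v => gr η v * w v ^ 2) :=
    ener_int (hw.continuous.pow 2) (ener_gr_cont hη.1) hgs
  have i3 : Integrable (fun v => η v * (w v * ∑ d : Fin 3, pd d η v * pd d w v)) :=
    ener_int (hw.continuous.mul (continuous_finsetSum _ fun d _ => (hpη d).mul (hpw d))) hη0 hη.2
  have h4 : -(2 * ∫ v, η v * (w v * ∑ d : Fin 3, pd d η v * pd d w v)) ≤
      (1 / 2) * (∫ v, η v * (η v * gr w v)) + 2 * ∫ v, gr η v * w v ^ 2 := by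
    rw [← integral_const_mul, ← integral_const_mul, ← integral_const_mul, ← integral_neg,
      ← integral_add (i1.const_mul _) (i2.const_mul _)]
    refine integral_mono (i3.const_mul 2).neg ((i1.const_mul _).add (i2.const_mul _)) fun v => ?_
    simp only [ener_gr, Fin.sum_univ_three]
    nlinarith [sq_nonneg (η v * pd 0 w v + 2 * (w v * pd 0 η v)),
      sq_nonneg (η v * pd 1 w v + 2 * (w v * pd 1 η v)),
      sq_nonneg (η v * pd 2 w v + 2 * (w v * pd 2 η v))]
  rw [h3] at h2
  linarith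

theorem ener (ρ : E3 → ℝ) (hρ : Cc ρ) (R : ℝ) :
    ∫ v in Metric.ball (0 : E3) R, gr (pot ρ) v ≤ 8 * Real.pi * Dd ρ ρ := by
  obtain ⟨θ, hθ⟩ := cut_ex
  obtain ⟨Cθ, hCθ0, hCθ⟩ := hθ.grad
  obtain ⟨C, hC0, hC⟩ := pot_decay ρ hρ
  have hw := pot_smooth ρ hρ
  obtain ⟨R0, hR00, hR0⟩ := hρ.2.isCompact.isBounded.subset_closedBall_lt 0 (0 : E3)
  set κ : ℝ := (volume : Measure E3).real (Metric.ball (0 : E3) 1) with hκ
  have hκ0 : 0 ≤ κ := measureReal_nonneg
  have hdim : Module.finrank ℝ E3 = 3 := by simp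
  -- the estimate for each large radius
  have key : ∀ r : ℝ, max (max R R0) 1 ≤ r → ∫ v in Metric.ball (0 : E3) R, gr (pot ρ) v ≤
      8 * Real.pi * Dd ρ ρ + 32 * Cθ * C ^ 2 * κ * r⁻¹ := by
    intro r hr
    have hr1 : 1 ≤ r := (le_max_right _ _).trans hr
    have hrR : R ≤ r := ((le_max_left _ _).trans (le_max_left _ _)).trans hr
    have hrR0 : R0 ≤ r := ((le_max_right _ _).trans (le_max_left _ _)).trans hr
    have hr0 : 0 < r := by linarith
    set η : E3 → ℝ := fun v => 1 - θ (r⁻¹ • v) with hη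
    have hnorm : ∀ v : E3, ‖r⁻¹ • v‖ = ‖v‖ / r := by
      intro v
      rw [norm_smul, Real.norm_of_nonneg (inv_nonneg.2 hr0.le)]
      field_simp
    have hη1 : ∀ v, ‖v‖ ≤ r → η v = 1 := by
      intro v hv
      have : θ (r⁻¹ • v) = 0 := hθ.zero _ (by rw [hnorm, div_le_one hr0]; exact hv)
      rw [hη]
      simp only [this, sub_zero]
    have hη2 : ∀ v, 2 * r ≤ ‖v‖ → η v = 0 := by
      intro v hv
      have : θ (r⁻¹ • v) = 1 := hθ.one _ (by rw [hnorm, le_div_iff₀ hr0]; exact hv)
      rw [hη]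
      simp only [this, sub_self]
    have hηs : ContDiff ℝ (⊤ : ℕ∞) η :=
      contDiff_const.sub (hθ.smooth.comp (contDiff_id.const_smul r⁻¹))
    have hηc : Cc η := by
      refine ⟨hηs, ?_⟩
      refine HasCompactSupport.intro (isCompact_closedBall (0 : E3) (2 * r)) fun v hv => ?_
      refine hη2 v ?_
      rw [Metric.mem_closedBall, dist_zero_right, not_le] at hv
      exact hv.le
    have hgr : ∀ v, gr η v = r⁻¹ ^ 2 * gr θ (r⁻¹ • v) := by
      intro v
      have h1 : ∀ d : Fin 3, fderiv ℝ η v (EuclideanSpace.single d 1) =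
          -(r⁻¹ * fderiv ℝ θ (r⁻¹ • v) (EuclideanSpace.single d 1)) := by
        intro d
        have h2 : HasFDerivAt η (-((fderiv ℝ θ (r⁻¹ • v)).comp
            (r⁻¹ • ContinuousLinearMap.id ℝ E3))) v := by
          have h3 : HasFDerivAt θ (fderiv ℝ θ (r⁻¹ • v)) (r⁻¹ • v) :=
            ((hθ.smooth.differentiable (by simp)) _).hasFDerivAt
          have h4 : HasFDerivAt (fun v : E3 => r⁻¹ • v) (r⁻¹ • ContinuousLinearMap.id ℝ E3) v :=
            (hasFDerivAt_id v).const_smul r⁻¹
          exact (h3.comp v h4).const_sub 1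
        rw [h2.fderiv]
        simp
      unfold gr
      simp only [h1]
      rw [Finset.mul_sum]
      refine Finset.sum_congr rfl fun d _ => ?_
      ring
    have hgb : ∀ v, gr η v * pot ρ v ^ 2 ≤
        Set.indicator (Metric.closedBall (0 : E3) (2 * r)) (fun _ => Cθ * C ^ 2 * (r⁻¹) ^ 4) v := by
      intro v
      obtain ⟨g1, g2⟩ := hCθ (r⁻¹ • v)
      by_cases h0 : gr θ (r⁻¹ • v) = 0
      · rw [hgr, h0, mul_zero, zero_mul]
        exact Set.indicator_nonneg (fun _ _ => by positivity) v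
      · obtain ⟨g3, g4⟩ := g2 h0
        rw [hnorm, one_le_div hr0] at g3
        rw [hnorm, div_le_iff₀ hr0] at g4
        rw [Set.indicator_of_mem (by rw [Metric.mem_closedBall, dist_zero_right]; exact g4), hgr]
        have g5 : |pot ρ v| ≤ C * r⁻¹ := by
          refine (hC v).trans (mul_le_mul_of_nonneg_left ?_ hC0)
          exact inv_anti₀ hr0 (by linarith)
        have g6 : pot ρ v ^ 2 ≤ (C * r⁻¹) ^ 2 := by
          rw [← sq_abs]
          exact pow_le_pow_left₀ (abs_nonneg _) g5 2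
        calc r⁻¹ ^ 2 * gr θ (r⁻¹ • v) * pot ρ v ^ 2 ≤ r⁻¹ ^ 2 * Cθ * (C * r⁻¹) ^ 2 :=
              mul_le_mul (mul_le_mul_of_nonneg_left g1 (by positivity)) g6 (sq_nonneg _)
                (by positivity)
          _ = Cθ * C ^ 2 * (r⁻¹) ^ 4 := by ring
    have h1 := ener_cut hw hηc (pot_lap ρ hρ) hρ.1.continuous (fun v hv => by
      refine hη1 v ?_
      have := hR0 (subset_tsupport ρ hv)
      rw [Metric.mem_closedBall, dist_zero_right] at this
      linarith)
    have h2 : ∫ v in Metric.ball (0 : E3) R, gr (pot ρ) v ≤ ∫ v, η v * (η v * gr (pot ρ) v) := by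
      have i1 : Integrable (fun v => η v * (η v * gr (pot ρ) v)) :=
        ener_int (hηs.continuous.mul (ener_gr_cont hw)) hηs.continuous hηc.2
      have h5 : ∫ v in Metric.ball (0 : E3) R, gr (pot ρ) v =
          ∫ v in Metric.ball (0 : E3) R, η v * (η v * gr (pot ρ) v) := by
        refine setIntegral_congr_fun measurableSet_ball fun v hv => ?_
        rw [Metric.mem_ball, dist_zero_right] at hv
        simp only [hη1 v (by linarith), one_mul]
      rw [h5]
      refine setIntegral_le_integral i1 (Filter.Eventually.of_forall fun v => ?_)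
      show 0 ≤ η v * (η v * gr (pot ρ) v)
      rw [← mul_assoc]
      exact mul_nonneg (mul_self_nonneg _) (ener_gr_nonneg _ _)
    have h3 : ∫ v, gr η v * pot ρ v ^ 2 ≤ 8 * Cθ * C ^ 2 * κ * r⁻¹ := by
      have h6 : ∫ v, gr η v * pot ρ v ^ 2 ≤ ∫ v, Set.indicator (Metric.closedBall (0 : E3) (2 * r))
          (fun _ => Cθ * C ^ 2 * (r⁻¹) ^ 4) v := by
        refine integral_mono_of_nonneg (Filter.Eventually.of_forall fun v => ?_) ?_
          (Filter.Eventually.of_forall hgb)
        · exact mul_nonneg (ener_gr_nonneg _ _) (sq_nonneg _)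
        · refine IntegrableOn.integrable_indicator ?_ measurableSet_closedBall
          exact integrableOn_const (hs := (measure_closedBall_lt_top).ne)
      refine h6.trans (le_of_eq ?_)
      rw [integral_indicator_const _ measurableSet_closedBall, smul_eq_mul]
      have h7 : (volume : Measure E3).real (Metric.closedBall (0 : E3) (2 * r)) =
          (2 * r) ^ 3 * κ := by
        rw [measureReal_def, Measure.addHaar_closedBall volume _ (by positivity), hdim,
          ENNReal.toReal_mul, ENNReal.toReal_ofReal (by positivity), hκ, measureReal_def]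
      rw [h7]
      field_simp
      ring
    have h4 : ∫ v, ρ v * pot ρ v = Dd ρ ρ := rfl
    rw [h4] at h1
    linarith
  have hlim : Filter.Tendsto (fun r : ℝ => 8 * Real.pi * Dd ρ ρ + 32 * Cθ * C ^ 2 * κ * r⁻¹)
      Filter.atTop (nhds (8 * Real.pi * Dd ρ ρ + 32 * Cθ * C ^ 2 * κ * 0)) :=
    (tendsto_inv_atTop_zero.const_mul _).const_add _
  rw [mul_zero, add_zero] at hlim
  refine ge_of_tendsto hlim ?_
  filter_upwards [Filter.eventually_ge_atTop (max (max R R0) 1)] with r hr
  exact key r hr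

theorem Dd_nonneg (ρ : E3 → ℝ) (hρ : Cc ρ) : 0 ≤ Dd ρ ρ := by
  have h := ener ρ hρ 0
  rw [Metric.ball_zero, setIntegral_empty] at h
  have hpi := Real.pi_pos
  by_contra h1
  rw [not_le] at h1
  nlinarith

/-- the form of a divergence -/
theorem dive (F : Fin 3 → E3 → ℝ) (hF : ∀ d, Cc (F d)) :
    Dd (fun x => ∑ d, pd d (F d) x) (fun x => ∑ d, pd d (F d) x) ≤
      8 * Real.pi * ∫ x, ∑ d, F d x ^ 2 := by
  have hpi := Real.pi_pos
  set ρ : E3 → ℝ := fun x => ∑ d, pd d (F d) x with hρd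
  have hρ : Cc ρ := by
    have h := fun d => ener_pd_cc (hF d) d
    have e : ρ = fun v => pd 0 (F 0) v + pd 1 (F 1) v + pd 2 (F 2) v := by
      funext v
      rw [hρd]
      simp only [Fin.sum_univ_three]
    rw [e]
    exact ⟨((h 0).1.add (h 1).1).add (h 2).1, ((h 0).2.add (h 1).2).add (h 2).2⟩
  have hw := pot_smooth ρ hρ
  have hpw : ∀ d, Continuous (pd d (pot ρ)) := fun d => (ener_pd_smooth hw d).continuous
  have hFc : ∀ d, Continuous (F d) := fun d => (hF d).1.continuous
  -- a ball containing the supports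
  obtain ⟨R, hR⟩ : ∃ R : ℝ, ∀ d v, F d v ≠ 0 → v ∈ Metric.ball (0 : E3) R := by
    have h : ∀ d, ∃ R : ℝ, ∀ v, F d v ≠ 0 → ‖v‖ ≤ R := by
      intro d
      obtain ⟨R, hR⟩ := (hF d).2.isCompact.isBounded.subset_closedBall (0 : E3)
      refine ⟨R, fun v hv => ?_⟩
      have := hR (subset_tsupport (F d) hv)
      rwa [Metric.mem_closedBall, dist_zero_right] at this
    choose r hr using h
    refine ⟨max (max (r 0) (r 1)) (r 2) + 1, fun d v hv => ?_⟩
    rw [Metric.mem_ball, dist_zero_right]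
    have h1 := hr d v hv
    have h2 : r d ≤ max (max (r 0) (r 1)) (r 2) := by
      fin_cases d
      · exact (le_max_left _ _).trans (le_max_left _ _)
      · exact (le_max_right _ _).trans (le_max_left _ _)
      · exact le_max_right _ _
    linarith
  have i1 : ∀ d, Integrable (fun v => F d v * pd d (pot ρ) v) := fun d =>
    ener_int (hpw d) (hFc d) (hF d).2
  have i2 : ∀ d, Integrable (fun v => F d v * F d v) := fun d =>
    ener_int (hFc d) (hFc d) (hF d).2
  have h1 : Dd ρ ρ = -∑ d, ∫ v, F d v * pd d (pot ρ) v := by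
    have h2 : ∀ d, ∫ v, pd d (F d) v * pot ρ v = -∫ v, F d v * pd d (pot ρ) v := by
      intro d
      have h3 := ibp d (pot ρ) (F d) hw (hF d)
      have h4 : ∫ v, pot ρ v * pd d (F d) v = ∫ v, pd d (F d) v * pot ρ v := by
        congr 1
        funext v
        ring
      have h5 : ∫ v, pd d (pot ρ) v * F d v = ∫ v, F d v * pd d (pot ρ) v := by
        congr 1
        funext v
        ring
      rw [h4, h5] at h3
      exact h3
    unfold Dd
    have h3 : ∀ d, Integrable (fun v => pd d (F d) v * pot ρ v) := fun d =>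
      ener_int hw.continuous (ener_pd_cc (hF d) d).1.continuous (ener_pd_cc (hF d) d).2
    rw [← Finset.sum_neg_distrib, ← Finset.sum_congr rfl fun d _ => h2 d,
      ← integral_finsetSum _ fun d _ => h3 d]
    refine integral_congr_ae (Filter.Eventually.of_forall fun v => ?_)
    simp only [hρd, Finset.sum_mul]
  have hsq : ∫ x, ∑ d, F d x ^ 2 = ∑ d, ∫ v, F d v * F d v := by
    rw [← integral_finsetSum _ fun d _ => i2 d]
    refine integral_congr_ae (Filter.Eventually.of_forall fun v => ?_)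
    simp only [sq]
  have h2 : -∑ d, ∫ v, F d v * pd d (pot ρ) v ≤ 4 * Real.pi * (∑ d, ∫ v, F d v * F d v) +
      1 / (16 * Real.pi) * ∫ v in Metric.ball (0 : E3) R, gr (pot ρ) v := by
    rw [← integral_finsetSum _ fun d _ => i1 d, ← integral_finsetSum _ fun d _ => i2 d,
      ← integral_neg, ← integral_const_mul, ← integral_const_mul,
      ← integral_indicator measurableSet_ball]
    have i3 : Integrable (fun v => ∑ d, F d v * pd d (pot ρ) v) :=
      integrable_finsetSum _ fun d _ => i1 d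
    have i4 : Integrable (fun v => ∑ d, F d v * F d v) := integrable_finsetSum _ fun d _ => i2 d
    have i5 : Integrable (Set.indicator (Metric.ball (0 : E3) R)
        (fun v => 1 / (16 * Real.pi) * gr (pot ρ) v)) := by
      refine IntegrableOn.integrable_indicator ?_ measurableSet_ball
      refine IntegrableOn.mono_set ?_ Metric.ball_subset_closedBall
      exact ((ener_gr_cont hw).const_mul _).continuousOn.integrableOn_compact
        (isCompact_closedBall _ _)
    rw [← integral_add (i4.const_mul _) i5]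
    refine integral_mono i3.neg ((i4.const_mul _).add i5) fun v => ?_
    by_cases hv : ∀ d, F d v = 0
    · simp only [hv, zero_mul, Finset.sum_const_zero, neg_zero, mul_zero, zero_add]
      exact Set.indicator_nonneg (fun x _ => mul_nonneg (by positivity) (ener_gr_nonneg _ _)) v
    · rw [not_forall] at hv
      obtain ⟨d, hd⟩ := hv
      simp only
      rw [Set.indicator_of_mem (hR d v hd)]
      simp only [ener_gr, Fin.sum_univ_three]
      have h3 : ∀ a b : ℝ, -(a * b) ≤ 4 * Real.pi * (a * a) + 1 / (16 * Real.pi) * b ^ 2 := by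
        intro a b
        have h4 : 4 * Real.pi * (a * a) + 1 / (16 * Real.pi) * b ^ 2 + a * b =
            1 / (16 * Real.pi) * (8 * Real.pi * a + b) ^ 2 := by
          field_simp
          ring
        have h5 : 0 ≤ 1 / (16 * Real.pi) * (8 * Real.pi * a + b) ^ 2 := by positivity
        linarith
      have h4 := h3 (F 0 v) (pd 0 (pot ρ) v)
      have h5 := h3 (F 1 v) (pd 1 (pot ρ) v)
      have h6 := h3 (F 2 v) (pd 2 (pot ρ) v)
      linarith
  have h3 := ener ρ hρ R
  have h4 : 1 / (16 * Real.pi) * ∫ v in Metric.ball (0 : E3) R, gr (pot ρ) v ≤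
      1 / (16 * Real.pi) * (8 * Real.pi * Dd ρ ρ) := mul_le_mul_of_nonneg_left h3 (by positivity)
  have h5 : 1 / (16 * Real.pi) * (8 * Real.pi * Dd ρ ρ) = 1 / 2 * Dd ρ ρ := by
    field_simp
    ring
  rw [hsq]
  linarith

/-- the form of a function supported in a ball of radius `2` -/
theorem Dd_l2 : ∃ C : ℝ, 0 ≤ C ∧ ∀ (x : E3) (g : E3 → ℝ) (_ : Cc g)
    (_ : ∀ v, g v ≠ 0 → ‖v - x‖ < 2), Dd g g ≤ C * ∫ v, g v ^ 2 := by
  obtain ⟨C, hC0, hC⟩ := ballinv
  refine ⟨C * 4 ^ 2, by positivity, fun x g hg hx => ?_⟩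
  obtain ⟨i1, e1⟩ := Dd_int g g hg hg
  rw [e1]
  set k : E3 → ENNReal := fun w => Set.indicator (Metric.ball (0 : E3) 4)
    (fun w => ENNReal.ofReal ‖w‖⁻¹) w with hk
  have hkm : Measurable k :=
    (measurable_norm.inv.ennreal_ofReal).indicator measurableSet_ball
  have hkint : ∫⁻ w, k w ≤ ENNReal.ofReal (C * 4 ^ 2) := by
    rw [hk, lintegral_indicator measurableSet_ball]
    exact hC 0 4 (by norm_num)
  have hg2 : Measurable (fun v => ENNReal.ofReal (g v ^ 2 / 2)) :=
    ((hg.1.continuous.pow 2).div_const 2).measurable.ennreal_ofReal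
  have i2 : Integrable (fun v => g v ^ 2) := by
    have := ener_int hg.1.continuous hg.1.continuous hg.2
    refine this.congr (Filter.Eventually.of_forall fun v => ?_)
    simp only [sq]
  have hG : ∫⁻ v, ENNReal.ofReal (g v ^ 2 / 2) = ENNReal.ofReal ((∫ v, g v ^ 2) / 2) := by
    rw [← integral_div, ofReal_integral_eq_lintegral_ofReal (i2.div_const 2)
      (Filter.Eventually.of_forall fun v => by positivity)]
  -- pointwise bound
  have hp : ∀ u : E3 × E3, ‖g u.1 * g u.2 * ‖u.1 - u.2‖⁻¹‖ₑ ≤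
      ENNReal.ofReal (g u.1 ^ 2 / 2) * k (u.1 - u.2) +
        ENNReal.ofReal (g u.2 ^ 2 / 2) * k (u.1 - u.2) := by
    intro u
    by_cases h1 : g u.1 = 0
    · rw [h1]; simp
    by_cases h2 : g u.2 = 0
    · rw [h2]; simp
    have h3 : u.1 - u.2 ∈ Metric.ball (0 : E3) 4 := by
      rw [Metric.mem_ball, dist_zero_right]
      have h4 := hx _ h1
      have h5 := hx _ h2
      calc ‖u.1 - u.2‖ = ‖(u.1 - x) - (u.2 - x)‖ := by rw [sub_sub_sub_cancel_right]
        _ ≤ ‖u.1 - x‖ + ‖u.2 - x‖ := norm_sub_le _ _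
        _ < 4 := by linarith
    have h4 : k (u.1 - u.2) = ENNReal.ofReal ‖u.1 - u.2‖⁻¹ := by
      rw [hk]
      exact Set.indicator_of_mem h3 _
    rw [h4, ← add_mul, ← ENNReal.ofReal_add (by positivity) (by positivity),
      ← ENNReal.ofReal_mul (by positivity), Real.enorm_eq_ofReal_abs]
    refine ENNReal.ofReal_le_ofReal ?_
    rw [abs_mul, abs_of_nonneg (a := ‖u.1 - u.2‖⁻¹) (by positivity)]
    refine mul_le_mul_of_nonneg_right ?_ (by positivity)
    rw [abs_le]
    constructor <;> nlinarith [sq_nonneg (g u.1 + g u.2), sq_nonneg (g u.1 - g u.2)]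
  have hm1 : Measurable (fun u : E3 × E3 => ENNReal.ofReal (g u.1 ^ 2 / 2) * k (u.1 - u.2)) :=
    (hg2.comp measurable_fst).mul (hkm.comp (measurable_fst.sub measurable_snd))
  have hm2 : Measurable (fun u : E3 × E3 => ENNReal.ofReal (g u.2 ^ 2 / 2) * k (u.1 - u.2)) :=
    (hg2.comp measurable_snd).mul (hkm.comp (measurable_fst.sub measurable_snd))
  have l1 : ∫⁻ u : E3 × E3, ENNReal.ofReal (g u.1 ^ 2 / 2) * k (u.1 - u.2) ≤
      ENNReal.ofReal ((∫ v, g v ^ 2) / 2) * ENNReal.ofReal (C * 4 ^ 2) := by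
    rw [Measure.volume_eq_prod, lintegral_prod _ hm1.aemeasurable, ← hG]
    have h1 : ∀ a : E3, ∫⁻ b : E3, ENNReal.ofReal (g a ^ 2 / 2) * k (a - b) =
        ENNReal.ofReal (g a ^ 2 / 2) * ∫⁻ w, k w := by
      intro a
      rw [lintegral_const_mul _ (show Measurable (fun b : E3 => k (a - b)) from
        hkm.comp (measurable_const.sub measurable_id)),
        lintegral_sub_left_eq_self (fun w => k w) a]
    simp only [h1]
    rw [lintegral_mul_const _ hg2]
    gcongr
  have l2 : ∫⁻ u : E3 × E3, ENNReal.ofReal (g u.2 ^ 2 / 2) * k (u.1 - u.2) ≤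
      ENNReal.ofReal ((∫ v, g v ^ 2) / 2) * ENNReal.ofReal (C * 4 ^ 2) := by
    rw [Measure.volume_eq_prod, lintegral_prod_symm _ hm2.aemeasurable, ← hG]
    have h1 : ∀ b : E3, ∫⁻ a : E3, ENNReal.ofReal (g b ^ 2 / 2) * k (a - b) =
        ENNReal.ofReal (g b ^ 2 / 2) * ∫⁻ w, k w := by
      intro b
      rw [lintegral_const_mul _ (show Measurable (fun a : E3 => k (a - b)) from
        hkm.comp (measurable_id.sub measurable_const)),
        lintegral_sub_right_eq_self (fun w => k w) b]
    simp only [h1]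
    rw [lintegral_mul_const _ hg2]
    gcongr
  have hI : 0 ≤ ∫ v, g v ^ 2 := integral_nonneg fun v => sq_nonneg _
  calc ∫ u : E3 × E3, g u.1 * g u.2 * ‖u.1 - u.2‖⁻¹ ≤
      ‖∫ u : E3 × E3, g u.1 * g u.2 * ‖u.1 - u.2‖⁻¹‖ := le_abs_self _
    _ ≤ (∫⁻ u : E3 × E3, ‖g u.1 * g u.2 * ‖u.1 - u.2‖⁻¹‖ₑ).toReal := by
      refine (norm_integral_le_lintegral_norm _).trans (le_of_eq ?_)
      simp only [ofReal_norm]
    _ ≤ (ENNReal.ofReal ((∫ v, g v ^ 2) / 2) * ENNReal.ofReal (C * 4 ^ 2) +
        ENNReal.ofReal ((∫ v, g v ^ 2) / 2) * ENNReal.ofReal (C * 4 ^ 2)).toReal := by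
      refine ENNReal.toReal_mono ?_ ?_
      · exact ENNReal.add_ne_top.2 ⟨ENNReal.mul_ne_top ENNReal.ofReal_ne_top ENNReal.ofReal_ne_top,
          ENNReal.mul_ne_top ENNReal.ofReal_ne_top ENNReal.ofReal_ne_top⟩
      · refine (lintegral_mono hp).trans ?_
        rw [lintegral_add_left hm1]
        exact add_le_add l1 l2
    _ = C * 4 ^ 2 * ∫ v, g v ^ 2 := by
      rw [ENNReal.toReal_add (ENNReal.mul_ne_top ENNReal.ofReal_ne_top ENNReal.ofReal_ne_top)
        (ENNReal.mul_ne_top ENNReal.ofReal_ne_top ENNReal.ofReal_ne_top), ENNReal.toReal_mul,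
        ENNReal.toReal_ofReal (by positivity), ENNReal.toReal_ofReal (by positivity)]
      ring

end H6.CB
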