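import Pool.Agent.H6.CB.FNuc

/-! The far particles. `tl_le`: a particle at distance at least `D` from `x` contributes at most `(D ^ 4)⁻¹`; for a particle at `y` with `13 ≤ ‖y - x‖ < D` and `‖v - y‖ < 1` one has `max 12 ‖v - x‖ ≤ 2 ‖y - x‖`, so `(‖y - x‖ ^ 4)⁻¹ ≤ 16 (max 12 ‖v - x‖ ^ 4)⁻¹`, average over `v` in the unit ball around `y`, which is contained in the ball of radius `D + 1` around `x`. `ftail`: `mean_ball` (the integrand is bounded by `n + k`) and `fcnt` at every point of the ball of radius `D + 1` (`Lb.sub`, `ce_mono`); `∫ v, (max 12 ‖v - x‖ ^ 4)⁻¹ < ∞`. -/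

open MeasureTheory Finset

namespace H6.CB

open H6.CM

private theorem ft_w0 : Integrable (fun w : E3 => (max 12 ‖w‖ ^ 4)⁻¹) ∧
    ∀ w : E3, 0 ≤ (max 12 ‖w‖ ^ 4)⁻¹ ∧ (max 12 ‖w‖ ^ 4)⁻¹ ≤ 1 := by
  have hb : ∀ w : E3, 0 ≤ (max 12 ‖w‖ ^ 4)⁻¹ ∧ (max 12 ‖w‖ ^ 4)⁻¹ ≤ 1 := by
    intro w
    have h1 : (1 : ℝ) ≤ max 12 ‖w‖ := le_trans (by norm_num) (le_max_left _ _)
    exact ⟨by positivity, inv_le_one_of_one_le₀ (one_le_pow₀ h1)⟩
  refine ⟨?_, hb⟩
  have hdim : (Module.finrank ℝ E3 : ℝ) < 4 := by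
    have : Module.finrank ℝ E3 = 3 := by simp
    rw [this]
    norm_num
  have h1 := (integrable_one_add_norm (E := E3) (μ := volume) (r := 4) hdim).const_mul 16
  refine h1.mono' ?_ (Filter.Eventually.of_forall fun w => ?_)
  · exact ((continuous_const.max continuous_norm).pow 4).measurable.inv.aestronglyMeasurable
  · rw [Real.norm_eq_abs, abs_of_nonneg (hb w).1]
    have h2 : (1 + ‖w‖) / 2 ≤ max 12 ‖w‖ := by
      have h3 := le_max_left (12 : ℝ) ‖w‖
      have h4 := le_max_right (12 : ℝ) ‖w‖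
      linarith
    have h5 : 0 < 1 + ‖w‖ := by positivity
    have h6 : ((1 + ‖w‖) / 2) ^ 4 ≤ max 12 ‖w‖ ^ 4 := pow_le_pow_left₀ (by positivity) h2 4
    have h7 : (max 12 ‖w‖ ^ 4)⁻¹ ≤ (((1 + ‖w‖) / 2) ^ 4)⁻¹ := inv_anti₀ (by positivity) h6
    refine h7.trans (le_of_eq ?_)
    rw [Real.rpow_neg h5.le, div_pow, inv_div]
    have h8 : (1 + ‖w‖) ^ (4 : ℝ) = (1 + ‖w‖) ^ 4 := by
      exact_mod_cast Real.rpow_natCast (1 + ‖w‖) 4
    rw [h8]
    norm_num
    rw [div_eq_mul_inv]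

theorem w_int : ∃ C : ℝ, 0 ≤ C ∧ ∀ x : E3, Integrable (fun v : E3 => (max 12 ‖v - x‖ ^ 4)⁻¹) ∧
    ∫ v : E3, (max 12 ‖v - x‖ ^ 4)⁻¹ ≤ C := by
  obtain ⟨h1, h2⟩ := ft_w0
  refine ⟨∫ w : E3, (max 12 ‖w‖ ^ 4)⁻¹, integral_nonneg fun w => (h2 w).1, fun x => ?_⟩
  refine ⟨h1.comp_sub_right x, le_of_eq ?_⟩
  exact integral_sub_right_eq_self (fun w : E3 => (max 12 ‖w‖ ^ 4)⁻¹) x

private theorem ft_ind (x y : E3) (R : ℝ) :
    IntegrableOn (fun v : E3 => (max 12 ‖v - x‖ ^ 4)⁻¹ * (if ‖y - v‖ < 1 then (1 : ℝ) else 0))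
      (Metric.ball x R) := by
  obtain ⟨_, h2⟩ := ft_w0
  have hms : Measurable (fun v : E3 => if ‖y - v‖ < 1 then (1 : ℝ) else 0) := by
    have : MeasurableSet {v : E3 | ‖y - v‖ < 1} :=
      measurableSet_lt (measurable_const.sub measurable_id).norm measurable_const
    exact Measurable.ite this measurable_const measurable_const
  have hmw : Measurable (fun v : E3 => (max 12 ‖v - x‖ ^ 4)⁻¹) :=
    ((continuous_const.max (continuous_id.sub continuous_const).norm).pow 4).measurable.inv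
  have hfin : IsFiniteMeasure ((volume : Measure E3).restrict (Metric.ball x R)) :=
    ⟨by rw [Measure.restrict_apply_univ]; exact measure_ball_lt_top⟩
  refine Integrable.of_bound (hmw.mul hms).aestronglyMeasurable 1
    (Filter.Eventually.of_forall fun v => ?_)
  have h3 := h2 (v - x)
  split_ifs
  · rw [mul_one, Real.norm_eq_abs, abs_of_nonneg h3.1]
    exact h3.2
  · simp

private theorem ft_one (x y : E3) (D : ℝ) (hD : 13 ≤ D) :
    (if ‖y - x‖ < 13 then 0 else (‖y - x‖ ^ 4)⁻¹) ≤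
      16 * ((volume : Measure E3).real (Metric.ball (0 : E3) 1))⁻¹ *
      (∫ v in Metric.ball x (D + 1),
        (max 12 ‖v - x‖ ^ 4)⁻¹ * (if ‖y - v‖ < 1 then (1 : ℝ) else 0)) + (D ^ 4)⁻¹ := by
  set κ : ℝ := (volume : Measure E3).real (Metric.ball (0 : E3) 1) with hκ
  have hκ0 : 0 < κ := by
    rw [hκ]
    exact ENNReal.toReal_pos (Metric.measure_ball_pos _ _ one_pos).ne' measure_ball_lt_top.ne
  have hI0 : 0 ≤ ∫ v in Metric.ball x (D + 1),
        (max 12 ‖v - x‖ ^ 4)⁻¹ * (if ‖y - v‖ < 1 then (1 : ℝ) else 0) := by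
    refine integral_nonneg fun v => ?_
    simp only [Pi.zero_apply]
    split_ifs
    · positivity
    · simp
  have hD0 : 0 ≤ (D ^ 4)⁻¹ := by positivity
  by_cases h1 : ‖y - x‖ < 13
  · rw [if_pos h1]
    positivity
  · rw [if_neg h1]
    rw [not_lt] at h1
    by_cases h2 : ‖y - x‖ < D
    · have hvol : (volume : Measure E3).real (Metric.ball y 1) = κ := by
        rw [hκ, Measure.real, Measure.real, Measure.addHaar_ball_center]
      have hind : ∀ v : E3, (if ‖y - v‖ < 1 then (1 : ℝ) else 0) =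
          (Metric.ball y 1).indicator (fun _ => (1 : ℝ)) v := by
        intro v
        by_cases h : ‖y - v‖ < 1
        · rw [if_pos h, Set.indicator_of_mem]
          rw [Metric.mem_ball, dist_eq_norm, norm_sub_rev]
          exact h
        · rw [if_neg h, Set.indicator_of_notMem]
          rw [Metric.mem_ball, dist_eq_norm, norm_sub_rev]
          exact h
      have hsub : Metric.ball y 1 ⊆ Metric.ball x (D + 1) := by
        intro v hv
        rw [Metric.mem_ball, dist_eq_norm] at hv ⊢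
        calc ‖v - x‖ ≤ ‖v - y‖ + ‖y - x‖ := norm_sub_le_norm_sub_add_norm_sub _ _ _
          _ < D + 1 := by linarith
      have hlow : κ * (16 * ‖y - x‖ ^ 4)⁻¹ ≤ ∫ v in Metric.ball x (D + 1),
          (max 12 ‖v - x‖ ^ 4)⁻¹ * (if ‖y - v‖ < 1 then (1 : ℝ) else 0) := by
        have e1 : ∫ v in Metric.ball y 1, (16 * ‖y - x‖ ^ 4)⁻¹ = κ * (16 * ‖y - x‖ ^ 4)⁻¹ := by
          rw [setIntegral_const, smul_eq_mul, hvol]
        rw [← e1]
        have e2 : ∫ v in Metric.ball y 1, (16 * ‖y - x‖ ^ 4)⁻¹ ≤ ∫ v in Metric.ball y 1,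
            (max 12 ‖v - x‖ ^ 4)⁻¹ * (if ‖y - v‖ < 1 then (1 : ℝ) else 0) := by
          refine setIntegral_mono_on (integrableOn_const (hs := measure_ball_lt_top.ne))
            ((ft_ind x y (D + 1)).mono_set hsub) Metric.isOpen_ball.measurableSet fun v hv => ?_
          rw [Metric.mem_ball, dist_eq_norm] at hv
          rw [if_pos (by rw [norm_sub_rev]; exact hv), mul_one]
          have h3 : ‖v - x‖ ≤ ‖v - y‖ + ‖y - x‖ := norm_sub_le_norm_sub_add_norm_sub _ _ _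
          have h4 : max 12 ‖v - x‖ ≤ 2 * ‖y - x‖ := max_le (by linarith) (by linarith)
          have h5 : max 12 ‖v - x‖ ^ 4 ≤ (2 * ‖y - x‖) ^ 4 :=
            pow_le_pow_left₀ (le_trans (by norm_num) (le_max_left _ _)) h4 4
          have h6 : (2 * ‖y - x‖) ^ 4 = 16 * ‖y - x‖ ^ 4 := by ring
          rw [h6] at h5
          have h7 : (0 : ℝ) < max 12 ‖v - x‖ ^ 4 :=
            pow_pos (lt_of_lt_of_le (by norm_num) (le_max_left _ _)) 4
          exact inv_anti₀ h7 h5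
        refine e2.trans ?_
        refine setIntegral_mono_set (ft_ind x y (D + 1)) (Filter.Eventually.of_forall fun v => ?_)
          hsub.eventuallyLE
        simp only [Pi.zero_apply]
        split_ifs
        · positivity
        · simp
      have h8 : (‖y - x‖ ^ 4)⁻¹ = 16 * κ⁻¹ * (κ * (16 * ‖y - x‖ ^ 4)⁻¹) := by
        have : ‖y - x‖ ≠ 0 := by linarith
        field_simp
      rw [h8]
      have h9 := mul_le_mul_of_nonneg_left hlow (by positivity : 0 ≤ 16 * κ⁻¹)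
      linarith
    · rw [not_lt] at h2
      have h3 : (‖y - x‖ ^ 4)⁻¹ ≤ (D ^ 4)⁻¹ :=
        inv_anti₀ (by positivity) (pow_le_pow_left₀ (by linarith) h2 4)
      have h4 : 0 ≤ 16 * κ⁻¹ * ∫ v in Metric.ball x (D + 1),
        (max 12 ‖v - x‖ ^ 4)⁻¹ * (if ‖y - v‖ < 1 then (1 : ℝ) else 0) := by positivity
      linarith

theorem tl_le : ∃ C : ℝ, 0 ≤ C ∧ ∀ (n k : ℕ) (p : Cfg n k) (x : E3) (D : ℝ) (_ : 13 ≤ D),
    tl 13 p x ≤ C * (∫ v in Metric.ball x (D + 1), (max 12 ‖v - x‖ ^ 4)⁻¹ *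
      (ce p v 1 + cn p v 1)) + (n + k) * (D ^ 4)⁻¹ := by
  refine ⟨16 * ((volume : Measure E3).real (Metric.ball (0 : E3) 1))⁻¹,
    mul_nonneg (by norm_num) (inv_nonneg.2 measureReal_nonneg), fun n k p x D hD => ?_⟩
  set K : ℝ := 16 * ((volume : Measure E3).real (Metric.ball (0 : E3) 1))⁻¹ with hK
  have e1 : ∫ v in Metric.ball x (D + 1), (max 12 ‖v - x‖ ^ 4)⁻¹ * (ce p v 1 + cn p v 1) =
      (∑ a, ∫ v in Metric.ball x (D + 1),
        (max 12 ‖v - x‖ ^ 4)⁻¹ * (if ‖p.1 a - v‖ < 1 then (1 : ℝ) else 0)) +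
      ∑ j, ∫ v in Metric.ball x (D + 1),
        (max 12 ‖v - x‖ ^ 4)⁻¹ * (if ‖p.2 j - v‖ < 1 then (1 : ℝ) else 0) := by
    rw [← integral_finsetSum _ fun a _ => ft_ind x (p.1 a) (D + 1),
      ← integral_finsetSum _ fun j _ => ft_ind x (p.2 j) (D + 1),
      ← integral_add (integrable_finsetSum _ fun a _ => ft_ind x (p.1 a) (D + 1))
        (integrable_finsetSum _ fun j _ => ft_ind x (p.2 j) (D + 1))]
    congr 1
    funext v
    unfold ce cn
    rw [mul_add, mul_sum, mul_sum]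
  rw [e1, mul_add, mul_sum, mul_sum]
  unfold tl
  have h1 : ∑ a, (if ‖p.1 a - x‖ < 13 then 0 else (‖p.1 a - x‖ ^ 4)⁻¹) ≤
      ∑ a : Fin n, (K * (∫ v in Metric.ball x (D + 1),
        (max 12 ‖v - x‖ ^ 4)⁻¹ * (if ‖p.1 a - v‖ < 1 then (1 : ℝ) else 0)) + (D ^ 4)⁻¹) :=
    sum_le_sum fun a _ => ft_one x (p.1 a) D hD
  have h2 : ∑ j, (if ‖p.2 j - x‖ < 13 then 0 else (‖p.2 j - x‖ ^ 4)⁻¹) ≤
      ∑ j : Fin k, (K * (∫ v in Metric.ball x (D + 1),
        (max 12 ‖v - x‖ ^ 4)⁻¹ * (if ‖p.2 j - v‖ < 1 then (1 : ℝ) else 0)) + (D ^ 4)⁻¹) :=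
    sum_le_sum fun j _ => ft_one x (p.2 j) D hD
  rw [sum_add_distrib, sum_const, card_univ, Fintype.card_fin, nsmul_eq_mul] at h1 h2
  linarith

theorem ftail (q : ℕ) (zm zp κm κp A : ℝ) (hzm : 0 < zm) {χ θ : E3 → ℝ} (hχ : Bump χ)
    (hθ : Cut θ) (η : ℝ) (hη : 0 < η) : ∃ C : ℝ, 0 ≤ C ∧
    ∀ (n k : ℕ) (Λ : Set E3) (z κ : Fin k → ℝ) (W : Finset E3) (E : ℝ)
    (ψ : (Fin n → Fin q) → Cfg n k → ℂ) (_ : Gd q zm zp κm κp A n k Λ z κ W E ψ)
    (x : E3) (D : ℝ) (_ : 13 ≤ D) (B : ℝ) (_ : Lb χ θ W z ψ x (D + 101) B),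
    mean ψ (fun p => tl 13 p x) ≤ η * B + C * (1 + (n + k) * (D ^ 4)⁻¹) := by
  obtain ⟨C1, hC1, htl⟩ := tl_le
  obtain ⟨C2, hC2, hw⟩ := w_int
  obtain ⟨C3, hC3, hf⟩ := fcnt q zm zp κm κp A hzm hχ hθ (η / (C1 * C2 + 1)) (by positivity)
  refine ⟨C1 * C2 * C3 + 1, by positivity, ?_⟩
  intro n k Λ z κ W E ψ hG x D hD B hB
  have hs := St_sm hG.st
  have hB0 : 0 ≤ B := (hB.at (by linarith)).nonneg
  obtain ⟨hwi, hwle⟩ := hw x
  have hw01 : ∀ v : E3, 0 ≤ (max 12 ‖v - x‖ ^ 4)⁻¹ ∧ (max 12 ‖v - x‖ ^ 4)⁻¹ ≤ 1 :=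
    fun v => ft_w0.2 (v - x)
  have hcm : Measurable (fun u : Cfg n k × E3 => ce u.1 u.2 1) := by
    unfold ce
    refine Finset.measurable_fun_sum _ fun a _ => ?_
    have hmset : MeasurableSet {u : Cfg n k × E3 | ‖u.1.1 a - u.2‖ < 1} := by
      apply measurableSet_lt _ measurable_const
      exact (((meas_e a).comp measurable_fst).sub measurable_snd).norm
    exact Measurable.ite hmset measurable_const measurable_const
  have hcm2 : Measurable (fun u : Cfg n k × E3 => cn u.1 u.2 1) := by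
    unfold cn
    refine Finset.measurable_fun_sum _ fun j _ => ?_
    have hmset : MeasurableSet {u : Cfg n k × E3 | ‖u.1.2 j - u.2‖ < 1} := by
      apply measurableSet_lt _ measurable_const
      exact (((meas_n j).comp measurable_fst).sub measurable_snd).norm
    exact Measurable.ite hmset measurable_const measurable_const
  have hmw : Measurable (fun v : E3 => (max 12 ‖v - x‖ ^ 4)⁻¹) :=
    ((continuous_const.max (continuous_id.sub continuous_const).norm).pow 4).measurable.inv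
  obtain ⟨m1, m2, m3⟩ := mean_ball hs x (D + 1)
    (F := fun v p => (max 12 ‖v - x‖ ^ 4)⁻¹ * (ce p v 1 + cn p v 1))
    ((hmw.comp measurable_snd).mul (hcm.add hcm2)) (G := fun _ => (n : ℝ) + k) continuous_const
    fun v _ p => by
      have h1 := ce_nonneg p v 1
      have h2 := cn_nonneg p v 1
      have h3 := ce_le p v 1
      have h4 := cn_le p v 1
      rw [abs_of_nonneg (mul_nonneg (hw01 v).1 (by linarith))]
      calc (max 12 ‖v - x‖ ^ 4)⁻¹ * (ce p v 1 + cn p v 1) ≤ 1 * (ce p v 1 + cn p v 1) :=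
            mul_le_mul_of_nonneg_right (hw01 v).2 (by linarith)
        _ ≤ (n : ℝ) + k := by linarith
  have hone : IM ψ (fun _ => ((n : ℝ) + k) * (D ^ 4)⁻¹) := IM.cont hs continuous_const
  have hstep1 : mean ψ (fun p => tl 13 p x) ≤
      C1 * (∫ v in Metric.ball x (D + 1),
        mean ψ (fun p => (max 12 ‖v - x‖ ^ 4)⁻¹ * (ce p v 1 + cn p v 1))) +
        ((n : ℝ) + k) * (D ^ 4)⁻¹ := by
    rw [m3, ← mean_cmul]
    have e1 : ((n : ℝ) + k) * (D ^ 4)⁻¹ = mean ψ (fun _ => ((n : ℝ) + k) * (D ^ 4)⁻¹) := by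
      rw [mean_const, hG.one, mul_one]
    rw [e1, ← mean_add (m2.cmul C1) hone]
    refine mean_mono0 (fun p => ?_) ((m2.cmul C1).add hone) fun σ p _ => ?_
    · unfold tl
      refine add_nonneg (sum_nonneg fun a _ => ?_) (sum_nonneg fun a _ => ?_)
      · split_ifs
        · exact le_rfl
        · positivity
      · split_ifs
        · exact le_rfl
        · positivity
    · exact htl n k p x D hD
  have hpt : ∀ v ∈ Metric.ball x (D + 1),
      mean ψ (fun p => (max 12 ‖v - x‖ ^ 4)⁻¹ * (ce p v 1 + cn p v 1)) ≤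
      (max 12 ‖v - x‖ ^ 4)⁻¹ * (η / (C1 * C2 + 1) * B + C3) := by
    intro v hv
    rw [Metric.mem_ball, dist_eq_norm] at hv
    rw [mean_cmul]
    apply mul_le_mul_of_nonneg_left _ (hw01 v).1
    have h1 := hf n k Λ z κ W E ψ hG v B (hB.sub (by linarith))
    refine le_trans ?_ h1
    refine mean_mono ((IM_ce hs v 1).add (IM_cn hs v 1)) ((IM_ce hs v 14).add (IM_cn hs v 14))
      fun σ p _ => ?_
    have h2 : ce p v 1 ≤ ce p v 14 := ce_mono p (by rw [sub_self, norm_zero]; norm_num)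
    have h3 : cn p v 1 ≤ cn p v 14 := cn_mono p (by rw [sub_self, norm_zero]; norm_num)
    exact add_le_add h2 h3
  have hstep2 : ∫ v in Metric.ball x (D + 1),
      mean ψ (fun p => (max 12 ‖v - x‖ ^ 4)⁻¹ * (ce p v 1 + cn p v 1)) ≤
      C2 * (η / (C1 * C2 + 1) * B + C3) := by
    have hc0 : 0 ≤ η / (C1 * C2 + 1) * B + C3 := by positivity
    calc ∫ v in Metric.ball x (D + 1),
        mean ψ (fun p => (max 12 ‖v - x‖ ^ 4)⁻¹ * (ce p v 1 + cn p v 1)) ≤
        ∫ v in Metric.ball x (D + 1),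
          (max 12 ‖v - x‖ ^ 4)⁻¹ * (η / (C1 * C2 + 1) * B + C3) :=
          setIntegral_mono_on m1 (hwi.mul_const _).integrableOn Metric.isOpen_ball.measurableSet hpt
      _ = (∫ v in Metric.ball x (D + 1), (max 12 ‖v - x‖ ^ 4)⁻¹) *
          (η / (C1 * C2 + 1) * B + C3) := integral_mul_const _ _
      _ ≤ C2 * (η / (C1 * C2 + 1) * B + C3) := by
          apply mul_le_mul_of_nonneg_right _ hc0
          refine le_trans ?_ hwle
          exact setIntegral_le_integral hwi (Filter.Eventually.of_forall fun v => (hw01 v).1)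
  have hstep3 := mul_le_mul_of_nonneg_left hstep2 hC1
  have h5 : C1 * C2 * (η / (C1 * C2 + 1)) ≤ η := by
    have h6 : C1 * C2 * (η / (C1 * C2 + 1)) = η * (C1 * C2 / (C1 * C2 + 1)) := by ring
    rw [h6]
    have h7 : C1 * C2 / (C1 * C2 + 1) ≤ 1 := by
      rw [div_le_one (by positivity)]
      linarith
    calc η * (C1 * C2 / (C1 * C2 + 1)) ≤ η * 1 := mul_le_mul_of_nonneg_left h7 hη.le
      _ = η := mul_one _
  have h8 := mul_le_mul_of_nonneg_right h5 hB0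
  have h9 : 0 ≤ C1 * C2 * C3 * (((n : ℝ) + k) * (D ^ 4)⁻¹) := by positivity
  nlinarith [hstep1, hstep3, h8, h9]

end H6.CB
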