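import Pool.Agent.H6.CB.Defs

/-! The sector functions. `bt t = 1` for `1/8 ≤ t ≤ 8`, `bt t = 0` for `t ≤ 1/64` and for `t ≥ 64` (`Real.smoothTransition.one_of_one_le`, `zero_of_nonpos`), `0 ≤ bt ≤ 1`, and `bt` and `t ↦ smoothTransition ((64 - t) / 56)` are smooth with bounded derivative (the derivative is continuous and vanishes outside a compact set). `gl l = β ^ 2` with `β` of this kind (at scale `64 ^ l`), so `gl' ^ 2 = 4 β ^ 2 β' ^ 2 ≤ C 64 ^ (-2 l) gl`. -/

open MeasureTheory Finset

namespace H6.CB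

open H6.CM

open Real Topology

private theorem glf_bt_nonneg (t : ℝ) : 0 ≤ bt t :=
  mul_nonneg (smoothTransition.nonneg _) (smoothTransition.nonneg _)

private theorem glf_bt_le (t : ℝ) : bt t ≤ 1 :=
  mul_le_one₀ (smoothTransition.le_one _) (smoothTransition.nonneg _) (smoothTransition.le_one _)

private theorem glf_bt_smooth : ContDiff ℝ (⊤ : ℕ∞) bt := by
  unfold bt
  exact (smoothTransition.contDiff.comp (((contDiff_const.mul contDiff_id).sub
    contDiff_const).div_const 7)).mul
      (smoothTransition.contDiff.comp ((contDiff_const.sub contDiff_id).div_const 56))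

theorem gl_nonneg (l : ℕ) (t : ℝ) : 0 ≤ gl l t := by
  cases l with
  | zero => exact sq_nonneg _
  | succ l => exact sq_nonneg _

theorem gl_le_one (l : ℕ) (t : ℝ) : gl l t ≤ 1 := by
  cases l with
  | zero => exact pow_le_one₀ (smoothTransition.nonneg _) (smoothTransition.le_one _)
  | succ l => exact pow_le_one₀ (glf_bt_nonneg _) (glf_bt_le _)

theorem gl_smooth (l : ℕ) : ContDiff ℝ (⊤ : ℕ∞) (gl l) := by
  cases l with
  | zero =>
    show ContDiff ℝ (⊤ : ℕ∞) fun t : ℝ => smoothTransition ((64 - t) / 56) ^ 2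
    exact (smoothTransition.contDiff.comp ((contDiff_const.sub contDiff_id).div_const 56)).pow 2
  | succ l =>
    show ContDiff ℝ (⊤ : ℕ∞) fun t : ℝ => bt (t / 64 ^ (l + 1)) ^ 2
    exact (glf_bt_smooth.comp (contDiff_id.div_const _)).pow 2

theorem gl_hi (l : ℕ) (t : ℝ) (h : gl l t ≠ 0) : t < 64 ^ (l + 1) := by
  by_contra hc
  push Not at hc
  apply h
  cases l with
  | zero =>
    show smoothTransition ((64 - t) / 56) ^ 2 = 0
    rw [smoothTransition.zero_of_nonpos]
    · simp
    · rw [zero_add, pow_one] at hc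
      linarith
  | succ l =>
    show bt (t / 64 ^ (l + 1)) ^ 2 = 0
    have h1 : (64 : ℝ) ≤ t / 64 ^ (l + 1) := by
      rw [le_div_iff₀ (by positivity), ← pow_succ']
      exact hc
    unfold bt
    rw [smoothTransition.zero_of_nonpos (x := (64 - t / 64 ^ (l + 1)) / 56)]
    · simp
    · linarith

theorem gl_lo (l : ℕ) (t : ℝ) (h : gl (l + 1) t ≠ 0) : 64 ^ l < t := by
  by_contra hc
  push Not at hc
  apply h
  show bt (t / 64 ^ (l + 1)) ^ 2 = 0
  have h1 : 64 * (t / 64 ^ (l + 1)) ≤ 1 := by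
    rw [← mul_div_assoc, div_le_one (by positivity), pow_succ']
    linarith
  unfold bt
  rw [smoothTransition.zero_of_nonpos (x := (64 * (t / 64 ^ (l + 1)) - 1) / 7)]
  · simp
  · linarith

theorem gl_ge (L : ℕ) (t : ℝ) (h0 : 0 ≤ t) (h : t ≤ 8 * 64 ^ L) :
    1 ≤ ∑ l ∈ range (L + 1), gl l t ^ 2 := by
  induction L with
  | zero =>
    rw [zero_add, sum_range_one]
    have h1 : gl 0 t = 1 := by
      show smoothTransition ((64 - t) / 56) ^ 2 = 1
      rw [smoothTransition.one_of_one_le]
      · simp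
      · rw [pow_zero, mul_one] at h
        linarith
    rw [h1, one_pow]
  | succ L ih =>
    rw [sum_range_succ]
    by_cases h1 : t ≤ 8 * 64 ^ L
    · have h2 := ih h1
      have h3 := sq_nonneg (gl (L + 1) t)
      linarith
    · push Not at h1
      have h2 : gl (L + 1) t = 1 := by
        show bt (t / 64 ^ (L + 1)) ^ 2 = 1
        have h3 : t / 64 ^ (L + 1) ≤ 8 := by
          rw [div_le_iff₀ (by positivity)]
          exact h
        have h4 : 8 ≤ 64 * (t / 64 ^ (L + 1)) := by
          rw [← mul_div_assoc, le_div_iff₀ (by positivity), pow_succ']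
          linarith
        unfold bt
        rw [smoothTransition.one_of_one_le, smoothTransition.one_of_one_le]
        · simp
        · linarith
        · linarith
      rw [h2, one_pow]
      have h3 : 0 ≤ ∑ l ∈ range (L + 1), gl l t ^ 2 := sum_nonneg fun l _ => sq_nonneg _
      linarith

theorem gl_sum (L : ℕ) (t : ℝ) : ∑ l ∈ range (L + 1), gl l t ≤ 3 := by
  have key : ∑ l ∈ range (L + 1), gl l t ≤ 2 := by
    induction L with
    | zero =>
      rw [zero_add, sum_range_one]
      linarith [gl_le_one 0 t]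
    | succ L ih =>
      by_cases h : gl (L + 1) t = 0
      · rw [sum_range_succ, h, add_zero]
        exact ih
      · have h1 := gl_lo L t h
        have h2 : ∑ l ∈ range L, gl l t = 0 := by
          refine sum_eq_zero fun l hl => ?_
          by_contra hc
          have h3 := gl_hi l t hc
          have h4 : (64 : ℝ) ^ (l + 1) ≤ 64 ^ L :=
            pow_le_pow_right₀ (by norm_num) (mem_range.1 hl)
          linarith
        rw [sum_range_succ, sum_range_succ, h2]
        linarith [gl_le_one L t, gl_le_one (L + 1) t]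
  linarith

private theorem glf_st : ∃ K : ℝ, 0 ≤ K ∧ ∀ t, |deriv smoothTransition t| ≤ K := by
  have hc : Continuous (deriv smoothTransition) :=
    (smoothTransition.contDiff (n := 1)).continuous_deriv le_rfl
  obtain ⟨K, hK⟩ := (isCompact_Icc (a := (0 : ℝ)) (b := 1)).exists_bound_of_continuousOn
    hc.continuousOn
  refine ⟨max K 0, le_max_right _ _, fun t => ?_⟩
  by_cases ht : t ∈ Set.Icc (0 : ℝ) 1
  · exact (hK t ht).trans (le_max_left _ _)
  · have h0 : deriv smoothTransition t = 0 := by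
      rw [Set.mem_Icc, not_and_or, not_le, not_le] at ht
      rcases ht with ht | ht
      · have h1 : smoothTransition =ᶠ[𝓝 t] fun _ => (0 : ℝ) := by
          filter_upwards [Iio_mem_nhds ht] with x hx
          exact smoothTransition.zero_of_nonpos (le_of_lt hx)
        rw [h1.deriv_eq, deriv_const]
      · have h1 : smoothTransition =ᶠ[𝓝 t] fun _ => (1 : ℝ) := by
          filter_upwards [Ioi_mem_nhds ht] with x hx
          exact smoothTransition.one_of_one_le (le_of_lt hx)
        rw [h1.deriv_eq, deriv_const]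
    rw [h0, abs_zero]
    exact le_max_right _ _

private theorem glf_ab {x y K : ℝ} (hx0 : 0 ≤ x) (hx1 : x ≤ 1) (hy : |y| ≤ K) :
    |x * y| ≤ K := by
  rw [abs_mul, abs_of_nonneg hx0]
  nlinarith [abs_nonneg y]

private theorem glf_dst (x : ℝ) : HasDerivAt smoothTransition (deriv smoothTransition x) x :=
  (((smoothTransition.contDiff (n := 1)).differentiable one_ne_zero) x).hasDerivAt

private theorem glf_d2 (t : ℝ) : HasDerivAt (fun t : ℝ => smoothTransition ((64 - t) / 56))
    (deriv smoothTransition ((64 - t) / 56) * (-1 / 56)) t := by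
  have h1 : HasDerivAt (fun t : ℝ => (64 - t) / 56) (-1 / 56) t :=
    ((hasDerivAt_id t).const_sub 64).div_const 56
  exact (glf_dst _).comp t h1

private theorem glf_d1 (t : ℝ) : HasDerivAt (fun t : ℝ => smoothTransition ((64 * t - 1) / 7))
    (deriv smoothTransition ((64 * t - 1) / 7) * (64 / 7)) t := by
  have h1 : HasDerivAt (fun t : ℝ => (64 * t - 1) / 7) (64 / 7) t := by
    have := (((hasDerivAt_id t).const_mul 64).sub_const 1).div_const 7
    simpa using this
  exact (glf_dst _).comp t h1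

private theorem glf_bt : ∃ K : ℝ, 0 ≤ K ∧
    (∀ t, ∃ y, HasDerivAt (fun t : ℝ => smoothTransition ((64 - t) / 56)) y t ∧ |y| ≤ K) ∧
    ∀ t, ∃ y, HasDerivAt bt y t ∧ |y| ≤ K := by
  obtain ⟨K, hK0, hK⟩ := glf_st
  have h2 : ∀ x : ℝ, |deriv smoothTransition x * (-1 / 56)| ≤ K := by
    intro x
    rw [abs_mul]
    have h3 : |(-1 / 56 : ℝ)| ≤ 1 := by rw [abs_le]; constructor <;> norm_num
    nlinarith [hK x, abs_nonneg (deriv smoothTransition x), abs_nonneg (-1 / 56 : ℝ)]
  refine ⟨11 * K, by positivity, fun t => ⟨_, glf_d2 t, (h2 _).trans (by linarith)⟩, fun t => ?_⟩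
  refine ⟨_, (glf_d1 t).mul (glf_d2 t), ?_⟩
  refine (abs_add_le _ _).trans ?_
  have h3 : |deriv smoothTransition ((64 * t - 1) / 7) * (64 / 7) *
      smoothTransition ((64 - t) / 56)| ≤ 10 * K := by
    rw [mul_comm]
    refine glf_ab (smoothTransition.nonneg _) (smoothTransition.le_one _) ?_
    rw [abs_mul, abs_of_pos (by norm_num : (0 : ℝ) < 64 / 7)]
    nlinarith [hK ((64 * t - 1) / 7), abs_nonneg (deriv smoothTransition ((64 * t - 1) / 7))]
  have h4 := glf_ab (smoothTransition.nonneg ((64 * t - 1) / 7))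
    (smoothTransition.le_one ((64 * t - 1) / 7)) (h2 ((64 - t) / 56))
  linarith

theorem gl_deriv : ∃ C : ℝ, 0 ≤ C ∧ ∀ (l : ℕ) (t : ℝ),
    deriv (gl l) t ^ 2 ≤ C * (((64 : ℝ) ^ l) ^ 2)⁻¹ * gl l t := by
  obtain ⟨K, hK0, h1, h2⟩ := glf_bt
  refine ⟨4 * K ^ 2, by positivity, fun l t => ?_⟩
  cases l with
  | zero =>
    obtain ⟨y, hy, hyK⟩ := h1 t
    have h3 : HasDerivAt (gl 0) (2 * smoothTransition ((64 - t) / 56) * y) t := by
      have := hy.pow 2
      simp only [Nat.cast_ofNat, Nat.add_one_sub_one, pow_one] at this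
      exact this
    rw [h3.deriv]
    have h4 : gl 0 t = smoothTransition ((64 - t) / 56) ^ 2 := rfl
    rw [h4, pow_zero, one_pow, inv_one, mul_one]
    have h5 : y ^ 2 ≤ K ^ 2 := by
      rw [← sq_abs y]
      exact pow_le_pow_left₀ (abs_nonneg _) hyK 2
    calc (2 * smoothTransition ((64 - t) / 56) * y) ^ 2 =
          4 * y ^ 2 * smoothTransition ((64 - t) / 56) ^ 2 := by ring
      _ ≤ 4 * K ^ 2 * smoothTransition ((64 - t) / 56) ^ 2 := by
          refine mul_le_mul_of_nonneg_right ?_ (sq_nonneg _)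
          linarith
  | succ l =>
    obtain ⟨y, hy, hyK⟩ := h2 (t / 64 ^ (l + 1))
    have h6 : HasDerivAt (fun t : ℝ => bt (t / 64 ^ (l + 1))) (y * (1 / 64 ^ (l + 1))) t := by
      have h7 : HasDerivAt (fun t : ℝ => t / 64 ^ (l + 1)) (1 / 64 ^ (l + 1)) t :=
        (hasDerivAt_id t).div_const _
      exact hy.comp t h7
    have h3 : HasDerivAt (gl (l + 1)) (2 * bt (t / 64 ^ (l + 1)) * (y * (1 / 64 ^ (l + 1)))) t := by
      have := h6.pow 2
      simp only [Nat.cast_ofNat, Nat.add_one_sub_one, pow_one] at this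
      exact this
    rw [h3.deriv]
    have h4 : gl (l + 1) t = bt (t / 64 ^ (l + 1)) ^ 2 := rfl
    rw [h4]
    have h5 : y ^ 2 ≤ K ^ 2 := by
      rw [← sq_abs y]
      exact pow_le_pow_left₀ (abs_nonneg _) hyK 2
    calc (2 * bt (t / 64 ^ (l + 1)) * (y * (1 / 64 ^ (l + 1)))) ^ 2 =
          4 * y ^ 2 * (((64 : ℝ) ^ (l + 1)) ^ 2)⁻¹ * bt (t / 64 ^ (l + 1)) ^ 2 := by
          rw [one_div, mul_pow, mul_pow, mul_pow, inv_pow]
          ring
      _ ≤ 4 * K ^ 2 * (((64 : ℝ) ^ (l + 1)) ^ 2)⁻¹ * bt (t / 64 ^ (l + 1)) ^ 2 := by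
          refine mul_le_mul_of_nonneg_right (mul_le_mul_of_nonneg_right ?_ (by positivity))
            (sq_nonneg _)
          linarith

end H6.CB
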