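import Pool.Agent.H6.CB.TSt
import Pool.Agent.H6.CB.GlF

/-! The Lieb-Thirring inequality for the `5/3`-power of the local count. Let `m p = ∑ a, Jc θ v s (p.1 a) ^ 2`, so `ce p v s ≤ m p ≤ ce p v (2 s)`, and `G l = gl l (m p)` (as for `Gs`; smooth and symmetric, so `mf (G l) Φ` is a wave function). `c ^ (5/3) ≤ ∑ l ≤ n, G l ^ 2 * m ^ (5/3)`. `l = 0`: `m ^ (5/3) ≤ 16 m`. `l ≥ 1`: `m ^ (5/3) ≤ 16 * 64 ^ (2 l / 3) m`; apply `lc1` to `mf (G l) Φ` with `lam = ε 64 ^ (2 l / 3) s⁻²`; since `mass (mf (G l) Φ) ≤ 64 ^ (1 - l) mean (mf (G l) Φ) m` (`gl_lo`) the last term is at most half the left side if `ε` is small (depending on the constant of `lc1` only). So `∑_{l ≥ 1} ⟨G l ^ 2 m ^ (5/3)⟩ ≤ (C / ε) s² ∑ l ∑ a, kE (mf (J a) (mf (G l) Φ)) a`, and `|∇_a (J_a G_l Φ)|² ≤ 3 (J_a² G_l² |∇_a Φ|² + |∇ J_a|² G_l² |Φ|² + J_a² |∇_a G_l|² |Φ|²)`; sum over `l` and `a`: `∑ G_l² ≤ 3`, `|∇ J|²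 ≤ C s⁻²` supported in the ball of radius `2 s` (`Jc_grad`), `∑ a, |∇_a G_l|² ≤ C 64 ^ (-2 l) G_l s⁻² m ≤ C s⁻² 64 ^ (-l) m` (`gl_deriv`, `gl_hi`, `G_l ≤ 1`). -/

open MeasureTheory Finset

namespace H6.CB

open H6.CM

private noncomputable def m5 {n k : ℕ} (θ : E3 → ℝ) (v : E3) (s : ℝ) (p : Cfg n k) : ℝ :=
  ∑ a, Jc θ v s (p.1 a) ^ 2

private theorem l53_g3 (h : E3 → ℝ) (f : E3 → ℂ) (v : E3) (hh : DifferentiableAt ℝ h v)
    (hf : DifferentiableAt ℝ f v) :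
    g3 (fun u => ((h u : ℝ) : ℂ) * f u) v ≤ 2 * (h v ^ 2 * g3 f v + gr h v * ‖f v‖ ^ 2) := by
  have h1 : HasFDerivAt (fun u => ((h u : ℝ) : ℂ)) (Complex.ofRealCLM.comp (fderiv ℝ h v)) v :=
    Complex.ofRealCLM.hasFDerivAt.comp v hh.hasFDerivAt
  have h2 := h1.mul hf.hasFDerivAt
  have h3 : HasFDerivAt (fun u => ((h u : ℝ) : ℂ) * f u) _ v := h2
  unfold g3 gr
  rw [mul_sum, sum_mul, ← sum_add_distrib, mul_sum]
  refine sum_le_sum fun d _ => ?_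
  rw [h3.fderiv]
  simp only [add_apply, smul_apply, smul_eq_mul,
    ContinuousLinearMap.comp_apply, Complex.ofRealCLM_apply]
  obtain ⟨x, hx⟩ : ∃ x, x = ‖((h v : ℝ) : ℂ) * fderiv ℝ f v (EuclideanSpace.single d 1)‖ := ⟨_, rfl⟩
  obtain ⟨y, hy⟩ : ∃ y, y = ‖f v * ((fderiv ℝ h v (EuclideanSpace.single d 1) : ℝ) : ℂ)‖ := ⟨_, rfl⟩
  have hx2 : x ^ 2 = h v ^ 2 * ‖fderiv ℝ f v (EuclideanSpace.single d 1)‖ ^ 2 := by
    rw [hx, norm_mul, Complex.norm_real, mul_pow, Real.norm_eq_abs, sq_abs]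
  have hy2 : y ^ 2 = fderiv ℝ h v (EuclideanSpace.single d 1) ^ 2 * ‖f v‖ ^ 2 := by
    rw [hy, norm_mul, Complex.norm_real, mul_pow, Real.norm_eq_abs, sq_abs, mul_comm]
  have hle : ‖((h v : ℝ) : ℂ) * fderiv ℝ f v (EuclideanSpace.single d 1) +
      f v * ((fderiv ℝ h v (EuclideanSpace.single d 1) : ℝ) : ℂ)‖ ≤ x + y := by
    rw [hx, hy]
    exact norm_add_le _ _
  rw [← hx2, ← hy2]
  have h5 := pow_le_pow_left₀ (norm_nonneg _) hle 2
  refine h5.trans ?_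
  linarith [sq_nonneg (x - y)]

private theorem l53_pt {θ : E3 → ℝ} (h : Cut θ) : ∃ K : ℝ, 0 ≤ K ∧ ∀ (n k : ℕ)
    (F : Cfg n k → ℂ) (_ : Differentiable ℝ F) (v : E3) (s : ℝ) (_ : 0 < s) (l : ℕ) (a : Fin n)
    (p : Cfg n k),
    ge (fun p => ((Jc θ v s (p.1 a) : ℝ) : ℂ) * (((gl l (m5 θ v s p) : ℝ) : ℂ) * F p)) a p ≤
      gl l (m5 θ v s p) * ((if ‖p.1 a - v‖ < 2 * s then 1 else 0) *
        (2 * ge F a p + K * (s ^ 2)⁻¹ * ‖F p‖ ^ 2)) := by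
  obtain ⟨C1, hC1, hJ⟩ := Jc_grad h
  obtain ⟨C2, hC2, hgl⟩ := gl_deriv
  refine ⟨4 * (1 + 4 * C2) * C1, by positivity, fun n k F hF v s hs l a p => ?_⟩
  obtain ⟨S, hS⟩ : ∃ S : ℝ, S = ∑ b ∈ univ.erase a, Jc θ v s (p.1 b) ^ 2 := ⟨_, rfl⟩
  have e1 : ∀ u, m5 θ v s ((Function.update p.1 a u, p.2) : Cfg n k) = S + Jc θ v s u ^ 2 := by
    intro u
    unfold m5
    rw [hS, ← Finset.sum_erase_add univ _ (mem_univ a)]
    simp only [Function.update_self]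
    congr 1
    refine sum_congr rfl fun b hb => ?_
    rw [Function.update_of_ne (mem_erase.1 hb).1]
  have e2 : m5 θ v s p = S + Jc θ v s (p.1 a) ^ 2 := by
    have := e1 (p.1 a)
    rwa [Function.update_eq_self] at this
  obtain ⟨D, hD⟩ : ∃ D : ℝ, D = deriv (gl l) (m5 θ v s p) := ⟨_, rfl⟩
  obtain ⟨g, hg⟩ : ∃ g : ℝ, g = gl l (m5 θ v s p) := ⟨_, rfl⟩
  have hg0 : 0 ≤ g := by rw [hg]; exact gl_nonneg l _
  have hg1 : g ≤ 1 := by rw [hg]; exact gl_le_one l _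
  have hD2 : D ^ 2 ≤ C2 * g := by
    have h1 := hgl l (m5 θ v s p)
    rw [← hD, ← hg] at h1
    refine h1.trans ?_
    have h2 : (((64 : ℝ) ^ l) ^ 2)⁻¹ ≤ 1 := by
      refine inv_le_one_of_one_le₀ (one_le_pow₀ (one_le_pow₀ (by norm_num)))
    have h3 : C2 * (((64 : ℝ) ^ l) ^ 2)⁻¹ ≤ C2 * 1 := mul_le_mul_of_nonneg_left h2 hC2
    rw [mul_one] at h3
    exact mul_le_mul_of_nonneg_right h3 hg0
  obtain ⟨j, hj⟩ : ∃ j : ℝ, j = Jc θ v s (p.1 a) := ⟨_, rfl⟩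
  have hj0 : 0 ≤ j := by rw [hj]; exact (Jc_mem h v s _).1
  have hj1 : j ≤ 1 := by rw [hj]; exact (Jc_mem h v s _).2
  have e3 : (fun u => ((Jc θ v s (Function.update p.1 a u a) : ℝ) : ℂ) *
      (((gl l (m5 θ v s ((Function.update p.1 a u, p.2) : Cfg n k)) : ℝ) : ℂ) *
        F (Function.update p.1 a u, p.2))) =
      fun u => ((Jc θ v s u * gl l (S + Jc θ v s u ^ 2) : ℝ) : ℂ) *
        F (Function.update p.1 a u, p.2) := by
    funext u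
    rw [e1, Function.update_self]
    push_cast
    ring
  have d1 : HasFDerivAt (Jc θ v s) (fderiv ℝ (Jc θ v s) (p.1 a)) (p.1 a) :=
    ((Jc_smooth h v s).differentiable (by simp) _).hasFDerivAt
  have d2 : HasFDerivAt (fun u => S + Jc θ v s u ^ 2)
      ((2 * Jc θ v s (p.1 a)) • fderiv ℝ (Jc θ v s) (p.1 a)) (p.1 a) := by
    have := (d1.pow 2).const_add S
    simpa using this
  have d3 : HasDerivAt (gl l) D (S + Jc θ v s (p.1 a) ^ 2) := by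
    rw [hD, e2]
    exact ((gl_smooth l).differentiable (by simp) _).hasDerivAt
  have d4 : HasFDerivAt (fun u => gl l (S + Jc θ v s u ^ 2))
      (D • ((2 * Jc θ v s (p.1 a)) • fderiv ℝ (Jc θ v s) (p.1 a))) (p.1 a) := by
    have d5 := d3.comp_hasFDerivAt (p.1 a) d2
    exact d5
  have d5 := d1.mul d4
  have d6 : HasFDerivAt (fun u => Jc θ v s u * gl l (S + Jc θ v s u ^ 2)) _ (p.1 a) := d5
  have e4 : gr (fun u => Jc θ v s u * gl l (S + Jc θ v s u ^ 2)) (p.1 a) =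
      (g + 2 * j ^ 2 * D) ^ 2 * gr (Jc θ v s) (p.1 a) := by
    unfold gr
    rw [mul_sum]
    refine sum_congr rfl fun d _ => ?_
    rw [d6.fderiv]
    simp only [add_apply, smul_apply, smul_eq_mul]
    rw [← e2, ← hg, ← hj]
    ring
  have e5 : (g + 2 * j ^ 2 * D) ^ 2 ≤ 2 * (1 + 4 * C2) * g := by
    have h1 : (j ^ 2 * D) ^ 2 ≤ D ^ 2 := by
      rw [mul_pow]
      have h2 : (j ^ 2) ^ 2 ≤ 1 := pow_le_one₀ (sq_nonneg j) (pow_le_one₀ hj0 hj1)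
      calc (j ^ 2) ^ 2 * D ^ 2 ≤ 1 * D ^ 2 := mul_le_mul_of_nonneg_right h2 (sq_nonneg D)
        _ = D ^ 2 := one_mul _
    have h3 : g ^ 2 ≤ g := by
      rw [sq]
      calc g * g ≤ 1 * g := mul_le_mul_of_nonneg_right hg1 hg0
        _ = g := one_mul g
    have h4 : (g + 2 * j ^ 2 * D) ^ 2 ≤ 2 * (g ^ 2 + 4 * (j ^ 2 * D) ^ 2) := by
      linarith [sq_nonneg (g - 2 * (j ^ 2 * D))]
    linarith
  have hFd : DifferentiableAt ℝ (fun u => F (Function.update p.1 a u, p.2)) (p.1 a) := by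
    have h1 : DifferentiableAt ℝ (fun u : E3 => ((Function.update p.1 a u, p.2) : Cfg n k))
        (p.1 a) :=
      ((hasFDerivAt_update p.1 (p.1 a)).differentiableAt).prodMk (differentiableAt_const _)
    exact (hF _).comp (p.1 a) h1
  have key := l53_g3 (fun u => Jc θ v s u * gl l (S + Jc θ v s u ^ 2))
    (fun u => F (Function.update p.1 a u, p.2)) (p.1 a) d6.differentiableAt hFd
  have e6 : ge (fun p => ((Jc θ v s (p.1 a) : ℝ) : ℂ) *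
      (((gl l (m5 θ v s p) : ℝ) : ℂ) * F p)) a p =
      g3 (fun u => ((Jc θ v s u * gl l (S + Jc θ v s u ^ 2) : ℝ) : ℂ) *
        F (Function.update p.1 a u, p.2)) (p.1 a) := by
    rw [← e3]
    rfl
  rw [e6]
  refine key.trans ?_
  have e7 : g3 (fun u => F (Function.update p.1 a u, p.2)) (p.1 a) = ge F a p := rfl
  rw [e4, e7]
  rw [← e2, ← hg, ← hj, Function.update_eq_self]
  have hge : 0 ≤ ge F a p := ge_nonneg _ _ _
  have hG := hJ v s hs (p.1 a)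
  have hs2 : 0 ≤ (s ^ 2)⁻¹ := by positivity
  by_cases hin : ‖p.1 a - v‖ < 2 * s
  · rw [if_pos hin] at hG ⊢
    rw [mul_one] at hG
    rw [one_mul]
    have h1 : (j * g) ^ 2 ≤ g := by
      have h2 : (j * g) ≤ 1 * g := mul_le_mul_of_nonneg_right hj1 hg0
      have h3 : 0 ≤ j * g := mul_nonneg hj0 hg0
      calc (j * g) ^ 2 = (j * g) * (j * g) := sq _
        _ ≤ (1 * g) * 1 := mul_le_mul h2 (by linarith) h3 (by linarith)
        _ = g := by ring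
    have h2 : (g + 2 * j ^ 2 * D) ^ 2 * gr (Jc θ v s) (p.1 a) ≤
        (2 * (1 + 4 * C2) * g) * (C1 * (s ^ 2)⁻¹) :=
      mul_le_mul e5 hG (sum_nonneg fun _ _ => sq_nonneg _) (by positivity)
    have h3 : (j * g) ^ 2 * ge F a p ≤ g * ge F a p := mul_le_mul_of_nonneg_right h1 hge
    have h4 : (g + 2 * j ^ 2 * D) ^ 2 * gr (Jc θ v s) (p.1 a) * ‖F p‖ ^ 2 ≤
        (2 * (1 + 4 * C2) * g) * (C1 * (s ^ 2)⁻¹) * ‖F p‖ ^ 2 :=
      mul_le_mul_of_nonneg_right h2 (sq_nonneg _)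
    calc 2 * ((j * g) ^ 2 * ge F a p + (g + 2 * j ^ 2 * D) ^ 2 * gr (Jc θ v s) (p.1 a) * ‖F p‖ ^ 2)
        ≤ 2 * (g * ge F a p + (2 * (1 + 4 * C2) * g) * (C1 * (s ^ 2)⁻¹) * ‖F p‖ ^ 2) := by
          linarith
      _ = g * (2 * ge F a p + 4 * (1 + 4 * C2) * C1 * (s ^ 2)⁻¹ * ‖F p‖ ^ 2) := by ring
  · rw [if_neg hin] at hG ⊢
    rw [mul_zero] at hG
    have h1 : gr (Jc θ v s) (p.1 a) = 0 := le_antisymm hG (sum_nonneg fun _ _ => sq_nonneg _)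
    have h2 : j = 0 := by
      rw [hj]
      exact Jc_zero h v s hs _ (not_lt.mp hin)
    rw [h1, h2]
    simp

private theorem l53_sm {θ : E3 → ℝ} (h : Cut θ) {n k : ℕ} (v : E3) (s : ℝ) :
    ContDiff ℝ (⊤ : ℕ∞) (m5 (n := n) (k := k) θ v s) := by
  unfold m5
  refine ContDiff.sum fun a _ => ?_
  refine ContDiff.pow ?_ 2
  exact (Jc_smooth h v s).comp ((contDiff_apply ℝ E3 a).comp contDiff_fst)

private theorem l53_sy (θ : E3 → ℝ) {n k : ℕ} (v : E3) (s : ℝ) :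
    Sy (m5 (n := n) (k := k) θ v s) := by
  intro π p
  unfold m5
  exact Equiv.sum_comp π (fun a => Jc θ v s (p.1 a) ^ 2)

private theorem l53_lo {θ : E3 → ℝ} (h : Cut θ) {n k : ℕ} (v : E3) (s : ℝ) (hs : 0 < s)
    (p : Cfg n k) : ce p v s ≤ m5 θ v s p := by
  unfold ce m5
  refine sum_le_sum fun a _ => ?_
  split_ifs with hx
  · rw [Jc_one h v s hs _ hx.le]
    norm_num
  · exact sq_nonneg _

private theorem l53_hi {θ : E3 → ℝ} (h : Cut θ) {n k : ℕ} (v : E3) (s : ℝ) (hs : 0 < s)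
    (p : Cfg n k) : m5 θ v s p ≤ ce p v (2 * s) := by
  unfold ce m5
  refine sum_le_sum fun a _ => ?_
  split_ifs with hx
  · obtain ⟨h1, h2⟩ := Jc_mem h v s (p.1 a)
    exact pow_le_one₀ h1 h2
  · rw [Jc_zero h v s hs _ (not_lt.mp hx)]
    norm_num

private theorem l53_m0 (θ : E3 → ℝ) {n k : ℕ} (v : E3) (s : ℝ) (p : Cfg n k) :
    0 ≤ m5 θ v s p := sum_nonneg fun _ _ => sq_nonneg _

/-- the kinetic energies of the localised sectors -/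
private theorem l53_kin {θ : E3 → ℝ} (h : Cut θ) (q : ℕ) : ∃ K : ℝ, 0 ≤ K ∧ ∀ (n k : ℕ)
    (Λ : Set E3) (Φ : (Fin n → Fin q) → Cfg n k → ℂ) (_ : St q n k Λ Φ) (v : E3) (s : ℝ)
    (_ : 0 < s) (L : ℕ),
    ∑ l ∈ range (L + 1), ∑ a, kE (mf (fun p => Jc θ v s (p.1 a))
      (mf (fun p => gl l (m5 θ v s p)) Φ)) a ≤
      6 * TE Φ v (2 * s) + K * (s ^ 2)⁻¹ * mean Φ (fun p => ce p v (2 * s)) := by
  obtain ⟨K, hK, hpt⟩ := l53_pt h
  refine ⟨3 * K, by positivity, fun n k Λ Φ hΦ v s hs L => ?_⟩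
  have hsm := St_sm hΦ
  have hst : ∀ l, Sm q n k Λ (mf (fun p => gl l (m5 θ v s p)) Φ) := fun l =>
    mf_sm hsm ((gl_smooth l).comp (l53_sm h v s))
  have hst2 : ∀ l (a : Fin n), Sm q n k Λ (mf (fun p => Jc θ v s (p.1 a))
      (mf (fun p => gl l (m5 θ v s p)) Φ)) := fun l a =>
    mf_sm (hst l) ((Jc_smooth h v s).comp ((contDiff_apply ℝ E3 a).comp contDiff_fst))
  have hi1 : ∀ (σ : Fin n → Fin q) (a : Fin n),
      Integrable (fun p => if ‖p.1 a - v‖ < 2 * s then ge (Φ σ) a p else 0) := by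
    intro σ a
    have h1 := kE_int hsm σ a
    have hset : MeasurableSet {p : Cfg n k | ‖p.1 a - v‖ < 2 * s} :=
      measurableSet_lt ((meas_e a).sub_const v).norm measurable_const
    have h2 := h1.indicator hset
    refine h2.congr (Filter.Eventually.of_forall fun p => ?_)
    simp only [Set.indicator, Set.mem_ofPred_eq]
  have hi2 := IM_ce hsm v (2 * s)
  -- per spin
  have hsp : ∀ σ : Fin n → Fin q,
      ∑ l ∈ range (L + 1), ∑ a, ∫ p, ge (mf (fun p => Jc θ v s (p.1 a))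
        (mf (fun p => gl l (m5 θ v s p)) Φ) σ) a p ≤
      6 * ∑ a, (∫ p, (if ‖p.1 a - v‖ < 2 * s then ge (Φ σ) a p else 0)) +
        3 * K * (s ^ 2)⁻¹ * ∫ p, ce p v (2 * s) * ‖Φ σ p‖ ^ 2 := by
    intro σ
    have hint : ∀ l a, Integrable (fun p => ge (mf (fun p => Jc θ v s (p.1 a))
        (mf (fun p => gl l (m5 θ v s p)) Φ) σ) a p) := fun l a => kE_int (hst2 l a) σ a
    have e1 : ∑ l ∈ range (L + 1), ∑ a, ∫ p, ge (mf (fun p => Jc θ v s (p.1 a))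
        (mf (fun p => gl l (m5 θ v s p)) Φ) σ) a p =
        ∫ p, ∑ l ∈ range (L + 1), ∑ a, ge (mf (fun p => Jc θ v s (p.1 a))
          (mf (fun p => gl l (m5 θ v s p)) Φ) σ) a p := by
      rw [integral_finsetSum _ fun l _ => integrable_finsetSum _ fun a _ => hint l a]
      refine sum_congr rfl fun l _ => ?_
      rw [integral_finsetSum _ fun a _ => hint l a]
    have e2 : 6 * ∑ a, (∫ p, (if ‖p.1 a - v‖ < 2 * s then ge (Φ σ) a p else 0)) +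
        3 * K * (s ^ 2)⁻¹ * ∫ p, ce p v (2 * s) * ‖Φ σ p‖ ^ 2 =
        ∫ p, (6 * ∑ a, (if ‖p.1 a - v‖ < 2 * s then ge (Φ σ) a p else 0) +
          3 * K * (s ^ 2)⁻¹ * (ce p v (2 * s) * ‖Φ σ p‖ ^ 2)) := by
      rw [integral_add ((integrable_finsetSum _ fun a _ => hi1 σ a).const_mul 6)
        ((hi2 σ).const_mul _), integral_const_mul, integral_const_mul,
        integral_finsetSum _ fun a _ => hi1 σ a]
    rw [e1, e2]
    refine integral_mono (integrable_finsetSum _ fun l _ => integrable_finsetSum _ fun a _ =>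
      hint l a) (((integrable_finsetSum _ fun a _ => hi1 σ a).const_mul 6).add
        ((hi2 σ).const_mul _)) fun p => ?_
    dsimp only
    have hb : ∀ l a, ge (mf (fun p => Jc θ v s (p.1 a))
        (mf (fun p => gl l (m5 θ v s p)) Φ) σ) a p ≤ gl l (m5 θ v s p) *
        ((if ‖p.1 a - v‖ < 2 * s then 1 else 0) *
        (2 * ge (Φ σ) a p + K * (s ^ 2)⁻¹ * ‖Φ σ p‖ ^ 2)) := fun l a =>
      hpt n k (Φ σ) ((hsm.smooth σ).differentiable (by simp)) v s hs l a p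
    refine (sum_le_sum fun l _ => sum_le_sum fun a _ => hb l a).trans ?_
    have hT0 : 0 ≤ ∑ a : Fin n, (if ‖p.1 a - v‖ < 2 * s then (1 : ℝ) else 0) *
        (2 * ge (Φ σ) a p + K * (s ^ 2)⁻¹ * ‖Φ σ p‖ ^ 2) := by
      refine sum_nonneg fun a _ => mul_nonneg (by split_ifs <;> norm_num) ?_
      have := ge_nonneg (Φ σ) a p
      positivity
    calc ∑ l ∈ range (L + 1), ∑ a, gl l (m5 θ v s p) *
        ((if ‖p.1 a - v‖ < 2 * s then 1 else 0) *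
        (2 * ge (Φ σ) a p + K * (s ^ 2)⁻¹ * ‖Φ σ p‖ ^ 2))
        = (∑ l ∈ range (L + 1), gl l (m5 θ v s p)) *
          ∑ a, (if ‖p.1 a - v‖ < 2 * s then 1 else 0) *
        (2 * ge (Φ σ) a p + K * (s ^ 2)⁻¹ * ‖Φ σ p‖ ^ 2) := by
          rw [sum_mul]
          exact sum_congr rfl fun l _ => (mul_sum _ _ _).symm
      _ ≤ 3 * ∑ a, (if ‖p.1 a - v‖ < 2 * s then 1 else 0) *
        (2 * ge (Φ σ) a p + K * (s ^ 2)⁻¹ * ‖Φ σ p‖ ^ 2) :=
          mul_le_mul_of_nonneg_right (gl_sum L _) hT0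
      _ = 6 * ∑ a, (if ‖p.1 a - v‖ < 2 * s then ge (Φ σ) a p else 0) +
          3 * K * (s ^ 2)⁻¹ * (ce p v (2 * s) * ‖Φ σ p‖ ^ 2) := by
          unfold ce
          rw [mul_sum, mul_sum, sum_mul, mul_sum, ← sum_add_distrib]
          refine sum_congr rfl fun a _ => ?_
          split_ifs
          · ring
          · ring
  have e3 : ∑ l ∈ range (L + 1), ∑ a, kE (mf (fun p => Jc θ v s (p.1 a))
      (mf (fun p => gl l (m5 θ v s p)) Φ)) a =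
      ∑ σ, ∑ l ∈ range (L + 1), ∑ a, ∫ p, ge (mf (fun p => Jc θ v s (p.1 a))
        (mf (fun p => gl l (m5 θ v s p)) Φ) σ) a p := by
    unfold kE
    rw [sum_comm (s := (univ : Finset (Fin n → Fin q)))]
    refine sum_congr rfl fun l _ => ?_
    exact sum_comm
  rw [e3]
  refine (sum_le_sum fun σ _ => hsp σ).trans (le_of_eq ?_)
  rw [sum_add_distrib, ← mul_sum, ← mul_sum]
  unfold TE mean
  rw [sum_comm]

private theorem l53_pow {m : ℝ} (h0 : 0 ≤ m) (l : ℕ) (h : m ≤ 64 ^ (l + 1)) :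
    m ^ (5 / 3 : ℝ) ≤ 16 ^ (l + 1) * m := by
  have h1 : m ^ (2 / 3 : ℝ) ≤ 16 ^ (l + 1) := by
    have h2 : (64 : ℝ) ^ (2 / 3 : ℝ) = 16 := by
      rw [show (64 : ℝ) = 4 ^ (3 : ℝ) by norm_num, ← Real.rpow_mul (by norm_num)]
      norm_num
    calc m ^ (2 / 3 : ℝ) ≤ ((64 : ℝ) ^ (l + 1)) ^ (2 / 3 : ℝ) :=
          Real.rpow_le_rpow h0 h (by norm_num)
      _ = ((64 : ℝ) ^ (2 / 3 : ℝ)) ^ (l + 1) := by
          rw [← Real.rpow_natCast, ← Real.rpow_mul (by norm_num), mul_comm,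
            Real.rpow_mul (by norm_num), Real.rpow_natCast]
      _ = 16 ^ (l + 1) := by rw [h2]
  rcases h0.eq_or_lt with h3 | h3
  · rw [← h3, Real.zero_rpow (by norm_num), mul_zero]
  · calc m ^ (5 / 3 : ℝ) = m ^ (2 / 3 : ℝ) * m := by
          conv_rhs => rw [← Real.rpow_add_one h3.ne']
          norm_num
      _ ≤ 16 ^ (l + 1) * m := mul_le_mul_of_nonneg_right h1 h0

theorem lt53 (q : ℕ) : ∃ C : ℝ, 0 ≤ C ∧
    ∀ (n k : ℕ) (Λ : Set E3) (Φ : (Fin n → Fin q) → Cfg n k → ℂ) (_ : St q n k Λ Φ) (v : E3)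
    (s : ℝ) (_ : 0 < s),
    mean Φ (fun p => ce p v s ^ (5 / 3 : ℝ)) ≤
      C * (s ^ 2 * TE Φ v (2 * s) + mean Φ (fun p => ce p v (2 * s))) := by
  obtain ⟨θ, h⟩ := cut_ex
  obtain ⟨C0, hC0, hlc⟩ := lc1 q h
  obtain ⟨K, hK, hkin⟩ := l53_kin h q
  obtain ⟨δ, hδ⟩ : ∃ δ : ℝ, δ = 1 / (128 * C0 + 1) := ⟨_, rfl⟩
  have hδ0 : 0 < δ := by rw [hδ]; positivity
  have hδ1 : δ ≤ 1 := by
    rw [hδ, div_le_one (by positivity)]
    linarith
  have hδC : 128 * C0 * δ ≤ 1 := by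
    rw [hδ, mul_one_div, div_le_one (by positivity)]
    linarith
  have hδ3 : 128 * C0 * δ ^ 3 ≤ 1 := by
    have h1 : δ ^ 3 ≤ δ := by
      calc δ ^ 3 = δ * δ ^ 2 := by ring
        _ ≤ δ * 1 := mul_le_mul_of_nonneg_left (pow_le_one₀ hδ0.le hδ1) hδ0.le
        _ = δ := mul_one δ
    have h2 : 128 * C0 * δ ^ 3 ≤ 128 * C0 * δ := mul_le_mul_of_nonneg_left h1 (by positivity)
    linarith
  refine ⟨16 + 192 / δ ^ 2 + 32 * K / δ ^ 2, by positivity, fun n k Λ Φ hΦ v s hs => ?_⟩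
  have hsm := St_sm hΦ
  have hm : ContDiff ℝ (⊤ : ℕ∞) (m5 (n := n) (k := k) θ v s) := l53_sm h v s
  have hG : ∀ l, ContDiff ℝ (⊤ : ℕ∞) (fun p : Cfg n k => gl l (m5 θ v s p)) := fun l =>
    (gl_smooth l).comp hm
  have hst : ∀ l, St q n k Λ (mf (fun p => gl l (m5 θ v s p)) Φ) := fun l =>
    mf_st hΦ (hG l) fun π p => by
      show gl l (m5 θ v s (p.1 ∘ π, p.2)) = gl l (m5 θ v s p)
      rw [l53_sy θ v s π p]
  have hIG : ∀ l, IM Φ (fun p => gl l (m5 θ v s p) ^ 2 * m5 θ v s p) := fun l =>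
    IM.cont hsm (((hG l).continuous.pow 2).mul hm.continuous)
  have hIG2 : ∀ l, IM Φ (fun p => gl l (m5 θ v s p) ^ 2) := fun l =>
    IM.cont hsm ((hG l).continuous.pow 2)
  -- first step
  have hA : mean Φ (fun p => ce p v s ^ (5 / 3 : ℝ)) ≤
      ∑ l ∈ range (n + 1), 16 ^ (l + 1) * mean Φ (fun p => gl l (m5 θ v s p) ^ 2 * m5 θ v s p) := by
    have e1 : ∑ l ∈ range (n + 1), 16 ^ (l + 1) *
        mean Φ (fun p => gl l (m5 θ v s p) ^ 2 * m5 θ v s p) =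
        mean Φ (fun p => ∑ l ∈ range (n + 1), 16 ^ (l + 1) *
          (gl l (m5 θ v s p) ^ 2 * m5 θ v s p)) := by
      rw [mean_sum _ fun l _ => (hIG l).cmul _]
      refine sum_congr rfl fun l _ => ?_
      rw [mean_cmul]
    rw [e1]
    refine mean_mono0 (fun p => Real.rpow_nonneg (ce_nonneg p v s) _)
      (IM.sum _ fun l _ => (hIG l).cmul _) fun σ p _ => ?_
    have h1 : ce p v s ^ (5 / 3 : ℝ) ≤ m5 θ v s p ^ (5 / 3 : ℝ) :=
      Real.rpow_le_rpow (ce_nonneg p v s) (l53_lo h v s hs p) (by norm_num)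
    have h2 : 0 ≤ m5 θ v s p ^ (5 / 3 : ℝ) := Real.rpow_nonneg (l53_m0 θ v s p) _
    have h3 : 1 ≤ ∑ l ∈ range (n + 1), gl l (m5 θ v s p) ^ 2 := by
      refine gl_ge n _ (l53_m0 θ v s p) ((l53_hi h v s hs p).trans ((ce_le p v _).trans ?_))
      have h4 : (n : ℝ) ≤ 64 ^ n := by
        have h5 : n < 64 ^ n := Nat.lt_pow_self (by norm_num)
        exact_mod_cast h5.le
      have h6 : (0 : ℝ) ≤ 64 ^ n := by positivity
      linarith
    calc ce p v s ^ (5 / 3 : ℝ) ≤ 1 * m5 θ v s p ^ (5 / 3 : ℝ) := by rw [one_mul]; exact h1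
      _ ≤ (∑ l ∈ range (n + 1), gl l (m5 θ v s p) ^ 2) * m5 θ v s p ^ (5 / 3 : ℝ) :=
          mul_le_mul_of_nonneg_right h3 h2
      _ = ∑ l ∈ range (n + 1), gl l (m5 θ v s p) ^ 2 * m5 θ v s p ^ (5 / 3 : ℝ) := by
          rw [sum_mul]
      _ ≤ ∑ l ∈ range (n + 1), 16 ^ (l + 1) * (gl l (m5 θ v s p) ^ 2 * m5 θ v s p) := by
          refine sum_le_sum fun l _ => ?_
          by_cases hz : gl l (m5 θ v s p) = 0
          · rw [hz]
            simp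
          · have h5 := l53_pow (l53_m0 θ v s p) l (gl_hi l _ hz).le
            have h6 := mul_le_mul_of_nonneg_left h5 (sq_nonneg (gl l (m5 θ v s p)))
            linarith
  -- the sectors
  have hB : ∀ l, 16 ^ (l + 1 + 1) * mean Φ (fun p => gl (l + 1) (m5 θ v s p) ^ 2 * m5 θ v s p) ≤
      32 * s ^ 2 / δ ^ 2 * ∑ a, kE (mf (fun p => Jc θ v s (p.1 a))
        (mf (fun p => gl (l + 1) (m5 θ v s p)) Φ)) a := by
    intro l
    obtain ⟨M, hM⟩ : ∃ M : ℝ, M = mean Φ (fun p => gl (l + 1) (m5 θ v s p) ^ 2 * m5 θ v s p) :=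
      ⟨_, rfl⟩
    obtain ⟨T, hT⟩ : ∃ T : ℝ, T = ∑ a, kE (mf (fun p => Jc θ v s (p.1 a))
        (mf (fun p => gl (l + 1) (m5 θ v s p)) Φ)) a := ⟨_, rfl⟩
    have h1 := hlc n k Λ _ (hst (l + 1)) v s hs ((δ * 4 ^ (l + 1) / s) ^ 2) (by positivity)
    have h2 : mean (mf (fun p => gl (l + 1) (m5 θ v s p)) Φ)
        (fun p => ∑ a, Jc θ v s (p.1 a) ^ 2) = M := by
      rw [mean_mf, hM]
      rfl
    rw [h2, ← hT, mass_mf] at h1
    have h3 : ((δ * 4 ^ (l + 1) / s) ^ 2) ^ (5 / 2 : ℝ) = (δ * 4 ^ (l + 1) / s) ^ 5 := by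
      have hp : 0 ≤ δ * 4 ^ (l + 1) / s := by positivity
      rw [← Real.rpow_natCast (δ * 4 ^ (l + 1) / s) 2, ← Real.rpow_mul hp,
        ← Real.rpow_natCast (δ * 4 ^ (l + 1) / s) 5]
      norm_num
    rw [h3] at h1
    have h4 : mean Φ (fun p => gl (l + 1) (m5 θ v s p) ^ 2) ≤ ((64 : ℝ) ^ l)⁻¹ * M := by
      rw [hM, ← mean_cmul]
      refine mean_mono (hIG2 (l + 1)) ((hIG (l + 1)).cmul _) fun σ p _ => ?_
      by_cases hz : gl (l + 1) (m5 θ v s p) = 0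
      · rw [hz]
        simp
      · have h5 := gl_lo l _ hz
        have h6 : (0 : ℝ) < 64 ^ l := by positivity
        have h7 : 1 ≤ ((64 : ℝ) ^ l)⁻¹ * m5 θ v s p := by
          rw [inv_mul_eq_div, le_div_iff₀ h6, one_mul]
          exact h5.le
        have h8 := mul_le_mul_of_nonneg_left h7 (sq_nonneg (gl (l + 1) (m5 θ v s p)))
        linarith
    have hM0 : 0 ≤ M := by
      rw [hM]
      exact mean_nonneg fun σ p _ => mul_nonneg (sq_nonneg _) (l53_m0 θ v s p)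
    have h5 : C0 * ((δ * 4 ^ (l + 1) / s) ^ 5 * s ^ 3) *
        mean Φ (fun p => gl (l + 1) (m5 θ v s p) ^ 2) ≤
        C0 * ((δ * 4 ^ (l + 1) / s) ^ 5 * s ^ 3) * (((64 : ℝ) ^ l)⁻¹ * M) :=
      mul_le_mul_of_nonneg_left h4 (by positivity)
    have h6 : C0 * ((δ * 4 ^ (l + 1) / s) ^ 5 * s ^ 3) * (((64 : ℝ) ^ l)⁻¹ * M) =
        (128 * C0 * δ ^ 3) * ((1 / 2) * ((δ * 4 ^ (l + 1) / s) ^ 2 * M)) := by
      have e1 : (64 : ℝ) ^ l = (4 ^ l) ^ 3 := by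
        rw [← pow_mul, mul_comm, pow_mul]
        norm_num
      rw [e1, pow_succ]
      have e2 : (4 : ℝ) ^ l ≠ 0 := by positivity
      field_simp
      ring
    have h7 : (128 * C0 * δ ^ 3) * ((1 / 2) * ((δ * 4 ^ (l + 1) / s) ^ 2 * M)) ≤
        1 * ((1 / 2) * ((δ * 4 ^ (l + 1) / s) ^ 2 * M)) :=
      mul_le_mul_of_nonneg_right hδ3 (by positivity)
    have h8 : (1 / 2) * ((δ * 4 ^ (l + 1) / s) ^ 2 * M) ≤ T := by linarith
    have h9 : 16 ^ (l + 1 + 1) * M =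
        32 * s ^ 2 / δ ^ 2 * ((1 / 2) * ((δ * 4 ^ (l + 1) / s) ^ 2 * M)) := by
      have e1 : (16 : ℝ) ^ (l + 1 + 1) = 16 * (4 ^ (l + 1)) ^ 2 := by
        rw [pow_succ, mul_comm, ← pow_mul, mul_comm (l + 1) 2, pow_mul]
        norm_num
      rw [e1]
      field_simp
      ring
    rw [← hM, ← hT, h9]
    exact mul_le_mul_of_nonneg_left h8 (by positivity)
  have hk := hkin n k Λ Φ hΦ v s hs n
  have hc0 : 0 ≤ mean Φ (fun p => ce p v (2 * s)) := mean_nonneg fun σ p _ => ce_nonneg _ _ _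
  have hTE0 : 0 ≤ TE Φ v (2 * s) := by
    unfold TE
    refine sum_nonneg fun a _ => sum_nonneg fun σ _ => integral_nonneg fun p => ?_
    show 0 ≤ (if ‖p.1 a - v‖ < 2 * s then ge (Φ σ) a p else 0)
    split_ifs
    · exact ge_nonneg _ _ _
    · exact le_rfl
  have hZ : 16 ^ (0 + 1) * mean Φ (fun p => gl 0 (m5 θ v s p) ^ 2 * m5 θ v s p) ≤
      16 * mean Φ (fun p => ce p v (2 * s)) := by
    rw [zero_add, pow_one]
    refine mul_le_mul_of_nonneg_left (mean_mono (hIG 0) (IM_ce hsm v (2 * s)) fun σ p _ => ?_)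
      (by norm_num)
    have h1 : gl 0 (m5 θ v s p) ^ 2 ≤ 1 := pow_le_one₀ (gl_nonneg _ _) (gl_le_one _ _)
    calc gl 0 (m5 θ v s p) ^ 2 * m5 θ v s p ≤ 1 * m5 θ v s p :=
          mul_le_mul_of_nonneg_right h1 (l53_m0 θ v s p)
      _ ≤ ce p v (2 * s) := by rw [one_mul]; exact l53_hi h v s hs p
  rw [sum_range_succ'] at hA hk
  have hS : ∑ l ∈ range n, 16 ^ (l + 1 + 1) *
      mean Φ (fun p => gl (l + 1) (m5 θ v s p) ^ 2 * m5 θ v s p) ≤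
      32 * s ^ 2 / δ ^ 2 * ∑ l ∈ range n, ∑ a, kE (mf (fun p => Jc θ v s (p.1 a))
        (mf (fun p => gl (l + 1) (m5 θ v s p)) Φ)) a := by
    rw [mul_sum]
    exact sum_le_sum fun l _ => hB l
  have hkz : 0 ≤ ∑ a, kE (mf (fun p => Jc θ v s (p.1 a))
        (mf (fun p => gl 0 (m5 θ v s p)) Φ)) a := sum_nonneg fun a _ => kE_nonneg _ _
  have hS2 : 32 * s ^ 2 / δ ^ 2 * ∑ l ∈ range n, ∑ a, kE (mf (fun p => Jc θ v s (p.1 a))
        (mf (fun p => gl (l + 1) (m5 θ v s p)) Φ)) a ≤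
      32 * s ^ 2 / δ ^ 2 * (6 * TE Φ v (2 * s) +
        K * (s ^ 2)⁻¹ * mean Φ (fun p => ce p v (2 * s))) :=
    mul_le_mul_of_nonneg_left (by linarith) (by positivity)
  have hS3 : 32 * s ^ 2 / δ ^ 2 * (6 * TE Φ v (2 * s) +
        K * (s ^ 2)⁻¹ * mean Φ (fun p => ce p v (2 * s))) =
      192 / δ ^ 2 * (s ^ 2 * TE Φ v (2 * s)) +
        32 * K / δ ^ 2 * mean Φ (fun p => ce p v (2 * s)) := by
    field_simp
    ring
  obtain ⟨X, hX⟩ : ∃ X : ℝ, X = s ^ 2 * TE Φ v (2 * s) := ⟨_, rfl⟩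
  obtain ⟨Y, hY⟩ : ∃ Y : ℝ, Y = mean Φ (fun p => ce p v (2 * s)) := ⟨_, rfl⟩
  have hX0 : 0 ≤ X := by rw [hX]; positivity
  rw [← hY] at hc0
  rw [← hX, ← hY] at hS3 ⊢
  rw [← hY] at hZ hS2
  have f1 : 0 ≤ (16 + 32 * K / δ ^ 2) * X := by positivity
  have f2 : 0 ≤ 192 / δ ^ 2 * Y := by positivity
  have f3 : (16 + 192 / δ ^ 2 + 32 * K / δ ^ 2) * (X + Y) =
      192 / δ ^ 2 * X + 32 * K / δ ^ 2 * Y + 16 * Y +
        ((16 + 32 * K / δ ^ 2) * X + 192 / δ ^ 2 * Y) := by ring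
  have f4 := (hS.trans hS2).trans (le_of_eq hS3)
  refine hA.trans ((add_le_add f4 hZ).trans ?_)
  rw [f3]
  linarith

end H6.CB
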