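import Pool.Agent.H6.CB.HMo

/-! The local electrostatic inequality in the notation of Coulomb matter: `hpt` for the index type `Fin n ⊕ Fin k` with charges `-1` and `z j` (`Fintype.sum_sum_type`). Algebra: `∑ e_i J_i² (∑_{l ≠ i} e_l / r_il - c) - ∑_{i,l} e_i e_l J_i J_l / r_il = (1/2) ∑_{i,l} e_i e_l (J_i - J_l)² / r_il - c ∑ e_i J_i²` by symmetrisation (the diagonal terms are `0` since `‖0‖⁻¹ = 0`); the double sum with `J_i J_l` is `2 * VJ`. -/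

open MeasureTheory Finset

namespace H6.CB

open H6.CM

private theorem hf_alg {ι : Type} [Fintype ι] (e J : ι → ℝ) (r : ι → ι → ℝ)
    (hr : ∀ i l, r i l = r l i) :
    (1 / 2) * ∑ i, ∑ l, e i * e l * ((J i - J l) ^ 2 * r i l) =
      ∑ i, e i * J i ^ 2 * ∑ l, e l * r i l - ∑ i, ∑ l, e i * e l * (J i * J l * r i l) := by
  have h1 : ∑ i, ∑ l, e i * e l * (J l ^ 2 * r i l) = ∑ i, ∑ l, e i * e l * (J i ^ 2 * r i l) := by
    rw [sum_comm]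
    refine sum_congr rfl fun i _ => sum_congr rfl fun l _ => ?_
    rw [hr l i]
    ring
  have h2 : ∑ i, e i * J i ^ 2 * ∑ l, e l * r i l = ∑ i, ∑ l, e i * e l * (J i ^ 2 * r i l) := by
    refine sum_congr rfl fun i _ => ?_
    rw [mul_sum]
    refine sum_congr rfl fun l _ => ?_
    ring
  have h3 : ∑ i, ∑ l, e i * e l * ((J i - J l) ^ 2 * r i l) =
      (∑ i, ∑ l, e i * e l * (J i ^ 2 * r i l) + ∑ i, ∑ l, e i * e l * (J l ^ 2 * r i l)) -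
        2 * ∑ i, ∑ l, e i * e l * (J i * J l * r i l) := by
    rw [mul_sum, ← sum_add_distrib, ← sum_sub_distrib]
    refine sum_congr rfl fun i _ => ?_
    rw [mul_sum, ← sum_add_distrib, ← sum_sub_distrib]
    refine sum_congr rfl fun l _ => ?_
    ring
  rw [h3, h1, h2]
  ring

private theorem hf_phiE {n k : ℕ} (z : Fin k → ℝ) (a : Fin n) (p : Cfg n k) :
    ∑ b, (-1 : ℝ) * ‖p.1 a - p.1 b‖⁻¹ + ∑ j, z j * ‖p.1 a - p.2 j‖⁻¹ =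
      phiE z a p (p.1 a) := by
  unfold phiE
  have h1 : ∑ b, (-1 : ℝ) * ‖p.1 a - p.1 b‖⁻¹ =
      -∑ b ∈ univ.erase a, ‖p.1 a - p.1 b‖⁻¹ := by
    rw [← mul_sum, ← add_sum_erase univ (fun b => ‖p.1 a - p.1 b‖⁻¹) (mem_univ a)]
    simp
  rw [h1]
  ring

private theorem hf_phiN {n k : ℕ} (z : Fin k → ℝ) (j : Fin k) (p : Cfg n k) :
    ∑ b, (-1 : ℝ) * ‖p.2 j - p.1 b‖⁻¹ + ∑ l, z l * ‖p.2 j - p.2 l‖⁻¹ =
      phiN z j p (p.2 j) := by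
  unfold phiN
  have h1 : ∑ l, z l * ‖p.2 j - p.2 l‖⁻¹ =
      ∑ l ∈ univ.erase j, z l * ‖p.2 j - p.2 l‖⁻¹ := by
    rw [← add_sum_erase univ (fun l => z l * ‖p.2 j - p.2 l‖⁻¹) (mem_univ j)]
    simp
  rw [h1, ← mul_sum]
  ring

theorem hfin {θ : E3 → ℝ} (hθ : Cut θ) : ∃ C : ℝ, 0 ≤ C ∧ ∀ (n k : ℕ) (z : Fin k → ℝ)
    (p : Cfg n k) (x : E3) (c : ℝ),
    2 * VJ (Jc θ x 1) z p - C * (∫ v in Metric.ball x 2, (phi z p v - c) ^ 2) ≤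
      ∑ j, z j * (Jc θ x 1 (p.2 j) ^ 2 * (phiN z j p (p.2 j) - c)) -
        ∑ a, Jc θ x 1 (p.1 a) ^ 2 * (phiE z a p (p.1 a) - c) := by
  obtain ⟨C, hC, H⟩ := hpt hθ
  refine ⟨C, hC, fun n k z p x c => ?_⟩
  obtain ⟨J, hJ⟩ : ∃ J : E3 → ℝ, J = Jc θ x 1 := ⟨_, rfl⟩
  have h1 := H x (Fin n ⊕ Fin k) inferInstance (Sum.elim (fun _ => -1) z)
    (Sum.elim p.1 p.2) c
  rw [← hJ] at h1 ⊢
  have e1 : ∀ v, ∑ i, (Sum.elim (fun _ => -1) z : Fin n ⊕ Fin k → ℝ) i *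
      ‖v - (Sum.elim p.1 p.2 : Fin n ⊕ Fin k → E3) i‖⁻¹ = phi z p v := by
    intro v
    rw [Fintype.sum_sum_type]
    simp only [Sum.elim_inl, Sum.elim_inr]
    unfold phi
    rw [← mul_sum]
    ring
  simp only [e1] at h1
  have e2 := hf_alg (Sum.elim (fun _ => -1) z : Fin n ⊕ Fin k → ℝ)
    (fun i => J ((Sum.elim p.1 p.2 : Fin n ⊕ Fin k → E3) i))
    (fun i l => ‖(Sum.elim p.1 p.2 : Fin n ⊕ Fin k → E3) i -
      (Sum.elim p.1 p.2 : Fin n ⊕ Fin k → E3) l‖⁻¹) (fun i l => by rw [norm_sub_rev])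
  unfold KJ at h1
  rw [e2] at h1
  simp only [Fintype.sum_sum_type, Sum.elim_inl, Sum.elim_inr] at h1
  simp only [hf_phiE, hf_phiN] at h1
  have e3 : ∑ a, (∑ b, -1 * -1 * (J (p.1 a) * J (p.1 b) * ‖p.1 a - p.1 b‖⁻¹) +
      ∑ j, -1 * z j * (J (p.1 a) * J (p.2 j) * ‖p.1 a - p.2 j‖⁻¹)) +
      ∑ j, (∑ a, z j * -1 * (J (p.2 j) * J (p.1 a) * ‖p.2 j - p.1 a‖⁻¹) +
        ∑ l, z j * z l * (J (p.2 j) * J (p.2 l) * ‖p.2 j - p.2 l‖⁻¹)) = 2 * VJ J z p := by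
    have g1 : ∑ j, ∑ a, z j * -1 * (J (p.2 j) * J (p.1 a) * ‖p.2 j - p.1 a‖⁻¹) =
        -∑ a, ∑ j, z j * (J (p.1 a) * J (p.2 j) * ‖p.1 a - p.2 j‖⁻¹) := by
      rw [sum_comm, ← sum_neg_distrib]
      refine sum_congr rfl fun a _ => ?_
      rw [← sum_neg_distrib]
      refine sum_congr rfl fun j _ => ?_
      rw [norm_sub_rev]
      ring
    have g2 : ∑ a, ∑ j, -1 * z j * (J (p.1 a) * J (p.2 j) * ‖p.1 a - p.2 j‖⁻¹) =
        -∑ a, ∑ j, z j * (J (p.1 a) * J (p.2 j) * ‖p.1 a - p.2 j‖⁻¹) := by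
      rw [← sum_neg_distrib]
      refine sum_congr rfl fun a _ => ?_
      rw [← sum_neg_distrib]
      refine sum_congr rfl fun j _ => ?_
      ring
    have g3 : ∑ a, ∑ b, -1 * -1 * (J (p.1 a) * J (p.1 b) * ‖p.1 a - p.1 b‖⁻¹) =
        ∑ a, ∑ b, J (p.1 a) * J (p.1 b) * ‖p.1 a - p.1 b‖⁻¹ := by
      refine sum_congr rfl fun a _ => sum_congr rfl fun b _ => ?_
      ring
    rw [sum_add_distrib, sum_add_distrib, g1, g2, g3]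
    unfold VJ
    ring
  rw [e3] at h1
  have e4 : ∑ j, z j * (J (p.2 j) ^ 2 * (phiN z j p (p.2 j) - c)) =
      ∑ j, z j * J (p.2 j) ^ 2 * phiN z j p (p.2 j) - c * ∑ j, z j * J (p.2 j) ^ 2 := by
    rw [mul_sum, ← sum_sub_distrib]
    refine sum_congr rfl fun j _ => ?_
    ring
  have e5 : ∑ a, J (p.1 a) ^ 2 * (phiE z a p (p.1 a) - c) =
      -∑ a, -1 * J (p.1 a) ^ 2 * phiE z a p (p.1 a) + c * ∑ a, -1 * J (p.1 a) ^ 2 := by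
    rw [mul_sum, ← sum_neg_distrib, ← sum_add_distrib]
    refine sum_congr rfl fun a _ => ?_
    ring
  rw [e4, e5]
  linarith

end H6.CB
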