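import Pool.Agent.H6.CM.BumpEx

/-! Existence of a bump without mass near the centre: `Real.smoothTransition` of affine functions of `‖v‖ ^ 2` (product of one which vanishes for `‖v‖ ≤ 0.42` and one which vanishes for `‖v‖ ≥ 0.49`), normalised, as in the proof of `bump_ex` in `Pool/Agent/H6/CM/BumpEx.lean`. Note `5/12 = 0.41666...`. -/

open MeasureTheory Finset

namespace H6.CB

open H6.CM

private theorem ShellB_smooth (a b : ℝ) :
    ContDiff ℝ (⊤ : ℕ∞) fun v : E3 => Real.smoothTransition (a * ‖v‖ ^ 2 + b) :=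
  Real.smoothTransition.contDiff.comp ((contDiff_const.mul (contDiff_norm_sq ℝ)).add contDiff_const)

theorem shell_ex : ∃ χ : E3 → ℝ, Bump χ ∧ ∀ v, χ v ≠ 0 → 5 / 12 < ‖v‖ := by
  have hs : ContDiff ℝ (⊤ : ℕ∞) fun v : E3 =>
      Real.smoothTransition (1 * ‖v‖ ^ 2 + (-(0.1764))) *
        Real.smoothTransition ((-1) * ‖v‖ ^ 2 + 0.2401) :=
    (ShellB_smooth 1 (-(0.1764))).mul (ShellB_smooth (-1) 0.2401)
  set g : E3 → ℝ := fun v : E3 => Real.smoothTransition (1 * ‖v‖ ^ 2 + (-(0.1764))) *
        Real.smoothTransition ((-1) * ‖v‖ ^ 2 + 0.2401) with hg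
  have hsupp : ∀ v, g v ≠ 0 → ‖v‖ < 1 / 2 := by
    intro v hv
    by_contra h
    push Not at h
    apply hv
    have h1 : Real.smoothTransition ((-1) * ‖v‖ ^ 2 + 0.2401) = 0 := by
      refine Real.smoothTransition.zero_of_nonpos ?_
      nlinarith [norm_nonneg v]
    simp only [hg, h1, mul_zero]
  have hlow : ∀ v, g v ≠ 0 → 5 / 12 < ‖v‖ := by
    intro v hv
    by_contra h
    push Not at h
    apply hv
    have h1 : Real.smoothTransition (1 * ‖v‖ ^ 2 + (-(0.1764))) = 0 := by
      refine Real.smoothTransition.zero_of_nonpos ?_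
      nlinarith [norm_nonneg v]
    simp only [hg, h1, zero_mul]
  have hrad : ∀ u v : E3, ‖u‖ = ‖v‖ → g u = g v := by
    intro u v h
    simp only [hg, h]
  have hcpt : HasCompactSupport fun v => g v ^ 2 := by
    refine HasCompactSupport.intro (isCompact_closedBall (0 : E3) (1 / 2)) fun v hv => ?_
    have h0 : g v = 0 := by
      by_contra h
      apply hv
      rw [Metric.mem_closedBall, dist_zero_right]
      exact (hsupp v h).le
    simp only [h0]
    norm_num
  have hpos : 0 < ∫ v, g v ^ 2 := by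
    refine Continuous.integral_pos_of_hasCompactSupport_nonneg_nonzero
      (x := ((0.45 : ℝ) • EuclideanSpace.single (0 : Fin 3) (1 : ℝ) : E3))
      (hs.continuous.pow 2) hcpt (fun v => sq_nonneg _) ?_
    have hn : ‖((0.45 : ℝ) • EuclideanSpace.single (0 : Fin 3) (1 : ℝ) : E3)‖ = 0.45 := by
      rw [norm_smul, EuclideanSpace.norm_single, norm_one, mul_one, Real.norm_eq_abs]
      norm_num
    have h1 : 0 < Real.smoothTransition
        (1 * ‖((0.45 : ℝ) • EuclideanSpace.single (0 : Fin 3) (1 : ℝ) : E3)‖ ^ 2 + (-(0.1764))) := by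
      rw [hn]
      exact Real.smoothTransition.pos_of_pos (by norm_num)
    have h2 : 0 < Real.smoothTransition
        ((-1) * ‖((0.45 : ℝ) • EuclideanSpace.single (0 : Fin 3) (1 : ℝ) : E3)‖ ^ 2 + 0.2401) := by
      rw [hn]
      exact Real.smoothTransition.pos_of_pos (by norm_num)
    exact (pow_pos (mul_pos h1 h2) 2).ne'
  refine ⟨fun v => (Real.sqrt (∫ v, g v ^ 2))⁻¹ * g v, ⟨contDiff_const.mul hs, ?_, ?_, ?_⟩, ?_⟩
  · intro v hv
    exact hsupp v fun h => hv (by rw [h, mul_zero])
  · intro u v h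
    rw [hrad u v h]
  · simp only [mul_pow]
    rw [integral_const_mul, inv_pow, Real.sq_sqrt hpos.le, inv_mul_cancel₀ hpos.ne']
  · intro v hv
    exact hlow v fun h => hv (by beta_reduce; rw [h, mul_zero])

end H6.CB
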