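import Pool.Agent.H6.CB.UhF
import Pool.Agent.H6.CB.ShellB

/-! The number of nuclei at scale `s` is controlled by the smeared potential and the electrons. Let `τ w = chr χ' (12 * s) w ^ 2` (mass one, supported in `5 s < ‖w‖ < 6 s`) and `κ v = UU χ s v - ∫ w, τ w * UU χ s (v + w)`. By Fubini `κ v` is the average over `u1, u2` with the density `chr χ s u1 ^ 2 * chr χ s u2 ^ 2` of `‖y‖⁻¹ - U (chr χ' (12 s)) y`, `y = v - u1 - u2`; hence `κ ≥ 0` (`U_le`), `κ v = 0` for `7 s ≤ ‖v‖` (`U_out`: `6 s ≤ ‖y‖`), `κ v ≥ (7 s / 2)⁻¹ - (5 s)⁻¹` for `‖v‖ < 3 s` (`UU_low`, and `U (chr χ' (12 s)) ≤ (5 s)⁻¹` by `U_shell` with `ρ = 5 / 12`), `κ ≤ C s⁻¹` (`UU_bd`). Then `∑ z j κ (v - R j) = ∑ κ (v - x a) + uh v - ∫ w, τ w * uh (v + w)` (the reference potential cancels). -/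

open MeasureTheory Finset

namespace H6.CB

open H6.CM

private theorem nc_ti {χ' : E3 → ℝ} (hχ' : Bump χ') (r : ℝ) (hr : 0 < r) :
    Integrable (fun w => chr χ' r w ^ 2) := by
  apply Integrable.of_integral_ne_zero
  rw [chr_norm hχ' r hr]
  exact one_ne_zero

private theorem nc_pot {χ' : E3 → ℝ} (hχ' : Bump χ') (r : ℝ) (hr : 0 < r) (v : E3) :
    Integrable (fun w => chr χ' r w ^ 2 * ‖v + w‖⁻¹) ∧
      ∫ w, chr χ' r w ^ 2 * ‖v + w‖⁻¹ = U (chr χ' r) v := by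
  have e : ∀ w : E3, chr χ' r (w - 0) ^ 2 * ‖w - (-v)‖⁻¹ = chr χ' r w ^ 2 * ‖v + w‖⁻¹ := by
    intro w
    rw [sub_zero, sub_neg_eq_add, add_comm w v]
  have h1 := chr_pot_int hχ' r hr 0 (-v)
  have h2 := chr_pot hχ' r hr 0 (-v)
  simp only [e] at h1 h2
  refine ⟨h1, ?_⟩
  rw [h2, chr_eq hχ' r hr, sub_zero, smul_neg, U_neg hχ']

private theorem nc_ui {χ χ' : E3 → ℝ} (hχ : Bump χ) (hχ' : Bump χ') (s r : ℝ) (hs : 0 < s)
    (hr : 0 < r) (v : E3) : Integrable (fun w => chr χ' r w ^ 2 * UU χ s (v + w)) := by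
  obtain ⟨C, hC, hb⟩ := UU_bd hχ
  have h1 : Continuous (fun w => UU χ s (v + w)) :=
    (UU_smooth hχ s hs).continuous.comp (continuous_const.add continuous_id)
  refine Integrable.mono' ((nc_ti hχ' r hr).mul_const (C * s⁻¹))
    ((nc_ti hχ' r hr).aestronglyMeasurable.mul h1.aestronglyMeasurable)
    (Filter.Eventually.of_forall fun w => ?_)
  rw [norm_mul, Real.norm_eq_abs, Real.norm_eq_abs, abs_of_nonneg (sq_nonneg _),
    abs_of_nonneg (UU_nonneg hχ s hs _)]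
  exact mul_le_mul_of_nonneg_left (hb s hs _) (sq_nonneg _)

private theorem nc_le {χ χ' : E3 → ℝ} (hχ : Bump χ) (hχ' : Bump χ') (s r : ℝ) (hs : 0 < s)
    (hr : 0 < r) (v : E3) : ∫ w, chr χ' r w ^ 2 * UU χ s (v + w) ≤ U (chr χ' r) v := by
  rw [← (nc_pot hχ' r hr v).2]
  refine integral_mono_ae (nc_ui hχ hχ' s r hs hr v) (nc_pot hχ' r hr v).1 ?_
  have h1 : ∀ᵐ w : E3, w ∉ ({-v} : Set E3) := (Set.countable_singleton _).ae_notMem volume
  filter_upwards [h1] with w hw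
  refine mul_le_mul_of_nonneg_left (UU_inv hχ s hs _ fun h0 => hw ?_) (sq_nonneg _)
  rw [Set.mem_singleton_iff]
  exact eq_neg_of_add_eq_zero_right h0

/-- the difference of the potential of a charge and its average over the shell -/
private noncomputable def nc_k (χ χ' : E3 → ℝ) (s : ℝ) (v : E3) : ℝ :=
  UU χ s v - ∫ w, chr χ' (12 * s) w ^ 2 * UU χ s (v + w)

private theorem nc_far {χ χ' : E3 → ℝ} (hχ : Bump χ) (hχ' : Bump χ') (s : ℝ) (hs : 0 < s)
    (v : E3) (hv : 7 * s ≤ ‖v‖) : nc_k χ χ' s v = 0 := by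
  have hr : 0 < 12 * s := by linarith
  have h1 : ∫ w, chr χ' (12 * s) w ^ 2 * UU χ s (v + w) = U (chr χ' (12 * s)) v := by
    rw [← (nc_pot hχ' (12 * s) hr v).2]
    refine integral_congr_ae (Filter.Eventually.of_forall fun w => ?_)
    simp only
    by_cases hw : chr χ' (12 * s) w = 0
    · rw [hw]
      simp
    · have h2 := chr_supp hχ' (12 * s) hr w hw
      have h3 : s ≤ ‖v + w‖ := by
        have h4 := norm_sub_le (v + w) w
        rw [add_sub_cancel_right] at h4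
        linarith
      rw [UU_eq hχ s hs (v + w) h3]
  unfold nc_k
  rw [h1, U_out hχ' (12 * s) hr v (by linarith), UU_eq hχ s hs v (by linarith), sub_self]

private theorem nc_near {χ χ' : E3 → ℝ} (hχ : Bump χ) (hχ' : Bump χ')
    (hs' : ∀ v, χ' v ≠ 0 → 5 / 12 < ‖v‖) (s : ℝ) (hs : 0 < s)
    (v : E3) (hv : ‖v‖ < 3 * s) : 3 / 35 * s⁻¹ ≤ nc_k χ χ' s v := by
  have hr : 0 < 12 * s := by linarith
  have h1 := nc_le hχ hχ' s (12 * s) hs hr v
  have h2 := U_shell hχ' (5 / 12) (by norm_num) hs' (12 * s) hr v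
  have h3 : (max ‖v‖ (5 / 12 * (12 * s)))⁻¹ ≤ (5 * s)⁻¹ := by
    refine inv_anti₀ (by positivity) ?_
    refine le_trans ?_ (le_max_right _ _)
    linarith
  have h4 := UU_low hχ s hs v
  have h5 : (7 / 2 * s)⁻¹ ≤ (‖v‖ + s / 2)⁻¹ := by
    have := norm_nonneg v
    exact inv_anti₀ (by positivity) (by linarith)
  have h6 : (7 / 2 * s)⁻¹ = 2 / 7 * s⁻¹ := by
    rw [mul_inv]
    norm_num
  have h7 : (5 * s)⁻¹ = 1 / 5 * s⁻¹ := by
    rw [mul_inv]
    norm_num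
  rw [h6] at h5
  rw [h7] at h3
  unfold nc_k
  linarith

private theorem nc_nonneg {χ χ' : E3 → ℝ} (hχ : Bump χ) (hχ' : Bump χ')
    (hs' : ∀ v, χ' v ≠ 0 → 5 / 12 < ‖v‖) (s : ℝ) (hs : 0 < s) (v : E3) :
    0 ≤ nc_k χ χ' s v := by
  by_cases hv : ‖v‖ < 3 * s
  · refine le_trans ?_ (nc_near hχ hχ' hs' s hs v hv)
    positivity
  · have hr : 0 < 12 * s := by linarith
    rw [not_lt] at hv
    have h0 : v ≠ 0 := by
      intro h0
      rw [h0, norm_zero] at hv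
      linarith
    have h1 := nc_le hχ hχ' s (12 * s) hs hr v
    have h2 := U_le hχ' (12 * s) hr v h0
    unfold nc_k
    rw [UU_eq hχ s hs v (by linarith)]
    linarith

private theorem nc_up {χ χ' : E3 → ℝ} (hχ : Bump χ) (s : ℝ) (hs : 0 < s) (v : E3) :
    nc_k χ χ' s v ≤ UU χ s v := by
  have h1 : 0 ≤ ∫ w, chr χ' (12 * s) w ^ 2 * UU χ s (v + w) :=
    integral_nonneg fun w => mul_nonneg (sq_nonneg _) (UU_nonneg hχ s hs _)
  unfold nc_k
  linarith

/-- the reference potential cancels -/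
private theorem nc_id {χ χ' : E3 → ℝ} (hχ : Bump χ) (hχ' : Bump χ') {n k : ℕ}
    (z : Fin k → ℝ) (W : Finset E3) (p : Cfg n k) (v : E3) (s : ℝ) (hs : 0 < s) :
    ∑ j, z j * nc_k χ χ' s (v - p.2 j) - ∑ a, nc_k χ χ' s (v - p.1 a) =
      uh χ s W z p v - ∫ w, chr χ' (12 * s) w ^ 2 * uh χ s W z p (v + w) := by
  have hr : 0 < 12 * s := by linarith
  have e : ∀ w, chr χ' (12 * s) w ^ 2 * uh χ s W z p (v + w) =
      (∑ j, z j * (chr χ' (12 * s) w ^ 2 * UU χ s ((v - p.2 j) + w)) -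
        ∑ a, chr χ' (12 * s) w ^ 2 * UU χ s ((v - p.1 a) + w)) -
          chr χ' (12 * s) w ^ 2 * pr χ W z p := by
    intro w
    unfold uh ph
    rw [mul_sub, mul_sub, mul_sum, mul_sum]
    congr 2
    · refine sum_congr rfl fun j _ => ?_
      rw [add_sub_right_comm]
      ring
    · refine sum_congr rfl fun a _ => ?_
      rw [add_sub_right_comm]
  have i1 : ∀ j ∈ (univ : Finset (Fin k)), Integrable (fun w =>
      z j * (chr χ' (12 * s) w ^ 2 * UU χ s ((v - p.2 j) + w))) := fun j _ =>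
    (nc_ui hχ hχ' s (12 * s) hs hr _).const_mul _
  have i2 : ∀ a ∈ (univ : Finset (Fin n)), Integrable (fun w =>
      chr χ' (12 * s) w ^ 2 * UU χ s ((v - p.1 a) + w)) := fun a _ =>
    nc_ui hχ hχ' s (12 * s) hs hr _
  have i3 : Integrable (fun w => ∑ j, z j * (chr χ' (12 * s) w ^ 2 * UU χ s ((v - p.2 j) + w)) -
        ∑ a, chr χ' (12 * s) w ^ 2 * UU χ s ((v - p.1 a) + w)) :=
    (integrable_finsetSum _ i1).sub (integrable_finsetSum _ i2)
  simp only [e]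
  rw [integral_sub i3 ((nc_ti hχ' (12 * s) hr).mul_const _), integral_sub (integrable_finsetSum _ i1)
    (integrable_finsetSum _ i2), integral_finsetSum _ i1, integral_finsetSum _ i2,
    integral_mul_const, chr_norm hχ' (12 * s) hr, one_mul]
  simp only [integral_const_mul]
  unfold nc_k uh ph
  simp only [mul_sub, sum_sub_distrib]
  ring

theorem nc1 (zm : ℝ) (hzm : 0 < zm) {χ χ' : E3 → ℝ} (hχ : Bump χ) (hχ' : Bump χ')
    (hs' : ∀ v, χ' v ≠ 0 → 5 / 12 < ‖v‖) : ∃ C : ℝ, 0 ≤ C ∧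
    ∀ (n k : ℕ) (z : Fin k → ℝ) (_ : ∀ j, zm ≤ z j) (W : Finset E3) (p : Cfg n k) (v : E3)
    (s : ℝ) (_ : 0 < s) (_ : s ≤ 1),
    s⁻¹ * cn p v (3 * s) ≤ C * (|uh χ s W z p v| +
      (∫ w, chr χ' (12 * s) w ^ 2 * |uh χ s W z p (v + w)|) + s⁻¹ * ce p v (7 * s)) := by
  obtain ⟨C, hC, hb⟩ := UU_bd hχ
  refine ⟨35 / 3 * zm⁻¹ * (1 + C), by positivity, ?_⟩
  intro n k z hz W p v s hs hs1
  have hid := nc_id hχ hχ' z W p v s hs
  have hsi : 0 ≤ s⁻¹ := by positivity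
  -- the nuclei
  have h1 : zm * (3 / 35 * s⁻¹ * cn p v (3 * s)) ≤ ∑ j, z j * nc_k χ χ' s (v - p.2 j) := by
    unfold cn
    rw [mul_sum, mul_sum]
    refine sum_le_sum fun j _ => ?_
    have h2 := nc_nonneg hχ hχ' hs' s hs (v - p.2 j)
    by_cases hj : ‖p.2 j - v‖ < 3 * s
    · rw [if_pos hj, mul_one]
      have h3 := nc_near hχ hχ' hs' s hs (v - p.2 j) (by rwa [norm_sub_rev])
      exact mul_le_mul (hz j) h3 (by positivity) (hzm.le.trans (hz j))
    · rw [if_neg hj, mul_zero, mul_zero]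
      exact mul_nonneg (hzm.le.trans (hz j)) h2
  -- the electrons
  have h2 : ∑ a, nc_k χ χ' s (v - p.1 a) ≤ C * (s⁻¹ * ce p v (7 * s)) := by
    unfold ce
    rw [mul_sum, mul_sum]
    refine sum_le_sum fun a _ => ?_
    by_cases ha : ‖p.1 a - v‖ < 7 * s
    · rw [if_pos ha, mul_one]
      exact (nc_up hχ s hs _).trans (hb s hs _)
    · rw [if_neg ha, mul_zero, mul_zero, nc_far hχ hχ' s hs (v - p.1 a) (by
        rw [norm_sub_rev]
        exact not_lt.1 ha)]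
  have h3 : |∫ w, chr χ' (12 * s) w ^ 2 * uh χ s W z p (v + w)| ≤
      ∫ w, chr χ' (12 * s) w ^ 2 * |uh χ s W z p (v + w)| := by
    refine abs_integral_le_integral_abs.trans (le_of_eq ?_)
    refine integral_congr_ae (Filter.Eventually.of_forall fun w => ?_)
    simp only
    rw [abs_mul, abs_of_nonneg (sq_nonneg _)]
  have h4 := le_abs_self (uh χ s W z p v)
  have h5 := neg_abs_le (∫ w, chr χ' (12 * s) w ^ 2 * uh χ s W z p (v + w))
  have h6 : 0 ≤ |uh χ s W z p v| := abs_nonneg _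
  have h7 : 0 ≤ ∫ w, chr χ' (12 * s) w ^ 2 * |uh χ s W z p (v + w)| :=
    integral_nonneg fun w => mul_nonneg (sq_nonneg _) (abs_nonneg _)
  have h8 : 0 ≤ s⁻¹ * ce p v (7 * s) := mul_nonneg hsi (ce_nonneg p v _)
  have h9 : zm * (3 / 35 * s⁻¹ * cn p v (3 * s)) ≤ (1 + C) * (|uh χ s W z p v| +
      (∫ w, chr χ' (12 * s) w ^ 2 * |uh χ s W z p (v + w)|) + s⁻¹ * ce p v (7 * s)) := by
    have g1 := mul_nonneg hC h6
    have g2 := mul_nonneg hC h7
    nlinarith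
  have h10 := mul_le_mul_of_nonneg_left h9 (show (0 : ℝ) ≤ 35 / 3 * zm⁻¹ by positivity)
  have h11 : 35 / 3 * zm⁻¹ * (zm * (3 / 35 * s⁻¹ * cn p v (3 * s))) = s⁻¹ * cn p v (3 * s) := by
    field_simp
  rw [h11] at h10
  linarith

end H6.CB
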