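import Pool.Agent.H6.CB.PhL2
import Pool.Agent.H6.CB.Nc1

/-! Combine `ph_l2` (with `c = pr χ W z p`) and `nc1` (with `shell_ex`): on the ball of radius `4`, `s⁻² (ce (3 s) + cn (3 s)) ^ 2 ≤ 2 s⁻² ce p v (7 s) ^ 2 + C (|uh v| + ∫ τ |uh (v + w)| + s⁻¹ ce p v (7 s)) ^ 2`; `(∫ τ |uh (v + w)|) ^ 2 ≤ ∫ τ w * uh (v + w) ^ 2` (Cauchy-Schwarz, `∫ τ = 1`, `τ` supported in the ball of radius `6 s ≤ 6`), and Fubini with the translation: `∫ v in ball x 4, uh (v + w) ^ 2 ≤ ∫ v in ball x 12, uh v ^ 2`. -/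

open MeasureTheory Finset

namespace H6.CB

open H6.CM

private theorem pt_jensen {τ g : E3 → ℝ} (hτc : Continuous τ) (hτs : HasCompactSupport τ)
    (hτ0 : ∀ w, 0 ≤ τ w) (hτ1 : ∫ w, τ w = 1) (hg : Continuous g) (v : E3) :
    (∫ w, τ w * |g (v + w)|) ^ 2 ≤ ∫ w, τ w * g (v + w) ^ 2 := by
  set a : ℝ := ∫ w, τ w * |g (v + w)| with ha
  have i0 : Integrable τ := hτc.integrable_of_hasCompactSupport hτs
  have i1 : Integrable (fun w => τ w * |g (v + w)|) := by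
    refine Continuous.integrable_of_hasCompactSupport ?_ hτs.mul_right
    exact hτc.mul (hg.comp (continuous_const.add continuous_id)).abs
  have i2 : Integrable (fun w => τ w * g (v + w) ^ 2) := by
    refine Continuous.integrable_of_hasCompactSupport ?_ hτs.mul_right
    exact hτc.mul ((hg.comp (continuous_const.add continuous_id)).pow 2)
  have h1 : 0 ≤ ∫ w, τ w * (|g (v + w)| - a) ^ 2 :=
    integral_nonneg fun w => mul_nonneg (hτ0 w) (sq_nonneg _)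
  have h2 : ∫ w, τ w * (|g (v + w)| - a) ^ 2 =
      (∫ w, τ w * g (v + w) ^ 2) - 2 * a * a + a ^ 2 * ∫ w, τ w := by
    have e : ∀ w, τ w * (|g (v + w)| - a) ^ 2 =
        τ w * g (v + w) ^ 2 - 2 * a * (τ w * |g (v + w)|) + a ^ 2 * τ w := by
      intro w
      have e : |g (v + w)| ^ 2 = g (v + w) ^ 2 := sq_abs _
      rw [← e]
      ring
    have i3 : Integrable (fun w => τ w * g (v + w) ^ 2 - 2 * a * (τ w * |g (v + w)|)) :=
      i2.sub (i1.const_mul _)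
    rw [integral_congr_ae (Filter.Eventually.of_forall e),
      integral_add i3 (i0.const_mul _), integral_sub i2 (i1.const_mul _),
      integral_const_mul, integral_const_mul]
  rw [h2, hτ1] at h1
  nlinarith

private theorem pt_fub {τ g : E3 → ℝ} (hτc : Continuous τ) (hτ0 : ∀ w, 0 ≤ τ w)
    (hτ1 : ∫ w, τ w = 1) (hτi : Integrable τ) (hτ6 : ∀ w, τ w ≠ 0 → ‖w‖ < 6)
    (hg : Continuous g) (x : E3) :
    IntegrableOn (fun v => ∫ w, τ w * g (v + w) ^ 2) (Metric.ball x 4) ∧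
    ∫ v in Metric.ball x 4, (∫ w, τ w * g (v + w) ^ 2) ≤ ∫ v in Metric.ball x 12, g v ^ 2 := by
  have hfc : Continuous (fun u : E3 × E3 => τ u.2 * g (u.1 + u.2) ^ 2) :=
    (hτc.comp continuous_snd).mul ((hg.comp (continuous_fst.add continuous_snd)).pow 2)
  have hK : IntegrableOn (fun u : E3 × E3 => τ u.2 * g (u.1 + u.2) ^ 2)
      (Metric.closedBall x 4 ×ˢ Metric.closedBall (0 : E3) 6) (volume.prod volume) :=
    hfc.continuousOn.integrableOn_compact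
      ((isCompact_closedBall x 4).prod (isCompact_closedBall (0 : E3) 6))
  have hB : IntegrableOn (fun u : E3 × E3 => τ u.2 * g (u.1 + u.2) ^ 2)
      (Metric.ball x 4 ×ˢ Set.univ) (volume.prod volume) := by
    refine hK.of_forall_sdiff_eq_zero (measurableSet_ball.prod MeasurableSet.univ) ?_
    rintro ⟨v, w⟩ ⟨⟨h1, -⟩, h2⟩
    have h3 : τ w = 0 := by
      by_contra h
      apply h2
      refine ⟨Metric.ball_subset_closedBall h1, ?_⟩
      rw [mem_closedBall_zero_iff]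
      exact (hτ6 w h).le
    simp only [h3, zero_mul]
  have hint : Integrable (fun u : E3 × E3 => τ u.2 * g (u.1 + u.2) ^ 2)
      ((volume.restrict (Metric.ball x 4)).prod volume) := by
    have e : (volume.restrict (Metric.ball x 4)).prod (volume : Measure E3) =
        ((volume : Measure E3).prod (volume : Measure E3)).restrict
          (Metric.ball x 4 ×ˢ Set.univ) := by
      rw [← Measure.prod_restrict, Measure.restrict_univ]
    rw [e]
    exact hB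
  refine ⟨hint.integral_prod_left, ?_⟩
  have hsw := integral_integral_swap (f := fun v w : E3 => τ w * g (v + w) ^ 2) hint
  have hA : ∀ w : E3, ‖w‖ < 6 → ∫ v in Metric.ball x 4, g (v + w) ^ 2 ≤
      ∫ v in Metric.ball x 12, g v ^ 2 := by
    intro w hw
    have h1 : ∫ v in Metric.ball x 4, g (v + w) ^ 2 = ∫ v in Metric.ball (x + w) 4, g v ^ 2 := by
      rw [← integral_indicator measurableSet_ball, ← integral_indicator measurableSet_ball,
        ← integral_add_right_eq_self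
          (fun v => (Metric.ball (x + w) 4).indicator (fun v => g v ^ 2) v) w]
      refine integral_congr_ae (Filter.Eventually.of_forall fun v => ?_)
      simp only
      by_cases hv : v ∈ Metric.ball x 4
      · have hv' : v + w ∈ Metric.ball (x + w) 4 := by
          rw [Metric.mem_ball, dist_add_right]
          exact hv
        rw [Set.indicator_of_mem hv, Set.indicator_of_mem hv']
      · have hv' : v + w ∉ Metric.ball (x + w) 4 := by
          rw [Metric.mem_ball, dist_add_right]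
          exact hv
        rw [Set.indicator_of_notMem hv, Set.indicator_of_notMem hv']
    rw [h1]
    refine setIntegral_mono_set ?_ (Filter.Eventually.of_forall fun v => sq_nonneg _) ?_
    · exact ((hg.pow 2).continuousOn.integrableOn_compact (isCompact_closedBall x 12)).mono_set
        Metric.ball_subset_closedBall
    · refine (Metric.ball_subset_ball' ?_).eventuallyLE
      rw [dist_eq_norm, add_sub_cancel_left]
      linarith
  calc ∫ v in Metric.ball x 4, (∫ w, τ w * g (v + w) ^ 2)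
      = ∫ w, ∫ v in Metric.ball x 4, τ w * g (v + w) ^ 2 := hsw
    _ = ∫ w, τ w * ∫ v in Metric.ball x 4, g (v + w) ^ 2 := by
        refine integral_congr_ae (Filter.Eventually.of_forall fun w => ?_)
        exact integral_const_mul _ _
    _ ≤ ∫ w, τ w * ∫ v in Metric.ball x 12, g v ^ 2 := by
        refine integral_mono_of_nonneg ?_ (hτi.mul_const _) ?_
        · exact Filter.Eventually.of_forall fun w => mul_nonneg (hτ0 w)
            (integral_nonneg fun v => sq_nonneg _)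
        · refine Filter.Eventually.of_forall fun w => ?_
          simp only
          by_cases hw : τ w = 0
          · rw [hw, zero_mul, zero_mul]
          · exact mul_le_mul_of_nonneg_left (hA w (hτ6 w hw)) (hτ0 w)
    _ = ∫ v in Metric.ball x 12, g v ^ 2 := by
        rw [integral_mul_const, hτ1, one_mul]

private theorem pt_ce_meas {n k : ℕ} (p : Cfg n k) (r : ℝ) :
    Measurable (fun v : E3 => ce p v r) := by
  unfold ce
  refine Finset.measurable_sum _ fun a _ => ?_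
  refine Measurable.ite ?_ measurable_const measurable_const
  exact measurableSet_lt (measurable_const.sub measurable_id).norm measurable_const

private theorem pt_ce_int {n k : ℕ} (p : Cfg n k) (r c x0 : ℝ) (x : E3) :
    IntegrableOn (fun v : E3 => c * ce p v r ^ 2) (Metric.ball x x0) := by
  have hfin : IsFiniteMeasure ((volume : Measure E3).restrict (Metric.ball x x0)) :=
    ⟨by rw [Measure.restrict_apply_univ]; exact measure_ball_lt_top⟩
  refine Integrable.const_mul ?_ c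
  refine Integrable.of_bound (((pt_ce_meas p r).pow_const 2).aestronglyMeasurable)
    ((n : ℝ) ^ 2) (Filter.Eventually.of_forall fun v => ?_)
  rw [Real.norm_eq_abs, abs_of_nonneg (sq_nonneg _)]
  exact pow_le_pow_left₀ (ce_nonneg p v r) (ce_le p v r) 2

private theorem pt_alg {s C2 c3 c7 n3 gv I J : ℝ} (hs : 0 < s) (hc3 : 0 ≤ c3)
    (h37 : c3 ≤ c7) (hn : 0 ≤ n3) (hIJ : I ^ 2 ≤ J)
    (h : s⁻¹ * n3 ≤ C2 * (|gv| + I + s⁻¹ * c7)) :
    (s ^ 2)⁻¹ * (c3 + n3) ^ 2 ≤ (2 + 6 * C2 ^ 2) * ((s ^ 2)⁻¹ * c7 ^ 2) + 6 * C2 ^ 2 * gv ^ 2 +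
        6 * C2 ^ 2 * J := by
  have hsi : 0 < s⁻¹ := inv_pos.2 hs
  obtain ⟨a3, ha3⟩ : ∃ a3, a3 = s⁻¹ * c3 := ⟨_, rfl⟩
  obtain ⟨a7, ha7⟩ : ∃ a7, a7 = s⁻¹ * c7 := ⟨_, rfl⟩
  obtain ⟨b3, hb3⟩ : ∃ b3, b3 = s⁻¹ * n3 := ⟨_, rfl⟩
  have e1 : (s ^ 2)⁻¹ * (c3 + n3) ^ 2 = (a3 + b3) ^ 2 := by
    rw [ha3, hb3]; field_simp
  have e2 : (s ^ 2)⁻¹ * c7 ^ 2 = a7 ^ 2 := by
    rw [ha7]; field_simp
  have h3 : 0 ≤ a3 := by rw [ha3]; exact mul_nonneg hsi.le hc3
  have h4 : a3 ≤ a7 := by rw [ha3, ha7]; exact mul_le_mul_of_nonneg_left h37 hsi.le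
  have h5 : 0 ≤ b3 := by rw [hb3]; exact mul_nonneg hsi.le hn
  rw [← hb3, ← ha7] at h
  rw [e1, e2]
  have q1 : b3 ^ 2 ≤ (C2 * (|gv| + I + a7)) ^ 2 := pow_le_pow_left₀ h5 h 2
  have q2 : (|gv| + I + a7) ^ 2 ≤ 3 * (gv ^ 2 + I ^ 2 + a7 ^ 2) := by
    have q3 : |gv| ^ 2 = gv ^ 2 := sq_abs _
    nlinarith [sq_nonneg (|gv| - I), sq_nonneg (|gv| - a7), sq_nonneg (I - a7)]
  have q4 : (C2 * (|gv| + I + a7)) ^ 2 = C2 ^ 2 * (|gv| + I + a7) ^ 2 := by ring
  have q5 : C2 ^ 2 * (|gv| + I + a7) ^ 2 ≤ C2 ^ 2 * (3 * (gv ^ 2 + I ^ 2 + a7 ^ 2)) :=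
    mul_le_mul_of_nonneg_left q2 (sq_nonneg _)
  have q6 : C2 ^ 2 * I ^ 2 ≤ C2 ^ 2 * J := mul_le_mul_of_nonneg_left hIJ (sq_nonneg _)
  have q7 : (a3 + b3) ^ 2 ≤ 2 * a7 ^ 2 + 2 * b3 ^ 2 := by
    nlinarith [sq_nonneg (a3 - b3), pow_le_pow_left₀ h3 h4 2]
  have q8 : b3 ^ 2 ≤ 3 * (C2 ^ 2 * gv ^ 2) + 3 * (C2 ^ 2 * J) + 3 * (C2 ^ 2 * a7 ^ 2) := by
    calc b3 ^ 2 ≤ C2 ^ 2 * (3 * (gv ^ 2 + I ^ 2 + a7 ^ 2)) := by rw [q4] at q1; exact q1.trans q5
      _ = 3 * (C2 ^ 2 * gv ^ 2) + 3 * (C2 ^ 2 * I ^ 2) + 3 * (C2 ^ 2 * a7 ^ 2) := by ring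
      _ ≤ _ := by linarith
  calc (a3 + b3) ^ 2 ≤ 2 * a7 ^ 2 + 2 * b3 ^ 2 := q7
    _ ≤ 2 * a7 ^ 2 + 2 * (3 * (C2 ^ 2 * gv ^ 2) + 3 * (C2 ^ 2 * J) + 3 * (C2 ^ 2 * a7 ^ 2)) := by
        linarith
    _ = _ := by ring

private theorem pt_fin {C1 C2 A B P Q R : ℝ} (hC1 : 0 ≤ C1) (hA : 0 ≤ A) (hB : 0 ≤ B)
    (h1 : P ≤ 2 * Q + C1 * R) (h2 : Q ≤ A) (h3 : R ≤ (2 + 6 * C2 ^ 2) * B + 12 * C2 ^ 2 * A) :
    P ≤ (2 + 12 * C1 * C2 ^ 2 + C1 * (2 + 6 * C2 ^ 2)) * (A + B) := by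
  have h4 := mul_le_mul_of_nonneg_left h3 hC1
  have m1 : 0 ≤ C1 * (2 + 6 * C2 ^ 2) * A := by positivity
  have m2 : 0 ≤ (2 + 12 * C1 * C2 ^ 2) * B := by positivity
  calc P ≤ 2 * Q + C1 * R := h1
    _ ≤ 2 * A + C1 * ((2 + 6 * C2 ^ 2) * B + 12 * C2 ^ 2 * A) := by linarith
    _ ≤ 2 * A + C1 * ((2 + 6 * C2 ^ 2) * B + 12 * C2 ^ 2 * A) +
        (C1 * (2 + 6 * C2 ^ 2) * A + (2 + 12 * C1 * C2 ^ 2) * B) := by linarith
    _ = _ := by ring

/-- the passage from the pointwise bound to the integrals -/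
private theorem pt_ball {g J c : E3 → ℝ} {D : ℝ} (x : E3) {F : E3 → ℝ} (hF0 : ∀ v, 0 ≤ F v)
    (hg : ∀ r : ℝ, IntegrableOn (fun v => g v ^ 2) (Metric.ball x r))
    (hc : ∀ r : ℝ, IntegrableOn c (Metric.ball x r)) (hc0 : ∀ v, 0 ≤ c v)
    (hJ : IntegrableOn J (Metric.ball x 4)) (hD : 0 ≤ D)
    (hJ1 : ∫ v in Metric.ball x 4, J v ≤ ∫ v in Metric.ball x 12, g v ^ 2)
    (hF : ∀ v, F v ≤ (2 + 6 * D) * c v + 6 * D * g v ^ 2 + 6 * D * J v) :
    ∫ v in Metric.ball x 4, F v ≤ (2 + 6 * D) * (∫ v in Metric.ball x 12, c v) +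
      12 * D * ∫ v in Metric.ball x 12, g v ^ 2 := by
  have a1 : ∫ v in Metric.ball x 4, F v ≤
      ∫ v in Metric.ball x 4, ((2 + 6 * D) * c v + 6 * D * g v ^ 2 + 6 * D * J v) := by
    refine integral_mono_of_nonneg (Filter.Eventually.of_forall hF0) ?_
      (Filter.Eventually.of_forall hF)
    exact (((hc 4).const_mul _).add ((hg 4).const_mul _)).add (hJ.const_mul _)
  have a2 : ∫ v in Metric.ball x 4, ((2 + 6 * D) * c v + 6 * D * g v ^ 2 + 6 * D * J v) =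
      (2 + 6 * D) * (∫ v in Metric.ball x 4, c v) + 6 * D * (∫ v in Metric.ball x 4, g v ^ 2) +
        6 * D * ∫ v in Metric.ball x 4, J v := by
    have i3 : Integrable (fun v => (2 + 6 * D) * c v + 6 * D * g v ^ 2)
        (volume.restrict (Metric.ball x 4)) := ((hc 4).const_mul _).add ((hg 4).const_mul _)
    rw [integral_add i3 (hJ.const_mul _),
      integral_add ((hc 4).const_mul _) ((hg 4).const_mul _), integral_const_mul,
      integral_const_mul, integral_const_mul]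
  have a3 : ∫ v in Metric.ball x 4, c v ≤ ∫ v in Metric.ball x 12, c v :=
    setIntegral_mono_set (hc 12) (Filter.Eventually.of_forall hc0)
      (Metric.ball_subset_ball (by norm_num)).eventuallyLE
  have a4 : ∫ v in Metric.ball x 4, g v ^ 2 ≤ ∫ v in Metric.ball x 12, g v ^ 2 :=
    setIntegral_mono_set (hg 12) (Filter.Eventually.of_forall fun v => sq_nonneg _)
      (Metric.ball_subset_ball (by norm_num)).eventuallyLE
  have b2 := mul_le_mul_of_nonneg_left a3 (by positivity : 0 ≤ 2 + 6 * D)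
  have b3 := mul_le_mul_of_nonneg_left a4 (by positivity : 0 ≤ 6 * D)
  have b4 := mul_le_mul_of_nonneg_left hJ1 (by positivity : 0 ≤ 6 * D)
  linarith

private theorem pt_cont {n k : ℕ} {χ : E3 → ℝ} (hχ : Bump χ) (s : ℝ) (hs : 0 < s) (W : Finset E3)
    (z : Fin k → ℝ) (p : Cfg n k) : Continuous (fun v : E3 => uh χ s W z p v) := by
  have h := uh_joint hχ s hs W z (n := n)
  have h1 : Continuous (fun v : E3 => ((p, v) : Cfg n k × E3)) := Continuous.prodMk_right p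
  have h2 := h.comp h1
  exact h2

theorem ph_l3 (zm zp : ℝ) (hzm : 0 < zm) {χ : E3 → ℝ} (hχ : Bump χ) : ∃ C : ℝ, 0 ≤ C ∧
    ∀ (n k : ℕ) (z : Fin k → ℝ) (_ : ∀ j, zm ≤ z j ∧ z j ≤ zp) (W : Finset E3) (p : Cfg n k)
    (x : E3) (s : ℝ) (_ : 0 < s) (_ : s ≤ 1),
    ∫ v in Metric.ball x 2, (phi z p v - pr χ W z p) ^ 2 ≤
      C * ∫ v in Metric.ball x 12, (uh χ s W z p v ^ 2 + (s ^ 2)⁻¹ * ce p v (7 * s) ^ 2) := by
  obtain ⟨χ', hχ', hs'⟩ := shell_ex
  obtain ⟨C1, hC1, h1⟩ := ph_l2 zp hχ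
  obtain ⟨C2, hC2, h2⟩ := nc1 zm hzm hχ hχ' hs'
  refine ⟨2 + 12 * C1 * C2 ^ 2 + C1 * (2 + 6 * C2 ^ 2), by positivity,
    fun n k z hz W p x s hs hs1 => ?_⟩
  have hz0 : ∀ j, 0 ≤ z j ∧ z j ≤ zp := fun j => ⟨hzm.le.trans (hz j).1, (hz j).2⟩
  have hz1 : ∀ j, zm ≤ z j := fun j => (hz j).1
  have hg := pt_cont hχ s hs W z p
  have h12 : 0 < 12 * s := by positivity
  have hτc : Continuous (fun w => chr χ' (12 * s) w ^ 2) := (chr_smooth hχ' (12 * s) h12).continuous.pow 2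
  have hτ0 : ∀ w, 0 ≤ chr χ' (12 * s) w ^ 2 := fun w => sq_nonneg _
  have hτ1 : ∫ w, chr χ' (12 * s) w ^ 2 = 1 := chr_norm hχ' (12 * s) h12
  have hτ6 : ∀ w, chr χ' (12 * s) w ^ 2 ≠ 0 → ‖w‖ < 6 := by
    intro w hw
    have hw' : chr χ' (12 * s) w ≠ 0 := fun h => hw (by rw [h]; norm_num)
    have := chr_supp hχ' (12 * s) h12 w hw'
    linarith
  have hτs : HasCompactSupport (fun w => chr χ' (12 * s) w ^ 2) := by
    refine HasCompactSupport.intro (isCompact_closedBall (0 : E3) 6) fun w hw => ?_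
    by_contra h
    apply hw
    rw [mem_closedBall_zero_iff]
    exact (hτ6 w h).le
  have hτi : Integrable (fun w => chr χ' (12 * s) w ^ 2) :=
    hτc.integrable_of_hasCompactSupport hτs
  obtain ⟨hJi, hJ⟩ := pt_fub hτc hτ0 hτ1 hτi hτ6 hg x
  have hgi : ∀ r : ℝ, IntegrableOn (fun v => uh χ s W z p v ^ 2) (Metric.ball x r) := fun r =>
    ((hg.pow 2).continuousOn.integrableOn_compact (isCompact_closedBall x r)).mono_set
      Metric.ball_subset_closedBall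
  have hci := fun r : ℝ => pt_ce_int p (7 * s) (s ^ 2)⁻¹ r x
  have hc0 : ∀ v : E3, 0 ≤ (s ^ 2)⁻¹ * ce p v (7 * s) ^ 2 := fun v =>
    mul_nonneg (inv_nonneg.2 (sq_nonneg s)) (sq_nonneg _)
  have hF0 : ∀ v : E3, 0 ≤ (s ^ 2)⁻¹ * (ce p v (3 * s) + cn p v (3 * s)) ^ 2 := fun v =>
    mul_nonneg (inv_nonneg.2 (sq_nonneg s)) (sq_nonneg _)
  have hpt : ∀ v : E3, (s ^ 2)⁻¹ * (ce p v (3 * s) + cn p v (3 * s)) ^ 2 ≤
      (2 + 6 * C2 ^ 2) * ((s ^ 2)⁻¹ * ce p v (7 * s) ^ 2) + 6 * C2 ^ 2 * uh χ s W z p v ^ 2 +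
        6 * C2 ^ 2 * ∫ w, chr χ' (12 * s) w ^ 2 * uh χ s W z p (v + w) ^ 2 := by
    intro v
    refine pt_alg hs (ce_nonneg p v (3 * s)) (ce_mono p ?_) (cn_nonneg p v (3 * s))
      (pt_jensen hτc hτs hτ0 hτ1 hg v) (h2 n k z hz1 W p v s hs hs1)
    rw [sub_self, norm_zero]
    linarith
  have hmain := h1 n k z hz0 p x (pr χ W z p) s hs hs1
  have k1 := pt_ball x hF0 hgi hci hc0 hJi (sq_nonneg C2) hJ hpt
  rw [integral_const_mul] at k1
  have k3 : ∫ v in Metric.ball x 12, (uh χ s W z p v ^ 2 + (s ^ 2)⁻¹ * ce p v (7 * s) ^ 2) =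
      (∫ v in Metric.ball x 12, uh χ s W z p v ^ 2) +
        ∫ v in Metric.ball x 12, (s ^ 2)⁻¹ * ce p v (7 * s) ^ 2 :=
    integral_add (hgi 12) (hci 12)
  have k2 : ∫ v in Metric.ball x 2, uh χ s W z p v ^ 2 ≤
      ∫ v in Metric.ball x 12, uh χ s W z p v ^ 2 :=
    setIntegral_mono_set (hgi 12) (Filter.Eventually.of_forall fun v => sq_nonneg _)
      (Metric.ball_subset_ball (by norm_num)).eventuallyLE
  rw [k3]
  exact pt_fin hC1 (integral_nonneg fun v => sq_nonneg _) (integral_nonneg hc0) hmain k2 k1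

end H6.CB
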