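import Pool.Agent.H6.CB.Lib
import Pool.Agent.H6.CM.Grad

/-! The localisation formula for a finite family of real functions of the configuration whose squares have constant sum `c`: in each variable `∑ |∇(g i ψ)|² = (∑ g i ²) |∇ψ|² + (∑ |∇ g i|²) |ψ|²` because `∑ g i ∇ g i = 0` (`H6.CM.g3_ims` for `c = 1`; scale, or repeat its proof; `c ≥ 0`, and `c = 0` means `g i = 0`); `V` is a multiplication operator. Compare `Pool/Agent/H6/CM/Ims.lean`. -/

open MeasureTheory Finset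

namespace H6.CB

open H6.CM

private theorem ig_deriv (s : E3 → ℝ) (v : E3) (hs : DifferentiableAt ℝ s v) :
    HasFDerivAt (fun u => ((s u : ℝ) : ℂ)) (Complex.ofRealCLM.comp (fderiv ℝ s v)) v :=
  Complex.ofRealCLM.hasFDerivAt.comp v hs.hasFDerivAt

private theorem ig_comb (a s : ℝ) (f g : ℂ) :
    ‖(a : ℂ) * f + (s : ℂ) * g‖ ^ 2 =
      s ^ 2 * ‖g‖ ^ 2 + a ^ 2 * ‖f‖ ^ 2 + (a * s) * (2 * (f.re * g.re + f.im * g.im)) := by
  rw [← Complex.normSq_eq_norm_sq, ← Complex.normSq_eq_norm_sq, ← Complex.normSq_eq_norm_sq,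
    Complex.normSq_apply, Complex.normSq_apply, Complex.normSq_apply]
  simp only [Complex.add_re, Complex.add_im, Complex.mul_re, Complex.mul_im, Complex.ofReal_re,
    Complex.ofReal_im]
  ring

/-- the localisation formula with a constant -/
private theorem ig_g3 {ι : Type*} (I : Finset ι) (s : ι → E3 → ℝ) (f : E3 → ℂ) (v : E3) (c : ℝ)
    (hs : ∀ i ∈ I, DifferentiableAt ℝ (s i) v) (hf : DifferentiableAt ℝ f v)
    (h1 : ∀ u, ∑ i ∈ I, s i u ^ 2 = c) :
    ∑ i ∈ I, g3 (fun u => ((s i u : ℝ) : ℂ) * f u) v =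
      c * g3 f v + (∑ i ∈ I, gr (s i) v) * ‖f v‖ ^ 2 := by
  have hd : ∀ i ∈ I, ∀ e : E3, fderiv ℝ (fun u => ((s i u : ℝ) : ℂ) * f u) v e =
      ((fderiv ℝ (s i) v e : ℝ) : ℂ) * f v + ((s i v : ℝ) : ℂ) * fderiv ℝ f v e := by
    intro i hi e
    have h2 := (ig_deriv (s i) v (hs i hi)).mul hf.hasFDerivAt
    have h3 : HasFDerivAt (fun u => ((s i u : ℝ) : ℂ) * f u) _ v := h2
    rw [h3.fderiv]
    simp only [ContinuousLinearMap.add_apply, ContinuousLinearMap.smul_apply, smul_eq_mul,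
      ContinuousLinearMap.comp_apply, Complex.ofRealCLM_apply]
    ring
  have h0 : ∀ e : E3, ∑ i ∈ I, fderiv ℝ (s i) v e * s i v = 0 := by
    intro e
    have h2 : HasFDerivAt (fun u => ∑ i ∈ I, s i u ^ 2)
        (∑ i ∈ I, ((2 : ℕ) • s i v ^ (2 - 1)) • fderiv ℝ (s i) v) v :=
      HasFDerivAt.fun_sum fun i hi => (hs i hi).hasFDerivAt.pow 2
    have h3 : HasFDerivAt (fun u : E3 => ∑ i ∈ I, s i u ^ 2) (0 : E3 →L[ℝ] ℝ) v := by
      have : (fun u : E3 => ∑ i ∈ I, s i u ^ 2) = fun _ => c := funext h1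
      rw [this]
      exact hasFDerivAt_const c v
    have h4 := h2.unique h3
    have h5 := congrArg (fun L : E3 →L[ℝ] ℝ => L e) h4
    simp only [ContinuousLinearMap.sum_apply, ContinuousLinearMap.smul_apply, smul_eq_mul,
      ContinuousLinearMap.zero_apply, nsmul_eq_mul, Nat.cast_ofNat, pow_one,
      Nat.add_one_sub_one, Nat.reduceSub] at h5
    have h6 : ∑ i ∈ I, 2 * s i v * fderiv ℝ (s i) v e =
        2 * ∑ i ∈ I, fderiv ℝ (s i) v e * s i v := by
      rw [mul_sum]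
      exact sum_congr rfl fun i _ => by ring
    rw [h6] at h5
    linarith
  unfold g3 gr
  rw [sum_comm, sum_comm (s := I) (t := univ), sum_mul, mul_sum, ← sum_add_distrib]
  refine sum_congr rfl fun d _ => ?_
  rw [sum_congr rfl fun i hi => by rw [hd i hi, ig_comb], sum_add_distrib, sum_add_distrib,
    ← sum_mul, ← sum_mul, ← sum_mul, h0, h1 v]
  ring

private theorem ig_upE {n k : ℕ} {α : Type*} [NormedAddCommGroup α] [NormedSpace ℝ α] (F : Cfg n k → α)
    (hF : Differentiable ℝ F) (q : Cfg n k) (b : Fin n) (v : E3) :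
    DifferentiableAt ℝ (fun v => F (Function.update q.1 b v, q.2)) v := by
  have h1 : DifferentiableAt ℝ (fun v : E3 => ((Function.update q.1 b v, q.2) : Cfg n k)) v :=
    ((hasFDerivAt_update q.1 v).differentiableAt).prodMk (differentiableAt_const _)
  exact (hF _).comp v h1

private theorem ig_upN {n k : ℕ} {α : Type*} [NormedAddCommGroup α] [NormedSpace ℝ α] (F : Cfg n k → α)
    (hF : Differentiable ℝ F) (q : Cfg n k) (b : Fin k) (v : E3) :
    DifferentiableAt ℝ (fun v => F (q.1, Function.update q.2 b v)) v := by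
  have h1 : DifferentiableAt ℝ (fun v : E3 => ((q.1, Function.update q.2 b v) : Cfg n k)) v :=
    (differentiableAt_const _).prodMk ((hasFDerivAt_update q.2 v).differentiableAt)
  exact (hF _).comp v h1

private theorem ig_contE {n k : ℕ} {f : Cfg n k → ℝ} (hf : ContDiff ℝ (⊤ : ℕ∞) f) (a : Fin n) :
    Continuous (fun p : Cfg n k => gr (fun v => f (Function.update p.1 a v, p.2)) (p.1 a)) := by
  have h1 : ContDiff ℝ 1 (fun p => ((f p : ℝ) : ℂ) * 1) := by
    have h2 : ContDiff ℝ (⊤ : ℕ∞) (fun p => ((f p : ℝ) : ℂ) * 1) :=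
      (Complex.ofRealCLM.contDiff.comp hf).mul contDiff_const
    exact h2.of_le (by exact_mod_cast le_top)
  have h3 := ge_cont (fun p => ((f p : ℝ) : ℂ) * 1) h1 a
  have h4 : ge (fun p => ((f p : ℝ) : ℂ) * 1) a =
      fun p : Cfg n k => gr (fun v => f (Function.update p.1 a v, p.2)) (p.1 a) := by
    funext p
    have h5 := g3_real_mul (fun v => f (Function.update p.1 a v, p.2)) 1 (p.1 a)
      (ig_upE f (hf.differentiable (by simp)) p a (p.1 a))
    rw [norm_one, one_pow, mul_one] at h5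
    exact h5
  rw [h4] at h3
  exact h3

private theorem ig_contN {n k : ℕ} {f : Cfg n k → ℝ} (hf : ContDiff ℝ (⊤ : ℕ∞) f) (j : Fin k) :
    Continuous (fun p : Cfg n k => gr (fun v => f (p.1, Function.update p.2 j v)) (p.2 j)) := by
  have h1 : ContDiff ℝ 1 (fun p => ((f p : ℝ) : ℂ) * 1) := by
    have h2 : ContDiff ℝ (⊤ : ℕ∞) (fun p => ((f p : ℝ) : ℂ) * 1) :=
      (Complex.ofRealCLM.contDiff.comp hf).mul contDiff_const
    exact h2.of_le (by exact_mod_cast le_top)
  have h3 := gn_cont (fun p => ((f p : ℝ) : ℂ) * 1) h1 j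
  have h4 : gn (fun p => ((f p : ℝ) : ℂ) * 1) j =
      fun p : Cfg n k => gr (fun v => f (p.1, Function.update p.2 j v)) (p.2 j) := by
    funext p
    have h5 := g3_real_mul (fun v => f (p.1, Function.update p.2 j v)) 1 (p.2 j)
      (ig_upN f (hf.differentiable (by simp)) p j (p.2 j))
    rw [norm_one, one_pow, mul_one] at h5
    exact h5
  rw [h4] at h3
  exact h3

/-- `Gm` of a smooth function is continuous -/
theorem Gm_cont {n k : ℕ} (κ : Fin k → ℝ) {f : Cfg n k → ℝ} (hf : ContDiff ℝ (⊤ : ℕ∞) f) :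
    Continuous (Gm κ f) := by
  unfold Gm
  exact (continuous_finsetSum _ fun a _ => ig_contE hf a).add
    (continuous_finsetSum _ fun j _ => (ig_contN hf j).const_mul _)

theorem Gm_nonneg {n k : ℕ} {κ : Fin k → ℝ} (hκ : ∀ j, 0 ≤ κ j) (f : Cfg n k → ℝ)
    (p : Cfg n k) : 0 ≤ Gm κ f p := by
  unfold Gm
  exact add_nonneg (sum_nonneg fun a _ => gr_nonneg _ _)
    (sum_nonneg fun j _ => mul_nonneg (hκ j) (gr_nonneg _ _))

private theorem ig_kE {q n k : ℕ} {Λ : Set E3} {ψ : (Fin n → Fin q) → Cfg n k → ℂ}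
    (hψ : Sm q n k Λ ψ) {ι : Type} [Fintype ι] (g : ι → Cfg n k → ℝ)
    (hg : ∀ i, ContDiff ℝ (⊤ : ℕ∞) (g i)) (c : ℝ) (hc : ∀ p, ∑ i, g i p ^ 2 = c) (a : Fin n) :
    ∑ i, kE (mf (g i) ψ) a = c * kE ψ a +
      mean ψ (fun p => ∑ i, gr (fun v => g i (Function.update p.1 a v, p.2)) (p.1 a)) := by
  unfold kE mean
  rw [sum_comm, mul_sum, ← sum_add_distrib]
  refine sum_congr rfl fun σ _ => ?_
  have hi1 : ∀ i ∈ (univ : Finset ι), Integrable (ge (mf (g i) ψ σ) a) := fun i _ =>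
    kE_int (mf_sm hψ (hg i)) σ a
  have hi2 : Integrable (ge (ψ σ) a) := kE_int hψ σ a
  have hi3 : Integrable (fun p => (∑ i, gr (fun v => g i (Function.update p.1 a v, p.2)) (p.1 a)) *
      ‖ψ σ p‖ ^ 2) := (IM.cont hψ (continuous_finsetSum _ fun i _ => ig_contE (hg i) a)) σ
  rw [← integral_finsetSum _ hi1, ← integral_const_mul, ← integral_add (hi2.const_mul c) hi3]
  congr 1
  funext p
  have h1 := ig_g3 (univ : Finset ι) (fun i u => g i (Function.update p.1 a u, p.2))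
    (fun u => ψ σ (Function.update p.1 a u, p.2)) (p.1 a) c
    (fun i _ => ig_upE (g i) ((hg i).differentiable (by simp)) p a (p.1 a))
    (ig_upE (ψ σ) ((hψ.smooth σ).differentiable (by simp)) p a (p.1 a)) (fun u => hc _)
  simp only [Function.update_eq_self] at h1
  exact h1

private theorem ig_kN {q n k : ℕ} {Λ : Set E3} {ψ : (Fin n → Fin q) → Cfg n k → ℂ}
    (hψ : Sm q n k Λ ψ) {ι : Type} [Fintype ι] (g : ι → Cfg n k → ℝ)
    (hg : ∀ i, ContDiff ℝ (⊤ : ℕ∞) (g i)) (c : ℝ) (hc : ∀ p, ∑ i, g i p ^ 2 = c) (j : Fin k) :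
    ∑ i, kN (mf (g i) ψ) j = c * kN ψ j +
      mean ψ (fun p => ∑ i, gr (fun v => g i (p.1, Function.update p.2 j v)) (p.2 j)) := by
  unfold kN mean
  rw [sum_comm, mul_sum, ← sum_add_distrib]
  refine sum_congr rfl fun σ _ => ?_
  have hi1 : ∀ i ∈ (univ : Finset ι), Integrable (gn (mf (g i) ψ σ) j) := fun i _ =>
    kN_int (mf_sm hψ (hg i)) σ j
  have hi2 : Integrable (gn (ψ σ) j) := kN_int hψ σ j
  have hi3 : Integrable (fun p => (∑ i, gr (fun v => g i (p.1, Function.update p.2 j v)) (p.2 j)) *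
      ‖ψ σ p‖ ^ 2) := (IM.cont hψ (continuous_finsetSum _ fun i _ => ig_contN (hg i) j)) σ
  rw [← integral_finsetSum _ hi1, ← integral_const_mul, ← integral_add (hi2.const_mul c) hi3]
  congr 1
  funext p
  have h1 := ig_g3 (univ : Finset ι) (fun i u => g i (p.1, Function.update p.2 j u))
    (fun u => ψ σ (p.1, Function.update p.2 j u)) (p.2 j) c
    (fun i _ => ig_upN (g i) ((hg i).differentiable (by simp)) p j (p.2 j))
    (ig_upN (ψ σ) ((hψ.smooth σ).differentiable (by simp)) p j (p.2 j)) (fun u => hc _)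
  simp only [Function.update_eq_self] at h1
  exact h1

theorem ims_gen {q n k : ℕ} {Λ : Set E3} {ψ : (Fin n → Fin q) → Cfg n k → ℂ}
    (hψ : Sm q n k Λ ψ) (z κ : Fin k → ℝ) {ι : Type} [Fintype ι] (g : ι → Cfg n k → ℝ)
    (hg : ∀ i, ContDiff ℝ (⊤ : ℕ∞) (g i)) (c : ℝ) (hc : ∀ p, ∑ i, g i p ^ 2 = c) :
    ∑ i, energy z κ (mf (g i) ψ) =
      c * energy z κ ψ + mean ψ (fun p => ∑ i, Gm κ (g i) p) := by
  have hV : ∑ i, mean (mf (g i) ψ) (V z) = c * mean ψ (V z) := by
    simp only [mean_mf]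
    rw [← mean_sum univ fun i _ => IM_mf.1 (IM_V (mf_sm hψ (hg i)) z), ← mean_cmul]
    congr 1
    funext p
    rw [← sum_mul, hc]
  have hIE : ∀ a : Fin n, IM ψ (fun p => ∑ i, gr (fun v => g i (Function.update p.1 a v, p.2)) (p.1 a)) :=
    fun a => IM.cont hψ (continuous_finsetSum _ fun i _ => ig_contE (hg i) a)
  have hIN : ∀ j : Fin k, IM ψ (fun p => κ j * ∑ i, gr (fun v => g i (p.1, Function.update p.2 j v)) (p.2 j)) :=
    fun j => (IM.cont hψ (continuous_finsetSum _ fun i _ => ig_contN (hg i) j)).cmul (κ j)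
  have hG : mean ψ (fun p => ∑ i, Gm κ (g i) p) =
      ∑ a, mean ψ (fun p => ∑ i, gr (fun v => g i (Function.update p.1 a v, p.2)) (p.1 a)) +
      ∑ j, κ j * mean ψ (fun p => ∑ i, gr (fun v => g i (p.1, Function.update p.2 j v)) (p.2 j)) := by
    have h1 : (fun p => ∑ i, Gm κ (g i) p) = fun p =>
        (∑ a, ∑ i, gr (fun v => g i (Function.update p.1 a v, p.2)) (p.1 a)) +
        ∑ j, κ j * ∑ i, gr (fun v => g i (p.1, Function.update p.2 j v)) (p.2 j) := by
      funext p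
      unfold Gm
      rw [sum_add_distrib, sum_comm]
      congr 1
      rw [sum_comm]
      exact sum_congr rfl fun j _ => (mul_sum _ _ _).symm
    rw [h1, mean_add (IM.sum _ fun a _ => hIE a) (IM.sum _ fun j _ => hIN j),
      mean_sum _ fun a _ => hIE a, mean_sum _ fun j _ => hIN j]
    congr 1
    exact sum_congr rfl fun j _ => mean_cmul _ _
  unfold energy
  rw [sum_add_distrib, sum_add_distrib, hV, hG, sum_comm,
    sum_congr rfl fun a _ => ig_kE hψ g hg c hc a, sum_comm (s := (univ : Finset ι)) (t := (univ : Finset (Fin k)))]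
  have h2 : ∑ j, ∑ i, κ j * kN (mf (g i) ψ) j = ∑ j, (c * (κ j * kN ψ j) +
      κ j * mean ψ (fun p => ∑ i, gr (fun v => g i (p.1, Function.update p.2 j v)) (p.2 j))) := by
    refine sum_congr rfl fun j _ => ?_
    rw [← mul_sum, ig_kN hψ g hg c hc j]
    ring
  rw [h2, sum_add_distrib, sum_add_distrib, ← mul_sum, ← mul_sum]
  ring

end H6.CB
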