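import Pool.Agent.H6.CB.GlF
import Pool.Agent.H6.CB.ImsG
import Pool.Agent.H6.CM.BumpEx

/-! The smooth count and the sector amplitudes. `Jc θ x r v = 1 - θ (r⁻¹ • (v - x))` is smooth, with values in `[0, 1]`, `1` for `‖v - x‖ ≤ r`, `0` for `2 r ≤ ‖v - x‖`, and `gr (Jc θ x r) v ≤ C (r ^ 2)⁻¹` (`Cut.grad`, scaling). `mm = ∑ Jc ^ 2`, `|∇_a mm|² = 4 Jc ^ 2 |∇ Jc|² ≤ C Jc ^ 2`, so `Gm κ (Gs θ x l) p = gl' (mm) ^ 2 * ∑ |∇_a mm|² ≤ C 64 ^ (-2l) gl * C mm` and `mm < 64 ^ (l+1)` where `gl ≠ 0`. `mm ≤ n ≤ 8 * 64 ^ n` for `Gs_sum_ge`. -/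

open MeasureTheory Finset

namespace H6.CB

open H6.CM

section J

variable {θ : E3 → ℝ} (h : Cut θ)
include h

theorem Jc_smooth (x : E3) (r : ℝ) : ContDiff ℝ (⊤ : ℕ∞) (Jc θ x r) := by
  unfold Jc
  exact contDiff_const.sub (h.smooth.comp ((contDiff_id.sub contDiff_const).const_smul r⁻¹))

theorem Jc_mem (x : E3) (r : ℝ) (v : E3) : 0 ≤ Jc θ x r v ∧ Jc θ x r v ≤ 1 := by
  unfold Jc
  have h1 := h.nonneg (r⁻¹ • (v - x))
  have h2 := h.le_one (r⁻¹ • (v - x))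
  constructor <;> linarith

omit h in
private theorem mmf_norm (x : E3) (r : ℝ) (hr : 0 < r) (v : E3) :
    ‖r⁻¹ • (v - x)‖ = ‖v - x‖ / r := by
  rw [norm_smul, Real.norm_eq_abs, abs_of_pos (inv_pos.mpr hr), inv_mul_eq_div]

theorem Jc_one (x : E3) (r : ℝ) (hr : 0 < r) (v : E3) (hv : ‖v - x‖ ≤ r) : Jc θ x r v = 1 := by
  unfold Jc
  rw [h.zero _ (by rw [mmf_norm x r hr v, div_le_one hr]; exact hv), sub_zero]

theorem Jc_zero (x : E3) (r : ℝ) (hr : 0 < r) (v : E3) (hv : 2 * r ≤ ‖v - x‖) :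
    Jc θ x r v = 0 := by
  unfold Jc
  rw [h.one _ (by rw [mmf_norm x r hr v, le_div_iff₀ hr]; exact hv), sub_self]

private theorem mmf_fz (w : E3) (hw : 2 ≤ ‖w‖) : fderiv ℝ θ w = 0 := by
  have hmax : IsLocalMax θ w := Filter.Eventually.of_forall fun u => by
    show θ u ≤ θ w
    rw [h.one w hw]
    exact h.le_one u
  exact hmax.fderiv_eq_zero

private theorem mmf_fd (x : E3) (r : ℝ) (v : E3) :
    HasFDerivAt (Jc θ x r) (-(r⁻¹ • fderiv ℝ θ (r⁻¹ • (v - x)))) v := by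
  have h1 : HasFDerivAt (fun v : E3 => r⁻¹ • (v - x))
      (r⁻¹ • ContinuousLinearMap.id ℝ E3) v :=
    ((hasFDerivAt_id v).sub_const x).const_smul r⁻¹
  have h2 : HasFDerivAt θ (fderiv ℝ θ (r⁻¹ • (v - x))) (r⁻¹ • (v - x)) :=
    (h.smooth.differentiable (by simp) _).hasFDerivAt
  have h3 : HasFDerivAt (fun v => θ (r⁻¹ • (v - x)))
      ((fderiv ℝ θ (r⁻¹ • (v - x))).comp (r⁻¹ • ContinuousLinearMap.id ℝ E3)) v := h2.comp v h1
  have h4 : (fderiv ℝ θ (r⁻¹ • (v - x))).comp (r⁻¹ • ContinuousLinearMap.id ℝ E3) =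
      r⁻¹ • fderiv ℝ θ (r⁻¹ • (v - x)) := by
    refine ContinuousLinearMap.ext fun e => ?_
    simp
  rw [h4] at h3
  exact h3.const_sub 1

theorem Jc_grad : ∃ C : ℝ, 0 ≤ C ∧ ∀ (x : E3) (r : ℝ) (_ : 0 < r) (v : E3),
    gr (Jc θ x r) v ≤ C * (r ^ 2)⁻¹ * (if ‖v - x‖ < 2 * r then 1 else 0) := by
  obtain ⟨C, hC, hg⟩ := h.grad
  refine ⟨C, hC, fun x r hr v => ?_⟩
  have h1 : gr (Jc θ x r) v = (r ^ 2)⁻¹ * gr θ (r⁻¹ • (v - x)) := by
    unfold gr
    rw [mul_sum]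
    refine sum_congr rfl fun d _ => ?_
    rw [(mmf_fd h x r v).fderiv]
    simp only [neg_apply, smul_apply, smul_eq_mul]
    rw [neg_sq, mul_pow, inv_pow]
  rw [h1]
  have hr2 : 0 ≤ (r ^ 2)⁻¹ := by positivity
  split_ifs with hx
  · rw [mul_one, mul_comm]
    exact mul_le_mul_of_nonneg_right (hg _).1 hr2
  · have h2 : gr θ (r⁻¹ • (v - x)) = 0 := by
      unfold gr
      rw [mmf_fz h _ (by
        rw [mmf_norm x r hr v, le_div_iff₀ hr]
        exact not_lt.mp hx)]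
      simp
    rw [h2, mul_zero, mul_zero]

/-- `Jc` is Lipschitz -/
theorem Jc_lip : ∃ C : ℝ, 0 ≤ C ∧ ∀ (x : E3) (r : ℝ) (_ : 0 < r) (u v : E3),
    |Jc θ x r u - Jc θ x r v| ≤ C * r⁻¹ * ‖u - v‖ := by
  have hcont : Continuous (fderiv ℝ θ) := h.smooth.continuous_fderiv (by simp)
  have hcpt : HasCompactSupport (fderiv ℝ θ) := by
    refine HasCompactSupport.intro (isCompact_closedBall (0 : E3) 2) fun v hv => ?_
    refine mmf_fz h v ?_
    rw [Metric.mem_closedBall, dist_zero_right, not_le] at hv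
    exact hv.le
  obtain ⟨C, hC⟩ := hcont.bounded_above_of_compact_support hcpt
  refine ⟨C, (norm_nonneg _).trans (hC 0), fun x r hr u v => ?_⟩
  have h1 := Convex.norm_image_sub_le_of_norm_fderiv_le (𝕜 := ℝ) (f := θ) (C := C)
    (s := Set.univ) (x := r⁻¹ • (u - x)) (y := r⁻¹ • (v - x))
    (fun w _ => h.smooth.differentiable (by simp) w) (fun w _ => hC w) convex_univ
    (Set.mem_univ _) (Set.mem_univ _)
  have h2 : r⁻¹ • (v - x) - r⁻¹ • (u - x) = r⁻¹ • (v - u) := by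
    rw [← smul_sub]
    congr 1
    abel
  rw [h2, norm_smul, Real.norm_eq_abs, Real.norm_eq_abs, abs_of_pos (inv_pos.mpr hr),
    norm_sub_rev v u, ← mul_assoc] at h1
  have h3 : Jc θ x r u - Jc θ x r v = θ (r⁻¹ • (v - x)) - θ (r⁻¹ • (u - x)) := by
    unfold Jc
    ring
  rw [h3]
  exact h1

end J

section m

variable {θ : E3 → ℝ} (h : Cut θ) {n k : ℕ}
include h

theorem mm_smooth (x : E3) : ContDiff ℝ (⊤ : ℕ∞) (mm (n := n) (k := k) θ x) := by
  unfold mm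
  refine ContDiff.sum fun a _ => ?_
  refine ContDiff.pow ?_ 2
  exact (Jc_smooth h x 32).comp ((contDiff_apply ℝ E3 a).comp contDiff_fst)

omit h in
theorem mm_sy (x : E3) : Sy (mm (n := n) (k := k) θ x) := by
  intro π p
  unfold mm
  exact Equiv.sum_comp π (fun a => Jc θ x 32 (p.1 a) ^ 2)

theorem mm_lo (x : E3) (p : Cfg n k) : ce p x 32 ≤ mm θ x p := by
  unfold ce mm
  refine sum_le_sum fun a _ => ?_
  split_ifs with hx
  · rw [Jc_one h x 32 (by norm_num) _ hx.le]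
    norm_num
  · exact sq_nonneg _

theorem mm_hi (x : E3) (p : Cfg n k) : mm θ x p ≤ ce p x 64 := by
  unfold ce mm
  refine sum_le_sum fun a _ => ?_
  split_ifs with hx
  · obtain ⟨h1, h2⟩ := Jc_mem h x 32 (p.1 a)
    exact pow_le_one₀ h1 h2
  · rw [Jc_zero h x 32 (by norm_num) _ (by linarith [not_lt.mp hx])]
    norm_num

theorem Gs_smooth (x : E3) (l : ℕ) : ContDiff ℝ (⊤ : ℕ∞) (Gs (n := n) (k := k) θ x l) :=
  (gl_smooth l).comp (mm_smooth h x)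

omit h in
theorem Gs_sy (x : E3) (l : ℕ) : Sy (Gs (n := n) (k := k) θ x l) := by
  intro π p
  unfold Gs
  rw [mm_sy x π p]

omit h in
theorem Gs_mem (x : E3) (l : ℕ) (p : Cfg n k) : 0 ≤ Gs θ x l p ∧ Gs θ x l p ≤ 1 :=
  ⟨gl_nonneg l _, gl_le_one l _⟩

omit h in
private theorem mmf_mm0 (x : E3) (p : Cfg n k) : 0 ≤ mm θ x p :=
  sum_nonneg fun _ _ => sq_nonneg _

theorem Gs_sum_ge (x : E3) (p : Cfg n k) : 1 ≤ ∑ l ∈ range (n + 1), Gs θ x l p ^ 2 := by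
  unfold Gs
  refine gl_ge n _ (mmf_mm0 x p) ?_
  refine (mm_hi h x p).trans ?_
  have h1 : ce p x 64 ≤ n := by
    unfold ce
    calc ∑ a : Fin n, (if ‖p.1 a - x‖ < 64 then (1 : ℝ) else 0) ≤ ∑ _a : Fin n, (1 : ℝ) := by
          refine sum_le_sum fun a _ => ?_
          split_ifs <;> norm_num
      _ = n := by simp
  refine h1.trans ?_
  have h2 : (n : ℝ) ≤ 64 ^ n := by
    have h3 : n < 64 ^ n := Nat.lt_pow_self (by norm_num)
    exact_mod_cast h3.le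
  have h4 : (0 : ℝ) ≤ 64 ^ n := by positivity
  linarith

omit h in
theorem Gs_sum_le (x : E3) (p : Cfg n k) (L : ℕ) : ∑ l ∈ range (L + 1), Gs θ x l p ≤ 3 :=
  gl_sum L _

end m

theorem Gs_grad {θ : E3 → ℝ} (h : Cut θ) : ∃ C : ℝ, 0 ≤ C ∧ ∀ (n k : ℕ) (κ : Fin k → ℝ) (x : E3)
    (l : ℕ) (p : Cfg n k), Gm κ (Gs θ x l) p ≤ C * ((64 : ℝ) ^ l)⁻¹ * Gs θ x l p := by
  obtain ⟨C1, hC1, hJ⟩ := Jc_grad h
  obtain ⟨C2, hC2, hgl⟩ := gl_deriv
  refine ⟨C1 * C2 / 4, by positivity, fun n k κ x l p => ?_⟩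
  obtain ⟨D, hD⟩ : ∃ D : ℝ, D = deriv (gl l) (mm θ x p) := ⟨_, rfl⟩
  have hD2 : D ^ 2 ≤ C2 * (((64 : ℝ) ^ l) ^ 2)⁻¹ * Gs θ x l p := by
    rw [hD]
    exact hgl l (mm θ x p)
  have hG0 : 0 ≤ Gs θ x l p := (Gs_mem x l p).1
  have hmm0 : 0 ≤ mm θ x p := mmf_mm0 x p
  -- the electrons
  have hel : ∀ a : Fin n, gr (fun v => Gs θ x l (Function.update p.1 a v, p.2)) (p.1 a) ≤
      D ^ 2 * (C1 / 256 * Jc θ x 32 (p.1 a) ^ 2) := by
    intro a
    obtain ⟨S, hS⟩ : ∃ S : ℝ, S = ∑ b ∈ univ.erase a, Jc θ x 32 (p.1 b) ^ 2 := ⟨_, rfl⟩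
    have e1 : ∀ v, mm θ x ((Function.update p.1 a v, p.2) : Cfg n k) = S + Jc θ x 32 v ^ 2 := by
      intro v
      unfold mm
      rw [hS, ← Finset.sum_erase_add univ _ (mem_univ a)]
      simp only [Function.update_self]
      congr 1
      refine sum_congr rfl fun b hb => ?_
      rw [Function.update_of_ne (mem_erase.1 hb).1]
    have e2 : mm θ x p = S + Jc θ x 32 (p.1 a) ^ 2 := by
      have := e1 (p.1 a)
      rwa [Function.update_eq_self] at this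
    have e3 : (fun v => Gs θ x l ((Function.update p.1 a v, p.2) : Cfg n k)) =
        fun v => gl l (S + Jc θ x 32 v ^ 2) := by
      funext v
      unfold Gs
      rw [e1]
    rw [e3]
    have d1 : HasFDerivAt (Jc θ x 32) (fderiv ℝ (Jc θ x 32) (p.1 a)) (p.1 a) :=
      ((Jc_smooth h x 32).differentiable (by simp) _).hasFDerivAt
    have d2 : HasFDerivAt (fun v => S + Jc θ x 32 v ^ 2)
        ((2 * Jc θ x 32 (p.1 a)) • fderiv ℝ (Jc θ x 32) (p.1 a)) (p.1 a) := by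
      have := (d1.pow 2).const_add S
      simpa using this
    have d3 : HasDerivAt (gl l) D (S + Jc θ x 32 (p.1 a) ^ 2) := by
      rw [hD, e2]
      exact ((gl_smooth l).differentiable (by simp) _).hasDerivAt
    have d4 : HasFDerivAt (fun v => gl l (S + Jc θ x 32 v ^ 2))
        (D • ((2 * Jc θ x 32 (p.1 a)) • fderiv ℝ (Jc θ x 32) (p.1 a))) (p.1 a) := by
      have d5 := d3.comp_hasFDerivAt (p.1 a) d2
      exact d5
    have e4 : gr (fun v => gl l (S + Jc θ x 32 v ^ 2)) (p.1 a) =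
        D ^ 2 * (4 * Jc θ x 32 (p.1 a) ^ 2 * gr (Jc θ x 32) (p.1 a)) := by
      unfold gr
      rw [mul_sum, mul_sum]
      refine sum_congr rfl fun d _ => ?_
      rw [d4.fderiv]
      simp only [smul_apply, smul_eq_mul]
      ring
    rw [e4]
    refine mul_le_mul_of_nonneg_left ?_ (sq_nonneg D)
    have e5 := hJ x 32 (by norm_num) (p.1 a)
    have e6 : gr (Jc θ x 32) (p.1 a) ≤ C1 / 1024 := by
      refine e5.trans ?_
      split_ifs
      · norm_num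
        linarith
      · rw [mul_zero]
        positivity
    have e7 : 0 ≤ Jc θ x 32 (p.1 a) ^ 2 := sq_nonneg _
    nlinarith
  -- the nuclei
  have hnu : ∀ j : Fin k, gr (fun v => Gs θ x l (p.1, Function.update p.2 j v)) (p.2 j) = 0 := by
    intro j
    have e3 : (fun v => Gs θ x l ((p.1, Function.update p.2 j v) : Cfg n k)) =
        fun _ => Gs θ x l p := by
      funext v
      rfl
    rw [e3]
    unfold gr
    refine sum_eq_zero fun d _ => ?_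
    simp
  have hsum : Gm κ (Gs θ x l) p ≤ D ^ 2 * (C1 / 256 * mm θ x p) := by
    unfold Gm
    have e1 : ∑ j, κ j * gr (fun v => Gs θ x l (p.1, Function.update p.2 j v)) (p.2 j) = 0 :=
      sum_eq_zero fun j _ => by rw [hnu j, mul_zero]
    rw [e1, add_zero]
    refine (sum_le_sum fun a _ => hel a).trans (le_of_eq ?_)
    unfold mm
    rw [mul_sum, mul_sum]
  refine hsum.trans ?_
  by_cases hz : Gs θ x l p = 0
  · rw [hz, mul_zero] at hD2
    have hDz : D ^ 2 = 0 := le_antisymm hD2 (sq_nonneg D)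
    rw [hDz, hz, zero_mul, mul_zero]
  · have hlt : mm θ x p < 64 ^ (l + 1) := gl_hi l _ hz
    have hp : (0 : ℝ) < 64 ^ l := by positivity
    calc D ^ 2 * (C1 / 256 * mm θ x p)
        ≤ (C2 * (((64 : ℝ) ^ l) ^ 2)⁻¹ * Gs θ x l p) * (C1 / 256 * 64 ^ (l + 1)) := by
          gcongr
      _ = C1 * C2 / 4 * ((64 : ℝ) ^ l)⁻¹ * Gs θ x l p := by
          rw [pow_succ]
          field_simp
          ring

end H6.CB
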