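import Pool.Agent.H6.CB.CombJ
import Pool.Agent.H6.CB.MmF
import Pool.Agent.H6.CM.FdL

/-! The weighted electrostatic inequality (compare `Pool/Agent/H6/CM/Bax.lean`). Let `J = Jc θ x 1`, Lipschitz with constant `L` (`Jc_lip`), values in `[0, 1]`. For `u : ℝ × E3` (radius and centre) apply `combJ` with `t a = J (x a) * bx (x a) u`, `s j = J (R j) * bx (R j) u`, `τ` the maximum of all these numbers, `m = 1` if some `s j ≠ 0`, else `m = 0`; if `bx (x a) u = 1` then `τ ≤ min 1 (J (x a) + 2 L u.1)`, and if moreover `m = 1` then `D a / 2 < u.1`, where `D a` is the distance of `x a` to the nearest nucleus. Multiply by `(u.1 ^ 5)⁻¹` and integrate over `u` (`fdl`): `c * VJ ≥ - C ∑ a, J (x a) ∫ (u.1 ^ 5)⁻¹ bx (x a) u * min 1 (J (x a) + 2 L u.1) * 1[D a / 2 < u.1]`, and the integral is at most `C (J (x a) * (D a)⁻¹ + 1 + log⁺ (1 / D a))` (`fdl_one`, or polar form `∫ r > D/2, r⁻² min 1 (2 L r)`), finally `t log⁺ (1 / D) ≤ t ^ 2 /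 D + 1` for `0 ≤ t ≤ 1`, and `J (x a) ≠ 0` only for `‖x a - x‖ < 2`. If there are no nuclei the left side is nonpositive and `VJ ≥ 0`. A simple way to avoid the logarithm: `min 1 (J + 2 L r) ≤ J + min 1 (2 L r)` and `min 1 (2 L r) ≤ (2 L r) ^ (1/2)`, which gives `J (x a) * (D a) ^ (-1/2) ≤ J (x a) ^ 2 / D a + 1`. -/

open MeasureTheory Finset

namespace H6.CB

open H6.CM

/-! ### the integral with the weight `√ r` -/

private theorem bx_meas (x : E3) : Measurable (bx x) := by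
  unfold bx
  exact Measurable.ite (measurableSet_lt (by fun_prop) measurable_fst) measurable_const
    measurable_const

private theorem bx01 (x : E3) (u : ℝ × E3) : bx x u = 0 ∨ bx x u = 1 := by
  unfold bx
  split_ifs
  · right; rfl
  · left; rfl

private theorem bx_nonneg (x : E3) (u : ℝ × E3) : 0 ≤ bx x u := by
  unfold bx
  split_ifs <;> norm_num

private theorem bx_neg (x : E3) (u : ℝ × E3) (h : u.1 ≤ 0) : bx x u = 0 := by
  unfold bx
  rw [if_neg]
  have := norm_nonneg (x - u.2)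
  linarith

private theorem bx_one (x : E3) (u : ℝ × E3) (h : bx x u = 1) : ‖x - u.2‖ < u.1 := by
  by_contra h1
  unfold bx at h
  rw [if_neg h1] at h
  exact zero_ne_one h

private theorem h_meas (x : E3) (D : ℝ) : Measurable fun u : ℝ × E3 =>
    (u.1 ^ 5)⁻¹ * (bx x u * (if D / 2 < u.1 then Real.sqrt u.1 else 0)) := by
  have h1 : Measurable fun u : ℝ × E3 => (u.1 ^ 5)⁻¹ := (measurable_fst.pow_const 5).inv
  have h2 : Measurable fun u : ℝ × E3 => (if D / 2 < u.1 then Real.sqrt u.1 else 0) :=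
    Measurable.ite (measurableSet_lt measurable_const measurable_fst)
      (Real.continuous_sqrt.measurable.comp measurable_fst) measurable_const
  exact h1.mul ((bx_meas x).mul h2)

private theorem h_nonneg (x : E3) (D : ℝ) (u : ℝ × E3) :
    0 ≤ (u.1 ^ 5)⁻¹ * (bx x u * (if D / 2 < u.1 then Real.sqrt u.1 else 0)) := by
  rcases le_or_gt u.1 0 with h | h
  · rw [bx_neg x u h]
    simp
  · have h1 : (0 : ℝ) ≤ if D / 2 < u.1 then Real.sqrt u.1 else 0 := by
      split_ifs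
      · exact Real.sqrt_nonneg _
      · exact le_refl _
    exact mul_nonneg (inv_nonneg.mpr (pow_nonneg h.le 5)) (mul_nonneg (bx_nonneg x u) h1)

private theorem half_int (a : ℝ) (ha : 0 < a) :
    ∫⁻ r in Set.Ioi a, ENNReal.ofReal ((r ^ 2)⁻¹ * Real.sqrt r) =
      ENNReal.ofReal (2 * (Real.sqrt a)⁻¹) := by
  have h1 : ∀ r ∈ Set.Ioi a, (r ^ 2)⁻¹ * Real.sqrt r = r ^ (-(3 / 2) : ℝ) := by
    intro r hr
    have hr0 : 0 < r := lt_trans ha hr
    rw [Real.sqrt_eq_rpow, ← Real.rpow_natCast, ← Real.rpow_neg hr0.le, ← Real.rpow_add hr0]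
    norm_num
  have hi : IntegrableOn (fun r : ℝ => (r ^ 2)⁻¹ * Real.sqrt r) (Set.Ioi a) :=
    (integrableOn_Ioi_rpow_of_lt (by norm_num : (-(3 / 2) : ℝ) < -1) ha).congr_fun
      (fun r hr => (h1 r hr).symm) measurableSet_Ioi
  rw [← ofReal_integral_eq_lintegral_ofReal hi (Filter.Eventually.of_forall fun r => by
    positivity)]
  congr 1
  rw [setIntegral_congr_fun measurableSet_Ioi h1, integral_Ioi_rpow_of_lt (by norm_num) ha]
  have e : (-(3 / 2) : ℝ) + 1 = -(1 / 2) := by norm_num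
  rw [e, Real.rpow_neg ha.le, ← Real.sqrt_eq_rpow]
  ring

private theorem half_aux (x : E3) (D : ℝ) (hD : 0 < D) :
    ∫⁻ u : ℝ × E3, ENNReal.ofReal ((u.1 ^ 5)⁻¹ *
      (bx x u * (if D / 2 < u.1 then Real.sqrt u.1 else 0)))
      = ENNReal.ofReal (2 * (Real.sqrt (D / 2))⁻¹) *
        (volume : Measure E3) (Metric.ball (0 : E3) 1) := by
  rw [Measure.volume_eq_prod, lintegral_prod _ (h_meas x D).ennreal_ofReal.aemeasurable]
  have h1 : ∀ r : ℝ, ∫⁻ z : E3, ENNReal.ofReal (((r, z).1 ^ 5)⁻¹ *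
      (bx x (r, z) * (if D / 2 < (r, z).1 then Real.sqrt (r, z).1 else 0)))
      = (Set.Ioi (D / 2)).indicator (fun r => ENNReal.ofReal ((r ^ 2)⁻¹ * Real.sqrt r) *
        (volume : Measure E3) (Metric.ball (0 : E3) 1)) r := by
    intro r
    by_cases hr : D / 2 < r
    · rw [Set.indicator_of_mem (show r ∈ Set.Ioi (D / 2) from hr)]
      have hr0 : 0 < r := by linarith
      have h2 : ∀ z : E3, ENNReal.ofReal (((r, z).1 ^ 5)⁻¹ *
          (bx x (r, z) * (if D / 2 < (r, z).1 then Real.sqrt (r, z).1 else 0)))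
          = ENNReal.ofReal ((r ^ 5)⁻¹ * Real.sqrt r) *
            (Metric.ball x r).indicator (fun _ => (1 : ENNReal)) z := by
        intro z
        simp only
        rw [if_pos hr]
        unfold bx
        by_cases hz : ‖x - z‖ < r
        · rw [if_pos hz, Set.indicator_of_mem, mul_one, one_mul]
          rw [Metric.mem_ball, dist_comm, dist_eq_norm]
          exact hz
        · rw [if_neg hz, Set.indicator_of_notMem, zero_mul, mul_zero, ENNReal.ofReal_zero,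
            mul_zero]
          rw [Metric.mem_ball, dist_comm, dist_eq_norm]
          exact hz
      simp_rw [h2]
      rw [lintegral_const_mul _ (measurable_const.indicator measurableSet_ball),
        lintegral_indicator measurableSet_ball, lintegral_const, one_mul,
        Measure.restrict_apply MeasurableSet.univ, Set.univ_inter,
        Measure.addHaar_ball_of_pos _ _ hr0, ← mul_assoc, ← ENNReal.ofReal_mul (by positivity)]
      congr 2
      have h3 : Module.finrank ℝ E3 = 3 := by simp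
      rw [h3]
      field_simp
    · rw [Set.indicator_of_notMem (show r ∉ Set.Ioi (D / 2) from hr)]
      have h2 : ∀ z : E3, ENNReal.ofReal (((r, z).1 ^ 5)⁻¹ *
          (bx x (r, z) * (if D / 2 < (r, z).1 then Real.sqrt (r, z).1 else 0))) = 0 := by
        intro z
        simp only
        rw [if_neg hr]
        simp
      simp_rw [h2]
      exact lintegral_zero
  simp_rw [h1]
  rw [lintegral_indicator measurableSet_Ioi, lintegral_mul_const _ (by fun_prop),
    half_int (D / 2) (by linarith)]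

private theorem fdl_half : ∃ C : ℝ, 0 < C ∧ ∀ (x : E3) (S : ℝ), 0 < S →
    Integrable (fun u : ℝ × E3 =>
      (u.1 ^ 5)⁻¹ * (bx x u * (if S⁻¹ / 2 < u.1 then Real.sqrt u.1 else 0))) ∧
    ∫ u : ℝ × E3, (u.1 ^ 5)⁻¹ * (bx x u * (if S⁻¹ / 2 < u.1 then Real.sqrt u.1 else 0)) ≤
      C * Real.sqrt S := by
  have hV : 0 < (volume : Measure E3).real (Metric.ball (0 : E3) 1) :=
    ENNReal.toReal_pos (Metric.measure_ball_pos _ _ one_pos).ne' measure_ball_lt_top.ne
  refine ⟨2 * Real.sqrt 2 * (volume : Measure E3).real (Metric.ball (0 : E3) 1), by positivity,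
    fun x S hS => ⟨?_, ?_⟩⟩
  · refine ⟨(h_meas x S⁻¹).aestronglyMeasurable, ?_⟩
    rw [hasFiniteIntegral_iff_ofReal (Filter.Eventually.of_forall (h_nonneg x S⁻¹)),
      half_aux x S⁻¹ (inv_pos.mpr hS)]
    exact ENNReal.mul_lt_top ENNReal.ofReal_lt_top measure_ball_lt_top
  · rw [integral_eq_lintegral_of_nonneg_ae (Filter.Eventually.of_forall (h_nonneg x S⁻¹))
      (h_meas x S⁻¹).aestronglyMeasurable, half_aux x S⁻¹ (inv_pos.mpr hS), ENNReal.toReal_mul,
      ENNReal.toReal_ofReal (by positivity)]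
    refine le_of_eq ?_
    have e : (Real.sqrt (S⁻¹ / 2))⁻¹ = Real.sqrt 2 * Real.sqrt S := by
      rw [← Real.sqrt_inv, ← Real.sqrt_mul (by norm_num)]
      congr 1
      field_simp
    rw [e]
    show 2 * (Real.sqrt 2 * Real.sqrt S) * (volume : Measure E3).real (Metric.ball (0 : E3) 1) = _
    ring

/-! ### the pointwise inequality -/

private theorem pointwise {n k : ℕ} (hk : 0 < k) (z : Fin k → ℝ) (zp : ℝ) (hzp : 0 ≤ zp)
    (hz : ∀ j, 0 ≤ z j ∧ z j ≤ zp) (p : Cfg n k) (J : E3 → ℝ) (hJ : ∀ v, 0 ≤ J v ∧ J v ≤ 1)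
    (L : ℝ) (hL : 0 ≤ L) (hlip : ∀ u v, |J u - J v| ≤ L * ‖u - v‖)
    (D : Fin n → ℝ) (hD : ∀ a j, D a ≤ ‖p.1 a - p.2 j‖) (u : ℝ × E3) :
    ∑ a, -(2 * (1 + zp) ^ 2) *
        (J (p.1 a) ^ 2 * ((u.1 ^ 5)⁻¹ * (bx (p.1 a) u * (if D a / 2 < u.1 then (1 : ℝ) else 0))) +
          J (p.1 a) * Real.sqrt (2 * L) * ((u.1 ^ 5)⁻¹ *
            (bx (p.1 a) u * (if D a / 2 < u.1 then Real.sqrt u.1 else 0)))) ≤
      (∑ a, ∑ b ∈ univ.erase a, (J (p.1 a) * J (p.1 b)) *
          ((u.1 ^ 5)⁻¹ * (bx (p.1 a) u * bx (p.1 b) u))) / 2 -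
        ∑ a, ∑ j, (z j * (J (p.1 a) * J (p.2 j))) *
          ((u.1 ^ 5)⁻¹ * (bx (p.1 a) u * bx (p.2 j) u)) +
        (∑ j, ∑ l ∈ univ.erase j, (z j * z l * (J (p.2 j) * J (p.2 l))) *
          ((u.1 ^ 5)⁻¹ * (bx (p.2 j) u * bx (p.2 l) u))) / 2 := by
  classical
  haveI : Nonempty (Fin k) := ⟨⟨0, hk⟩⟩
  rcases le_or_gt u.1 0 with hu | hu
  · have h1 : ∀ x : E3, bx x u = 0 := fun x => bx_neg x u hu
    simp only [h1, zero_mul, mul_zero, sum_const_zero, zero_div, sub_zero, add_zero]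
    exact le_refl _
  · have hw : 0 ≤ (u.1 ^ 5)⁻¹ := inv_nonneg.mpr (pow_nonneg hu.le 5)
    obtain ⟨t, ht⟩ : ∃ t : Fin n → ℝ, ∀ a, t a = J (p.1 a) * bx (p.1 a) u := ⟨_, fun _ => rfl⟩
    obtain ⟨s, hs⟩ : ∃ s : Fin k → ℝ, ∀ j, s j = J (p.2 j) * bx (p.2 j) u := ⟨_, fun _ => rfl⟩
    obtain ⟨τ, hτ⟩ : ∃ τ : ℝ, τ = ⨆ i : Fin n ⊕ Fin k, Sum.elim t s i := ⟨_, rfl⟩
    have hbdd : BddAbove (Set.range fun i : Fin n ⊕ Fin k => Sum.elim t s i) :=
      (Set.finite_range _).bddAbove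
    have htn : ∀ a, 0 ≤ t a := fun a => by
      rw [ht]
      exact mul_nonneg (hJ _).1 (bx_nonneg _ _)
    have hsn : ∀ j, 0 ≤ s j := fun j => by
      rw [hs]
      exact mul_nonneg (hJ _).1 (bx_nonneg _ _)
    have htτ : ∀ a, t a ≤ τ := fun a => by
      rw [hτ]
      exact le_ciSup hbdd (Sum.inl a)
    have hsτ : ∀ j, s j ≤ τ := fun j => by
      rw [hτ]
      exact le_ciSup hbdd (Sum.inr j)
    have hτ0 : 0 ≤ τ := (hsn ⟨0, hk⟩).trans (hsτ ⟨0, hk⟩)
    obtain ⟨m, hm⟩ : ∃ m : ℝ, m = if ∃ j, s j ≠ 0 then (1 : ℝ) else 0 := ⟨_, rfl⟩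
    have hm1 : (∃ j, s j ≠ 0) → m = 1 := by
      intro h
      rw [hm, if_pos h]
    have hm0 : 0 ≤ m := by
      rw [hm]
      split_ifs <;> norm_num
    have hcomb := combJ z zp τ hz hzp hτ0 t s (fun a => ⟨htn a, htτ a⟩) (fun j => ⟨hsn j, hsτ j⟩)
      m hm1 hm0
    have h2 := mul_le_mul_of_nonneg_left hcomb hw
    have h3 : (u.1 ^ 5)⁻¹ * ((∑ a, ∑ b ∈ univ.erase a, t a * t b) / 2 -
        ∑ a, ∑ j, z j * (t a * s j) +
        (∑ j, ∑ l ∈ univ.erase j, z j * z l * (s j * s l)) / 2)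
        = (∑ a, ∑ b ∈ univ.erase a, (J (p.1 a) * J (p.1 b)) *
          ((u.1 ^ 5)⁻¹ * (bx (p.1 a) u * bx (p.1 b) u))) / 2 -
        ∑ a, ∑ j, (z j * (J (p.1 a) * J (p.2 j))) *
          ((u.1 ^ 5)⁻¹ * (bx (p.1 a) u * bx (p.2 j) u)) +
        (∑ j, ∑ l ∈ univ.erase j, (z j * z l * (J (p.2 j) * J (p.2 l))) *
          ((u.1 ^ 5)⁻¹ * (bx (p.2 j) u * bx (p.2 l) u))) / 2 := by
      rw [mul_add, mul_sub, ← mul_div_assoc, ← mul_div_assoc, mul_sum, mul_sum, mul_sum]
      congr 1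
      · congr 1
        · congr 1
          refine sum_congr rfl fun a _ => ?_
          rw [mul_sum]
          refine sum_congr rfl fun b _ => ?_
          rw [ht, ht]
          ring
        · refine sum_congr rfl fun a _ => ?_
          rw [mul_sum]
          refine sum_congr rfl fun j _ => ?_
          rw [ht, hs]
          ring
      · congr 1
        refine sum_congr rfl fun j _ => ?_
        rw [mul_sum]
        refine sum_congr rfl fun l _ => ?_
        rw [hs, hs]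
        ring
    have h4 : ∑ a, -(2 * (1 + zp) ^ 2) *
        (J (p.1 a) ^ 2 * ((u.1 ^ 5)⁻¹ * (bx (p.1 a) u * (if D a / 2 < u.1 then (1 : ℝ) else 0))) +
          J (p.1 a) * Real.sqrt (2 * L) * ((u.1 ^ 5)⁻¹ *
            (bx (p.1 a) u * (if D a / 2 < u.1 then Real.sqrt u.1 else 0))))
        ≤ (u.1 ^ 5)⁻¹ * (-(2 * (1 + zp) ^ 2) * ∑ a, t a * τ * m) := by
      rw [mul_sum, mul_sum]
      refine sum_le_sum fun a _ => ?_
      have h5 : t a * τ * m ≤
          J (p.1 a) ^ 2 * (bx (p.1 a) u * (if D a / 2 < u.1 then (1 : ℝ) else 0)) +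
          J (p.1 a) * Real.sqrt (2 * L) *
            (bx (p.1 a) u * (if D a / 2 < u.1 then Real.sqrt u.1 else 0)) := by
        have hJa := hJ (p.1 a)
        rcases bx01 (p.1 a) u with h6 | h6
        · rw [ht, h6]
          simp
        · rw [ht, h6, mul_one, one_mul, one_mul]
          by_cases h7 : ∃ j, s j ≠ 0
          · obtain ⟨j, hj⟩ := h7
            have hbj : bx (p.2 j) u = 1 := by
              rcases bx01 (p.2 j) u with h | h
              · exfalso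
                apply hj
                rw [hs, h, mul_zero]
              · exact h
            have h8 := bx_one _ u h6
            have h9 := bx_one _ u hbj
            have h10 : ‖p.1 a - p.2 j‖ ≤ ‖p.1 a - u.2‖ + ‖p.2 j - u.2‖ := by
              calc ‖p.1 a - p.2 j‖ = ‖(p.1 a - u.2) - (p.2 j - u.2)‖ := by congr 1; abel
                _ ≤ _ := norm_sub_le _ _
            have h11 := hD a j
            rw [if_pos (by linarith), if_pos (by linarith), hm1 ⟨j, hj⟩]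
            -- the bound of `τ`
            have hb : ∀ v : E3, J v * bx v u ≤ 1 ∧ J v * bx v u ≤ J (p.1 a) + 2 * L * u.1 := by
              intro v
              rcases bx01 v u with h | h
              · rw [h, mul_zero]
                have : 0 ≤ 2 * L * u.1 := by positivity
                exact ⟨zero_le_one, by linarith [hJa.1]⟩
              · rw [h, mul_one]
                refine ⟨(hJ v).2, ?_⟩
                have h12 := bx_one _ u h
                have h13 := (abs_le.mp (hlip v (p.1 a))).2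
                have h14 : ‖v - p.1 a‖ ≤ 2 * u.1 := by
                  calc ‖v - p.1 a‖ = ‖(v - u.2) - (p.1 a - u.2)‖ := by congr 1; abel
                    _ ≤ ‖v - u.2‖ + ‖p.1 a - u.2‖ := norm_sub_le _ _
                    _ ≤ _ := by linarith
                have h15 : L * ‖v - p.1 a‖ ≤ L * (2 * u.1) := mul_le_mul_of_nonneg_left h14 hL
                linarith
            have hτ1 : τ ≤ 1 := by
              rw [hτ]
              refine ciSup_le fun i => ?_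
              rcases i with i | i
              · show t i ≤ 1
                rw [ht]
                exact (hb _).1
              · show s i ≤ 1
                rw [hs]
                exact (hb _).1
            have hτ2 : τ ≤ J (p.1 a) + 2 * L * u.1 := by
              rw [hτ]
              refine ciSup_le fun i => ?_
              rcases i with i | i
              · show t i ≤ _
                rw [ht]
                exact (hb _).2
              · show s i ≤ _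
                rw [hs]
                exact (hb _).2
            have hsq : Real.sqrt (2 * L) * Real.sqrt u.1 = Real.sqrt (2 * L * u.1) :=
              (Real.sqrt_mul (by positivity) _).symm
            have hx0 : 0 ≤ 2 * L * u.1 := by positivity
            have hτ3 : τ ≤ J (p.1 a) + Real.sqrt (2 * L * u.1) := by
              have hs0 := Real.sqrt_nonneg (2 * L * u.1)
              have hs1 := Real.sq_sqrt hx0
              rcases le_or_gt (2 * L * u.1) 1 with h | h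
              · have : 2 * L * u.1 ≤ Real.sqrt (2 * L * u.1) := Real.le_sqrt_of_sq_le (by nlinarith)
                linarith
              · have : 1 ≤ Real.sqrt (2 * L * u.1) := Real.one_le_sqrt.mpr h.le
                linarith [hJa.1]
            rw [mul_one, mul_one, mul_assoc, hsq]
            have := mul_le_mul_of_nonneg_left hτ3 hJa.1
            linarith
          · rw [hm, if_neg h7, mul_zero]
            have h8 : 0 ≤ (if D a / 2 < u.1 then (1 : ℝ) else 0) := by split_ifs <;> norm_num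
            have h9 : 0 ≤ (if D a / 2 < u.1 then Real.sqrt u.1 else 0) := by
              split_ifs
              · exact Real.sqrt_nonneg _
              · exact le_refl _
            have h10 := Real.sqrt_nonneg (2 * L)
            have h11 := hJa.1
            positivity
      have h12 : 0 ≤ 2 * (1 + zp) ^ 2 := by positivity
      have h13 := mul_le_mul_of_nonneg_left (mul_le_mul_of_nonneg_left h5 hw) h12
      linarith
    calc _ ≤ (u.1 ^ 5)⁻¹ * (-(2 * (1 + zp) ^ 2) * ∑ a, t a * τ * m) := h4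
      _ ≤ _ := h2
      _ = _ := h3

/-- the pointwise inequality integrated -/
private theorem integrated {n k : ℕ} (hk : 0 < k) (z : Fin k → ℝ) (zp : ℝ) (hzp : 0 ≤ zp)
    (hz : ∀ j, 0 ≤ z j ∧ z j ≤ zp) (p : Cfg n k) (h1 : Function.Injective p.1)
    (h2 : Function.Injective p.2) (h3 : ∀ a j, p.1 a ≠ p.2 j) (J : E3 → ℝ)
    (hJ : ∀ v, 0 ≤ J v ∧ J v ≤ 1) (L : ℝ) (hL : 0 ≤ L) (hlip : ∀ u v, |J u - J v| ≤ L * ‖u - v‖)
    (c : ℝ) (hfdl : ∀ x y : E3, x ≠ y →
      Integrable (fun u : ℝ × E3 => (u.1 ^ 5)⁻¹ * (bx x u * bx y u)) ∧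
      ∫ u : ℝ × E3, (u.1 ^ 5)⁻¹ * (bx x u * bx y u) = c * ‖x - y‖⁻¹)
    (C : ℝ) (hone : ∀ (x : E3) (D : ℝ), 0 < D →
      Integrable (fun u : ℝ × E3 => (u.1 ^ 5)⁻¹ * (bx x u * (if D / 2 < u.1 then 1 else 0))) ∧
      ∫ u : ℝ × E3, (u.1 ^ 5)⁻¹ * (bx x u * (if D / 2 < u.1 then 1 else 0)) ≤ C * D⁻¹)
    (C' : ℝ) (hhalf : ∀ (x : E3) (S : ℝ), 0 < S →
      Integrable (fun u : ℝ × E3 =>
        (u.1 ^ 5)⁻¹ * (bx x u * (if S⁻¹ / 2 < u.1 then Real.sqrt u.1 else 0))) ∧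
      ∫ u : ℝ × E3, (u.1 ^ 5)⁻¹ * (bx x u * (if S⁻¹ / 2 < u.1 then Real.sqrt u.1 else 0)) ≤
        C' * Real.sqrt S)
    (S : Fin n → ℝ) (hSpos : ∀ a, 0 < S a) (hD : ∀ a j, (S a)⁻¹ ≤ ‖p.1 a - p.2 j‖) :
    ∑ a, -(2 * (1 + zp) ^ 2) * (J (p.1 a) ^ 2 * (C * S a) +
      J (p.1 a) * Real.sqrt (2 * L) * (C' * Real.sqrt (S a))) ≤ c * VJ J z p := by
  have hpw := pointwise hk z zp hzp hz p J hJ L hL hlip (fun a => (S a)⁻¹) hD
  have i1 : ∀ a, ∀ b ∈ univ.erase a, Integrable (fun u : ℝ × E3 => (J (p.1 a) * J (p.1 b)) *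
      ((u.1 ^ 5)⁻¹ * (bx (p.1 a) u * bx (p.1 b) u))) := by
    intro a b hb
    exact (hfdl _ _ (fun h => (ne_of_mem_erase hb) (h1 h).symm)).1.const_mul _
  have i2 : ∀ a j, Integrable (fun u : ℝ × E3 => (z j * (J (p.1 a) * J (p.2 j))) *
      ((u.1 ^ 5)⁻¹ * (bx (p.1 a) u * bx (p.2 j) u))) := by
    intro a j
    exact (hfdl _ _ (h3 a j)).1.const_mul _
  have i3 : ∀ j, ∀ l ∈ univ.erase j, Integrable (fun u : ℝ × E3 =>
      (z j * z l * (J (p.2 j) * J (p.2 l))) *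
      ((u.1 ^ 5)⁻¹ * (bx (p.2 j) u * bx (p.2 l) u))) := by
    intro j l hl
    exact (hfdl _ _ (fun h => (ne_of_mem_erase hl) (h2 h).symm)).1.const_mul _
  have i1' : ∀ a, Integrable (fun u : ℝ × E3 => ∑ b ∈ univ.erase a, (J (p.1 a) * J (p.1 b)) *
      ((u.1 ^ 5)⁻¹ * (bx (p.1 a) u * bx (p.1 b) u))) := fun a =>
    integrable_finsetSum _ (i1 a)
  have i2' : ∀ a, Integrable (fun u : ℝ × E3 => ∑ j, (z j * (J (p.1 a) * J (p.2 j))) *
      ((u.1 ^ 5)⁻¹ * (bx (p.1 a) u * bx (p.2 j) u))) := fun a =>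
    integrable_finsetSum _ (fun j _ => i2 a j)
  have i3' : ∀ j, Integrable (fun u : ℝ × E3 => ∑ l ∈ univ.erase j,
      (z j * z l * (J (p.2 j) * J (p.2 l))) *
      ((u.1 ^ 5)⁻¹ * (bx (p.2 j) u * bx (p.2 l) u))) := fun j =>
    integrable_finsetSum _ (i3 j)
  have i1'' : Integrable (fun u : ℝ × E3 => ∑ a, ∑ b ∈ univ.erase a,
      (J (p.1 a) * J (p.1 b)) * ((u.1 ^ 5)⁻¹ * (bx (p.1 a) u * bx (p.1 b) u))) :=
    integrable_finsetSum _ (fun a _ => i1' a)
  have i2'' : Integrable (fun u : ℝ × E3 => ∑ a, ∑ j,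
      (z j * (J (p.1 a) * J (p.2 j))) * ((u.1 ^ 5)⁻¹ * (bx (p.1 a) u * bx (p.2 j) u))) :=
    integrable_finsetSum _ (fun a _ => i2' a)
  have i3'' : Integrable (fun u : ℝ × E3 => ∑ j, ∑ l ∈ univ.erase j,
      (z j * z l * (J (p.2 j) * J (p.2 l))) *
      ((u.1 ^ 5)⁻¹ * (bx (p.2 j) u * bx (p.2 l) u))) :=
    integrable_finsetSum _ (fun j _ => i3' j)
  have j1 : Integrable (fun u : ℝ × E3 => (∑ a, ∑ b ∈ univ.erase a,
      (J (p.1 a) * J (p.1 b)) * ((u.1 ^ 5)⁻¹ * (bx (p.1 a) u * bx (p.1 b) u))) / 2) :=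
    i1''.div_const 2
  have j3 : Integrable (fun u : ℝ × E3 => (∑ j, ∑ l ∈ univ.erase j,
      (z j * z l * (J (p.2 j) * J (p.2 l))) *
      ((u.1 ^ 5)⁻¹ * (bx (p.2 j) u * bx (p.2 l) u))) / 2) := i3''.div_const 2
  have j12 : Integrable (fun u : ℝ × E3 => (∑ a, ∑ b ∈ univ.erase a, (J (p.1 a) * J (p.1 b)) *
          ((u.1 ^ 5)⁻¹ * (bx (p.1 a) u * bx (p.1 b) u))) / 2 -
        ∑ a, ∑ j, (z j * (J (p.1 a) * J (p.2 j))) *
          ((u.1 ^ 5)⁻¹ * (bx (p.1 a) u * bx (p.2 j) u))) := j1.sub i2''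
  have hG : Integrable (fun u : ℝ × E3 => (∑ a, ∑ b ∈ univ.erase a, (J (p.1 a) * J (p.1 b)) *
          ((u.1 ^ 5)⁻¹ * (bx (p.1 a) u * bx (p.1 b) u))) / 2 -
        ∑ a, ∑ j, (z j * (J (p.1 a) * J (p.2 j))) *
          ((u.1 ^ 5)⁻¹ * (bx (p.1 a) u * bx (p.2 j) u)) +
        (∑ j, ∑ l ∈ univ.erase j, (z j * z l * (J (p.2 j) * J (p.2 l))) *
          ((u.1 ^ 5)⁻¹ * (bx (p.2 j) u * bx (p.2 l) u))) / 2) := j12.add j3
  have hGval : ∫ u : ℝ × E3, ((∑ a, ∑ b ∈ univ.erase a, (J (p.1 a) * J (p.1 b)) *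
          ((u.1 ^ 5)⁻¹ * (bx (p.1 a) u * bx (p.1 b) u))) / 2 -
        ∑ a, ∑ j, (z j * (J (p.1 a) * J (p.2 j))) *
          ((u.1 ^ 5)⁻¹ * (bx (p.1 a) u * bx (p.2 j) u)) +
        (∑ j, ∑ l ∈ univ.erase j, (z j * z l * (J (p.2 j) * J (p.2 l))) *
          ((u.1 ^ 5)⁻¹ * (bx (p.2 j) u * bx (p.2 l) u))) / 2) = c * VJ J z p := by
    rw [integral_add j12 j3, integral_sub j1 i2'', integral_div, integral_div,
      integral_finsetSum _ (fun a _ => i1' a), integral_finsetSum _ (fun a _ => i2' a),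
      integral_finsetSum _ (fun j _ => i3' j)]
    have v1 : ∀ a, ∫ u : ℝ × E3, ∑ b ∈ univ.erase a, (J (p.1 a) * J (p.1 b)) *
        ((u.1 ^ 5)⁻¹ * (bx (p.1 a) u * bx (p.1 b) u)) =
        c * ∑ b, J (p.1 a) * J (p.1 b) * ‖p.1 a - p.1 b‖⁻¹ := by
      intro a
      rw [integral_finsetSum _ (i1 a),
        ← sum_erase univ (f := fun b => J (p.1 a) * J (p.1 b) * ‖p.1 a - p.1 b‖⁻¹)
        (a := a) (by simp), mul_sum]
      refine sum_congr rfl fun b hb => ?_
      rw [integral_const_mul, (hfdl _ _ (fun h => (ne_of_mem_erase hb) (h1 h).symm)).2]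
      ring
    have v2 : ∀ a, ∫ u : ℝ × E3, ∑ j, (z j * (J (p.1 a) * J (p.2 j))) *
        ((u.1 ^ 5)⁻¹ * (bx (p.1 a) u * bx (p.2 j) u)) =
        c * ∑ j, z j * (J (p.1 a) * J (p.2 j) * ‖p.1 a - p.2 j‖⁻¹) := by
      intro a
      rw [integral_finsetSum _ (fun j _ => i2 a j), mul_sum]
      refine sum_congr rfl fun j _ => ?_
      rw [integral_const_mul, (hfdl _ _ (h3 a j)).2]
      ring
    have v3 : ∀ j, ∫ u : ℝ × E3, ∑ l ∈ univ.erase j, (z j * z l * (J (p.2 j) * J (p.2 l))) *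
        ((u.1 ^ 5)⁻¹ * (bx (p.2 j) u * bx (p.2 l) u)) =
        c * ∑ l, z j * z l * (J (p.2 j) * J (p.2 l) * ‖p.2 j - p.2 l‖⁻¹) := by
      intro j
      rw [integral_finsetSum _ (i3 j),
        ← sum_erase univ (f := fun l => z j * z l * (J (p.2 j) * J (p.2 l) * ‖p.2 j - p.2 l‖⁻¹))
        (a := j) (by simp), mul_sum]
      refine sum_congr rfl fun l hl => ?_
      rw [integral_const_mul, (hfdl _ _ (fun h => (ne_of_mem_erase hl) (h2 h).symm)).2]
      ring
    simp only [v1, v2, v3]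
    unfold VJ
    rw [← mul_sum, ← mul_sum, ← mul_sum]
    ring
  have k1 : ∀ a, Integrable (fun u : ℝ × E3 => J (p.1 a) ^ 2 * ((u.1 ^ 5)⁻¹ *
      (bx (p.1 a) u * (if (S a)⁻¹ / 2 < u.1 then (1 : ℝ) else 0)))) :=
    fun a => (hone (p.1 a) (S a)⁻¹ (inv_pos.mpr (hSpos a))).1.const_mul _
  have k2 : ∀ a, Integrable (fun u : ℝ × E3 => J (p.1 a) * Real.sqrt (2 * L) * ((u.1 ^ 5)⁻¹ *
      (bx (p.1 a) u * (if (S a)⁻¹ / 2 < u.1 then Real.sqrt u.1 else 0)))) :=
    fun a => (hhalf (p.1 a) (S a) (hSpos a)).1.const_mul _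
  have i4 : ∀ a, Integrable (fun u : ℝ × E3 => -(2 * (1 + zp) ^ 2) *
      (J (p.1 a) ^ 2 * ((u.1 ^ 5)⁻¹ *
        (bx (p.1 a) u * (if (S a)⁻¹ / 2 < u.1 then (1 : ℝ) else 0))) +
      J (p.1 a) * Real.sqrt (2 * L) * ((u.1 ^ 5)⁻¹ *
        (bx (p.1 a) u * (if (S a)⁻¹ / 2 < u.1 then Real.sqrt u.1 else 0))))) :=
    fun a => ((k1 a).add (k2 a)).const_mul _
  have hH := integrable_finsetSum univ (fun a _ => i4 a)
  have hmono := integral_mono hH hG hpw
  rw [hGval, integral_finsetSum _ (fun a _ => i4 a)] at hmono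
  refine le_trans (sum_le_sum fun a _ => ?_) hmono
  rw [integral_const_mul, integral_add (k1 a) (k2 a), integral_const_mul, integral_const_mul]
  have h6 := (hone (p.1 a) (S a)⁻¹ (inv_pos.mpr (hSpos a))).2
  rw [inv_inv] at h6
  have h7 := (hhalf (p.1 a) (S a) (hSpos a)).2
  have h8 := mul_le_mul_of_nonneg_left h6 (sq_nonneg (J (p.1 a)))
  have h9 := mul_le_mul_of_nonneg_left h7
    (mul_nonneg (hJ (p.1 a)).1 (Real.sqrt_nonneg (2 * L)))
  have h10 : 0 ≤ 2 * (1 + zp) ^ 2 := by positivity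
  have h11 := mul_le_mul_of_nonneg_left (add_le_add h8 h9) h10
  linarith

theorem vjlow (zp : ℝ) (hzp : 0 ≤ zp) {θ : E3 → ℝ} (hθ : Cut θ) : ∃ K : ℝ, 0 ≤ K ∧
    ∀ (n k : ℕ) (z : Fin k → ℝ) (_ : ∀ j, 0 ≤ z j ∧ z j ≤ zp)
    (p : Cfg n k) (_ : Function.Injective p.1) (_ : Function.Injective p.2)
    (_ : ∀ a j, p.1 a ≠ p.2 j) (x : E3),
    -(K * ((∑ a, Jc θ x 1 (p.1 a) ^ 2 * (⨆ j, ‖p.1 a - p.2 j‖⁻¹)) + ce p x 2)) ≤
      VJ (Jc θ x 1) z p := by
  obtain ⟨c, hc, hfdl⟩ := fdl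
  obtain ⟨C, hC, hone⟩ := fdl_one
  obtain ⟨C', hC', hhalf⟩ := fdl_half
  obtain ⟨L, hL, hlip⟩ := Jc_lip hθ
  refine ⟨2 * (1 + zp) ^ 2 * (C + Real.sqrt (2 * L) * C') / c, by positivity,
    fun n k z hz p h1 h2 h3 x => ?_⟩
  have hJ : ∀ v, 0 ≤ Jc θ x 1 v ∧ Jc θ x 1 v ≤ 1 := Jc_mem hθ x 1
  have hce : 0 ≤ ce p x 2 := sum_nonneg fun a _ => by split_ifs <;> norm_num
  rcases Nat.eq_zero_or_pos k with hk | hk
  · subst hk
    have hs : ∀ a, (⨆ j : Fin 0, ‖p.1 a - p.2 j‖⁻¹) = 0 := fun a => Real.iSup_of_isEmpty _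
    simp only [hs, mul_zero, sum_const_zero, zero_add]
    have hV : 0 ≤ VJ (Jc θ x 1) z p := by
      unfold VJ
      simp only [univ_eq_empty, sum_empty, sum_const_zero, sub_zero, zero_div, add_zero]
      refine div_nonneg (sum_nonneg fun a _ => sum_nonneg fun b _ => ?_) (by norm_num)
      have := (hJ (p.1 a)).1
      have := (hJ (p.1 b)).1
      positivity
    refine le_trans ?_ hV
    rw [neg_nonpos]
    positivity
  · haveI : Nonempty (Fin k) := ⟨⟨0, hk⟩⟩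
    obtain ⟨S, hS⟩ : ∃ S : Fin n → ℝ, S = fun a => ⨆ j, ‖p.1 a - p.2 j‖⁻¹ := ⟨_, rfl⟩
    have hSa : ∀ a, (⨆ j, ‖p.1 a - p.2 j‖⁻¹) = S a := by
      intro a
      rw [hS]
    have hbdd : ∀ a, BddAbove (Set.range fun j => ‖p.1 a - p.2 j‖⁻¹) :=
      fun a => (Set.finite_range _).bddAbove
    have hSle : ∀ a j, ‖p.1 a - p.2 j‖⁻¹ ≤ S a := by
      intro a j
      rw [hS]
      exact le_ciSup (hbdd a) j
    have hSpos : ∀ a, 0 < S a := by
      intro a
      refine lt_of_lt_of_le ?_ (hSle a ⟨0, hk⟩)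
      exact inv_pos.mpr (norm_pos_iff.mpr (sub_ne_zero.mpr (h3 a _)))
    have hD : ∀ a j, (S a)⁻¹ ≤ ‖p.1 a - p.2 j‖ := by
      intro a j
      have hpos : 0 < ‖p.1 a - p.2 j‖ := norm_pos_iff.mpr (sub_ne_zero.mpr (h3 a j))
      exact inv_le_of_inv_le₀ hpos (hSle a j)
    simp only [hSa]
    have hmain := integrated hk z zp hzp hz p h1 h2 h3 (Jc θ x 1) hJ L hL
      (fun u v => by
        have := hlip x 1 one_pos u v
        rwa [inv_one, mul_one] at this)
      c hfdl C hone C' hhalf S hSpos hD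
    have hterm : ∀ a, Jc θ x 1 (p.1 a) ^ 2 * (C * S a) +
        Jc θ x 1 (p.1 a) * Real.sqrt (2 * L) * (C' * Real.sqrt (S a)) ≤
        (C + Real.sqrt (2 * L) * C') *
          (Jc θ x 1 (p.1 a) ^ 2 * S a + (if ‖p.1 a - x‖ < 2 then 1 else 0)) := by
      intro a
      have hs0 := Real.sqrt_nonneg (2 * L)
      have hj := hJ (p.1 a)
      have hSp := hSpos a
      by_cases hx : ‖p.1 a - x‖ < 2
      · rw [if_pos hx]
        have e1 : Jc θ x 1 (p.1 a) * Real.sqrt (S a) ≤ Jc θ x 1 (p.1 a) ^ 2 * S a + 1 := by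
          have e2 : Jc θ x 1 (p.1 a) ^ 2 * S a = (Jc θ x 1 (p.1 a) * Real.sqrt (S a)) ^ 2 := by
            rw [mul_pow, Real.sq_sqrt hSp.le]
          rw [e2]
          nlinarith [sq_nonneg (Jc θ x 1 (p.1 a) * Real.sqrt (S a) - 1)]
        have e3 := mul_le_mul_of_nonneg_left e1 (mul_nonneg hs0 hC'.le)
        have e4 : 0 ≤ Jc θ x 1 (p.1 a) ^ 2 * S a := by positivity
        nlinarith
      · rw [if_neg hx, Jc_zero hθ x 1 one_pos _ (by linarith [not_lt.mp hx])]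
        norm_num
    have hK : 0 ≤ 2 * (1 + zp) ^ 2 := by positivity
    have hsum : -(2 * (1 + zp) ^ 2 * (C + Real.sqrt (2 * L) * C') *
        ((∑ a, Jc θ x 1 (p.1 a) ^ 2 * S a) + ce p x 2)) ≤
        ∑ a, -(2 * (1 + zp) ^ 2) * (Jc θ x 1 (p.1 a) ^ 2 * (C * S a) +
          Jc θ x 1 (p.1 a) * Real.sqrt (2 * L) * (C' * Real.sqrt (S a))) := by
      unfold ce
      rw [← sum_add_distrib, mul_sum, ← sum_neg_distrib]
      refine sum_le_sum fun a _ => ?_
      have := mul_le_mul_of_nonneg_left (hterm a) hK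
      linarith
    have h9 := hsum.trans hmain
    have h10 : -(2 * (1 + zp) ^ 2 * (C + Real.sqrt (2 * L) * C') / c *
        ((∑ a, Jc θ x 1 (p.1 a) ^ 2 * S a) + ce p x 2)) =
        -(2 * (1 + zp) ^ 2 * (C + Real.sqrt (2 * L) * C') *
        ((∑ a, Jc θ x 1 (p.1 a) ^ 2 * S a) + ce p x 2)) / c := by
      ring
    rw [h10, div_le_iff₀ hc]
    linarith

end H6.CB
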