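import Pool.Agent.H6.CB.Sm1
import Pool.Agent.H6.CB.MmF

/-! Sum of `sm1` over the sectors `g = Gs θ x l`, `s = sc l`, `δ = C * 64⁻ˡ` (`Gs_grad`), integrated over `v` in the ball of radius `12` around `x` (`mean_ball`). If `Gs θ x l` is not identically `0` then `l = 0` or `64 ^ (l-1) < n` (`gl_lo`, `mm_hi`, `ce_le`), so `(sc l)⁻¹ = 2 ^ (l+3) ≤ 16 n ^ (1/6) ≤ 16 (n + 1)` and the `ε` terms add up to at most `C ε (n + 1) ^ 3 ≤ C`; the sectors which vanish identically contribute `0`. `∑ 64⁻ˡ ≤ 2`. `∑ gl ^ 2 ≤ 3`. Where `Gs ≠ 0`: `(sc l ^ 8)⁻¹ = 2 ^ (8 (l+3)) ≤ C (1 + mm ^ (4/3))` and `(sc l)⁻¹ ≤ 16 (1 + mm ^ (1/6))` (`2 ^ l = (64 ^ l) ^ (1/6)` and `64 ^ l < 64 mm` for `l ≥ 1`). The integral over `v` of `(max s ‖y - v‖ ^ 4)⁻¹` is at most `C s⁻¹` if `‖y - x‖ < 13`, and at most `C (‖y - x‖ ^ 4)⁻¹` otherwise (`‖y - v‖ ≥ ‖y - x‖ / 13`). Finally `ce p v (2 s) ≤ ce p v (7 s)`. -/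

open MeasureTheory Finset

namespace H6.CB

open H6.CM

/-! ### integrals of the inverse fourth power -/

private theorem wl_F_int : Integrable (fun w : E3 => (max 1 ‖w‖ ^ 4)⁻¹) := by
  have h1 : Integrable (fun w : E3 => (1 + ‖w‖) ^ (-(4 : ℝ))) :=
    integrable_one_add_norm (by rw [finrank_euclideanSpace, Fintype.card_fin]; norm_num)
  have hc : Continuous (fun w : E3 => (max 1 ‖w‖ ^ 4)⁻¹) := by
    refine Continuous.inv₀ ((continuous_const.max continuous_norm).pow 4) fun w => ?_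
    have : 0 < max 1 ‖w‖ := lt_max_of_lt_left one_pos
    positivity
  refine (h1.const_mul 16).mono' hc.aestronglyMeasurable (Filter.Eventually.of_forall fun w => ?_)
  have h2 : 0 < max 1 ‖w‖ := lt_max_of_lt_left one_pos
  rw [Real.norm_of_nonneg (by positivity), Real.rpow_neg (by positivity)]
  have h3 : (1 + ‖w‖) ^ (4 : ℝ) = (1 + ‖w‖) ^ 4 := by
    rw [← Real.rpow_natCast]
    norm_num
  rw [h3]
  have h4 : 1 + ‖w‖ ≤ 2 * max 1 ‖w‖ := by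
    have h5 := le_max_left 1 ‖w‖
    have h6 := le_max_right 1 ‖w‖
    linarith
  have h5 : (1 + ‖w‖) ^ 4 ≤ (2 * max 1 ‖w‖) ^ 4 := pow_le_pow_left₀ (by positivity) h4 4
  rw [← one_div, ← div_eq_mul_inv, div_le_div_iff₀ (by positivity) (by positivity)]
  calc 1 * (1 + ‖w‖) ^ 4 ≤ (2 * max 1 ‖w‖) ^ 4 := by rw [one_mul]; exact h5
    _ = 16 * max 1 ‖w‖ ^ 4 := by ring

private theorem wl_T (s : ℝ) (hs : 0 < s) (y : E3) :
    Integrable (fun v : E3 => (max s ‖y - v‖ ^ 4)⁻¹) ∧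
    ∫ v : E3, (max s ‖y - v‖ ^ 4)⁻¹ = s⁻¹ * ∫ w : E3, (max 1 ‖w‖ ^ 4)⁻¹ := by
  obtain ⟨H, hH⟩ : ∃ H : E3 → ℝ, H = fun u : E3 => (s ^ 4)⁻¹ *
    (fun w : E3 => (max 1 ‖w‖ ^ 4)⁻¹) (s⁻¹ • u) := ⟨_, rfl⟩
  have e1 : (fun v : E3 => (max s ‖y - v‖ ^ 4)⁻¹) = fun v => H (y - v) := by
    funext v
    rw [hH]
    simp only
    rw [norm_smul, Real.norm_of_nonneg (inv_nonneg.2 hs.le)]
    have h1 : max s ‖y - v‖ = s * max 1 (s⁻¹ * ‖y - v‖) := by
      rw [mul_max_of_nonneg _ _ hs.le, mul_one, mul_inv_cancel_left₀ hs.ne']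
    rw [h1, mul_pow, mul_inv]
  have h1 : Integrable H := by
    rw [hH]
    exact (wl_F_int.comp_smul (inv_ne_zero hs.ne')).const_mul _
  rw [e1]
  refine ⟨h1.comp_sub_left y, ?_⟩
  have h2 := Measure.integral_comp_inv_smul (volume : Measure E3)
    (fun w : E3 => (max 1 ‖w‖ ^ 4)⁻¹) s
  rw [finrank_euclideanSpace, Fintype.card_fin, abs_of_pos (by positivity), smul_eq_mul] at h2
  have h3 : ∫ u : E3, H u = (s ^ 4)⁻¹ *
      ∫ u : E3, (fun w : E3 => (max 1 ‖w‖ ^ 4)⁻¹) (s⁻¹ • u) := by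
    rw [hH]
    exact integral_const_mul _ _
  rw [integral_sub_left_eq_self H volume y, h3, h2]
  field_simp

private theorem wl_J : ∃ C : ℝ, 0 ≤ C ∧ ∀ (s : ℝ) (_ : 0 < s) (y x : E3),
    ∫ v in Metric.ball x 12, (max s ‖y - v‖ ^ 4)⁻¹ ≤
      C * (s⁻¹ * (if ‖y - x‖ < 14 then 1 else 0) +
        (if ‖y - x‖ < 13 then 0 else (‖y - x‖ ^ 4)⁻¹)) := by
  obtain ⟨I, hI⟩ : ∃ I : ℝ, I = ∫ w : E3, (max 1 ‖w‖ ^ 4)⁻¹ := ⟨_, rfl⟩
  obtain ⟨Vv, hV⟩ : ∃ Vv : ℝ, Vv = (volume : Measure E3).real (Metric.ball 0 12) := ⟨_, rfl⟩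
  have hI0 : 0 ≤ I := by
    rw [hI]
    exact integral_nonneg fun w => by positivity
  have hV0 : 0 ≤ Vv := by
    rw [hV]
    exact measureReal_nonneg
  refine ⟨I + 13 ^ 4 * Vv, by positivity, fun s hs y x => ?_⟩
  obtain ⟨h1, h2⟩ := wl_T s hs y
  rw [← hI] at h2
  have hs' : 0 < s⁻¹ := inv_pos.2 hs
  by_cases h13 : ‖y - x‖ < 13
  · rw [if_pos (by linarith), if_pos h13, mul_one, add_zero]
    have h3 : ∫ v in Metric.ball x 12, (max s ‖y - v‖ ^ 4)⁻¹ ≤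
        ∫ v : E3, (max s ‖y - v‖ ^ 4)⁻¹ :=
      setIntegral_le_integral h1 (Filter.Eventually.of_forall fun v => by positivity)
    rw [h2] at h3
    nlinarith [mul_nonneg (mul_nonneg (by norm_num : (0 : ℝ) ≤ 13 ^ 4) hV0) hs'.le]
  · rw [if_neg h13]
    push Not at h13
    have hy0 : 0 < ‖y - x‖ := by linarith
    have h3 : ∀ v ∈ Metric.ball x 12, (max s ‖y - v‖ ^ 4)⁻¹ ≤ 13 ^ 4 * (‖y - x‖ ^ 4)⁻¹ := by
      intro v hv
      rw [Metric.mem_ball, dist_eq_norm] at hv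
      have h4 : ‖y - x‖ ≤ ‖y - v‖ + ‖v - x‖ := norm_sub_le_norm_sub_add_norm_sub _ _ _
      have h5 : ‖y - x‖ / 13 ≤ ‖y - v‖ := by linarith
      have h6 : ‖y - x‖ / 13 ≤ max s ‖y - v‖ := h5.trans (le_max_right _ _)
      have h7 : (‖y - x‖ / 13) ^ 4 ≤ max s ‖y - v‖ ^ 4 := pow_le_pow_left₀ (by positivity) h6 4
      calc (max s ‖y - v‖ ^ 4)⁻¹ ≤ ((‖y - x‖ / 13) ^ 4)⁻¹ := inv_anti₀ (by positivity) h7
        _ = 13 ^ 4 * (‖y - x‖ ^ 4)⁻¹ := by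
          rw [div_pow]
          field_simp
    have h4 : ∫ v in Metric.ball x 12, (max s ‖y - v‖ ^ 4)⁻¹ ≤
        ∫ _v in Metric.ball x 12, 13 ^ 4 * (‖y - x‖ ^ 4)⁻¹ := by
      refine setIntegral_mono_on h1.integrableOn
        (integrableOn_const (hs := measure_ball_lt_top.ne)) measurableSet_ball h3
    have h5 : ∫ _v in Metric.ball x 12, 13 ^ 4 * (‖y - x‖ ^ 4)⁻¹ =
        Vv * (13 ^ 4 * (‖y - x‖ ^ 4)⁻¹) := by
      rw [setIntegral_const, smul_eq_mul, hV]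
      congr 1
      unfold Measure.real
      rw [Measure.addHaar_ball_center]
    rw [h5] at h4
    have h6 : 0 ≤ (‖y - x‖ ^ 4)⁻¹ := by positivity
    have h7 : (0 : ℝ) ≤ s⁻¹ * (if ‖y - x‖ < 14 then 1 else 0) := by positivity
    have h8 : 0 ≤ (I + 13 ^ 4 * Vv) * (s⁻¹ * (if ‖y - x‖ < 14 then 1 else 0)) := by positivity
    have h9 : 0 ≤ I * (‖y - x‖ ^ 4)⁻¹ := by positivity
    nlinarith

private theorem wl_q4 : ∃ C : ℝ, 0 ≤ C ∧ ∀ (n k : ℕ) (s : ℝ) (_ : 0 < s) (p : Cfg n k) (x : E3),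
    ∫ v in Metric.ball x 12, q4 s p v ≤ C * (s⁻¹ * (ce p x 14 + cn p x 14) + tl 13 p x) := by
  obtain ⟨C, hC, hJ⟩ := wl_J
  refine ⟨C, hC, fun n k s hs p x => ?_⟩
  have hi : ∀ y : E3, IntegrableOn (fun v => (max s ‖y - v‖ ^ 4)⁻¹) (Metric.ball x 12) :=
    fun y => (wl_T s hs y).1.integrableOn
  unfold q4
  rw [integral_add (integrable_finsetSum _ fun a _ => hi _)
    (integrable_finsetSum _ fun j _ => hi _), integral_finsetSum _ fun a _ => hi _,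
    integral_finsetSum _ fun j _ => hi _]
  have h1 := sum_le_sum fun a (_ : a ∈ (univ : Finset (Fin n))) => hJ s hs (p.1 a) x
  have h2 := sum_le_sum fun j (_ : j ∈ (univ : Finset (Fin k))) => hJ s hs (p.2 j) x
  rw [← mul_sum, sum_add_distrib, ← mul_sum] at h1 h2
  unfold ce cn tl
  linarith

/-! ### the sectors -/

private theorem wl_sc (l : ℕ) : 0 < sc l ∧ sc l ≤ 1 ∧ (sc l)⁻¹ = 2 ^ (l + 3) := by
  unfold sc
  refine ⟨by positivity, ?_, inv_inv _⟩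
  apply inv_le_one_of_one_le₀
  exact one_le_pow₀ (by norm_num)

private theorem wl_pow (m : ℕ) (t : ℝ) (ht : (64 : ℝ) ^ m ≤ t) :
    (2 : ℝ) ^ m ≤ t ^ (1 / 6 : ℝ) ∧ ((2 : ℝ) ^ m) ^ 8 ≤ t ^ (4 / 3 : ℝ) := by
  have h64 : (64 : ℝ) ^ m = ((2 : ℝ) ^ m) ^ 6 := by
    rw [← pow_mul, mul_comm, pow_mul]
    norm_num
  have hp : (0 : ℝ) ≤ 2 ^ m := by positivity
  have h6 : ∀ e : ℝ, ((64 : ℝ) ^ m) ^ e = ((2 : ℝ) ^ m) ^ (6 * e) := by
    intro e
    rw [h64, ← Real.rpow_natCast ((2 : ℝ) ^ m) 6, ← Real.rpow_mul hp]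
    norm_num
  constructor
  · have h1 : ((64 : ℝ) ^ m) ^ (1 / 6 : ℝ) = 2 ^ m := by
      rw [h6]
      norm_num
    rw [← h1]
    exact Real.rpow_le_rpow (by positivity) ht (by norm_num)
  · have h1 : ((64 : ℝ) ^ m) ^ (4 / 3 : ℝ) = ((2 : ℝ) ^ m) ^ 8 := by
      rw [h6, ← Real.rpow_natCast ((2 : ℝ) ^ m) 8]
      norm_num
    rw [← h1]
    exact Real.rpow_le_rpow (by positivity) ht (by norm_num)

private theorem wl_mm0 {n k : ℕ} (θ : E3 → ℝ) (x : E3) (p : Cfg n k) : 0 ≤ mm θ x p :=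
  sum_nonneg fun a _ => sq_nonneg _

private theorem wl_sec {n k : ℕ} {θ : E3 → ℝ} (hθ : Cut θ) (x : E3) (l : ℕ) (p : Cfg n k)
    (hl : Gs θ x l p ≠ 0) : (sc l)⁻¹ ≤ 16 * (1 + mm θ x p ^ (1 / 6 : ℝ)) ∧
    (sc l ^ 8)⁻¹ ≤ 2 ^ 32 * (1 + mm θ x p ^ (4 / 3 : ℝ)) ∧ (sc l)⁻¹ ≤ 16 * ((n : ℝ) + 1) := by
  have hm0 := wl_mm0 θ x p
  have hr1 : 0 ≤ mm θ x p ^ (1 / 6 : ℝ) := Real.rpow_nonneg hm0 _
  have hr2 : 0 ≤ mm θ x p ^ (4 / 3 : ℝ) := Real.rpow_nonneg hm0 _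
  have hn0 : (0 : ℝ) ≤ n := Nat.cast_nonneg n
  rw [← inv_pow, (wl_sc l).2.2]
  cases l with
  | zero =>
    norm_num
    refine ⟨by linarith, ?_, by linarith⟩
    nlinarith
  | succ m =>
    have h1 := gl_lo m (mm θ x p) hl
    obtain ⟨h2, h3⟩ := wl_pow m (mm θ x p) h1.le
    have e1 : (2 : ℝ) ^ (m + 1 + 3) = 16 * 2 ^ m := by ring
    rw [e1]
    refine ⟨by nlinarith, ?_, ?_⟩
    · rw [mul_pow]
      norm_num
      nlinarith
    · have h4 : mm θ x p ≤ n := (mm_hi hθ x p).trans (ce_le p x 64)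
      have h5 : (2 : ℝ) ^ m ≤ 64 ^ m := pow_le_pow_left₀ (by norm_num) (by norm_num) m
      nlinarith

/-! ### measurability and integrability -/

private theorem wl_ce_meas {n k : ℕ} (r : ℝ) :
    Measurable (fun u : Cfg n k × E3 => ce u.1 u.2 r) := by
  unfold ce
  refine Finset.measurable_fun_sum _ fun a _ => ?_
  have h1 : Measurable (fun u : Cfg n k × E3 => ‖u.1.1 a - u.2‖) :=
    (((continuous_apply a).comp (continuous_fst.comp continuous_fst)).sub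
      continuous_snd).norm.measurable
  exact Measurable.ite (measurableSet_lt h1 measurable_const) measurable_const measurable_const

private theorem wl_q4_cont {n k : ℕ} (s : ℝ) (hs : 0 < s) :
    Continuous (fun u : Cfg n k × E3 => q4 s u.1 u.2) := by
  unfold q4
  have hpos : ∀ y : E3, max s ‖y‖ ^ 4 ≠ 0 := fun y => by
    have : 0 < max s ‖y‖ := lt_max_of_lt_left hs
    positivity
  refine Continuous.add (continuous_finsetSum _ fun a _ => ?_)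
    (continuous_finsetSum _ fun j _ => ?_)
  · exact Continuous.inv₀ ((continuous_const.max (((continuous_apply a).comp
      (continuous_fst.comp continuous_fst)).sub continuous_snd).norm).pow 4) fun u => hpos _
  · exact Continuous.inv₀ ((continuous_const.max (((continuous_apply j).comp
      (continuous_snd.comp continuous_fst)).sub continuous_snd).norm).pow 4) fun u => hpos _

private theorem wl_q4_bd {n k : ℕ} (s : ℝ) (hs : 0 < s) (p : Cfg n k) (v : E3) :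
    0 ≤ q4 s p v ∧ q4 s p v ≤ (n + k) * (s ^ 4)⁻¹ := by
  have h1 : ∀ y : E3, 0 ≤ (max s ‖y‖ ^ 4)⁻¹ ∧ (max s ‖y‖ ^ 4)⁻¹ ≤ (s ^ 4)⁻¹ := by
    intro y
    refine ⟨by positivity, inv_anti₀ (by positivity) (pow_le_pow_left₀ hs.le (le_max_left _ _) 4)⟩
  unfold q4
  constructor
  · exact add_nonneg (sum_nonneg fun a _ => (h1 _).1) (sum_nonneg fun a _ => (h1 _).1)
  · have e1 := sum_le_card_nsmul (univ : Finset (Fin n)) (fun a => (max s ‖p.1 a - v‖ ^ 4)⁻¹)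
      _ fun a _ => (h1 (p.1 a - v)).2
    have e2 := sum_le_card_nsmul (univ : Finset (Fin k)) (fun a => (max s ‖p.2 a - v‖ ^ 4)⁻¹)
      _ fun a _ => (h1 (p.2 a - v)).2
    rw [card_univ, Fintype.card_fin, nsmul_eq_mul] at e1 e2
    linarith

private theorem wl_tl_meas {n k : ℕ} (x : E3) : Measurable (fun p : Cfg n k => tl 13 p x) := by
  unfold tl
  refine Measurable.add (Finset.measurable_fun_sum _ fun a _ => ?_)
    (Finset.measurable_fun_sum _ fun j _ => ?_)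
  · have h1 : Measurable (fun p : Cfg n k => ‖p.1 a - x‖) := ((meas_e a).sub_const x).norm
    exact Measurable.ite (measurableSet_lt h1 measurable_const) measurable_const
      (h1.pow_const 4).inv
  · have h1 : Measurable (fun p : Cfg n k => ‖p.2 j - x‖) := ((meas_n j).sub_const x).norm
    exact Measurable.ite (measurableSet_lt h1 measurable_const) measurable_const
      (h1.pow_const 4).inv

private theorem wl_tl_bd {n k : ℕ} (p : Cfg n k) (x : E3) :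
    0 ≤ tl 13 p x ∧ tl 13 p x ≤ n + k := by
  have h1 : ∀ y : E3, 0 ≤ (if ‖y‖ < 13 then 0 else (‖y‖ ^ 4)⁻¹) ∧
      (if ‖y‖ < 13 then 0 else (‖y‖ ^ 4)⁻¹) ≤ 1 := by
    intro y
    split_ifs with h
    · norm_num
    · push Not at h
      refine ⟨by positivity, inv_le_one_of_one_le₀ (one_le_pow₀ (by linarith))⟩
  unfold tl
  constructor
  · exact add_nonneg (sum_nonneg fun a _ => (h1 _).1) (sum_nonneg fun a _ => (h1 _).1)
  · have e1 := sum_le_card_nsmul (univ : Finset (Fin n))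
      (fun a => if ‖p.1 a - x‖ < 13 then 0 else (‖p.1 a - x‖ ^ 4)⁻¹) 1 fun a _ => (h1 (p.1 a - x)).2
    have e2 := sum_le_card_nsmul (univ : Finset (Fin k))
      (fun a => if ‖p.2 a - x‖ < 13 then 0 else (‖p.2 a - x‖ ^ 4)⁻¹) 1 fun a _ => (h1 (p.2 a - x)).2
    rw [card_univ, Fintype.card_fin, nsmul_eq_mul, mul_one] at e1 e2
    linarith

private theorem wl_IM {q n k : ℕ} {Λ : Set E3} {ψ : (Fin n → Fin q) → Cfg n k → ℂ}
    (hψ : Sm q n k Λ ψ) {g : Cfg n k → ℝ} (hg : Continuous g)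
    (hg1 : ∀ p, 0 ≤ g p ∧ g p ≤ 1) {F : Cfg n k → ℝ} (hF : IM ψ F) :
    IM ψ (fun p => g p ^ 2 * F p) := by
  refine hF.bmul (hg.pow 2).measurable 1 fun p => ?_
  rw [abs_of_nonneg (sq_nonneg _)]
  exact pow_le_one₀ (hg1 p).1 (hg1 p).2

private theorem wl_int3 (x : E3) (c : ℝ) (f g : E3 → ℝ) (hf : IntegrableOn f (Metric.ball x 12))
    (hg : IntegrableOn g (Metric.ball x 12)) :
    IntegrableOn (fun v => c + f v + g v) (Metric.ball x 12) ∧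
    ∫ v in Metric.ball x 12, (c + f v + g v) = c * (volume : Measure E3).real (Metric.ball 0 12) +
      (∫ v in Metric.ball x 12, f v) + ∫ v in Metric.ball x 12, g v := by
  have hc : IntegrableOn (fun _ : E3 => c) (Metric.ball x 12) :=
    integrableOn_const (hs := measure_ball_lt_top.ne)
  refine ⟨(hc.add hf).add hg, ?_⟩
  have h1 : ∫ v in Metric.ball x 12, (c + f v + g v) =
      (∫ v in Metric.ball x 12, (c + f v)) + ∫ v in Metric.ball x 12, g v :=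
    integral_add (hc.add hf) hg
  have h2 : ∫ v in Metric.ball x 12, (c + f v) =
      (∫ _v in Metric.ball x 12, c) + ∫ v in Metric.ball x 12, f v := integral_add hc hf
  have e5 : (volume : Measure E3).real (Metric.ball x 12) =
      (volume : Measure E3).real (Metric.ball 0 12) := by
    unfold Measure.real
    rw [Measure.addHaar_ball_center]
  rw [h1, h2, setIntegral_const, smul_eq_mul, e5, mul_comm]

/-- one sector -/
private theorem wl_term {q n k : ℕ} {Λ : Set E3} {ψ : (Fin n → Fin q) → Cfg n k → ℂ}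
    (hψ : Sm q n k Λ ψ) (x : E3) {g : Cfg n k → ℝ} (hg : Continuous g)
    (hg1 : ∀ p, 0 ≤ g p ∧ g p ≤ 1) {s : ℝ} (hs : 0 < s) {u : Cfg n k × E3 → ℝ}
    (hu : Continuous u) {M : ℝ} (hM : ∀ p v, |u (p, v)| ≤ M) {A a C1 C2 : ℝ} (hC1 : 0 ≤ C1)
    (h1 : ∀ v ∈ Metric.ball x 12, mean ψ (fun p => g p ^ 2 * u (p, v) ^ 2) ≤
      C1 * (a + mean ψ (fun p => g p ^ 2 * (1 + A ^ 2 + (s ^ 8)⁻¹ +
        (s ^ 2)⁻¹ * ce p v (2 * s) ^ 2 + q4 s p v))))
    (h2 : ∀ p : Cfg n k, ∫ v in Metric.ball x 12, q4 s p v ≤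
      C2 * (s⁻¹ * (ce p x 14 + cn p x 14) + tl 13 p x)) :
    ∫ v in Metric.ball x 12, mean ψ (fun p => g p ^ 2 * u (p, v) ^ 2) ≤
      C1 * ((a + mean ψ (fun p => g p ^ 2 * (1 + A ^ 2 + (s ^ 8)⁻¹))) *
        (volume : Measure E3).real (Metric.ball 0 12) +
        (∫ v in Metric.ball x 12, mean ψ (fun p => g p ^ 2 * ((s ^ 2)⁻¹ * ce p v (7 * s) ^ 2))) +
        mean ψ (fun p => g p ^ 2 * (C2 * (s⁻¹ * (ce p x 14 + cn p x 14) + tl 13 p x)))) := by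
  have hgm : Measurable (fun w : Cfg n k × E3 => g w.1 ^ 2) :=
    ((hg.comp continuous_fst).pow 2).measurable
  have hg2 : ∀ p, 0 ≤ g p ^ 2 ∧ g p ^ 2 ≤ 1 := fun p =>
    ⟨sq_nonneg _, pow_le_one₀ (hg1 p).1 (hg1 p).2⟩
  have hce : ∀ (r : ℝ) (p : Cfg n k) (v : E3), 0 ≤ (s ^ 2)⁻¹ * ce p v r ^ 2 ∧
      (s ^ 2)⁻¹ * ce p v r ^ 2 ≤ (s ^ 2)⁻¹ * n ^ 2 := by
    intro r p v
    refine ⟨by positivity, mul_le_mul_of_nonneg_left ?_ (by positivity)⟩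
    exact pow_le_pow_left₀ (ce_nonneg p v r) (ce_le p v r) 2
  have habs : ∀ (p : Cfg n k) (t T : ℝ), 0 ≤ t → t ≤ T → |g p ^ 2 * t| ≤ T := by
    intro p t T h0 hT
    rw [abs_of_nonneg (mul_nonneg (hg2 p).1 h0)]
    calc g p ^ 2 * t ≤ 1 * t := mul_le_mul_of_nonneg_right (hg2 p).2 h0
      _ ≤ T := by rw [one_mul]; exact hT
  -- the left side
  have b1 := mean_ball hψ x 12 (F := fun v p => g p ^ 2 * u (p, v) ^ 2)
    (hgm.mul (hu.pow 2).measurable) (G := fun _ => M ^ 2) continuous_const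
    (fun v _ p => habs p _ _ (sq_nonneg _) (by
      rw [← sq_abs]
      exact pow_le_pow_left₀ (abs_nonneg _) (hM p v) 2))
  have hm3 : ∀ r : ℝ, Measurable (fun w : Cfg n k × E3 =>
      g w.1 ^ 2 * ((s ^ 2)⁻¹ * ce w.1 w.2 r ^ 2)) := fun r =>
    hgm.mul (((wl_ce_meas r).pow_const 2).const_mul _)
  have b3 := mean_ball hψ x 12 (F := fun v p => g p ^ 2 * ((s ^ 2)⁻¹ * ce p v (7 * s) ^ 2))
    (hm3 (7 * s)) (G := fun _ => (s ^ 2)⁻¹ * n ^ 2) continuous_const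
    (fun v _ p => habs p _ _ (hce _ p v).1 (hce _ p v).2)
  have b4 := mean_ball hψ x 12 (F := fun v p => g p ^ 2 * q4 s p v)
    (hgm.mul (wl_q4_cont s hs).measurable) (G := fun _ => (n + k) * (s ^ 4)⁻¹) continuous_const
    (fun v _ p => habs p _ _ (wl_q4_bd s hs p v).1 (wl_q4_bd s hs p v).2)
  -- pointwise in v
  have i0 : IM ψ (fun p => g p ^ 2 * (1 + A ^ 2 + (s ^ 8)⁻¹)) :=
    IM.cont hψ ((hg.pow 2).mul continuous_const)
  have i2 : ∀ (r : ℝ) (v : E3), IM ψ (fun p => g p ^ 2 * ((s ^ 2)⁻¹ * ce p v r ^ 2)) := by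
    intro r v
    refine IM.bdd hψ ?_ ((s ^ 2)⁻¹ * n ^ 2) fun p => habs p _ _ (hce r p v).1 (hce r p v).2
    exact (hg.pow 2).measurable.mul (((ce_meas v r).pow_const 2).const_mul _)
  have i4 : ∀ v : E3, IM ψ (fun p => g p ^ 2 * q4 s p v) := by
    intro v
    have hc : Continuous (fun p : Cfg n k => (p, v)) := by fun_prop
    have hq : Continuous (fun p : Cfg n k => q4 s p v) :=
      Continuous.comp (g := fun u : Cfg n k × E3 => q4 s u.1 u.2) (f := fun p => (p, v))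
        (wl_q4_cont s hs) hc
    have hgq : Continuous (fun p : Cfg n k => g p ^ 2 * q4 s p v) := (hg.pow 2).mul hq
    exact IM.cont hψ hgq
  have h3 : ∀ v ∈ Metric.ball x 12, mean ψ (fun p => g p ^ 2 * u (p, v) ^ 2) ≤
      C1 * (a + mean ψ (fun p => g p ^ 2 * (1 + A ^ 2 + (s ^ 8)⁻¹)) +
        mean ψ (fun p => g p ^ 2 * ((s ^ 2)⁻¹ * ce p v (7 * s) ^ 2)) +
        mean ψ (fun p => g p ^ 2 * q4 s p v)) := by
    intro v hv
    refine (h1 v hv).trans (mul_le_mul_of_nonneg_left ?_ hC1)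
    have e1 : mean ψ (fun p => g p ^ 2 * (1 + A ^ 2 + (s ^ 8)⁻¹ +
        (s ^ 2)⁻¹ * ce p v (2 * s) ^ 2 + q4 s p v)) =
        mean ψ (fun p => g p ^ 2 * (1 + A ^ 2 + (s ^ 8)⁻¹)) +
        mean ψ (fun p => g p ^ 2 * ((s ^ 2)⁻¹ * ce p v (2 * s) ^ 2)) +
        mean ψ (fun p => g p ^ 2 * q4 s p v) := by
      rw [← mean_add i0 (i2 _ v), ← mean_add (i0.add (i2 _ v)) (i4 v)]
      refine mean_congr fun σ p _ => ?_
      ring
    have e2 : mean ψ (fun p => g p ^ 2 * ((s ^ 2)⁻¹ * ce p v (2 * s) ^ 2)) ≤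
        mean ψ (fun p => g p ^ 2 * ((s ^ 2)⁻¹ * ce p v (7 * s) ^ 2)) := by
      refine mean_mono (i2 _ v) (i2 _ v) fun σ p _ => ?_
      refine mul_le_mul_of_nonneg_left (mul_le_mul_of_nonneg_left ?_ (by positivity)) (hg2 p).1
      refine pow_le_pow_left₀ (ce_nonneg p v _) (ce_mono p ?_) 2
      rw [sub_self, norm_zero]
      linarith
    rw [e1]
    linarith
  -- integrate
  obtain ⟨c1, c2⟩ := wl_int3 x (a + mean ψ (fun p => g p ^ 2 * (1 + A ^ 2 + (s ^ 8)⁻¹)))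
    _ _ b3.1 b4.1
  have h4 : ∫ v in Metric.ball x 12, mean ψ (fun p => g p ^ 2 * u (p, v) ^ 2) ≤
      ∫ v in Metric.ball x 12, C1 * (a + mean ψ (fun p => g p ^ 2 * (1 + A ^ 2 + (s ^ 8)⁻¹)) +
        mean ψ (fun p => g p ^ 2 * ((s ^ 2)⁻¹ * ce p v (7 * s) ^ 2)) +
        mean ψ (fun p => g p ^ 2 * q4 s p v)) :=
    setIntegral_mono_on b1.1 (c1.const_mul C1) measurableSet_ball h3
  refine h4.trans ?_
  rw [integral_const_mul]
  refine mul_le_mul_of_nonneg_left ?_ hC1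
  rw [c2, b4.2.2]
  have h6 : mean ψ (fun p => ∫ v in Metric.ball x 12, g p ^ 2 * q4 s p v) ≤
      mean ψ (fun p => g p ^ 2 * (C2 * (s⁻¹ * (ce p x 14 + cn p x 14) + tl 13 p x))) := by
    have i6 : IM ψ (fun p => C2 * (s⁻¹ * (ce p x 14 + cn p x 14) + tl 13 p x)) := by
      refine IM.cmul C2 ((IM.cmul s⁻¹ ((IM_ce hψ x 14).add (IM_cn hψ x 14))).add ?_)
      refine IM.bdd hψ (wl_tl_meas x) (n + k) fun p => ?_
      rw [abs_of_nonneg (wl_tl_bd p x).1]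
      exact (wl_tl_bd p x).2
    refine mean_mono b4.2.1 (wl_IM hψ hg hg1 i6) fun σ p _ => ?_
    rw [integral_const_mul]
    exact mul_le_mul_of_nonneg_left (h2 p) (hg2 p).1
  linarith

private theorem wl_geo (m : ℕ) : ∑ l ∈ range (m + 1), ((64 : ℝ) ^ l)⁻¹ ≤ 2 - ((64 : ℝ) ^ m)⁻¹ := by
  induction m with
  | zero => norm_num
  | succ m ih =>
    rw [sum_range_succ]
    have h1 : ((64 : ℝ) ^ (m + 1))⁻¹ = ((64 : ℝ) ^ m)⁻¹ / 64 := by
      rw [pow_succ, mul_inv]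
      ring
    have h2 : 0 < ((64 : ℝ) ^ m)⁻¹ := by positivity
    rw [h1]
    linarith

private theorem wl_sum {q n k : ℕ} {Λ : Set E3} {ψ : (Fin n → Fin q) → Cfg n k → ℂ}
    (hψ : Sm q n k Λ ψ) {θ : E3 → ℝ} (hθ : Cut θ) (x : E3) {Q : Cfg n k → ℝ} (hQ : IM ψ Q)
    (hQ0 : ∀ p, 0 ≤ Q p) :
    ∑ l ∈ range (n + 1), mean ψ (fun p => Gs θ x l p ^ 2 * Q p) ≤ 3 * mean ψ Q := by
  have hi : ∀ l ∈ range (n + 1), IM ψ (fun p => Gs θ x l p ^ 2 * Q p) := fun l _ =>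
    wl_IM hψ (Gs_smooth hθ x l).continuous (Gs_mem x l) hQ
  rw [← mean_sum _ hi, ← mean_cmul]
  refine mean_mono (IM.sum _ hi) (hQ.cmul 3) fun σ p _ => ?_
  rw [← sum_mul]
  refine mul_le_mul_of_nonneg_right ?_ (hQ0 p)
  refine (sum_le_sum fun l _ => ?_).trans (Gs_sum_le (θ := θ) x p n)
  have h1 := Gs_mem (θ := θ) x l p
  nlinarith

private theorem wl_alg {V B C2 CG ε n G g S2 S3 m4 mn mt ss X : ℝ} (hV : 0 ≤ V) (hB : 0 ≤ B)
    (hC2 : 0 ≤ C2) (hCG : 0 ≤ CG) (hε : ε * (n + 1) ^ 3 ≤ 1) (hG : G ≤ 2 - g) (hg : 0 < g)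
    (h2 : S2 ≤ 3 * (B + 2 ^ 32 * m4)) (h3 : S3 ≤ 3 * (16 * mn + mt)) (n1 : 0 ≤ m4)
    (n2 : 0 ≤ mn) (n3 : 0 ≤ mt) (n4 : 0 ≤ ss)
    (hX : X = (n + 1) * (17 * ε * (n + 1) ^ 2)) :
    V * (X + (CG + CG ^ 2) * G) + V * S2 + ss + C2 * S3 ≤
      (V * (17 + 2 * (CG + CG ^ 2)) + 3 * V * B + 3 * V * 2 ^ 32 + 1 + 48 * C2 + 3 * C2) *
        (1 + m4 + ss + mn + mt) := by
  have a1 : X ≤ 17 := by
    rw [hX]
    nlinarith
  have a2 : (CG + CG ^ 2) * G ≤ 2 * (CG + CG ^ 2) := by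
    have : 0 ≤ CG + CG ^ 2 := by positivity
    nlinarith
  have a3 : V * (X + (CG + CG ^ 2) * G) ≤ V * (17 + 2 * (CG + CG ^ 2)) :=
    mul_le_mul_of_nonneg_left (by linarith) hV
  have a4 : V * S2 ≤ V * (3 * (B + 2 ^ 32 * m4)) := mul_le_mul_of_nonneg_left h2 hV
  have a5 : C2 * S3 ≤ C2 * (3 * (16 * mn + mt)) := mul_le_mul_of_nonneg_left h3 hC2
  obtain ⟨K, hK⟩ : ∃ K : ℝ, K = V * (17 + 2 * (CG + CG ^ 2)) := ⟨_, rfl⟩
  have hK0 : 0 ≤ K := by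
    rw [hK]
    positivity
  rw [← hK] at a3 ⊢
  have b1 : 0 ≤ V * B := mul_nonneg hV hB
  have b2 : 0 ≤ K * (m4 + ss + mn + mt) := by positivity
  have b3 : 0 ≤ V * B * (m4 + ss + mn + mt) := by positivity
  have b4 : 0 ≤ V * (1 + ss + mn + mt) := by positivity
  have b5 : 0 ≤ C2 * (1 + m4 + ss + mt) := by positivity
  have b6 : 0 ≤ C2 * (1 + m4 + ss + mn) := by positivity
  have e1 : (K + 3 * V * B + 3 * V * 2 ^ 32 + 1 + 48 * C2 + 3 * C2) * (1 + m4 + ss + mn + mt) =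
      (K + K * (m4 + ss + mn + mt)) + 3 * (V * B + V * B * (m4 + ss + mn + mt)) +
      3 * 2 ^ 32 * (V * m4 + V * (1 + ss + mn + mt)) + (1 + m4 + ss + mn + mt) +
      48 * (C2 * mn + C2 * (1 + m4 + ss + mt)) + 3 * (C2 * mt + C2 * (1 + m4 + ss + mn)) := by
    ring
  rw [e1]
  linarith

theorem ww_le (q : ℕ) (zm zp κp A : ℝ) (hzm : 0 < zm) (hA : 0 ≤ A) {χ : E3 → ℝ}
    (hχ : Bump χ) {θ : E3 → ℝ} (hθ : Cut θ) : ∃ C : ℝ, 0 ≤ C ∧
    ∀ (n k : ℕ) (Λ : Set E3) (z κ : Fin k → ℝ) (_ : ∀ j, zm ≤ z j ∧ z j ≤ zp)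
    (_ : ∀ j, 0 ≤ κ j ∧ κ j ≤ κp) (_ : ∑ j, z j = n) (E : ℝ)
    (_ : LB q n k Λ z κ E) (ψ : (Fin n → Fin q) → Cfg n k → ℂ)
    (_ : St q n k Λ ψ) (_ : mass ψ = 1)
    (_ : energy z κ ψ ≤ E + (((n : ℝ) + k + 1) ^ 4)⁻¹)
    (W : Finset E3) (_ : Rf A Λ W ψ) (x : E3) (_ : Metric.closedBall x 14 ⊆ Λ),
    WW χ θ W z ψ x ≤ C * (1 + mean ψ (fun p => mm θ x p ^ (4 / 3 : ℝ)) + SS θ ψ x +
      mean ψ (fun p => (1 + mm θ x p ^ (1 / 6 : ℝ)) * (ce p x 14 + cn p x 14)) +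
      mean ψ (fun p => tl 13 p x)) := by
  obtain ⟨C1, hC1, hsm⟩ := sm1 q zm zp κp hzm hχ
  obtain ⟨C2, hC2, hq4⟩ := wl_q4
  obtain ⟨CG, hCG, hGg⟩ := Gs_grad hθ
  obtain ⟨Cu, hCu, hub⟩ := uh_bd hχ
  obtain ⟨V, hV⟩ : ∃ V : ℝ, V = (volume : Measure E3).real (Metric.ball 0 12) := ⟨_, rfl⟩
  have hV0 : 0 ≤ V := by
    rw [hV]
    exact measureReal_nonneg
  obtain ⟨B, hB⟩ : ∃ B : ℝ, B = 1 + A ^ 2 + 2 ^ 32 := ⟨_, rfl⟩
  have hB0 : 0 ≤ B := by
    rw [hB]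
    positivity
  refine ⟨C1 * (V * (17 + 2 * (CG + CG ^ 2)) + 3 * V * B + 3 * V * 2 ^ 32 + 1 + 48 * C2 +
    3 * C2), by positivity, ?_⟩
  intro n k Λ z κ hz hκ hzn E hLB ψ hψ hm1 hen W hRf x hxΛ
  have hSm := St_sm hψ
  obtain ⟨ε, hε⟩ : ∃ ε : ℝ, ε = (((n : ℝ) + k + 1) ^ 4)⁻¹ := ⟨_, rfl⟩
  rw [← hε] at hen
  have hε0 : 0 ≤ ε := by
    rw [hε]
    positivity
  have hn0 : (0 : ℝ) ≤ n := Nat.cast_nonneg n
  have hk0 : (0 : ℝ) ≤ k := Nat.cast_nonneg k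
  have hεn : ε * ((n : ℝ) + 1) ^ 3 ≤ 1 := by
    rw [hε, inv_mul_le_iff₀ (by positivity), mul_one]
    calc ((n : ℝ) + 1) ^ 3 ≤ ((n : ℝ) + 1) ^ 4 :=
          pow_le_pow_right₀ (by linarith) (by norm_num)
      _ ≤ ((n : ℝ) + k + 1) ^ 4 := pow_le_pow_left₀ (by positivity) (by linarith) 4
  obtain ⟨M4, hM4⟩ : ∃ M4 : Cfg n k → ℝ, M4 = fun p => mm θ x p ^ (4 / 3 : ℝ) := ⟨_, rfl⟩
  obtain ⟨M1, hM1⟩ : ∃ M1 : Cfg n k → ℝ, M1 = fun p => mm θ x p ^ (1 / 6 : ℝ) := ⟨_, rfl⟩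
  obtain ⟨N, hN⟩ : ∃ N : Cfg n k → ℝ, N = fun p => ce p x 14 + cn p x 14 := ⟨_, rfl⟩
  obtain ⟨T, hT⟩ : ∃ T : Cfg n k → ℝ, T = fun p => tl 13 p x := ⟨_, rfl⟩
  have hM40 : ∀ p, 0 ≤ M4 p := fun p => by
    rw [hM4]
    exact Real.rpow_nonneg (wl_mm0 θ x p) _
  have hM10 : ∀ p, 0 ≤ M1 p := fun p => by
    rw [hM1]
    exact Real.rpow_nonneg (wl_mm0 θ x p) _
  have hN0 : ∀ p, 0 ≤ N p := fun p => by
    rw [hN]
    exact add_nonneg (ce_nonneg p x _) (cn_nonneg p x _)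
  have hT0 : ∀ p, 0 ≤ T p := fun p => by
    rw [hT]
    exact (wl_tl_bd p x).1
  have hmc : Continuous (mm (n := n) (k := k) θ x) := (mm_smooth hθ x).continuous
  have iM4 : IM ψ M4 := by
    rw [hM4]
    exact IM.cont hSm (hmc.rpow_const fun _ => Or.inr (by norm_num))
  have cM1 : Continuous M1 := by
    rw [hM1]
    exact hmc.rpow_const fun _ => Or.inr (by norm_num)
  have mN : Measurable N := by
    rw [hN]
    exact (ce_meas x 14).add (cn_meas x 14)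
  have iMN : IM ψ (fun p => (1 + M1 p) * N p) := by
    have h1 : IM ψ (fun p => 1 + M1 p) := IM.cont hSm (continuous_const.add cM1)
    have h2 := h1.bmul mN (n + k) fun p => by
      rw [abs_of_nonneg (hN0 p), hN]
      exact add_le_add (ce_le p x _) (cn_le p x _)
    exact h2.congr fun σ p _ => mul_comm _ _
  have iT : IM ψ T := by
    rw [hT]
    refine IM.bdd hSm (wl_tl_meas x) (n + k) fun p => ?_
    rw [abs_of_nonneg (wl_tl_bd p x).1]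
    exact (wl_tl_bd p x).2
  have i1 : IM ψ (fun _ => (1 : ℝ)) := IM.cont hSm continuous_const
  have hQ1 : IM ψ (fun p => B + 2 ^ 32 * M4 p) := by
    have h1 := (i1.cmul B).add (iM4.cmul (2 ^ 32))
    refine h1.congr fun σ p _ => ?_
    rw [mul_one]
  have hQ2 : IM ψ (fun p => 16 * ((1 + M1 p) * N p) + T p) := (iMN.cmul 16).add iT
  have hQ10 : ∀ p, 0 ≤ B + 2 ^ 32 * M4 p := fun p => by
    have := hM40 p
    positivity
  have hQ20 : ∀ p, 0 ≤ 16 * ((1 + M1 p) * N p) + T p := fun p => by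
    have h1 := hM10 p
    have h2 := hN0 p
    have h3 := hT0 p
    positivity
  -- one sector
  obtain ⟨S, hS⟩ : ∃ S : ℕ → ℝ, S = fun l => ∫ v in Metric.ball x 12,
    mean ψ (fun p => Gs θ x l p ^ 2 * ((sc l ^ 2)⁻¹ * ce p v (7 * sc l) ^ 2)) := ⟨_, rfl⟩
  have hS0 : ∀ l, 0 ≤ S l := fun l => by
    rw [hS]
    exact integral_nonneg fun v => mean_nonneg fun σ p _ => by positivity
  have hsec : ∀ l ∈ range (n + 1), ∫ v in Metric.ball x 12,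
      mean ψ (fun p => Gs θ x l p ^ 2 * uh χ (sc l) W z p v ^ 2) ≤
      C1 * (V * (17 * ε * ((n : ℝ) + 1) ^ 2 + (CG + CG ^ 2) * ((64 : ℝ) ^ l)⁻¹) +
        V * mean ψ (fun p => Gs θ x l p ^ 2 * (B + 2 ^ 32 * M4 p)) + S l +
        C2 * mean ψ (fun p => Gs θ x l p ^ 2 * (16 * ((1 + M1 p) * N p) + T p))) := by
    intro l _
    obtain ⟨g, hg⟩ : ∃ g : Cfg n k → ℝ, g = Gs θ x l := ⟨_, rfl⟩
    obtain ⟨hs0, hs1, -⟩ := wl_sc l
    have h64 : 0 < ((64 : ℝ) ^ l)⁻¹ ∧ ((64 : ℝ) ^ l)⁻¹ ≤ 1 :=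
      ⟨by positivity, inv_le_one_of_one_le₀ (one_le_pow₀ (by norm_num))⟩
    have hm1' : 0 ≤ mean ψ (fun p => Gs θ x l p ^ 2 * (B + 2 ^ 32 * M4 p)) :=
      mean_nonneg fun σ p _ => mul_nonneg (sq_nonneg _) (hQ10 p)
    have hm2' : 0 ≤ mean ψ (fun p => Gs θ x l p ^ 2 * (16 * ((1 + M1 p) * N p) + T p)) :=
      mean_nonneg fun σ p _ => mul_nonneg (sq_nonneg _) (hQ20 p)
    have hSl := hS0 l
    by_cases hz0 : ∀ p : Cfg n k, Gs θ x l p = 0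
    · have e1 : ∀ v : E3, mean ψ (fun p => Gs θ x l p ^ 2 * uh χ (sc l) W z p v ^ 2) = 0 := by
        intro v
        have e2 : mean ψ (fun p => Gs θ x l p ^ 2 * uh χ (sc l) W z p v ^ 2) =
            mean ψ (fun _ => 0) := mean_congr fun σ p _ => by
          rw [hz0 p]
          ring
        rw [e2, mean_const, zero_mul]
      simp only [e1, integral_zero]
      have h1 := h64.1.le
      positivity
    · push Not at hz0
      obtain ⟨p0, hp0⟩ := hz0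
      have hsn : (sc l)⁻¹ ≤ 16 * ((n : ℝ) + 1) := (wl_sec hθ x l p0 hp0).2.2
      have hcg : Continuous (Gs (n := n) (k := k) θ x l) := (Gs_smooth hθ x l).continuous
      have hgm : ∀ p : Cfg n k, 0 ≤ Gs θ x l p ∧ Gs θ x l p ≤ 1 := Gs_mem x l
      have h1 := wl_term hSm x hcg hgm hs0 (uh_joint hχ (sc l) hs0 W z)
        (M := Cu * n * (sc l)⁻¹)
        (fun p v => hub n k z (fun j => hzm.le.trans (hz j).1) hzn W (sc l) hs0 hs1 p v)
        (A := A) (a := ε * (1 + n * (sc l)⁻¹) + CG * ((64 : ℝ) ^ l)⁻¹ +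
          (CG * ((64 : ℝ) ^ l)⁻¹) ^ 2) (C1 := C1) (C2 := C2) hC1
        (fun v hv => by
          refine hsm n k Λ z κ hz hκ hzn E ε hε0 hLB ψ hψ hm1 hen A hA W hRf (Gs θ x l)
            (Gs_smooth hθ x l) (Gs_sy x l) hgm (CG * ((64 : ℝ) ^ l)⁻¹) (by positivity)
            (fun p => hGg n k κ x l p) (sc l) hs0 hs1 v ?_
          refine (Metric.closedBall_subset_closedBall' ?_).trans hxΛ
          rw [Metric.mem_ball] at hv
          linarith)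
        (fun p => hq4 n k (sc l) hs0 p x)
      refine h1.trans (mul_le_mul_of_nonneg_left ?_ hC1)
      rw [← hV]
      have e0 : (∫ v in Metric.ball x 12, mean ψ (fun p => Gs θ x l p ^ 2 *
          ((sc l ^ 2)⁻¹ * ce p v (7 * sc l) ^ 2))) = S l := by
        rw [hS]
      rw [e0]
      have e1 : ε * (1 + n * (sc l)⁻¹) + CG * ((64 : ℝ) ^ l)⁻¹ +
          (CG * ((64 : ℝ) ^ l)⁻¹) ^ 2 ≤
          17 * ε * ((n : ℝ) + 1) ^ 2 + (CG + CG ^ 2) * ((64 : ℝ) ^ l)⁻¹ := by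
        have f1 : (n : ℝ) * (sc l)⁻¹ ≤ n * (16 * (n + 1)) := mul_le_mul_of_nonneg_left hsn hn0
        have f2 : ε * (1 + n * (sc l)⁻¹) ≤ ε * (17 * ((n : ℝ) + 1) ^ 2) := by
          refine mul_le_mul_of_nonneg_left ?_ hε0
          nlinarith
        have f3 : (CG * ((64 : ℝ) ^ l)⁻¹) ^ 2 ≤ CG ^ 2 * ((64 : ℝ) ^ l)⁻¹ := by
          rw [mul_pow]
          refine mul_le_mul_of_nonneg_left ?_ (sq_nonneg _)
          have f4 := h64.1
          have f5 := h64.2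
          nlinarith
        calc _ ≤ ε * (17 * ((n : ℝ) + 1) ^ 2) + CG * ((64 : ℝ) ^ l)⁻¹ +
              CG ^ 2 * ((64 : ℝ) ^ l)⁻¹ := by linarith
          _ = _ := by ring
      have e2 : mean ψ (fun p => Gs θ x l p ^ 2 * (1 + A ^ 2 + (sc l ^ 8)⁻¹)) ≤
          mean ψ (fun p => Gs θ x l p ^ 2 * (B + 2 ^ 32 * M4 p)) := by
        refine mean_mono (IM.cont hSm ((hcg.pow 2).mul continuous_const))
          (wl_IM hSm hcg hgm hQ1) fun σ p _ => ?_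
        by_cases hgp : Gs θ x l p = 0
        · rw [hgp]
          simp
        · refine mul_le_mul_of_nonneg_left ?_ (sq_nonneg _)
          have f1 := (wl_sec hθ x l p hgp).2.1
          rw [hB, hM4]
          linarith
      have e3 : mean ψ (fun p => Gs θ x l p ^ 2 * (C2 * ((sc l)⁻¹ * (ce p x 14 + cn p x 14) +
          tl 13 p x))) ≤
          C2 * mean ψ (fun p => Gs θ x l p ^ 2 * (16 * ((1 + M1 p) * N p) + T p)) := by
        rw [← mean_cmul]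
        refine mean_mono ?_ ((wl_IM hSm hcg hgm hQ2).cmul C2) fun σ p _ => ?_
        · refine wl_IM hSm hcg hgm (IM.cmul C2 ((IM.cmul (sc l)⁻¹ ((IM_ce hSm x 14).add
            (IM_cn hSm x 14))).add ?_))
          rw [hT] at iT
          exact iT
        by_cases hgp : Gs θ x l p = 0
        · rw [hgp]
          simp
        · have f1 := (wl_sec hθ x l p hgp).1
          have f2 := hN0 p
          have f3 : (sc l)⁻¹ * (ce p x 14 + cn p x 14) ≤ 16 * ((1 + M1 p) * N p) := by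
            have f4 := mul_le_mul_of_nonneg_right f1 f2
            rw [hM1]
            rw [hN] at f4 ⊢
            linarith
          have f4 : C2 * ((sc l)⁻¹ * (ce p x 14 + cn p x 14) + tl 13 p x) ≤
              C2 * (16 * ((1 + M1 p) * N p) + T p) := by
            refine mul_le_mul_of_nonneg_left ?_ hC2
            rw [hT]
            exact add_le_add f3 le_rfl
          calc _ ≤ Gs θ x l p ^ 2 * (C2 * (16 * ((1 + M1 p) * N p) + T p)) :=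
                mul_le_mul_of_nonneg_left f4 (sq_nonneg _)
            _ = _ := by ring
      have e4 := mul_le_mul_of_nonneg_right (add_le_add e1 e2) hV0
      linarith
  -- the sum
  have h1 : WW χ θ W z ψ x ≤ ∑ l ∈ range (n + 1),
      C1 * (V * (17 * ε * ((n : ℝ) + 1) ^ 2 + (CG + CG ^ 2) * ((64 : ℝ) ^ l)⁻¹) +
        V * mean ψ (fun p => Gs θ x l p ^ 2 * (B + 2 ^ 32 * M4 p)) + S l +
        C2 * mean ψ (fun p => Gs θ x l p ^ 2 * (16 * ((1 + M1 p) * N p) + T p))) :=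
    sum_le_sum hsec
  refine h1.trans ?_
  have hsX : ∑ l ∈ range (n + 1), (17 * ε * ((n : ℝ) + 1) ^ 2 +
      (CG + CG ^ 2) * ((64 : ℝ) ^ l)⁻¹) = ((n + 1 : ℕ) : ℝ) * (17 * ε * ((n : ℝ) + 1) ^ 2) +
      (CG + CG ^ 2) * ∑ l ∈ range (n + 1), ((64 : ℝ) ^ l)⁻¹ := by
    rw [sum_add_distrib, sum_const, card_range, nsmul_eq_mul, mul_sum]
  rw [← mul_sum, sum_add_distrib, sum_add_distrib, sum_add_distrib, ← mul_sum, ← mul_sum,
    ← mul_sum, hsX]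
  have s1 := wl_geo n
  have s2 := wl_sum hSm hθ x hQ1 hQ10
  have s3 := wl_sum hSm hθ x hQ2 hQ20
  have s4 : ∑ l ∈ range (n + 1), S l = SS θ ψ x := by
    rw [hS]
    rfl
  have s5 : mean ψ (fun p => B + 2 ^ 32 * M4 p) = B + 2 ^ 32 * mean ψ M4 := by
    have f1 : mean ψ (fun p => B + 2 ^ 32 * M4 p) = mean ψ (fun _ => B) +
        mean ψ (fun p => 2 ^ 32 * M4 p) :=
      mean_add (IM.cont hSm continuous_const) (iM4.cmul _)
    rw [f1, mean_const, mean_cmul, hm1, mul_one]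
  have s6 : mean ψ (fun p => 16 * ((1 + M1 p) * N p) + T p) =
      16 * mean ψ (fun p => (1 + M1 p) * N p) + mean ψ T := by
    rw [mean_add (iMN.cmul 16) iT, mean_cmul]
  have s7 : mean ψ (fun p => (1 + M1 p) * N p) = mean ψ (fun p => (1 + mm θ x p ^ (1 / 6 : ℝ)) *
      (ce p x 14 + cn p x 14)) := by
    rw [hM1, hN]
  have s8 : 0 < ((64 : ℝ) ^ n)⁻¹ := by positivity
  rw [s5] at s2
  rw [s6] at s3
  rw [s4, ← s7]
  have t4 : mean ψ (fun p => mm θ x p ^ (4 / 3 : ℝ)) = mean ψ M4 := by rw [hM4]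
  have t5 : mean ψ (fun p => tl 13 p x) = mean ψ T := by rw [hT]
  rw [t4, t5]
  have n1 : 0 ≤ mean ψ M4 := mean_nonneg fun σ p _ => hM40 p
  have n2 : 0 ≤ mean ψ (fun p => (1 + M1 p) * N p) := mean_nonneg fun σ p _ =>
    mul_nonneg (by linarith [hM10 p]) (hN0 p)
  have n3 : 0 ≤ mean ψ T := mean_nonneg fun σ p _ => hT0 p
  have n4 : 0 ≤ SS θ ψ x := by
    rw [← s4]
    exact sum_nonneg fun l _ => hS0 l
  rw [mul_assoc C1]
  refine mul_le_mul_of_nonneg_left ?_ hC1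
  have hX : ((n + 1 : ℕ) : ℝ) * (17 * ε * ((n : ℝ) + 1) ^ 2) =
      ((n : ℝ) + 1) * (17 * ε * ((n : ℝ) + 1) ^ 2) := by
    rw [Nat.cast_add, Nat.cast_one]
  exact wl_alg hV0 hB0 hC2 hCG hεn s1 s8 s2 s3 n1 n2 n3 n4 hX

end H6.CB
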