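import Pool.Agent.H6.CB.FSs
import Pool.Agent.H6.CB.FTail
import Pool.Agent.H6.CB.WwLe
import Pool.Agent.H6.CB.TLoc
import Pool.Agent.H6.CB.Lt53

/-! The three bootstrap inequalities. `fw`: `ww_le`, `mom_mm` with `t = 4/3`, `fss`, `fnuc`, `ftail`. `ft`: `tloc`, `fw`, `fss`, `fcnt` (`ce_mono`). `fn`: `lt53` with `s = 1`, `t_cov` with `R = 2` and `ft` at all points of the ball of radius `3` (`Lb.sub`), and `mom` or `fcnt` for `ce p x 2`. Here `0 ≤ B` by `Lc.nonneg`; distribute `η` by the constants. The hypothesis `0 ≤ A` is for `ww_le`; `κm > 0` for `tloc`. -/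

open MeasureTheory Finset

namespace H6.CB

open H6.CM

section

variable (q : ℕ) (zm zp κm κp A : ℝ) (hzm : 0 < zm) (hκm : 0 < κm) (hA : 0 ≤ A)
  {χ θ : E3 → ℝ} (hχ : Bump χ) (hθ : Cut θ) (η : ℝ) (hη : 0 < η)
include hzm hκm hA hχ hθ hη

omit hzm hκm hA hχ hθ hη in
private theorem fa_lb {q n k : ℕ} {W : Finset E3} {z : Fin k → ℝ}
    {ψ : (Fin n → Fin q) → Cfg n k → ℂ} {x : E3} {R R' B : ℝ} (h : Lb χ θ W z ψ x R B)
    (hR : R' ≤ R) : Lb χ θ W z ψ x R' B := by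
  refine h.sub ?_
  rw [sub_self, norm_zero, zero_add]
  exact hR

omit hzm hκm hA hχ hθ hη in
private theorem fa_X (n k : ℕ) (D : ℝ) : 0 ≤ ((n : ℝ) + k) * (D ^ 4)⁻¹ := by positivity

theorem fw : ∃ C : ℝ, 0 ≤ C ∧
    ∀ (n k : ℕ) (Λ : Set E3) (z κ : Fin k → ℝ) (W : Finset E3) (E : ℝ)
    (ψ : (Fin n → Fin q) → Cfg n k → ℂ) (_ : Gd q zm zp κm κp A n k Λ z κ W E ψ)
    (x : E3) (_ : Metric.closedBall x 14 ⊆ Λ)
    (D : ℝ) (_ : 13 ≤ D) (B : ℝ) (_ : Lb χ θ W z ψ x (D + 101) B),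
    WW χ θ W z ψ x ≤ η * B + C * (1 + (n + k) * (D ^ 4)⁻¹) := by
  obtain ⟨C0, hC0, h0⟩ := ww_le q zm zp κp A hzm hA hχ hθ
  obtain ⟨ε, hε⟩ : ∃ ε : ℝ, ε = η / (4 * (C0 + 1)) := ⟨_, rfl⟩
  have hε0 : 0 < ε := by rw [hε]; positivity
  obtain ⟨C1, hC1, h1⟩ := mom_mm hθ (4 / 3) (by norm_num) (by norm_num) ε hε0
  obtain ⟨C2, hC2, h2⟩ := fss q zm zp κm κp A (χ := χ) hθ ε hε0
  obtain ⟨C3, hC3, h3⟩ := fnuc q zm zp κm κp A hzm hχ hθ ε hε0
  obtain ⟨C4, hC4, h4⟩ := ftail q zm zp κm κp A hzm hχ hθ ε hε0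
  refine ⟨C0 * (1 + C1 + C2 + C3 + C4), by positivity, ?_⟩
  intro n k Λ z κ W E ψ hG x hx D hD B hB
  have hψ : Sm q n k Λ ψ := St_sm hG.st
  have hB0 : 0 ≤ B := (hB.at (by linarith)).nonneg
  have hX := fa_X n k D
  have g0 := h0 n k Λ z κ hG.hz (fun j => ⟨hκm.le.trans (hG.hκ j).1, (hG.hκ j).2⟩) hG.neu E
    hG.lb ψ hG.st hG.one hG.en W hG.rf x hx
  have g1 := h1 q n k Λ ψ hψ hG.one x B fun y hy =>
    (hB y (Metric.ball_subset_ball (by linarith) hy)).cnt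
  have g2 := h2 n k Λ z κ W E ψ hG x B (fa_lb hB (by linarith))
  have g3 := h3 n k Λ z κ W E ψ hG x B (fa_lb hB (by linarith))
  have g4 := h4 n k Λ z κ W E ψ hG x D hD B hB
  generalize ((n : ℝ) + k) * (D ^ 4)⁻¹ = X at *
  refine g0.trans ?_
  have e1 : C0 * (4 * (ε * B)) ≤ η * B := by
    have e2 : C0 * (4 * (ε * B)) = (C0 / (C0 + 1)) * (η * B) := by
      rw [hε]
      field_simp
    rw [e2]
    refine mul_le_of_le_one_left (by positivity) ?_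
    rw [div_le_one (by linarith)]
    linarith
  have e3 : C1 ≤ C1 * (1 + X) := le_mul_of_one_le_right hC1 (by linarith)
  have e4 : C2 ≤ C2 * (1 + X) := le_mul_of_one_le_right hC2 (by linarith)
  have e5 : C3 ≤ C3 * (1 + X) := le_mul_of_one_le_right hC3 (by linarith)
  have e6 : 1 + mean ψ (fun p => mm θ x p ^ (4 / 3 : ℝ)) + SS θ ψ x +
      mean ψ (fun p => (1 + mm θ x p ^ (1 / 6 : ℝ)) * (ce p x 14 + cn p x 14)) +
      mean ψ (fun p => tl 13 p x) ≤ 4 * (ε * B) + (1 + C1 + C2 + C3 + C4) * (1 + X) := by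
    have e7 : (1 + C1 + C2 + C3 + C4) * (1 + X) = (1 + X) + C1 * (1 + X) + C2 * (1 + X) +
      C3 * (1 + X) + C4 * (1 + X) := by ring
    rw [e7]
    linarith
  have e8 := mul_le_mul_of_nonneg_left e6 hC0
  linarith

theorem ft : ∃ C : ℝ, 0 ≤ C ∧
    ∀ (n k : ℕ) (Λ : Set E3) (z κ : Fin k → ℝ) (W : Finset E3) (E : ℝ)
    (ψ : (Fin n → Fin q) → Cfg n k → ℂ) (_ : Gd q zm zp κm κp A n k Λ z κ W E ψ)
    (x : E3) (_ : Metric.closedBall x 14 ⊆ Λ)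
    (D : ℝ) (_ : 13 ≤ D) (B : ℝ) (_ : Lb χ θ W z ψ x (D + 101) B),
    TE ψ x 1 + TN ψ x 1 ≤ η * B + C * (1 + (n + k) * (D ^ 4)⁻¹) := by
  obtain ⟨C0, hC0, h0⟩ := tloc q zm zp κm κp A hzm hκm hA hχ hθ
  obtain ⟨ε, hε⟩ : ∃ ε : ℝ, ε = η / (3 * (C0 + 1)) := ⟨_, rfl⟩
  have hε0 : 0 < ε := by rw [hε]; positivity
  obtain ⟨C1, hC1, h1⟩ := fw q zm zp κm κp A hzm hκm hA hχ hθ ε hε0
  obtain ⟨C2, hC2, h2⟩ := fss q zm zp κm κp A (χ := χ) hθ ε hε0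
  obtain ⟨C3, hC3, h3⟩ := fcnt q zm zp κm κp A hzm hχ hθ ε hε0
  refine ⟨C0 * (1 + C1 + C2 + C3), by positivity, ?_⟩
  intro n k Λ z κ W E ψ hG x hx D hD B hB
  have hψ : Sm q n k Λ ψ := St_sm hG.st
  have hB0 : 0 ≤ B := (hB.at (by linarith)).nonneg
  have hX := fa_X n k D
  have g0 := h0 n k Λ z κ hG.hz hG.hκ E hG.lb ψ hG.st hG.one hG.en W hG.rf x
  have g1 := h1 n k Λ z κ W E ψ hG x hx D hD B hB
  have g2 := h2 n k Λ z κ W E ψ hG x B (fa_lb hB (by linarith))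
  have g3 := h3 n k Λ z κ W E ψ hG x B (fa_lb hB (by linarith))
  have g4 : mean ψ (fun p => ce p x 4 + cn p x 4) ≤ mean ψ (fun p => ce p x 14 + cn p x 14) := by
    refine mean_mono ((IM_ce hψ x 4).add (IM_cn hψ x 4)) ((IM_ce hψ x 14).add (IM_cn hψ x 14))
      fun σ p _ => ?_
    have a1 : ce p x 4 ≤ ce p x 14 := ce_mono p (by rw [sub_self, norm_zero]; norm_num)
    have a2 : cn p x 4 ≤ cn p x 14 := cn_mono p (by rw [sub_self, norm_zero]; norm_num)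
    linarith
  generalize ((n : ℝ) + k) * (D ^ 4)⁻¹ = X at *
  refine g0.trans ?_
  have e1 : C0 * (3 * (ε * B)) ≤ η * B := by
    have e2 : C0 * (3 * (ε * B)) = (C0 / (C0 + 1)) * (η * B) := by
      rw [hε]
      field_simp
    rw [e2]
    refine mul_le_of_le_one_left (by positivity) ?_
    rw [div_le_one (by linarith)]
    linarith
  have e4 : C2 ≤ C2 * (1 + X) := le_mul_of_one_le_right hC2 (by linarith)
  have e5 : C3 ≤ C3 * (1 + X) := le_mul_of_one_le_right hC3 (by linarith)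
  have e6 : 1 + WW χ θ W z ψ x + SS θ ψ x +
      mean ψ (fun p => ce p x 4 + cn p x 4) ≤ 3 * (ε * B) + (1 + C1 + C2 + C3) * (1 + X) := by
    have e7 : (1 + C1 + C2 + C3) * (1 + X) = (1 + X) + C1 * (1 + X) + C2 * (1 + X) +
      C3 * (1 + X) := by ring
    rw [e7]
    linarith
  have e8 := mul_le_mul_of_nonneg_left e6 hC0
  linarith

theorem fn : ∃ C : ℝ, 0 ≤ C ∧
    ∀ (n k : ℕ) (Λ : Set E3) (z κ : Fin k → ℝ) (W : Finset E3) (E : ℝ)
    (ψ : (Fin n → Fin q) → Cfg n k → ℂ) (_ : Gd q zm zp κm κp A n k Λ z κ W E ψ)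
    (x : E3) (_ : Metric.closedBall x 17 ⊆ Λ)
    (D : ℝ) (_ : 13 ≤ D) (B : ℝ) (_ : Lb χ θ W z ψ x (D + 105) B),
    mean ψ (fun p => ce p x 1 ^ (5 / 3 : ℝ)) ≤ η * B + C * (1 + (n + k) * (D ^ 4)⁻¹) := by
  obtain ⟨C0, hC0, h0⟩ := lt53 q
  obtain ⟨Ct, hCt, ht⟩ := t_cov 2 (by norm_num)
  obtain ⟨ε, hε⟩ : ∃ ε : ℝ, ε = η / ((C0 + 1) * (Ct + 1)) := ⟨_, rfl⟩
  have hε0 : 0 < ε := by rw [hε]; positivity
  obtain ⟨C1, hC1, h1⟩ := ft q zm zp κm κp A hzm hκm hA hχ hθ ε hε0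
  obtain ⟨C3, hC3, h3⟩ := fcnt q zm zp κm κp A hzm hχ hθ ε hε0
  refine ⟨C0 * (Ct * C1 + C3), by positivity, ?_⟩
  intro n k Λ z κ W E ψ hG x hx D hD B hB
  have hψ : Sm q n k Λ ψ := St_sm hG.st
  have hB0 : 0 ≤ B := (hB.at (by linarith)).nonneg
  have hX := fa_X n k D
  have g0 := h0 n k Λ ψ hG.st x 1 one_pos
  have g1 := ht q n k Λ ψ hψ x (ε * B + C1 * (1 + (n + k) * (D ^ 4)⁻¹)) (by
    intro y hy
    rw [Metric.mem_ball, dist_eq_norm] at hy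
    refine h1 n k Λ z κ W E ψ hG y ?_ D hD B (hB.sub (by linarith))
    refine (Metric.closedBall_subset_closedBall' ?_).trans hx
    rw [dist_eq_norm]
    linarith)
  have g3 := h3 n k Λ z κ W E ψ hG x B (fa_lb hB (by linarith))
  have g4 : mean ψ (fun p => ce p x 2) ≤ mean ψ (fun p => ce p x 14 + cn p x 14) := by
    refine mean_mono (IM_ce hψ x 2) ((IM_ce hψ x 14).add (IM_cn hψ x 14))
      fun σ p _ => ?_
    have a1 : ce p x 2 ≤ ce p x 14 := ce_mono p (by rw [sub_self, norm_zero]; norm_num)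
    have a2 := cn_nonneg p x 14
    linarith
  have g5 := TN_nonneg ψ x 2
  have e0 : (1 : ℝ) ^ 2 * TE ψ x (2 * 1) = TE ψ x 2 := by
    rw [one_pow, one_mul, mul_one]
  rw [e0, mul_one] at g0
  generalize ((n : ℝ) + k) * (D ^ 4)⁻¹ = X at *
  refine g0.trans ?_
  have e1 : C0 * ((Ct + 1) * (ε * B)) ≤ η * B := by
    have e2 : C0 * ((Ct + 1) * (ε * B)) = (C0 / (C0 + 1)) * (η * B) := by
      rw [hε]
      field_simp
    rw [e2]
    refine mul_le_of_le_one_left (by positivity) ?_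
    rw [div_le_one (by linarith)]
    linarith
  have e5 : C3 ≤ C3 * (1 + X) := le_mul_of_one_le_right hC3 (by linarith)
  have e6 : TE ψ x 2 + mean ψ (fun p => ce p x 2) ≤
      (Ct + 1) * (ε * B) + (Ct * C1 + C3) * (1 + X) := by
    have e7 : (Ct + 1) * (ε * B) + (Ct * C1 + C3) * (1 + X) =
      Ct * (ε * B + C1 * (1 + X)) + (ε * B + C3 * (1 + X)) := by ring
    rw [e7]
    linarith
  have e8 := mul_le_mul_of_nonneg_left e6 hC0
  linarith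

/-- one step of the bootstrap -/
theorem fstep : ∃ C : ℝ, 0 ≤ C ∧
    ∀ (n k : ℕ) (Λ : Set E3) (z κ : Fin k → ℝ) (W : Finset E3) (E : ℝ)
    (ψ : (Fin n → Fin q) → Cfg n k → ℂ) (_ : Gd q zm zp κm κp A n k Λ z κ W E ψ)
    (D : ℝ) (_ : 128 ≤ D) (B : ℝ)
    (_ : ∀ y, Metric.closedBall y D ⊆ Λ → Lc χ θ W z ψ y B)
    (x : E3) (_ : Metric.closedBall x (8 * D) ⊆ Λ),
    Lc χ θ W z ψ x (η * B + C * (1 + (n + k) * (D ^ 4)⁻¹)) := by
  obtain ⟨C1, hC1, h1⟩ := fw q zm zp κm κp A hzm hκm hA hχ hθ η hη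
  obtain ⟨C2, hC2, h2⟩ := ft q zm zp κm κp A hzm hκm hA hχ hθ η hη
  obtain ⟨C3, hC3, h3⟩ := fn q zm zp κm κp A hzm hκm hA hχ hθ η hη
  refine ⟨C1 + C2 + C3, by positivity, ?_⟩
  intro n k Λ z κ W E ψ hG D hD B hB x hx
  have hLb : Lb χ θ W z ψ x (D + 105) B := by
    intro y hy
    rw [Metric.mem_ball, dist_eq_norm] at hy
    refine hB y ((Metric.closedBall_subset_closedBall' ?_).trans hx)
    rw [dist_eq_norm]
    linarith
  have hX := fa_X n k D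
  have g1 := h1 n k Λ z κ W E ψ hG x
    ((Metric.closedBall_subset_closedBall (by linarith)).trans hx) D (by linarith) B
    (fa_lb hLb (by linarith))
  have g2 := h2 n k Λ z κ W E ψ hG x
    ((Metric.closedBall_subset_closedBall (by linarith)).trans hx) D (by linarith) B
    (fa_lb hLb (by linarith))
  have g3 := h3 n k Λ z κ W E ψ hG x
    ((Metric.closedBall_subset_closedBall (by linarith)).trans hx) D (by linarith) B hLb
  generalize ((n : ℝ) + k) * (D ^ 4)⁻¹ = X at *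
  have e1 : 0 ≤ C1 * (1 + X) := by positivity
  have e2 : 0 ≤ C2 * (1 + X) := by positivity
  have e3 : 0 ≤ C3 * (1 + X) := by positivity
  have e : (C1 + C2 + C3) * (1 + X) = C1 * (1 + X) + C2 * (1 + X) + C3 * (1 + X) := by ring
  refine ⟨?_, ?_, ?_⟩
  · rw [e]
    linarith
  · rw [e]
    linarith
  · rw [e]
    linarith

end

end H6.CB
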