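import Pool.Agent.H6.CB.FDefs

/-! Covering of a ball by balls of radius one (`IsCompact.finite_cover_balls` for the closed ball, which is compact) and its consequences: `1[‖v - x‖ < R] ≤ ∑ c ∈ t, 1[‖v - (x + c)‖ < 1]`. For the moment: `(∑ c ∈ t, u c) ^ (5/3) ≤ t.card ^ (5/3) * ∑ c ∈ t, u c ^ (5/3)` for `0 ≤ u c` (the largest term). The constants are nonnegative because the hypothesis at `y = x` gives `0 ≤ B`. `ce p x R ^ t` is a bounded measurable function of `p` (`ce_meas`, `ce_le`, `IM.bdd`). -/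

open MeasureTheory Finset

namespace H6.CB

open H6.CM

theorem cover (R : ℝ) : ∃ t : Finset E3, (∀ c ∈ t, ‖c‖ ≤ R) ∧
    ∀ v : E3, ‖v‖ < R → ∃ c ∈ t, ‖v - c‖ < 1 := by
  obtain ⟨t, hts, htf, hcov⟩ := (isCompact_closedBall (0 : E3) R).finite_cover_balls zero_lt_one
  refine ⟨htf.toFinset, ?_, ?_⟩
  · intro c hc
    have := hts (htf.mem_toFinset.1 hc)
    rwa [mem_closedBall_zero_iff] at this
  · intro v hv
    have h1 := hcov (show v ∈ Metric.closedBall 0 R by rw [mem_closedBall_zero_iff]; exact hv.le)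
    rw [Set.mem_iUnion₂] at h1
    obtain ⟨c, hc, hvc⟩ := h1
    refine ⟨c, htf.mem_toFinset.2 hc, ?_⟩
    rwa [Metric.mem_ball, dist_eq_norm] at hvc

private theorem fc_ind {R : ℝ} {t : Finset E3} (ht : ∀ v : E3, ‖v‖ < R → ∃ c ∈ t, ‖v - c‖ < 1)
    (y x : E3) (g : ℝ) (hg : 0 ≤ g) :
    (if ‖y - x‖ < R then g else 0) ≤ ∑ c ∈ t, (if ‖y - (x + c)‖ < 1 then g else 0) := by
  have h0 : ∀ c ∈ t, 0 ≤ (if ‖y - (x + c)‖ < 1 then g else 0) := by
    intro c _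
    split_ifs
    · exact hg
    · exact le_rfl
  split_ifs with h
  · obtain ⟨c, hc, h1⟩ := ht (y - x) h
    refine le_trans ?_ (single_le_sum h0 hc)
    rw [sub_sub] at h1
    rw [if_pos h1]
  · exact sum_nonneg h0

theorem c_cov (R : ℝ) : ∃ t : Finset E3, (∀ c ∈ t, ‖c‖ ≤ R) ∧
    ∀ (n k : ℕ) (p : Cfg n k) (x : E3), ce p x R ≤ ∑ c ∈ t, ce p (x + c) 1 ∧
      cn p x R ≤ ∑ c ∈ t, cn p (x + c) 1 := by
  obtain ⟨t, ht1, ht2⟩ := cover R
  refine ⟨t, ht1, fun n k p x => ⟨?_, ?_⟩⟩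
  · unfold ce
    rw [sum_comm]
    exact sum_le_sum fun a _ => fc_ind ht2 _ _ 1 zero_le_one
  · unfold cn
    rw [sum_comm]
    exact sum_le_sum fun j _ => fc_ind ht2 _ _ 1 zero_le_one

private theorem fc_iint {n k : ℕ} {g : Cfg n k → ℝ} (hg : Integrable g) {f : Cfg n k → E3}
    (hf : Measurable f) (v : E3) (r : ℝ) :
    Integrable (fun p => if ‖f p - v‖ < r then g p else 0) := by
  have hm : MeasurableSet {p | ‖f p - v‖ < r} :=
    measurableSet_lt (hf.sub_const v).norm measurable_const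
  refine (hg.indicator hm).congr (Filter.Eventually.of_forall fun p => ?_)
  by_cases hp : ‖f p - v‖ < r
  · simp [hp]
  · simp [hp]

private theorem fc_int {n k : ℕ} {R : ℝ} {t : Finset E3}
    (ht : ∀ v : E3, ‖v‖ < R → ∃ c ∈ t, ‖v - c‖ < 1) {g : Cfg n k → ℝ} (hg : Integrable g)
    (hg0 : ∀ p, 0 ≤ g p) {f : Cfg n k → E3} (hf : Measurable f) (x : E3) :
    ∫ p, (if ‖f p - x‖ < R then g p else 0) ≤
      ∑ c ∈ t, ∫ p, (if ‖f p - (x + c)‖ < 1 then g p else 0) := by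
  rw [← integral_finsetSum _ fun c _ => fc_iint hg hf _ _]
  exact integral_mono (fc_iint hg hf _ _) (integrable_finsetSum _ fun c _ => fc_iint hg hf _ _)
    fun p => fc_ind ht _ _ _ (hg0 p)

theorem t_cov (R : ℝ) (hR : 0 ≤ R) : ∃ C : ℝ, 0 ≤ C ∧ ∀ (q n k : ℕ) (Λ : Set E3)
    (ψ : (Fin n → Fin q) → Cfg n k → ℂ) (_ : Sm q n k Λ ψ) (x : E3) (B : ℝ)
    (_ : ∀ y ∈ Metric.ball x (R + 1), TE ψ y 1 + TN ψ y 1 ≤ B),
    TE ψ x R + TN ψ x R ≤ C * B := by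
  obtain ⟨t, ht1, ht2⟩ := cover R
  refine ⟨t.card, by positivity, fun q n k Λ ψ hψ x B hB => ?_⟩
  have h1 : TE ψ x R ≤ ∑ c ∈ t, TE ψ (x + c) 1 := by
    calc TE ψ x R ≤ ∑ a, ∑ σ, ∑ c ∈ t,
          ∫ p, (if ‖p.1 a - (x + c)‖ < 1 then ge (ψ σ) a p else 0) :=
          sum_le_sum fun a _ => sum_le_sum fun σ _ =>
            fc_int ht2 (kE_int hψ σ a) (fun p => ge_nonneg _ _ _) (meas_e a) x
      _ = ∑ a, ∑ c ∈ t, ∑ σ,
          ∫ p, (if ‖p.1 a - (x + c)‖ < 1 then ge (ψ σ) a p else 0) :=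
          sum_congr rfl fun a _ => sum_comm
      _ = ∑ c ∈ t, TE ψ (x + c) 1 := sum_comm
  have h2 : TN ψ x R ≤ ∑ c ∈ t, TN ψ (x + c) 1 := by
    calc TN ψ x R ≤ ∑ j, ∑ σ, ∑ c ∈ t,
          ∫ p, (if ‖p.2 j - (x + c)‖ < 1 then gn (ψ σ) j p else 0) :=
          sum_le_sum fun a _ => sum_le_sum fun σ _ =>
            fc_int ht2 (kN_int hψ σ a) (fun p => gn_nonneg _ _ _) (meas_n a) x
      _ = ∑ j, ∑ c ∈ t, ∑ σ,
          ∫ p, (if ‖p.2 j - (x + c)‖ < 1 then gn (ψ σ) j p else 0) :=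
          sum_congr rfl fun a _ => sum_comm
      _ = ∑ c ∈ t, TN ψ (x + c) 1 := sum_comm
  calc TE ψ x R + TN ψ x R ≤ ∑ c ∈ t, (TE ψ (x + c) 1 + TN ψ (x + c) 1) := by
        rw [sum_add_distrib]
        exact add_le_add h1 h2
    _ ≤ ∑ c ∈ t, B := by
        refine sum_le_sum fun c hc => hB _ ?_
        rw [Metric.mem_ball, dist_eq_norm, add_sub_cancel_left]
        have := ht1 c hc
        linarith
    _ = t.card * B := by rw [sum_const, nsmul_eq_mul]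

theorem IM_cet {q n k : ℕ} {Λ : Set E3} {ψ : (Fin n → Fin q) → Cfg n k → ℂ}
    (h : Sm q n k Λ ψ) (x : E3) (R t : ℝ) (ht : 0 ≤ t) : IM ψ (fun p => ce p x R ^ t) := by
  refine IM.bdd h ((ce_meas x R).pow_const t) ((n : ℝ) ^ t) fun p => ?_
  rw [abs_of_nonneg (Real.rpow_nonneg (ce_nonneg p x R) t)]
  exact Real.rpow_le_rpow (ce_nonneg p x R) (ce_le p x R) ht

theorem m_cov (R : ℝ) (hR : 0 ≤ R) : ∃ C : ℝ, 0 ≤ C ∧ ∀ (q n k : ℕ) (Λ : Set E3)
    (ψ : (Fin n → Fin q) → Cfg n k → ℂ) (_ : Sm q n k Λ ψ) (x : E3) (B : ℝ)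
    (_ : ∀ y ∈ Metric.ball x (R + 1), mean ψ (fun p => ce p y 1 ^ (5 / 3 : ℝ)) ≤ B),
    mean ψ (fun p => ce p x R ^ (5 / 3 : ℝ)) ≤ C * B := by
  obtain ⟨t, ht1, ht2⟩ := c_cov R
  refine ⟨(t.card : ℝ) ^ ((5 / 3 : ℝ) - 1) * t.card, by positivity,
    fun q n k Λ ψ hψ x B hB => ?_⟩
  have hI : ∀ y r, IM ψ (fun p => ce p y r ^ (5 / 3 : ℝ)) := fun y r =>
    IM_cet hψ y r _ (by norm_num)
  have h1 : mean ψ (fun p => ce p x R ^ (5 / 3 : ℝ)) ≤
      mean ψ (fun p => (t.card : ℝ) ^ ((5 / 3 : ℝ) - 1) *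
        ∑ c ∈ t, ce p (x + c) 1 ^ (5 / 3 : ℝ)) := by
    refine mean_mono (hI x R) ((IM.sum _ fun c _ => hI _ _).cmul _) fun σ p _ => ?_
    refine (Real.rpow_le_rpow (ce_nonneg p x R) (ht2 n k p x).1 (by norm_num)).trans ?_
    exact Real.rpow_sum_le_const_mul_sum_rpow_of_nonneg t (by norm_num)
      (fun c _ => ce_nonneg p _ _)
  rw [mean_cmul, mean_sum _ fun c _ => hI _ _] at h1
  refine h1.trans ?_
  rw [mul_assoc]
  refine mul_le_mul_of_nonneg_left ?_ (by positivity)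
  calc ∑ c ∈ t, mean ψ (fun p => ce p (x + c) 1 ^ (5 / 3 : ℝ)) ≤ ∑ c ∈ t, B := by
        refine sum_le_sum fun c hc => hB _ ?_
        rw [Metric.mem_ball, dist_eq_norm, add_sub_cancel_left]
        have := ht1 c hc
        linarith
    _ = t.card * B := by rw [sum_const, nsmul_eq_mul]

/-- local kinetic energy is monotone -/
theorem T_mono {q n k : ℕ} {Λ : Set E3} {ψ : (Fin n → Fin q) → Cfg n k → ℂ}
    (h : Sm q n k Λ ψ) {x y : E3} {r t : ℝ} (hr : ‖x - y‖ + r ≤ t) :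
    TE ψ x r ≤ TE ψ y t ∧ TN ψ x r ≤ TN ψ y t := by
  have key : ∀ (v : E3) (g : ℝ), 0 ≤ g →
      (if ‖v - x‖ < r then g else 0) ≤ (if ‖v - y‖ < t then g else 0) := by
    intro v g hg
    split_ifs with h1 h2
    · exact le_rfl
    · exfalso
      apply h2
      calc ‖v - y‖ ≤ ‖v - x‖ + ‖x - y‖ := norm_sub_le_norm_sub_add_norm_sub _ _ _
        _ < t := by linarith
    · exact hg
    · exact le_rfl
  constructor
  · unfold TE
    refine sum_le_sum fun a _ => sum_le_sum fun σ _ => ?_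
    exact integral_mono (fc_iint (kE_int h σ a) (meas_e a) _ _)
      (fc_iint (kE_int h σ a) (meas_e a) _ _) fun p => key _ _ (ge_nonneg _ _ _)
  · unfold TN
    refine sum_le_sum fun a _ => sum_le_sum fun σ _ => ?_
    exact integral_mono (fc_iint (kN_int h σ a) (meas_n a) _ _)
      (fc_iint (kN_int h σ a) (meas_n a) _ _) fun p => key _ _ (gn_nonneg _ _ _)

end H6.CB
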