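import Pool.Agent.H6.CB.Lib

/-! The hypotheses of the bootstrap. -/

open MeasureTheory Finset

namespace H6.CB

open H6.CM

/-- the data of a near ground state with an admissible reference set -/
structure Gd (q : ℕ) (zm zp κm κp A : ℝ) (n k : ℕ) (Λ : Set E3) (z κ : Fin k → ℝ)
    (W : Finset E3) (E : ℝ) (ψ : (Fin n → Fin q) → Cfg n k → ℂ) : Prop where
  hz : ∀ j, zm ≤ z j ∧ z j ≤ zp
  hκ : ∀ j, κm ≤ κ j ∧ κ j ≤ κp
  neu : ∑ j, z j = n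
  lb : LB q n k Λ z κ E
  st : St q n k Λ ψ
  one : mass ψ = 1
  en : energy z κ ψ ≤ E + (((n : ℝ) + k + 1) ^ 4)⁻¹
  rf : Rf A Λ W ψ

/-- the local quantities at `y` are at most `B` -/
structure Lc {q n k : ℕ} (χ θ : E3 → ℝ) (W : Finset E3) (z : Fin k → ℝ)
    (ψ : (Fin n → Fin q) → Cfg n k → ℂ) (y : E3) (B : ℝ) : Prop where
  kin : TE ψ y 1 + TN ψ y 1 ≤ B
  pot : WW χ θ W z ψ y ≤ B
  cnt : mean ψ (fun p => ce p y 1 ^ (5 / 3 : ℝ)) ≤ B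

/-- the local quantities are at most `B` in the ball of radius `R` around `x` -/
def Lb {q n k : ℕ} (χ θ : E3 → ℝ) (W : Finset E3) (z : Fin k → ℝ)
    (ψ : (Fin n → Fin q) → Cfg n k → ℂ) (x : E3) (R B : ℝ) : Prop :=
  ∀ y ∈ Metric.ball x R, Lc χ θ W z ψ y B

section

variable {q n k : ℕ} {χ θ : E3 → ℝ} {W : Finset E3} {z : Fin k → ℝ}
  {ψ : (Fin n → Fin q) → Cfg n k → ℂ}

theorem TE_nonneg (ψ : (Fin n → Fin q) → Cfg n k → ℂ) (x : E3) (r : ℝ) : 0 ≤ TE ψ x r := by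
  unfold TE
  refine Finset.sum_nonneg fun a _ => Finset.sum_nonneg fun σ _ => integral_nonneg fun p => ?_
  simp only [Pi.zero_apply]
  split_ifs
  · exact ge_nonneg _ _ _
  · exact le_rfl

theorem TN_nonneg (ψ : (Fin n → Fin q) → Cfg n k → ℂ) (x : E3) (r : ℝ) : 0 ≤ TN ψ x r := by
  unfold TN
  refine Finset.sum_nonneg fun a _ => Finset.sum_nonneg fun σ _ => integral_nonneg fun p => ?_
  simp only [Pi.zero_apply]
  split_ifs
  · exact gn_nonneg _ _ _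
  · exact le_rfl

theorem Lc.nonneg {y : E3} {B : ℝ} (h : Lc χ θ W z ψ y B) : 0 ≤ B :=
  le_trans (add_nonneg (TE_nonneg ψ y 1) (TN_nonneg ψ y 1)) h.kin

theorem Lc.mono {y : E3} {B B' : ℝ} (h : Lc χ θ W z ψ y B) (hB : B ≤ B') :
    Lc χ θ W z ψ y B' :=
  ⟨h.kin.trans hB, h.pot.trans hB, h.cnt.trans hB⟩

theorem Lb.sub {x y : E3} {R R' B : ℝ} (h : Lb χ θ W z ψ x R B) (hR : ‖y - x‖ + R' ≤ R) :
    Lb χ θ W z ψ y R' B := by
  intro u hu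
  refine h u ?_
  rw [Metric.mem_ball, dist_eq_norm] at hu ⊢
  calc ‖u - x‖ = ‖(u - y) + (y - x)‖ := by congr 1; abel
    _ ≤ ‖u - y‖ + ‖y - x‖ := norm_add_le _ _
    _ < R := by linarith

theorem Lb.at {x : E3} {R B : ℝ} (h : Lb χ θ W z ψ x R B) (hR : 0 < R) :
    Lc χ θ W z ψ x B :=
  h x (Metric.mem_ball_self hR)

end

end H6.CB
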