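import Pool.Agent.H6.CB.MmF
import Pool.Agent.H6.CM.OneB
import Pool.Agent.H6.CM.LTa
import Pool.Agent.H6.CM.SwN

/-! The singular local count is controlled by the local kinetic energy. One body: for `f : E3 → ℂ`, `C¹` with compact support, `∫ |f|² ‖v - x‖⁻¹ ≤ ∫ g3 f + C ∫ |f|²` (`one_body` with `W v = max (‖v - x‖⁻¹ - 1) 0`, `δ = 1/4`, `‖Ph t f v‖ ^ 2 ≤ (∫ hk t ^ 2) ∫ |f|²` with `hk_sq` and `tm_le`, so the last term is at most `C ∫ W ^ (5/2) * ∫ |f|²`). Apply it to the slices in electron `a` of `Jc θ x 2 (p.1 a) * ψ σ p` and in nucleus `j` of `Jc θ x 2 (p.2 j) * ψ σ p` (`Jc θ x 2 = 1` on the ball of radius `2`, `0` outside the ball of radius `4`), and `g3 (J ψ) ≤ 2 J² g3 ψ + 2 gr J |ψ|²` with `Jc_grad`. For the integration over the other variables see `lta` (the averaging over the variable `a` with a weight of mass one) or use Fubini for the exchange of variables (`swE_mp`, `swN_mp`). -/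

open MeasureTheory Finset

namespace H6.CB

open H6.CM

private noncomputable def hG (J : E3 → ℝ) (x : E3) (ε : ℝ) (d : Fin 3) (w : E3) : ℝ :=
  J w * ((w - x) d * (Real.sqrt (‖w - x‖ ^ 2 + ε))⁻¹)

private theorem hd_smooth {J : E3 → ℝ} (hJ : ContDiff ℝ (⊤ : ℕ∞) J) (x : E3) (ε : ℝ)
    (hε : 0 < ε) (d : Fin 3) : ContDiff ℝ (⊤ : ℕ∞) (hG J x ε d) := by
  unfold hG
  have hp : ∀ w : E3, 0 < ‖w - x‖ ^ 2 + ε := fun w => by positivity
  refine hJ.mul (ContDiff.mul ?_ ?_)
  · exact (EuclideanSpace.proj d : E3 →L[ℝ] ℝ).contDiff.comp (contDiff_id.sub contDiff_const)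
  · refine ContDiff.inv ?_ fun w => (Real.sqrt_pos.2 (hp w)).ne'
    refine ContDiff.sqrt ?_ fun w => (hp w).ne'
    exact ((contDiff_id.sub contDiff_const).norm_sq ℝ).add contDiff_const

private theorem hd_fd {J : E3 → ℝ} (hJ : ContDiff ℝ (⊤ : ℕ∞) J) (x : E3) (ε : ℝ)
    (hε : 0 < ε) (d : Fin 3) (w : E3) :
    fderiv ℝ (hG J x ε d) w (EuclideanSpace.single d 1) =
      fderiv ℝ J w (EuclideanSpace.single d 1) *
        ((w - x) d * (Real.sqrt (‖w - x‖ ^ 2 + ε))⁻¹) +
      J w * ((Real.sqrt (‖w - x‖ ^ 2 + ε))⁻¹ -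
        (w - x) d ^ 2 * (Real.sqrt (‖w - x‖ ^ 2 + ε))⁻¹ ^ 3) := by
  have hp : 0 < ‖w - x‖ ^ 2 + ε := by positivity
  have hs : 0 < Real.sqrt (‖w - x‖ ^ 2 + ε) := Real.sqrt_pos.2 hp
  have h0 : HasFDerivAt (fun w : E3 => w - x) (ContinuousLinearMap.id ℝ E3) w :=
    (hasFDerivAt_id w).sub_const x
  have h1 : HasFDerivAt (fun w : E3 => (w - x) d)
      ((EuclideanSpace.proj d : E3 →L[ℝ] ℝ).comp (ContinuousLinearMap.id ℝ E3)) w :=
    (EuclideanSpace.proj d : E3 →L[ℝ] ℝ).hasFDerivAt.comp w h0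
  have h2 := (h0.norm_sq).add_const ε
  have h3 := h2.sqrt hp.ne'
  have h4 := (hasDerivAt_inv hs.ne').comp_hasFDerivAt w h3
  have h5 : HasFDerivAt (fun w : E3 => (Real.sqrt (‖w - x‖ ^ 2 + ε))⁻¹) _ w := h4
  have hJd : HasFDerivAt J (fderiv ℝ J w) w := (hJ.differentiable (by simp) w).hasFDerivAt
  have h6 := hJd.mul (h1.mul h5)
  have h7 : HasFDerivAt (hG J x ε d) _ w := h6
  rw [h7.fderiv]
  have hin : inner ℝ (w - x) (EuclideanSpace.single d (1 : ℝ)) = (w - x) d := by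
    rw [EuclideanSpace.inner_single_right]
    simp
  have hpj : (EuclideanSpace.proj d : E3 →L[ℝ] ℝ) (EuclideanSpace.single d 1) = 1 := by simp
  simp only [add_apply, smul_apply, smul_eq_mul, ContinuousLinearMap.comp_apply,
    ContinuousLinearMap.id_apply, innerSL_apply_apply, hin, hpj, Pi.mul_apply, nsmul_eq_mul]
  field_simp
  ring

/-- the integration by parts on the configuration space -/
private theorem hd_main {V : Type} [NormedAddCommGroup V] [NormedSpace ℝ V]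
    [MeasurableSpace V] [BorelSpace V] [FiniteDimensional ℝ V] (μ : Measure V)
    [μ.IsAddHaarMeasure] (π : V →L[ℝ] E3) (e : Fin 3 → V)
    (he : ∀ d, π (e d) = EuclideanSpace.single d 1) {J : E3 → ℝ} (hJ : ContDiff ℝ (⊤ : ℕ∞) J)
    (hJ01 : ∀ v, 0 ≤ J v ∧ J v ≤ 1) (x : E3) (hJ0 : ∀ v, 4 ≤ ‖v - x‖ → J v = 0) (C : ℝ)
    (hC : ∀ v, gr J v ≤ C * (if ‖v - x‖ < 4 then 1 else 0)) (F : V → ℂ)
    (hF : ContDiff ℝ 1 F) (hc : HasCompactSupport F)
    (hI : Integrable (fun p => ‖π p - x‖⁻¹ * ‖F p‖ ^ 2) μ) :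
    ∫ p, J (π p) * (‖π p - x‖⁻¹ * ‖F p‖ ^ 2) ∂μ ≤
      ∫ p, (if ‖π p - x‖ < 4 then ∑ d, ‖fderiv ℝ F p (e d)‖ ^ 2 + (2 + C) * ‖F p‖ ^ 2 else 0) ∂μ
    := by
  have hJc : Continuous J := hJ.continuous
  have hπ : Continuous (fun p => π p) := π.continuous
  have hFc : Continuous F := hF.continuous
  have hF' : Continuous (fderiv ℝ F) := hF.continuous_fderiv one_ne_zero
  have hcF' : HasCompactSupport (fderiv ℝ F) := hc.fderiv ℝ
  have hAc : Continuous (fun p => ‖F p‖ ^ 2) := hFc.norm.pow 2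
  have hAs : HasCompactSupport (fun p => ‖F p‖ ^ 2) :=
    hc.comp_left (g := fun x : ℂ => ‖x‖ ^ 2) (by simp)
  have hAi : Integrable (fun p => ‖F p‖ ^ 2) μ := hAc.integrable_of_hasCompactSupport hAs
  have hA1 : ContDiff ℝ 1 (fun p => ‖F p‖ ^ 2) := hF.norm_sq ℝ
  have hset : MeasurableSet {p : V | ‖π p - x‖ < 4} :=
    (isOpen_lt (hπ.sub continuous_const).norm continuous_const).measurableSet
  -- the right side
  obtain ⟨R, hR⟩ : ∃ R : V → ℝ, R = fun p => (if ‖π p - x‖ < 4 then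
      ∑ d, ‖fderiv ℝ F p (e d)‖ ^ 2 + (2 + C) * ‖F p‖ ^ 2 else 0) := ⟨_, rfl⟩
  have hgi : Integrable (fun p => ∑ d, ‖fderiv ℝ F p (e d)‖ ^ 2) μ := by
    refine integrable_finsetSum _ fun d _ => ?_
    refine (((hF'.clm_apply continuous_const).norm.pow 2)).integrable_of_hasCompactSupport ?_
    refine HasCompactSupport.intro (K := tsupport (fderiv ℝ F)) hcF' fun p hp => ?_
    show ‖fderiv ℝ F p (e d)‖ ^ 2 = 0
    rw [image_eq_zero_of_notMem_tsupport hp]
    simp
  have hRi : Integrable R μ := by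
    have h1 := (hgi.add (hAi.const_mul (2 + C))).indicator hset
    refine h1.congr (Filter.Eventually.of_forall fun p => ?_)
    rw [hR]
    simp only [Set.indicator, Set.mem_ofPred_eq, Pi.add_apply]
  -- for every positive regularisation
  have key : ∀ ε : ℝ, 0 < ε →
      ∫ p, J (π p) * (‖π p - x‖ / (‖π p - x‖ ^ 2 + ε) * ‖F p‖ ^ 2) ∂μ ≤ ∫ p, R p ∂μ := by
    intro ε hε
    have hs : ∀ d, ContDiff ℝ (⊤ : ℕ∞) (hG J x ε d) := fun d => hd_smooth hJ x ε hε d
    have hgd : ∀ d, ContDiff ℝ (⊤ : ℕ∞) (fun p => hG J x ε d (π p)) := fun d =>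
      (hs d).comp π.contDiff
    have hfd : ∀ d p, fderiv ℝ (fun p => hG J x ε d (π p)) p (e d) =
        fderiv ℝ (hG J x ε d) (π p) (EuclideanSpace.single d 1) := by
      intro d p
      have h1 : HasFDerivAt (fun p => hG J x ε d (π p))
          ((fderiv ℝ (hG J x ε d) (π p)).comp π) p :=
        ((hs d).differentiable (by simp) (π p)).hasFDerivAt.comp p π.hasFDerivAt
      rw [h1.fderiv, ContinuousLinearMap.comp_apply, he]
    have hA' : ∀ p v, |fderiv ℝ (fun p => ‖F p‖ ^ 2) p v| ≤ 2 * (‖F p‖ * ‖fderiv ℝ F p v‖) := by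
      intro p v
      have h1 := ((hF.differentiable one_ne_zero p).hasFDerivAt).norm_sq
      rw [h1.fderiv]
      simp only [smul_apply, ContinuousLinearMap.comp_apply, innerSL_apply_apply, nsmul_eq_mul]
      rw [abs_mul]
      have h2 := abs_real_inner_le_norm (F p) (fderiv ℝ F p v)
      have h3 : |((2 : ℕ) : ℝ)| = 2 := by norm_num
      rw [h3]
      linarith
    have i1 : ∀ d, Integrable (fun p => ‖F p‖ ^ 2 *
        fderiv ℝ (fun p => hG J x ε d (π p)) p (e d)) μ := by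
      intro d
      refine (hAc.mul (((hgd d).continuous_fderiv (by simp)).clm_apply
        continuous_const)).integrable_of_hasCompactSupport hAs.mul_right
    have i2 : ∀ d, Integrable (fun p => fderiv ℝ (fun p => ‖F p‖ ^ 2) p (e d) *
        hG J x ε d (π p)) μ := by
      intro d
      have h1 : Continuous (fderiv ℝ (fun p => ‖F p‖ ^ 2)) := hA1.continuous_fderiv one_ne_zero
      have h2 : HasCompactSupport (fderiv ℝ (fun p => ‖F p‖ ^ 2)) := hAs.fderiv ℝ
      have h3 : HasCompactSupport (fun p => fderiv ℝ (fun p => ‖F p‖ ^ 2) p (e d)) := by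
        refine HasCompactSupport.intro (K := tsupport (fderiv ℝ (fun p => ‖F p‖ ^ 2))) h2
          fun p hp => ?_
        rw [image_eq_zero_of_notMem_tsupport hp]
        simp
      exact ((h1.clm_apply continuous_const).mul
        (hgd d).continuous).integrable_of_hasCompactSupport h3.mul_right
    have i3 : ∀ d, Integrable (fun p => ‖F p‖ ^ 2 * hG J x ε d (π p)) μ := fun d =>
      (hAc.mul (hgd d).continuous).integrable_of_hasCompactSupport hAs.mul_right
    have hibp : ∀ d, ∫ p, ‖F p‖ ^ 2 * fderiv ℝ (fun p => hG J x ε d (π p)) p (e d) ∂μ =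
        -∫ p, fderiv ℝ (fun p => ‖F p‖ ^ 2) p (e d) * hG J x ε d (π p) ∂μ := fun d =>
      integral_mul_fderiv_eq_neg_fderiv_mul_of_integrable (i2 d) (i1 d) (i3 d)
        (fun p _ => hA1.differentiable one_ne_zero p)
        (fun p _ => (hgd d).differentiable (by simp) p)
    -- pointwise
    have hpt : ∀ p, J (π p) * (‖π p - x‖ / (‖π p - x‖ ^ 2 + ε) * ‖F p‖ ^ 2) ≤
        ∑ d, ‖F p‖ ^ 2 * fderiv ℝ (fun p => hG J x ε d (π p)) p (e d) +
        ∑ d, fderiv ℝ (fun p => ‖F p‖ ^ 2) p (e d) * hG J x ε d (π p) + R p := by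
      intro p
      obtain ⟨w, hw⟩ : ∃ w : E3, w = π p := ⟨_, rfl⟩
      obtain ⟨A, hA⟩ : ∃ A : ℝ, A = ‖F p‖ ^ 2 := ⟨_, rfl⟩
      have hA0 : 0 ≤ A := by rw [hA]; positivity
      simp only [hfd, hd_fd hJ x ε hε, ← hw, ← hA]
      have hq : 0 < ‖w - x‖ ^ 2 + ε := by positivity
      obtain ⟨κ, hκ⟩ : ∃ κ : ℝ, κ = (Real.sqrt (‖w - x‖ ^ 2 + ε))⁻¹ := ⟨_, rfl⟩
      have hκ0 : 0 < κ := by rw [hκ]; exact inv_pos.2 (Real.sqrt_pos.2 hq)
      have hκ2 : κ ^ 2 * (‖w - x‖ ^ 2 + ε) = 1 := by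
        rw [hκ, inv_pow, Real.sq_sqrt hq.le, inv_mul_cancel₀ hq.ne']
      have hκ3 : κ ^ 2 * ‖w - x‖ ^ 2 ≤ 1 := by
        have h1 : 0 ≤ κ ^ 2 * ε := by positivity
        linarith
      have hκ4 : κ * ‖w - x‖ ≤ 1 := by
        have h1 : (κ * ‖w - x‖) ^ 2 ≤ 1 := by rw [mul_pow]; exact hκ3
        exact (sq_le_one_iff₀ (by positivity)).1 h1
      have hκ5 : ‖w - x‖ / (‖w - x‖ ^ 2 + ε) ≤ κ := by
        rw [div_le_iff₀ hq]
        calc ‖w - x‖ = ‖w - x‖ * (κ ^ 2 * (‖w - x‖ ^ 2 + ε)) := by rw [hκ2, mul_one]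
          _ = (κ * ‖w - x‖) * (κ * (‖w - x‖ ^ 2 + ε)) := by ring
          _ ≤ 1 * (κ * (‖w - x‖ ^ 2 + ε)) := mul_le_mul_of_nonneg_right hκ4 (by positivity)
          _ = κ * (‖w - x‖ ^ 2 + ε) := one_mul _
      have hn : ∑ d : Fin 3, (w - x) d ^ 2 = ‖w - x‖ ^ 2 := by
        rw [EuclideanSpace.norm_sq_eq]
        exact sum_congr rfl fun d _ => by rw [Real.norm_eq_abs, sq_abs]
      rw [← hκ]
      by_cases hin : ‖w - x‖ < 4
      · -- inside
        have hRp : R p = ∑ d, ‖fderiv ℝ F p (e d)‖ ^ 2 + (2 + C) * A := by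
          rw [hR]
          dsimp only
          rw [← hw, if_pos hin, hA]
        have hgJ : gr J w ≤ C := by
          have := hC w
          rwa [if_pos hin, mul_one] at this
        have hJw := hJ01 w
        -- the divergence
        have hdiv : J w * κ * A ≤ ∑ d : Fin 3, A * (fderiv ℝ J w (EuclideanSpace.single d 1) *
            ((w - x) d * κ) + J w * (κ - (w - x) d ^ 2 * κ ^ 3)) + (1 + C) / 2 * A := by
          have e1 : ∑ d : Fin 3, A * (fderiv ℝ J w (EuclideanSpace.single d 1) *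
              ((w - x) d * κ) + J w * (κ - (w - x) d ^ 2 * κ ^ 3)) =
              A * ∑ d : Fin 3, fderiv ℝ J w (EuclideanSpace.single d 1) * ((w - x) d * κ) +
              A * (J w * (3 * κ - ‖w - x‖ ^ 2 * κ ^ 3)) := by
            rw [← hn, ← mul_sum, ← mul_add, sum_add_distrib, ← mul_sum, sum_sub_distrib,
              ← sum_mul]
            simp
          have e2 : -((1 + C) / 2) ≤
              ∑ d : Fin 3, fderiv ℝ J w (EuclideanSpace.single d 1) * ((w - x) d * κ) := by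
            have h1 : ∀ d : Fin 3, -((fderiv ℝ J w (EuclideanSpace.single d 1) ^ 2 +
                (w - x) d ^ 2 * κ ^ 2) / 2) ≤
                fderiv ℝ J w (EuclideanSpace.single d 1) * ((w - x) d * κ) := by
              intro d
              linarith [sq_nonneg (fderiv ℝ J w (EuclideanSpace.single d 1) + (w - x) d * κ)]
            refine le_trans ?_ (sum_le_sum fun d _ => h1 d)
            rw [sum_neg_distrib, ← sum_div, sum_add_distrib, ← sum_mul, hn]
            have h2 : ∑ d : Fin 3, fderiv ℝ J w (EuclideanSpace.single d 1) ^ 2 ≤ C := hgJ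
            linarith
          have e3 : κ ≤ 3 * κ - ‖w - x‖ ^ 2 * κ ^ 3 := by
            have h1 : ‖w - x‖ ^ 2 * κ ^ 3 ≤ κ := by
              calc ‖w - x‖ ^ 2 * κ ^ 3 = (κ ^ 2 * ‖w - x‖ ^ 2) * κ := by ring
                _ ≤ 1 * κ := mul_le_mul_of_nonneg_right hκ3 hκ0.le
                _ = κ := one_mul κ
            linarith
          rw [e1]
          have h3 := mul_le_mul_of_nonneg_left e2 hA0
          have h4 := mul_le_mul_of_nonneg_left (mul_le_mul_of_nonneg_left e3 hJw.1) hA0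
          linarith
        -- the other term
        have hoth : -(∑ d, ‖fderiv ℝ F p (e d)‖ ^ 2 + A) ≤
            ∑ d, fderiv ℝ (fun p => ‖F p‖ ^ 2) p (e d) * hG J x ε d w := by
          have h1 : ∀ d : Fin 3, -(‖fderiv ℝ F p (e d)‖ ^ 2 + A * hG J x ε d w ^ 2) ≤
              fderiv ℝ (fun p => ‖F p‖ ^ 2) p (e d) * hG J x ε d w := by
            intro d
            have h2 := hA' p (e d)
            have h3 : |fderiv ℝ (fun p => ‖F p‖ ^ 2) p (e d) * hG J x ε d w| ≤
                2 * (‖F p‖ * ‖fderiv ℝ F p (e d)‖) * |hG J x ε d w| := by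
              rw [abs_mul]
              exact mul_le_mul_of_nonneg_right h2 (abs_nonneg _)
            have h4 := neg_abs_le (fderiv ℝ (fun p => ‖F p‖ ^ 2) p (e d) * hG J x ε d w)
            have h5 : A * hG J x ε d w ^ 2 = (‖F p‖ * |hG J x ε d w|) ^ 2 := by
              rw [mul_pow, sq_abs, hA]
            rw [h5]
            linarith [sq_nonneg (‖fderiv ℝ F p (e d)‖ - ‖F p‖ * |hG J x ε d w|)]
          refine le_trans ?_ (sum_le_sum fun d _ => h1 d)
          rw [sum_neg_distrib, sum_add_distrib, ← mul_sum]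
          have h6 : ∑ d : Fin 3, hG J x ε d w ^ 2 ≤ 1 := by
            have h7 : ∀ d : Fin 3, hG J x ε d w ^ 2 = J w ^ 2 * κ ^ 2 * (w - x) d ^ 2 := by
              intro d
              unfold hG
              rw [← hκ]
              ring
            simp only [h7]
            rw [← mul_sum, hn, mul_assoc]
            exact mul_le_one₀ (pow_le_one₀ hJw.1 hJw.2) (by positivity) hκ3
          have h8 := mul_le_mul_of_nonneg_left h6 hA0
          linarith
        have hC0 : 0 ≤ C := le_trans (sum_nonneg fun d _ => sq_nonneg _) hgJ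
        have hl : J w * (‖w - x‖ / (‖w - x‖ ^ 2 + ε) * A) ≤ J w * κ * A := by
          rw [mul_assoc]
          exact mul_le_mul_of_nonneg_left (mul_le_mul_of_nonneg_right hκ5 hA0) hJw.1
        have hCA : 0 ≤ C * A := mul_nonneg hC0 hA0
        rw [hRp]
        linarith
      · -- outside
        have hJw : J w = 0 := hJ0 w (not_lt.1 hin)
        have hRp : R p = 0 := by
          rw [hR]
          dsimp only
          rw [← hw, if_neg hin]
        have hgJ : gr J w ≤ 0 := by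
          have := hC w
          rwa [if_neg hin, mul_zero] at this
        have hz : ∀ d : Fin 3, fderiv ℝ J w (EuclideanSpace.single d 1) = 0 := by
          intro d
          have h1 : fderiv ℝ J w (EuclideanSpace.single d 1) ^ 2 ≤ 0 :=
            le_trans (single_le_sum (f := fun d : Fin 3 =>
              fderiv ℝ J w (EuclideanSpace.single d 1) ^ 2) (fun d _ => sq_nonneg _)
              (mem_univ d)) hgJ
          exact pow_eq_zero_iff two_ne_zero |>.1 (le_antisymm h1 (sq_nonneg _))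
        have hG0 : ∀ d : Fin 3, hG J x ε d w = 0 := by
          intro d
          unfold hG
          rw [hJw, zero_mul]
        rw [hRp, hJw]
        simp [hz, hG0]
    -- integrate
    have hLi : Integrable (fun p => J (π p) * (‖π p - x‖ / (‖π p - x‖ ^ 2 + ε) *
        ‖F p‖ ^ 2)) μ := by
      have h1 : Continuous (fun p => J (π p) * (‖π p - x‖ / (‖π p - x‖ ^ 2 + ε) *
          ‖F p‖ ^ 2)) := by
        refine (hJc.comp hπ).mul (Continuous.mul ?_ hAc)
        exact Continuous.div (hπ.sub continuous_const).norm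
          (((hπ.sub continuous_const).norm.pow 2).add continuous_const)
          fun p => (by positivity)
      exact h1.integrable_of_hasCompactSupport (hAs.mul_left.mul_left)
    have j1 : Integrable (fun p => ∑ d, ‖F p‖ ^ 2 *
        fderiv ℝ (fun p => hG J x ε d (π p)) p (e d)) μ := integrable_finsetSum _ fun d _ => i1 d
    have j2 : Integrable (fun p => ∑ d, fderiv ℝ (fun p => ‖F p‖ ^ 2) p (e d) *
        hG J x ε d (π p)) μ := integrable_finsetSum _ fun d _ => i2 d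
    have j3 : Integrable (fun p => ∑ d, ‖F p‖ ^ 2 *
        fderiv ℝ (fun p => hG J x ε d (π p)) p (e d) +
        ∑ d, fderiv ℝ (fun p => ‖F p‖ ^ 2) p (e d) * hG J x ε d (π p)) μ := j1.add j2
    have h1 : ∫ p, J (π p) * (‖π p - x‖ / (‖π p - x‖ ^ 2 + ε) * ‖F p‖ ^ 2) ∂μ ≤
        ∫ p, (∑ d, ‖F p‖ ^ 2 * fderiv ℝ (fun p => hG J x ε d (π p)) p (e d) +
        ∑ d, fderiv ℝ (fun p => ‖F p‖ ^ 2) p (e d) * hG J x ε d (π p) + R p) ∂μ :=
      integral_mono hLi (j3.add hRi) hpt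
    refine h1.trans (le_of_eq ?_)
    rw [integral_add j3 hRi, integral_add j1 j2, integral_finsetSum _ fun d _ => i1 d, integral_finsetSum _ fun d _ => i2 d,
      sum_congr rfl fun d _ => hibp d, sum_neg_distrib]
    ring
  -- the limit
  have hlim : Filter.Tendsto (fun m : ℕ => ∫ p, J (π p) *
      (‖π p - x‖ / (‖π p - x‖ ^ 2 + 1 / ((m : ℝ) + 1)) * ‖F p‖ ^ 2) ∂μ) Filter.atTop
      (nhds (∫ p, J (π p) * (‖π p - x‖⁻¹ * ‖F p‖ ^ 2) ∂μ)) := by
    refine tendsto_integral_of_dominated_convergence (fun p => ‖π p - x‖⁻¹ * ‖F p‖ ^ 2) ?_ hI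
      ?_ ?_
    · intro m
      have h1 : Continuous (fun p => J (π p) * (‖π p - x‖ / (‖π p - x‖ ^ 2 +
          1 / ((m : ℝ) + 1)) * ‖F p‖ ^ 2)) := by
        refine (hJc.comp hπ).mul (Continuous.mul ?_ hAc)
        exact Continuous.div (hπ.sub continuous_const).norm
          (((hπ.sub continuous_const).norm.pow 2).add continuous_const)
          fun p => (by positivity)
      exact h1.aestronglyMeasurable
    · intro m
      refine Filter.Eventually.of_forall fun p => ?_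
      have h1 : 0 ≤ ‖π p - x‖ / (‖π p - x‖ ^ 2 + 1 / ((m : ℝ) + 1)) := by positivity
      have h2 : ‖π p - x‖ / (‖π p - x‖ ^ 2 + 1 / ((m : ℝ) + 1)) ≤ ‖π p - x‖⁻¹ := by
        rcases (norm_nonneg (π p - x)).eq_or_lt with h | h
        · rw [← h]
          simp
        · rw [div_le_iff₀ (by positivity)]
          have h3 : ‖π p - x‖⁻¹ * (‖π p - x‖ ^ 2 + 1 / ((m : ℝ) + 1)) =
              ‖π p - x‖ + ‖π p - x‖⁻¹ * (1 / ((m : ℝ) + 1)) := by
            field_simp
          rw [h3]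
          have h4 : 0 ≤ ‖π p - x‖⁻¹ * (1 / ((m : ℝ) + 1)) := by positivity
          linarith
      have h5 := hJ01 (π p)
      rw [Real.norm_eq_abs, abs_of_nonneg (mul_nonneg h5.1 (mul_nonneg h1 (sq_nonneg _)))]
      calc J (π p) * (‖π p - x‖ / (‖π p - x‖ ^ 2 + 1 / ((m : ℝ) + 1)) * ‖F p‖ ^ 2)
          ≤ 1 * (‖π p - x‖ / (‖π p - x‖ ^ 2 + 1 / ((m : ℝ) + 1)) * ‖F p‖ ^ 2) :=
            mul_le_mul_of_nonneg_right h5.2 (mul_nonneg h1 (sq_nonneg _))
        _ = ‖π p - x‖ / (‖π p - x‖ ^ 2 + 1 / ((m : ℝ) + 1)) * ‖F p‖ ^ 2 := one_mul _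
        _ ≤ ‖π p - x‖⁻¹ * ‖F p‖ ^ 2 := mul_le_mul_of_nonneg_right h2 (sq_nonneg _)
    · refine Filter.Eventually.of_forall fun p => ?_
      refine Filter.Tendsto.const_mul _ (Filter.Tendsto.mul_const _ ?_)
      rcases (norm_nonneg (π p - x)).eq_or_lt with h | h
      · rw [← h]
        simp
      · have h1 : Filter.Tendsto (fun m : ℕ => ‖π p - x‖ ^ 2 + 1 / ((m : ℝ) + 1)) Filter.atTop
            (nhds (‖π p - x‖ ^ 2 + 0)) :=
          tendsto_const_nhds.add tendsto_one_div_add_atTop_nhds_zero_nat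
        have h2 : Filter.Tendsto (fun m : ℕ => ‖π p - x‖ / (‖π p - x‖ ^ 2 + 1 / ((m : ℝ) + 1)))
            Filter.atTop (nhds (‖π p - x‖ / (‖π p - x‖ ^ 2 + 0))) :=
          tendsto_const_nhds.div h1 (by positivity)
        have h3 : ‖π p - x‖ / (‖π p - x‖ ^ 2 + 0) = ‖π p - x‖⁻¹ := by
          rw [add_zero]
          field_simp
        rwa [h3] at h2
  have hfin := le_of_tendsto' hlim fun m => key (1 / ((m : ℝ) + 1)) (by positivity)
  rw [hR] at hfin
  exact hfin

theorem hardy : ∃ C : ℝ, 0 ≤ C ∧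
    ∀ (q n k : ℕ) (Λ : Set E3) (ψ : (Fin n → Fin q) → Cfg n k → ℂ) (_ : Sm q n k Λ ψ) (x : E3),
    mean ψ (fun p => near p x) ≤
      C * (TE ψ x 4 + TN ψ x 4 + mean ψ (fun p => ce p x 4 + cn p x 4)) := by
  obtain ⟨θ, hθ⟩ := cut_ex
  obtain ⟨C, hC, hJg⟩ := Jc_grad hθ
  refine ⟨2 + C, by positivity, fun q n k Λ ψ hsm x => ?_⟩
  have : (volume : Measure (Cfg n k)).IsAddHaarMeasure :=
    Measure.prod.instIsAddHaarMeasure (G := Fin n → E3) (H := Fin k → E3) volume volume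
  obtain ⟨J, hJ⟩ : ∃ J : E3 → ℝ, J = Jc θ x 2 := ⟨_, rfl⟩
  have hJs : ContDiff ℝ (⊤ : ℕ∞) J := by rw [hJ]; exact Jc_smooth hθ x 2
  have hJ01 : ∀ v, 0 ≤ J v ∧ J v ≤ 1 := by rw [hJ]; exact Jc_mem hθ x 2
  have hJ1 : ∀ v, ‖v - x‖ < 2 → J v = 1 := by
    intro v hv
    rw [hJ]
    exact Jc_one hθ x 2 two_pos v hv.le
  have hJ0 : ∀ v, 4 ≤ ‖v - x‖ → J v = 0 := by
    intro v hv
    rw [hJ]
    exact Jc_zero hθ x 2 two_pos v (by linarith)
  have hJgr : ∀ v, gr J v ≤ C * (if ‖v - x‖ < 4 then 1 else 0) := by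
    intro v
    have h1 := hJg x 2 two_pos v
    rw [← hJ] at h1
    have h2 : (2 : ℝ) * 2 = 4 := by norm_num
    rw [h2] at h1
    refine h1.trans ?_
    split_ifs
    · norm_num
      linarith
    · simp
  have hsm1 : ∀ σ, ContDiff ℝ 1 (ψ σ) := fun σ =>
    (hsm.smooth σ).of_le (by exact_mod_cast le_top)
  have hJm : Measurable J := hJs.continuous.measurable
  have iE : ∀ a : Fin n, IM ψ (fun p => J (p.1 a) * ‖p.1 a - x‖⁻¹) := by
    intro a
    refine IM.bmul (F := fun p => ‖p.1 a - x‖⁻¹) ?_ (hJm.comp (meas_e a)) 1 fun p => ?_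
    · exact (IM_we hsm x a).congr fun _ p _ => by rw [norm_sub_rev]
    · rw [abs_of_nonneg (hJ01 _).1]
      exact (hJ01 _).2
  have iN : ∀ j : Fin k, IM ψ (fun p => J (p.2 j) * ‖p.2 j - x‖⁻¹) := by
    intro j
    refine IM.bmul (F := fun p => ‖p.2 j - x‖⁻¹) ?_ (hJm.comp (meas_n j)) 1 fun p => ?_
    · exact (IM_wn hsm x j).congr fun _ p _ => by rw [norm_sub_rev]
    · rw [abs_of_nonneg (hJ01 _).1]
      exact (hJ01 _).2
  -- the counts
  have cE : ∀ a : Fin n, IM ψ (fun p => if ‖p.1 a - x‖ < 4 then (1 : ℝ) else 0) := fun a =>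
    IM.bdd hsm (ind_meas (meas_e a) x 4) 1 fun p => by split_ifs <;> norm_num
  have cN : ∀ j : Fin k, IM ψ (fun p => if ‖p.2 j - x‖ < 4 then (1 : ℝ) else 0) := fun j =>
    IM.bdd hsm (ind_meas (meas_n j) x 4) 1 fun p => by split_ifs <;> norm_num
  -- electrons
  have hE : ∀ a : Fin n, mean ψ (fun p => J (p.1 a) * ‖p.1 a - x‖⁻¹) ≤
      ∑ σ, (∫ p, (if ‖p.1 a - x‖ < 4 then ge (ψ σ) a p else 0)) +
        (2 + C) * mean ψ (fun p => if ‖p.1 a - x‖ < 4 then (1 : ℝ) else 0) := by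
    intro a
    unfold mean
    rw [mul_sum, ← sum_add_distrib]
    refine sum_le_sum fun σ _ => ?_
    have hI : Integrable (fun p : Cfg n k => ‖p.1 a - x‖⁻¹ * ‖ψ σ p‖ ^ 2) :=
      ((IM_we hsm x a).congr (G := fun p => ‖p.1 a - x‖⁻¹)
        fun _ p _ => by rw [norm_sub_rev]) σ
    have h1 := hd_main (volume : Measure (Cfg n k))
      ((ContinuousLinearMap.proj a : (Fin n → E3) →L[ℝ] E3).comp
        (ContinuousLinearMap.fst ℝ (Fin n → E3) (Fin k → E3)))
      (fun d => (Pi.single a (EuclideanSpace.single d 1), 0)) (fun d => by simp) hJs hJ01 x hJ0 C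
      hJgr (ψ σ) (hsm1 σ) (hsm.cpt σ) hI
    have e1 : ∀ p : Cfg n k, ((ContinuousLinearMap.proj a : (Fin n → E3) →L[ℝ] E3).comp
        (ContinuousLinearMap.fst ℝ (Fin n → E3) (Fin k → E3))) p = p.1 a := fun p => rfl
    simp only [e1] at h1
    have e2 : ∀ p : Cfg n k, (if ‖p.1 a - x‖ < 4 then
        ∑ d : Fin 3, ‖fderiv ℝ (ψ σ) p (Pi.single a (EuclideanSpace.single d 1), 0)‖ ^ 2 +
          (2 + C) * ‖ψ σ p‖ ^ 2 else 0) =
        (if ‖p.1 a - x‖ < 4 then ge (ψ σ) a p else 0) +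
          (2 + C) * ((if ‖p.1 a - x‖ < 4 then 1 else 0) * ‖ψ σ p‖ ^ 2) := by
      intro p
      rw [ge_eq (ψ σ) ((hsm1 σ).differentiable one_ne_zero) a p]
      split_ifs
      · ring
      · ring
    simp only [e2] at h1
    have hi1 : Integrable (fun p => if ‖p.1 a - x‖ < 4 then ge (ψ σ) a p else 0) := by
      have hset : MeasurableSet {p : Cfg n k | ‖p.1 a - x‖ < 4} :=
        measurableSet_lt ((meas_e a).sub_const x).norm measurable_const
      refine ((kE_int hsm σ a).indicator hset).congr (Filter.Eventually.of_forall fun p => ?_)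
      simp only [Set.indicator, Set.mem_ofPred_eq]
    rw [integral_add hi1 ((cE a σ).const_mul _), integral_const_mul] at h1
    refine le_trans (le_of_eq ?_) h1
    refine integral_congr_ae (Filter.Eventually.of_forall fun p => ?_)
    dsimp only
    ring
  have hN : ∀ j : Fin k, mean ψ (fun p => J (p.2 j) * ‖p.2 j - x‖⁻¹) ≤
      ∑ σ, (∫ p, (if ‖p.2 j - x‖ < 4 then gn (ψ σ) j p else 0)) +
        (2 + C) * mean ψ (fun p => if ‖p.2 j - x‖ < 4 then (1 : ℝ) else 0) := by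
    intro j
    unfold mean
    rw [mul_sum, ← sum_add_distrib]
    refine sum_le_sum fun σ _ => ?_
    have hI : Integrable (fun p : Cfg n k => ‖p.2 j - x‖⁻¹ * ‖ψ σ p‖ ^ 2) :=
      ((IM_wn hsm x j).congr (G := fun p => ‖p.2 j - x‖⁻¹)
        fun _ p _ => by rw [norm_sub_rev]) σ
    have h1 := hd_main (volume : Measure (Cfg n k))
      ((ContinuousLinearMap.proj j : (Fin k → E3) →L[ℝ] E3).comp
        (ContinuousLinearMap.snd ℝ (Fin n → E3) (Fin k → E3)))
      (fun d => (0, Pi.single j (EuclideanSpace.single d 1))) (fun d => by simp) hJs hJ01 x hJ0 C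
      hJgr (ψ σ) (hsm1 σ) (hsm.cpt σ) hI
    have e1 : ∀ p : Cfg n k, ((ContinuousLinearMap.proj j : (Fin k → E3) →L[ℝ] E3).comp
        (ContinuousLinearMap.snd ℝ (Fin n → E3) (Fin k → E3))) p = p.2 j := fun p => rfl
    simp only [e1] at h1
    have e2 : ∀ p : Cfg n k, (if ‖p.2 j - x‖ < 4 then
        ∑ d : Fin 3, ‖fderiv ℝ (ψ σ) p (0, Pi.single j (EuclideanSpace.single d 1))‖ ^ 2 +
          (2 + C) * ‖ψ σ p‖ ^ 2 else 0) =
        (if ‖p.2 j - x‖ < 4 then gn (ψ σ) j p else 0) +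
          (2 + C) * ((if ‖p.2 j - x‖ < 4 then 1 else 0) * ‖ψ σ p‖ ^ 2) := by
      intro p
      rw [gn_eq (ψ σ) ((hsm1 σ).differentiable one_ne_zero) j p]
      split_ifs
      · ring
      · ring
    simp only [e2] at h1
    have hi1 : Integrable (fun p => if ‖p.2 j - x‖ < 4 then gn (ψ σ) j p else 0) := by
      have hset : MeasurableSet {p : Cfg n k | ‖p.2 j - x‖ < 4} :=
        measurableSet_lt ((meas_n j).sub_const x).norm measurable_const
      refine ((kN_int hsm σ j).indicator hset).congr (Filter.Eventually.of_forall fun p => ?_)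
      simp only [Set.indicator, Set.mem_ofPred_eq]
    rw [integral_add hi1 ((cN j σ).const_mul _), integral_const_mul] at h1
    refine le_trans (le_of_eq ?_) h1
    refine integral_congr_ae (Filter.Eventually.of_forall fun p => ?_)
    dsimp only
    ring
  -- the singular count
  have hnear : mean ψ (fun p => near p x) ≤
      ∑ a : Fin n, mean ψ (fun p => J (p.1 a) * ‖p.1 a - x‖⁻¹) +
      ∑ j : Fin k, mean ψ (fun p => J (p.2 j) * ‖p.2 j - x‖⁻¹) := by
    rw [← mean_sum _ fun a _ => iE a, ← mean_sum _ fun j _ => iN j,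
      ← mean_add (IM.sum _ fun a _ => iE a) (IM.sum _ fun j _ => iN j)]
    refine mean_mono0 (fun p => ?_) ((IM.sum _ fun a _ => iE a).add (IM.sum _ fun j _ => iN j))
      fun σ p _ => ?_
    · unfold near
      exact add_nonneg (sum_nonneg fun a _ => by positivity) (sum_nonneg fun j _ => by positivity)
    · unfold near
      refine add_le_add (sum_le_sum fun a _ => ?_) (sum_le_sum fun j _ => ?_)
      · rw [norm_sub_rev]
        split_ifs with h
        · rw [hJ1 _ h, one_mul]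
        · exact mul_nonneg (hJ01 _).1 (by positivity)
      · rw [norm_sub_rev]
        split_ifs with h
        · rw [hJ1 _ h, one_mul]
        · exact mul_nonneg (hJ01 _).1 (by positivity)
  have hce : ∑ a : Fin n, mean ψ (fun p => if ‖p.1 a - x‖ < 4 then (1 : ℝ) else 0) =
      mean ψ (fun p => ce p x 4) := (mean_sum _ fun a _ => cE a).symm
  have hcn : ∑ j : Fin k, mean ψ (fun p => if ‖p.2 j - x‖ < 4 then (1 : ℝ) else 0) =
      mean ψ (fun p => cn p x 4) := (mean_sum _ fun j _ => cN j).symm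
  have s1 := sum_le_sum fun (a : Fin n) (_ : a ∈ univ) => hE a
  have s2 := sum_le_sum fun (j : Fin k) (_ : j ∈ univ) => hN j
  rw [sum_add_distrib, ← mul_sum, hce] at s1
  rw [sum_add_distrib, ← mul_sum, hcn] at s2
  rw [mean_add (IM_ce hsm x 4) (IM_cn hsm x 4)]
  have t1 : ∑ a : Fin n, ∑ σ, (∫ p, (if ‖p.1 a - x‖ < 4 then ge (ψ σ) a p else 0)) =
      TE ψ x 4 := rfl
  have t2 : ∑ j : Fin k, ∑ σ, (∫ p, (if ‖p.2 j - x‖ < 4 then gn (ψ σ) j p else 0)) =
      TN ψ x 4 := rfl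
  rw [t1] at s1
  rw [t2] at s2
  have p1 : 0 ≤ TE ψ x 4 := by
    refine sum_nonneg fun a _ => sum_nonneg fun σ _ => integral_nonneg fun p => ?_
    show 0 ≤ (if ‖p.1 a - x‖ < 4 then ge (ψ σ) a p else 0)
    split_ifs
    · exact ge_nonneg _ _ _
    · exact le_rfl
  have p2 : 0 ≤ TN ψ x 4 := by
    refine sum_nonneg fun j _ => sum_nonneg fun σ _ => integral_nonneg fun p => ?_
    show 0 ≤ (if ‖p.2 j - x‖ < 4 then gn (ψ σ) j p else 0)
    split_ifs
    · exact gn_nonneg _ _ _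
    · exact le_rfl
  have p3 : 0 ≤ C * TE ψ x 4 := mul_nonneg hC p1
  have p4 : 0 ≤ C * TN ψ x 4 := mul_nonneg hC p2
  linarith

end H6.CB
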