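import Pool.Agent.H6.CB.FIter
import Pool.Agent.H6.CB.Hardy

/-! The local bounds. If the closed ball of radius `2000 * N1 ^ (3/10)` around `x` lies in `Λ` (`N1 = n + k + 1 ≥ 1`), then `fiter` applies at every point of the ball of radius `101` around `x`, so `Lb χ θ W z ψ x 101 C0`. The number of particles: `fcnt` with `η = 1` (`ce_mono`, `cn_mono`). The singular count: `hardy`, `t_cov` with `R = 4`, and `fcnt`. `χ` and `θ` exist by `bump_ex` and `cut_ex` (`Pool/Agent/H6/CM/BumpEx.lean`). -/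

open MeasureTheory Finset

namespace H6.CB

open H6.CM

theorem fend (q : ℕ) (zm zp κm κp A : ℝ) (hzm : 0 < zm) (hκm : 0 < κm) (hA : 0 ≤ A) :
    ∃ C : ℝ, 0 ≤ C ∧
    ∀ (n k : ℕ) (Λ : Set E3) (z κ : Fin k → ℝ) (W : Finset E3) (E : ℝ)
    (ψ : (Fin n → Fin q) → Cfg n k → ℂ) (_ : Gd q zm zp κm κp A n k Λ z κ W E ψ) (x : E3)
    (_ : Metric.closedBall x (2000 * ((n : ℝ) + k + 1) ^ (3 / 10 : ℝ)) ⊆ Λ),
    TE ψ x 1 + TN ψ x 1 ≤ C ∧ mean ψ (fun p => ce p x 1 ^ (5 / 3 : ℝ)) ≤ C ∧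
    mean ψ (fun p => ce p x 1 + cn p x 1) ≤ C ∧ mean ψ (fun p => near p x) ≤ C := by
  obtain ⟨χ, hχ⟩ := bump_ex
  obtain ⟨θ, hθ⟩ := cut_ex
  obtain ⟨C0, hC0, H0⟩ := fiter q zm zp κm κp A hzm hκm hA hχ hθ
  obtain ⟨C1, hC1, H1⟩ := fcnt q zm zp κm κp A hzm hχ hθ 1 one_pos
  obtain ⟨C2, hC2, H2⟩ := hardy
  obtain ⟨C3, hC3, H3⟩ := t_cov 4 (by norm_num)
  refine ⟨C0 + (C0 + C1) + C2 * (C3 * C0 + (C0 + C1)), by positivity, ?_⟩
  intro n k Λ z κ W E ψ hG x hx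
  have hψ : Sm q n k Λ ψ := St_sm hG.st
  have hn : (0 : ℝ) ≤ n := Nat.cast_nonneg n
  have hk0 : (0 : ℝ) ≤ k := Nat.cast_nonneg k
  have hN : 1 ≤ ((n : ℝ) + k + 1) ^ (3 / 10 : ℝ) :=
    Real.one_le_rpow (by linarith) (by norm_num)
  have hall : ∀ y, dist y x ≤ 101 → Lc χ θ W z ψ y C0 := by
    intro y hy
    refine H0 n k Λ z κ W E ψ hG y ((Metric.closedBall_subset_closedBall' ?_).trans hx)
    linarith
  have h0 : Lc χ θ W z ψ x C0 := hall x (by rw [dist_self]; norm_num)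
  have hLb : Lb χ θ W z ψ x 100 C0 := fun y hy => hall y (by
    have := Metric.mem_ball.1 hy
    linarith)
  have hcnt : mean ψ (fun p => ce p x 14 + cn p x 14) ≤ C0 + C1 := by
    have := H1 n k Λ z κ W E ψ hG x C0 hLb
    linarith
  have hmono : ∀ r : ℝ, r ≤ 14 → mean ψ (fun p => ce p x r + cn p x r) ≤ C0 + C1 := by
    intro r hr
    refine (mean_mono ((IM_ce hψ x r).add (IM_cn hψ x r)) ((IM_ce hψ x 14).add (IM_cn hψ x 14))
      fun σ p _ => ?_).trans hcnt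
    have h1 : ‖x - x‖ + r ≤ 14 := by
      rw [sub_self, norm_zero]
      linarith
    exact add_le_add (ce_mono p h1) (cn_mono p h1)
  have hT : TE ψ x 4 + TN ψ x 4 ≤ C3 * C0 := by
    refine H3 q n k Λ ψ hψ x C0 fun y hy => (hall y ?_).kin
    have := Metric.mem_ball.1 hy
    linarith
  have hnear : mean ψ (fun p => near p x) ≤ C2 * (C3 * C0 + (C0 + C1)) := by
    refine (H2 q n k Λ ψ hψ x).trans (mul_le_mul_of_nonneg_left ?_ hC2)
    exact add_le_add hT (hmono 4 (by norm_num))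
  have hP : 0 ≤ C2 * (C3 * C0 + (C0 + C1)) := by positivity
  refine ⟨?_, ?_, ?_, ?_⟩
  · have := h0.kin
    linarith
  · have := h0.cnt
    linarith
  · have := hmono 1 (by norm_num)
    linarith
  · linarith

end H6.CB
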