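import Pool.Agent.H6.CB.Lib
import Pool.Agent.H6.CM.Stab

/-! Stability of matter with an arbitrarily small fraction of the kinetic energy: repeat the proof of `H6.CM.stab` (file `Pool/Agent/H6/CM/Stab.lean`) with `lt` for `δ` instead of `1/2` (a constant `1` in the potential costs `n`). -/

open MeasureTheory Finset

namespace H6.CB

open H6.CM

private theorem stD_haar' (n k : ℕ) : (volume : Measure (Cfg n k)).IsAddHaarMeasure :=
  Measure.prod.instIsAddHaarMeasure (G := Fin n → E3) (H := Fin k → E3) volume volume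

private theorem stD_null_ker {n k : ℕ} (L : Cfg n k →ₗ[ℝ] E3) (p0 : Cfg n k) (h0 : L p0 ≠ 0) :
    ∀ᵐ p : Cfg n k, L p ≠ 0 := by
  have h : (volume : Measure (Cfg n k)) (LinearMap.ker L : Set (Cfg n k)) = 0 := by
    have := stD_haar' n k
    apply Measure.addHaar_submodule
    intro h
    apply h0
    have : p0 ∈ LinearMap.ker L := by rw [h]; trivial
    exact this
  rw [ae_iff]
  have e : {a : Cfg n k | ¬L a ≠ 0} = (LinearMap.ker L : Set (Cfg n k)) := by
    ext a; simp
  rw [e]; exact h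

private theorem stD_ae_gen {n k : ℕ} : ∀ᵐ p : Cfg n k, Function.Injective p.1 ∧
    Function.Injective p.2 ∧ ∀ a j, p.1 a ≠ p.2 j := by
  have e : ∃ e : E3, e ≠ 0 := exists_ne 0
  obtain ⟨e, he⟩ := e
  have h1 : ∀ᵐ p : Cfg n k, ∀ a b, a ≠ b → p.1 a ≠ p.1 b := by
    rw [ae_all_iff]; intro a
    rw [ae_all_iff]; intro b
    by_cases hab : a = b
    · exact Filter.Eventually.of_forall fun p h => absurd hab h
    · have := stD_null_ker (n := n) (k := k)
        ((LinearMap.proj a ∘ₗ LinearMap.fst ℝ (Fin n → E3) (Fin k → E3)) -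
          (LinearMap.proj b ∘ₗ LinearMap.fst ℝ (Fin n → E3) (Fin k → E3)))
        (Pi.single a e, 0) (by simp [Ne.symm hab, he])
      filter_upwards [this] with p hp _ h
      exact hp (by simp [h])
  have h2 : ∀ᵐ p : Cfg n k, ∀ a b, a ≠ b → p.2 a ≠ p.2 b := by
    rw [ae_all_iff]; intro a
    rw [ae_all_iff]; intro b
    by_cases hab : a = b
    · exact Filter.Eventually.of_forall fun p h => absurd hab h
    · have := stD_null_ker (n := n) (k := k)
        ((LinearMap.proj a ∘ₗ LinearMap.snd ℝ (Fin n → E3) (Fin k → E3)) -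
          (LinearMap.proj b ∘ₗ LinearMap.snd ℝ (Fin n → E3) (Fin k → E3)))
        (0, Pi.single a e) (by simp [Ne.symm hab, he])
      filter_upwards [this] with p hp _ h
      exact hp (by simp [h])
  have h3 : ∀ᵐ p : Cfg n k, ∀ a j, p.1 a ≠ p.2 j := by
    rw [ae_all_iff]; intro a
    rw [ae_all_iff]; intro j
    have := stD_null_ker (n := n) (k := k)
        ((LinearMap.proj a ∘ₗ LinearMap.fst ℝ (Fin n → E3) (Fin k → E3)) -
          (LinearMap.proj j ∘ₗ LinearMap.snd ℝ (Fin n → E3) (Fin k → E3)))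
        (Pi.single a e, 0) (by simp [he])
    filter_upwards [this] with p hp h
    exact hp (by simp [h])
  filter_upwards [h1, h2, h3] with p h1 h2 h3
  refine ⟨fun a b h => ?_, fun a b h => ?_, h3⟩
  · by_contra hab; exact h1 a b hab h
  · by_contra hab; exact h2 a b hab h

private theorem stD_sq_cont {q n k : ℕ} {Λ : Set E3} {ψ : (Fin n → Fin q) → Cfg n k → ℂ}
    (hψ : St q n k Λ ψ) (σ : Fin n → Fin q) : Continuous (fun p => ‖ψ σ p‖ ^ 2) := by
  have := (hψ.smooth σ).continuous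
  fun_prop

private theorem stD_sq_cpt {q n k : ℕ} {Λ : Set E3} {ψ : (Fin n → Fin q) → Cfg n k → ℂ}
    (hψ : St q n k Λ ψ) (σ : Fin n → Fin q) : HasCompactSupport (fun p => ‖ψ σ p‖ ^ 2) := by
  refine (hψ.cpt σ).mono ?_
  intro p hp
  simp only [Function.mem_support, ne_eq, pow_eq_zero_iff, OfNat.ofNat_ne_zero,
    not_false_eq_true, norm_eq_zero] at hp ⊢
  exact hp

private theorem stD_V_int {q n k : ℕ} {Λ : Set E3} {ψ : (Fin n → Fin q) → Cfg n k → ℂ}
    (hψ : St q n k Λ ψ) (z : Fin k → ℝ) (σ : Fin n → Fin q) :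
    Integrable (fun p => V z p * ‖ψ σ p‖ ^ 2) := by
  have hc := stD_sq_cont hψ σ
  have hs := stD_sq_cpt hψ σ
  have h1 : Integrable (fun p : Cfg n k => ∑ a, ∑ b, ‖p.1 a - p.1 b‖⁻¹ * ‖ψ σ p‖ ^ 2) :=
    integrable_finsetSum _ fun a _ => integrable_finsetSum _ fun b _ => int_ee _ hc hs a b
  have h2 : Integrable (fun p : Cfg n k => ∑ a, ∑ j, z j * (‖p.1 a - p.2 j‖⁻¹ * ‖ψ σ p‖ ^ 2)) :=
    integrable_finsetSum _ fun a _ => integrable_finsetSum _ fun b _ =>
      (int_en _ hc hs a b).const_mul _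
  have h3 : Integrable (fun p : Cfg n k => ∑ j, ∑ l, z j * z l *
      (‖p.2 j - p.2 l‖⁻¹ * ‖ψ σ p‖ ^ 2)) :=
    integrable_finsetSum _ fun a _ => integrable_finsetSum _ fun b _ =>
      (int_nn _ hc hs a b).const_mul _
  refine (((h1.div_const 2).sub h2).add (h3.div_const 2)).congr
    (Filter.Eventually.of_forall fun p => ?_)
  simp only [Pi.add_apply, Pi.sub_apply, V]
  simp_rw [← mul_assoc, ← Finset.sum_mul]
  ring

private theorem stD_W_meas (K : ℝ) {n k : ℕ} :
    Measurable (fun p : Cfg n k => ∑ a, UR K p.2 (p.1 a)) := by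
  refine Finset.measurable_sum _ fun a _ => ?_
  unfold UR
  refine Measurable.const_mul (Measurable.max (Measurable.sub ?_ measurable_const)
    measurable_const) _
  refine Measurable.iSup fun j => ?_
  have h1 : Measurable (fun p : Cfg n k => p.1 a) := (measurable_pi_apply a).comp measurable_fst
  have h2 : Measurable (fun p : Cfg n k => p.2 j) := (measurable_pi_apply j).comp measurable_snd
  exact (h1.sub h2).norm.inv

theorem stabD (q : ℕ) (zp δ : ℝ) (hδ : 0 < δ) : ∃ C : ℝ, 0 ≤ C ∧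
    ∀ (n k : ℕ) (Λ : Set E3) (z : Fin k → ℝ)
    (_ : ∀ j, 0 ≤ z j ∧ z j ≤ zp) (ψ : (Fin n → Fin q) → Cfg n k → ℂ) (_ : St q n k Λ ψ),
    -(C * (n + k)) * mass ψ ≤ δ * ∑ a, kE ψ a + mean ψ (V z) := by
  obtain ⟨K, hK, hb⟩ := bax zp
  obtain ⟨Cu, hCu, hu⟩ := uint K hK
  obtain ⟨Cl, hCl, hl⟩ := lt q δ hδ
  refine ⟨K + Cl * Cu, by positivity, ?_⟩
  intro n k Λ z hz ψ hψ
  have hsc := fun σ => stD_sq_cont hψ σ
  have hss := fun σ => stD_sq_cpt hψ σ
  have hsi : ∀ σ, Integrable (fun p => ‖ψ σ p‖ ^ 2) := fun σ =>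
    (hsc σ).integrable_of_hasCompactSupport (hss σ)
  have hgi : ∀ σ a, Integrable (ge (ψ σ) a) := fun σ a =>
    (ge_cont _ ((hψ.smooth σ).of_le (by exact_mod_cast le_top)) a).integrable_of_hasCompactSupport
      (ge_cpt _ ((hψ.smooth σ).of_le (by exact_mod_cast le_top)) (hψ.cpt σ) a)
  have hg0 : ∀ σ a p, 0 ≤ ge (ψ σ) a p := fun σ a p => g3_nonneg _ _
  set W : Cfg n k → ℝ := fun p => ∑ a, UR K p.2 (p.1 a) with hW
  have hWm : Measurable W := stD_W_meas K
  have hW0 : ∀ p, 0 ≤ W p := fun p => Finset.sum_nonneg fun a _ => ur_nonneg K hK _ _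
  have hm0 : 0 ≤ mass ψ := Finset.sum_nonneg fun σ _ => integral_nonneg fun p => by positivity
  have hk0 : ∀ a, 0 ≤ kE ψ a := fun a => Finset.sum_nonneg fun σ _ => integral_nonneg (hg0 σ a)
  -- pointwise lower bound
  have hV : ∀ᵐ p : Cfg n k, -(K * n) - W p ≤ V z p := by
    filter_upwards [stD_ae_gen (n := n) (k := k)] with p hp
    refine le_trans ?_ (hb n k z hz p hp.1 hp.2.1 hp.2.2)
    have : K * ∑ a, (⨆ j, ‖p.1 a - p.2 j‖⁻¹) ≤ K * n + W p := by
      rw [hW, Finset.mul_sum]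
      have : K * (n : ℝ) = ∑ _a : Fin n, K := by simp [mul_comm]
      rw [this]
      simp only
      rw [← Finset.sum_add_distrib]
      refine Finset.sum_le_sum fun a _ => ?_
      unfold UR
      have h1 := le_max_left ((⨆ j, ‖p.1 a - p.2 j‖⁻¹) - 1) 0
      have h2 := mul_le_mul_of_nonneg_left h1 hK
      linarith
    linarith
  -- the Lieb-Thirring bound
  have hR : ∀ R : Fin k → E3, ∑ σ, ∫⁻ x, ENNReal.ofReal (W (x, R) * ‖ψ σ (x, R)‖ ^ 2) ≤
      ENNReal.ofReal (δ * ∑ σ, ∑ a, (∫ x, ge (ψ σ) a (x, R)) +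
        Cl * (Cu * k) * ∑ σ, ∫ x, ‖ψ σ (x, R)‖ ^ 2) := by
    intro R
    have hcf : ∀ σ, ContDiff ℝ 1 (fun x => ψ σ (x, R)) := fun σ =>
      ((hψ.smooth σ).of_le (by exact_mod_cast le_top)).comp (contDiff_id.prodMk contDiff_const)
    have hcc : ∀ σ, HasCompactSupport (fun x => ψ σ (x, R)) := fun σ => by
      have hK := (hψ.cpt σ).isCompact.image (continuous_fst)
      refine HasCompactSupport.of_support_subset_isCompact hK ?_
      intro x hx
      exact ⟨(x, R), subset_tsupport _ hx, rfl⟩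
    have := hl n (fun σ x => ψ σ (x, R)) hcf hcc (fun π σ x => hψ.anti π σ (x, R))
      (UR K R) (ur_meas K R) (ur_nonneg K hK R) (Cu * k) (by positivity) (hu k R)
    exact this
  have hfub : ∀ f : Cfg n k → ENNReal, Measurable f →
      ∫⁻ p, f p = ∫⁻ R, ∫⁻ x, f (x, R) := by
    intro f hf
    rw [Measure.volume_eq_prod, lintegral_prod_symm _ hf.aemeasurable]
  have hmeas : ∀ σ, Measurable (fun p => ENNReal.ofReal (W p * ‖ψ σ p‖ ^ 2)) := fun σ =>
    (hWm.mul (hsc σ).measurable).ennreal_ofReal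
  have htot : ∑ σ, ∫⁻ p, ENNReal.ofReal (W p * ‖ψ σ p‖ ^ 2) ≤
      ENNReal.ofReal (δ * ∑ a, kE ψ a + Cl * (Cu * k) * mass ψ) := by
    have hInt1 : ∀ σ a, Integrable (fun R : Fin k → E3 => ∫ x : Fin n → E3,
        ge (ψ σ) a (x, R)) := fun σ a => by
      have := hgi σ a
      rw [Measure.volume_eq_prod] at this
      exact this.integral_prod_right
    have hInt2 : ∀ σ, Integrable (fun R : Fin k → E3 => ∫ x : Fin n → E3,
        ‖ψ σ (x, R)‖ ^ 2) := fun σ => by
      have := hsi σ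
      rw [Measure.volume_eq_prod] at this
      exact this.integral_prod_right
    have hE1 : ∀ σ a, ∫ R : Fin k → E3, ∫ x : Fin n → E3, ge (ψ σ) a (x, R) =
        ∫ p, ge (ψ σ) a p := fun σ a => by
      have := hgi σ a
      rw [Measure.volume_eq_prod] at this ⊢
      rw [integral_prod_symm _ this]
    have hE2 : ∀ σ, ∫ R : Fin k → E3, ∫ x : Fin n → E3, ‖ψ σ (x, R)‖ ^ 2 =
        ∫ p, ‖ψ σ p‖ ^ 2 := fun σ => by
      have := hsi σ
      rw [Measure.volume_eq_prod] at this ⊢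
      rw [integral_prod_symm _ this]
    calc ∑ σ, ∫⁻ p, ENNReal.ofReal (W p * ‖ψ σ p‖ ^ 2)
        = ∑ σ, ∫⁻ R : Fin k → E3, ∫⁻ x : Fin n → E3,
            ENNReal.ofReal (W (x, R) * ‖ψ σ (x, R)‖ ^ 2) :=
          Finset.sum_congr rfl fun σ _ => hfub _ (hmeas σ)
      _ = ∫⁻ R : Fin k → E3, ∑ σ, ∫⁻ x : Fin n → E3,
            ENNReal.ofReal (W (x, R) * ‖ψ σ (x, R)‖ ^ 2) := by
          rw [lintegral_finsetSum]
          intro σ _
          exact Measurable.lintegral_prod_left' (hmeas σ)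
      _ ≤ ∫⁻ R : Fin k → E3, ENNReal.ofReal (δ * ∑ σ, ∑ a, (∫ x, ge (ψ σ) a (x, R)) +
            Cl * (Cu * k) * ∑ σ, ∫ x, ‖ψ σ (x, R)‖ ^ 2) := lintegral_mono hR
      _ = ENNReal.ofReal (∫ R : Fin k → E3, (δ * ∑ σ, ∑ a, (∫ x, ge (ψ σ) a (x, R)) +
            Cl * (Cu * k) * ∑ σ, ∫ x, ‖ψ σ (x, R)‖ ^ 2)) := by
          rw [ofReal_integral_eq_lintegral_ofReal]
          · refine ((integrable_finsetSum _ fun σ _ => integrable_finsetSum _ fun a _ =>
              hInt1 σ a).const_mul _).add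
              ((integrable_finsetSum _ fun σ _ => hInt2 σ).const_mul _)
          · refine Filter.Eventually.of_forall fun R => ?_
            have h1 : 0 ≤ ∑ σ, ∑ a, (∫ x, ge (ψ σ) a (x, R)) :=
              Finset.sum_nonneg fun σ _ => Finset.sum_nonneg fun a _ =>
                integral_nonneg fun x => hg0 σ a _
            have h2 : 0 ≤ ∑ σ, ∫ x, ‖ψ σ (x, R)‖ ^ 2 :=
              Finset.sum_nonneg fun σ _ => integral_nonneg fun x => by positivity
            simp only [Pi.zero_apply]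
            positivity
      _ = ENNReal.ofReal (δ * ∑ a, kE ψ a + Cl * (Cu * k) * mass ψ) := by
          congr 1
          rw [integral_add, integral_const_mul, integral_const_mul, integral_finsetSum,
            integral_finsetSum]
          · congr 1
            · congr 1
              have : ∀ σ ∈ (univ : Finset (Fin n → Fin q)), ∫ R : Fin k → E3, ∑ a,
                  (∫ x, ge (ψ σ) a (x, R)) = ∑ a, ∫ p, ge (ψ σ) a p := fun σ _ => by
                rw [integral_finsetSum _ fun a _ => hInt1 σ a]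
                exact Finset.sum_congr rfl fun a _ => hE1 σ a
              rw [Finset.sum_congr rfl this, Finset.sum_comm]
              rfl
            · congr 1
              exact Finset.sum_congr rfl fun σ _ => hE2 σ
          · exact fun σ _ => hInt2 σ
          · exact fun σ _ => integrable_finsetSum _ fun a _ => hInt1 σ a
          · exact (integrable_finsetSum _ fun σ _ => integrable_finsetSum _ fun a _ =>
              hInt1 σ a).const_mul _
          · exact (integrable_finsetSum _ fun σ _ => hInt2 σ).const_mul _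
  have hWi : ∀ σ, Integrable (fun p => W p * ‖ψ σ p‖ ^ 2) := by
    intro σ
    refine ⟨(hWm.mul (hsc σ).measurable).aestronglyMeasurable, ?_⟩
    rw [hasFiniteIntegral_iff_ofReal (Filter.Eventually.of_forall fun p =>
      mul_nonneg (hW0 p) (by positivity))]
    refine lt_of_le_of_lt (Finset.single_le_sum (f := fun σ => ∫⁻ p,
      ENNReal.ofReal (W p * ‖ψ σ p‖ ^ 2)) (fun _ _ => bot_le) (Finset.mem_univ σ)) ?_
    exact lt_of_le_of_lt htot ENNReal.ofReal_lt_top
  have hWt : ∑ σ, ∫ p, W p * ‖ψ σ p‖ ^ 2 ≤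
      δ * ∑ a, kE ψ a + Cl * (Cu * k) * mass ψ := by
    have h0 : 0 ≤ δ * ∑ a, kE ψ a + Cl * (Cu * k) * mass ψ := by
      have := Finset.sum_nonneg fun a (_ : a ∈ (univ : Finset (Fin n))) => hk0 a
      positivity
    have h1 : ∑ σ, ∫⁻ p, ENNReal.ofReal (W p * ‖ψ σ p‖ ^ 2) =
        ENNReal.ofReal (∑ σ, ∫ p, W p * ‖ψ σ p‖ ^ 2) := by
      rw [ENNReal.ofReal_sum_of_nonneg fun σ _ => integral_nonneg fun p =>
        mul_nonneg (hW0 p) (by positivity)]
      refine Finset.sum_congr rfl fun σ _ => ?_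
      rw [ofReal_integral_eq_lintegral_ofReal (hWi σ) (Filter.Eventually.of_forall fun p =>
        mul_nonneg (hW0 p) (by positivity))]
    rw [h1] at htot
    exact (ENNReal.ofReal_le_ofReal_iff h0).1 htot
  -- the mean of the Coulomb energy
  have hmV : -(K * n) * mass ψ - ∑ σ, ∫ p, W p * ‖ψ σ p‖ ^ 2 ≤ mean ψ (V z) := by
    unfold mass mean
    rw [Finset.mul_sum, ← Finset.sum_sub_distrib]
    refine Finset.sum_le_sum fun σ _ => ?_
    rw [← integral_const_mul, ← integral_sub ((hsi σ).const_mul _) (hWi σ)]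
    refine integral_mono_ae (((hsi σ).const_mul _).sub (hWi σ)) (stD_V_int hψ z σ) ?_
    filter_upwards [hV] with p hp
    have := mul_le_mul_of_nonneg_right hp (by positivity : 0 ≤ ‖ψ σ p‖ ^ 2)
    linarith
  have hn1 : 0 ≤ K * k * mass ψ := by positivity
  have hn2 : 0 ≤ Cl * Cu * n * mass ψ := by positivity
  nlinarith [hmV, hWt, hn1, hn2]

end H6.CB
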