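import Pool.Agent.H6.CB.EJ
import Pool.Agent.H6.CM.Stab
import Pool.Agent.H6.CB.StabD

/-! The two potential inequalities, for arbitrary wave functions. `p1`: sum `erelS` (with `r0 = s ^ 2`) over all electrons and `nj` over all nuclei; `p2`: sum `ej` over all electrons and `nucS` over all nuclei. By `sum_rule` the Coulomb terms add up to `2 * V`, and `∑ kE + 2 V ≥ - 2 C (n + k)` by `stab` (the kinetic energies of the nuclei are nonnegative); `∑ z j = n`; divide by `n` and use `k ≤ n / zm`. If `n = 0` then `k = 0` and `uh = 0`; `0 ≤ energy - E * mass` is the hypothesis `LB`. Compare the private theorem `half` in `Pool/Agent/H6/CM/Main.lean`. `ktot`: sum `ej` and `nj` (the reference potential cancels by neutrality) and use `stabD` with `δ = 1/4`. -/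

open MeasureTheory Finset

namespace H6.CB

open H6.CM

private theorem p12_vsum {q n k : ℕ} {Λ : Set E3} {ψ : (Fin n → Fin q) → Cfg n k → ℂ}
    (hψ : St q n k Λ ψ) (z : Fin k → ℝ) :
    ∑ j, z j * mean ψ (fun p => phiN z j p (p.2 j)) -
      ∑ a, mean ψ (fun p => phiE z a p (p.1 a)) = 2 * mean ψ (V z) := by
  have hS := St_sm hψ
  have e1 : ∑ j, z j * mean ψ (fun p => phiN z j p (p.2 j)) =
      mean ψ (fun p => ∑ j, z j * phiN z j p (p.2 j)) := by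
    rw [mean_sum univ fun j _ => (IM_phiN hS z j).cmul (z j)]
    exact sum_congr rfl fun j _ => (mean_cmul _ _).symm
  have e2 : ∑ a, mean ψ (fun p => phiE z a p (p.1 a)) =
      mean ψ (fun p => ∑ a, phiE z a p (p.1 a)) :=
    (mean_sum univ fun a _ => IM_phiE hS z a).symm
  have i1 : IM ψ (fun p => ∑ j, z j * phiN z j p (p.2 j)) :=
    IM.sum univ fun j _ => (IM_phiN hS z j).cmul (z j)
  have i2 : IM ψ (fun p => ∑ a, phiE z a p (p.1 a)) := IM.sum univ fun a _ => IM_phiE hS z a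
  rw [e1, e2, ← mean_sub i1 i2, ← mean_cmul]
  congr 1
  funext p
  exact sum_rule z p

private theorem p12_phc {n k : ℕ} {χ : E3 → ℝ} (hχ : Bump χ) (s : ℝ) (hs : 0 < s) (z : Fin k → ℝ) (v : E3) :
    Continuous (fun p : Cfg n k => ph χ s z p v) := by
  have hUc : Continuous (UU χ s) := (UU_smooth hχ s hs).continuous
  unfold ph
  refine Continuous.sub ?_ ?_
  · refine continuous_finsetSum _ fun l _ => continuous_const.mul (hUc.comp ?_)
    exact continuous_const.sub ((continuous_apply l).comp continuous_snd)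
  · refine continuous_finsetSum _ fun a _ => hUc.comp ?_
    exact continuous_const.sub ((continuous_apply a).comp continuous_fst)

private theorem p12_uh {q n k : ℕ} {Λ : Set E3} {ψ : (Fin n → Fin q) → Cfg n k → ℂ}
    (hψ : St q n k Λ ψ) {χ : E3 → ℝ} (hχ : Bump χ) (s : ℝ) (hs : 0 < s) (W : Finset E3) (z : Fin k → ℝ)
    (v : E3) : mean ψ (fun p => uh χ s W z p v) = mean ψ (fun p => ph χ s z p v) - mean ψ (pr χ W z) := by
  have i1 : IM ψ (fun p => ph χ s z p v) := IM.cont (St_sm hψ) (p12_phc hχ s hs z v)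
  have i2 : IM ψ (fun p => pr χ W z p) := by
    refine IM.cont (St_sm hψ) ?_
    unfold pr
    exact continuous_const.mul (continuous_finsetSum _ fun w _ => p12_phc hχ 1 one_pos z w)
  exact mean_sub i1 i2

private theorem p12_k {n k : ℕ} {zm zp : ℝ} (hzm : 0 < zm) {z : Fin k → ℝ}
    (hz : ∀ j, zm ≤ z j ∧ z j ≤ zp) (hsum : ∑ j, z j = n) : (k : ℝ) ≤ n * (1 / zm) := by
  have h1 : ∑ j : Fin k, zm ≤ ∑ j, z j := Finset.sum_le_sum fun j _ => (hz j).1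
  rw [hsum] at h1
  simp only [Finset.sum_const, Finset.card_univ, Fintype.card_fin, nsmul_eq_mul] at h1
  rw [mul_one_div, le_div_iff₀ hzm]
  exact h1

private theorem p12_kap {k : ℕ} {κp : ℝ} {κ : Fin k → ℝ} (hκ : ∀ j, 0 ≤ κ j ∧ κ j ≤ κp) :
    ∑ j, κ j ≤ k * |κp| := by
  have h1 : ∑ j : Fin k, κ j ≤ ∑ _j : Fin k, |κp| :=
    Finset.sum_le_sum fun j _ => (hκ j).2.trans (le_abs_self _)
  simpa using h1

private theorem p12_zero {q n k : ℕ} {zm zp : ℝ} (hzm : 0 < zm) {z : Fin k → ℝ}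
    (hz : ∀ j, zm ≤ z j ∧ z j ≤ zp) (hsum : ∑ j, z j = n) (hn : n = 0)
    (ψ : (Fin n → Fin q) → Cfg n k → ℂ) (χ : E3 → ℝ) (s : ℝ) (W : Finset E3) (v : E3) :
    mean ψ (fun p => uh χ s W z p v) = 0 := by
  subst hn
  have hk : k = 0 := by
    by_contra hk
    have : Nonempty (Fin k) := ⟨⟨0, Nat.pos_of_ne_zero hk⟩⟩
    have : 0 < ∑ j, z j := Finset.sum_pos (fun j _ => hzm.trans_le (hz j).1) univ_nonempty
    rw [hsum] at this
    simp at this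
  subst hk
  have e : ∀ p : Cfg 0 0, uh χ s W z p v = 0 := by
    intro p
    unfold uh pr ph
    simp
  unfold mean
  simp [e]

/-- electrons relocated to `v` -/
private theorem p12_eA {q : ℕ} {χ : E3 → ℝ} (hχ : Bump χ) : ∃ C : ℝ, 0 ≤ C ∧
    ∀ (n k : ℕ) (Λ : Set E3) (z κ : Fin k → ℝ) (_ : ∀ j, 0 ≤ z j) (_ : ∀ j, 0 ≤ κ j) (E : ℝ)
    (_ : LB q n k Λ z κ E) (ψ : (Fin n → Fin q) → Cfg n k → ℂ)
    (_ : St q n k Λ ψ) (s : ℝ) (_ : 0 < s) (_ : s ≤ 1) (v : E3) (_ : Metric.closedBall v 2 ⊆ Λ),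
    ∑ a, kE ψ a - ∑ a, mean ψ (fun p => phiE z a p (p.1 a)) + n * mean ψ (fun p => ph χ s z p v) ≤
      n * (energy z κ ψ - E * mass ψ) +
        n * (C * ((s ^ 4)⁻¹ * mass ψ + 2 * s⁻¹ * mean ψ (fun p => ce p v (2 * s)))) := by
  obtain ⟨C, hC, h⟩ := erelS hχ
  refine ⟨C, hC, ?_⟩
  intro n k Λ z κ hz hκ E hE ψ hψ s hs hs1 v hv
  have h1 : ∀ a ∈ (univ : Finset (Fin n)), kE ψ a - mean ψ (fun p => phiE z a p (p.1 a)) +
      mean ψ (fun p => ph χ s z p v) ≤ (energy z κ ψ - E * mass ψ) +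
        C * ((s ^ 4)⁻¹ * mass ψ + 2 * s⁻¹ * mean ψ (fun p => ce p v (2 * s))) := by
    intro a _
    have h2 := h q n k Λ z κ hz hκ E hE a ψ (St_sa hψ a) s (s ^ 2) (by positivity)
      (by nlinarith) hs1 v hv
    have e1 : ((s ^ 2) ^ 2)⁻¹ = (s ^ 4)⁻¹ := by
      congr 1
      ring
    have e2 : s ^ 2 * (s ^ 3)⁻¹ + s⁻¹ = 2 * s⁻¹ := by
      field_simp
      norm_num
    rw [e1, e2] at h2
    linarith
  have h3 := sum_le_sum h1
  simp only [sum_sub_distrib, sum_add_distrib, sum_const, card_univ, Fintype.card_fin, nsmul_eq_mul] at h3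
  linarith

/-- electrons relocated into the reference set -/
private theorem p12_eB {q : ℕ} {χ : E3 → ℝ} (hχ : Bump χ) : ∃ C : ℝ, 0 ≤ C ∧
    ∀ (n k : ℕ) (Λ : Set E3) (z κ : Fin k → ℝ) (_ : ∀ j, 0 ≤ z j) (_ : ∀ j, 0 ≤ κ j) (E : ℝ)
    (_ : LB q n k Λ z κ E) (ψ : (Fin n → Fin q) → Cfg n k → ℂ)
    (_ : St q n k Λ ψ) (A : ℝ) (_ : 0 ≤ A) (W : Finset E3) (_ : Rf A Λ W ψ),
    ∑ a, kE ψ a - ∑ a, mean ψ (fun p => phiE z a p (p.1 a)) + n * mean ψ (pr χ W z) ≤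
      n * (energy z κ ψ - E * mass ψ) + n * (C * (1 + A) * mass ψ) := by
  obtain ⟨C, hC, h⟩ := ej hχ
  refine ⟨C, hC, ?_⟩
  intro n k Λ z κ hz hκ E hE ψ hψ A hA W hW
  have h1 : ∀ a ∈ (univ : Finset (Fin n)), kE ψ a - mean ψ (fun p => phiE z a p (p.1 a)) +
      mean ψ (pr χ W z) ≤ (energy z κ ψ - E * mass ψ) + C * (1 + A) * mass ψ := by
    intro a _
    exact h q n k Λ z κ hz hκ E hE a ψ (St_sa hψ a) A hA W hW
  have h3 := sum_le_sum h1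
  simp only [sum_sub_distrib, sum_add_distrib, sum_const, card_univ, Fintype.card_fin, nsmul_eq_mul] at h3
  linarith

/-- nuclei relocated into the reference set -/
private theorem p12_nB {q : ℕ} {χ : E3 → ℝ} (hχ : Bump χ) (κp : ℝ) : ∃ C : ℝ, 0 ≤ C ∧
    ∀ (n k : ℕ) (Λ : Set E3) (z κ : Fin k → ℝ) (_ : ∀ j, 0 ≤ z j) (_ : ∀ j, 0 ≤ κ j ∧ κ j ≤ κp)
    (_ : ∑ j, z j = n) (E : ℝ)
    (_ : LB q n k Λ z κ E) (ψ : (Fin n → Fin q) → Cfg n k → ℂ)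
    (_ : St q n k Λ ψ) (A : ℝ) (W : Finset E3) (_ : Rf A Λ W ψ),
    ∑ j, κ j * kN ψ j + ∑ j, z j * mean ψ (fun p => phiN z j p (p.2 j)) - n * mean ψ (pr χ W z) ≤
      k * (energy z κ ψ - E * mass ψ) + k * (C * mass ψ) := by
  obtain ⟨C, hC, h⟩ := nj hχ
  refine ⟨C * |κp|, by positivity, ?_⟩
  intro n k Λ z κ hz hκ hsum E hE ψ hψ A W hW
  have h1 : ∀ j ∈ (univ : Finset (Fin k)), κ j * kN ψ j + z j * mean ψ (fun p => phiN z j p (p.2 j)) -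
      z j * mean ψ (pr χ W z) ≤ (energy z κ ψ - E * mass ψ) + C * mass ψ * κ j := by
    intro j _
    have h2 := h q n k Λ z κ hz (fun j => (hκ j).1) E hE j ψ hψ A W hW
    linarith
  have h3 := sum_le_sum h1
  simp only [sum_sub_distrib, sum_add_distrib, sum_const, card_univ, Fintype.card_fin, nsmul_eq_mul,
    ← sum_mul, ← mul_sum, hsum] at h3
  have h4 := mul_le_mul_of_nonneg_left (p12_kap hκ) (mul_nonneg hC (mass_nonneg (ψ := ψ)))
  linarith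

/-- nuclei relocated to `v` -/
private theorem p12_nA {q : ℕ} {χ : E3 → ℝ} (hχ : Bump χ) (κp : ℝ) : ∃ C : ℝ, 0 ≤ C ∧
    ∀ (n k : ℕ) (Λ : Set E3) (z κ : Fin k → ℝ) (_ : ∀ j, 0 ≤ z j) (_ : ∀ j, 0 ≤ κ j ∧ κ j ≤ κp)
    (_ : ∑ j, z j = n) (E : ℝ)
    (_ : LB q n k Λ z κ E) (ψ : (Fin n → Fin q) → Cfg n k → ℂ)
    (_ : St q n k Λ ψ) (s : ℝ) (_ : 0 < s) (_ : s ≤ 1) (v : E3) (_ : Metric.closedBall v 2 ⊆ Λ),
    ∑ j, κ j * kN ψ j + ∑ j, z j * mean ψ (fun p => phiN z j p (p.2 j)) -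
        n * mean ψ (fun p => ph χ s z p v) ≤
      k * (energy z κ ψ - E * mass ψ) + k * (C * ((s ^ 2)⁻¹ * mass ψ)) := by
  have hG : 0 ≤ ∫ v, gr χ v := integral_nonneg fun v => gr_nonneg _ _
  refine ⟨(∫ v, gr χ v) * |κp|, by positivity, ?_⟩
  intro n k Λ z κ hz hκ hsum E hE ψ hψ s hs hs1 v hv
  have h1 : ∀ j ∈ (univ : Finset (Fin k)), κ j * kN ψ j + z j * mean ψ (fun p => phiN z j p (p.2 j)) -
      z j * mean ψ (fun p => ph χ s z p v) ≤ (energy z κ ψ - E * mass ψ) +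
        ((∫ v, gr χ v) * ((s ^ 2)⁻¹ * mass ψ)) * κ j := by
    intro j _
    have h2 := nucS hχ hE hz hψ j s hs hs1 v hv
    have e : κ j * ((s ^ 2)⁻¹ * ∫ v, gr χ v) * mass ψ =
        ((∫ v, gr χ v) * ((s ^ 2)⁻¹ * mass ψ)) * κ j := by ring
    rw [e] at h2
    linarith
  have h3 := sum_le_sum h1
  simp only [sum_sub_distrib, sum_add_distrib, sum_const, card_univ, Fintype.card_fin, nsmul_eq_mul,
    ← sum_mul, ← mul_sum, hsum] at h3
  have h4 := mul_le_mul_of_nonneg_left (p12_kap hκ)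
    (mul_nonneg hG (mul_nonneg (inv_nonneg.2 (sq_nonneg s)) (mass_nonneg (ψ := ψ))))
  linarith

theorem p1 (q : ℕ) (zm zp κp : ℝ) (hzm : 0 < zm) {χ : E3 → ℝ} (hχ : Bump χ) :
    ∃ C : ℝ, 0 ≤ C ∧
    ∀ (n k : ℕ) (Λ : Set E3) (z κ : Fin k → ℝ) (_ : ∀ j, zm ≤ z j ∧ z j ≤ zp)
    (_ : ∀ j, 0 ≤ κ j ∧ κ j ≤ κp) (_ : ∑ j, z j = n) (E : ℝ)
    (_ : LB q n k Λ z κ E) (ψ : (Fin n → Fin q) → Cfg n k → ℂ)
    (_ : St q n k Λ ψ) (A : ℝ) (_ : 0 ≤ A) (W : Finset E3) (_ : Rf A Λ W ψ)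
    (s : ℝ) (_ : 0 < s) (_ : s ≤ 1) (v : E3) (_ : Metric.closedBall v 2 ⊆ Λ),
    mean ψ (fun p => uh χ s W z p v) ≤ C * ((energy z κ ψ - E * mass ψ) +
      ((s ^ 4)⁻¹ + A) * mass ψ + s⁻¹ * mean ψ (fun p => ce p v (2 * s))) := by
  obtain ⟨Ca, hCa, ha⟩ := p12_eA (q := q) hχ
  obtain ⟨Cb, hCb, hb⟩ := p12_nB (q := q) hχ κp
  obtain ⟨Cs, hCs, hst⟩ := stab q zp
  refine ⟨(1 + 1 / zm) + 2 * Ca + Cb * (1 / zm) + 2 * Cs * (1 + 1 / zm), by positivity, ?_⟩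
  intro n k Λ z κ hz hκ hsum E hE ψ hψ A hA W hW s hs hs1 v hv
  have hz0 : ∀ j, 0 ≤ z j := fun j => hzm.le.trans (hz j).1
  have hD : 0 ≤ energy z κ ψ - E * mass ψ := by
    have := hE ψ hψ
    linarith
  have hm : 0 ≤ mass ψ := mass_nonneg
  have hN : 0 ≤ mean ψ (fun p => ce p v (2 * s)) := mean_nonneg fun _ p _ => ce_nonneg p v _
  have hsi : 0 ≤ s⁻¹ := by positivity
  have hs4 : 1 ≤ (s ^ 4)⁻¹ := by
    rw [one_le_inv₀ (by positivity)]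
    exact pow_le_one₀ hs.le hs1
  rcases Nat.eq_zero_or_pos n with hn | hn
  · rw [p12_zero hzm hz hsum hn]
    positivity
  have hn' : (0 : ℝ) < n := by exact_mod_cast hn
  have hk := p12_k hzm hz hsum
  have h1 := ha n k Λ z κ hz0 (fun j => (hκ j).1) E hE ψ hψ s hs hs1 v hv
  have h2 := hb n k Λ z κ hz0 hκ hsum E hE ψ hψ A W hW
  have h3 := hst n k Λ z (fun j => ⟨hz0 j, (hz j).2⟩) ψ hψ
  have h4 := p12_vsum hψ z
  have h5 := p12_uh hψ hχ s hs W z v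
  have hK : 0 ≤ ∑ j, κ j * kN ψ j := sum_nonneg fun j _ => mul_nonneg (hκ j).1 (kN_nonneg ψ j)
  rw [h5]
  generalize energy z κ ψ - E * mass ψ = D at hD h1 h2 ⊢
  generalize mass ψ = m at hm h1 h2 h3 ⊢
  generalize mean ψ (fun p => ce p v (2 * s)) = N at hN h1 ⊢
  generalize mean ψ (fun p => ph χ s z p v) = P at h1 ⊢
  generalize mean ψ (pr χ W z) = R at h2 ⊢
  generalize (s ^ 4)⁻¹ = t at hs4 h1 ⊢
  generalize s⁻¹ = r at hsi h1 ⊢
  have a1 : (n : ℝ) * (P - R) ≤ (n + k) * D + n * (Ca * (t * m + 2 * r * N)) + k * (Cb * m) +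
      2 * (Cs * (n + k) * m) := by linarith
  have b1 : (k : ℝ) * D ≤ n * (1 / zm) * D := mul_le_mul_of_nonneg_right hk hD
  have b2 : (k : ℝ) * (Cb * m) ≤ n * (1 / zm) * (Cb * m) :=
    mul_le_mul_of_nonneg_right hk (by positivity)
  have b3 : Cs * (n + k) * m ≤ Cs * (n + n * (1 / zm)) * m :=
    mul_le_mul_of_nonneg_right (mul_le_mul_of_nonneg_left (by linarith) hCs) hm
  have a2 : (n : ℝ) * (P - R) ≤ n * ((1 + 1 / zm) * D + Ca * (t * m + 2 * r * N) +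
      (1 / zm) * (Cb * m) + 2 * (Cs * (1 + 1 / zm) * m)) := by
    refine a1.trans ?_
    linarith
  have a3 := le_of_mul_le_mul_left a2 hn'
  refine a3.trans ?_
  generalize 1 / zm = y at *
  have hy : 0 ≤ y := by
    by_contra hcon
    have : (n : ℝ) * y < 0 := mul_neg_of_pos_of_neg hn' (not_le.1 hcon)
    have h0 : (0 : ℝ) ≤ k := Nat.cast_nonneg k
    linarith
  have ht : m ≤ t * m := le_mul_of_one_le_left hm hs4
  have htm : 0 ≤ t * m := hm.trans ht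
  have hrN : 0 ≤ r * N := mul_nonneg hsi hN
  have hAm : 0 ≤ A * m := mul_nonneg hA hm
  have c1 : 0 ≤ (1 + y) := by linarith
  have c2 : (1 + y) * D + Ca * (t * m + 2 * r * N) + y * (Cb * m) + 2 * (Cs * (1 + y) * m) ≤
      (1 + y) * D + 2 * Ca * (t * m + r * N) + Cb * y * (t * m) + 2 * Cs * (1 + y) * (t * m) := by
    have d1 : Cb * y * m ≤ Cb * y * (t * m) := mul_le_mul_of_nonneg_left ht (mul_nonneg hCb hy)
    have d2 : 2 * Cs * (1 + y) * m ≤ 2 * Cs * (1 + y) * (t * m) :=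
      mul_le_mul_of_nonneg_left ht (mul_nonneg (mul_nonneg (by norm_num) hCs) c1)
    have d3 : 0 ≤ Ca * (t * m) := mul_nonneg hCa htm
    linarith
  refine c2.trans ?_
  have hX : 0 ≤ (t + A) * m := by
    have : (t + A) * m = t * m + A * m := by ring
    linarith
  have e1 : (1 + y) * D ≤ (1 + y) * (D + (t + A) * m + r * N) :=
    mul_le_mul_of_nonneg_left (by linarith) c1
  have e2 : 2 * Ca * (t * m + r * N) ≤ 2 * Ca * (D + (t + A) * m + r * N) :=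
    mul_le_mul_of_nonneg_left (by linarith) (by positivity)
  have e3 : Cb * y * (t * m) ≤ Cb * y * (D + (t + A) * m + r * N) :=
    mul_le_mul_of_nonneg_left (by linarith) (mul_nonneg hCb hy)
  have e4 : 2 * Cs * (1 + y) * (t * m) ≤ 2 * Cs * (1 + y) * (D + (t + A) * m + r * N) :=
    mul_le_mul_of_nonneg_left (by linarith) (mul_nonneg (mul_nonneg (by norm_num) hCs) c1)
  linarith

theorem p2 (q : ℕ) (zm zp κp : ℝ) (hzm : 0 < zm) {χ : E3 → ℝ} (hχ : Bump χ) :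
    ∃ C : ℝ, 0 ≤ C ∧
    ∀ (n k : ℕ) (Λ : Set E3) (z κ : Fin k → ℝ) (_ : ∀ j, zm ≤ z j ∧ z j ≤ zp)
    (_ : ∀ j, 0 ≤ κ j ∧ κ j ≤ κp) (_ : ∑ j, z j = n) (E : ℝ)
    (_ : LB q n k Λ z κ E) (ψ : (Fin n → Fin q) → Cfg n k → ℂ)
    (_ : St q n k Λ ψ) (A : ℝ) (_ : 0 ≤ A) (W : Finset E3) (_ : Rf A Λ W ψ)
    (s : ℝ) (_ : 0 < s) (_ : s ≤ 1) (v : E3) (_ : Metric.closedBall v 2 ⊆ Λ),
    -mean ψ (fun p => uh χ s W z p v) ≤ C * ((energy z κ ψ - E * mass ψ) +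
      ((s ^ 2)⁻¹ + A) * mass ψ) := by
  obtain ⟨Ca, hCa, ha⟩ := p12_eB (q := q) hχ
  obtain ⟨Cb, hCb, hb⟩ := p12_nA (q := q) hχ κp
  obtain ⟨Cs, hCs, hst⟩ := stab q zp
  refine ⟨(1 + 1 / zm) + Ca + Cb * (1 / zm) + 2 * Cs * (1 + 1 / zm), by positivity, ?_⟩
  intro n k Λ z κ hz hκ hsum E hE ψ hψ A hA W hW s hs hs1 v hv
  have hz0 : ∀ j, 0 ≤ z j := fun j => hzm.le.trans (hz j).1
  have hD : 0 ≤ energy z κ ψ - E * mass ψ := by
    have := hE ψ hψ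
    linarith
  have hm : 0 ≤ mass ψ := mass_nonneg
  have hs4 : 1 ≤ (s ^ 2)⁻¹ := by
    rw [one_le_inv₀ (by positivity)]
    exact pow_le_one₀ hs.le hs1
  rcases Nat.eq_zero_or_pos n with hn | hn
  · rw [p12_zero hzm hz hsum hn, neg_zero]
    positivity
  have hn' : (0 : ℝ) < n := by exact_mod_cast hn
  have hk := p12_k hzm hz hsum
  have h1 := ha n k Λ z κ hz0 (fun j => (hκ j).1) E hE ψ hψ A hA W hW
  have h2 := hb n k Λ z κ hz0 hκ hsum E hE ψ hψ s hs hs1 v hv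
  have h3 := hst n k Λ z (fun j => ⟨hz0 j, (hz j).2⟩) ψ hψ
  have h4 := p12_vsum hψ z
  have h5 := p12_uh hψ hχ s hs W z v
  have hK : 0 ≤ ∑ j, κ j * kN ψ j := sum_nonneg fun j _ => mul_nonneg (hκ j).1 (kN_nonneg ψ j)
  rw [h5]
  generalize energy z κ ψ - E * mass ψ = D at hD h1 h2 ⊢
  generalize mass ψ = m at hm h1 h2 h3 ⊢
  generalize mean ψ (fun p => ph χ s z p v) = P at h2 ⊢
  generalize mean ψ (pr χ W z) = R at h1 ⊢
  generalize (s ^ 2)⁻¹ = t at hs4 h2 ⊢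
  have a1 : (n : ℝ) * (-(P - R)) ≤ (n + k) * D + n * (Ca * (1 + A) * m) + k * (Cb * (t * m)) +
      2 * (Cs * (n + k) * m) := by linarith
  have ht : m ≤ t * m := le_mul_of_one_le_left hm hs4
  have htm : 0 ≤ t * m := hm.trans ht
  have hAm : 0 ≤ A * m := mul_nonneg hA hm
  have b1 : (k : ℝ) * D ≤ n * (1 / zm) * D := mul_le_mul_of_nonneg_right hk hD
  have b2 : (k : ℝ) * (Cb * (t * m)) ≤ n * (1 / zm) * (Cb * (t * m)) :=
    mul_le_mul_of_nonneg_right hk (mul_nonneg hCb htm)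
  have b3 : Cs * (n + k) * m ≤ Cs * (n + n * (1 / zm)) * m :=
    mul_le_mul_of_nonneg_right (mul_le_mul_of_nonneg_left (by linarith) hCs) hm
  have a2 : (n : ℝ) * (-(P - R)) ≤ n * ((1 + 1 / zm) * D + Ca * (1 + A) * m +
      (1 / zm) * (Cb * (t * m)) + 2 * (Cs * (1 + 1 / zm) * m)) := by
    refine a1.trans ?_
    linarith
  have a3 := le_of_mul_le_mul_left a2 hn'
  refine a3.trans ?_
  generalize 1 / zm = y at *
  have hy : 0 ≤ y := by
    by_contra hcon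
    have : (n : ℝ) * y < 0 := mul_neg_of_pos_of_neg hn' (not_le.1 hcon)
    have h0 : (0 : ℝ) ≤ k := Nat.cast_nonneg k
    linarith
  have c1 : 0 ≤ (1 + y) := by linarith
  have hX : 0 ≤ (t + A) * m := by
    have : (t + A) * m = t * m + A * m := by ring
    linarith
  have e1 : (1 + y) * D ≤ (1 + y) * (D + (t + A) * m) :=
    mul_le_mul_of_nonneg_left (by linarith) c1
  have e2 : Ca * ((1 + A) * m) ≤ Ca * (D + (t + A) * m) :=
    mul_le_mul_of_nonneg_left (by linarith) hCa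
  have e3 : Cb * y * (t * m) ≤ Cb * y * (D + (t + A) * m) :=
    mul_le_mul_of_nonneg_left (by linarith) (mul_nonneg hCb hy)
  have e4 : 2 * Cs * (1 + y) * m ≤ 2 * Cs * (1 + y) * (D + (t + A) * m) :=
    mul_le_mul_of_nonneg_left (by linarith) (mul_nonneg (mul_nonneg (by norm_num) hCs) c1)
  linarith

/-- the total kinetic energy and the Coulomb energy -/
theorem ktot (q : ℕ) (zm zp κp : ℝ) (hzm : 0 < zm) : ∃ C : ℝ, 0 ≤ C ∧
    ∀ (n k : ℕ) (Λ : Set E3) (z κ : Fin k → ℝ) (_ : ∀ j, zm ≤ z j ∧ z j ≤ zp)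
    (_ : ∀ j, 0 ≤ κ j ∧ κ j ≤ κp) (_ : ∑ j, z j = n) (E : ℝ)
    (_ : LB q n k Λ z κ E) (ψ : (Fin n → Fin q) → Cfg n k → ℂ)
    (_ : St q n k Λ ψ) (_ : mass ψ = 1) (_ : energy z κ ψ ≤ E + 1) (A : ℝ) (_ : 0 ≤ A)
    (W : Finset E3) (_ : Rf A Λ W ψ),
    ∑ a, kE ψ a + ∑ j, κ j * kN ψ j ≤ C * (1 + A) * (n + k) := by
  obtain ⟨χ, hχ⟩ := bump_ex
  obtain ⟨Ca, hCa, ha⟩ := p12_eB (q := q) hχ
  obtain ⟨Cb, hCb, hb⟩ := p12_nB (q := q) hχ κp
  obtain ⟨Cs, hCs, hst⟩ := stabD q zp (1 / 4) (by norm_num)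
  refine ⟨2 * (1 + Ca + Cb + 2 * Cs), by positivity, ?_⟩
  intro n k Λ z κ hz hκ hsum E hE ψ hψ hmass hen A hA W hW
  have hz0 : ∀ j, 0 ≤ z j := fun j => hzm.le.trans (hz j).1
  have h1 := ha n k Λ z κ hz0 (fun j => (hκ j).1) E hE ψ hψ A hA W hW
  have h2 := hb n k Λ z κ hz0 hκ hsum E hE ψ hψ A W hW
  have h3 := hst n k Λ z (fun j => ⟨hz0 j, (hz j).2⟩) ψ hψ
  have h4 := p12_vsum hψ z
  have hD1 : energy z κ ψ - E * mass ψ ≤ 1 := by
    rw [hmass]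
    linarith
  have hKE : 0 ≤ ∑ a, kE ψ a := sum_nonneg fun a _ => kE_nonneg ψ a
  have hK : 0 ≤ ∑ j, κ j * kN ψ j := sum_nonneg fun j _ => mul_nonneg (hκ j).1 (kN_nonneg ψ j)
  have hn : (0 : ℝ) ≤ n := Nat.cast_nonneg n
  have hk : (0 : ℝ) ≤ k := Nat.cast_nonneg k
  have g1 : (n : ℝ) * (energy z κ ψ - E * mass ψ) ≤ n * 1 := mul_le_mul_of_nonneg_left hD1 hn
  have g2 : (k : ℝ) * (energy z κ ψ - E * mass ψ) ≤ k * 1 := mul_le_mul_of_nonneg_left hD1 hk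
  rw [hmass] at h1 h2 h3 g1 g2
  have a1 : ∑ a, kE ψ a + ∑ j, κ j * kN ψ j ≤
      2 * ((n + k) + n * (Ca * (1 + A)) + k * Cb + 2 * (Cs * (n + k))) := by linarith
  refine a1.trans ?_
  have hnk : (0 : ℝ) ≤ n + k := by linarith
  have e1 : (n : ℝ) + k ≤ (1 + A) * (n + k) := by
    have := mul_nonneg hA hnk
    linarith
  have e2 : (n : ℝ) * (Ca * (1 + A)) ≤ Ca * ((1 + A) * (n + k)) := by
    have := mul_nonneg hk (mul_nonneg hCa (show (0 : ℝ) ≤ 1 + A by linarith))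
    linarith
  have e3 : (k : ℝ) * Cb ≤ Cb * ((1 + A) * (n + k)) := by
    have := mul_le_mul_of_nonneg_left e1 hCb
    have := mul_nonneg hCb hn
    linarith
  have e4 : Cs * (n + k) ≤ Cs * ((1 + A) * (n + k)) := mul_le_mul_of_nonneg_left e1 hCs
  linarith

end H6.CB
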