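import Pool.Agent.H6.CB.ImsG
import Pool.Agent.H6.CB.UG
import Pool.Agent.H6.CB.UB

/-! Properties of the relative smeared potential `uh`. Smoothness from `UU_smooth`; symmetry: the sum over the electrons is reindexed; `uh_bd`: `UU_bd`, `∑ z j = n`. Gradient: with respect to particle `i` of charge `e` one has `|∇ uh|² ≤ 2 e² gr (UU χ s) (v - y_i) + 2 e² (W.card⁻¹ ∑ w, |∇ UU χ 1 (w - y_i)|)² ≤ 2 e² gr (UU χ s) (v - y_i) + 2 e² W.card⁻¹ ∑ w, gr (UU χ 1) (w - y_i)`, use `UU_grad` and sum over the particles. -/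

open MeasureTheory Finset

namespace H6.CB

open H6.CM

private theorem uf_aff (K : E3 → ℝ) (u : E3) (hK : DifferentiableAt ℝ K u) (c d : ℝ) :
    gr (fun u => c * K u + d) u = c ^ 2 * gr K u := by
  unfold gr
  rw [mul_sum]
  refine sum_congr rfl fun e _ => ?_
  have h1 : HasFDerivAt (fun u => c * K u + d) (c • fderiv ℝ K u) u :=
    (hK.hasFDerivAt.const_mul c).add_const d
  rw [h1.fderiv]
  show (c * fderiv ℝ K u (EuclideanSpace.single e 1)) ^ 2 = _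
  ring

/-- the gradient of a difference of a function and an average -/
private theorem uf_K (F G : E3 → ℝ) (hF : Differentiable ℝ F) (hG : Differentiable ℝ G) (v : E3)
    (W : Finset E3) (hW : W.Nonempty) (u : E3) :
    DifferentiableAt ℝ (fun u => F (v - u) - (W.card : ℝ)⁻¹ * ∑ w ∈ W, G (w - u)) u ∧
    gr (fun u => F (v - u) - (W.card : ℝ)⁻¹ * ∑ w ∈ W, G (w - u)) u ≤
      2 * gr F (v - u) + 2 * ((W.card : ℝ)⁻¹ * ∑ w ∈ W, gr G (w - u)) := by
  have hsub : ∀ w : E3, HasFDerivAt (fun u : E3 => w - u) (-(ContinuousLinearMap.id ℝ E3)) u :=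
    fun w => (hasFDerivAt_id u).const_sub w
  have hc : ∀ (H : E3 → ℝ) (_ : Differentiable ℝ H) (w : E3), HasFDerivAt (fun u => H (w - u))
      ((fderiv ℝ H (w - u)).comp (-(ContinuousLinearMap.id ℝ E3))) u := fun H hH w =>
    (hH (w - u)).hasFDerivAt.comp u (hsub w)
  have h1 : HasFDerivAt (fun u => F (v - u) - (W.card : ℝ)⁻¹ * ∑ w ∈ W, G (w - u))
      ((fderiv ℝ F (v - u)).comp (-(ContinuousLinearMap.id ℝ E3)) -
        (W.card : ℝ)⁻¹ • ∑ w ∈ W, (fderiv ℝ G (w - u)).comp (-(ContinuousLinearMap.id ℝ E3))) u :=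
    (hc F hF v).sub ((HasFDerivAt.fun_sum fun w _ => hc G hG w).const_mul _)
  refine ⟨h1.differentiableAt, ?_⟩
  have hcard : (0 : ℝ) < W.card := by exact_mod_cast hW.card_pos
  unfold gr
  rw [sum_comm, mul_sum, mul_sum, mul_sum, ← sum_add_distrib]
  refine sum_le_sum fun d _ => ?_
  rw [h1.fderiv]
  generalize (EuclideanSpace.single d (1 : ℝ) : E3) = e
  have h2 : ((fderiv ℝ F (v - u)).comp (-(ContinuousLinearMap.id ℝ E3)) -
        (W.card : ℝ)⁻¹ • ∑ w ∈ W, (fderiv ℝ G (w - u)).comp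
          (-(ContinuousLinearMap.id ℝ E3))) e =
      -(fderiv ℝ F (v - u) e) + (W.card : ℝ)⁻¹ * ∑ w ∈ W, fderiv ℝ G (w - u) e := by
    have h3 : ∀ L : E3 →L[ℝ] ℝ, (L.comp (-(ContinuousLinearMap.id ℝ E3))) e = -(L e) := by
      intro L
      show L (-e) = -(L e)
      exact map_neg L e
    rw [ContinuousLinearMap.sub_apply, ContinuousLinearMap.smul_apply,
      ContinuousLinearMap.sum_apply, h3, sum_congr rfl fun w _ => h3 _, sum_neg_distrib,
      smul_eq_mul]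
    ring
  rw [h2]
  have h4 : ((W.card : ℝ)⁻¹ * ∑ w ∈ W, fderiv ℝ G (w - u) e) ^ 2 ≤
      (W.card : ℝ)⁻¹ * ∑ w ∈ W, fderiv ℝ G (w - u) e ^ 2 := by
    have h5 := sq_sum_le_card_mul_sum_sq (s := W) (f := fun w => fderiv ℝ G (w - u) e)
    rw [mul_pow]
    calc ((W.card : ℝ)⁻¹) ^ 2 * (∑ w ∈ W, fderiv ℝ G (w - u) e) ^ 2
        ≤ ((W.card : ℝ)⁻¹) ^ 2 * (W.card * ∑ w ∈ W, fderiv ℝ G (w - u) e ^ 2) :=
          mul_le_mul_of_nonneg_left h5 (by positivity)
      _ = (W.card : ℝ)⁻¹ * ∑ w ∈ W, fderiv ℝ G (w - u) e ^ 2 := by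
          field_simp
  have h6 := sq_nonneg (fderiv ℝ F (v - u) e + (W.card : ℝ)⁻¹ * ∑ w ∈ W, fderiv ℝ G (w - u) e)
  nlinarith

variable {χ : E3 → ℝ} (h : Bump χ)
include h

theorem ph_smooth {n k : ℕ} (s : ℝ) (hs : 0 < s) (z : Fin k → ℝ) (v : E3) :
    ContDiff ℝ (⊤ : ℕ∞) (fun p : Cfg n k => ph χ s z p v) := by
  have hU := UU_smooth h s hs
  unfold ph
  refine ContDiff.sub (ContDiff.sum fun j _ => contDiff_const.mul (hU.comp ?_))
    (ContDiff.sum fun a _ => hU.comp ?_)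
  · exact contDiff_const.sub ((contDiff_apply ℝ E3 j).comp contDiff_snd)
  · exact contDiff_const.sub ((contDiff_apply ℝ E3 a).comp contDiff_fst)

theorem uh_smooth {n k : ℕ} (s : ℝ) (hs : 0 < s) (W : Finset E3) (z : Fin k → ℝ) (v : E3) :
    ContDiff ℝ (⊤ : ℕ∞) (fun p : Cfg n k => uh χ s W z p v) := by
  unfold uh pr
  exact (ph_smooth h s hs z v).sub
    (contDiff_const.mul (ContDiff.sum fun w _ => ph_smooth h 1 one_pos z w))

theorem uh_joint {n k : ℕ} (s : ℝ) (hs : 0 < s) (W : Finset E3) (z : Fin k → ℝ) :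
    Continuous (fun u : Cfg n k × E3 => uh χ s W z u.1 u.2) := by
  have hU := (UU_smooth h s hs).continuous
  have h1 : Continuous (fun u : Cfg n k × E3 => ph χ s z u.1 u.2) := by
    unfold ph
    refine Continuous.sub (continuous_finsetSum _ fun j _ => continuous_const.mul (hU.comp ?_))
      (continuous_finsetSum _ fun a _ => hU.comp ?_)
    · exact continuous_snd.sub ((continuous_apply j).comp (continuous_snd.comp continuous_fst))
    · exact continuous_snd.sub ((continuous_apply a).comp (continuous_fst.comp continuous_fst))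
  have h2 : Continuous (fun u : Cfg n k × E3 => pr χ W z u.1) := by
    have h3 : Continuous (fun p : Cfg n k => pr χ W z p) := by
      unfold pr
      exact continuous_const.mul (continuous_finsetSum _ fun w _ =>
        (ph_smooth h 1 one_pos z w).continuous)
    exact h3.comp continuous_fst
  exact h1.sub h2

omit h in
theorem uh_sy {n k : ℕ} (s : ℝ) (W : Finset E3) (z : Fin k → ℝ) (v : E3) :
    Sy (fun p : Cfg n k => uh χ s W z p v) := by
  intro π p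
  have h1 : ∀ (t : ℝ) (w : E3), ph χ t z ((p.1 ∘ π, p.2) : Cfg n k) w = ph χ t z p w := by
    intro t w
    unfold ph
    congr 1
    exact Equiv.sum_comp π (fun a => UU χ t (w - p.1 a))
  show uh χ s W z ((p.1 ∘ π, p.2) : Cfg n k) v = uh χ s W z p v
  unfold uh pr
  rw [h1, sum_congr rfl fun w _ => h1 1 w]

theorem uh_bd : ∃ C : ℝ, 0 ≤ C ∧ ∀ (n k : ℕ) (z : Fin k → ℝ) (_ : ∀ j, 0 ≤ z j)
    (_ : ∑ j, z j = n) (W : Finset E3) (s : ℝ) (_ : 0 < s) (_ : s ≤ 1) (p : Cfg n k) (v : E3),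
    |uh χ s W z p v| ≤ C * n * s⁻¹ := by
  obtain ⟨C, hC, hb⟩ := UU_bd h
  refine ⟨4 * C, by positivity, ?_⟩
  intro n k z hz hzn W s hs hs1 p v
  have h1 : ∀ (t : ℝ) (_ : 0 < t) (w : E3), |ph χ t z p w| ≤ 2 * n * (C * t⁻¹) := by
    intro t ht w
    have hp : ∀ y, 0 ≤ UU χ t y ∧ UU χ t y ≤ C * t⁻¹ := fun y => ⟨UU_nonneg h t ht y, hb t ht y⟩
    have e1 : 0 ≤ ∑ j, z j * UU χ t (w - p.2 j) :=
      sum_nonneg fun j _ => mul_nonneg (hz j) (hp _).1
    have e2 : ∑ j, z j * UU χ t (w - p.2 j) ≤ n * (C * t⁻¹) := by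
      rw [← hzn, sum_mul]
      exact sum_le_sum fun j _ => mul_le_mul_of_nonneg_left (hp _).2 (hz j)
    have e3 : 0 ≤ ∑ a, UU χ t (w - p.1 a) := sum_nonneg fun a _ => (hp _).1
    have e4 : ∑ a, UU χ t (w - p.1 a) ≤ n * (C * t⁻¹) := by
      refine (sum_le_card_nsmul univ _ (C * t⁻¹) fun a _ => (hp _).2).trans_eq ?_
      rw [card_univ, Fintype.card_fin, nsmul_eq_mul]
    unfold ph
    rw [abs_le]
    constructor <;> linarith
  have h2 : |pr χ W z p| ≤ 2 * n * C := by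
    unfold pr
    rw [abs_mul, abs_of_nonneg (by positivity)]
    have h3 : |∑ w ∈ W, ph χ 1 z p w| ≤ W.card * (2 * n * C) := by
      refine (abs_sum_le_sum_abs _ _).trans ((sum_le_card_nsmul W _ (2 * n * C) fun w _ => ?_).trans_eq
        (nsmul_eq_mul _ _))
      have := h1 1 one_pos w
      rwa [inv_one, mul_one] at this
    rcases W.eq_empty_or_nonempty with hW | hW
    · subst hW
      simp
      positivity
    · have hc : (0 : ℝ) < W.card := by exact_mod_cast hW.card_pos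
      rw [inv_mul_le_iff₀ hc]
      exact h3
  have h3 := h1 s hs v
  have hs' : 1 ≤ s⁻¹ := (one_le_inv₀ hs).2 hs1
  have h4 : 2 * n * C ≤ 2 * n * C * s⁻¹ := le_mul_of_one_le_right (by positivity) hs'
  unfold uh
  have h5 := abs_sub (ph χ s z p v) (pr χ W z p)
  calc |ph χ s z p v - pr χ W z p| ≤ |ph χ s z p v| + |pr χ W z p| := h5
    _ ≤ 2 * n * (C * s⁻¹) + 2 * n * C * s⁻¹ := add_le_add h3 (h2.trans h4)
    _ = 4 * C * n * s⁻¹ := by ring

omit h in
private theorem uf_ph_E {n k : ℕ} (t : ℝ) (z : Fin k → ℝ) (p : Cfg n k) (a : Fin n) (u w : E3) :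
    ph χ t z ((Function.update p.1 a u, p.2) : Cfg n k) w = -(UU χ t (w - u)) +
      (∑ j, z j * UU χ t (w - p.2 j) - ∑ b ∈ univ.erase a, UU χ t (w - p.1 b)) := by
  unfold ph
  show ∑ j, z j * UU χ t (w - p.2 j) - ∑ b, UU χ t (w - Function.update p.1 a u b) = _
  have h1 : ∑ b, UU χ t (w - Function.update p.1 a u b) =
      UU χ t (w - u) + ∑ b ∈ univ.erase a, UU χ t (w - p.1 b) := by
    rw [← add_sum_erase univ _ (mem_univ a), Function.update_self]
    congr 1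
    exact sum_congr rfl fun b hb => by rw [Function.update_of_ne (ne_of_mem_erase hb)]
  rw [h1]
  ring

omit h in
private theorem uf_ph_N {n k : ℕ} (t : ℝ) (z : Fin k → ℝ) (p : Cfg n k) (j : Fin k) (u w : E3) :
    ph χ t z ((p.1, Function.update p.2 j u) : Cfg n k) w = z j * UU χ t (w - u) +
      (∑ l ∈ univ.erase j, z l * UU χ t (w - p.2 l) - ∑ a, UU χ t (w - p.1 a)) := by
  unfold ph
  show ∑ l, z l * UU χ t (w - Function.update p.2 j u l) - ∑ a, UU χ t (w - p.1 a) = _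
  have h1 : ∑ l, z l * UU χ t (w - Function.update p.2 j u l) =
      z j * UU χ t (w - u) + ∑ l ∈ univ.erase j, z l * UU χ t (w - p.2 l) := by
    rw [← add_sum_erase univ _ (mem_univ j), Function.update_self]
    congr 1
    exact sum_congr rfl fun b hb => by rw [Function.update_of_ne (ne_of_mem_erase hb)]
  rw [h1]
  ring

theorem gm_uh (zp κp : ℝ) : ∃ C : ℝ, 0 ≤ C ∧ ∀ (n k : ℕ) (z κ : Fin k → ℝ)
    (_ : ∀ j, 0 ≤ z j ∧ z j ≤ zp) (_ : ∀ j, 0 ≤ κ j ∧ κ j ≤ κp) (W : Finset E3)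
    (_ : W.Nonempty) (s : ℝ) (_ : 0 < s) (_ : s ≤ 1) (v : E3) (A : ℝ) (p : Cfg n k)
    (_ : ∑ w ∈ W, q4 1 p w ≤ A * W.card),
    Gm κ (fun p => uh χ s W z p v) p ≤ C * (q4 s p v + A) := by
  obtain ⟨C0, hC0, hg⟩ := UU_grad h
  refine ⟨2 * C0 * (1 + |κp| * zp ^ 2), by positivity, ?_⟩
  intro n k z κ hz hκ W hW s hs hs1 v A p hA
  have hcard : (0 : ℝ) < W.card := by exact_mod_cast hW.card_pos
  obtain ⟨K, hKd⟩ : ∃ K : E3 → ℝ, K = fun u => UU χ s (v - u) -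
    (W.card : ℝ)⁻¹ * ∑ w ∈ W, UU χ 1 (w - u) := ⟨_, rfl⟩
  have hK := fun u => uf_K (UU χ s) (UU χ 1) ((UU_smooth h s hs).differentiable (by simp))
    ((UU_smooth h 1 one_pos).differentiable (by simp)) v W hW u
  rw [← hKd] at hK
  obtain ⟨R, hR⟩ : ∃ R : E3 → ℝ, R = fun y => 2 * C0 * ((max s ‖y - v‖ ^ 4)⁻¹ +
    (W.card : ℝ)⁻¹ * ∑ w ∈ W, (max 1 ‖y - w‖ ^ 4)⁻¹) := ⟨_, rfl⟩
  have hKR : ∀ y, gr K y ≤ R y := by
    intro y
    refine (hK y).2.trans ?_
    have e1 := hg s hs (v - y)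
    have e2 : ∑ w ∈ W, gr (UU χ 1) (w - y) ≤ ∑ w ∈ W, C0 * (max 1 ‖w - y‖ ^ 4)⁻¹ :=
      sum_le_sum fun w _ => hg 1 one_pos (w - y)
    rw [← mul_sum] at e2
    have e3 := mul_le_mul_of_nonneg_left e2 (inv_nonneg.2 hcard.le)
    rw [norm_sub_rev] at e1
    have e4 : ∑ w ∈ W, (max 1 ‖w - y‖ ^ 4)⁻¹ = ∑ w ∈ W, (max 1 ‖y - w‖ ^ 4)⁻¹ :=
      sum_congr rfl fun w _ => by rw [norm_sub_rev]
    rw [e4] at e3
    rw [hR]
    simp only
    linarith
  have hR0 : ∀ y, 0 ≤ R y := fun y => (gr_nonneg _ _).trans (hKR y)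
  have hE : ∀ a, gr (fun u => uh χ s W z ((Function.update p.1 a u, p.2) : Cfg n k) v) (p.1 a) ≤
      R (p.1 a) := by
    intro a
    obtain ⟨c, hc⟩ : ∃ c, ∀ u, uh χ s W z ((Function.update p.1 a u, p.2) : Cfg n k) v =
        (-1) * K u + c := by
      refine ⟨(∑ j, z j * UU χ s (v - p.2 j) - ∑ b ∈ univ.erase a, UU χ s (v - p.1 b)) -
        (W.card : ℝ)⁻¹ * ∑ w ∈ W, (∑ j, z j * UU χ 1 (w - p.2 j) -
          ∑ b ∈ univ.erase a, UU χ 1 (w - p.1 b)), fun u => ?_⟩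
      unfold uh pr
      rw [uf_ph_E, sum_congr rfl fun w _ => uf_ph_E 1 z p a u w, sum_add_distrib,
        sum_neg_distrib, hKd]
      ring
    have e1 : (fun u => uh χ s W z ((Function.update p.1 a u, p.2) : Cfg n k) v) =
        fun u => (-1) * K u + c := funext hc
    rw [e1, uf_aff K _ (hK _).1]
    linarith [hKR (p.1 a)]
  have hN : ∀ j, gr (fun u => uh χ s W z ((p.1, Function.update p.2 j u) : Cfg n k) v) (p.2 j) ≤
      zp ^ 2 * R (p.2 j) := by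
    intro j
    obtain ⟨c, hc⟩ : ∃ c, ∀ u, uh χ s W z ((p.1, Function.update p.2 j u) : Cfg n k) v =
        z j * K u + c := by
      refine ⟨(∑ l ∈ univ.erase j, z l * UU χ s (v - p.2 l) - ∑ a, UU χ s (v - p.1 a)) -
        (W.card : ℝ)⁻¹ * ∑ w ∈ W, (∑ l ∈ univ.erase j, z l * UU χ 1 (w - p.2 l) -
          ∑ a, UU χ 1 (w - p.1 a)), fun u => ?_⟩
      unfold uh pr
      rw [uf_ph_N, sum_congr rfl fun w _ => uf_ph_N 1 z p j u w, sum_add_distrib,
        ← mul_sum, hKd]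
      ring
    have e1 : (fun u => uh χ s W z ((p.1, Function.update p.2 j u) : Cfg n k) v) =
        fun u => z j * K u + c := funext hc
    rw [e1, uf_aff K _ (hK _).1]
    have e2 : z j ^ 2 ≤ zp ^ 2 := pow_le_pow_left₀ (hz j).1 (hz j).2 2
    exact mul_le_mul e2 (hKR _) (gr_nonneg _ _) (sq_nonneg _)
  have hsumR : ∑ a, R (p.1 a) + ∑ j, R (p.2 j) =
      2 * C0 * (q4 s p v + (W.card : ℝ)⁻¹ * ∑ w ∈ W, q4 1 p w) := by
    rw [hR]
    unfold q4
    simp only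
    rw [← mul_sum, ← mul_sum, sum_add_distrib, sum_add_distrib, ← mul_sum, ← mul_sum,
      sum_add_distrib, sum_comm, sum_comm (s := (univ : Finset (Fin k)))]
    ring
  have hD : (1 : ℝ) ≤ 1 + |κp| * zp ^ 2 := by
    have : 0 ≤ |κp| * zp ^ 2 := by positivity
    linarith
  have h1 : Gm κ (fun p => uh χ s W z p v) p ≤
      (1 + |κp| * zp ^ 2) * (∑ a, R (p.1 a) + ∑ j, R (p.2 j)) := by
    unfold Gm
    rw [mul_add, mul_sum, mul_sum]
    refine add_le_add (sum_le_sum fun a _ => ?_) (sum_le_sum fun j _ => ?_)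
    · exact (hE a).trans (le_mul_of_one_le_left (hR0 _) hD)
    · have e1 := mul_le_mul_of_nonneg_left (hN j) (hκ j).1
      refine e1.trans ?_
      have e2 : κ j ≤ |κp| := (hκ j).2.trans (le_abs_self _)
      have e3 : κ j * (zp ^ 2 * R (p.2 j)) ≤ |κp| * (zp ^ 2 * R (p.2 j)) :=
        mul_le_mul_of_nonneg_right e2 (mul_nonneg (sq_nonneg _) (hR0 _))
      have e4 := hR0 (p.2 j)
      nlinarith
  rw [hsumR] at h1
  refine h1.trans ?_
  have h2 : (W.card : ℝ)⁻¹ * ∑ w ∈ W, q4 1 p w ≤ A := by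
    rw [inv_mul_le_iff₀ hcard, mul_comm]
    exact hA
  calc (1 + |κp| * zp ^ 2) * (2 * C0 * (q4 s p v + (W.card : ℝ)⁻¹ * ∑ w ∈ W, q4 1 p w))
      ≤ (1 + |κp| * zp ^ 2) * (2 * C0 * (q4 s p v + A)) := by gcongr
    _ = 2 * C0 * (1 + |κp| * zp ^ 2) * (q4 s p v + A) := by ring

end H6.CB
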