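import Pool.Agent.H6.CB.FDefs
import Pool.Agent.H6.CB.P12
import Pool.Agent.H6.CB.MmF
import Pool.Agent.H6.CB.UhF

/-! The starting bounds. `TE ψ x 1 + TN ψ x 1 ≤ ∑ kE + ∑ kN ≤ C (n + k)` by `ktot` (`κm * ∑ kN ≤ ∑ κ j * kN`; the energy is at most `E + 1`). `ce ≤ n`, so the moment is at most `n ^ (5/3) ≤ (n + k + 1) ^ 4`. `WW`: `|uh| ≤ C n (sc l)⁻¹` (`uh_bd`) and where `Gs θ x l ≠ 0` one has `l = 0` or `64 ^ (l-1) < mm ≤ ce p x 64 ≤ n` (`gl_lo`, `mm_hi`, `ce_le`), so `(sc l ^ 2)⁻¹ = 64 * 4 ^ l ≤ C (n + 1)`; hence `∑ l, Gs ^ 2 * uh ^ 2 ≤ 3 C n ^ 2 (n + 1)` (`Gs_sum_le`). -/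

open MeasureTheory Finset

namespace H6.CB

open H6.CM

private theorem fi_TE {q n k : ℕ} {Λ : Set E3} {ψ : (Fin n → Fin q) → Cfg n k → ℂ}
    (hψ : Sm q n k Λ ψ) (x : E3) (r : ℝ) : TE ψ x r ≤ ∑ a, kE ψ a := by
  refine sum_le_sum fun a _ => sum_le_sum fun σ _ => ?_
  refine integral_mono_of_nonneg (Filter.Eventually.of_forall fun p => ?_) (kE_int hψ σ a)
    (Filter.Eventually.of_forall fun p => ?_)
  · simp only [Pi.zero_apply]
    split_ifs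
    · exact ge_nonneg _ _ _
    · exact le_rfl
  · simp only
    split_ifs
    · exact le_rfl
    · exact ge_nonneg _ _ _

private theorem fi_TN {q n k : ℕ} {Λ : Set E3} {ψ : (Fin n → Fin q) → Cfg n k → ℂ}
    (hψ : Sm q n k Λ ψ) (x : E3) (r : ℝ) : TN ψ x r ≤ ∑ j, kN ψ j := by
  refine sum_le_sum fun a _ => sum_le_sum fun σ _ => ?_
  refine integral_mono_of_nonneg (Filter.Eventually.of_forall fun p => ?_) (kN_int hψ σ a)
    (Filter.Eventually.of_forall fun p => ?_)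
  · simp only [Pi.zero_apply]
    split_ifs
    · exact gn_nonneg _ _ _
    · exact le_rfl
  · simp only
    split_ifs
    · exact le_rfl
    · exact gn_nonneg _ _ _

/-- the scales of the sectors which do not vanish -/
private theorem fi_sc {n k : ℕ} {θ : E3 → ℝ} (hθ : Cut θ) (x : E3) (l : ℕ) (p : Cfg n k)
    (h : Gs θ x l p ≠ 0) : (sc l ^ 2)⁻¹ ≤ 256 * ((n : ℝ) + 1) := by
  have hn : (0 : ℝ) ≤ n := Nat.cast_nonneg n
  unfold sc
  rw [inv_pow, inv_inv]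
  cases l with
  | zero => norm_num; linarith
  | succ l =>
    have h1 : (64 : ℝ) ^ l < mm θ x p := gl_lo l _ h
    have h2 : mm θ x p ≤ n := (mm_hi hθ x p).trans (ce_le p x 64)
    have h3 : ((2 : ℝ) ^ (l + 1 + 3)) ^ 2 = 256 * 4 ^ l := by
      rw [← pow_mul, show (l + 1 + 3) * 2 = 2 * l + 8 by ring, pow_add, pow_mul]
      norm_num
      ring
    have h4 : (4 : ℝ) ^ l ≤ 64 ^ l := pow_le_pow_left₀ (by norm_num) (by norm_num) l
    rw [h3]
    linarith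

theorem finit (q : ℕ) (zm zp κm κp A : ℝ) (hzm : 0 < zm) (hκm : 0 < κm) (hA : 0 ≤ A)
    {χ θ : E3 → ℝ} (hχ : Bump χ) (hθ : Cut θ) : ∃ C : ℝ, 0 ≤ C ∧
    ∀ (n k : ℕ) (Λ : Set E3) (z κ : Fin k → ℝ) (W : Finset E3) (E : ℝ)
    (ψ : (Fin n → Fin q) → Cfg n k → ℂ) (_ : Gd q zm zp κm κp A n k Λ z κ W E ψ) (x : E3),
    Lc χ θ W z ψ x (C * ((n : ℝ) + k + 1) ^ 4) := by
  obtain ⟨Ck, hCk, hk⟩ := ktot q zm zp κp hzm
  obtain ⟨Cu, hCu, hu⟩ := uh_bd hχ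
  obtain ⟨V0, hV0⟩ : ∃ V0 : ℝ, V0 = (volume (Metric.ball (0 : E3) 12)).toReal := ⟨_, rfl⟩
  have hV0n : 0 ≤ V0 := by rw [hV0]; exact ENNReal.toReal_nonneg
  refine ⟨(1 + κm⁻¹) * (Ck * (1 + A)) + V0 * (768 * Cu ^ 2) + 1, by positivity, ?_⟩
  intro n k Λ z κ W E ψ hG x
  have hψ : Sm q n k Λ ψ := St_sm hG.st
  have hn : (0 : ℝ) ≤ n := Nat.cast_nonneg n
  have hk0 : (0 : ℝ) ≤ k := Nat.cast_nonneg k
  obtain ⟨N1, hN1⟩ : ∃ N1 : ℝ, N1 = (n : ℝ) + k + 1 := ⟨_, rfl⟩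
  have hN : 1 ≤ N1 := by rw [hN1]; linarith
  have hN4 : 1 ≤ N1 ^ 4 := one_le_pow₀ hN
  have hNN4 : N1 ≤ N1 ^ 4 := le_self_pow₀ hN (by norm_num)
  rw [← hN1]
  have hP1 : 0 ≤ (1 + κm⁻¹) * (Ck * (1 + A)) * N1 ^ 4 := by positivity
  have hP2 : 0 ≤ V0 * (768 * Cu ^ 2) * N1 ^ 4 := by positivity
  have hone : IM ψ (fun _ => (1 : ℝ)) := IM.cont hψ continuous_const
  refine ⟨?_, ?_, ?_⟩
  · have hen : energy z κ ψ ≤ E + 1 := by
      refine hG.en.trans ?_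
      rw [← hN1]
      have : (N1 ^ 4)⁻¹ ≤ 1 := inv_le_one_of_one_le₀ hN4
      linarith
    have h1 := hk n k Λ z κ hG.hz (fun j => ⟨hκm.le.trans (hG.hκ j).1, (hG.hκ j).2⟩) hG.neu E
      hG.lb ψ hG.st hG.one hen A hA W hG.rf
    have h2 : κm * ∑ j, kN ψ j ≤ ∑ j, κ j * kN ψ j := by
      rw [mul_sum]
      exact sum_le_sum fun j _ => mul_le_mul_of_nonneg_right (hG.hκ j).1 (kN_nonneg ψ j)
    have h3 : 0 ≤ ∑ a, kE ψ a := sum_nonneg fun a _ => kE_nonneg ψ a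
    have h4 : 0 ≤ ∑ j, kN ψ j := sum_nonneg fun j _ => kN_nonneg ψ j
    have h5 : ∑ a, kE ψ a ≤ Ck * (1 + A) * (n + k) := by
      have : 0 ≤ κm * ∑ j, kN ψ j := by positivity
      linarith
    have h6 : ∑ j, kN ψ j ≤ κm⁻¹ * (Ck * (1 + A) * (n + k)) := by
      rw [le_inv_mul_iff₀ hκm]
      linarith
    have h7 : Ck * (1 + A) * ((n : ℝ) + k) ≤ Ck * (1 + A) * N1 ^ 4 := by
      refine mul_le_mul_of_nonneg_left ?_ (by positivity)
      linarith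
    have h8 : κm⁻¹ * (Ck * (1 + A) * ((n : ℝ) + k)) ≤ κm⁻¹ * (Ck * (1 + A) * N1 ^ 4) :=
      mul_le_mul_of_nonneg_left h7 (by positivity)
    have h9 := fi_TE hψ x 1
    have h10 := fi_TN hψ x 1
    have e : ((1 + κm⁻¹) * (Ck * (1 + A)) + V0 * (768 * Cu ^ 2) + 1) * N1 ^ 4 =
        Ck * (1 + A) * N1 ^ 4 + κm⁻¹ * (Ck * (1 + A) * N1 ^ 4) +
          V0 * (768 * Cu ^ 2) * N1 ^ 4 + N1 ^ 4 := by ring
    rw [e]
    linarith
  · obtain ⟨M, hM⟩ : ∃ M : ℝ, M = 256 * Cu ^ 2 * ((n : ℝ) ^ 2 * (n + 1)) := ⟨_, rfl⟩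
    have hM0 : 0 ≤ M := by rw [hM]; positivity
    have hGI : ∀ l, IM ψ (fun p => Gs θ x l p) := fun l =>
      IM.cont hψ (Gs_smooth hθ x l).continuous
    have hpt : ∀ (l : ℕ) (p : Cfg n k) (v : E3),
        Gs θ x l p ^ 2 * uh χ (sc l) W z p v ^ 2 ≤ M * Gs θ x l p := by
      intro l p v
      by_cases h0 : Gs θ x l p = 0
      · rw [h0]
        simp
      · have hsc : 0 < sc l := by unfold sc; positivity
        have hsc1 : sc l ≤ 1 := by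
          unfold sc
          exact inv_le_one_of_one_le₀ (one_le_pow₀ (by norm_num))
        have h1 := hu n k z (fun j => hzm.le.trans (hG.hz j).1) hG.neu W (sc l) hsc hsc1 p v
        have h2 := fi_sc hθ x l p h0
        have h3 : uh χ (sc l) W z p v ^ 2 ≤ Cu ^ 2 * (n : ℝ) ^ 2 * (sc l ^ 2)⁻¹ := by
          calc uh χ (sc l) W z p v ^ 2 = |uh χ (sc l) W z p v| ^ 2 := (sq_abs _).symm
            _ ≤ (Cu * n * (sc l)⁻¹) ^ 2 := pow_le_pow_left₀ (abs_nonneg _) h1 2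
            _ = Cu ^ 2 * (n : ℝ) ^ 2 * (sc l ^ 2)⁻¹ := by rw [mul_pow, mul_pow, inv_pow]
        have h4 : uh χ (sc l) W z p v ^ 2 ≤ M := by
          refine h3.trans ?_
          rw [hM]
          calc Cu ^ 2 * (n : ℝ) ^ 2 * (sc l ^ 2)⁻¹ ≤ Cu ^ 2 * (n : ℝ) ^ 2 * (256 * (n + 1)) :=
                mul_le_mul_of_nonneg_left h2 (by positivity)
            _ = _ := by ring
        obtain ⟨h5, h6⟩ := Gs_mem (θ := θ) x l p
        calc Gs θ x l p ^ 2 * uh χ (sc l) W z p v ^ 2 ≤ Gs θ x l p * M := by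
              refine mul_le_mul ?_ h4 (sq_nonneg _) h5
              rw [sq]
              exact mul_le_of_le_one_left h5 h6
          _ = M * Gs θ x l p := mul_comm _ _
    have hterm : ∀ l, ∫ v in Metric.ball x 12,
        mean ψ (fun p => Gs θ x l p ^ 2 * uh χ (sc l) W z p v ^ 2) ≤
        V0 * (M * mean ψ (fun p => Gs θ x l p)) := by
      intro l
      have h1 : ∀ v, mean ψ (fun p => Gs θ x l p ^ 2 * uh χ (sc l) W z p v ^ 2) ≤
          M * mean ψ (fun p => Gs θ x l p) := by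
        intro v
        rw [← mean_cmul]
        exact mean_mono0 (fun p => mul_nonneg (sq_nonneg _) (sq_nonneg _)) ((hGI l).cmul M)
          fun σ p _ => hpt l p v
      have h2 : ∫ v in Metric.ball x 12,
          mean ψ (fun p => Gs θ x l p ^ 2 * uh χ (sc l) W z p v ^ 2) ≤
          ∫ _v in Metric.ball x 12, M * mean ψ (fun p => Gs θ x l p) := by
        refine integral_mono_of_nonneg (Filter.Eventually.of_forall fun v => ?_)
          (integrableOn_const (hs := measure_ball_lt_top.ne)) (Filter.Eventually.of_forall h1)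
        exact mean_nonneg fun σ p _ => mul_nonneg (sq_nonneg _) (sq_nonneg _)
      rw [setIntegral_const, smul_eq_mul, Measure.real, Measure.addHaar_ball_center, ← hV0] at h2
      exact h2
    have h3 : WW χ θ W z ψ x ≤ V0 * (M * 3) := by
      unfold WW
      refine (sum_le_sum fun l _ => hterm l).trans ?_
      rw [← mul_sum, ← mul_sum]
      refine mul_le_mul_of_nonneg_left (mul_le_mul_of_nonneg_left ?_ hM0) hV0n
      rw [← mean_sum _ fun l _ => hGI l]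
      calc mean ψ (fun p => ∑ l ∈ range (n + 1), Gs θ x l p) ≤ mean ψ (fun _ => (3 : ℝ)) := by
            refine mean_mono (IM.sum _ fun l _ => hGI l) (IM.cont hψ continuous_const)
              fun σ p _ => Gs_sum_le x p n
        _ = 3 := by rw [mean_const, hG.one, mul_one]
    have h4 : (n : ℝ) ^ 2 * (n + 1) ≤ N1 ^ 4 := by
      have h5 : (n : ℝ) ≤ N1 := by rw [hN1]; linarith
      have h6 : (n : ℝ) + 1 ≤ N1 := by rw [hN1]; linarith
      calc (n : ℝ) ^ 2 * (n + 1) ≤ N1 ^ 2 * N1 :=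
            mul_le_mul (pow_le_pow_left₀ hn h5 2) h6 (by linarith) (by positivity)
        _ = N1 ^ 3 := by ring
        _ ≤ N1 ^ 4 := pow_le_pow_right₀ hN (by norm_num)
    have h5 : V0 * (M * 3) ≤ V0 * (768 * Cu ^ 2) * N1 ^ 4 := by
      rw [hM]
      calc V0 * (256 * Cu ^ 2 * ((n : ℝ) ^ 2 * (n + 1)) * 3) =
            V0 * (768 * Cu ^ 2) * ((n : ℝ) ^ 2 * (n + 1)) := by ring
        _ ≤ _ := mul_le_mul_of_nonneg_left h4 (by positivity)
    have e : ((1 + κm⁻¹) * (Ck * (1 + A)) + V0 * (768 * Cu ^ 2) + 1) * N1 ^ 4 =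
        (1 + κm⁻¹) * (Ck * (1 + A)) * N1 ^ 4 + V0 * (768 * Cu ^ 2) * N1 ^ 4 + N1 ^ 4 := by ring
    rw [e]
    linarith
  · have h1 : mean ψ (fun p => ce p x 1 ^ (5 / 3 : ℝ)) ≤ mean ψ (fun _ => N1 ^ 4 * 1) := by
      refine mean_mono0 (fun p => Real.rpow_nonneg (ce_nonneg p x 1) _) (hone.cmul _)
        fun σ p _ => ?_
      have h2 : ce p x 1 ≤ N1 := (ce_le p x 1).trans (by rw [hN1]; linarith)
      calc ce p x 1 ^ (5 / 3 : ℝ) ≤ N1 ^ (5 / 3 : ℝ) :=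
            Real.rpow_le_rpow (ce_nonneg p x 1) h2 (by norm_num)
        _ ≤ N1 ^ (4 : ℝ) := Real.rpow_le_rpow_of_exponent_le hN (by norm_num)
        _ = N1 ^ 4 * 1 := by
            rw [mul_one, ← Real.rpow_natCast]
            norm_num
    rw [mean_cmul, mean_one, hG.one, mul_one] at h1
    have e : ((1 + κm⁻¹) * (Ck * (1 + A)) + V0 * (768 * Cu ^ 2) + 1) * N1 ^ 4 =
        (1 + κm⁻¹) * (Ck * (1 + A)) * N1 ^ 4 + V0 * (768 * Cu ^ 2) * N1 ^ 4 + N1 ^ 4 := by ring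
    rw [e]
    linarith

end H6.CB
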