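import Pool.Agent.H6.CB.FAll
import Pool.Agent.H6.CB.FInit

/-! Iteration of the bootstrap. Let `N1 = n + k + 1`, `D0 = 128 * N1 ^ (1/4)`, `η = ((8 : ℝ) ^ 80)⁻¹`, `C1` the constant of `fstep`, `B0 = C0 * N1 ^ 4` (`finit`). By induction on `j`: if the closed ball of radius `8 ^ j * D0` around `x` lies in `Λ` then `Lc x (η ^ j * B0 + 4 * C1)` (`fstep` with `D = 8 ^ j * D0`; `(n + k) * (D ^ 4)⁻¹ ≤ 1`). Choose `j` with `N1 ^ (1/20) ≤ 8 ^ j ≤ 8 * N1 ^ (1/20)`: then `η ^ j = ((8 ^ j) ^ 80)⁻¹ ≤ (N1 ^ 4)⁻¹` and `8 ^ j * D0 ≤ 1024 * N1 ^ (3/10)`. -/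

open MeasureTheory Finset

namespace H6.CB

open H6.CM

private theorem fit_mono {q n k : ℕ} {χ θ : E3 → ℝ} {W : Finset E3} {z : Fin k → ℝ}
    {ψ : (Fin n → Fin q) → Cfg n k → ℂ} {y : E3} {B B' : ℝ} (h : Lc χ θ W z ψ y B)
    (hB : B ≤ B') : Lc χ θ W z ψ y B' :=
  ⟨h.kin.trans hB, h.pot.trans hB, h.cnt.trans hB⟩

/-- choice of the number of steps -/
private theorem fit_pow {y : ℝ} (hy : 1 ≤ y) : ∃ j : ℕ, y ≤ (8 : ℝ) ^ j ∧ (8 : ℝ) ^ j ≤ 8 * y := by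
  classical
  have hex : ∃ j : ℕ, y ≤ (8 : ℝ) ^ j := by
    obtain ⟨j, hj⟩ := pow_unbounded_of_one_lt y (show (1 : ℝ) < 8 by norm_num)
    exact ⟨j, hj.le⟩
  refine ⟨Nat.find hex, Nat.find_spec hex, ?_⟩
  rcases Nat.eq_zero_or_pos (Nat.find hex) with h0 | h0
  · rw [h0, pow_zero]
    linarith
  · obtain ⟨i, hi⟩ : ∃ i, Nat.find hex = i + 1 := ⟨Nat.find hex - 1, by omega⟩
    have h1 : ¬ y ≤ (8 : ℝ) ^ i := Nat.find_min hex (by omega)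
    rw [hi, pow_succ]
    push Not at h1
    linarith

theorem fiter (q : ℕ) (zm zp κm κp A : ℝ) (hzm : 0 < zm) (hκm : 0 < κm) (hA : 0 ≤ A)
    {χ θ : E3 → ℝ} (hχ : Bump χ) (hθ : Cut θ) : ∃ C : ℝ, 0 ≤ C ∧
    ∀ (n k : ℕ) (Λ : Set E3) (z κ : Fin k → ℝ) (W : Finset E3) (E : ℝ)
    (ψ : (Fin n → Fin q) → Cfg n k → ℂ) (_ : Gd q zm zp κm κp A n k Λ z κ W E ψ) (x : E3)
    (_ : Metric.closedBall x (1024 * ((n : ℝ) + k + 1) ^ (3 / 10 : ℝ)) ⊆ Λ),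
    Lc χ θ W z ψ x C := by
  obtain ⟨η, hη⟩ : ∃ η : ℝ, η = ((8 : ℝ) ^ 80)⁻¹ := ⟨_, rfl⟩
  have hη0 : 0 < η := by rw [hη]; positivity
  have hη1 : 4 * η ≤ 2 := by
    rw [hη]
    norm_num
  obtain ⟨C1, hC1, H1⟩ := fstep q zm zp κm κp A hzm hκm hA hχ hθ η hη0
  obtain ⟨C0, hC0, H0⟩ := finit q zm zp κm κp A hzm hκm hA hχ hθ
  refine ⟨C0 + 4 * C1, by positivity, ?_⟩
  intro n k Λ z κ W E ψ hG x hx
  obtain ⟨N1, hN1⟩ : ∃ N1 : ℝ, N1 = (n : ℝ) + k + 1 := ⟨_, rfl⟩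
  rw [← hN1] at hx
  have hnk : (0 : ℝ) ≤ (n : ℝ) + k := by positivity
  have hN : 1 ≤ N1 := by rw [hN1]; linarith
  have hN0 : 0 < N1 := zero_lt_one.trans_le hN
  obtain ⟨D0, hD0⟩ : ∃ D0 : ℝ, D0 = 128 * N1 ^ (1 / 4 : ℝ) := ⟨_, rfl⟩
  have hr1 : 1 ≤ N1 ^ (1 / 4 : ℝ) := Real.one_le_rpow hN (by norm_num)
  have hD128 : 128 ≤ D0 := by rw [hD0]; linarith
  have hD4 : N1 ≤ D0 ^ 4 := by
    have h1 : (N1 ^ (1 / 4 : ℝ)) ^ 4 = N1 := by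
      rw [← Real.rpow_natCast, ← Real.rpow_mul hN0.le]
      norm_num
    rw [hD0, mul_pow, h1]
    nlinarith
  have hind : ∀ j : ℕ, ∀ y, Metric.closedBall y ((8 : ℝ) ^ j * D0) ⊆ Λ →
      Lc χ θ W z ψ y (η ^ j * (C0 * N1 ^ 4) + 4 * C1) := by
    intro j
    induction j with
    | zero =>
      intro y _
      refine fit_mono (H0 n k Λ z κ W E ψ hG y) ?_
      rw [← hN1, pow_zero, one_mul]
      linarith
    | succ j ih =>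
      intro y hy
      have h8 : (1 : ℝ) ≤ 8 ^ j := one_le_pow₀ (by norm_num)
      have hDle : D0 ≤ 8 ^ j * D0 := by nlinarith
      have h2 : Metric.closedBall y (8 * (8 ^ j * D0)) ⊆ Λ := by
        have e : (8 : ℝ) * (8 ^ j * D0) = 8 ^ (j + 1) * D0 := by ring
        rw [e]
        exact hy
      refine fit_mono (H1 n k Λ z κ W E ψ hG (8 ^ j * D0) (hD128.trans hDle) _ ih y h2) ?_
      have h3 : ((n : ℝ) + k) * ((8 ^ j * D0) ^ 4)⁻¹ ≤ 1 := by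
        have h4 : N1 ≤ (8 ^ j * D0) ^ 4 :=
          hD4.trans (pow_le_pow_left₀ (by linarith) hDle 4)
        rw [← div_eq_mul_inv, div_le_one (by linarith)]
        linarith
      have h5 : C1 * (1 + ((n : ℝ) + k) * ((8 ^ j * D0) ^ 4)⁻¹) ≤ C1 * 2 :=
        mul_le_mul_of_nonneg_left (by linarith) hC1
      have h6 : η * (4 * C1) ≤ 2 * C1 := by nlinarith
      have h7 : η * (η ^ j * (C0 * N1 ^ 4) + 4 * C1) =
          η ^ (j + 1) * (C0 * N1 ^ 4) + η * (4 * C1) := by ring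
      rw [h7]
      linarith
  obtain ⟨j, hj1, hj2⟩ := fit_pow (y := N1 ^ (1 / 20 : ℝ)) (Real.one_le_rpow hN (by norm_num))
  have hball : Metric.closedBall x ((8 : ℝ) ^ j * D0) ⊆ Λ := by
    refine (Metric.closedBall_subset_closedBall ?_).trans hx
    have h1 : N1 ^ (1 / 20 : ℝ) * N1 ^ (1 / 4 : ℝ) = N1 ^ (3 / 10 : ℝ) := by
      rw [← Real.rpow_add hN0]
      norm_num
    calc (8 : ℝ) ^ j * D0 ≤ (8 * N1 ^ (1 / 20 : ℝ)) * D0 :=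
          mul_le_mul_of_nonneg_right hj2 (by linarith)
      _ = 1024 * (N1 ^ (1 / 20 : ℝ) * N1 ^ (1 / 4 : ℝ)) := by rw [hD0]; ring
      _ = _ := by rw [h1]
  refine fit_mono (hind j x hball) ?_
  have hηj : η ^ j * N1 ^ 4 ≤ 1 := by
    have h1 : η ^ j = (((8 : ℝ) ^ j) ^ 80)⁻¹ := by
      rw [hη, inv_pow, ← pow_mul, ← pow_mul, mul_comm]
    have h2 : N1 ^ 4 ≤ ((8 : ℝ) ^ j) ^ 80 := by
      have h3 : (N1 ^ (1 / 20 : ℝ)) ^ 80 = N1 ^ 4 := by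
        rw [← Real.rpow_natCast, ← Real.rpow_mul hN0.le, ← Real.rpow_natCast]
        norm_num
      rw [← h3]
      exact pow_le_pow_left₀ (by positivity) hj1 80
    rw [h1, inv_mul_le_iff₀ (by positivity), mul_one]
    exact h2
  have h9 : η ^ j * (C0 * N1 ^ 4) ≤ C0 := by
    calc η ^ j * (C0 * N1 ^ 4) = C0 * (η ^ j * N1 ^ 4) := by ring
      _ ≤ C0 * 1 := mul_le_mul_of_nonneg_left hηj hC0
      _ = C0 := mul_one _
  linarith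

end H6.CB
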