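import Pool.Agent.H6.CB.FCov
import Pool.Agent.H6.CB.MmF

/-! Interpolation of the moments: for `0 ≤ t < 5/3` and `ε > 0` there is `K` with `u ^ t ≤ ε * u ^ (5/3) + K` for all `u ≥ 0` (if `ε * u ^ (5/3 - t) ≥ 1` the first term is enough, otherwise `u` is bounded; for `u = 0` note `0 ^ 0 = 1`). Then `m_cov` (with `ε * C ≤ η`), and `mm θ x p ≤ ce p x 64` (`mm_hi`). -/

open MeasureTheory Finset

namespace H6.CB

open H6.CM

/-- interpolation of powers -/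
private theorem fm_pow (t : ℝ) (ht : 0 ≤ t) (ht' : t < 5 / 3) (ε : ℝ) (hε : 0 < ε) :
    ∃ K : ℝ, 0 ≤ K ∧ ∀ u : ℝ, 0 ≤ u → u ^ t ≤ ε * u ^ (5 / 3 : ℝ) + K := by
  obtain ⟨s, hs⟩ : ∃ s : ℝ, s = 5 / 3 - t := ⟨_, rfl⟩
  have hs0 : 0 < s := by rw [hs]; linarith
  obtain ⟨M, hM⟩ : ∃ M : ℝ, M = (ε⁻¹) ^ (1 / s) := ⟨_, rfl⟩
  have hM0 : 0 < M := by rw [hM]; positivity
  have hMs : M ^ s = ε⁻¹ := by
    rw [hM, ← Real.rpow_mul (by positivity), one_div, inv_mul_cancel₀ hs0.ne', Real.rpow_one]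
  refine ⟨M ^ t, by positivity, fun u hu => ?_⟩
  rcases le_total u M with h | h
  · have h1 : u ^ t ≤ M ^ t := Real.rpow_le_rpow hu h ht
    have h2 : 0 ≤ ε * u ^ (5 / 3 : ℝ) := by positivity
    linarith
  · have hu0 : 0 < u := hM0.trans_le h
    have h1 : ε⁻¹ ≤ u ^ s := by
      rw [← hMs]
      exact Real.rpow_le_rpow hM0.le h hs0.le
    have h2 : 1 ≤ ε * u ^ s := by
      rw [inv_le_iff_one_le_mul₀ hε] at h1
      linarith
    have h3 : u ^ (5 / 3 : ℝ) = u ^ s * u ^ t := by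
      rw [← Real.rpow_add hu0, hs]
      congr 1
      ring
    have h4 : 0 ≤ u ^ t := by positivity
    have h5 : u ^ t ≤ ε * u ^ (5 / 3 : ℝ) := by
      rw [h3, ← mul_assoc]
      nlinarith
    have h6 : 0 ≤ M ^ t := by positivity
    linarith

theorem mom (R : ℝ) (hR : 0 ≤ R) (t : ℝ) (ht : 0 ≤ t) (ht' : t < 5 / 3) (η : ℝ) (hη : 0 < η) :
    ∃ C : ℝ, 0 ≤ C ∧ ∀ (q n k : ℕ) (Λ : Set E3) (ψ : (Fin n → Fin q) → Cfg n k → ℂ)
    (_ : Sm q n k Λ ψ) (_ : mass ψ = 1) (x : E3) (B : ℝ)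
    (_ : ∀ y ∈ Metric.ball x (R + 1), mean ψ (fun p => ce p y 1 ^ (5 / 3 : ℝ)) ≤ B),
    mean ψ (fun p => ce p x R ^ t) ≤ η * B + C := by
  obtain ⟨C, hC, hcov⟩ := m_cov R hR
  obtain ⟨K, hK, hpow⟩ := fm_pow t ht ht' (η / (C + 1)) (by positivity)
  refine ⟨K, hK, fun q n k Λ ψ hψ hm x B hB => ?_⟩
  have hB0 : 0 ≤ B := by
    refine le_trans ?_ (hB x (Metric.mem_ball_self (by linarith)))
    exact mean_nonneg fun _ p _ => Real.rpow_nonneg (ce_nonneg p x 1) _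
  have hI : ∀ t : ℝ, 0 ≤ t → IM ψ (fun p => ce p x R ^ t) := fun t ht => IM_cet hψ x R t ht
  have h53 := hI (5 / 3) (by norm_num)
  have hone : IM ψ (fun _ => (1 : ℝ)) := IM.cont hψ continuous_const
  have h1 : mean ψ (fun p => ce p x R ^ t) ≤
      mean ψ (fun p => η / (C + 1) * ce p x R ^ (5 / 3 : ℝ) + K * 1) := by
    refine mean_mono (hI t ht) ((h53.cmul _).add (hone.cmul K)) fun σ p _ => ?_
    rw [mul_one]
    exact hpow _ (ce_nonneg p x R)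
  rw [mean_add (h53.cmul _) (hone.cmul K), mean_cmul, mean_cmul, mean_one, hm, mul_one] at h1
  have h2 := hcov q n k Λ ψ hψ x B hB
  have h3 : η / (C + 1) * mean ψ (fun p => ce p x R ^ (5 / 3 : ℝ)) ≤ η * B := by
    calc η / (C + 1) * mean ψ (fun p => ce p x R ^ (5 / 3 : ℝ)) ≤ η / (C + 1) * (C * B) :=
          mul_le_mul_of_nonneg_left h2 (by positivity)
      _ = η * B * (C / (C + 1)) := by ring
      _ ≤ η * B * 1 := by
          refine mul_le_mul_of_nonneg_left ?_ (by positivity)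
          rw [div_le_one (by linarith)]
          linarith
      _ = η * B := mul_one _
  linarith

private theorem fm_mm0 {n k : ℕ} (θ : E3 → ℝ) (x : E3) (p : Cfg n k) : 0 ≤ mm θ x p :=
  sum_nonneg fun _ _ => sq_nonneg _

theorem IM_mmt {q n k : ℕ} {Λ : Set E3} {ψ : (Fin n → Fin q) → Cfg n k → ℂ} {θ : E3 → ℝ}
    (hθ : Cut θ) (h : Sm q n k Λ ψ) (x : E3) (t : ℝ) (ht : 0 ≤ t) :
    IM ψ (fun p => mm θ x p ^ t) := by
  refine IM.bdd h ((mm_smooth hθ x).continuous.measurable.pow_const t) ((n : ℝ) ^ t)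
    fun p => ?_
  rw [abs_of_nonneg (Real.rpow_nonneg (fm_mm0 θ x p) t)]
  exact Real.rpow_le_rpow (fm_mm0 θ x p) ((mm_hi hθ x p).trans (ce_le p x 64)) ht

theorem mom_mm {θ : E3 → ℝ} (hθ : Cut θ) (t : ℝ) (ht : 0 ≤ t) (ht' : t < 5 / 3) (η : ℝ)
    (hη : 0 < η) : ∃ C : ℝ, 0 ≤ C ∧ ∀ (q n k : ℕ) (Λ : Set E3)
    (ψ : (Fin n → Fin q) → Cfg n k → ℂ) (_ : Sm q n k Λ ψ) (_ : mass ψ = 1) (x : E3) (B : ℝ)
    (_ : ∀ y ∈ Metric.ball x 65, mean ψ (fun p => ce p y 1 ^ (5 / 3 : ℝ)) ≤ B),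
    mean ψ (fun p => mm θ x p ^ t) ≤ η * B + C := by
  obtain ⟨C, hC, H⟩ := mom 64 (by norm_num) t ht ht' η hη
  refine ⟨C, hC, fun q n k Λ ψ hψ hm x B hB => ?_⟩
  refine le_trans (mean_mono (IM_mmt hθ hψ x t ht) (IM_cet hψ x 64 t ht) fun σ p _ => ?_)
    (H q n k Λ ψ hψ hm x B fun y hy => hB y ?_)
  · exact Real.rpow_le_rpow (fm_mm0 θ x p) (mm_hi hθ x p) ht
  · have e : (64 : ℝ) + 1 = 65 := by norm_num
    rwa [e] at hy

end H6.CB
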