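import Pool.Agent.H6.CB.UhF
import Pool.Agent.H6.CB.ShellB

/-! The number of nuclei in a unit ball, at every smearing scale. As in `Nc1.lean` with `κ v = ∫ w, (chr χ 1 w ^ 2 - chr χ' 12 w ^ 2) * UU χ s (v + w)`, which is the average over `u1, u2` of `U (chr χ 1) y - U (chr χ' 12) y`, `y = v - u1 - u2`. It is nonnegative because `U (chr χ 1) y ≥ (max ‖y‖ (1/2))⁻¹ ≥ (max ‖y‖ 5)⁻¹ ≥ U (chr χ' 12) y` (`U_low`, `U_shell`), vanishes for `7 ≤ ‖v‖` (both are `‖y‖⁻¹` for `6 ≤ ‖y‖`), is at least `1/2 - 1/5` for `‖v‖ < 1` (`‖y‖ ≤ 2`), and bounded. Then `∑ z j κ (y - R j) = ∑ κ (y - x a) + ∫ w, (chr χ 1 w ^ 2 - chr χ' 12 w ^ 2) * uh (y + w)`, and both densities are bounded and supported in the ball of radius `6`. -/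

open MeasureTheory Finset

namespace H6.CB

open H6.CM

section n2

variable {χ χ' : E3 → ℝ} (h : Bump χ) (h' : Bump χ')

private theorem n2_sqint {f : E3 → ℝ} (hf : Bump f) (r : ℝ) (hr : 0 < r) :
    Integrable (fun w => chr f r w ^ 2) := by
  apply Integrable.of_integral_ne_zero
  rw [chr_norm hf r hr]
  exact one_ne_zero

include h in
private theorem n2_cont (s : ℝ) (hs : 0 < s) : Continuous (UU χ s) :=
  (UU_smooth h s hs).continuous

include h h' in
private theorem n2_int (r s : ℝ) (hr : 0 < r) (hs : 0 < s) (v : E3) :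
    Integrable (fun w => chr χ' r w ^ 2 * UU χ s (v + w)) := by
  obtain ⟨C, hC, hb⟩ := UU_bd h
  have h1 : Continuous (fun w => UU χ s (v + w)) :=
    (n2_cont h s hs).comp (continuous_const.add continuous_id)
  refine Integrable.mono' ((n2_sqint h' r hr).mul_const (C * s⁻¹))
    ((n2_sqint h' r hr).aestronglyMeasurable.mul h1.aestronglyMeasurable)
    (Filter.Eventually.of_forall fun w => ?_)
  rw [norm_mul, Real.norm_eq_abs, Real.norm_eq_abs, abs_of_nonneg (sq_nonneg _),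
    abs_of_nonneg (UU_nonneg h s hs _)]
  exact mul_le_mul_of_nonneg_left (hb s hs _) (sq_nonneg _)

include h' in
private theorem n2_pot (r : ℝ) (hr : 0 < r) (v : E3) :
    Integrable (fun w => chr χ' r w ^ 2 * ‖v + w‖⁻¹) ∧
      ∫ w, chr χ' r w ^ 2 * ‖v + w‖⁻¹ = U (chr χ' r) (-v) := by
  have h1 := chr_pot_int h' r hr 0 (-v)
  have h2 := chr_pot h' r hr 0 (-v)
  simp only [sub_zero, sub_neg_eq_add] at h1 h2
  rw [← chr_eq h' r hr] at h2
  have e : ∀ w : E3, ‖w + v‖ = ‖v + w‖ := fun w => by rw [add_comm]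
  simp only [e] at h1 h2
  exact ⟨h1, h2⟩

include h h' in
private theorem n2_le (r s : ℝ) (hr : 0 < r) (hs : 0 < s) (v : E3) :
    ∫ w, chr χ' r w ^ 2 * UU χ s (v + w) ≤ U (chr χ' r) (-v) := by
  obtain ⟨h1, h2⟩ := n2_pot h' r hr v
  rw [← h2]
  refine integral_mono_ae (n2_int h h' r s hr hs v) h1 ?_
  have h0 : ∀ᵐ w : E3, v + w ≠ 0 := by
    have h3 : ∀ᵐ w : E3, w ≠ -v := by
      rw [ae_iff]
      have : {a : E3 | ¬a ≠ -v} = {-v} := by
        ext a
        simp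
      rw [this]
      exact measure_singleton _
    filter_upwards [h3] with w hw h4
    exact hw (eq_neg_of_add_eq_zero_right h4)
  filter_upwards [h0] with w hw
  exact mul_le_mul_of_nonneg_left (UU_inv h s hs _ hw) (sq_nonneg _)

include h h' in
private theorem n2_eq (r s : ℝ) (hr : 0 < r) (hs : 0 < s) (v : E3)
    (hv : ∀ w, chr χ' r w ≠ 0 → s ≤ ‖v + w‖) :
    ∫ w, chr χ' r w ^ 2 * UU χ s (v + w) = U (chr χ' r) (-v) := by
  rw [← (n2_pot h' r hr v).2]
  refine integral_congr_ae (Filter.Eventually.of_forall fun w => ?_)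
  simp only
  by_cases hw : chr χ' r w = 0
  · rw [hw]
    simp
  · rw [UU_eq h s hs _ (hv w hw)]

include h h' in
private theorem n2_low (r s ρ : ℝ) (hr : 0 < r) (hs : 0 < s) (v : E3) (hρ : 0 ≤ ρ)
    (hv : ∀ w, chr χ' r w ≠ 0 → ‖v + w‖ ≤ ρ) :
    (ρ + s / 2)⁻¹ ≤ ∫ w, chr χ' r w ^ 2 * UU χ s (v + w) := by
  have h0 : (ρ + s / 2)⁻¹ = ∫ w, chr χ' r w ^ 2 * (ρ + s / 2)⁻¹ := by
    rw [integral_mul_const, chr_norm h' r hr, one_mul]
  rw [h0]
  refine integral_mono ((n2_sqint h' r hr).mul_const _) (n2_int h h' r s hr hs v) fun w => ?_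
  simp only
  by_cases hw : chr χ' r w = 0
  · rw [hw]
    simp
  · refine mul_le_mul_of_nonneg_left ?_ (sq_nonneg _)
    refine le_trans ?_ (UU_low h s hs _)
    refine inv_anti₀ (by positivity) ?_
    have := hv w hw
    linarith

private theorem n2_bdd {f : E3 → ℝ} (hf : Bump f) (r : ℝ) (hr : 0 < r) :
    ∃ C : ℝ, 0 ≤ C ∧ ∀ w, chr f r w ^ 2 ≤ C := by
  have hc : HasCompactSupport (fun w => chr f r w ^ 2) := by
    refine HasCompactSupport.intro (isCompact_closedBall (0 : E3) (r / 2)) fun w hw => ?_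
    have h0 : chr f r w = 0 := by
      by_contra h0
      apply hw
      rw [Metric.mem_closedBall, dist_zero_right]
      exact (chr_supp hf r hr w h0).le
    simp only [h0]
    norm_num
  obtain ⟨C, hC⟩ := ((chr_smooth hf r hr).continuous.pow 2).bounded_above_of_compact_support hc
  refine ⟨C, (norm_nonneg _).trans (hC 0), fun w => ?_⟩
  have h1 : ‖chr f r w ^ 2‖ ≤ C := hC w
  exact (Real.le_norm_self _).trans h1

end n2

/-- the kernel -/
private theorem n2_ker {χ χ' : E3 → ℝ} (hχ : Bump χ) (hχ' : Bump χ')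
    (hs' : ∀ v, χ' v ≠ 0 → 5 / 12 < ‖v‖) (hcore : ∀ w, chr χ 1 w ≠ 0 → ‖w‖ < 1 / 2)
    (hshell : ∀ w, chr χ' 12 w ≠ 0 → ‖w‖ < 6) (C1 : ℝ)
    (hU1 : ∀ v, U (chr χ 1) v ≤ C1) (s : ℝ) (hs : 0 < s) (hs1 : s ≤ 1) (κ : E3 → ℝ)
    (hκv : ∀ v, κ v = (∫ w, chr χ 1 w ^ 2 * UU χ s (v + w)) -
      ∫ w, chr χ' 12 w ^ 2 * UU χ s (v + w)) :
    (∀ v, 0 ≤ κ v) ∧ (∀ v, 7 ≤ ‖v‖ → κ v = 0) ∧ (∀ v, ‖v‖ < 1 → 3 / 10 ≤ κ v) ∧
      ∀ v, κ v ≤ C1 := by
  have hle2 : ∀ v : E3, ∫ w, chr χ' 12 w ^ 2 * UU χ s (v + w) ≤ (max ‖v‖ 5)⁻¹ := by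
    intro v
    refine (n2_le hχ hχ' 12 s (by norm_num) hs v).trans ?_
    have := U_shell hχ' (5 / 12) (by norm_num) hs' 12 (by norm_num) (-v)
    rw [norm_neg] at this
    refine this.trans_eq ?_
    norm_num
  have hnn2 : ∀ v : E3, 0 ≤ ∫ w, chr χ' 12 w ^ 2 * UU χ s (v + w) := fun v =>
    integral_nonneg fun w => mul_nonneg (sq_nonneg _) (UU_nonneg hχ s hs _)
  refine ⟨?_, ?_, ?_, ?_⟩
  · intro v
    rw [hκv, sub_nonneg]
    rcases le_or_gt (3 / 2) ‖v‖ with hv | hv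
    · have h1 : ∫ w, chr χ 1 w ^ 2 * UU χ s (v + w) = U (chr χ 1) (-v) := by
        refine n2_eq hχ hχ 1 s one_pos hs v fun w hw => ?_
        have h2 := hcore w hw
        have h3 : ‖v‖ ≤ ‖v + w‖ + ‖w‖ := by
          calc ‖v‖ = ‖(v + w) - w‖ := by rw [add_sub_cancel_right]
            _ ≤ ‖v + w‖ + ‖w‖ := norm_sub_le _ _
        linarith
      rw [h1, U_out hχ 1 one_pos (-v) (by rw [norm_neg]; linarith), norm_neg]
      refine (hle2 v).trans (inv_anti₀ (by linarith) (le_max_left _ _))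
    · have h1 := n2_low hχ hχ 1 s 2 one_pos hs v (by norm_num) fun w hw => by
        have h2 := hcore w hw
        have h3 := norm_add_le v w
        linarith
      refine (hle2 v).trans (le_trans ?_ h1)
      refine inv_anti₀ (by positivity) ?_
      have := le_max_right ‖v‖ 5
      linarith
  · intro v hv
    have hn : ∀ w : E3, ‖w‖ < 6 → s ≤ ‖v + w‖ := by
      intro w hw
      have h3 : ‖v‖ ≤ ‖v + w‖ + ‖w‖ := by
        calc ‖v‖ = ‖(v + w) - w‖ := by rw [add_sub_cancel_right]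
          _ ≤ ‖v + w‖ + ‖w‖ := norm_sub_le _ _
      linarith
    rw [hκv, n2_eq hχ hχ 1 s one_pos hs v (fun w hw => hn w (by have := hcore w hw; linarith)),
      n2_eq hχ hχ' 12 s (by norm_num) hs v (fun w hw => hn w (hshell w hw)),
      U_out hχ 1 one_pos (-v) (by rw [norm_neg]; linarith),
      U_out hχ' 12 (by norm_num) (-v) (by rw [norm_neg]; linarith), sub_self]
  · intro v hv
    have h1 := n2_low hχ hχ 1 s (3 / 2) one_pos hs v (by norm_num) fun w hw => by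
      have h2 := hcore w hw
      have h3 := norm_add_le v w
      linarith
    have h2 : (2 : ℝ)⁻¹ ≤ (3 / 2 + s / 2)⁻¹ := inv_anti₀ (by positivity) (by linarith)
    have h3 : (max ‖v‖ 5)⁻¹ ≤ (5 : ℝ)⁻¹ := inv_anti₀ (by norm_num) (le_max_right _ _)
    have h4 := hle2 v
    have h5 : (2 : ℝ)⁻¹ - 5⁻¹ = 3 / 10 := by norm_num
    rw [hκv, ← h5]
    linarith
  · intro v
    have h1 := n2_le hχ hχ 1 s one_pos hs v
    have h2 := hU1 (-v)
    have h3 := hnn2 v
    rw [hκv]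
    linarith

/-- the identity -/
private theorem n2_id {n k : ℕ} (ρ F κ : E3 → ℝ) (hρint : Integrable ρ) (hρ0 : ∫ w, ρ w = 0)
    (hρU : ∀ v, Integrable (fun w => ρ w * F (v + w)) ∧ ∫ w, ρ w * F (v + w) = κ v)
    (z : Fin k → ℝ) (p : Cfg n k) (c : ℝ) (u : E3 → ℝ)
    (hu : ∀ v, u v = (∑ j, z j * F (v - p.2 j) - ∑ a, F (v - p.1 a)) - c) (y : E3) :
    ∫ w, ρ w * u (y + w) = ∑ j, z j * κ (y - p.2 j) - ∑ a, κ (y - p.1 a) := by
  have hph : (fun w => ρ w * u (y + w)) = fun w =>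
      (∑ j, z j * (ρ w * F ((y - p.2 j) + w)) - ∑ a, ρ w * F ((y - p.1 a) + w)) -
        c * ρ w := by
    funext w
    have e1 : ∀ x : E3, y + w - x = (y - x) + w := fun x => by abel
    rw [hu]
    simp only [e1]
    have e2 : ∑ j, z j * (ρ w * F ((y - p.2 j) + w)) =
        ρ w * ∑ j, z j * F ((y - p.2 j) + w) := by
      rw [mul_sum]
      exact sum_congr rfl fun j _ => by ring
    rw [e2, ← mul_sum]
    ring
  have hI1 : Integrable (fun w => ∑ j, z j * (ρ w * F ((y - p.2 j) + w))) :=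
    integrable_finsetSum _ fun j _ => (hρU _).1.const_mul _
  have hI2 : Integrable (fun w => ∑ a, ρ w * F ((y - p.1 a) + w)) :=
    integrable_finsetSum _ fun a _ => (hρU _).1
  have hI12 : Integrable (fun w => ∑ j, z j * (ρ w * F ((y - p.2 j) + w)) -
      ∑ a, ρ w * F ((y - p.1 a) + w)) := hI1.sub hI2
  have e3 : ∫ w, ρ w * u (y + w) = ∫ w,
      ((∑ j, z j * (ρ w * F ((y - p.2 j) + w)) - ∑ a, ρ w * F ((y - p.1 a) + w)) -
        c * ρ w) := by
    rw [← hph]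
  have e4 : ∫ w, ((∑ j, z j * (ρ w * F ((y - p.2 j) + w)) -
      ∑ a, ρ w * F ((y - p.1 a) + w)) - c * ρ w) =
      (∫ w, (∑ j, z j * (ρ w * F ((y - p.2 j) + w)) - ∑ a, ρ w * F ((y - p.1 a) + w))) -
        ∫ w, c * ρ w := integral_sub hI12 (hρint.const_mul _)
  have e5 : ∫ w, (∑ j, z j * (ρ w * F ((y - p.2 j) + w)) -
      ∑ a, ρ w * F ((y - p.1 a) + w)) =
      (∫ w, ∑ j, z j * (ρ w * F ((y - p.2 j) + w))) -
        ∫ w, ∑ a, ρ w * F ((y - p.1 a) + w) := integral_sub hI1 hI2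
  have e6 : ∫ w, ∑ j, z j * (ρ w * F ((y - p.2 j) + w)) =
      ∑ j, z j * κ (y - p.2 j) := by
    rw [integral_finsetSum _ fun j _ => (hρU _).1.const_mul _]
    exact sum_congr rfl fun j _ => by rw [integral_const_mul, (hρU _).2]
  have e7 : ∫ w, ∑ a, ρ w * F ((y - p.1 a) + w) = ∑ a, κ (y - p.1 a) := by
    rw [integral_finsetSum _ fun a _ => (hρU _).1]
    exact sum_congr rfl fun a _ => (hρU _).2
  rw [e3, e4, e5, e6, e7, integral_const_mul, hρ0, mul_zero, sub_zero]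

/-- the bound of the integral -/
private theorem n2_bd (ρ u : E3 → ℝ) (hu : Continuous u) (C : ℝ) (hC : 0 ≤ C)
    (hb : ∀ w, |ρ w| ≤ C) (h0 : ∀ w, ¬ ‖w‖ < 6 → ρ w = 0) (y : E3) :
    |∫ w, ρ w * u (y + w)| ≤ C * ∫ v in Metric.ball y 6, |u v| := by
  have hball : IntegrableOn (fun v => |u v|) (Metric.ball y 6) :=
    (hu.abs.continuousOn.integrableOn_compact (isCompact_closedBall y 6)).mono_set
      Metric.ball_subset_closedBall
  obtain ⟨g, hg⟩ : ∃ g : E3 → ℝ, g = (Metric.ball y 6).indicator (fun v => |u v|) := ⟨_, rfl⟩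
  have hgi : Integrable g := by
    rw [hg]
    exact (integrable_indicator_iff measurableSet_ball).2 hball
  have e1 : ∫ v in Metric.ball y 6, |u v| = ∫ w, g (y + w) := by
    rw [integral_add_left_eq_self g y, hg, integral_indicator measurableSet_ball]
  have hIi : Integrable (fun w => g (y + w)) := hgi.comp_add_left y
  rw [e1, ← integral_const_mul]
  refine (abs_integral_le_integral_abs).trans ?_
  refine integral_mono_of_nonneg (Filter.Eventually.of_forall fun w => abs_nonneg _)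
    (hIi.const_mul _) (Filter.Eventually.of_forall fun w => ?_)
  simp only
  by_cases hw : ‖w‖ < 6
  · have hm : y + w ∈ Metric.ball y 6 := by
      rw [Metric.mem_ball, dist_eq_norm, add_sub_cancel_left]
      exact hw
    rw [hg, Set.indicator_of_mem hm, abs_mul]
    exact mul_le_mul_of_nonneg_right (hb w) (abs_nonneg _)
  · rw [h0 w hw, zero_mul, abs_zero, hg]
    have h5 : 0 ≤ (Metric.ball y 6).indicator (fun v => |u v|) (y + w) :=
      Set.indicator_nonneg (fun v _ => abs_nonneg _) _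
    exact mul_nonneg hC h5

/-- the conclusion, abstract -/
private theorem n2_fin {n k : ℕ} (zm : ℝ) (hzm : 0 < zm) (z : Fin k → ℝ) (hz : ∀ j, zm ≤ z j)
    (p : Cfg n k) (y : E3) (κ : E3 → ℝ) (C1 D I : ℝ) (hC1 : 0 ≤ C1) (hD : 0 ≤ D) (hI : 0 ≤ I)
    (hκ0 : ∀ v, 0 ≤ κ v) (hκ7 : ∀ v, 7 ≤ ‖v‖ → κ v = 0) (hκ1 : ∀ v, ‖v‖ < 1 → 3 / 10 ≤ κ v)
    (hκC : ∀ v, κ v ≤ C1)
    (hle : ∑ j, z j * κ (y - p.2 j) - ∑ a, κ (y - p.1 a) ≤ D * I) :
    cn p y 1 ≤ (zm * (3 / 10))⁻¹ * (C1 + D) * (I + ce p y 7) := by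
  have hN : zm * (3 / 10) * cn p y 1 ≤ ∑ j, z j * κ (y - p.2 j) := by
    unfold cn
    rw [mul_sum]
    refine sum_le_sum fun j _ => ?_
    have hzj : 0 ≤ z j := hzm.le.trans (hz j)
    split_ifs with hj
    · rw [mul_one]
      rw [norm_sub_rev] at hj
      exact mul_le_mul (hz j) (hκ1 _ hj) (by norm_num) hzj
    · rw [mul_zero]
      exact mul_nonneg hzj (hκ0 _)
  have hE : ∑ a, κ (y - p.1 a) ≤ C1 * ce p y 7 := by
    unfold ce
    rw [mul_sum]
    refine sum_le_sum fun a _ => ?_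
    split_ifs with ha
    · rw [mul_one]
      exact hκC _
    · rw [mul_zero, hκ7 _ (by rw [norm_sub_rev]; exact not_lt.1 ha)]
  have hce : 0 ≤ ce p y 7 := by
    unfold ce
    exact sum_nonneg fun a _ => by split_ifs <;> norm_num
  have hfin : zm * (3 / 10) * cn p y 1 ≤ (C1 + D) * (I + ce p y 7) := by
    have h1 : 0 ≤ C1 * I := mul_nonneg hC1 hI
    have h2 : 0 ≤ D * ce p y 7 := mul_nonneg hD hce
    have h3 : (C1 + D) * (I + ce p y 7) = C1 * I + C1 * ce p y 7 + D * I + D * ce p y 7 := by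
      ring
    rw [h3]
    linarith
  rw [mul_assoc, le_inv_mul_iff₀ (by positivity)]
  exact hfin

/-- continuity -/
private theorem n2_uh {n k : ℕ} {χ : E3 → ℝ} (hχ : Bump χ) (s : ℝ) (hs : 0 < s) (W : Finset E3)
    (z : Fin k → ℝ) (p : Cfg n k) : Continuous (fun v => uh χ s W z p v) := by
  have h1 := n2_cont hχ s hs
  unfold uh ph
  refine Continuous.sub (Continuous.sub ?_ ?_) continuous_const
  · exact continuous_finset_sum _ fun j _ =>
      continuous_const.mul (h1.comp (continuous_id.sub continuous_const))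
  · exact continuous_finset_sum _ fun a _ => h1.comp (continuous_id.sub continuous_const)

theorem nc2 (zm : ℝ) (hzm : 0 < zm) {χ χ' : E3 → ℝ} (hχ : Bump χ) (hχ' : Bump χ')
    (hs' : ∀ v, χ' v ≠ 0 → 5 / 12 < ‖v‖) : ∃ C : ℝ, 0 ≤ C ∧
    ∀ (n k : ℕ) (z : Fin k → ℝ) (_ : ∀ j, zm ≤ z j) (W : Finset E3) (p : Cfg n k) (y : E3)
    (s : ℝ) (_ : 0 < s) (_ : s ≤ 1),
    cn p y 1 ≤ C * ((∫ v in Metric.ball y 6, |uh χ s W z p v|) + ce p y 7) := by
  obtain ⟨C1, hC1, hU1⟩ := U_bds hχ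
  obtain ⟨C2, hC2, hb2⟩ := n2_bdd hχ 1 one_pos
  obtain ⟨C3, hC3, hb3⟩ := n2_bdd hχ' 12 (by norm_num)
  refine ⟨(zm * (3 / 10))⁻¹ * (C1 + (C2 + C3)), by positivity, ?_⟩
  intro n k z hz W p y s hs hs1
  have hshell : ∀ w, chr χ' 12 w ≠ 0 → ‖w‖ < 6 := by
    intro w hw
    have h1 := chr_supp hχ' 12 (by norm_num) w hw
    linarith
  have hcore : ∀ w, chr χ 1 w ≠ 0 → ‖w‖ < 1 / 2 := chr_supp hχ 1 one_pos
  obtain ⟨κ, hκv⟩ : ∃ κ : E3 → ℝ, ∀ v, κ v = (∫ w, chr χ 1 w ^ 2 * UU χ s (v + w)) -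
    ∫ w, chr χ' 12 w ^ 2 * UU χ s (v + w) := ⟨fun v => _, fun v => rfl⟩
  obtain ⟨hκ0, hκ7, hκ1, hκC⟩ := n2_ker hχ hχ' hs' hcore hshell C1 (fun v => by
    have := (hU1 1 one_pos v).2
    rwa [inv_one, mul_one] at this) s hs hs1 κ hκv
  obtain ⟨ρ, hρ⟩ : ∃ ρ : E3 → ℝ, ∀ w, ρ w = chr χ 1 w ^ 2 - chr χ' 12 w ^ 2 :=
    ⟨fun w => _, fun w => rfl⟩
  have hρ' : ρ = fun w => chr χ 1 w ^ 2 - chr χ' 12 w ^ 2 := funext hρ
  have hρint : Integrable ρ := by
    rw [hρ']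
    exact (n2_sqint hχ 1 one_pos).sub (n2_sqint hχ' 12 (by norm_num))
  have hρ0 : ∫ w, ρ w = 0 := by
    rw [hρ']
    rw [integral_sub (n2_sqint hχ 1 one_pos) (n2_sqint hχ' 12 (by norm_num)),
      chr_norm hχ 1 one_pos, chr_norm hχ' 12 (by norm_num), sub_self]
  have hρU : ∀ v, Integrable (fun w => ρ w * UU χ s (v + w)) ∧
      ∫ w, ρ w * UU χ s (v + w) = κ v := by
    intro v
    have e : (fun w => ρ w * UU χ s (v + w)) = fun w => chr χ 1 w ^ 2 * UU χ s (v + w) -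
        chr χ' 12 w ^ 2 * UU χ s (v + w) := by
      funext w
      rw [hρ]
      ring
    rw [e]
    refine ⟨(n2_int hχ hχ 1 s one_pos hs v).sub (n2_int hχ hχ' 12 s (by norm_num) hs v), ?_⟩
    rw [integral_sub (n2_int hχ hχ 1 s one_pos hs v) (n2_int hχ hχ' 12 s (by norm_num) hs v),
      hκv]
  have hid := n2_id ρ (UU χ s) κ hρint hρ0 hρU z p (pr χ W z p) (fun v => uh χ s W z p v)
    (fun v => rfl) y
  have hbound := n2_bd ρ (fun v => uh χ s W z p v) (n2_uh hχ s hs W z p) (C2 + C3)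
    (by linarith) (fun w => by
      rw [hρ]
      have h1 := hb2 w
      have h2 := hb3 w
      have h3 := sq_nonneg (chr χ 1 w)
      have h4 := sq_nonneg (chr χ' 12 w)
      exact abs_le.2 ⟨by linarith, by linarith⟩) (fun w hw => by
      have h1 : chr χ 1 w = 0 := by
        by_contra h0
        have := hcore w h0
        apply hw
        linarith
      have h2 : chr χ' 12 w = 0 := by
        by_contra h0
        exact hw (hshell w h0)
      rw [hρ, h1, h2]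
      ring) y
  rw [hid] at hbound
  exact n2_fin zm hzm z hz p y κ C1 (C2 + C3) _ hC1 (by linarith)
    (integral_nonneg fun v => abs_nonneg _) hκ0 hκ7 hκ1 hκC (abs_le.1 hbound).2

end H6.CB
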