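import Pool.Agent.H6.CB.FMom
import Pool.Agent.H6.CB.Nc2

/-! Mixed moments of the electrons and the nuclei. `c_cov` with `R = 14`: `cn p x 14 ≤ ∑ c ∈ t, cn p (x + c) 1`, `‖c‖ ≤ 14`. For `y = x + c` multiply `nc2` (with `shell_ex`, `s = sc l`) by `Gs θ y l p ^ 2` and sum over `l ∈ range (n + 1)` (`Gs_sum_ge`, `Gs_sum_le`, `Gs_mem`): `cn p y 1 ≤ C (∑ l, Gs θ y l p ^ 2 * ∫ v in ball y 6, |uh χ (sc l) W z p v| + 3 * ce p y 7)`. Multiply by `g = 1 + mm θ x p ^ (1/6)`; `g |u| ≤ ε u ^ 2 + ε⁻¹ g ^ 2`, `g ^ 2 ≤ 2 + 2 mm ^ (1/3)`. The mean of `∑ l, ∫ v in ball y 6, Gs ^ 2 * uh ^ 2` is at most `WW χ θ W z ψ y ≤ B` (`mean_ball`; `uh` is bounded by `uh_bd` and jointly continuous by `uh_joint`). The other terms are moments: `ce p y 7 ≤ ce p x 32 ≤ mm θ x p`, `ce p x 14 ≤ mm θ x p` (`mm_lo`, `ce_mono`), `(1 + m ^ (1/6)) m = m + m ^ (7/6)`, `mom_mm`. -/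

open MeasureTheory Finset

namespace H6.CB

open H6.CM

private theorem fn_sc (l : ℕ) : 0 < sc l ∧ sc l ≤ 1 := by
  unfold sc
  refine ⟨by positivity, ?_⟩
  exact inv_le_one_of_one_le₀ (one_le_pow₀ (by norm_num))

private theorem fn_V6 (y : E3) : volume.real (Metric.ball y 6) = volume.real (Metric.ball (0 : E3) 6) := by
  unfold Measure.real
  rw [Measure.addHaar_ball_center]

/-- the integral over the smaller ball -/
private theorem fn_ball {u : E3 → ℝ} (hu : Continuous u) (y : E3) (g ε : ℝ) (hg : 0 ≤ g)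
    (hε : 0 < ε) :
    g * (∫ v in Metric.ball y 6, |u v|) ≤
      ε * (∫ v in Metric.ball y 12, u v ^ 2) + ε⁻¹ * volume.real (Metric.ball (0 : E3) 6) * g ^ 2 := by
  have hint : ∀ (f : E3 → ℝ), Continuous f → ∀ r : ℝ, IntegrableOn f (Metric.ball y r) :=
    fun f hf r => (hf.continuousOn.integrableOn_compact (isCompact_closedBall y r)).mono_set
      Metric.ball_subset_closedBall
  have h1 : g * (∫ v in Metric.ball y 6, |u v|) ≤
      ∫ v in Metric.ball y 6, (ε * u v ^ 2 + ε⁻¹ * g ^ 2) := by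
    rw [← integral_const_mul]
    refine integral_mono ((hint _ hu.abs 6).const_mul g)
      (hint _ (by fun_prop) 6) fun v => ?_
    have h2 : 0 ≤ (ε * |u v| - g) ^ 2 := sq_nonneg _
    have h3 : |u v| ^ 2 = u v ^ 2 := sq_abs _
    have h4 : ε * u v ^ 2 + ε⁻¹ * g ^ 2 - g * |u v| =
        ε⁻¹ * ((ε * |u v| - g) ^ 2 + ε * (g * |u v|)) := by
      rw [← h3]
      field_simp
      ring
    have h5 : 0 ≤ ε⁻¹ * ((ε * |u v| - g) ^ 2 + ε * (g * |u v|)) := by positivity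
    show g * |u v| ≤ ε * u v ^ 2 + ε⁻¹ * g ^ 2
    linarith
  have h2 : ∫ v in Metric.ball y 6, (ε * u v ^ 2 + ε⁻¹ * g ^ 2) =
      ε * (∫ v in Metric.ball y 6, u v ^ 2) +
        ε⁻¹ * volume.real (Metric.ball (0 : E3) 6) * g ^ 2 := by
    rw [integral_add (hint _ (by fun_prop) 6) (hint _ (by fun_prop) 6), integral_const_mul,
      setIntegral_const, fn_V6]
    simp only [smul_eq_mul]
    ring
  have h3 : ∫ v in Metric.ball y 6, u v ^ 2 ≤ ∫ v in Metric.ball y 12, u v ^ 2 :=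
    setIntegral_mono_set (hint _ (by fun_prop) 12)
      (Filter.Eventually.of_forall fun v => sq_nonneg (u v))
      (LE.le.eventuallyLE (Metric.ball_subset_ball (by norm_num)))
  have h4 := mul_le_mul_of_nonneg_left h3 hε.le
  linarith

/-- the pointwise bound of the number of nuclei in a unit ball -/
private theorem fn_pt {χ θ : E3 → ℝ} (hχ : Bump χ) (hθ : Cut θ) {C2 : ℝ} (hC2 : 0 ≤ C2)
    {n k : ℕ} (z : Fin k → ℝ) (W : Finset E3) (y : E3) (p : Cfg n k)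
    (hnc : ∀ s : ℝ, 0 < s → s ≤ 1 →
      cn p y 1 ≤ C2 * ((∫ v in Metric.ball y 6, |uh χ s W z p v|) + ce p y 7))
    (g ε : ℝ) (hg : 0 ≤ g) (hε : 0 < ε) :
    g * cn p y 1 ≤ C2 * (ε * (∑ l ∈ range (n + 1), ∫ v in Metric.ball y 12,
        Gs θ y l p ^ 2 * uh χ (sc l) W z p v ^ 2) +
      3 * (ε⁻¹ * volume.real (Metric.ball (0 : E3) 6) * g ^ 2 + g * ce p y 7)) := by
  have hu : ∀ s : ℝ, 0 < s → Continuous (fun v => uh χ s W z p v) := by
    intro s hs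
    have c1 : Continuous (fun v : E3 => ((p, v) : Cfg n k × E3)) :=
      continuous_const.prodMk continuous_id
    have c2 := (uh_joint hχ s hs W z).comp c1
    exact c2
  have hV : 0 ≤ volume.real (Metric.ball (0 : E3) 6) := measureReal_nonneg
  have hce := ce_nonneg p y 7
  have hcn := cn_nonneg p y 1
  have h1 := Gs_sum_ge hθ y p
  have h2 : ∑ l ∈ range (n + 1), Gs θ y l p ^ 2 ≤ 3 := by
    refine le_trans (sum_le_sum fun l _ => ?_) (Gs_sum_le (θ := θ) y p n)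
    obtain ⟨a1, a2⟩ := Gs_mem (θ := θ) y l p
    nlinarith
  obtain ⟨R, hR⟩ : ∃ R : ℝ, R = ε⁻¹ * volume.real (Metric.ball (0 : E3) 6) * g ^ 2 +
    g * ce p y 7 := ⟨_, rfl⟩
  have hR0 : 0 ≤ R := by
    rw [hR]
    positivity
  have h3 : ∀ l ∈ range (n + 1), Gs θ y l p ^ 2 * (g * cn p y 1) ≤
      C2 * (ε * (∫ v in Metric.ball y 12, Gs θ y l p ^ 2 * uh χ (sc l) W z p v ^ 2) +
        Gs θ y l p ^ 2 * R) := by
    intro l _
    obtain ⟨s1, s2⟩ := fn_sc l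
    have h4 := hnc (sc l) s1 s2
    have h5 := fn_ball (hu (sc l) s1) y g ε hg hε
    rw [integral_const_mul]
    have h6 : g * cn p y 1 ≤ C2 * (ε * (∫ v in Metric.ball y 12, uh χ (sc l) W z p v ^ 2) + R) := by
      calc g * cn p y 1 ≤ g * (C2 * ((∫ v in Metric.ball y 6, |uh χ (sc l) W z p v|) +
            ce p y 7)) := mul_le_mul_of_nonneg_left h4 hg
        _ = C2 * (g * (∫ v in Metric.ball y 6, |uh χ (sc l) W z p v|) + g * ce p y 7) := by ring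
        _ ≤ C2 * (ε * (∫ v in Metric.ball y 12, uh χ (sc l) W z p v ^ 2) + R) := by
            refine mul_le_mul_of_nonneg_left ?_ hC2
            rw [hR]
            linarith
    calc Gs θ y l p ^ 2 * (g * cn p y 1)
        ≤ Gs θ y l p ^ 2 * (C2 * (ε * (∫ v in Metric.ball y 12, uh χ (sc l) W z p v ^ 2) + R)) :=
          mul_le_mul_of_nonneg_left h6 (sq_nonneg _)
      _ = _ := by ring
  have h7 := sum_le_sum h3
  rw [← sum_mul, ← mul_sum, sum_add_distrib, ← mul_sum, ← sum_mul] at h7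
  have h8 : g * cn p y 1 ≤ (∑ l ∈ range (n + 1), Gs θ y l p ^ 2) * (g * cn p y 1) := by
    have : 0 ≤ g * cn p y 1 := mul_nonneg hg hcn
    nlinarith
  refine (h8.trans h7).trans (mul_le_mul_of_nonneg_left ?_ hC2)
  rw [← hR]
  have h9 := mul_le_mul_of_nonneg_right h2 hR0
  linarith

private theorem fn_mm0 {n k : ℕ} (θ : E3 → ℝ) (x : E3) (p : Cfg n k) : 0 ≤ mm θ x p :=
  sum_nonneg fun _ _ => sq_nonneg _

/-- the second moments are the mean of an integral -/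
private theorem fn_ww {q n k : ℕ} {Λ : Set E3} {χ θ : E3 → ℝ} (hχ : Bump χ) (hθ : Cut θ)
    {ψ : (Fin n → Fin q) → Cfg n k → ℂ} (hψ : Sm q n k Λ ψ) (z : Fin k → ℝ)
    (hz : ∀ j, 0 ≤ z j) (hzn : ∑ j, z j = n) (W : Finset E3) (y : E3) :
    IM ψ (fun p => ∑ l ∈ range (n + 1), ∫ v in Metric.ball y 12,
        Gs θ y l p ^ 2 * uh χ (sc l) W z p v ^ 2) ∧
    mean ψ (fun p => ∑ l ∈ range (n + 1), ∫ v in Metric.ball y 12,
        Gs θ y l p ^ 2 * uh χ (sc l) W z p v ^ 2) = WW χ θ W z ψ y := by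
  obtain ⟨C, hC, hb⟩ := uh_bd hχ
  have h1 : ∀ l : ℕ, IM ψ (fun p => ∫ v in Metric.ball y 12,
        Gs θ y l p ^ 2 * uh χ (sc l) W z p v ^ 2) ∧
      ∫ v in Metric.ball y 12, mean ψ (fun p => Gs θ y l p ^ 2 * uh χ (sc l) W z p v ^ 2) =
      mean ψ (fun p => ∫ v in Metric.ball y 12, Gs θ y l p ^ 2 * uh χ (sc l) W z p v ^ 2) := by
    intro l
    obtain ⟨s1, s2⟩ := fn_sc l
    have h2 := mean_ball hψ y 12
      (F := fun v p => Gs θ y l p ^ 2 * uh χ (sc l) W z p v ^ 2)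
      (G := fun _ => (C * n * (sc l)⁻¹) ^ 2) ?_ continuous_const ?_
    · exact ⟨h2.2.1, h2.2.2⟩
    · have c1 : Continuous (fun u : Cfg n k × E3 => Gs θ y l u.1 ^ 2 *
          uh χ (sc l) W z u.1 u.2 ^ 2) :=
        (((Gs_smooth hθ y l).continuous.comp continuous_fst).pow 2).mul
          ((uh_joint hχ (sc l) s1 W z).pow 2)
      exact c1.measurable
    · intro v _ p
      obtain ⟨a1, a2⟩ := Gs_mem (θ := θ) y l p
      have h3 := hb n k z hz hzn W (sc l) s1 s2 p v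
      have h4 : uh χ (sc l) W z p v ^ 2 ≤ (C * n * (sc l)⁻¹) ^ 2 := by
        rw [← sq_abs]
        exact pow_le_pow_left₀ (abs_nonneg _) h3 2
      have h5 : Gs θ y l p ^ 2 ≤ 1 := pow_le_one₀ a1 a2
      rw [abs_of_nonneg (mul_nonneg (sq_nonneg _) (sq_nonneg _))]
      calc Gs θ y l p ^ 2 * uh χ (sc l) W z p v ^ 2 ≤ 1 * uh χ (sc l) W z p v ^ 2 :=
            mul_le_mul_of_nonneg_right h5 (sq_nonneg _)
        _ ≤ _ := by rw [one_mul]; exact h4
  refine ⟨IM.sum _ fun l _ => (h1 l).1, ?_⟩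
  rw [mean_sum _ fun l _ => (h1 l).1]
  unfold WW
  exact sum_congr rfl fun l _ => (h1 l).2.symm

theorem fnuc (q : ℕ) (zm zp κm κp A : ℝ) (hzm : 0 < zm) {χ θ : E3 → ℝ} (hχ : Bump χ)
    (hθ : Cut θ) (η : ℝ) (hη : 0 < η) : ∃ C : ℝ, 0 ≤ C ∧
    ∀ (n k : ℕ) (Λ : Set E3) (z κ : Fin k → ℝ) (W : Finset E3) (E : ℝ)
    (ψ : (Fin n → Fin q) → Cfg n k → ℂ) (_ : Gd q zm zp κm κp A n k Λ z κ W E ψ)
    (x : E3) (B : ℝ) (_ : Lb χ θ W z ψ x 100 B),
    mean ψ (fun p => (1 + mm θ x p ^ (1 / 6 : ℝ)) * (ce p x 14 + cn p x 14)) ≤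
      η * B + C := by
  obtain ⟨χ', hχ', hs'⟩ := shell_ex
  obtain ⟨C2, hC2, hnc⟩ := nc2 zm hzm hχ hχ' hs'
  obtain ⟨t, ht1, ht2⟩ := c_cov 14
  obtain ⟨T, hT⟩ : ∃ T : ℝ, T = t.card * C2 := ⟨_, rfl⟩
  have hT0 : 0 ≤ T := by rw [hT]; positivity
  obtain ⟨ε, hε⟩ : ∃ ε : ℝ, ε = η / (2 * (T + 1)) := ⟨_, rfl⟩
  have hε0 : 0 < ε := by rw [hε]; positivity
  obtain ⟨V6, hV6⟩ : ∃ V6 : ℝ, V6 = volume.real (Metric.ball (0 : E3) 6) := ⟨_, rfl⟩
  have hV0 : 0 ≤ V6 := by rw [hV6]; exact measureReal_nonneg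
  obtain ⟨a1, ha1⟩ : ∃ a1 : ℝ, a1 = 1 + 3 * T := ⟨_, rfl⟩
  obtain ⟨a2, ha2⟩ : ∃ a2 : ℝ, a2 = 6 * T * ε⁻¹ * V6 := ⟨_, rfl⟩
  have ha10 : 0 ≤ a1 := by rw [ha1]; positivity
  have ha20 : 0 ≤ a2 := by rw [ha2]; positivity
  obtain ⟨η', hη'⟩ : ∃ η' : ℝ, η' = η / (2 * (2 * a1 + a2 + 1)) := ⟨_, rfl⟩
  have hη0 : 0 < η' := by rw [hη']; positivity
  obtain ⟨D1, hD1, m1⟩ := mom_mm hθ 1 (by norm_num) (by norm_num) η' hη0
  obtain ⟨D2, hD2, m2⟩ := mom_mm hθ (7 / 6) (by norm_num) (by norm_num) η' hη0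
  obtain ⟨D3, hD3, m3⟩ := mom_mm hθ (1 / 3) (by norm_num) (by norm_num) η' hη0
  refine ⟨a1 * (D1 + D2) + a2 * (D3 + 1), by positivity, ?_⟩
  intro n k Λ z κ W E ψ hG x B hL
  have hψ : Sm q n k Λ ψ := St_sm hG.st
  have hz0 : ∀ j, 0 ≤ z j := fun j => hzm.le.trans (hG.hz j).1
  have hcnt : ∀ y ∈ Metric.ball x 65, mean ψ (fun p => ce p y 1 ^ (5 / 3 : ℝ)) ≤ B :=
    fun y hy => (hL y (Metric.ball_subset_ball (by norm_num) hy)).cnt
  have M1 := m1 q n k Λ ψ hψ hG.one x B hcnt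
  have M2 := m2 q n k Λ ψ hψ hG.one x B hcnt
  have M3 := m3 q n k Λ ψ hψ hG.one x B hcnt
  have hB0 : 0 ≤ B := (hL x (Metric.mem_ball_self (by norm_num))).nonneg
  have hww := fun y => fn_ww hχ hθ hψ z hz0 hG.neu W y
  have I1 := IM_mmt hθ hψ x 1 (by norm_num)
  have I2 := IM_mmt hθ hψ x (7 / 6) (by norm_num)
  have I3 := IM_mmt hθ hψ x (1 / 3) (by norm_num)
  have I0 : IM ψ (fun _ => (1 : ℝ)) := IM.cont hψ continuous_const
  have IQ : IM ψ (fun p => ∑ c ∈ t, ∑ l ∈ range (n + 1), ∫ v in Metric.ball (x + c) 12,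
        Gs θ (x + c) l p ^ 2 * uh χ (sc l) W z p v ^ 2) :=
    IM.sum _ fun c _ => (hww (x + c)).1
  have hQ : mean ψ (fun p => ∑ c ∈ t, ∑ l ∈ range (n + 1), ∫ v in Metric.ball (x + c) 12,
        Gs θ (x + c) l p ^ 2 * uh χ (sc l) W z p v ^ 2) ≤ t.card * B := by
    rw [mean_sum _ fun c _ => (hww (x + c)).1]
    calc _ ≤ ∑ _c ∈ t, B := by
          refine sum_le_sum fun c hc => ?_
          rw [(hww (x + c)).2]
          refine (hL (x + c) ?_).pot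
          rw [Metric.mem_ball, dist_eq_norm, add_sub_cancel_left]
          have := ht1 c hc
          linarith
      _ = t.card * B := by rw [sum_const, nsmul_eq_mul]
  -- the pointwise bound
  have hpt : ∀ p : Cfg n k, (1 + mm θ x p ^ (1 / 6 : ℝ)) * (ce p x 14 + cn p x 14) ≤
      a1 * mm θ x p ^ (1 : ℝ) + (a1 * mm θ x p ^ (7 / 6 : ℝ) + (a2 * mm θ x p ^ (1 / 3 : ℝ) +
        (a2 * 1 + C2 * ε * ∑ c ∈ t, ∑ l ∈ range (n + 1), ∫ v in Metric.ball (x + c) 12,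
        Gs θ (x + c) l p ^ 2 * uh χ (sc l) W z p v ^ 2))) := by
    intro p
    obtain ⟨m, hm⟩ : ∃ m : ℝ, m = mm θ x p := ⟨_, rfl⟩
    have hm0 : 0 ≤ m := by rw [hm]; exact fn_mm0 θ x p
    obtain ⟨g, hg⟩ : ∃ g : ℝ, g = 1 + m ^ (1 / 6 : ℝ) := ⟨_, rfl⟩
    have hs0 : 0 ≤ m ^ (1 / 6 : ℝ) := Real.rpow_nonneg hm0 _
    have hg0 : 0 ≤ g := by rw [hg]; positivity
    have e1 : g * m = m ^ (1 : ℝ) + m ^ (7 / 6 : ℝ) := by
      rw [hg, add_mul, one_mul, Real.rpow_one]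
      congr 1
      rcases hm0.eq_or_lt with h0 | h0
      · rw [← h0, mul_zero, Real.zero_rpow (by norm_num)]
      · nth_rewrite 2 [← Real.rpow_one m]
        rw [← Real.rpow_add h0]
        norm_num
    have e2 : g ^ 2 ≤ 2 + 2 * m ^ (1 / 3 : ℝ) := by
      have e3 : m ^ (1 / 3 : ℝ) = (m ^ (1 / 6 : ℝ)) ^ 2 := by
        rw [← Real.rpow_natCast, ← Real.rpow_mul hm0]
        norm_num
      rw [e3, hg]
      nlinarith [sq_nonneg (1 - m ^ (1 / 6 : ℝ))]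
    have h32 : ce p x 32 ≤ m := by rw [hm]; exact mm_lo hθ x p
    have hc14 : ce p x 14 ≤ m := (ce_mono p (by rw [sub_self, norm_zero]; norm_num)).trans h32
    have hcc := (ht2 n k p x).2
    have hone : ∀ c ∈ t, g * cn p (x + c) 1 ≤ C2 * (ε * (∑ l ∈ range (n + 1),
        ∫ v in Metric.ball (x + c) 12, Gs θ (x + c) l p ^ 2 * uh χ (sc l) W z p v ^ 2) +
        3 * (ε⁻¹ * V6 * (2 + 2 * m ^ (1 / 3 : ℝ)) + g * m)) := by
      intro c hc
      have h1 := fn_pt hχ hθ hC2 z W (x + c) p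
        (fun s hs hs1 => hnc n k z (fun j => (hG.hz j).1) W p (x + c) s hs hs1) g ε hg0 hε0
      refine h1.trans (mul_le_mul_of_nonneg_left ?_ hC2)
      rw [← hV6]
      have h2 : ce p (x + c) 7 ≤ m := by
        refine (ce_mono p ?_).trans h32
        rw [add_sub_cancel_left]
        have := ht1 c hc
        linarith
      have h3 : ε⁻¹ * V6 * g ^ 2 ≤ ε⁻¹ * V6 * (2 + 2 * m ^ (1 / 3 : ℝ)) :=
        mul_le_mul_of_nonneg_left e2 (by positivity)
      have h4 := mul_le_mul_of_nonneg_left h2 hg0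
      linarith
    have hsum := sum_le_sum hone
    rw [← mul_sum, ← mul_sum, sum_add_distrib, ← mul_sum, sum_const, nsmul_eq_mul] at hsum
    have h5 : g * (ce p x 14 + cn p x 14) ≤ g * m + g * ∑ c ∈ t, cn p (x + c) 1 := by
      have h6 := mul_le_mul_of_nonneg_left hc14 hg0
      have h7 := mul_le_mul_of_nonneg_left hcc hg0
      linarith
    rw [← hm, ← hg]
    refine h5.trans ((add_le_add le_rfl hsum).trans (le_of_eq ?_))
    rw [ha1, ha2, hT, e1]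
    ring
  -- the means
  have IL : IM ψ (fun p => (1 + mm θ x p ^ (1 / 6 : ℝ)) * (ce p x 14 + cn p x 14)) := by
    refine IM.bdd hψ ?_ ((1 + (n : ℝ) ^ (1 / 6 : ℝ)) * (n + k)) fun p => ?_
    · exact (measurable_const.add ((mm_smooth hθ x).continuous.measurable.pow_const _)).mul
        ((ce_meas x 14).add (cn_meas x 14))
    · have h1 := fn_mm0 θ x p
      have h2 : mm θ x p ≤ n := (mm_hi hθ x p).trans (ce_le p x 64)
      have h3 : mm θ x p ^ (1 / 6 : ℝ) ≤ (n : ℝ) ^ (1 / 6 : ℝ) :=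
        Real.rpow_le_rpow h1 h2 (by norm_num)
      have h4 : 0 ≤ mm θ x p ^ (1 / 6 : ℝ) := Real.rpow_nonneg h1 _
      have h5 := ce_le p x 14
      have h6 := cn_le p x 14
      have h7 := ce_nonneg p x 14
      have h8 := cn_nonneg p x 14
      rw [abs_of_nonneg (by positivity)]
      exact mul_le_mul (by linarith) (by linarith) (by positivity) (by positivity)
  have J4 := (I0.cmul a2).add (IQ.cmul (C2 * ε))
  have J3 := (I3.cmul a2).add J4
  have J2 := (I2.cmul a1).add J3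
  have J1 := (I1.cmul a1).add J2
  have hmean := mean_mono IL J1 fun σ p _ => hpt p
  rw [mean_add (I1.cmul a1) J2, mean_add (I2.cmul a1) J3, mean_add (I3.cmul a2) J4,
    mean_add (I0.cmul a2) (IQ.cmul (C2 * ε)), mean_cmul, mean_cmul, mean_cmul, mean_cmul,
    mean_cmul, mean_one, hG.one] at hmean
  have f1 := mul_le_mul_of_nonneg_left M1 ha10
  have f2 := mul_le_mul_of_nonneg_left M2 ha10
  have f3 := mul_le_mul_of_nonneg_left M3 ha20
  have f4 := mul_le_mul_of_nonneg_left hQ (mul_nonneg hC2 hε0.le)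
  have g1 : C2 * ε * (t.card * B) ≤ η / 2 * B := by
    have : C2 * ε * (t.card * B) = (T * ε) * B := by rw [hT]; ring
    rw [this]
    refine mul_le_mul_of_nonneg_right ?_ hB0
    rw [hε, ← mul_div_assoc, div_le_div_iff₀ (by positivity) (by positivity)]
    nlinarith
  have g2 : (2 * a1 + a2) * η' * B ≤ η / 2 * B := by
    refine mul_le_mul_of_nonneg_right ?_ hB0
    rw [hη', ← mul_div_assoc, div_le_div_iff₀ (by positivity) (by positivity)]
    nlinarith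
  have g3 : a1 * (η' * B + D1) + a1 * (η' * B + D2) + a2 * (η' * B + D3) + a2 * 1 =
      (2 * a1 + a2) * η' * B + (a1 * (D1 + D2) + a2 * (D3 + 1)) := by ring
  linarith

/-- in particular the mean number of particles in a ball -/
theorem fcnt (q : ℕ) (zm zp κm κp A : ℝ) (hzm : 0 < zm) {χ θ : E3 → ℝ} (hχ : Bump χ)
    (hθ : Cut θ) (η : ℝ) (hη : 0 < η) : ∃ C : ℝ, 0 ≤ C ∧
    ∀ (n k : ℕ) (Λ : Set E3) (z κ : Fin k → ℝ) (W : Finset E3) (E : ℝ)
    (ψ : (Fin n → Fin q) → Cfg n k → ℂ) (_ : Gd q zm zp κm κp A n k Λ z κ W E ψ)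
    (x : E3) (B : ℝ) (_ : Lb χ θ W z ψ x 100 B),
    mean ψ (fun p => ce p x 14 + cn p x 14) ≤ η * B + C := by
  obtain ⟨C, hC, H⟩ := fnuc q zm zp κm κp A hzm hχ hθ η hη
  refine ⟨C, hC, fun n k Λ z κ W E ψ hG x B hL => ?_⟩
  refine le_trans ?_ (H n k Λ z κ W E ψ hG x B hL)
  have hψ : Sm q n k Λ ψ := St_sm hG.st
  have IL : IM ψ (fun p => (1 + mm θ x p ^ (1 / 6 : ℝ)) * (ce p x 14 + cn p x 14)) := by
    refine IM.bdd hψ ?_ ((1 + (n : ℝ) ^ (1 / 6 : ℝ)) * (n + k)) fun p => ?_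
    · exact (measurable_const.add ((mm_smooth hθ x).continuous.measurable.pow_const _)).mul
        ((ce_meas x 14).add (cn_meas x 14))
    · have h1 := fn_mm0 θ x p
      have h2 : mm θ x p ≤ n := (mm_hi hθ x p).trans (ce_le p x 64)
      have h3 : mm θ x p ^ (1 / 6 : ℝ) ≤ (n : ℝ) ^ (1 / 6 : ℝ) :=
        Real.rpow_le_rpow h1 h2 (by norm_num)
      have h4 : 0 ≤ mm θ x p ^ (1 / 6 : ℝ) := Real.rpow_nonneg h1 _
      have h5 := ce_le p x 14
      have h6 := cn_le p x 14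
      have h7 := ce_nonneg p x 14
      have h8 := cn_nonneg p x 14
      rw [abs_of_nonneg (by positivity)]
      exact mul_le_mul (by linarith) (by linarith) (by positivity) (by positivity)
  refine mean_mono ((IM_ce hψ x 14).add (IM_cn hψ x 14)) IL fun σ p _ => ?_
  have h4 : 0 ≤ mm θ x p ^ (1 / 6 : ℝ) := Real.rpow_nonneg (fn_mm0 θ x p) _
  have h7 := ce_nonneg p x 14
  have h8 := cn_nonneg p x 14
  nlinarith

end H6.CB
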