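import Pool.Agent.H6.CB.FDefs
import Pool.Agent.H6.CB.Lt53
import Pool.Agent.H6.CB.MmF

/-! One sector of `SS`. `te_int`: `∫ v in ball x 12, 1[‖y - v‖ < r] ≤ (4 π / 3) r ^ 3` and it vanishes unless `‖y - x‖ < 14` (Fubini; `ge (Φ σ) a` is integrable). `ss_one`: write `s = sc l`, `Φ = mf (Gs θ x l) ψ` (a wave function: `mf_st`, `Gs_smooth`, `Gs_sy`). For `v` in the ball of radius `12` and `Gs θ x l p ≠ 0` one has `ce p v (7 s) ≤ ce p x 32 ≤ mm θ x p < 64 ^ (l+1)` (`gl_hi`, `mm_lo`), so `ce ^ 2 ≤ 4 ^ (l+1) * ce ^ (5/3)`; apply `lt53` to `Φ` at `v` with `7 s`, integrate over `v` (`te_int`; `∫ v in ball x 12, ce p v r ≤ (4 π / 3) r ^ 3 * ce p x 14` for `r ≤ 2`; `mean_mf`, `mean_ball`) and collect the powers of two: `(s ^ 2)⁻¹ * 4 ^ (l+1) = 256 * 16 ^ l`, `16 ^ l * s ^ 5 ≤ (2 ^ l)⁻¹`, `16 ^ l * s ^ 3 ≤ 2 ^ l`. -/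

open MeasureTheory Finset

namespace H6.CB

open H6.CM

private theorem fsa_vol (u : E3) (r : ℝ) (hr : 0 < r) :
    (volume : Measure E3).real (Metric.ball u r) =
      r ^ 3 * (volume : Measure E3).real (Metric.ball (0 : E3) 1) := by
  have hdim : Module.finrank ℝ E3 = 3 := by simp
  rw [Measure.real, Measure.addHaar_ball _ _ hr.le, hdim, ENNReal.toReal_mul,
    ENNReal.toReal_ofReal (by positivity)]
  rfl

private theorem fsa_pt (y x : E3) (r : ℝ) (hr : 0 < r) (hr2 : r ≤ 2) :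
    ∫ v in Metric.ball x 12, (if ‖y - v‖ < r then (1 : ℝ) else 0) ≤
      (volume : Measure E3).real (Metric.ball (0 : E3) 1) * r ^ 3 *
        (if ‖y - x‖ < 14 then 1 else 0) := by
  have hind : ∀ v : E3, (if ‖y - v‖ < r then (1 : ℝ) else 0) =
      (Metric.ball y r).indicator (fun _ => (1 : ℝ)) v := by
    intro v
    by_cases h : ‖y - v‖ < r
    · rw [if_pos h, Set.indicator_of_mem]
      rw [Metric.mem_ball, dist_eq_norm, norm_sub_rev]
      exact h
    · rw [if_neg h, Set.indicator_of_notMem]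
      rw [Metric.mem_ball, dist_eq_norm, norm_sub_rev]
      exact h
  by_cases h : ‖y - x‖ < 14
  · rw [if_pos h, mul_one]
    simp only [hind]
    have hint : Integrable ((Metric.ball y r).indicator (fun _ => (1 : ℝ))) := by
      have : IntegrableOn (fun _ => (1 : ℝ)) (Metric.ball y r) :=
        integrableOn_const (hs := measure_ball_lt_top.ne)
      exact this.integrable_indicator Metric.isOpen_ball.measurableSet
    calc ∫ v in Metric.ball x 12, (Metric.ball y r).indicator (fun _ => (1 : ℝ)) v ≤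
        ∫ v, (Metric.ball y r).indicator (fun _ => (1 : ℝ)) v := by
          apply setIntegral_le_integral hint
          exact Filter.Eventually.of_forall fun v =>
            Set.indicator_nonneg (fun _ _ => zero_le_one) v
      _ = (volume : Measure E3).real (Metric.ball y r) := by
          rw [integral_indicator Metric.isOpen_ball.measurableSet, setIntegral_const, smul_eq_mul,
            mul_one]
      _ = _ := by rw [fsa_vol y r hr, mul_comm]
  · rw [if_neg h, mul_zero]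
    apply le_of_eq
    rw [setIntegral_eq_zero_of_forall_eq_zero]
    intro v hv
    rw [if_neg]
    intro hlt
    apply h
    rw [Metric.mem_ball, dist_eq_norm] at hv
    calc ‖y - x‖ ≤ ‖y - v‖ + ‖v - x‖ := norm_sub_le_norm_sub_add_norm_sub _ _ _
      _ < 14 := by linarith

/-- Fubini for one electron and one spin configuration -/
private theorem fsa_one {n k : ℕ} (g : Cfg n k → ℝ) (hg0 : ∀ p, 0 ≤ g p) (hg : Integrable g)
    (a : Fin n) (x : E3) (r : ℝ) (hr : 0 < r) (hr2 : r ≤ 2) :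
    IntegrableOn (fun v => ∫ p : Cfg n k, (if ‖p.1 a - v‖ < r then g p else 0))
      (Metric.ball x 12) ∧
    ∫ v in Metric.ball x 12, (∫ p : Cfg n k, (if ‖p.1 a - v‖ < r then g p else 0)) ≤
      (volume : Measure E3).real (Metric.ball (0 : E3) 1) * r ^ 3 *
        ∫ p : Cfg n k, (if ‖p.1 a - x‖ < 14 then g p else 0) := by
  set κ : ℝ := (volume : Measure E3).real (Metric.ball (0 : E3) 1) with hκ
  have hκ0 : 0 ≤ κ := measureReal_nonneg
  have hmset : MeasurableSet {u : Cfg n k × E3 | ‖u.1.1 a - u.2‖ < r} := by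
    apply measurableSet_lt _ measurable_const
    exact (((meas_e a).comp measurable_fst).sub measurable_snd).norm
  have hrest : IsFiniteMeasure ((volume : Measure E3).restrict (Metric.ball x 12)) :=
    ⟨by rw [Measure.restrict_apply_univ]; exact measure_ball_lt_top⟩
  have hF : Integrable (fun u : Cfg n k × E3 => if ‖u.1.1 a - u.2‖ < r then g u.1 else 0)
      ((volume : Measure (Cfg n k)).prod ((volume : Measure E3).restrict (Metric.ball x 12))) := by
    have h1 : Integrable (fun u : Cfg n k × E3 => g u.1)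
        ((volume : Measure (Cfg n k)).prod ((volume : Measure E3).restrict (Metric.ball x 12))) :=
      hg.comp_fst _
    have h2 := h1.indicator hmset
    refine h2.congr (Filter.Eventually.of_forall fun u => ?_)
    simp only [Set.indicator_apply, Set.mem_ofPred_eq]
  refine ⟨hF.integral_prod_right, ?_⟩
  rw [← integral_integral_swap hF]
  rw [← integral_const_mul]
  have hg14 : Integrable (fun p : Cfg n k => κ * r ^ 3 * (if ‖p.1 a - x‖ < 14 then g p else 0)) := by
    apply Integrable.const_mul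
    have hm : MeasurableSet {p : Cfg n k | ‖p.1 a - x‖ < 14} :=
      measurableSet_lt ((meas_e a).sub_const x).norm measurable_const
    refine (hg.indicator hm).congr (Filter.Eventually.of_forall fun p => ?_)
    simp only [Set.indicator_apply, Set.mem_ofPred_eq]
  refine integral_mono_of_nonneg (Filter.Eventually.of_forall fun p => ?_) hg14
    (Filter.Eventually.of_forall fun p => ?_)
  · simp only [Pi.zero_apply]
    refine integral_nonneg fun v => ?_
    simp only [Pi.zero_apply]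
    split_ifs
    · exact hg0 p
    · exact le_rfl
  · simp only
    have h1 : ∀ v : E3, (if ‖p.1 a - v‖ < r then g p else 0) =
        g p * (if ‖p.1 a - v‖ < r then (1 : ℝ) else 0) := by
      intro v
      split_ifs
      · rw [mul_one]
      · rw [mul_zero]
    simp only [h1]
    rw [integral_const_mul]
    have h2 := mul_le_mul_of_nonneg_left (fsa_pt (p.1 a) x r hr hr2) (hg0 p)
    refine h2.trans (le_of_eq ?_)
    split_ifs
    · ring
    · ring

theorem te_int : ∃ C : ℝ, 0 ≤ C ∧ ∀ (q n k : ℕ) (Λ : Set E3)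
    (Φ : (Fin n → Fin q) → Cfg n k → ℂ) (_ : Sm q n k Λ Φ) (x : E3) (r : ℝ) (_ : 0 < r)
    (_ : r ≤ 2), IntegrableOn (fun v => TE Φ v r) (Metric.ball x 12) ∧
    ∫ v in Metric.ball x 12, TE Φ v r ≤ C * r ^ 3 * TE Φ x 14 := by
  refine ⟨(volume : Measure E3).real (Metric.ball (0 : E3) 1), measureReal_nonneg, ?_⟩
  intro q n k Λ Φ hΦ x r hr hr2
  have h1 : ∀ (a : Fin n) (σ : Fin n → Fin q), _ := fun a σ =>
    fsa_one (ge (Φ σ) a) (fun p => ge_nonneg _ _ _) (kE_int hΦ σ a) a x r hr hr2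
  unfold TE
  refine ⟨integrable_finsetSum _ fun a _ => integrable_finsetSum _ fun σ _ => (h1 a σ).1, ?_⟩
  rw [integral_finsetSum _ fun a _ => integrable_finsetSum _ fun σ _ => (h1 a σ).1]
  rw [mul_sum]
  refine sum_le_sum fun a _ => ?_
  rw [integral_finsetSum _ fun σ _ => (h1 a σ).1, mul_sum]
  exact sum_le_sum fun σ _ => (h1 a σ).2


private theorem fsa_meas {n k : ℕ} (r : ℝ) :
    Measurable (fun u : Cfg n k × E3 => ce u.1 u.2 r) := by
  unfold ce
  refine Finset.measurable_fun_sum _ fun a _ => ?_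
  have hmset : MeasurableSet {u : Cfg n k × E3 | ‖u.1.1 a - u.2‖ < r} := by
    apply measurableSet_lt _ measurable_const
    exact (((meas_e a).comp measurable_fst).sub measurable_snd).norm
  exact Measurable.ite hmset measurable_const measurable_const

/-- the expectation of the local count, integrated over the ball -/
private theorem fsa_cnt {q n k : ℕ} {Λ : Set E3} {Φ : (Fin n → Fin q) → Cfg n k → ℂ}
    (h : Sm q n k Λ Φ) (x : E3) (r : ℝ) (hr : 0 < r) (hr2 : r ≤ 2) :
    IntegrableOn (fun v => mean Φ (fun p => ce p v r)) (Metric.ball x 12) ∧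
    ∫ v in Metric.ball x 12, mean Φ (fun p => ce p v r) ≤
      (volume : Measure E3).real (Metric.ball (0 : E3) 1) * r ^ 3 *
        mean Φ (fun p => ce p x 14) := by
  obtain ⟨h1, _, h3⟩ := mean_ball h x 12 (F := fun v p => ce p v r) (fsa_meas r)
    (G := fun _ => (n : ℝ)) continuous_const fun v _ p => by
      rw [abs_of_nonneg (ce_nonneg p v r)]
      exact ce_le p v r
  refine ⟨h1, ?_⟩
  rw [h3, ← mean_cmul]
  refine mean_mono0 (fun p => integral_nonneg fun v => ce_nonneg p v r) ((IM_ce h x 14).cmul _)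
    fun σ p _ => ?_
  unfold ce
  rw [integral_finsetSum, mul_sum]
  · exact sum_le_sum fun a _ => fsa_pt (p.1 a) x r hr hr2
  · intro a _
    have hms : Measurable (fun v : E3 => if ‖p.1 a - v‖ < r then (1 : ℝ) else 0) := by
      have : MeasurableSet {v : E3 | ‖p.1 a - v‖ < r} :=
        measurableSet_lt (measurable_const.sub measurable_id).norm measurable_const
      exact Measurable.ite this measurable_const measurable_const
    have hfin : IsFiniteMeasure ((volume : Measure E3).restrict (Metric.ball x 12)) :=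
      ⟨by rw [Measure.restrict_apply_univ]; exact measure_ball_lt_top⟩
    refine Integrable.of_bound hms.aestronglyMeasurable 1 (Filter.Eventually.of_forall fun v => ?_)
    split_ifs
    · simp
    · simp

private theorem fsa_num (l : ℕ) :
    (sc l ^ 2)⁻¹ * 4 ^ (l + 1) * ((7 * sc l) ^ 2 * (14 * sc l) ^ 3) ≤
      256 * 49 * 2744 * ((2 : ℝ) ^ l)⁻¹ ∧
    (sc l ^ 2)⁻¹ * 4 ^ (l + 1) * (14 * sc l) ^ 3 ≤ 256 * 49 * 2744 * 2 ^ l := by
  unfold sc
  set t : ℝ := (2 : ℝ) ^ l with ht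
  have ht0 : 1 ≤ t := one_le_pow₀ (by norm_num)
  have e1 : (2 : ℝ) ^ (l + 3) = 8 * t := by
    rw [ht, pow_add]
    ring
  have e2 : (4 : ℝ) ^ (l + 1) = 4 * t ^ 2 := by
    rw [ht, ← pow_mul, mul_comm l 2, pow_mul, pow_succ]
    norm_num
    ring
  rw [e1, e2]
  have ht1 : t ≠ 0 := by linarith
  constructor
  · have : ((8 * t)⁻¹ ^ 2)⁻¹ * (4 * t ^ 2) * ((7 * (8 * t)⁻¹) ^ 2 * (14 * (8 * t)⁻¹) ^ 3) =
        (256 * 49 * 2744 / 32768) * t⁻¹ := by
      field_simp
      ring
    rw [this]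
    apply mul_le_mul_of_nonneg_right _ (by positivity)
    norm_num
  · have : ((8 * t)⁻¹ ^ 2)⁻¹ * (4 * t ^ 2) * (14 * (8 * t)⁻¹) ^ 3 =
        (256 * 2744 / 512) * t := by
      field_simp
      ring
    rw [this]
    apply mul_le_mul_of_nonneg_right _ (by positivity)
    norm_num

theorem ss_one (q : ℕ) {θ : E3 → ℝ} (hθ : Cut θ) : ∃ C : ℝ, 0 ≤ C ∧
    ∀ (n k : ℕ) (Λ : Set E3) (ψ : (Fin n → Fin q) → Cfg n k → ℂ) (_ : St q n k Λ ψ) (x : E3)
    (l : ℕ),
    ∫ v in Metric.ball x 12,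
      mean ψ (fun p => Gs θ x l p ^ 2 * ((sc l ^ 2)⁻¹ * ce p v (7 * sc l) ^ 2)) ≤
    C * (((2 : ℝ) ^ l)⁻¹ * TE (mf (Gs θ x l) ψ) x 14 +
      2 ^ l * mean ψ (fun p => Gs θ x l p ^ 2 * ce p x 14)) := by
  obtain ⟨C1, hC1, hlt⟩ := lt53 q
  obtain ⟨C2, hC2, hte⟩ := te_int
  set κ : ℝ := (volume : Measure E3).real (Metric.ball (0 : E3) 1) with hκ
  have hκ0 : 0 ≤ κ := measureReal_nonneg
  refine ⟨C1 * (C2 + κ) * (256 * 49 * 2744), by positivity, fun n k Λ ψ hψ x l => ?_⟩
  have hs0 : 0 < sc l := by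
    unfold sc
    positivity
  have hs1 : sc l ≤ 1 / 8 := by
    unfold sc
    rw [inv_eq_one_div]
    apply one_div_le_one_div_of_le (by norm_num)
    calc (8 : ℝ) = 2 ^ 3 := by norm_num
      _ ≤ 2 ^ (l + 3) := pow_le_pow_right₀ (by norm_num) (by omega)
  have hΦ : St q n k Λ (mf (Gs θ x l) ψ) := mf_st hψ (Gs_smooth hθ x l) (Gs_sy x l)
  have hΦs := St_sm hΦ
  set Φ := mf (Gs θ x l) ψ with hΦd
  have hA0 : 0 ≤ (sc l ^ 2)⁻¹ * 4 ^ (l + 1) := by positivity
  -- pointwise bound in `v`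
  have hpt : ∀ v ∈ Metric.ball x 12,
      mean ψ (fun p => Gs θ x l p ^ 2 * ((sc l ^ 2)⁻¹ * ce p v (7 * sc l) ^ 2)) ≤
      (sc l ^ 2)⁻¹ * 4 ^ (l + 1) * (C1 * ((7 * sc l) ^ 2 * TE Φ v (14 * sc l) +
        mean Φ (fun p => ce p v (14 * sc l)))) := by
    intro v hv
    rw [Metric.mem_ball, dist_eq_norm] at hv
    rw [← mean_mf (ψ := ψ) (Gs θ x l) (fun p => (sc l ^ 2)⁻¹ * ce p v (7 * sc l) ^ 2), ← hΦd]
    have h53 : IM Φ (fun p => ce p v (7 * sc l) ^ (5 / 3 : ℝ)) := by
      refine IM.bdd hΦs ((ce_meas v _).pow_const _) ((n : ℝ) ^ (5 / 3 : ℝ)) fun p => ?_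
      rw [abs_of_nonneg (Real.rpow_nonneg (ce_nonneg _ _ _) _)]
      exact Real.rpow_le_rpow (ce_nonneg _ _ _) (ce_le _ _ _) (by norm_num)
    have h1 : mean Φ (fun p => (sc l ^ 2)⁻¹ * ce p v (7 * sc l) ^ 2) ≤
        mean Φ (fun p => (sc l ^ 2)⁻¹ * 4 ^ (l + 1) * ce p v (7 * sc l) ^ (5 / 3 : ℝ)) := by
      refine mean_mono0 (fun p => by positivity) (h53.cmul _) fun σ p hp => ?_
      have hg : Gs θ x l p ≠ 0 := (mf_ne hp).1
      have hc : ce p v (7 * sc l) < 64 ^ (l + 1) := by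
        have h2 : ce p v (7 * sc l) ≤ ce p x 32 := ce_mono p (by linarith)
        exact lt_of_le_of_lt (h2.trans (mm_lo hθ x p)) (gl_hi l _ hg)
      have hc0 := ce_nonneg p v (7 * sc l)
      have h3 : ce p v (7 * sc l) ^ 2 ≤ 4 ^ (l + 1) * ce p v (7 * sc l) ^ (5 / 3 : ℝ) := by
        have h4 : ce p v (7 * sc l) ^ (1 / 3 : ℝ) ≤ 4 ^ (l + 1) := by
          calc ce p v (7 * sc l) ^ (1 / 3 : ℝ) ≤ ((64 : ℝ) ^ (l + 1)) ^ (1 / 3 : ℝ) :=
                Real.rpow_le_rpow hc0 hc.le (by norm_num)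
            _ = 4 ^ (l + 1) := by
                have : (64 : ℝ) ^ (l + 1) = ((4 : ℝ) ^ (l + 1)) ^ (3 : ℝ) := by
                  rw [Real.rpow_ofNat, ← pow_mul, mul_comm, pow_mul]
                  norm_num
                rw [this, ← Real.rpow_mul (by positivity)]
                norm_num
        have h5 : ce p v (7 * sc l) ^ 2 =
            ce p v (7 * sc l) ^ (1 / 3 : ℝ) * ce p v (7 * sc l) ^ (5 / 3 : ℝ) := by
          rcases eq_or_lt_of_le hc0 with h6 | h6
          · rw [← h6, Real.zero_rpow (by norm_num)]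
            norm_num
          · rw [← Real.rpow_add h6]
            norm_num
        rw [h5]
        exact mul_le_mul_of_nonneg_right h4 (Real.rpow_nonneg hc0 _)
      calc (sc l ^ 2)⁻¹ * ce p v (7 * sc l) ^ 2 ≤
          (sc l ^ 2)⁻¹ * (4 ^ (l + 1) * ce p v (7 * sc l) ^ (5 / 3 : ℝ)) :=
            mul_le_mul_of_nonneg_left h3 (by positivity)
        _ = _ := by ring
    refine h1.trans ?_
    rw [mean_cmul]
    apply mul_le_mul_of_nonneg_left _ hA0
    have h7 := hlt n k Λ Φ hΦ v (7 * sc l) (by positivity)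
    have e : 2 * (7 * sc l) = 14 * sc l := by ring
    rw [e] at h7
    exact h7
  obtain ⟨t1, t2⟩ := hte q n k Λ Φ hΦs x (14 * sc l) (by positivity) (by linarith)
  obtain ⟨c1, c2⟩ := fsa_cnt hΦs x (14 * sc l) (by positivity) (by linarith)
  have hint : IntegrableOn (fun v => (sc l ^ 2)⁻¹ * 4 ^ (l + 1) *
      (C1 * ((7 * sc l) ^ 2 * TE Φ v (14 * sc l) + mean Φ (fun p => ce p v (14 * sc l)))))
      (Metric.ball x 12) := (((t1.const_mul _).add c1).const_mul _).const_mul _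
  have hle : ∫ v in Metric.ball x 12,
      mean ψ (fun p => Gs θ x l p ^ 2 * ((sc l ^ 2)⁻¹ * ce p v (7 * sc l) ^ 2)) ≤
      ∫ v in Metric.ball x 12, (sc l ^ 2)⁻¹ * 4 ^ (l + 1) *
      (C1 * ((7 * sc l) ^ 2 * TE Φ v (14 * sc l) + mean Φ (fun p => ce p v (14 * sc l)))) := by
    refine integral_mono_of_nonneg (Filter.Eventually.of_forall fun v => ?_) hint ?_
    · exact mean_nonneg fun _ _ _ => by positivity
    · exact (ae_restrict_iff' Metric.isOpen_ball.measurableSet).2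
        (Filter.Eventually.of_forall hpt)
  refine hle.trans ?_
  rw [integral_const_mul, integral_const_mul, integral_add (t1.const_mul _) c1,
    integral_const_mul]
  have hT0 : 0 ≤ TE Φ x 14 := TE_nonneg _ _ _
  have hm0 : 0 ≤ mean Φ (fun p => ce p x 14) := mean_nonneg fun _ _ _ => ce_nonneg _ _ _
  have hmm : mean Φ (fun p => ce p x 14) = mean ψ (fun p => Gs θ x l p ^ 2 * ce p x 14) := by
    rw [hΦd, mean_mf]
  obtain ⟨n1, n2⟩ := fsa_num l
  calc (sc l ^ 2)⁻¹ * 4 ^ (l + 1) * (C1 * ((7 * sc l) ^ 2 *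
        (∫ v in Metric.ball x 12, TE Φ v (14 * sc l)) +
        ∫ v in Metric.ball x 12, mean Φ (fun p => ce p v (14 * sc l)))) ≤
      (sc l ^ 2)⁻¹ * 4 ^ (l + 1) * (C1 * ((7 * sc l) ^ 2 *
        (C2 * (14 * sc l) ^ 3 * TE Φ x 14) +
        κ * (14 * sc l) ^ 3 * mean Φ (fun p => ce p x 14))) := by
        gcongr
    _ = C1 * C2 * TE Φ x 14 *
          ((sc l ^ 2)⁻¹ * 4 ^ (l + 1) * ((7 * sc l) ^ 2 * (14 * sc l) ^ 3)) +
        C1 * κ * mean Φ (fun p => ce p x 14) *
          ((sc l ^ 2)⁻¹ * 4 ^ (l + 1) * (14 * sc l) ^ 3) := by ring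
    _ ≤ C1 * C2 * TE Φ x 14 * (256 * 49 * 2744 * ((2 : ℝ) ^ l)⁻¹) +
        C1 * κ * mean Φ (fun p => ce p x 14) * (256 * 49 * 2744 * 2 ^ l) := by
        gcongr
    _ ≤ C1 * (C2 + κ) * (256 * 49 * 2744) * (((2 : ℝ) ^ l)⁻¹ * TE Φ x 14 +
      2 ^ l * mean Φ (fun p => ce p x 14)) := by
        have e1 : 0 ≤ C1 * κ * (256 * 49 * 2744) * (((2 : ℝ) ^ l)⁻¹ * TE Φ x 14) := by positivity
        have e2 : 0 ≤ C1 * C2 * (256 * 49 * 2744) *
            ((2 : ℝ) ^ l * mean Φ (fun p => ce p x 14)) := by positivity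
        nlinarith [e1, e2]
    _ = _ := by rw [hmm]

end H6.CB
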