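import Pool.Agent.H6.CB.FDefs
import Pool.Agent.H6.CB.MmF

/-! Kinetic energy of the sectors: `|∇_a (G ψ)|² ≤ 2 G² |∇_a ψ|² + 2 |∇_a G|² |ψ|²`, `∑ a, |∇_a G|² = Gm 0 (Gs θ x l) p ≤ C 64⁻ˡ Gs` (`Gs_grad` with `κ = 0`), `∑ l, Gs ^ 2 ≤ ∑ l, Gs ≤ 3` (`Gs_sum_le`, `Gs_mem`), `∑ 64⁻ˡ ≤ 2`, and `(2 ^ l)⁻¹ ≤ (2 ^ L0)⁻¹` for `L0 ≤ l`. -/

open MeasureTheory Finset

namespace H6.CB

open H6.CM

private theorem fsb_upE {n k : ℕ} {α : Type*} [NormedAddCommGroup α] [NormedSpace ℝ α]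
    (F : Cfg n k → α) (hF : Differentiable ℝ F) (q : Cfg n k) (b : Fin n) (v : E3) :
    DifferentiableAt ℝ (fun v => F (Function.update q.1 b v, q.2)) v := by
  have h1 : DifferentiableAt ℝ (fun v : E3 => ((Function.update q.1 b v, q.2) : Cfg n k)) v :=
    ((hasFDerivAt_update q.1 v).differentiableAt).prodMk (differentiableAt_const _)
  exact (hF _).comp v h1

private theorem fsb_comb (a s : ℝ) (f g : ℂ) :
    ‖(a : ℂ) * f + (s : ℂ) * g‖ ^ 2 ≤ 2 * s ^ 2 * ‖g‖ ^ 2 + 2 * a ^ 2 * ‖f‖ ^ 2 := by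
  have h1 := norm_add_le ((a : ℂ) * f) ((s : ℂ) * g)
  rw [norm_mul, norm_mul, Complex.norm_real, Complex.norm_real, Real.norm_eq_abs,
    Real.norm_eq_abs] at h1
  have h2 : ‖(a : ℂ) * f + (s : ℂ) * g‖ ^ 2 ≤ (|a| * ‖f‖ + |s| * ‖g‖) ^ 2 :=
    pow_le_pow_left₀ (norm_nonneg _) h1 2
  have h3 : (|a| * ‖f‖) ^ 2 = a ^ 2 * ‖f‖ ^ 2 := by rw [mul_pow, sq_abs]
  have h4 : (|s| * ‖g‖) ^ 2 = s ^ 2 * ‖g‖ ^ 2 := by rw [mul_pow, sq_abs]
  nlinarith [sq_nonneg (|a| * ‖f‖ - |s| * ‖g‖)]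

private theorem fsb_g3 (s : E3 → ℝ) (f : E3 → ℂ) (v : E3) (hs : DifferentiableAt ℝ s v)
    (hf : DifferentiableAt ℝ f v) :
    g3 (fun u => ((s u : ℝ) : ℂ) * f u) v ≤ 2 * s v ^ 2 * g3 f v + 2 * gr s v * ‖f v‖ ^ 2 := by
  have hd : ∀ e : E3, fderiv ℝ (fun u => ((s u : ℝ) : ℂ) * f u) v e =
      ((fderiv ℝ s v e : ℝ) : ℂ) * f v + ((s v : ℝ) : ℂ) * fderiv ℝ f v e := by
    intro e
    have h1 : HasFDerivAt (fun u => ((s u : ℝ) : ℂ)) (Complex.ofRealCLM.comp (fderiv ℝ s v)) v :=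
      Complex.ofRealCLM.hasFDerivAt.comp v hs.hasFDerivAt
    have h2 := h1.mul hf.hasFDerivAt
    have h3 : HasFDerivAt (fun u => ((s u : ℝ) : ℂ) * f u) _ v := h2
    rw [h3.fderiv]
    simp only [add_apply, smul_apply, smul_eq_mul,
      ContinuousLinearMap.comp_apply, Complex.ofRealCLM_apply]
    ring
  unfold g3 gr
  rw [mul_sum, mul_sum, sum_mul, ← sum_add_distrib]
  refine sum_le_sum fun d _ => ?_
  rw [hd]
  exact fsb_comb _ _ _ _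

private theorem fsb_ge {q n k : ℕ} {Λ : Set E3} {ψ : (Fin n → Fin q) → Cfg n k → ℂ}
    (hψ : Sm q n k Λ ψ) {g : Cfg n k → ℝ} (hg : ContDiff ℝ (⊤ : ℕ∞) g) (σ : Fin n → Fin q)
    (a : Fin n) (p : Cfg n k) :
    ge (mf g ψ σ) a p ≤ 2 * g p ^ 2 * ge (ψ σ) a p +
      2 * gr (fun v => g (Function.update p.1 a v, p.2)) (p.1 a) * ‖ψ σ p‖ ^ 2 := by
  have h1 := fsb_g3 (fun v => g (Function.update p.1 a v, p.2))
    (fun v => ψ σ (Function.update p.1 a v, p.2)) (p.1 a)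
    (fsb_upE g (hg.differentiable (by simp)) p a (p.1 a))
    (fsb_upE (ψ σ) ((hψ.smooth σ).differentiable (by simp)) p a (p.1 a))
  simp only [Function.update_eq_self] at h1
  exact h1

private theorem fsb_int {n k : ℕ} {g : Cfg n k → ℝ} (hg : Integrable g) (a : Fin n) (y : E3)
    (r : ℝ) : Integrable (fun p : Cfg n k => if ‖p.1 a - y‖ < r then g p else 0) := by
  have hm : MeasurableSet {p : Cfg n k | ‖p.1 a - y‖ < r} :=
    measurableSet_lt ((meas_e a).sub_const y).norm measurable_const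
  refine (hg.indicator hm).congr (Filter.Eventually.of_forall fun p => ?_)
  by_cases hp : ‖p.1 a - y‖ < r
  · simp [hp]
  · simp [hp]

/-- the kinetic energy of one sector -/
private theorem fsb_one {θ : E3 → ℝ} (hθ : Cut θ) {C : ℝ}
    (hC : ∀ (n k : ℕ) (κ : Fin k → ℝ) (x : E3)
    (l : ℕ) (p : Cfg n k), Gm κ (Gs θ x l) p ≤ C * ((64 : ℝ) ^ l)⁻¹ * Gs θ x l p) (hC0 : 0 ≤ C)
    {q n k : ℕ} {Λ : Set E3} {ψ : (Fin n → Fin q) → Cfg n k → ℂ} (hψ : Sm q n k Λ ψ)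
    (hm : mass ψ = 1) (x y : E3) (r : ℝ) (l : ℕ) :
    TE (mf (Gs θ x l) ψ) y r ≤
      (∑ a, ∑ σ, ∫ p, (if ‖p.1 a - y‖ < r then 2 * Gs θ x l p * ge (ψ σ) a p else 0)) +
      2 * C * ((64 : ℝ) ^ l)⁻¹ := by
  have hgs := Gs_smooth (n := n) (k := k) hθ x l
  have i1 : ∀ (σ : Fin n → Fin q) (a : Fin n),
      Integrable (fun p : Cfg n k => if ‖p.1 a - y‖ < r then ge (mf (Gs θ x l) ψ σ) a p else 0) :=
    fun σ a => fsb_int (kE_int (mf_sm hψ hgs) σ a) a y r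
  have i2 : ∀ (σ : Fin n → Fin q) (a : Fin n),
      Integrable (fun p : Cfg n k => if ‖p.1 a - y‖ < r then 2 * Gs θ x l p * ge (ψ σ) a p else 0) := by
    intro σ a
    refine fsb_int ?_ a y r
    have c1 : ContDiff ℝ 1 (ψ σ) := (hψ.smooth σ).of_le (by exact_mod_cast le_top)
    exact ((continuous_const.mul hgs.continuous).mul (ge_cont (ψ σ) c1 a)).integrable_of_hasCompactSupport
      (ge_cpt (ψ σ) c1 (hψ.cpt σ) a).mul_left
  have i3 : ∀ σ : Fin n → Fin q, Integrable (fun p => 2 * C * ((64 : ℝ) ^ l)⁻¹ * ‖ψ σ p‖ ^ 2) :=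
    fun σ => (((Sm_sq hψ σ).1.integrable_of_hasCompactSupport (Sm_sq hψ σ).2)).const_mul _
  unfold TE
  rw [sum_comm, sum_comm (f := fun a σ => ∫ p : Cfg n k,
    (if ‖p.1 a - y‖ < r then 2 * Gs θ x l p * ge (ψ σ) a p else 0))]
  have hmass : 2 * C * ((64 : ℝ) ^ l)⁻¹ = ∑ σ, ∫ p, 2 * C * ((64 : ℝ) ^ l)⁻¹ * ‖ψ σ p‖ ^ 2 := by
    simp only [integral_const_mul]
    rw [← mul_sum]
    unfold mass at hm
    rw [hm, mul_one]
  conv_rhs => rw [hmass]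
  rw [← sum_add_distrib]
  refine sum_le_sum fun σ _ => ?_
  rw [← integral_finsetSum _ fun a _ => i1 σ a, ← integral_finsetSum _ fun a _ => i2 σ a,
    ← integral_add (integrable_finsetSum _ fun a _ => i2 σ a) (i3 σ)]
  refine integral_mono (integrable_finsetSum _ fun a _ => i1 σ a)
    ((integrable_finsetSum _ fun a _ => i2 σ a).add (i3 σ)) fun p => ?_
  obtain ⟨hG0, hG1⟩ := Gs_mem (n := n) (k := k) (θ := θ) x l p
  have h1 : ∀ a : Fin n, (if ‖p.1 a - y‖ < r then ge (mf (Gs θ x l) ψ σ) a p else 0) ≤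
      (if ‖p.1 a - y‖ < r then 2 * Gs θ x l p * ge (ψ σ) a p else 0) +
      gr (fun v => Gs θ x l (Function.update p.1 a v, p.2)) (p.1 a) * (2 * ‖ψ σ p‖ ^ 2) := by
    intro a
    have hgr := gr_nonneg (fun v => Gs θ x l (Function.update p.1 a v, p.2)) (p.1 a)
    have hn : 0 ≤ ‖ψ σ p‖ ^ 2 := sq_nonneg _
    split_ifs
    · have h2 := fsb_ge hψ hgs σ a p
      have h3 := ge_nonneg (ψ σ) a p
      have h4 : Gs θ x l p ^ 2 ≤ Gs θ x l p := by nlinarith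
      have h5 : 2 * Gs θ x l p ^ 2 * ge (ψ σ) a p ≤ 2 * Gs θ x l p * ge (ψ σ) a p :=
        mul_le_mul_of_nonneg_right (by linarith) h3
      linarith
    · have : 0 ≤ gr (fun v => Gs θ x l (Function.update p.1 a v, p.2)) (p.1 a) *
          (2 * ‖ψ σ p‖ ^ 2) := mul_nonneg hgr (by positivity)
      linarith
  have h2 : ∑ a, gr (fun v => Gs θ x l (Function.update p.1 a v, p.2)) (p.1 a) ≤
      C * ((64 : ℝ) ^ l)⁻¹ := by
    have h3 := hC n k (fun _ => 0) x l p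
    unfold Gm at h3
    simp only [zero_mul, sum_const_zero, add_zero] at h3
    refine h3.trans ?_
    exact mul_le_of_le_one_right (by positivity) hG1
  calc ∑ a, (if ‖p.1 a - y‖ < r then ge (mf (Gs θ x l) ψ σ) a p else 0)
      ≤ ∑ a, ((if ‖p.1 a - y‖ < r then 2 * Gs θ x l p * ge (ψ σ) a p else 0) +
        gr (fun v => Gs θ x l (Function.update p.1 a v, p.2)) (p.1 a) * (2 * ‖ψ σ p‖ ^ 2)) :=
        sum_le_sum fun a _ => h1 a
    _ = (∑ a, (if ‖p.1 a - y‖ < r then 2 * Gs θ x l p * ge (ψ σ) a p else 0)) +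
        (∑ a, gr (fun v => Gs θ x l (Function.update p.1 a v, p.2)) (p.1 a)) *
          (2 * ‖ψ σ p‖ ^ 2) := by
        rw [sum_add_distrib, sum_mul]
    _ ≤ (∑ a, (if ‖p.1 a - y‖ < r then 2 * Gs θ x l p * ge (ψ σ) a p else 0)) +
        (C * ((64 : ℝ) ^ l)⁻¹) * (2 * ‖ψ σ p‖ ^ 2) := by
        gcongr
    _ = _ := by ring

theorem te_gs {θ : E3 → ℝ} (hθ : Cut θ) : ∃ C : ℝ, 0 ≤ C ∧
    ∀ (q n k : ℕ) (Λ : Set E3) (ψ : (Fin n → Fin q) → Cfg n k → ℂ) (_ : Sm q n k Λ ψ)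
    (_ : mass ψ = 1) (x y : E3) (r : ℝ) (L0 : ℕ),
    ∑ l ∈ range (n + 1), (if L0 ≤ l then ((2 : ℝ) ^ l)⁻¹ * TE (mf (Gs θ x l) ψ) y r else 0) ≤
      C * ((2 : ℝ) ^ L0)⁻¹ * (TE ψ y r + 1) := by
  obtain ⟨C, hC0, hC⟩ := Gs_grad hθ
  refine ⟨6 + 4 * C, by positivity, fun q n k Λ ψ hψ hm x y r L0 => ?_⟩
  have i2 : ∀ (l : ℕ) (σ : Fin n → Fin q) (a : Fin n),
      Integrable (fun p : Cfg n k => if ‖p.1 a - y‖ < r then 2 * Gs θ x l p * ge (ψ σ) a p else 0) := by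
    intro l σ a
    refine fsb_int ?_ a y r
    have c1 : ContDiff ℝ 1 (ψ σ) := (hψ.smooth σ).of_le (by exact_mod_cast le_top)
    exact ((continuous_const.mul (Gs_smooth (n := n) (k := k) hθ x l).continuous).mul
      (ge_cont (ψ σ) c1 a)).integrable_of_hasCompactSupport
      (ge_cpt (ψ σ) c1 (hψ.cpt σ) a).mul_left
  obtain ⟨A, hA⟩ : ∃ A : ℕ → ℝ, A = fun l => ∑ a, ∑ σ, ∫ p : Cfg n k,
      (if ‖p.1 a - y‖ < r then 2 * Gs θ x l p * ge (ψ σ) a p else 0) := ⟨_, rfl⟩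
  have hA0 : ∀ l, 0 ≤ A l := by
    intro l
    rw [hA]
    refine sum_nonneg fun a _ => sum_nonneg fun σ _ => integral_nonneg fun p => ?_
    simp only [Pi.zero_apply]
    obtain ⟨hG0, _⟩ := Gs_mem (n := n) (k := k) (θ := θ) x l p
    have := ge_nonneg (ψ σ) a p
    split_ifs
    · positivity
    · exact le_rfl
  have hAs : ∑ l ∈ range (n + 1), A l ≤ 6 * TE ψ y r := by
    rw [hA]
    unfold TE
    rw [sum_comm, mul_sum]
    refine sum_le_sum fun a _ => ?_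
    rw [sum_comm, mul_sum]
    refine sum_le_sum fun σ _ => ?_
    rw [← integral_finsetSum _ fun l _ => i2 l σ a, ← integral_const_mul]
    refine integral_mono (integrable_finsetSum _ fun l _ => i2 l σ a)
      ((fsb_int (kE_int hψ σ a) a y r).const_mul 6) fun p => ?_
    have h1 := Gs_sum_le (n := n) (k := k) (θ := θ) x p n
    have h2 := ge_nonneg (ψ σ) a p
    by_cases hp : ‖p.1 a - y‖ < r
    · simp only [hp, if_true]
      rw [← sum_mul, ← mul_sum]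
      exact mul_le_mul_of_nonneg_right (by linarith) h2
    · simp [hp]
  have hB : ∑ l ∈ range (n + 1), 2 * C * ((64 : ℝ) ^ l)⁻¹ ≤ 4 * C := by
    rw [← mul_sum]
    have h1 : ∑ l ∈ range (n + 1), ((64 : ℝ) ^ l)⁻¹ ≤ 2 := by
      have h2 : ∀ m : ℕ, ∑ l ∈ range m, ((64 : ℝ) ^ l)⁻¹ ≤ 2 - 2 * ((64 : ℝ) ^ m)⁻¹ := by
        intro m
        induction m with
        | zero => norm_num
        | succ m ih =>
          rw [sum_range_succ]
          have h4 : ((64 : ℝ) ^ (m + 1))⁻¹ = ((64 : ℝ) ^ m)⁻¹ / 64 := by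
            rw [pow_succ, mul_inv]
            ring
          rw [h4]
          have h5 : 0 < ((64 : ℝ) ^ m)⁻¹ := by positivity
          linarith
      have h3 := h2 (n + 1)
      have h4 : 0 < ((64 : ℝ) ^ (n + 1))⁻¹ := by positivity
      linarith
    nlinarith
  have hT0 := TE_nonneg ψ y r
  have hstep : ∀ l ∈ range (n + 1),
      (if L0 ≤ l then ((2 : ℝ) ^ l)⁻¹ * TE (mf (Gs θ x l) ψ) y r else 0) ≤
      ((2 : ℝ) ^ L0)⁻¹ * (A l + 2 * C * ((64 : ℝ) ^ l)⁻¹) := by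
    intro l _
    have h1 := fsb_one hθ hC hC0 hψ hm x y r l
    have h2 : A l = ∑ a, ∑ σ, ∫ p : Cfg n k,
      (if ‖p.1 a - y‖ < r then 2 * Gs θ x l p * ge (ψ σ) a p else 0) := by rw [hA]
    rw [← h2] at h1
    have h3 := hA0 l
    split_ifs with hl
    · have h4 : ((2 : ℝ) ^ l)⁻¹ ≤ ((2 : ℝ) ^ L0)⁻¹ := by
        apply inv_anti₀ (by positivity)
        exact pow_le_pow_right₀ (by norm_num) hl
      have h5 := TE_nonneg (mf (Gs θ x l) ψ) y r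
      calc ((2 : ℝ) ^ l)⁻¹ * TE (mf (Gs θ x l) ψ) y r
          ≤ ((2 : ℝ) ^ L0)⁻¹ * TE (mf (Gs θ x l) ψ) y r := mul_le_mul_of_nonneg_right h4 h5
        _ ≤ _ := mul_le_mul_of_nonneg_left h1 (by positivity)
    · positivity
  refine (sum_le_sum hstep).trans ?_
  rw [← mul_sum, sum_add_distrib]
  have h6 : (0 : ℝ) < ((2 : ℝ) ^ L0)⁻¹ := by positivity
  calc ((2 : ℝ) ^ L0)⁻¹ * (∑ l ∈ range (n + 1), A l + ∑ l ∈ range (n + 1), 2 * C * ((64 : ℝ) ^ l)⁻¹)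
      ≤ ((2 : ℝ) ^ L0)⁻¹ * (6 * TE ψ y r + 4 * C) := by gcongr
    _ ≤ ((2 : ℝ) ^ L0)⁻¹ * ((6 + 4 * C) * (TE ψ y r + 1)) := by
        apply mul_le_mul_of_nonneg_left _ h6.le
        nlinarith [mul_nonneg hC0 hT0]
    _ = _ := by ring

end H6.CB
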