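import Pool.Agent.H6.CB.FSa
import Pool.Agent.H6.CB.FSb
import Pool.Agent.H6.CB.FMom

/-! The second moments of the local counts. For `l < L0`: where `Gs ≠ 0` one has `ce p v (7 * sc l) ≤ mm θ x p < 64 ^ (l+1)` for `v` in the ball of radius `12` (`gl_hi`, `mm_lo`, `ce_mono`), so the sector contributes a constant depending on `L0`. For `l ≥ L0` use `ss_one`; the first terms add up to `C (2 ^ L0)⁻¹ (TE ψ x 14 + 1)` (`te_gs`), and `TE ψ x 14 ≤ C B` (`t_cov`; `TN_nonneg`); in the second terms `2 ^ l * Gs ^ 2 * ce p x 14 ≤ 2 * Gs * (mm + mm ^ (7/6))` (`gl_lo`: `64 ^ (l-1) < mm` for `l ≥ 1`, so `2 ^ l ≤ 2 * mm ^ (1/6)`; for `l = 0` trivially), sum over `l` with `Gs_sum_le`, then `mom_mm`. Choose `L0` so large that the coefficient of `B` is at most `η / 2`. -/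

open MeasureTheory Finset

namespace H6.CB

open H6.CM

private theorem fss_scpos (l : ℕ) : 0 < sc l := by
  unfold sc
  positivity

private theorem fss_sc8 (l : ℕ) : sc l ≤ 1 / 8 := by
  unfold sc
  rw [pow_add]
  have h1 : (1 : ℝ) ≤ 2 ^ l := one_le_pow₀ (by norm_num)
  rw [inv_le_comm₀ (by positivity) (by norm_num)]
  linarith

private theorem fss_mm0 {n k : ℕ} (θ : E3 → ℝ) (x : E3) (p : Cfg n k) : 0 ≤ mm θ x p :=
  sum_nonneg fun _ _ => sq_nonneg _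

/-- the constant of the low sectors -/
private noncomputable def fssK (l : ℕ) : ℝ := (sc l ^ 2)⁻¹ * ((64 : ℝ) ^ (l + 1)) ^ 2

private theorem fssK_nonneg (l : ℕ) : 0 ≤ fssK l := by
  unfold fssK
  positivity

private theorem fss_low {q n k : ℕ} {Λ : Set E3} {θ : E3 → ℝ} (hθ : Cut θ)
    {ψ : (Fin n → Fin q) → Cfg n k → ℂ} (hψ : Sm q n k Λ ψ) (hm : mass ψ = 1) (x : E3) (l : ℕ) :
    ∫ v in Metric.ball x 12,
      mean ψ (fun p => Gs θ x l p ^ 2 * ((sc l ^ 2)⁻¹ * ce p v (7 * sc l) ^ 2)) ≤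
    (volume (Metric.ball (0 : E3) 12)).toReal * fssK l := by
  have h0 : ∀ (v : E3) (p : Cfg n k),
      0 ≤ Gs θ x l p ^ 2 * ((sc l ^ 2)⁻¹ * ce p v (7 * sc l) ^ 2) := fun v p =>
    mul_nonneg (sq_nonneg _) (mul_nonneg (inv_nonneg.2 (sq_nonneg _)) (sq_nonneg _))
  have h1 : ∀ v ∈ Metric.ball x 12,
      mean ψ (fun p => Gs θ x l p ^ 2 * ((sc l ^ 2)⁻¹ * ce p v (7 * sc l) ^ 2)) ≤ fssK l := by
    intro v hv
    rw [Metric.mem_ball, dist_eq_norm] at hv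
    have h2 : mean ψ (fun p => Gs θ x l p ^ 2 * ((sc l ^ 2)⁻¹ * ce p v (7 * sc l) ^ 2)) ≤
        mean ψ (fun _ => fssK l) := by
      refine mean_mono0 (h0 v) (IM.cont hψ continuous_const) fun σ p _ => ?_
      by_cases hg : Gs θ x l p = 0
      · rw [hg]
        simp only [ne_eq, OfNat.ofNat_ne_zero, not_false_eq_true, zero_pow, zero_mul]
        exact fssK_nonneg l
      · have h3 : mm θ x p < 64 ^ (l + 1) := gl_hi l _ hg
        have h4 : ce p v (7 * sc l) ≤ ce p x 32 := by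
          refine ce_mono p ?_
          have := fss_sc8 l
          linarith
        have h5 : ce p v (7 * sc l) ≤ 64 ^ (l + 1) := (h4.trans (mm_lo hθ x p)).trans h3.le
        obtain ⟨h6, h7⟩ := Gs_mem (θ := θ) x l p
        have h8 : Gs θ x l p ^ 2 ≤ 1 := pow_le_one₀ h6 h7
        have h9 : (sc l ^ 2)⁻¹ * ce p v (7 * sc l) ^ 2 ≤ fssK l := by
          unfold fssK
          exact mul_le_mul_of_nonneg_left (pow_le_pow_left₀ (ce_nonneg p v _) h5 2)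
            (inv_nonneg.2 (sq_nonneg _))
        calc Gs θ x l p ^ 2 * ((sc l ^ 2)⁻¹ * ce p v (7 * sc l) ^ 2) ≤ 1 * fssK l :=
              mul_le_mul h8 h9 (mul_nonneg (inv_nonneg.2 (sq_nonneg _)) (sq_nonneg _)) zero_le_one
          _ = fssK l := one_mul _
    rwa [mean_const, hm, mul_one] at h2
  have h2 : ∫ v in Metric.ball x 12,
      mean ψ (fun p => Gs θ x l p ^ 2 * ((sc l ^ 2)⁻¹ * ce p v (7 * sc l) ^ 2)) ≤
      ∫ _v in Metric.ball x 12, fssK l := by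
    refine integral_mono_of_nonneg (Filter.Eventually.of_forall fun v => ?_)
      (integrableOn_const (hs := measure_ball_lt_top.ne)) ?_
    · exact mean_nonneg fun σ p _ => h0 v p
    · exact (ae_restrict_mem Metric.isOpen_ball.measurableSet).mono fun v hv => h1 v hv
  rw [setIntegral_const, smul_eq_mul, Measure.real, Measure.addHaar_ball_center] at h2
  exact h2

/-- the pointwise bound for the high sectors -/
private theorem fss_pt {n k : ℕ} {θ : E3 → ℝ} (hθ : Cut θ) (x : E3) (l : ℕ) (p : Cfg n k) :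
    2 ^ l * (Gs θ x l p ^ 2 * ce p x 14) ≤
      Gs θ x l p * (2 * (mm θ x p ^ (1 : ℝ) + mm θ x p ^ (7 / 6 : ℝ))) := by
  obtain ⟨h6, h7⟩ := Gs_mem (θ := θ) x l p
  have hmm0 := fss_mm0 θ x p
  have hce : ce p x 14 ≤ mm θ x p := by
    refine (ce_mono p ?_).trans (mm_lo hθ x p)
    rw [sub_self, norm_zero]
    norm_num
  have hce0 := ce_nonneg p x 14
  have hG2 : Gs θ x l p ^ 2 ≤ Gs θ x l p := by
    rw [sq]
    exact mul_le_of_le_one_left h6 h7
  have h76 : 0 ≤ mm θ x p ^ (7 / 6 : ℝ) := Real.rpow_nonneg hmm0 _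
  rw [Real.rpow_one]
  have hA : Gs θ x l p ^ 2 * ce p x 14 ≤ Gs θ x l p * mm θ x p :=
    mul_le_mul hG2 hce hce0 h6
  by_cases hg : Gs θ x l p = 0
  · rw [hg]
    simp
  cases l with
  | zero =>
    rw [pow_zero, one_mul]
    refine hA.trans (mul_le_mul_of_nonneg_left ?_ h6)
    linarith
  | succ l =>
    have h1 : (64 : ℝ) ^ l < mm θ x p := gl_lo l _ hg
    have hmmpos : 0 < mm θ x p := lt_trans (by positivity) h1
    have h2 : (2 : ℝ) ^ l ≤ mm θ x p ^ (1 / 6 : ℝ) := by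
      have h3 : (2 : ℝ) ^ l = ((64 : ℝ) ^ l) ^ (1 / 6 : ℝ) := by
        have h4 : (64 : ℝ) ^ l = ((2 : ℝ) ^ l) ^ (6 : ℝ) := by
          rw [show (6 : ℝ) = ((6 : ℕ) : ℝ) by norm_num, Real.rpow_natCast, ← pow_mul, mul_comm,
            pow_mul]
          norm_num
        rw [h4, ← Real.rpow_mul (by positivity)]
        norm_num
      rw [h3]
      exact Real.rpow_le_rpow (by positivity) h1.le (by norm_num)
    have h3 : mm θ x p ^ (1 / 6 : ℝ) * mm θ x p = mm θ x p ^ (7 / 6 : ℝ) := by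
      have h4 := Real.rpow_add_one hmmpos.ne' (1 / 6 : ℝ)
      rw [← h4]
      norm_num
    calc 2 ^ (l + 1) * (Gs θ x (l + 1) p ^ 2 * ce p x 14)
        ≤ (2 * mm θ x p ^ (1 / 6 : ℝ)) * (Gs θ x (l + 1) p * mm θ x p) := by
          refine mul_le_mul ?_ hA (mul_nonneg (sq_nonneg _) hce0) (by positivity)
          rw [pow_succ]
          linarith
      _ = Gs θ x (l + 1) p * (2 * (mm θ x p ^ (1 / 6 : ℝ) * mm θ x p)) := by ring
      _ = Gs θ x (l + 1) p * (2 * mm θ x p ^ (7 / 6 : ℝ)) := by rw [h3]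
      _ ≤ Gs θ x (l + 1) p * (2 * (mm θ x p + mm θ x p ^ (7 / 6 : ℝ))) := by
          refine mul_le_mul_of_nonneg_left ?_ h6
          linarith

/-- the sum of the second terms -/
private theorem fss_sec {q n k : ℕ} {Λ : Set E3} {θ : E3 → ℝ} (hθ : Cut θ)
    {ψ : (Fin n → Fin q) → Cfg n k → ℂ} (hψ : Sm q n k Λ ψ) (x : E3) :
    ∑ l ∈ range (n + 1), 2 ^ l * mean ψ (fun p => Gs θ x l p ^ 2 * ce p x 14) ≤
      6 * (mean ψ (fun p => mm θ x p ^ (1 : ℝ)) + mean ψ (fun p => mm θ x p ^ (7 / 6 : ℝ))) := by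
  have hGI : ∀ l, IM ψ (fun p => Gs θ x l p ^ 2 * ce p x 14) := fun l =>
    (IM_ce hψ x 14).bmul ((Gs_smooth hθ x l).continuous.measurable.pow_const 2) 1 fun p => by
      obtain ⟨h6, h7⟩ := Gs_mem (θ := θ) x l p
      rw [abs_of_nonneg (sq_nonneg _)]
      exact pow_le_one₀ h6 h7
  have hI1 : IM ψ (fun p => mm θ x p ^ (1 : ℝ)) := IM_mmt hθ hψ x 1 (by norm_num)
  have hI2 : IM ψ (fun p => mm θ x p ^ (7 / 6 : ℝ)) := IM_mmt hθ hψ x _ (by norm_num)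
  have e1 : ∑ l ∈ range (n + 1), 2 ^ l * mean ψ (fun p => Gs θ x l p ^ 2 * ce p x 14) =
      mean ψ (fun p => ∑ l ∈ range (n + 1), 2 ^ l * (Gs θ x l p ^ 2 * ce p x 14)) := by
    rw [mean_sum _ fun l _ => (hGI l).cmul _]
    exact sum_congr rfl fun l _ => (mean_cmul _ _).symm
  rw [e1, ← mean_add hI1 hI2, ← mean_cmul]
  refine mean_mono (IM.sum _ fun l _ => (hGI l).cmul _) ((hI1.add hI2).cmul 6) fun σ p _ => ?_
  calc ∑ l ∈ range (n + 1), 2 ^ l * (Gs θ x l p ^ 2 * ce p x 14)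
      ≤ ∑ l ∈ range (n + 1),
          Gs θ x l p * (2 * (mm θ x p ^ (1 : ℝ) + mm θ x p ^ (7 / 6 : ℝ))) :=
        sum_le_sum fun l _ => fss_pt hθ x l p
    _ = (∑ l ∈ range (n + 1), Gs θ x l p) *
          (2 * (mm θ x p ^ (1 : ℝ) + mm θ x p ^ (7 / 6 : ℝ))) := by rw [sum_mul]
    _ ≤ 3 * (2 * (mm θ x p ^ (1 : ℝ) + mm θ x p ^ (7 / 6 : ℝ))) := by
        refine mul_le_mul_of_nonneg_right (Gs_sum_le x p n) ?_
        have h1 := Real.rpow_nonneg (fss_mm0 θ x p) (1 : ℝ)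
        have h2 := Real.rpow_nonneg (fss_mm0 θ x p) (7 / 6 : ℝ)
        linarith
    _ = 6 * (mm θ x p ^ (1 : ℝ) + mm θ x p ^ (7 / 6 : ℝ)) := by ring

theorem fss (q : ℕ) (zm zp κm κp A : ℝ) {χ θ : E3 → ℝ}
    (hθ : Cut θ) (η : ℝ) (hη : 0 < η) : ∃ C : ℝ, 0 ≤ C ∧
    ∀ (n k : ℕ) (Λ : Set E3) (z κ : Fin k → ℝ) (W : Finset E3) (E : ℝ)
    (ψ : (Fin n → Fin q) → Cfg n k → ℂ) (_ : Gd q zm zp κm κp A n k Λ z κ W E ψ)
    (x : E3) (B : ℝ) (_ : Lb χ θ W z ψ x 100 B), SS θ ψ x ≤ η * B + C := by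
  obtain ⟨C1, hC1, H1⟩ := ss_one q hθ
  obtain ⟨C2, hC2, H2⟩ := te_gs hθ
  obtain ⟨C3, hC3, H3⟩ := t_cov 14 (by norm_num)
  obtain ⟨η', hη'⟩ : ∃ η' : ℝ, η' = η / (24 * (C1 + 1)) := ⟨_, rfl⟩
  have hη'0 : 0 < η' := by rw [hη']; positivity
  obtain ⟨C4, hC4, H4⟩ := mom_mm hθ 1 (by norm_num) (by norm_num) η' hη'0
  obtain ⟨C5, hC5, H5⟩ := mom_mm hθ (7 / 6) (by norm_num) (by norm_num) η' hη'0
  obtain ⟨L0, hL0⟩ : ∃ L0 : ℕ, C1 * C2 * C3 / (η / 2) < 2 ^ L0 :=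
    pow_unbounded_of_one_lt _ (by norm_num)
  have hp0 : (0 : ℝ) < 2 ^ L0 := by positivity
  have hcoef : C1 * (C2 * ((2 : ℝ) ^ L0)⁻¹ * C3) ≤ η / 2 := by
    rw [div_lt_iff₀ (by positivity)] at hL0
    have e : C1 * (C2 * ((2 : ℝ) ^ L0)⁻¹ * C3) = (C1 * C2 * C3) / 2 ^ L0 := by
      rw [div_eq_mul_inv]
      ring
    rw [e, div_le_iff₀ hp0]
    linarith
  have hinv : ((2 : ℝ) ^ L0)⁻¹ ≤ 1 := inv_le_one_of_one_le₀ (one_le_pow₀ (by norm_num))
  have hinv0 : 0 < ((2 : ℝ) ^ L0)⁻¹ := by positivity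
  obtain ⟨V0, hV0⟩ : ∃ V0 : ℝ, V0 = (volume (Metric.ball (0 : E3) 12)).toReal := ⟨_, rfl⟩
  have hV0n : 0 ≤ V0 := by rw [hV0]; exact ENNReal.toReal_nonneg
  have hK0 : 0 ≤ ∑ l ∈ range L0, V0 * fssK l :=
    sum_nonneg fun l _ => mul_nonneg hV0n (fssK_nonneg l)
  refine ⟨(∑ l ∈ range L0, V0 * fssK l) + (C1 * C2 + C1 * (6 * (C4 + C5))), by positivity, ?_⟩
  intro n k Λ z κ W E ψ hG x B hB
  have hψ : Sm q n k Λ ψ := St_sm hG.st
  have hB0 : 0 ≤ B := (hB.at (by norm_num)).nonneg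
  have hT : TE ψ x 14 ≤ C3 * B := by
    have h1 := H3 q n k Λ ψ hψ x B fun y hy => (hB y (by
      rw [Metric.mem_ball] at hy ⊢
      linarith)).kin
    have h2 := TN_nonneg ψ x 14
    linarith
  have hM : ∀ y ∈ Metric.ball x 65, mean ψ (fun p => ce p y 1 ^ (5 / 3 : ℝ)) ≤ B :=
    fun y hy => (hB y (by
      rw [Metric.mem_ball] at hy ⊢
      linarith)).cnt
  have h4 := H4 q n k Λ ψ hψ hG.one x B hM
  have h5 := H5 q n k Λ ψ hψ hG.one x B hM
  obtain ⟨T, hTd⟩ : ∃ T : ℕ → ℝ, ∀ l, T l = ∫ v in Metric.ball x 12,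
      mean ψ (fun p => Gs θ x l p ^ 2 * ((sc l ^ 2)⁻¹ * ce p v (7 * sc l) ^ 2)) :=
    ⟨_, fun _ => rfl⟩
  obtain ⟨a, ha⟩ : ∃ a : ℕ → ℝ, ∀ l, a l = ((2 : ℝ) ^ l)⁻¹ * TE (mf (Gs θ x l) ψ) x 14 :=
    ⟨_, fun _ => rfl⟩
  obtain ⟨b, hb⟩ : ∃ b : ℕ → ℝ, ∀ l, b l =
      2 ^ l * mean ψ (fun p => Gs θ x l p ^ 2 * ce p x 14) := ⟨_, fun _ => rfl⟩
  have hb0 : ∀ l, 0 ≤ b l := fun l => by
    rw [hb]
    exact mul_nonneg (by positivity) (mean_nonneg fun σ p _ =>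
      mul_nonneg (sq_nonneg _) (ce_nonneg p x 14))
  have hTl : ∀ l, T l ≤ (if l < L0 then V0 * fssK l else 0) +
      (C1 * (if L0 ≤ l then a l else 0) + C1 * b l) := by
    intro l
    by_cases hl : l < L0
    · rw [if_pos hl, if_neg (not_le.2 hl), mul_zero, zero_add, hTd]
      have h1 := fss_low hθ hψ hG.one x l
      rw [← hV0] at h1
      have h2 : 0 ≤ C1 * b l := mul_nonneg hC1 (hb0 l)
      linarith
    · rw [if_neg hl, if_pos (not_lt.1 hl), zero_add, hTd, ← mul_add, ha, hb]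
      exact H1 n k Λ ψ hG.st x l
  have hSS : SS θ ψ x = ∑ l ∈ range (n + 1), T l := by
    unfold SS
    exact sum_congr rfl fun l _ => (hTd l).symm
  have hs1 : ∑ l ∈ range (n + 1), (if l < L0 then V0 * fssK l else 0) ≤
      ∑ l ∈ range L0, V0 * fssK l := by
    rw [← sum_filter]
    refine sum_le_sum_of_subset_of_nonneg (fun l hl => ?_) fun l _ _ =>
      mul_nonneg hV0n (fssK_nonneg l)
    rw [mem_filter] at hl
    exact mem_range.2 hl.2
  have hs2 : ∑ l ∈ range (n + 1), (if L0 ≤ l then a l else 0) ≤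
      C2 * ((2 : ℝ) ^ L0)⁻¹ * (TE ψ x 14 + 1) := by
    have h1 := H2 q n k Λ ψ hψ hG.one x x 14 L0
    have e : ∀ l, (if L0 ≤ l then a l else 0) =
        (if L0 ≤ l then ((2 : ℝ) ^ l)⁻¹ * TE (mf (Gs θ x l) ψ) x 14 else 0) := by
      intro l
      rw [ha]
    simp only [e]
    exact h1
  have hs3 : ∑ l ∈ range (n + 1), b l ≤ 6 * ((η' * B + C4) + (η' * B + C5)) := by
    simp only [hb]
    refine (fss_sec hθ hψ x).trans (mul_le_mul_of_nonneg_left ?_ (by norm_num))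
    exact add_le_add h4 h5
  have hP1 : C1 * ∑ l ∈ range (n + 1), (if L0 ≤ l then a l else 0) ≤ η / 2 * B + C1 * C2 := by
    calc C1 * ∑ l ∈ range (n + 1), (if L0 ≤ l then a l else 0)
        ≤ C1 * (C2 * ((2 : ℝ) ^ L0)⁻¹ * (C3 * B + 1)) := by
          refine mul_le_mul_of_nonneg_left (hs2.trans ?_) hC1
          refine mul_le_mul_of_nonneg_left ?_ (by positivity)
          linarith
      _ = C1 * (C2 * ((2 : ℝ) ^ L0)⁻¹ * C3) * B + C1 * C2 * ((2 : ℝ) ^ L0)⁻¹ := by ring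
      _ ≤ η / 2 * B + C1 * C2 * 1 := by
          refine add_le_add (mul_le_mul_of_nonneg_right hcoef hB0) ?_
          exact mul_le_mul_of_nonneg_left hinv (by positivity)
      _ = η / 2 * B + C1 * C2 := by rw [mul_one]
  have hP2 : C1 * ∑ l ∈ range (n + 1), b l ≤ η / 2 * B + C1 * (6 * (C4 + C5)) := by
    have h6 : C1 * (12 * η') ≤ η / 2 := by
      rw [hη']
      have h7 : C1 * (12 * (η / (24 * (C1 + 1)))) = η / 2 * (C1 / (C1 + 1)) := by
        field_simp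
        ring
      rw [h7]
      have h8 : C1 / (C1 + 1) ≤ 1 := by
        rw [div_le_one (by positivity)]
        linarith
      calc η / 2 * (C1 / (C1 + 1)) ≤ η / 2 * 1 := mul_le_mul_of_nonneg_left h8 (by positivity)
        _ = η / 2 := mul_one _
    calc C1 * ∑ l ∈ range (n + 1), b l ≤ C1 * (6 * ((η' * B + C4) + (η' * B + C5))) :=
          mul_le_mul_of_nonneg_left hs3 hC1
      _ = C1 * (12 * η') * B + C1 * (6 * (C4 + C5)) := by ring
      _ ≤ η / 2 * B + C1 * (6 * (C4 + C5)) := by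
          have := mul_le_mul_of_nonneg_right h6 hB0
          linarith
  calc SS θ ψ x = ∑ l ∈ range (n + 1), T l := hSS
    _ ≤ ∑ l ∈ range (n + 1), ((if l < L0 then V0 * fssK l else 0) +
        (C1 * (if L0 ≤ l then a l else 0) + C1 * b l)) := sum_le_sum fun l _ => hTl l
    _ = ∑ l ∈ range (n + 1), (if l < L0 then V0 * fssK l else 0) +
        (C1 * ∑ l ∈ range (n + 1), (if L0 ≤ l then a l else 0) +
          C1 * ∑ l ∈ range (n + 1), b l) := by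
        rw [sum_add_distrib, sum_add_distrib, mul_sum, mul_sum]
    _ ≤ η * B + ((∑ l ∈ range L0, V0 * fssK l) + (C1 * C2 + C1 * (6 * (C4 + C5)))) := by
        linarith

end H6.CB
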