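import Pool.Agent.H6.CB.Lib
import Pool.Agent.H6.CM.PDefs

/-! Reference sets. `sep_sum`: the balls of radius `2` around the points of `W` are disjoint, and `(max 1 ‖u - w‖ ^ 4)⁻¹ ≤ 81 (max 1 ‖u - v‖ ^ 4)⁻¹` for `v` in the ball of radius `2` around `w`; integrate over `v`. `rf_sep`: exchange the sums over the particles and over `W`. `cube_grid`: the points with coordinates `4 i + 3`, `i = 0, ..., m - 1` with `m = ⌊(ℓ - 2) / 4⌋ - 1`, say (all coordinates lie strictly between `2` and `ℓ - 2`, and `m ≥ ℓ / 8` for `ℓ ≥ 100`). `far`: all positions in the supports lie in a ball (compact support); take `y` at a large distance from it. -/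

open MeasureTheory Finset

namespace H6.CB

open H6.CM

private theorem refw_int : Integrable (fun v : E3 => ((1 + ‖v‖) ^ 4)⁻¹) := by
  have h1 : Integrable (fun v : E3 => (1 + ‖v‖) ^ (-(4 : ℝ))) := by
    apply integrable_one_add_norm
    rw [finrank_euclideanSpace, Fintype.card_fin]
    norm_num
  refine h1.congr (Filter.Eventually.of_forall fun v => ?_)
  simp only
  rw [Real.rpow_neg (by positivity)]
  congr 1
  exact_mod_cast Real.rpow_natCast (1 + ‖v‖) 4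

theorem sep_sum : ∃ C : ℝ, 0 < C ∧ ∀ (W : Finset E3)
    (_ : ∀ w ∈ W, ∀ w' ∈ W, w ≠ w' → 4 ≤ dist w w') (u : E3),
    ∑ w ∈ W, (max 1 ‖u - w‖ ^ 4)⁻¹ ≤ C := by
  set I : ℝ := ∫ v : E3, ((1 + ‖v‖) ^ 4)⁻¹ with hI
  have hI0 : 0 ≤ I := integral_nonneg fun v => by positivity
  set κ : ℝ := (volume (Metric.ball (0 : E3) 2)).toReal with hκ
  have hκ0 : 0 < κ := by
    rw [hκ]
    exact ENNReal.toReal_pos (Metric.measure_ball_pos volume 0 (by norm_num)).ne'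
      measure_ball_lt_top.ne
  refine ⟨1296 * I / κ + 1, by positivity, fun W hW u => ?_⟩
  have hg : Integrable (fun v : E3 => ((1 + ‖u - v‖) ^ 4)⁻¹) := refw_int.comp_sub_left u
  have hgI : ∫ v : E3, ((1 + ‖u - v‖) ^ 4)⁻¹ = I :=
    integral_sub_left_eq_self (fun v : E3 => ((1 + ‖v‖) ^ 4)⁻¹) volume u
  have h1 : ∀ w ∈ W, κ * (max 1 ‖u - w‖ ^ 4)⁻¹ ≤
      1296 * ∫ v in Metric.ball w 2, ((1 + ‖u - v‖) ^ 4)⁻¹ := by
    intro w _
    have h2 : ∫ _v in Metric.ball w 2, (max 1 ‖u - w‖ ^ 4)⁻¹ = κ * (max 1 ‖u - w‖ ^ 4)⁻¹ := by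
      rw [setIntegral_const, smul_eq_mul, Measure.real, hκ, Measure.addHaar_ball_center]
    rw [← h2, ← integral_const_mul]
    refine setIntegral_mono_on (integrableOn_const (hs := measure_ball_lt_top.ne))
      ((hg.const_mul 1296).integrableOn) measurableSet_ball fun v hv => ?_
    rw [Metric.mem_ball, dist_eq_norm] at hv
    have h3 : ‖u - v‖ ≤ ‖u - w‖ + ‖v - w‖ := by
      calc ‖u - v‖ = ‖(u - w) - (v - w)‖ := by rw [sub_sub_sub_cancel_right]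
        _ ≤ _ := norm_sub_le _ _
    have h4 : 1 ≤ max 1 ‖u - w‖ := le_max_left _ _
    have h5 : ‖u - w‖ ≤ max 1 ‖u - w‖ := le_max_right _ _
    have h6 : 1 + ‖u - v‖ ≤ 4 * max 1 ‖u - w‖ := by linarith
    have h7 : (1 + ‖u - v‖) ^ 4 ≤ 256 * max 1 ‖u - w‖ ^ 4 := by
      calc (1 + ‖u - v‖) ^ 4 ≤ (4 * max 1 ‖u - w‖) ^ 4 := pow_le_pow_left₀ (by positivity) h6 4
        _ = _ := by ring
    have h8 : 0 < max 1 ‖u - w‖ ^ 4 := by positivity
    have h9 : 0 < (1 + ‖u - v‖) ^ 4 := by positivity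
    rw [← div_eq_mul_inv, le_div_iff₀ h9, inv_mul_le_iff₀ h8]
    linarith
  have h2 : ∑ w ∈ W, ∫ v in Metric.ball w 2, ((1 + ‖u - v‖) ^ 4)⁻¹ ≤ I := by
    rw [← integral_biUnion_finset W (fun w _ => measurableSet_ball) ?_
      (fun w _ => hg.integrableOn), ← hgI]
    · exact setIntegral_le_integral hg (Filter.Eventually.of_forall fun v => by positivity)
    · intro w hw w' hw' hne
      exact Metric.ball_disjoint_ball (by
        have := hW w hw w' hw' hne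
        linarith)
  have h3 : κ * ∑ w ∈ W, (max 1 ‖u - w‖ ^ 4)⁻¹ ≤ 1296 * I := by
    calc κ * ∑ w ∈ W, (max 1 ‖u - w‖ ^ 4)⁻¹ = ∑ w ∈ W, κ * (max 1 ‖u - w‖ ^ 4)⁻¹ := mul_sum _ _ _
      _ ≤ ∑ w ∈ W, 1296 * ∫ v in Metric.ball w 2, ((1 + ‖u - v‖) ^ 4)⁻¹ := sum_le_sum h1
      _ = 1296 * ∑ w ∈ W, ∫ v in Metric.ball w 2, ((1 + ‖u - v‖) ^ 4)⁻¹ := (mul_sum _ _ _).symm
      _ ≤ 1296 * I := by linarith
  have h4 : ∑ w ∈ W, (max 1 ‖u - w‖ ^ 4)⁻¹ ≤ 1296 * I / κ := by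
    rw [le_div_iff₀ hκ0]
    linarith
  linarith

theorem rf_sep : ∃ C : ℝ, 0 < C ∧ ∀ (q n k : ℕ) (Λ : Set E3)
    (ψ : (Fin n → Fin q) → Cfg n k → ℂ) (ρ : ℝ) (_ : 0 ≤ ρ) (W : Finset E3)
    (_ : W.Nonempty) (_ : ∀ w ∈ W, Metric.closedBall w 2 ⊆ Λ)
    (_ : ∀ w ∈ W, ∀ w' ∈ W, w ≠ w' → 4 ≤ dist w w') (_ : (n : ℝ) + k ≤ ρ * W.card),
    Rf (C * ρ) Λ W ψ := by
  obtain ⟨C, hC, h⟩ := sep_sum
  refine ⟨C, hC, fun q n k Λ ψ ρ hρ W hW hsub hsep hcard => ⟨hW, hsub, fun σ p _ => ?_⟩⟩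
  unfold q4
  rw [sum_add_distrib, sum_comm, sum_comm (s := W) (t := (univ : Finset (Fin k)))]
  have h1 : ∑ a : Fin n, ∑ w ∈ W, (max 1 ‖p.1 a - w‖ ^ 4)⁻¹ ≤ n * C := by
    calc ∑ a : Fin n, ∑ w ∈ W, (max 1 ‖p.1 a - w‖ ^ 4)⁻¹ ≤ ∑ _a : Fin n, C :=
          sum_le_sum fun a _ => h W hsep _
      _ = n * C := by rw [sum_const, card_univ, Fintype.card_fin, nsmul_eq_mul]
  have h2 : ∑ j : Fin k, ∑ w ∈ W, (max 1 ‖p.2 j - w‖ ^ 4)⁻¹ ≤ k * C := by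
    calc ∑ j : Fin k, ∑ w ∈ W, (max 1 ‖p.2 j - w‖ ^ 4)⁻¹ ≤ ∑ _j : Fin k, C :=
          sum_le_sum fun a _ => h W hsep _
      _ = k * C := by rw [sum_const, card_univ, Fintype.card_fin, nsmul_eq_mul]
  nlinarith [mul_le_mul_of_nonneg_left hcard hC.le]

private theorem refw_coord (x y : E3) (i : Fin 3) : |x i - y i| ≤ dist x y := by
  rw [dist_eq_norm]
  have h := PiLp.norm_apply_le (x - y) i
  rwa [PiLp.sub_apply, Real.norm_eq_abs] at h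

theorem cube_grid : ∃ c : ℝ, 0 < c ∧ ∀ ℓ : ℝ, 100 ≤ ℓ → ∃ W : Finset E3, W.Nonempty ∧
    (∀ w ∈ W, Metric.closedBall w 2 ⊆ cube ℓ) ∧
    (∀ w ∈ W, ∀ w' ∈ W, w ≠ w' → 4 ≤ dist w w') ∧ c * ℓ ^ 3 ≤ W.card := by
  refine ⟨1 / 512, by norm_num, fun ℓ hℓ => ?_⟩
  set m : ℕ := ⌊(ℓ - 2) / 4⌋₊ with hm
  have hm1 : (m : ℝ) ≤ (ℓ - 2) / 4 := Nat.floor_le (by linarith)
  have hm2 : (ℓ - 2) / 4 < m + 1 := Nat.lt_floor_add_one _
  have hm3 : ℓ / 8 ≤ m := by linarith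
  let f : (Fin 3 → Fin m) → E3 := fun i => WithLp.toLp 2 fun d => 4 * ((i d : ℕ) : ℝ) + 3
  have hfd : ∀ i d, f i d = 4 * ((i d : ℕ) : ℝ) + 3 := fun i d => rfl
  have hinj : Function.Injective f := by
    intro i j hij
    funext d
    have h1 : f i d = f j d := by rw [hij]
    rw [hfd, hfd] at h1
    have h2 : ((i d : ℕ) : ℝ) = ((j d : ℕ) : ℝ) := by linarith
    exact Fin.ext (by exact_mod_cast h2)
  have hm0 : 0 < m := by
    have : (0 : ℝ) < m := by linarith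
    exact_mod_cast this
  refine ⟨univ.image f, ?_, ?_, ?_, ?_⟩
  · exact ⟨f fun _ => ⟨0, hm0⟩, mem_image_of_mem f (mem_univ _)⟩
  · intro w hw x hx d
    obtain ⟨i, -, rfl⟩ := mem_image.1 hw
    rw [Metric.mem_closedBall] at hx
    have h1 := (refw_coord x (f i) d).trans hx
    rw [abs_le, hfd] at h1
    have h2 : ((i d : ℕ) : ℝ) + 1 ≤ m := by exact_mod_cast (i d).2
    have h3 : (0 : ℝ) ≤ ((i d : ℕ) : ℝ) := Nat.cast_nonneg _
    constructor <;> linarith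
  · intro w hw w' hw' hne
    obtain ⟨i, -, rfl⟩ := mem_image.1 hw
    obtain ⟨j, -, rfl⟩ := mem_image.1 hw'
    have hij : i ≠ j := fun h => hne (by rw [h])
    obtain ⟨d, hd⟩ := Function.ne_iff.1 hij
    refine le_trans ?_ (refw_coord (f i) (f j) d)
    rw [hfd, hfd]
    have h1 : (i d : ℕ) ≠ (j d : ℕ) := fun h => hd (Fin.ext h)
    rcases lt_or_gt_of_ne h1 with h | h
    · have h2 : ((i d : ℕ) : ℝ) + 1 ≤ ((j d : ℕ) : ℝ) := by exact_mod_cast h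
      rw [abs_sub_comm]
      exact le_trans (by linarith) (le_abs_self _)
    · have h2 : ((j d : ℕ) : ℝ) + 1 ≤ ((i d : ℕ) : ℝ) := by exact_mod_cast h
      exact le_trans (by linarith) (le_abs_self _)
  · rw [card_image_of_injective _ hinj, card_univ, Fintype.card_fun, Fintype.card_fin,
      Fintype.card_fin]
    push_cast
    calc 1 / 512 * ℓ ^ 3 = (ℓ / 8) ^ 3 := by ring
      _ ≤ (m : ℝ) ^ 3 := pow_le_pow_left₀ (by linarith) hm3 3

theorem far {q n k : ℕ} {Λ : Set E3} {ψ : (Fin n → Fin q) → Cfg n k → ℂ}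
    (h : Sm q n k Λ ψ) (z : Fin k → ℝ) (ε : ℝ) (hε : 0 < ε) :
    ∃ y : E3, ∀ σ p, ψ σ p ≠ 0 → near p y = 0 ∧ |phi z p y| ≤ ε ∧ q4 1 p y ≤ ε := by
  -- a radius for the supports
  have hR : ∃ R : ℝ, ∀ σ p, ψ σ p ≠ 0 → ‖p‖ ≤ R := by
    have h1 : ∀ σ, ∃ R : ℝ, 0 ≤ R ∧ ∀ p, ψ σ p ≠ 0 → ‖p‖ ≤ R := by
      intro σ
      obtain ⟨R, hR⟩ := (h.cpt σ).isCompact.isBounded.exists_norm_le
      refine ⟨max R 0, le_max_right _ _, fun p hp => (hR p (subset_tsupport _ hp)).trans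
        (le_max_left _ _)⟩
    choose R hR0 hR using h1
    refine ⟨∑ σ, R σ, fun σ p hp => (hR σ p hp).trans ?_⟩
    exact single_le_sum (f := R) (fun σ _ => hR0 σ) (mem_univ σ)
  obtain ⟨R, hR⟩ := hR
  set S : ℝ := ∑ j, |z j| + n + k with hS
  have hS0 : 0 ≤ S := by positivity
  set D : ℝ := max 2 (S / ε) with hD
  have hD2 : 2 ≤ D := le_max_left _ _
  have hD3 : S / D ≤ ε := by
    rw [div_le_iff₀ (by linarith)]
    have : S / ε ≤ D := le_max_right _ _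
    rw [div_le_iff₀ hε] at this
    linarith
  refine ⟨EuclideanSpace.single 0 (|R| + D), fun σ p hp => ?_⟩
  set y : E3 := EuclideanSpace.single 0 (|R| + D) with hy
  have hyn : ‖y‖ = |R| + D := by
    rw [hy, PiLp.norm_single, Real.norm_eq_abs, abs_of_nonneg (by positivity)]
  have hpR := (hR σ p hp).trans (le_abs_self R)
  have ha : ∀ a, D ≤ ‖y - p.1 a‖ := by
    intro a
    have h1 : ‖p.1 a‖ ≤ ‖p‖ := (norm_le_pi_norm p.1 a).trans (norm_fst_le p)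
    have h2 := norm_sub_norm_le y (p.1 a)
    linarith
  have hj : ∀ j, D ≤ ‖y - p.2 j‖ := by
    intro j
    have h1 : ‖p.2 j‖ ≤ ‖p‖ := (norm_le_pi_norm p.2 j).trans (norm_snd_le p)
    have h2 := norm_sub_norm_le y (p.2 j)
    linarith
  have hD0 : 0 < D := by linarith
  refine ⟨?_, ?_, ?_⟩
  · unfold near
    rw [sum_eq_zero fun a _ => if_neg (not_lt.2 (hD2.trans (ha a))),
      sum_eq_zero fun j _ => if_neg (not_lt.2 (hD2.trans (hj j))), add_zero]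
  · unfold phi
    have h1 : |∑ j, z j * ‖y - p.2 j‖⁻¹| ≤ (∑ j, |z j|) / D := by
      refine (abs_sum_le_sum_abs _ _).trans ?_
      rw [sum_div]
      refine sum_le_sum fun j _ => ?_
      rw [abs_mul, abs_of_nonneg (a := ‖y - p.2 j‖⁻¹) (by positivity), div_eq_mul_inv]
      exact mul_le_mul_of_nonneg_left (inv_anti₀ hD0 (hj j)) (abs_nonneg _)
    have h2 : |∑ a, ‖y - p.1 a‖⁻¹| ≤ n / D := by
      refine (abs_sum_le_sum_abs _ _).trans ?_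
      calc ∑ a, |‖y - p.1 a‖⁻¹| ≤ ∑ _a : Fin n, D⁻¹ := sum_le_sum fun a _ => by
            rw [abs_of_nonneg (by positivity)]
            exact inv_anti₀ hD0 (ha a)
        _ = n / D := by rw [sum_const, card_univ, Fintype.card_fin, nsmul_eq_mul, div_eq_mul_inv]
    have h3 : (0 : ℝ) ≤ k / D := by positivity
    calc |∑ j, z j * ‖y - p.2 j‖⁻¹ - ∑ a, ‖y - p.1 a‖⁻¹| ≤
        |∑ j, z j * ‖y - p.2 j‖⁻¹| + |∑ a, ‖y - p.1 a‖⁻¹| := abs_sub _ _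
      _ ≤ (∑ j, |z j|) / D + n / D + k / D := by linarith
      _ = S / D := by rw [hS]; ring
      _ ≤ ε := hD3
  · unfold q4
    have key : ∀ x : E3, D ≤ ‖y - x‖ → (max 1 ‖x - y‖ ^ 4)⁻¹ ≤ D⁻¹ := by
      intro x hx
      rw [norm_sub_rev] at hx
      refine inv_anti₀ hD0 ?_
      have h1 : D ≤ max 1 ‖x - y‖ := hx.trans (le_max_right _ _)
      have h2 : 1 ≤ max 1 ‖x - y‖ := le_max_left _ _
      calc D ≤ max 1 ‖x - y‖ := h1
        _ = max 1 ‖x - y‖ ^ 1 := (pow_one _).symm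
        _ ≤ max 1 ‖x - y‖ ^ 4 := pow_le_pow_right₀ h2 (by norm_num)
    have h1 : ∑ a, (max 1 ‖p.1 a - y‖ ^ 4)⁻¹ ≤ n / D := by
      calc ∑ a, (max 1 ‖p.1 a - y‖ ^ 4)⁻¹ ≤ ∑ _a : Fin n, D⁻¹ :=
            sum_le_sum fun a _ => key _ (ha a)
        _ = n / D := by rw [sum_const, card_univ, Fintype.card_fin, nsmul_eq_mul, div_eq_mul_inv]
    have h2 : ∑ j, (max 1 ‖p.2 j - y‖ ^ 4)⁻¹ ≤ k / D := by
      calc ∑ j, (max 1 ‖p.2 j - y‖ ^ 4)⁻¹ ≤ ∑ _j : Fin k, D⁻¹ :=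
            sum_le_sum fun j _ => key _ (hj j)
        _ = k / D := by rw [sum_const, card_univ, Fintype.card_fin, nsmul_eq_mul, div_eq_mul_inv]
    have h3 : 0 ≤ (∑ j, |z j|) / D := by positivity
    calc _ ≤ (∑ j, |z j|) / D + n / D + k / D := by linarith
      _ = S / D := by rw [hS]; ring
      _ ≤ ε := hD3

end H6.CB
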