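import Pool.Agent.H6.CB.FEnd
import Pool.Agent.H6.CB.RefW
import Pool.Agent.H6.CM.Main
import Pool.Agent.H6.CM.Scale

/-! The theorems. `lb_min`: homogeneity (as `H6.CM.lb_of_min`, see `Pool/Agent/H6/CM/Scale.lean`). `bulk`: `rf_sep` gives the hypotheses `Gd` with `A = C * ρ`, then `fend`, and the potential by `H6.CM.main` (closed balls of radius `2` are contained in the larger balls). `bulk_cube`: `cube_grid`; for `ℓ < 100` there is no `x` with the closed ball of radius `100` in the cube (choose the constant at least `100`). `free`: `far` with `ε = 1` gives the reference set `{y}` with `A = 1`; `fend`; the potential by `H6.CM.main` with the point `y` of `far`. -/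

open MeasureTheory Finset

namespace H6.CB

open H6.CM

theorem lb_min {q n k : ℕ} {Λ : Set E3} {z κ : Fin k → ℝ}
    {ψ : (Fin n → Fin q) → Cfg n k → ℂ} (hψ : St q n k Λ ψ) (h1 : mass ψ = 1) (δ : ℝ)
    (hδ : 0 ≤ δ)
    (h : ∀ ψ', St q n k Λ ψ' → mass ψ' = 1 → energy z κ ψ ≤ energy z κ ψ' + δ) :
    LB q n k Λ z κ (energy z κ ψ - δ) := by
  intro φ hφ
  have hm : 0 ≤ mass φ := mass_nonneg
  rcases hm.eq_or_lt with h0 | hpos
  · have h1 := Scale_zero hφ h0.symm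
    have h2 := Scale_energy z κ hφ 0
    rw [h1] at h2
    rw [h2, ← h0]
    simp
  · obtain ⟨c, hc⟩ : ∃ c, c = (Real.sqrt (mass φ))⁻¹ := ⟨_, rfl⟩
    have hc2 : c ^ 2 * mass φ = 1 := by
      rw [hc, inv_pow, Real.sq_sqrt hm, inv_mul_cancel₀ hpos.ne']
    have h1 := h (Scale_mul c φ) (Scale_st hφ c) (by rw [Scale_mass, hc2])
    rw [Scale_energy z κ hφ c] at h1
    have h3 : (energy z κ ψ - δ) * mass φ ≤ c ^ 2 * energy z κ φ * mass φ :=
      mul_le_mul_of_nonneg_right (by linarith) hm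
    have h4 : c ^ 2 * energy z κ φ * mass φ = energy z κ φ := by
      calc c ^ 2 * energy z κ φ * mass φ = (c ^ 2 * mass φ) * energy z κ φ := by ring
        _ = energy z κ φ := by rw [hc2, one_mul]
    linarith

private theorem near_nonneg {n k : ℕ} (p : Cfg n k) (v : E3) : 0 ≤ near p v := by
  unfold near
  refine add_nonneg (sum_nonneg fun a _ => ?_) (sum_nonneg fun a _ => ?_)
  · split_ifs <;> positivity
  · split_ifs <;> positivity

private theorem N1_ge (n k : ℕ) : (1 : ℝ) ≤ (n : ℝ) + k + 1 := by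
  have h1 : (0 : ℝ) ≤ n := Nat.cast_nonneg n
  have h2 : (0 : ℝ) ≤ k := Nat.cast_nonneg k
  linarith

private theorem N1_rpow (n k : ℕ) : (1 : ℝ) ≤ ((n : ℝ) + k + 1) ^ (3 / 10 : ℝ) :=
  Real.one_le_rpow (N1_ge n k) (by norm_num)

private theorem N1_inv (n k : ℕ) :
    0 ≤ (((n : ℝ) + k + 1) ^ 4)⁻¹ ∧ (((n : ℝ) + k + 1) ^ 4)⁻¹ ≤ 1 := by
  have h1 := N1_ge n k
  have h2 : (1 : ℝ) ≤ ((n : ℝ) + k + 1) ^ 4 := one_le_pow₀ h1
  exact ⟨by positivity, inv_le_one_of_one_le₀ h2⟩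

/-- the local bounds for a near ground state with an admissible reference set -/
private theorem loc (q : ℕ) (zm zp κm κp A : ℝ) (hzm : 0 < zm) (hκm : 0 < κm) (hA : 0 ≤ A) :
    ∃ C : ℝ, 0 ≤ C ∧ ∀ (n k : ℕ) (Λ : Set E3) (z κ : Fin k → ℝ) (W : Finset E3),
      (∀ j, zm ≤ z j ∧ z j ≤ zp) → (∀ j, κm ≤ κ j ∧ κ j ≤ κp) → ∑ j, z j = n →
      ∀ ψ : (Fin n → Fin q) → Cfg n k → ℂ, St q n k Λ ψ → mass ψ = 1 → Rf A Λ W ψ →
      (∀ ψ', St q n k Λ ψ' → mass ψ' = 1 →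
        energy z κ ψ ≤ energy z κ ψ' + (((n : ℝ) + k + 1) ^ 4)⁻¹) →
      (∀ x : E3, Metric.closedBall x (2000 * ((n : ℝ) + k + 1) ^ (3 / 10 : ℝ)) ⊆ Λ →
        TE ψ x 1 + TN ψ x 1 ≤ C ∧ mean ψ (fun p => ce p x 1 ^ (5 / 3 : ℝ)) ≤ C ∧
        mean ψ (fun p => cn p x 1) ≤ C ∧ mean ψ (fun p => near p x) ≤ C) ∧
      ∀ x y : E3, Metric.closedBall x 2 ⊆ Λ → Metric.closedBall y 2 ⊆ Λ →
        |mean ψ (fun p => phi z p x) - mean ψ (fun p => phi z p y)| ≤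
          C * (1 + mean ψ (fun p => near p x) + mean ψ (fun p => near p y)) := by
  obtain ⟨C1, hC1, h1⟩ := fend q zm zp κm κp A hzm hκm hA
  obtain ⟨C2, h2⟩ := main q zm zp κp hzm
  refine ⟨max C1 |C2|, le_max_of_le_left hC1, ?_⟩
  intro n k Λ z κ W hz hκ hneu ψ hψ hm hrf hmin
  have hi := N1_inv n k
  constructor
  · intro x hx
    have hgd : Gd q zm zp κm κp A n k Λ z κ W
        (energy z κ ψ - (((n : ℝ) + k + 1) ^ 4)⁻¹) ψ :=
      { hz := hz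
        hκ := hκ
        neu := hneu
        lb := lb_min hψ hm _ hi.1 hmin
        st := hψ
        one := hm
        en := by linarith
        rf := hrf }
    obtain ⟨a1, a2, a3, a4⟩ := h1 n k Λ z κ W _ ψ hgd x hx
    have hS := St_sm hψ
    have a5 : mean ψ (fun p => cn p x 1) ≤ mean ψ (fun p => ce p x 1 + cn p x 1) :=
      mean_mono (IM_cn hS x 1) ((IM_ce hS x 1).add (IM_cn hS x 1)) fun _ p _ => by
        linarith [ce_nonneg p x 1]
    exact ⟨a1.trans (le_max_left _ _), a2.trans (le_max_left _ _),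
      (a5.trans a3).trans (le_max_left _ _), a4.trans (le_max_left _ _)⟩
  · intro x y hx hy
    have h3 := h2 Λ n k z κ hz (fun j => ⟨hκm.le.trans (hκ j).1, (hκ j).2⟩) hneu ψ hψ hm
      (fun ψ' h h' => (hmin ψ' h h').trans (by linarith)) x y hx hy
    refine h3.trans (mul_le_mul_of_nonneg_right ((le_abs_self _).trans (le_max_right _ _)) ?_)
    have n1 : ∀ v : E3, 0 ≤ mean ψ (fun p => near p v) := fun v =>
      mean_nonneg fun _ p _ => near_nonneg p v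
    have := n1 x
    have := n1 y
    linarith

theorem bulk (q : ℕ) (zm zp κm κp ρ : ℝ) (hzm : 0 < zm) (hκm : 0 < κm) (hρ : 0 < ρ) :
    ∃ C : ℝ, ∀ (Λ : Set E3) (n k : ℕ) (z κ : Fin k → ℝ),
      (∀ j, zm ≤ z j ∧ z j ≤ zp) → (∀ j, κm ≤ κ j ∧ κ j ≤ κp) → ∑ j, z j = n →
      ∀ W : Finset E3, W.Nonempty → (∀ w ∈ W, Metric.closedBall w 2 ⊆ Λ) →
      (∀ w ∈ W, ∀ w' ∈ W, w ≠ w' → 4 ≤ dist w w') → (n : ℝ) + k ≤ ρ * W.card →
      ∀ ψ : (Fin n → Fin q) → Cfg n k → ℂ, St q n k Λ ψ → mass ψ = 1 →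
      (∀ ψ', St q n k Λ ψ' → mass ψ' = 1 →
        energy z κ ψ ≤ energy z κ ψ' + (((n : ℝ) + k + 1) ^ 4)⁻¹) →
      ∀ x : E3, Metric.closedBall x (C * ((n : ℝ) + k + 1) ^ (3 / 10 : ℝ)) ⊆ Λ →
        TE ψ x 1 + TN ψ x 1 ≤ C ∧ mean ψ (fun p => ce p x 1 ^ (5 / 3 : ℝ)) ≤ C ∧
        mean ψ (fun p => cn p x 1) ≤ C ∧ mean ψ (fun p => near p x) ≤ C ∧
        ∀ y : E3, Metric.closedBall y (C * ((n : ℝ) + k + 1) ^ (3 / 10 : ℝ)) ⊆ Λ →
          |mean ψ (fun p => phi z p x) - mean ψ (fun p => phi z p y)| ≤ C := by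
  obtain ⟨C0, hC0, h0⟩ := rf_sep
  obtain ⟨C1, hC1, h1⟩ := loc q zm zp κm κp (C0 * ρ) hzm hκm (by positivity)
  refine ⟨2000 + C1 * (1 + C1 + C1) + C1, ?_⟩
  intro Λ n k z κ hz hκ hneu W hW hWΛ hWs hWc ψ hψ hm hmin x hx
  obtain ⟨h2, h3⟩ := h1 n k Λ z κ W hz hκ hneu ψ hψ hm
    (h0 q n k Λ ψ ρ hρ.le W hW hWΛ hWs hWc) hmin
  have hN := N1_rpow n k
  have hC2 : 2000 ≤ 2000 + C1 * (1 + C1 + C1) + C1 := by
    have : 0 ≤ C1 * (1 + C1 + C1) := by positivity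
    linarith
  have hCC : C1 ≤ 2000 + C1 * (1 + C1 + C1) + C1 := by
    have : 0 ≤ C1 * (1 + C1 + C1) := by positivity
    linarith
  have hsub : ∀ v : E3, Metric.closedBall v ((2000 + C1 * (1 + C1 + C1) + C1) *
      ((n : ℝ) + k + 1) ^ (3 / 10 : ℝ)) ⊆ Λ →
      Metric.closedBall v (2000 * ((n : ℝ) + k + 1) ^ (3 / 10 : ℝ)) ⊆ Λ := fun v hv =>
    (Metric.closedBall_subset_closedBall
      (mul_le_mul_of_nonneg_right hC2 (by linarith))).trans hv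
  have hsub2 : ∀ v : E3, Metric.closedBall v (2000 * ((n : ℝ) + k + 1) ^ (3 / 10 : ℝ)) ⊆ Λ →
      Metric.closedBall v 2 ⊆ Λ := fun v hv =>
    (Metric.closedBall_subset_closedBall (by linarith)).trans hv
  obtain ⟨a1, a2, a3, a4⟩ := h2 x (hsub x hx)
  refine ⟨a1.trans hCC, a2.trans hCC, a3.trans hCC, a4.trans hCC, fun y hy => ?_⟩
  obtain ⟨_, _, _, b4⟩ := h2 y (hsub y hy)
  refine (h3 x y (hsub2 x (hsub x hx)) (hsub2 y (hsub y hy))).trans ?_
  have h4 : C1 * (1 + mean ψ (fun p => near p x) + mean ψ (fun p => near p y)) ≤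
      C1 * (1 + C1 + C1) := mul_le_mul_of_nonneg_left (by linarith) hC1
  linarith

private theorem cube_small {ℓ C R : ℝ} (hℓ : ℓ < 100) (hC : 100 ≤ C) (hR : 1 ≤ R) (x : E3)
    (h : Metric.closedBall x (C * R) ⊆ cube ℓ) : False := by
  have h1 : 100 ≤ C * R := by nlinarith
  have h2 : x ∈ Metric.closedBall x (C * R) := Metric.mem_closedBall_self (by linarith)
  have h3 : x + EuclideanSpace.single 0 100 ∈ Metric.closedBall x (C * R) := by
    rw [Metric.mem_closedBall, dist_eq_norm, add_sub_cancel_left, EuclideanSpace.norm_single]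
    norm_num
    exact h1
  have h4 := h h2 0
  have h5 := h h3 0
  simp at h4 h5
  linarith

theorem bulk_cube (q : ℕ) (zm zp κm κp ρ : ℝ) (hzm : 0 < zm) (hκm : 0 < κm) (hρ : 0 < ρ) :
    ∃ C : ℝ, ∀ (ℓ : ℝ) (n k : ℕ) (z κ : Fin k → ℝ), (n : ℝ) + k ≤ ρ * ℓ ^ 3 →
      (∀ j, zm ≤ z j ∧ z j ≤ zp) → (∀ j, κm ≤ κ j ∧ κ j ≤ κp) → ∑ j, z j = n →
      ∀ ψ : (Fin n → Fin q) → Cfg n k → ℂ, St q n k (cube ℓ) ψ → mass ψ = 1 →
      (∀ ψ', St q n k (cube ℓ) ψ' → mass ψ' = 1 →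
        energy z κ ψ ≤ energy z κ ψ' + (((n : ℝ) + k + 1) ^ 4)⁻¹) →
      ∀ x : E3, Metric.closedBall x (C * ((n : ℝ) + k + 1) ^ (3 / 10 : ℝ)) ⊆ cube ℓ →
        TE ψ x 1 + TN ψ x 1 ≤ C ∧ mean ψ (fun p => ce p x 1 ^ (5 / 3 : ℝ)) ≤ C ∧
        mean ψ (fun p => cn p x 1) ≤ C ∧ mean ψ (fun p => near p x) ≤ C ∧
        ∀ y : E3, Metric.closedBall y (C * ((n : ℝ) + k + 1) ^ (3 / 10 : ℝ)) ⊆ cube ℓ →
          |mean ψ (fun p => phi z p x) - mean ψ (fun p => phi z p y)| ≤ C := by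
  obtain ⟨c, hc, hgrid⟩ := cube_grid
  obtain ⟨C1, h1⟩ := bulk q zm zp κm κp (ρ / c) hzm hκm (by positivity)
  refine ⟨max C1 100, ?_⟩
  intro ℓ n k z κ hnk hz hκ hneu ψ hψ hm hmin x hx
  have hN := N1_rpow n k
  rcases lt_or_ge ℓ 100 with hℓ | hℓ
  · exact (cube_small hℓ (le_max_right _ _) hN x hx).elim
  · obtain ⟨W, hW, hWΛ, hWs, hWc⟩ := hgrid ℓ hℓ
    have hcard : (n : ℝ) + k ≤ ρ / c * W.card := by
      refine hnk.trans ?_
      rw [div_mul_eq_mul_div, le_div_iff₀ hc]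
      have := mul_le_mul_of_nonneg_left hWc hρ.le
      linarith
    have hsub : ∀ v : E3, Metric.closedBall v (max C1 100 *
        ((n : ℝ) + k + 1) ^ (3 / 10 : ℝ)) ⊆ cube ℓ →
        Metric.closedBall v (C1 * ((n : ℝ) + k + 1) ^ (3 / 10 : ℝ)) ⊆ cube ℓ := fun v hv =>
      (Metric.closedBall_subset_closedBall
        (mul_le_mul_of_nonneg_right (le_max_left _ _) (by linarith))).trans hv
    obtain ⟨a1, a2, a3, a4, a5⟩ := h1 (cube ℓ) n k z κ hz hκ hneu W hW hWΛ hWs hcard ψ hψ hm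
      hmin x (hsub x hx)
    exact ⟨a1.trans (le_max_left _ _), a2.trans (le_max_left _ _), a3.trans (le_max_left _ _),
      a4.trans (le_max_left _ _), fun y hy => (a5 y (hsub y hy)).trans (le_max_left _ _)⟩

theorem free (q : ℕ) (zm zp κm κp : ℝ) (hzm : 0 < zm) (hκm : 0 < κm) :
    ∃ C : ℝ, ∀ (n k : ℕ) (z κ : Fin k → ℝ),
      (∀ j, zm ≤ z j ∧ z j ≤ zp) → (∀ j, κm ≤ κ j ∧ κ j ≤ κp) → ∑ j, z j = n →
      ∀ ψ : (Fin n → Fin q) → Cfg n k → ℂ, St q n k Set.univ ψ → mass ψ = 1 →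
      (∀ ψ', St q n k Set.univ ψ' → mass ψ' = 1 →
        energy z κ ψ ≤ energy z κ ψ' + (((n : ℝ) + k + 1) ^ 4)⁻¹) →
      ∀ x : E3, |mean ψ (fun p => phi z p x)| ≤ C ∧
        TE ψ x 1 + TN ψ x 1 ≤ C ∧ mean ψ (fun p => ce p x 1 ^ (5 / 3 : ℝ)) ≤ C ∧
        mean ψ (fun p => cn p x 1) ≤ C ∧ mean ψ (fun p => near p x) ≤ C := by
  obtain ⟨C1, hC1, h1⟩ := loc q zm zp κm κp 1 hzm hκm zero_le_one
  refine ⟨1 + C1 * (1 + C1) + C1, ?_⟩
  intro n k z κ hz hκ hneu ψ hψ hm hmin x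
  have hS := St_sm hψ
  obtain ⟨y, hy⟩ := far hS z 1 one_pos
  have hrf : Rf 1 Set.univ {y} ψ :=
    { ne := Finset.singleton_nonempty y
      sub := fun _ _ => Set.subset_univ _
      bd := fun σ p hp => by
        rw [Finset.sum_singleton, Finset.card_singleton, Nat.cast_one, mul_one]
        exact (hy σ p hp).2.2 }
  obtain ⟨h2, h3⟩ := h1 n k Set.univ z κ {y} hz hκ hneu ψ hψ hm hrf hmin
  obtain ⟨a1, a2, a3, a4⟩ := h2 x (Set.subset_univ _)
  have hCC : 0 ≤ C1 * (1 + C1) := by positivity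
  refine ⟨?_, by linarith, by linarith, by linarith, by linarith⟩
  have h4 := h3 x y (Set.subset_univ _) (Set.subset_univ _)
  have h5 : mean ψ (fun p => near p y) = 0 := by
    rw [mean_congr (G := fun _ => (0 : ℝ)) fun σ p hp => (hy σ p hp).1, mean_const, zero_mul]
  have h6 : |mean ψ (fun p => phi z p y)| ≤ 1 := by
    have hI := IM_phi hS z y
    have hc : ∀ c : ℝ, IM ψ (fun _ => c) := fun c => IM.cont hS continuous_const
    rw [abs_le]
    constructor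
    · have := mean_mono (hc (-1)) hI fun σ p hp => (abs_le.mp (hy σ p hp).2.1).1
      rw [mean_const, hm, mul_one] at this
      exact this
    · have := mean_mono hI (hc 1) fun σ p hp => (abs_le.mp (hy σ p hp).2.1).2
      rw [mean_const, hm, mul_one] at this
      exact this
  rw [h5, add_zero] at h4
  have h7 : C1 * (1 + mean ψ (fun p => near p x)) ≤ C1 * (1 + C1) :=
    mul_le_mul_of_nonneg_left (by linarith) hC1
  rw [abs_le] at h4 h6 ⊢
  constructor <;> linarith [h4.1, h4.2, h6.1, h6.2]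

end H6.CB
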