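import Pool.Agent.H6.CB.ImsG
import Pool.Agent.H6.CB.EhF

/-! Gradient of `eh u * g` and of `-u`: in each variable `∇ (eh (u) g) = eh (u) ∇ g + g eh' (u) ∇ u`, so the square is at most `2 eh ^ 2 |∇ g|² + 2 g² eh' ^ 2 |∇ u|² ≤ 2 (1 + 2 |u|) |∇ g|² + g² |∇ u|²` (`eh_le`, `eh_deriv`). -/

open MeasureTheory Finset

namespace H6.CB

open H6.CM

private theorem gme_one (f g : E3 → ℝ) (v : E3) (hf : DifferentiableAt ℝ f v)
    (hg : DifferentiableAt ℝ g v) :
    gr (fun u => eh (f u) * g u) v ≤ 2 * (1 + 2 * |f v|) * gr g v + g v ^ 2 * gr f v := by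
  have he : HasDerivAt eh (deriv eh (f v)) (f v) :=
    ((eh_smooth.differentiable (by simp)) (f v)).hasDerivAt
  have h1 : HasFDerivAt (fun u => eh (f u)) (deriv eh (f v) • fderiv ℝ f v) v :=
    he.comp_hasFDerivAt v hf.hasFDerivAt
  have h2 : HasFDerivAt (fun u => eh (f u) * g u)
      (eh (f v) • fderiv ℝ g v + g v • (deriv eh (f v) • fderiv ℝ f v)) v :=
    h1.mul hg.hasFDerivAt
  unfold gr
  rw [h2.fderiv, mul_sum, mul_sum, ← sum_add_distrib]
  refine sum_le_sum fun d _ => ?_
  have e : (eh (f v) • fderiv ℝ g v + g v • (deriv eh (f v) • fderiv ℝ f v))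
      (EuclideanSpace.single d 1) = eh (f v) * fderiv ℝ g v (EuclideanSpace.single d 1) +
      g v * (deriv eh (f v) * fderiv ℝ f v (EuclideanSpace.single d 1)) := by
    simp only [ContinuousLinearMap.add_apply, ContinuousLinearMap.smul_apply, smul_eq_mul]
  rw [e]
  generalize fderiv ℝ g v (EuclideanSpace.single d 1) = x
  generalize fderiv ℝ f v (EuclideanSpace.single d 1) = y
  have i1 : (eh (f v) * x + g v * (deriv eh (f v) * y)) ^ 2 ≤
      2 * (eh (f v) * x) ^ 2 + 2 * (g v * (deriv eh (f v) * y)) ^ 2 := by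
    nlinarith [sq_nonneg (eh (f v) * x - g v * (deriv eh (f v) * y))]
  have i2 : (eh (f v) * x) ^ 2 ≤ (1 + 2 * |f v|) * x ^ 2 := by
    rw [mul_pow]
    exact mul_le_mul_of_nonneg_right (eh_le (f v)) (sq_nonneg x)
  have i3 : (g v * (deriv eh (f v) * y)) ^ 2 ≤ g v ^ 2 * (1 / 2 * y ^ 2) := by
    rw [mul_pow, mul_pow]
    exact mul_le_mul_of_nonneg_left (mul_le_mul_of_nonneg_right (eh_deriv (f v)) (sq_nonneg y))
      (sq_nonneg _)
  linarith

private theorem gme_upE {n k : ℕ} (F : Cfg n k → ℝ)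
    (hF : Differentiable ℝ F) (q : Cfg n k) (b : Fin n) (v : E3) :
    DifferentiableAt ℝ (fun v => F (Function.update q.1 b v, q.2)) v := by
  have h1 : DifferentiableAt ℝ (fun v : E3 => ((Function.update q.1 b v, q.2) : Cfg n k)) v :=
    ((hasFDerivAt_update q.1 v).differentiableAt).prodMk (differentiableAt_const _)
  exact (hF _).comp v h1

private theorem gme_upN {n k : ℕ} (F : Cfg n k → ℝ)
    (hF : Differentiable ℝ F) (q : Cfg n k) (b : Fin k) (v : E3) :
    DifferentiableAt ℝ (fun v => F (q.1, Function.update q.2 b v)) v := by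
  have h1 : DifferentiableAt ℝ (fun v : E3 => ((q.1, Function.update q.2 b v) : Cfg n k)) v :=
    (differentiableAt_const _).prodMk ((hasFDerivAt_update q.2 v).differentiableAt)
  exact (hF _).comp v h1

private theorem gme_neg (f : E3 → ℝ) (v : E3) : gr (fun u => -f u) v = gr f v := by
  unfold gr
  refine sum_congr rfl fun d _ => ?_
  rw [fderiv_fun_neg, ContinuousLinearMap.neg_apply, neg_sq]

theorem gm_eh {n k : ℕ} {κ : Fin k → ℝ} (hκ : ∀ j, 0 ≤ κ j) (u g : Cfg n k → ℝ)
    (hu : ContDiff ℝ (⊤ : ℕ∞) u) (hg : ContDiff ℝ (⊤ : ℕ∞) g) (p : Cfg n k) :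
    Gm κ (fun p => eh (u p) * g p) p ≤
      2 * (1 + 2 * |u p|) * Gm κ g p + g p ^ 2 * Gm κ u p := by
  have hu' : Differentiable ℝ u := hu.differentiable (by simp)
  have hg' : Differentiable ℝ g := hg.differentiable (by simp)
  have hE : ∀ a : Fin n, gr (fun v => eh (u (Function.update p.1 a v, p.2)) *
      g (Function.update p.1 a v, p.2)) (p.1 a) ≤
      2 * (1 + 2 * |u p|) * gr (fun v => g (Function.update p.1 a v, p.2)) (p.1 a) +
        g p ^ 2 * gr (fun v => u (Function.update p.1 a v, p.2)) (p.1 a) := by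
    intro a
    have h := gme_one (fun v => u (Function.update p.1 a v, p.2))
      (fun v => g (Function.update p.1 a v, p.2)) (p.1 a) (gme_upE u hu' p a _)
      (gme_upE g hg' p a _)
    simp only [Function.update_eq_self] at h
    exact h
  have hN : ∀ j : Fin k, gr (fun v => eh (u (p.1, Function.update p.2 j v)) *
      g (p.1, Function.update p.2 j v)) (p.2 j) ≤
      2 * (1 + 2 * |u p|) * gr (fun v => g (p.1, Function.update p.2 j v)) (p.2 j) +
        g p ^ 2 * gr (fun v => u (p.1, Function.update p.2 j v)) (p.2 j) := by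
    intro j
    have h := gme_one (fun v => u (p.1, Function.update p.2 j v))
      (fun v => g (p.1, Function.update p.2 j v)) (p.2 j) (gme_upN u hu' p j _)
      (gme_upN g hg' p j _)
    simp only [Function.update_eq_self] at h
    exact h
  have h1 := sum_le_sum (s := (univ : Finset (Fin n))) fun a _ => hE a
  have h2 := sum_le_sum (s := (univ : Finset (Fin k))) fun j _ =>
    mul_le_mul_of_nonneg_left (hN j) (hκ j)
  unfold Gm
  have h3 : 2 * (1 + 2 * |u p|) *
      (∑ a, gr (fun v => g (Function.update p.1 a v, p.2)) (p.1 a) +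
        ∑ j, κ j * gr (fun v => g (p.1, Function.update p.2 j v)) (p.2 j)) +
      g p ^ 2 * (∑ a, gr (fun v => u (Function.update p.1 a v, p.2)) (p.1 a) +
        ∑ j, κ j * gr (fun v => u (p.1, Function.update p.2 j v)) (p.2 j)) =
      ∑ a, (2 * (1 + 2 * |u p|) * gr (fun v => g (Function.update p.1 a v, p.2)) (p.1 a) +
        g p ^ 2 * gr (fun v => u (Function.update p.1 a v, p.2)) (p.1 a)) +
      ∑ j, κ j * (2 * (1 + 2 * |u p|) * gr (fun v => g (p.1, Function.update p.2 j v)) (p.2 j) +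
        g p ^ 2 * gr (fun v => u (p.1, Function.update p.2 j v)) (p.2 j)) := by
    have h4 : ∀ j, κ j * (2 * (1 + 2 * |u p|) *
        gr (fun v => g (p.1, Function.update p.2 j v)) (p.2 j) +
        g p ^ 2 * gr (fun v => u (p.1, Function.update p.2 j v)) (p.2 j)) =
        2 * (1 + 2 * |u p|) * (κ j * gr (fun v => g (p.1, Function.update p.2 j v)) (p.2 j)) +
        g p ^ 2 * (κ j * gr (fun v => u (p.1, Function.update p.2 j v)) (p.2 j)) := fun j => by
      ring
    rw [sum_congr rfl fun j _ => h4 j, sum_add_distrib, sum_add_distrib, ← mul_sum, ← mul_sum,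
      ← mul_sum, ← mul_sum]
    ring
  rw [h3]
  exact add_le_add h1 h2

theorem gm_neg {n k : ℕ} (κ : Fin k → ℝ) (u : Cfg n k → ℝ) (p : Cfg n k) :
    Gm κ (fun p => -u p) p = Gm κ u p := by
  unfold Gm
  congr 1
  · exact sum_congr rfl fun a _ => gme_neg _ _
  · exact sum_congr rfl fun j _ => by rw [gme_neg]

end H6.CB
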