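import Pool.Agent.H6.CB.HDef
import Pool.Agent.H6.CM.BallInv

/-! The Coulomb kernel is the fundamental solution of the Laplacian: `∫ y, (-lap f y) * ‖x - y‖⁻¹ = 4 π f x` for smooth `f` with compact support. Proof: by translation `x = 0`. For `ε > 0` let `g v = (‖v‖ ^ 2 + ε ^ 2) ^ (-1/2)`, which is smooth with `lap g v = -3 ε ^ 2 (‖v‖ ^ 2 + ε ^ 2) ^ (-5/2)`; integration by parts twice (`integral_mul_fderiv_eq_neg_fderiv_mul_of_integrable` or `integral_bilinear_hasFDerivAt...`; `f` has compact support) gives `∫ (-lap f) g = ∫ f (-lap g) = ∫ f v * 3 ε ^ 2 (‖v‖ ^ 2 + ε ^ 2) ^ (-5/2)`, and with `v = ε u` this is `∫ f (ε u) * 3 (1 + ‖u‖ ^ 2) ^ (-5/2) du`, which tends to `f 0 * ∫ 3 (1 + ‖u‖ ^ 2) ^ (-5/2) = 4 π f 0` (dominated convergence; the integral is computed in polar coordinates, `integral_fun_norm_addHaar`, primitive `r ^ 3 (1 + r ^ 2) ^ (-3/2)` of `3 r ^ 2 (1 + r ^ 2) ^ (-5/2)`, volume of the unit ball `4 π /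 3`). On the left dominated convergence as well (`g ≤ ‖v‖⁻¹`, locally integrable). -/

open MeasureTheory Finset

namespace H6.CB

open H6.CM

private theorem green_one (y : ℝ) : HasDerivAt (fun y : ℝ => y ^ 3 * (1 + y ^ 2) ^ (-(3 / 2) : ℝ))
    (y ^ 2 * (3 * (1 + y ^ 2) ^ (-(5 / 2) : ℝ))) y := by
  have hp : 0 < 1 + y ^ 2 := by positivity
  have h1 : HasDerivAt (fun y : ℝ => 1 + y ^ 2) (2 * y) y := by
    have := (hasDerivAt_pow 2 y).const_add 1
    simpa using this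
  have h2 := h1.rpow_const (p := (-(3 / 2) : ℝ)) (Or.inl hp.ne')
  have h3 := (hasDerivAt_pow 3 y).mul h2
  refine h3.congr_deriv ?_
  have e1 : (-(3 / 2) - 1 : ℝ) = -(5 / 2) := by norm_num
  have e2 : (1 + y ^ 2) ^ (-(3 / 2) : ℝ) = (1 + y ^ 2) * (1 + y ^ 2) ^ (-(5 / 2) : ℝ) := by
    rw [← Real.rpow_one_add' hp.le (by norm_num)]
    norm_num
  rw [e1, e2]
  push_cast
  ring

private theorem green_lim : Filter.Tendsto (fun y : ℝ => y ^ 3 * (1 + y ^ 2) ^ (-(3 / 2) : ℝ)) Filter.atTop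
    (nhds 1) := by
  have h1 : Filter.Tendsto (fun y : ℝ => (1 + (y⁻¹) ^ 2) ^ (-(3 / 2) : ℝ)) Filter.atTop (nhds 1) := by
    have h2 : Filter.Tendsto (fun y : ℝ => 1 + (y⁻¹) ^ 2) Filter.atTop (nhds 1) := by
      have := (tendsto_inv_atTop_zero (𝕜 := ℝ)).pow 2
      simpa using this.const_add 1
    have h3 := h2.rpow_const (p := (-(3 / 2) : ℝ)) (Or.inl one_ne_zero)
    simpa using h3
  refine h1.congr' ?_
  filter_upwards [Filter.eventually_gt_atTop (0 : ℝ)] with y hy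
  have e1 : 1 + y ^ 2 = y ^ 2 * (1 + (y⁻¹) ^ 2) := by
    field_simp
    ring
  rw [e1, Real.mul_rpow (by positivity) (by positivity)]
  have e2 : (y ^ 2) ^ (-(3 / 2) : ℝ) = (y ^ 3)⁻¹ := by
    rw [← Real.rpow_natCast y 2, ← Real.rpow_mul hy.le]
    norm_num
  rw [e2]
  field_simp

/-- the mass of the approximate identity -/
theorem green_mass : Integrable (fun u : E3 => 3 * (1 + ‖u‖ ^ 2) ^ (-(5 / 2) : ℝ)) ∧
    ∫ u : E3, 3 * (1 + ‖u‖ ^ 2) ^ (-(5 / 2) : ℝ) = 4 * Real.pi := by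
  have hdim : Module.finrank ℝ E3 = 3 := by simp
  have hc : ContinuousWithinAt (fun y : ℝ => y ^ 3 * (1 + y ^ 2) ^ (-(3 / 2) : ℝ)) (Set.Ici 0) 0 :=
    (green_one 0).continuousAt.continuousWithinAt
  have hpos : ∀ y ∈ Set.Ioi (0 : ℝ), 0 ≤ y ^ 2 * (3 * (1 + y ^ 2) ^ (-(5 / 2) : ℝ)) := by
    intro y _
    positivity
  have hint := integrableOn_Ioi_deriv_of_nonneg hc (fun y _ => green_one y) hpos green_lim
  have hval := integral_Ioi_of_hasDerivAt_of_nonneg hc (fun y _ => green_one y) hpos green_lim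
  have hint' : IntegrableOn (fun y : ℝ => y ^ (Module.finrank ℝ E3 - 1) •
      ((fun y : ℝ => 3 * (1 + y ^ 2) ^ (-(5 / 2) : ℝ)) y)) (Set.Ioi 0) := by
    rw [hdim]
    simpa [smul_eq_mul] using hint
  refine ⟨(integrable_fun_norm_addHaar volume (f := fun y : ℝ => 3 * (1 + y ^ 2) ^ (-(5 / 2) : ℝ))).2 hint', ?_⟩
  have h1 := integral_fun_norm_addHaar (volume : Measure E3) (fun y : ℝ => 3 * (1 + y ^ 2) ^ (-(5 / 2) : ℝ))
  rw [h1, hdim]
  have h2 : (volume : Measure E3).real (Metric.ball 0 1) = Real.pi * 4 / 3 := by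
    rw [measureReal_def, EuclideanSpace.volume_ball_fin_three]
    simp only [ENNReal.ofReal_one, one_pow, one_mul]
    exact ENNReal.toReal_ofReal (by positivity)
  rw [h2]
  simp only [smul_eq_mul, Nat.add_one_sub_one, nsmul_eq_mul]
  rw [hval]
  simp
  ring

private theorem green_fd (ε : ℝ) (hε : 0 < ε) (p : ℝ) (v : E3) :
    HasFDerivAt (fun v : E3 => (‖v‖ ^ 2 + ε ^ 2) ^ p)
      ((p * (‖v‖ ^ 2 + ε ^ 2) ^ (p - 1)) • ((2 : ℝ) • innerSL ℝ v)) v := by
  have h1 : HasFDerivAt (fun v : E3 => ‖v‖ ^ 2 + ε ^ 2) ((2 : ℝ) • innerSL ℝ v) v := by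
    have := (hasStrictFDerivAt_norm_sq v).hasFDerivAt.add_const (ε ^ 2)
    refine this.congr_fderiv ?_
    ext w
    simp
  exact h1.rpow_const (Or.inl (by positivity))

private theorem green_pd (ε : ℝ) (hε : 0 < ε) (p : ℝ) (d : Fin 3) :
    pd d (fun v : E3 => (‖v‖ ^ 2 + ε ^ 2) ^ p) = fun v : E3 => 2 * p * ((‖v‖ ^ 2 + ε ^ 2) ^ (p - 1) * v d) := by
  funext v
  unfold pd
  rw [(green_fd ε hε p v).fderiv]
  simp only [_root_.smul_apply, innerSL_apply_apply, smul_eq_mul]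
  rw [EuclideanSpace.inner_single_right]
  simp
  ring

private theorem green_pd2 (ε : ℝ) (hε : 0 < ε) (p : ℝ) (d : Fin 3) (v : E3) :
    pd d (pd d (fun v : E3 => (‖v‖ ^ 2 + ε ^ 2) ^ p)) v =
      2 * p * (2 * (p - 1) * (‖v‖ ^ 2 + ε ^ 2) ^ (p - 1 - 1) * (v d) ^ 2 + (‖v‖ ^ 2 + ε ^ 2) ^ (p - 1)) := by
  rw [green_pd ε hε p d]
  unfold pd
  have h1 := green_fd ε hε (p - 1) v
  have h2 : HasFDerivAt (fun v : E3 => v d) (EuclideanSpace.proj d : E3 →L[ℝ] ℝ) v :=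
    (EuclideanSpace.proj d : E3 →L[ℝ] ℝ).hasFDerivAt
  have h3 : HasFDerivAt (fun v : E3 => 2 * p * ((‖v‖ ^ 2 + ε ^ 2) ^ (p - 1) * v d)) _ v :=
    (h1.mul h2).const_mul (2 * p)
  rw [h3.fderiv]
  have hs1 : (EuclideanSpace.proj d : E3 →L[ℝ] ℝ) (EuclideanSpace.single d 1) = 1 := by simp
  have hs2 : inner ℝ v (EuclideanSpace.single d (1 : ℝ)) = v d := by
    rw [EuclideanSpace.inner_single_right]
    simp
  simp only [_root_.smul_apply, _root_.add_apply, innerSL_apply_apply, smul_eq_mul]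
  rw [hs1, hs2]
  ring

/-- the Laplacian of the regularised kernel -/
theorem green_lap (ε : ℝ) (hε : 0 < ε) :
    ContDiff ℝ (⊤ : ℕ∞) (fun v : E3 => (‖v‖ ^ 2 + ε ^ 2) ^ (-(1 / 2) : ℝ)) ∧
    ∀ v : E3, lap (fun v : E3 => (‖v‖ ^ 2 + ε ^ 2) ^ (-(1 / 2) : ℝ)) v =
      -(3 * ε ^ 2 * (‖v‖ ^ 2 + ε ^ 2) ^ (-(5 / 2) : ℝ)) := by
  refine ⟨?_, fun v => ?_⟩
  · refine ContDiff.rpow_const_of_ne ?_ (fun v => by positivity)
    exact (contDiff_norm_sq ℝ).add contDiff_const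
  · unfold lap
    rw [Finset.sum_congr rfl fun d _ => green_pd2 ε hε (-(1 / 2)) d v]
    have hp : 0 < ‖v‖ ^ 2 + ε ^ 2 := by positivity
    have hn : ‖v‖ ^ 2 = v 0 ^ 2 + v 1 ^ 2 + v 2 ^ 2 := by
      rw [EuclideanSpace.real_norm_sq_eq, Fin.sum_univ_three]
    have e1 : (-(1 / 2) - 1 - 1 : ℝ) = -(5 / 2) := by norm_num
    have e2 : (‖v‖ ^ 2 + ε ^ 2) ^ (-(1 / 2) - 1 : ℝ) =
        (‖v‖ ^ 2 + ε ^ 2) * (‖v‖ ^ 2 + ε ^ 2) ^ (-(5 / 2) : ℝ) := by
      rw [← Real.rpow_one_add' hp.le (by norm_num)]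
      norm_num
    rw [e1, e2, Fin.sum_univ_three]
    generalize (‖v‖ ^ 2 + ε ^ 2) ^ (-(5 / 2) : ℝ) = A
    rw [hn]
    ring

private theorem green_cc_pd {f : E3 → ℝ} (hf : Cc f) (d : Fin 3) : Cc (pd d f) := by
  refine ⟨?_, ?_⟩
  · exact (hf.1.fderiv_right (m := (⊤ : ℕ∞)) (by simp)).clm_apply contDiff_const
  · exact hf.2.fderiv_apply ℝ _

private theorem green_smooth_pd {f : E3 → ℝ} (hf : ContDiff ℝ (⊤ : ℕ∞) f) (d : Fin 3) :
    ContDiff ℝ (⊤ : ℕ∞) (pd d f) :=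
  (hf.fderiv_right (m := (⊤ : ℕ∞)) (by simp)).clm_apply contDiff_const

/-- integration by parts -/
theorem ibp (d : Fin 3) (f g : E3 → ℝ) (hf : ContDiff ℝ (⊤ : ℕ∞) f) (hg : Cc g) :
    ∫ v, f v * pd d g v = -∫ v, pd d f v * g v := by
  have hfd := green_smooth_pd hf d
  have hgd := green_cc_pd hg d
  have i1 : Integrable (fun v => pd d f v * g v) :=
    (hfd.continuous.mul hg.1.continuous).integrable_of_hasCompactSupport hg.2.mul_left
  have i2 : Integrable (fun v => f v * pd d g v) :=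
    (hf.continuous.mul hgd.1.continuous).integrable_of_hasCompactSupport hgd.2.mul_left
  have i3 : Integrable (fun v => f v * g v) :=
    (hf.continuous.mul hg.1.continuous).integrable_of_hasCompactSupport hg.2.mul_left
  exact integral_mul_fderiv_eq_neg_fderiv_mul_of_integrable i1 i2 i3
    (fun x _ => (hf.differentiable (by simp)) x) (fun x _ => (hg.1.differentiable (by simp)) x)

private theorem green_lapC {f : E3 → ℝ} (hf : Cc f) : Continuous (lap f) ∧ HasCompactSupport (lap f) := by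
  have h := fun d => green_cc_pd (green_cc_pd hf d) d
  have e : lap f = fun v => pd 0 (pd 0 f) v + pd 1 (pd 1 f) v + pd 2 (pd 2 f) v := by
    funext v
    unfold lap
    rw [Fin.sum_univ_three]
  rw [e]
  exact ⟨((h 0).1.continuous.add (h 1).1.continuous).add (h 2).1.continuous,
    ((h 0).2.add (h 1).2).add (h 2).2⟩

private theorem green_step1 {F : E3 → ℝ} (hF : Cc F) (ε : ℝ) (hε : 0 < ε) :
    ∫ v, (-lap F v) * (‖v‖ ^ 2 + ε ^ 2) ^ (-(1 / 2) : ℝ) =
      ∫ v, F v * (3 * ε ^ 2 * (‖v‖ ^ 2 + ε ^ 2) ^ (-(5 / 2) : ℝ)) := by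
  obtain ⟨hg, hl⟩ := green_lap ε hε
  set g : E3 → ℝ := fun v => (‖v‖ ^ 2 + ε ^ 2) ^ (-(1 / 2) : ℝ) with hgdef
  have s1 : ∀ d, ∫ v, g v * pd d (pd d F) v = ∫ v, pd d (pd d g) v * F v := by
    intro d
    rw [ibp d g (pd d F) hg (green_cc_pd hF d), ibp d (pd d g) F (green_smooth_pd hg d) hF, neg_neg]
  have i1 : ∀ d, Integrable (fun v => g v * pd d (pd d F) v) := fun d =>
    (hg.continuous.mul (green_cc_pd (green_cc_pd hF d) d).1.continuous).integrable_of_hasCompactSupport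
      (green_cc_pd (green_cc_pd hF d) d).2.mul_left
  have i2 : ∀ d, Integrable (fun v => pd d (pd d g) v * F v) := fun d =>
    ((green_smooth_pd (green_smooth_pd hg d) d).continuous.mul hF.1.continuous).integrable_of_hasCompactSupport
      hF.2.mul_left
  have e1 : ∫ v, (-lap F v) * g v = -∑ d, ∫ v, g v * pd d (pd d F) v := by
    rw [← integral_finsetSum _ fun d _ => i1 d, ← integral_neg]
    refine integral_congr_ae (Filter.Eventually.of_forall fun v => ?_)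
    simp only [lap]
    rw [neg_mul, Finset.sum_mul]
    congr 1
    exact Finset.sum_congr rfl fun d _ => mul_comm _ _
  have e2 : ∫ v, F v * (3 * ε ^ 2 * (‖v‖ ^ 2 + ε ^ 2) ^ (-(5 / 2) : ℝ)) =
      -∑ d, ∫ v, pd d (pd d g) v * F v := by
    rw [← integral_finsetSum _ fun d _ => i2 d, ← integral_neg]
    refine integral_congr_ae (Filter.Eventually.of_forall fun v => ?_)
    have h3 := hl v
    unfold lap at h3
    simp only
    rw [← Finset.sum_mul, h3]
    ring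
  rw [e1, e2, Finset.sum_congr rfl fun d _ => s1 d]

private theorem green_step2 (F : E3 → ℝ) (ε : ℝ) (hε : 0 < ε) :
    ∫ v, F v * (3 * ε ^ 2 * (‖v‖ ^ 2 + ε ^ 2) ^ (-(5 / 2) : ℝ)) =
      ∫ u : E3, F (ε • u) * (3 * (1 + ‖u‖ ^ 2) ^ (-(5 / 2) : ℝ)) := by
  have hdim : Module.finrank ℝ E3 = 3 := by simp
  have h := Measure.integral_comp_smul (volume : Measure E3)
    (fun v => F v * (3 * ε ^ 2 * (‖v‖ ^ 2 + ε ^ 2) ^ (-(5 / 2) : ℝ))) ε
  rw [hdim, abs_of_pos (by positivity), smul_eq_mul] at h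
  have e1 : ∀ u : E3, F (ε • u) * (3 * ε ^ 2 * (‖ε • u‖ ^ 2 + ε ^ 2) ^ (-(5 / 2) : ℝ)) =
      (ε ^ 3)⁻¹ * (F (ε • u) * (3 * (1 + ‖u‖ ^ 2) ^ (-(5 / 2) : ℝ))) := by
    intro u
    have e2 : ‖ε • u‖ ^ 2 + ε ^ 2 = ε ^ 2 * (1 + ‖u‖ ^ 2) := by
      rw [norm_smul, Real.norm_of_nonneg hε.le]
      ring
    have e3 : (ε ^ 2) ^ (-(5 / 2) : ℝ) = (ε ^ 5)⁻¹ := by
      rw [← Real.rpow_natCast ε 2, ← Real.rpow_mul hε.le]
      norm_num
    rw [e2, Real.mul_rpow (by positivity) (by positivity), e3]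
    field_simp
  rw [integral_congr_ae (Filter.Eventually.of_forall e1), integral_const_mul] at h
  have h0 : (ε ^ 3)⁻¹ ≠ 0 := by positivity
  exact (mul_left_cancel₀ h0 h).symm

private theorem green_int {h : E3 → ℝ} (hc : Continuous h) (hs : HasCompactSupport h) :
    Integrable (fun v : E3 => h v * ‖v‖⁻¹) := by
  obtain ⟨C, _, hC⟩ := ballinv
  obtain ⟨R, hR⟩ := hs.isCompact.isBounded.subset_ball (0 : E3)
  have hR' : tsupport h ⊆ Metric.ball (0 : E3) (max R 1) := hR.trans (Metric.ball_subset_ball (le_max_left _ _))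
  have h1 : IntegrableOn (fun v : E3 => ‖v‖⁻¹) (Metric.ball (0 : E3) (max R 1)) := by
    refine ⟨(measurable_norm.inv).aestronglyMeasurable, ?_⟩
    have h2 := hC 0 (max R 1) (by positivity)
    refine lt_of_le_of_lt ?_ (lt_of_le_of_lt h2 ENNReal.ofReal_lt_top)
    refine lintegral_mono fun v => ?_
    rw [Real.enorm_eq_ofReal (inv_nonneg.2 (norm_nonneg v))]
  have h3 : IntegrableOn (fun v : E3 => h v * ‖v‖⁻¹) (tsupport h) :=
    (h1.mono_set hR').continuousOn_mul hc.continuousOn hs.isCompact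
  refine (integrableOn_iff_integrable_of_support_subset ?_).1 h3
  intro v hv
  refine subset_tsupport h ?_
  rw [Function.mem_support] at hv ⊢
  intro h0
  exact hv (by rw [h0, zero_mul])

private theorem green_zero {F : E3 → ℝ} (hF : Cc F) : ∫ v, (-lap F v) * ‖v‖⁻¹ = 4 * Real.pi * F 0 := by
  obtain ⟨hm1, hm2⟩ := green_mass
  obtain ⟨hLc, hLs⟩ := green_lapC hF
  have hε : ∀ n : ℕ, (0 : ℝ) < 1 / ((n : ℝ) + 1) := fun n => by positivity
  have hlim : Filter.Tendsto (fun n : ℕ => 1 / ((n : ℝ) + 1)) Filter.atTop (nhds 0) :=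
    tendsto_one_div_add_atTop_nhds_zero_nat
  have hA : Filter.Tendsto (fun n : ℕ => ∫ v, (-lap F v) * (‖v‖ ^ 2 + (1 / ((n : ℝ) + 1)) ^ 2) ^ (-(1 / 2) : ℝ))
      Filter.atTop (nhds (∫ v, (-lap F v) * ‖v‖⁻¹)) := by
    refine tendsto_integral_of_dominated_convergence (fun v => ‖lap F v * ‖v‖⁻¹‖) ?_
      (green_int hLc hLs).norm ?_ ?_
    · intro n
      exact (hLc.neg.mul (green_lap _ (hε n)).1.continuous).aestronglyMeasurable
    · intro n
      have hne : ∀ᵐ v : E3, v ≠ 0 := by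
        rw [ae_iff]
        simp
      filter_upwards [hne] with v hv
      rw [norm_mul, norm_neg, norm_mul]
      refine mul_le_mul_of_nonneg_left ?_ (norm_nonneg _)
      have hv0 : 0 < ‖v‖ := norm_pos_iff.2 hv
      rw [Real.norm_of_nonneg (by positivity), Real.norm_of_nonneg (by positivity)]
      have e1 : ‖v‖⁻¹ = (‖v‖ ^ 2) ^ (-(1 / 2) : ℝ) := by
        rw [← Real.rpow_natCast ‖v‖ 2, ← Real.rpow_mul hv0.le]
        norm_num
        exact (Real.rpow_neg_one _).symm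
      rw [e1]
      refine Real.rpow_le_rpow_of_nonpos (by positivity) ?_ (by norm_num)
      have : 0 ≤ (1 / ((n : ℝ) + 1)) ^ 2 := by positivity
      linarith
    · have hne : ∀ᵐ v : E3, v ≠ 0 := by
        rw [ae_iff]
        simp
      filter_upwards [hne] with v hv
      have hv0 : 0 < ‖v‖ := norm_pos_iff.2 hv
      refine Filter.Tendsto.const_mul _ ?_
      have e1 : ‖v‖⁻¹ = (‖v‖ ^ 2 + 0 ^ 2) ^ (-(1 / 2) : ℝ) := by
        rw [zero_pow two_ne_zero, add_zero, ← Real.rpow_natCast ‖v‖ 2, ← Real.rpow_mul hv0.le]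
        norm_num
        exact (Real.rpow_neg_one _).symm
      rw [e1]
      refine Filter.Tendsto.rpow_const ?_ (Or.inl (by positivity))
      exact (hlim.pow 2).const_add _
  have hB : Filter.Tendsto (fun n : ℕ => ∫ u : E3, F ((1 / ((n : ℝ) + 1)) • u) *
      (3 * (1 + ‖u‖ ^ 2) ^ (-(5 / 2) : ℝ))) Filter.atTop
      (nhds (∫ u : E3, F 0 * (3 * (1 + ‖u‖ ^ 2) ^ (-(5 / 2) : ℝ)))) := by
    obtain ⟨C, hC⟩ := hF.2.exists_bound_of_continuous hF.1.continuous
    refine tendsto_integral_of_dominated_convergence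
      (fun u : E3 => C * (3 * (1 + ‖u‖ ^ 2) ^ (-(5 / 2) : ℝ))) ?_ (hm1.const_mul C) ?_ ?_
    · intro n
      refine AEStronglyMeasurable.mul ?_ hm1.aestronglyMeasurable
      exact (hF.1.continuous.comp (continuous_const_smul _)).aestronglyMeasurable
    · intro n
      refine Filter.Eventually.of_forall fun u => ?_
      rw [norm_mul]
      have h1 : (0 : ℝ) ≤ 3 * (1 + ‖u‖ ^ 2) ^ (-(5 / 2) : ℝ) := by positivity
      rw [Real.norm_of_nonneg h1]
      exact mul_le_mul_of_nonneg_right (hC _) h1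
    · refine Filter.Eventually.of_forall fun u => ?_
      refine Filter.Tendsto.mul_const _ ?_
      have h2 : Filter.Tendsto (fun n : ℕ => (1 / ((n : ℝ) + 1)) • u) Filter.atTop (nhds ((0 : ℝ) • u)) :=
        hlim.smul_const u
      rw [zero_smul] at h2
      exact (hF.1.continuous.tendsto 0).comp h2
  have hAB : (fun n : ℕ => ∫ v, (-lap F v) * (‖v‖ ^ 2 + (1 / ((n : ℝ) + 1)) ^ 2) ^ (-(1 / 2) : ℝ)) =
      fun n : ℕ => ∫ u : E3, F ((1 / ((n : ℝ) + 1)) • u) * (3 * (1 + ‖u‖ ^ 2) ^ (-(5 / 2) : ℝ)) := by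
    funext n
    rw [green_step1 hF _ (hε n), green_step2 F _ (hε n)]
  rw [hAB] at hA
  rw [tendsto_nhds_unique hA hB, integral_const_mul, hm2]
  ring

private theorem green_shift (f : E3 → ℝ) (x : E3) (d : Fin 3) :
    pd d (fun v => f (x + v)) = fun v => pd d f (x + v) := by
  funext v
  unfold pd
  rw [fderiv_comp_add_left]

theorem green (f : E3 → ℝ) (hf : Cc f) (x : E3) :
    ∫ y, (-lap f y) * ‖x - y‖⁻¹ = 4 * Real.pi * f x := by
  have hF : Cc (fun v => f (x + v)) := by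
    refine ⟨hf.1.comp (contDiff_const.add contDiff_id), ?_⟩
    exact hf.2.comp_homeomorph (Homeomorph.addLeft x)
  have h1 := green_zero hF
  rw [add_zero] at h1
  rw [← h1, ← integral_add_left_eq_self (fun y => (-lap f y) * ‖x - y‖⁻¹) x]
  refine integral_congr_ae (Filter.Eventually.of_forall fun v => ?_)
  have e1 : lap (fun v => f (x + v)) v = lap f (x + v) := by
    unfold lap
    refine Finset.sum_congr rfl fun d _ => ?_
    rw [green_shift, green_shift]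
  have e2 : x - (x + v) = -v := by abel
  simp only
  rw [e1, e2, norm_neg]

end H6.CB
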