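import Pool.Agent.H6.CB.Defs

/-! Definitions for the local electrostatic inequality. -/

open MeasureTheory Finset

namespace H6.CB

open H6.CM

/-- partial derivative -/
noncomputable def pd (d : Fin 3) (f : E3 → ℝ) (v : E3) : ℝ :=
  fderiv ℝ f v (EuclideanSpace.single d 1)

/-- the Laplacian -/
noncomputable def lap (f : E3 → ℝ) (v : E3) : ℝ := ∑ d : Fin 3, pd d (pd d f) v

/-- the Coulomb potential of a density -/
noncomputable def pot (ρ : E3 → ℝ) (x : E3) : ℝ := ∫ y, ρ y * ‖x - y‖⁻¹

/-- the Coulomb energy form (without the factor one half) -/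
noncomputable def Dd (ρ σ : E3 → ℝ) : ℝ := ∫ x, ρ x * pot σ x

/-- smooth with compact support -/
def Cc (f : E3 → ℝ) : Prop := ContDiff ℝ (⊤ : ℕ∞) f ∧ HasCompactSupport f

/-- the kernel of the localisation error -/
noncomputable def KJ (J : E3 → ℝ) (u v : E3) : ℝ := (J u - J v) ^ 2 * ‖u - v‖⁻¹

end H6.CB
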