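import Pool.Agent.H6.CB.UhF
import Pool.Agent.H6.CM.BallInv

/-! The potential itself in `L²` of a ball, compared with the smeared potential. Almost everywhere `phi z p v - ph χ s z p v = ∑ e_i κ (v - y_i)` with `κ v = ‖v‖⁻¹ - UU χ s v`, `0 ≤ κ v ≤ ‖v‖⁻¹` and `κ v = 0` for `s ≤ ‖v‖` (`UU_inv`, `UU_eq`). So the square is at most `max 1 zp ^ 2 * ∑ i l, κ (v - y_i) κ (v - y_l)`, and `∫ κ (v - y) κ (v - y') ≤ ∫ κ (v - y) ^ 2 ≤ C s` (e.g. `2 a b ≤ a² + b²`, `∫ over the ball of radius s of ‖v‖⁻²` is `C s`), and it vanishes unless `‖y - y'‖ < 2 s`; only `y_i` in the ball of radius `3` around `x` contribute. For such a pair the ball of radius `s` around `y_i` is contained in the ball of radius `4` around `x`, and for `v` in it both particles are counted in `ce p v (3 s) + cn p v (3 s)`; so the number of pairs is at most `C s⁻³ ∫ (ce + cn) ^ 2`. (`ph` is continuous, `phi` is square integrable on the ball.) -/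

open MeasureTheory Finset

namespace H6.CB

open H6.CM

/-- the truncated inverse norm -/
private noncomputable def plk (s : ℝ) (v : E3) : ℝ := if ‖v‖ < s then ‖v‖⁻¹ else 0

private theorem plk_nonneg (s : ℝ) (v : E3) : 0 ≤ plk s v := by
  unfold plk
  split_ifs
  · exact inv_nonneg.2 (norm_nonneg v)
  · exact le_rfl

private theorem plk_meas (s : ℝ) : Measurable (plk s) := by
  unfold plk
  refine Measurable.ite (measurableSet_lt measurable_norm measurable_const) ?_ measurable_const
  exact measurable_norm.inv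

private theorem plk_sq (s : ℝ) (hs : 0 < s) :
    Integrable (fun v : E3 => plk s v ^ 2) ∧
      ∫ v : E3, plk s v ^ 2 = 3 * (volume : Measure E3).real (Metric.ball (0 : E3) 1) * s := by
  have hdim : Module.finrank ℝ E3 = 3 := by simp
  set f : ℝ → ℝ := (Set.Iio s).indicator fun y => y⁻¹ ^ 2 with hf
  have e1 : ∀ v : E3, plk s v ^ 2 = f ‖v‖ := by
    intro v
    unfold plk
    by_cases hv : ‖v‖ < s
    · rw [if_pos hv, hf, Set.indicator_of_mem (by simpa using hv)]
    · rw [if_neg hv, hf, Set.indicator_of_notMem (by simpa using hv)]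
      norm_num
  have e2 : ∀ y ∈ Set.Ioi (0 : ℝ), y ^ (Module.finrank ℝ E3 - 1) • f y =
      (Set.Ioo (0 : ℝ) s).indicator (fun _ => (1 : ℝ)) y := by
    intro y hy
    have hy0 : (0 : ℝ) < y := hy
    rw [hdim]
    by_cases hyr : y < s
    · have hm : y ∈ Set.Ioo (0 : ℝ) s := ⟨hy0, hyr⟩
      have hm' : y ∈ Set.Iio s := hyr
      rw [hf, Set.indicator_of_mem hm', Set.indicator_of_mem hm]
      simp only [smul_eq_mul, Nat.add_one_sub_one]
      field_simp
    · rw [hf, Set.indicator_of_notMem (by simpa using hyr), Set.indicator_of_notMem (fun h => hyr h.2)]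
      simp
  have hint1 : IntegrableOn (fun y : ℝ => y ^ (Module.finrank ℝ E3 - 1) • f y) (Set.Ioi 0) := by
    rw [integrableOn_congr_fun e2 measurableSet_Ioi]
    have h1 : Integrable ((Set.Ioo (0 : ℝ) s).indicator fun _ : ℝ => (1 : ℝ)) := by
      rw [integrable_indicator_iff measurableSet_Ioo]
      exact integrableOn_const (hs := measure_Ioo_lt_top.ne)
    exact h1.integrableOn
  have hint : Integrable (fun v : E3 => f ‖v‖) := (integrable_fun_norm_addHaar volume).2 hint1
  have hval : ∫ y in Set.Ioi (0 : ℝ), y ^ (Module.finrank ℝ E3 - 1) • f y = s := by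
    rw [setIntegral_congr_fun measurableSet_Ioi e2, setIntegral_indicator measurableSet_Ioo]
    have h1 : Set.Ioi (0 : ℝ) ∩ Set.Ioo 0 s = Set.Ioo 0 s := by
      ext y
      simp only [Set.mem_inter_iff, Set.mem_Ioi, Set.mem_Ioo]
      tauto
    rw [h1, setIntegral_const, smul_eq_mul, mul_one, Real.volume_real_Ioo_of_le hs.le, sub_zero]
  simp only [e1]
  refine ⟨hint, ?_⟩
  rw [integral_fun_norm_addHaar volume f, hval, hdim]
  simp only [nsmul_eq_mul, smul_eq_mul]
  push_cast
  ring

private theorem plk_int (y : E3) (s : ℝ) (hs : 0 < s) :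
    Integrable (fun v : E3 => plk s (v - y) ^ 2) ∧
      ∫ v : E3, plk s (v - y) ^ 2 =
        3 * (volume : Measure E3).real (Metric.ball (0 : E3) 1) * s := by
  obtain ⟨h1, h2⟩ := plk_sq s hs
  refine ⟨h1.comp_sub_right y, ?_⟩
  rw [integral_sub_right_eq_self (fun v => plk s v ^ 2) y, h2]

private theorem plk_ball (y : E3) (s : ℝ) : (fun v : E3 => plk s (v - y) ^ 2) =
    (Metric.ball y s).indicator (fun v => ‖v - y‖⁻¹ ^ 2) := by
  funext v
  unfold plk
  by_cases hv : ‖v - y‖ < s
  · have hm : v ∈ Metric.ball y s := by rwa [Metric.mem_ball, dist_eq_norm]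
    rw [if_pos hv, Set.indicator_of_mem hm]
  · have hm : v ∉ Metric.ball y s := by rwa [Metric.mem_ball, dist_eq_norm]
    rw [if_neg hv, Set.indicator_of_notMem hm]
    norm_num

/-- square integrability of the inverse distance -/
theorem inv_sq : ∃ C : ℝ, 0 ≤ C ∧ ∀ (y : E3) (s : ℝ), 0 < s →
    IntegrableOn (fun v => ‖v - y‖⁻¹ ^ 2) (Metric.ball y s) ∧
    ∫ v in Metric.ball y s, ‖v - y‖⁻¹ ^ 2 ≤ C * s := by
  refine ⟨3 * (volume : Measure E3).real (Metric.ball (0 : E3) 1),
    mul_nonneg (by norm_num) measureReal_nonneg, fun y s hs => ?_⟩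
  obtain ⟨h1, h2⟩ := plk_int y s hs
  rw [plk_ball] at h1 h2
  refine ⟨(integrable_indicator_iff measurableSet_ball).1 h1, ?_⟩
  rw [integral_indicator measurableSet_ball] at h2
  exact h2.le

private theorem pl_inv (y x : E3) (r : ℝ) :
    MemLp (fun v : E3 => ‖v - y‖⁻¹) 2 (volume.restrict (Metric.ball x r)) := by
  obtain ⟨C, -, h⟩ := inv_sq
  have hm : Measurable (fun v : E3 => ‖v - y‖⁻¹) := (measurable_id.sub_const y).norm.inv
  rw [memLp_two_iff_integrable_sq hm.aestronglyMeasurable]
  have hR : 0 < max r 0 + ‖x - y‖ + 1 := by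
    have h1 := norm_nonneg (x - y)
    have h2 := le_max_right r 0
    linarith
  refine (h y (max r 0 + ‖x - y‖ + 1) hR).1.mono_set fun v hv => ?_
  rw [Metric.mem_ball] at hv ⊢
  have h1 := dist_triangle v x y
  rw [dist_eq_norm x y] at h1
  have h2 := le_max_left r 0
  linarith

private theorem pl_fin (x : E3) (r : ℝ) : IsFiniteMeasure (volume.restrict (Metric.ball x r)) :=
  ⟨by
    rw [Measure.restrict_apply_univ]
    exact measure_ball_lt_top⟩

theorem phi_sq {n k : ℕ} (z : Fin k → ℝ) (p : Cfg n k) (c : ℝ) (x : E3) (r : ℝ) :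
    IntegrableOn (fun v => (phi z p v - c) ^ 2) (Metric.ball x r) := by
  have := pl_fin x r
  have h1 : MemLp (fun v => phi z p v - c) 2 (volume.restrict (Metric.ball x r)) := by
    unfold phi
    refine MemLp.sub (MemLp.sub ?_ ?_) (memLp_const c)
    · exact memLp_finsetSum _ fun j _ => (pl_inv (p.2 j) x r).const_mul (z j)
    · exact memLp_finsetSum _ fun a _ => pl_inv (p.1 a) x r
  exact h1.integrable_sq

private theorem pl_sumM {ι : Type} [Fintype ι] (y : ι → E3) (x : E3) (r s : ℝ) (hs : 0 < s) :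
    IntegrableOn (fun v => (∑ i, plk s (v - y i)) ^ 2) (Metric.ball x r) := by
  have h1 : MemLp (fun v => ∑ i, plk s (v - y i)) 2 (volume.restrict (Metric.ball x r)) := by
    refine memLp_finsetSum _ fun i _ => ?_
    have hm : Measurable (fun v : E3 => plk s (v - y i)) :=
      (plk_meas s).comp (measurable_id.sub_const (y i))
    rw [memLp_two_iff_integrable_sq hm.aestronglyMeasurable]
    exact (plk_int (y i) s hs).1.integrableOn
  exact h1.integrable_sq

private theorem pl_core {ι : Type} [Fintype ι] (y : ι → E3) (x : E3) (s : ℝ) (hs : 0 < s)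
    (hs1 : s ≤ 1) :
    ∫ v in Metric.ball x 2, (∑ i, plk s (v - y i)) ^ 2 ≤
      3 * ((s ^ 2)⁻¹ * ∫ v in Metric.ball x 4,
        (∑ i, if ‖y i - v‖ < 3 * s then (1 : ℝ) else 0) ^ 2) := by
  have := pl_fin x 4
  set κ : ℝ := (volume : Measure E3).real (Metric.ball (0 : E3) 1) with hκ
  set M : ι → ℝ := fun i => ∑ l, if ‖y l - y i‖ < 2 * s then (1 : ℝ) else 0 with hM
  have hM0 : ∀ i, 0 ≤ M i := fun i => sum_nonneg fun l _ => by positivity
  set N : E3 → ℝ := fun v => ∑ i, if ‖y i - v‖ < 3 * s then (1 : ℝ) else 0 with hN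
  have hN0 : ∀ v, 0 ≤ N v := fun v => sum_nonneg fun l _ => by positivity
  set T : ℝ := ∑ i, if ‖y i - x‖ < 3 then M i else 0 with hT
  -- the first bound
  have a1 : ∫ v in Metric.ball x 2, (∑ i, plk s (v - y i)) ^ 2 ≤ 3 * κ * s * T := by
    set g : ι → E3 → ℝ := fun i v => if ‖y i - x‖ < 3 then M i * plk s (v - y i) ^ 2 else 0
      with hg
    have hgI : ∀ i, Integrable (g i) := by
      intro i
      by_cases h : ‖y i - x‖ < 3
      · simp only [hg, if_pos h]
        exact (plk_int (y i) s hs).1.const_mul _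
      · simp only [hg, if_neg h]
        exact integrable_zero _ _ _
    have hgv : ∀ i, ∫ v, g i v = 3 * κ * s * (if ‖y i - x‖ < 3 then M i else 0) := by
      intro i
      by_cases h : ‖y i - x‖ < 3
      · simp only [hg, if_pos h]
        rw [integral_const_mul, (plk_int (y i) s hs).2]
        ring
      · simp only [hg, if_neg h]
        rw [integral_zero, mul_zero]
    have hg0 : ∀ v, 0 ≤ ∑ i, g i v := by
      intro v
      refine sum_nonneg fun i _ => ?_
      simp only [hg]
      split_ifs
      · exact mul_nonneg (hM0 i) (sq_nonneg _)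
      · exact le_rfl
    have hpt : ∀ v ∈ Metric.ball x 2, (∑ i, plk s (v - y i)) ^ 2 ≤ ∑ i, g i v := by
      intro v hv
      rw [Metric.mem_ball, dist_eq_norm] at hv
      set A : Finset ι := univ.filter fun i => ‖v - y i‖ < s with hA
      have b1 : ∑ i, plk s (v - y i) = ∑ i ∈ A, ‖v - y i‖⁻¹ := by
        rw [hA, sum_filter]
        rfl
      have b2 : ∀ i ∈ A, (A.card : ℝ) ≤ M i := by
        intro i hi
        have hi' : ‖v - y i‖ < s := (mem_filter.1 hi).2
        have b3 : (A.card : ℝ) = ∑ l, if ‖v - y l‖ < s then (1 : ℝ) else 0 := by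
          rw [← sum_filter, sum_const, nsmul_eq_mul, mul_one]
        rw [b3]
        refine sum_le_sum fun l _ => ?_
        by_cases hl : ‖v - y l‖ < s
        · have b4 : ‖y l - y i‖ < 2 * s := by
            have b5 : ‖y l - y i‖ ≤ ‖y l - v‖ + ‖v - y i‖ := norm_sub_le_norm_sub_add_norm_sub _ _ _
            rw [norm_sub_rev (y l) v] at b5
            linarith
          rw [if_pos hl, if_pos b4]
        · rw [if_neg hl]
          positivity
      rw [b1]
      refine (sq_sum_le_card_mul_sum_sq).trans ?_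
      rw [mul_sum]
      have b6 : ∀ i ∈ A, (A.card : ℝ) * ‖v - y i‖⁻¹ ^ 2 ≤ g i v := by
        intro i hi
        have hi' : ‖v - y i‖ < s := (mem_filter.1 hi).2
        have b7 : ‖y i - x‖ < 3 := by
          have b5 : ‖y i - x‖ ≤ ‖y i - v‖ + ‖v - x‖ := norm_sub_le_norm_sub_add_norm_sub _ _ _
          rw [norm_sub_rev (y i) v] at b5
          linarith
        simp only [hg, if_pos b7]
        unfold plk
        rw [if_pos hi']
        exact mul_le_mul_of_nonneg_right (b2 i hi) (sq_nonneg _)
      refine (sum_le_sum b6).trans ?_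
      refine sum_le_sum_of_subset_of_nonneg (subset_univ _) fun i _ _ => ?_
      simp only [hg]
      split_ifs
      · exact mul_nonneg (hM0 i) (sq_nonneg _)
      · exact le_rfl
    have hsI : Integrable (fun v => ∑ i, g i v) := integrable_finsetSum _ fun i _ => hgI i
    calc ∫ v in Metric.ball x 2, (∑ i, plk s (v - y i)) ^ 2
        ≤ ∫ v in Metric.ball x 2, ∑ i, g i v :=
          setIntegral_mono_on (pl_sumM y x 2 s hs) hsI.integrableOn measurableSet_ball hpt
      _ ≤ ∫ v, ∑ i, g i v :=
          setIntegral_le_integral hsI (Filter.Eventually.of_forall hg0)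
      _ = ∑ i, ∫ v, g i v := integral_finsetSum _ fun i _ => hgI i
      _ = 3 * κ * s * T := by
          rw [sum_congr rfl fun i _ => hgv i, ← mul_sum]
  -- the second bound
  have a2 : κ * s ^ 3 * T ≤ ∫ v in Metric.ball x 4, N v ^ 2 := by
    have hind : ∀ (i : ι) (t : ℝ), Measurable (fun v : E3 => if ‖y i - v‖ < t then (1 : ℝ) else 0) := by
      intro i t
      refine Measurable.ite (measurableSet_lt ?_ measurable_const) measurable_const measurable_const
      exact (measurable_const.sub measurable_id).norm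
    have hbd : ∀ (F : E3 → ℝ) (_ : Measurable F) (B : ℝ) (_ : ∀ v, |F v| ≤ B),
        IntegrableOn F (Metric.ball x 4) := by
      intro F hF B hB
      refine Integrable.mono' (g := fun _ => B) (integrable_const B) hF.aestronglyMeasurable
        (Filter.Eventually.of_forall fun v => ?_)
      rw [Real.norm_eq_abs]
      exact hB v
    have hI1 : ∀ (i : ι) (t : ℝ),
        IntegrableOn (fun v : E3 => if ‖y i - v‖ < t then (1 : ℝ) else 0) (Metric.ball x 4) := by
      intro i t
      refine hbd _ (hind i t) 1 fun v => ?_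
      split_ifs <;> simp
    have hNm : Measurable N := Finset.measurable_fun_sum _ fun i _ => hind i (3 * s)
    have hNb : ∀ v, N v ≤ Fintype.card ι := by
      intro v
      have : N v ≤ ∑ _i : ι, (1 : ℝ) := sum_le_sum fun i _ => by split_ifs <;> norm_num
      simpa using this
    have hN2 : IntegrableOn (fun v => N v ^ 2) (Metric.ball x 4) := by
      refine hbd _ (hNm.pow_const 2) ((Fintype.card ι : ℝ) ^ 2) fun v => ?_
      rw [abs_of_nonneg (sq_nonneg _)]
      exact pow_le_pow_left₀ (hN0 v) (hNb v) 2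
    have hvol : ∀ i, ‖y i - x‖ < 3 →
        ∫ v in Metric.ball x 4, (if ‖y i - v‖ < s then (1 : ℝ) else 0) = κ * s ^ 3 := by
      intro i hi
      have b1 : (fun v : E3 => if ‖y i - v‖ < s then (1 : ℝ) else 0) =
          (Metric.ball (y i) s).indicator (fun _ => (1 : ℝ)) := by
        funext v
        by_cases hv : ‖y i - v‖ < s
        · have hm : v ∈ Metric.ball (y i) s := by
            rwa [Metric.mem_ball, dist_comm, dist_eq_norm]
          rw [if_pos hv, Set.indicator_of_mem hm]
        · have hm : v ∉ Metric.ball (y i) s := by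
            rwa [Metric.mem_ball, dist_comm, dist_eq_norm]
          rw [if_neg hv, Set.indicator_of_notMem hm]
      have b2 : Metric.ball x 4 ∩ Metric.ball (y i) s = Metric.ball (y i) s := by
        refine Set.inter_eq_right.2 fun v hv => ?_
        rw [Metric.mem_ball] at hv ⊢
        have b3 := dist_triangle v (y i) x
        rw [dist_eq_norm (y i) x] at b3
        linarith
      rw [b1, setIntegral_indicator measurableSet_ball, b2, setIntegral_const, smul_eq_mul, mul_one]
      unfold Measure.real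
      rw [Measure.addHaar_ball volume (y i) hs.le, ENNReal.toReal_mul,
        ENNReal.toReal_ofReal (by positivity)]
      have hdim : Module.finrank ℝ E3 = 3 := by simp
      rw [hdim, hκ]
      unfold Measure.real
      ring
    have hsum : κ * s ^ 3 * T = ∫ v in Metric.ball x 4,
        ∑ i, (if ‖y i - x‖ < 3 then M i else 0) * (if ‖y i - v‖ < s then (1 : ℝ) else 0) := by
      rw [integral_finsetSum _ fun i _ => (hI1 i s).const_mul _, hT, mul_sum]
      refine sum_congr rfl fun i _ => ?_
      rw [integral_const_mul]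
      by_cases h : ‖y i - x‖ < 3
      · rw [if_pos h, hvol i h, mul_comm]
      · rw [if_neg h, mul_zero, zero_mul]
    rw [hsum]
    refine setIntegral_mono_on (integrable_finsetSum _ fun i _ => (hI1 i s).const_mul _) hN2
      measurableSet_ball fun v _ => ?_
    have b1 : N v ^ 2 = ∑ i, N v * (if ‖y i - v‖ < 3 * s then (1 : ℝ) else 0) := by
      rw [← mul_sum, sq]
    rw [b1]
    refine sum_le_sum fun i _ => ?_
    by_cases h1 : ‖y i - v‖ < s
    · have h2 : ‖y i - v‖ < 3 * s := by linarith
      rw [if_pos h1, if_pos h2, mul_one, mul_one]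
      have h3 : M i ≤ N v := by
        refine sum_le_sum fun l _ => ?_
        by_cases hl : ‖y l - y i‖ < 2 * s
        · have h4 : ‖y l - v‖ < 3 * s := by
            have b5 : ‖y l - v‖ ≤ ‖y l - y i‖ + ‖y i - v‖ := norm_sub_le_norm_sub_add_norm_sub _ _ _
            linarith
          rw [if_pos hl, if_pos h4]
        · rw [if_neg hl]
          positivity
      split_ifs
      · exact h3
      · exact hN0 v
    · rw [if_neg h1, mul_zero]
      exact mul_nonneg (hN0 v) (by positivity)
  have hT0 : 0 ≤ T := sum_nonneg fun i _ => by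
    split_ifs
    · exact hM0 i
    · exact le_rfl
  refine a1.trans ?_
  have a3 : 3 * κ * s * T = 3 * ((s ^ 2)⁻¹ * (κ * s ^ 3 * T)) := by
    field_simp
  rw [a3]
  exact mul_le_mul_of_nonneg_left (mul_le_mul_of_nonneg_left a2 (by positivity)) (by norm_num)

private theorem pl_kap {χ : E3 → ℝ} (hχ : Bump χ) (s : ℝ) (hs : 0 < s) (w : E3) (hw : w ≠ 0) :
    |‖w‖⁻¹ - UU χ s w| ≤ plk s w := by
  have h1 := UU_inv hχ s hs w hw
  have h2 := UU_nonneg hχ s hs w
  rw [abs_of_nonneg (by linarith)]
  unfold plk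
  by_cases h : ‖w‖ < s
  · rw [if_pos h]
    linarith
  · rw [if_neg h, UU_eq hχ s hs w (not_lt.1 h), sub_self]

theorem ph_l2 (zp : ℝ) {χ : E3 → ℝ} (hχ : Bump χ) : ∃ C : ℝ, 0 ≤ C ∧
    ∀ (n k : ℕ) (z : Fin k → ℝ) (_ : ∀ j, 0 ≤ z j ∧ z j ≤ zp) (p : Cfg n k) (x : E3) (c : ℝ)
    (s : ℝ) (_ : 0 < s) (_ : s ≤ 1),
    ∫ v in Metric.ball x 2, (phi z p v - c) ^ 2 ≤
      2 * (∫ v in Metric.ball x 2, (ph χ s z p v - c) ^ 2) +
      C * ((s ^ 2)⁻¹ * ∫ v in Metric.ball x 4, (ce p v (3 * s) + cn p v (3 * s)) ^ 2) := by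
  refine ⟨6 * max 1 zp ^ 2, by positivity, ?_⟩
  intro n k z hz p x c s hs hs1
  have := pl_fin x 2
  set m : ℝ := max 1 zp with hm
  have hm1 : 1 ≤ m := le_max_left _ _
  have hzm : ∀ j, z j ≤ m := fun j => (hz j).2.trans (le_max_right _ _)
  set y : Fin n ⊕ Fin k → E3 := Sum.elim p.1 p.2 with hy
  have hc : ∀ v, ce p v (3 * s) + cn p v (3 * s) =
      ∑ i, if ‖y i - v‖ < 3 * s then (1 : ℝ) else 0 := by
    intro v
    rw [Fintype.sum_sum_type]
    rfl
  simp only [hc]
  have hcore := pl_core y x s hs hs1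
  have hphc : Continuous (fun v => ph χ s z p v) := by
    have hU : Continuous (UU χ s) := (UU_smooth hχ s hs).continuous
    unfold ph
    exact (continuous_finsetSum _ fun j _ =>
      continuous_const.mul (hU.comp (continuous_id.sub continuous_const))).sub
      (continuous_finsetSum _ fun a _ => hU.comp (continuous_id.sub continuous_const))
  have hI1 : IntegrableOn (fun v => (ph χ s z p v - c) ^ 2) (Metric.ball x 2) := by
    have h1 : Continuous (fun v => (ph χ s z p v - c) ^ 2) := (hphc.sub continuous_const).pow 2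
    exact (h1.continuousOn.integrableOn_compact (isCompact_closedBall x 2)).mono_set
      Metric.ball_subset_closedBall
  have hI2 := pl_sumM y x 2 s hs
  have hae : ∀ᵐ v ∂(volume.restrict (Metric.ball x 2)), (phi z p v - c) ^ 2 ≤
      2 * (ph χ s z p v - c) ^ 2 + 2 * m ^ 2 * (∑ i, plk s (v - y i)) ^ 2 := by
    have h1 : ∀ᵐ v : E3, v ∉ Set.range y := (Set.finite_range y).countable.ae_notMem volume
    refine ae_restrict_of_ae ?_
    filter_upwards [h1] with v hv
    have hv' : ∀ i, v - y i ≠ 0 := by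
      intro i h0
      exact hv ⟨i, (sub_eq_zero.1 h0).symm⟩
    have h2 : |phi z p v - ph χ s z p v| ≤ m * ∑ i, plk s (v - y i) := by
      have h3 : phi z p v - ph χ s z p v =
          ∑ j, z j * (‖v - p.2 j‖⁻¹ - UU χ s (v - p.2 j)) -
            ∑ a, (‖v - p.1 a‖⁻¹ - UU χ s (v - p.1 a)) := by
        unfold phi ph
        simp only [mul_sub, sum_sub_distrib]
        ring
      rw [h3, Fintype.sum_sum_type, mul_add]
      refine (abs_sub _ _).trans ?_
      rw [add_comm]
      refine add_le_add ?_ ?_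
      · refine (abs_sum_le_sum_abs _ _).trans ?_
        rw [mul_sum]
        refine sum_le_sum fun a _ => ?_
        have h4 := pl_kap hχ s hs (v - p.1 a) (hv' (Sum.inl a))
        have h5 : plk s (v - y (Sum.inl a)) = plk s (v - p.1 a) := rfl
        rw [h5]
        have h6 := plk_nonneg s (v - p.1 a)
        nlinarith
      · refine (abs_sum_le_sum_abs _ _).trans ?_
        rw [mul_sum]
        refine sum_le_sum fun j _ => ?_
        have h4 := pl_kap hχ s hs (v - p.2 j) (hv' (Sum.inr j))
        have h5 : plk s (v - y (Sum.inr j)) = plk s (v - p.2 j) := rfl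
        rw [h5, abs_mul, abs_of_nonneg (hz j).1]
        exact mul_le_mul (hzm j) h4 (abs_nonneg _) (by linarith)
    have h7 : (phi z p v - ph χ s z p v) ^ 2 ≤ m ^ 2 * (∑ i, plk s (v - y i)) ^ 2 := by
      rw [← mul_pow, ← sq_abs]
      exact pow_le_pow_left₀ (abs_nonneg _) h2 2
    nlinarith [sq_nonneg ((ph χ s z p v - c) - (phi z p v - ph χ s z p v))]
  have hI3 : IntegrableOn (fun v => 2 * (ph χ s z p v - c) ^ 2 +
      2 * m ^ 2 * (∑ i, plk s (v - y i)) ^ 2) (Metric.ball x 2) :=
    (hI1.const_mul 2).add (hI2.const_mul (2 * m ^ 2))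
  have hmain := integral_mono_ae (phi_sq z p c x 2) hI3 hae
  have e1 : (∫ v in Metric.ball x 2, (2 * (ph χ s z p v - c) ^ 2 +
      2 * m ^ 2 * (∑ i, plk s (v - y i)) ^ 2)) =
      2 * (∫ v in Metric.ball x 2, (ph χ s z p v - c) ^ 2) +
        2 * m ^ 2 * ∫ v in Metric.ball x 2, (∑ i, plk s (v - y i)) ^ 2 := by
    rw [integral_add (hI1.const_mul 2) (hI2.const_mul (2 * m ^ 2)), integral_const_mul,
      integral_const_mul]
  rw [e1] at hmain
  have h8 := mul_le_mul_of_nonneg_left hcore (show (0 : ℝ) ≤ 2 * m ^ 2 by positivity)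
  linarith

end H6.CB
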