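import Pool.Agent.H6.CB.HSm
import Pool.Agent.H6.CB.NMax
import Pool.Agent.H6.CB.PhL2

/-! From smooth densities to point charges. Apply `hsm` to `ρ = ∑ i, e i * chr χ t (v - y i) ^ 2` (a bump `χ`, `bump_ex`) and let `t → 0`. By `Dd_int` the right side is `(1/2) ∫∫ ρ ρ' KJ - c ∫ J² ρ` (symmetrise: `J(u)² - J(u) J(v)` and `KJ = (J(u) - J(v))² / ‖u - v‖`), and `KJ` is continuous (Lipschitz `J`, `Jc_lip`), bounded on compact sets, `KJ u u = 0`; so it tends to `(1/2) ∑ i l, e i e l KJ (y i) (y l) - c ∑ e i J (y i)²` (the densities are probability measures supported in the ball of radius `t / 2` around `y i`). On the left `pot ρ v = ∑ e i U (chr χ t) (v - y i)`, which equals `∑ e i ‖v - y i‖⁻¹` except within `t / 2` of some `y i` (`U_out`, `U_le`), so the integral of the square converges (`inv_sq`, Minkowski or `2 a b ≤ η a² + b² / η`). -/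

open MeasureTheory Finset

namespace H6.CB

open H6.CM

private theorem hmo_cc {χ : E3 → ℝ} (h : Bump χ) (t : ℝ) (ht : 0 < t) (y : E3) :
    Cc (fun v => chr χ t (v - y) ^ 2) := by
  refine ⟨((chr_smooth h t ht).comp (contDiff_id.sub contDiff_const)).pow 2, ?_⟩
  refine HasCompactSupport.intro (isCompact_closedBall y (t / 2)) fun v hv => ?_
  have h0 : chr χ t (v - y) = 0 := by
    by_contra h0
    apply hv
    rw [Metric.mem_closedBall, dist_eq_norm]
    exact (chr_supp h t ht _ h0).le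
  rw [h0]
  norm_num

private theorem hmo_one {χ : E3 → ℝ} (h : Bump χ) (t : ℝ) (ht : 0 < t) (y : E3) :
    ∫ v, chr χ t (v - y) ^ 2 = 1 := by
  rw [integral_sub_right_eq_self (fun v => chr χ t v ^ 2) y]
  exact chr_norm h t ht

private theorem hmo_int (f : E3 → ℝ) (hf : Cc f) : Integrable f :=
  hf.1.continuous.integrable_of_hasCompactSupport hf.2

private theorem hmo_apx {X : Type*} [MeasurableSpace X] [PseudoMetricSpace X] (μ : Measure X)
    (f : X → ℝ) (x0 : X) (hf : ContinuousAt f x0) (w : ℝ → X → ℝ)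
    (h0 : ∀ t, 0 < t → ∀ x, 0 ≤ w t x) (h1 : ∀ t, 0 < t → Integrable (w t) μ)
    (h2 : ∀ t, 0 < t → ∫ x, w t x ∂μ = 1) (h3 : ∀ t, 0 < t → ∀ x, w t x ≠ 0 → dist x x0 < t)
    (h4 : ∀ t, 0 < t → Integrable (fun x => f x * w t x) μ) :
    Filter.Tendsto (fun t => ∫ x, f x * w t x ∂μ) (nhdsWithin 0 (Set.Ioi 0))
      (nhds (f x0)) := by
  rw [Metric.tendsto_nhds]
  intro ε hε
  obtain ⟨δ, hδ, hd⟩ := Metric.continuousAt_iff.1 hf (ε / 2) (by positivity)
  have h5 : ∀ᶠ t in nhdsWithin (0 : ℝ) (Set.Ioi 0), t < δ :=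
    (eventually_lt_nhds hδ).filter_mono nhdsWithin_le_nhds
  filter_upwards [h5, self_mem_nhdsWithin] with t ht htp
  have htp' : 0 < t := htp
  rw [Real.dist_eq]
  have e1 : ∫ x, f x * w t x ∂μ - f x0 = ∫ x, (f x - f x0) * w t x ∂μ := by
    have h6 : ∀ x, (f x - f x0) * w t x = f x * w t x - f x0 * w t x := fun x => by ring
    simp only [h6]
    rw [integral_sub (h4 t htp') ((h1 t htp').const_mul _), integral_const_mul, h2 t htp',
      mul_one]
  rw [e1]
  have e2 : ‖∫ x, (f x - f x0) * w t x ∂μ‖ ≤ ∫ x, ε / 2 * w t x ∂μ := by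
    refine norm_integral_le_of_norm_le ((h1 t htp').const_mul _)
      (Filter.Eventually.of_forall fun x => ?_)
    rw [norm_mul, Real.norm_of_nonneg (h0 t htp' x)]
    by_cases hx : w t x = 0
    · rw [hx, mul_zero, mul_zero]
    · refine mul_le_mul_of_nonneg_right ?_ (h0 t htp' x)
      have h7 := hd ((h3 t htp' x hx).trans ht)
      rw [Real.dist_eq] at h7
      exact h7.le
  rw [integral_const_mul, h2 t htp', mul_one, Real.norm_eq_abs] at e2
  linarith

private theorem hmo_kj (J : E3 → ℝ) (hJ : Continuous J) (L : ℝ)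
    (hL : ∀ u v, |J u - J v| ≤ L * ‖u - v‖) :
    Continuous (fun p : E3 × E3 => KJ J p.1 p.2) := by
  rw [continuous_iff_continuousAt]
  rintro ⟨u, v⟩
  by_cases huv : u = v
  · subst huv
    have h0 : KJ J u u = 0 := by
      unfold KJ
      simp
    have hb : ∀ p : E3 × E3, 0 ≤ KJ J p.1 p.2 ∧ KJ J p.1 p.2 ≤ L ^ 2 * ‖p.1 - p.2‖ := by
      intro p
      unfold KJ
      have h1 := hL p.1 p.2
      have h2 : (J p.1 - J p.2) ^ 2 ≤ (L * ‖p.1 - p.2‖) ^ 2 := by
        rw [← sq_abs (J p.1 - J p.2)]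
        exact pow_le_pow_left₀ (abs_nonneg _) h1 2
      refine ⟨by positivity, ?_⟩
      by_cases h3 : ‖p.1 - p.2‖ = 0
      · rw [h3]
        simp
      · calc (J p.1 - J p.2) ^ 2 * ‖p.1 - p.2‖⁻¹ ≤ (L * ‖p.1 - p.2‖) ^ 2 * ‖p.1 - p.2‖⁻¹ :=
              mul_le_mul_of_nonneg_right h2 (by positivity)
          _ = L ^ 2 * ‖p.1 - p.2‖ := by
              field_simp
    show Filter.Tendsto (fun p : E3 × E3 => KJ J p.1 p.2) (nhds (u, u)) (nhds (KJ J u u))
    rw [h0]
    refine squeeze_zero (fun p => (hb p).1) (fun p => (hb p).2) ?_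
    have h4 : Continuous (fun p : E3 × E3 => L ^ 2 * ‖p.1 - p.2‖) := by fun_prop
    have h5 := h4.tendsto (u, u)
    simpa using h5
  · unfold KJ
    have h1 : ContinuousAt (fun p : E3 × E3 => (J p.1 - J p.2) ^ 2) (u, v) := by fun_prop
    have h2 : ContinuousAt (fun p : E3 × E3 => ‖p.1 - p.2‖) (u, v) := by fun_prop
    exact h1.mul (h2.inv₀ (norm_ne_zero_iff.2 (sub_ne_zero.2 huv)))

section

variable {χ : E3 → ℝ} (h : Bump χ) {ι : Type} [Fintype ι] (e : ι → ℝ) (y : ι → E3)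
include h

private theorem hmo_rc (t : ℝ) (ht : 0 < t) :
    Cc (fun v => ∑ i, e i * chr χ t (v - y i) ^ 2) := by
  refine ⟨ContDiff.sum fun i _ => contDiff_const.mul (hmo_cc h t ht (y i)).1, ?_⟩
  refine HasCompactSupport.intro (K := ⋃ i, Metric.closedBall (y i) (t / 2))
    (isCompact_iUnion fun i => isCompact_closedBall _ _) fun v hv => ?_
  refine sum_eq_zero fun i _ => ?_
  have h0 : chr χ t (v - y i) = 0 := by
    by_contra h0
    apply hv
    rw [Set.mem_iUnion]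
    refine ⟨i, ?_⟩
    rw [Metric.mem_closedBall, dist_eq_norm]
    exact (chr_supp h t ht _ h0).le
  rw [h0]
  simp

private theorem hmo_pot (t : ℝ) (ht : 0 < t) (v : E3) :
    pot (fun v => ∑ i, e i * chr χ t (v - y i) ^ 2) v = ∑ i, e i * U (chr χ t) (v - y i) := by
  unfold pot
  have e1 : ∀ w, (∑ i, e i * chr χ t (w - y i) ^ 2) * ‖v - w‖⁻¹ =
      ∑ i, e i * (chr χ t (w - y i) ^ 2 * ‖w - v‖⁻¹) := by
    intro w
    rw [sum_mul, norm_sub_rev]
    refine sum_congr rfl fun i _ => ?_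
    ring
  simp only [e1]
  rw [integral_finsetSum _ fun i _ => (chr_pot_int h t ht (y i) v).const_mul _]
  refine sum_congr rfl fun i _ => ?_
  rw [integral_const_mul, chr_pot h t ht, ← chr_eq h t ht]

private theorem hmo_R (J : E3 → ℝ) (hJs : ContDiff ℝ (⊤ : ℕ∞) J)
    (hK : Continuous (fun p : E3 × E3 => KJ J p.1 p.2)) (c : ℝ) (t : ℝ) (ht : 0 < t) :
    (∫ v, J v ^ 2 * (pot (fun v => ∑ i, e i * chr χ t (v - y i) ^ 2) v - c) *
        (∑ i, e i * chr χ t (v - y i) ^ 2)) -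
      Dd (fun v => J v * ∑ i, e i * chr χ t (v - y i) ^ 2)
        (fun v => J v * ∑ i, e i * chr χ t (v - y i) ^ 2) =
      (1 / 2) * (∑ i, ∑ l, e i * e l * ∫ p : E3 × E3, KJ J p.1 p.2 *
        (chr χ t (p.1 - y i) ^ 2 * chr χ t (p.2 - y l) ^ 2)) -
        c * ∑ i, e i * ∫ v, J v ^ 2 * chr χ t (v - y i) ^ 2 := by
  have hρ := hmo_rc h e y t ht
  obtain ⟨ρ, hρd⟩ : ∃ ρ : E3 → ℝ, ρ = fun v => ∑ i, e i * chr χ t (v - y i) ^ 2 := ⟨_, rfl⟩
  rw [← hρd] at hρ
  have hJ2 : Cc (fun v => J v ^ 2 * ρ v) := ⟨(hJs.pow 2).mul hρ.1, hρ.2.mul_left⟩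
  have hJ1 : Cc (fun v => J v * ρ v) := ⟨hJs.mul hρ.1, hρ.2.mul_left⟩
  have a1 : (∫ v, J v ^ 2 * (pot ρ v - c) * ρ v) =
      Dd (fun v => J v ^ 2 * ρ v) ρ - c * ∫ v, J v ^ 2 * ρ v := by
    have b1 : ∀ v, J v ^ 2 * (pot ρ v - c) * ρ v =
        (J v ^ 2 * ρ v) * pot ρ v - c * (J v ^ 2 * ρ v) := fun v => by ring
    simp only [b1]
    have b2 : Integrable (fun v => (J v ^ 2 * ρ v) * pot ρ v) :=
      hmo_int _ ⟨hJ2.1.mul (pot_smooth ρ hρ), hJ2.2.mul_right⟩
    rw [integral_sub b2 ((hmo_int _ hJ2).const_mul c), integral_const_mul]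
    rfl
  have a2 : 2 * Dd (fun v => J v ^ 2 * ρ v) ρ - 2 * Dd (fun v => J v * ρ v) (fun v => J v * ρ v) =
      ∫ p : E3 × E3, KJ J p.1 p.2 * (ρ p.1 * ρ p.2) := by
    have c1 := Dd_int _ ρ hJ2 hρ
    have c2 := Dd_int ρ _ hρ hJ2
    have c3 := Dd_int _ _ hJ1 hJ1
    have c4 : 2 * Dd (fun v => J v ^ 2 * ρ v) ρ =
        Dd (fun v => J v ^ 2 * ρ v) ρ + Dd ρ (fun v => J v ^ 2 * ρ v) := by
      rw [Dd_symm ρ _ hρ hJ2]
      ring
    have c5 : Integrable (fun u : E3 × E3 => J u.1 ^ 2 * ρ u.1 * ρ u.2 * ‖u.1 - u.2‖⁻¹ +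
        ρ u.1 * (J u.2 ^ 2 * ρ u.2) * ‖u.1 - u.2‖⁻¹) := c1.1.add c2.1
    rw [c4, c1.2, c2.2, c3.2, ← integral_add c1.1 c2.1, ← integral_const_mul,
      ← integral_sub c5 (c3.1.const_mul 2)]
    congr 1
    funext p
    unfold KJ
    ring
  have a3 : (∫ p : E3 × E3, KJ J p.1 p.2 * (ρ p.1 * ρ p.2)) =
      ∑ i, ∑ l, e i * e l * ∫ p : E3 × E3, KJ J p.1 p.2 *
        (chr χ t (p.1 - y i) ^ 2 * chr χ t (p.2 - y l) ^ 2) := by
    have b1 : ∀ p : E3 × E3, KJ J p.1 p.2 * (ρ p.1 * ρ p.2) =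
        ∑ i, ∑ l, e i * e l * (KJ J p.1 p.2 *
          (chr χ t (p.1 - y i) ^ 2 * chr χ t (p.2 - y l) ^ 2)) := by
      intro p
      rw [hρd]
      simp only
      rw [sum_mul_sum, mul_sum]
      refine sum_congr rfl fun i _ => ?_
      rw [mul_sum]
      refine sum_congr rfl fun l _ => ?_
      ring
    have b2 : ∀ i l, Integrable (fun p : E3 × E3 => KJ J p.1 p.2 *
        (chr χ t (p.1 - y i) ^ 2 * chr χ t (p.2 - y l) ^ 2)) := by
      intro i l
      have d1 := hmo_cc h t ht (y i)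
      have d2 := hmo_cc h t ht (y l)
      refine Continuous.integrable_of_hasCompactSupport (hK.mul
        ((d1.1.continuous.comp continuous_fst).mul (d2.1.continuous.comp continuous_snd))) ?_
      refine HasCompactSupport.intro (d1.2.isCompact.prod d2.2.isCompact) ?_
      intro p hp
      rw [Set.mem_prod, not_and_or] at hp
      rcases hp with hp | hp
      · have := image_eq_zero_of_notMem_tsupport hp
        rw [this]
        ring
      · have := image_eq_zero_of_notMem_tsupport hp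
        rw [this]
        ring
    simp only [b1]
    rw [integral_finsetSum _ fun i _ => integrable_finsetSum _ fun l _ =>
      (b2 i l).const_mul _]
    refine sum_congr rfl fun i _ => ?_
    rw [integral_finsetSum _ fun l _ => (b2 i l).const_mul _]
    refine sum_congr rfl fun l _ => ?_
    rw [integral_const_mul]
  have a4 : (∫ v, J v ^ 2 * ρ v) = ∑ i, e i * ∫ v, J v ^ 2 * chr χ t (v - y i) ^ 2 := by
    have b1 : ∀ v, J v ^ 2 * ρ v = ∑ i, e i * (J v ^ 2 * chr χ t (v - y i) ^ 2) := by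
      intro v
      rw [hρd]
      simp only
      rw [mul_sum]
      refine sum_congr rfl fun i _ => ?_
      ring
    simp only [b1]
    rw [integral_finsetSum _ fun i _ => Integrable.const_mul (hmo_int _
      ⟨(hJs.pow 2).mul (hmo_cc h t ht (y i)).1, (hmo_cc h t ht (y i)).2.mul_left⟩) _]
    refine sum_congr rfl fun i _ => ?_
    rw [integral_const_mul]
  have a5 : ∀ v, (∑ i, e i * chr χ t (v - y i) ^ 2) = ρ v := by
    intro v
    rw [hρd]
  simp only [a5]
  rw [a1, ← a3, ← a4, ← a2]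
  ring

private theorem hmo_KL (J : E3 → ℝ) (hK : Continuous (fun p : E3 × E3 => KJ J p.1 p.2))
    (i l : ι) :
    Filter.Tendsto (fun t => ∫ p : E3 × E3, KJ J p.1 p.2 *
      (chr χ t (p.1 - y i) ^ 2 * chr χ t (p.2 - y l) ^ 2)) (nhdsWithin 0 (Set.Ioi 0))
      (nhds (KJ J (y i) (y l))) := by
  refine hmo_apx (volume : Measure (E3 × E3)) (fun p => KJ J p.1 p.2) (y i, y l)
    hK.continuousAt (fun t p => chr χ t (p.1 - y i) ^ 2 * chr χ t (p.2 - y l) ^ 2) ?_ ?_ ?_ ?_ ?_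
  · intro t _ p
    positivity
  · intro t ht
    exact (hmo_int _ (hmo_cc h t ht (y i))).mul_prod (hmo_int _ (hmo_cc h t ht (y l)))
  · intro t ht
    have h1 := integral_prod_mul (μ := (volume : Measure E3)) (ν := (volume : Measure E3))
      (fun v => chr χ t (v - y i) ^ 2) (fun v => chr χ t (v - y l) ^ 2)
    rw [hmo_one h t ht, hmo_one h t ht, mul_one] at h1
    exact h1
  · intro t ht p hp
    have h1 : chr χ t (p.1 - y i) ≠ 0 := by
      intro h0
      apply hp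
      rw [h0]
      ring
    have h2 : chr χ t (p.2 - y l) ≠ 0 := by
      intro h0
      apply hp
      rw [h0]
      ring
    have h3 := chr_supp h t ht _ h1
    have h4 := chr_supp h t ht _ h2
    rw [Prod.dist_eq, max_lt_iff, dist_eq_norm, dist_eq_norm]
    constructor <;> linarith
  · intro t ht
    have d1 := hmo_cc h t ht (y i)
    have d2 := hmo_cc h t ht (y l)
    refine Continuous.integrable_of_hasCompactSupport (hK.mul
      ((d1.1.continuous.comp continuous_fst).mul (d2.1.continuous.comp continuous_snd))) ?_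
    refine HasCompactSupport.intro (d1.2.isCompact.prod d2.2.isCompact) ?_
    intro p hp
    rw [Set.mem_prod, not_and_or] at hp
    rcases hp with hp | hp
    · have := image_eq_zero_of_notMem_tsupport hp
      rw [this]
      ring
    · have := image_eq_zero_of_notMem_tsupport hp
      rw [this]
      ring

private theorem hmo_ML (J : E3 → ℝ) (hJs : ContDiff ℝ (⊤ : ℕ∞) J) (i : ι) :
    Filter.Tendsto (fun t => ∫ v, J v ^ 2 * chr χ t (v - y i) ^ 2) (nhdsWithin 0 (Set.Ioi 0))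
      (nhds (J (y i) ^ 2)) := by
  refine hmo_apx (volume : Measure E3) (fun v => J v ^ 2) (y i)
    (hJs.continuous.pow 2).continuousAt (fun t v => chr χ t (v - y i) ^ 2) ?_ ?_ ?_ ?_ ?_
  · intro t _ p
    positivity
  · intro t ht
    exact hmo_int _ (hmo_cc h t ht (y i))
  · intro t ht
    exact hmo_one h t ht _
  · intro t ht p hp
    have h1 : chr χ t (p - y i) ≠ 0 := by
      intro h0
      apply hp
      rw [h0]
      ring
    have h3 := chr_supp h t ht _ h1
    rw [dist_eq_norm]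
    linarith
  · intro t ht
    exact hmo_int _ ⟨(hJs.pow 2).mul (hmo_cc h t ht (y i)).1, (hmo_cc h t ht (y i)).2.mul_left⟩

omit h in
private theorem hmo_ae : ∀ᵐ v : E3, ∀ i, v ≠ y i := by
  rw [ae_all_iff]
  intro i
  rw [ae_iff]
  simp

private theorem hmo_LL (x : E3) (c : ℝ) :
    Filter.Tendsto (fun t => ∫ v in Metric.ball x 2,
      ((∑ i, e i * U (chr χ t) (v - y i)) - c) ^ 2) (nhdsWithin 0 (Set.Ioi 0))
      (nhds (∫ v in Metric.ball x 2, ((∑ i, e i * ‖v - y i‖⁻¹) - c) ^ 2)) := by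
  obtain ⟨C, _, hC⟩ := inv_sq
  have hpos : ∀ᶠ t in nhdsWithin (0 : ℝ) (Set.Ioi 0), 0 < t := self_mem_nhdsWithin
  refine tendsto_integral_filter_of_dominated_convergence
    (fun v => 2 * (Fintype.card ι * ∑ i, e i ^ 2 * ‖v - y i‖⁻¹ ^ 2) + 2 * c ^ 2) ?_ ?_ ?_ ?_
  · filter_upwards [hpos] with t ht
    refine Continuous.aestronglyMeasurable ?_
    refine ((continuous_finsetSum _ fun i _ => continuous_const.mul
      ((U_cont h t ht).comp (continuous_id.sub continuous_const))).sub continuous_const).pow 2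
  · filter_upwards [hpos] with t ht
    refine ae_restrict_of_ae ?_
    filter_upwards [hmo_ae y] with v hv
    rw [Real.norm_of_nonneg (sq_nonneg _)]
    have h1 : (∑ i, e i * U (chr χ t) (v - y i)) ^ 2 ≤
        Fintype.card ι * ∑ i, (e i * U (chr χ t) (v - y i)) ^ 2 := by
      have := sq_sum_le_card_mul_sum_sq (s := (univ : Finset ι))
        (f := fun i => e i * U (chr χ t) (v - y i))
      simpa using this
    have h2 : ∑ i, (e i * U (chr χ t) (v - y i)) ^ 2 ≤ ∑ i, e i ^ 2 * ‖v - y i‖⁻¹ ^ 2 := by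
      refine sum_le_sum fun i _ => ?_
      rw [mul_pow]
      refine mul_le_mul_of_nonneg_left ?_ (sq_nonneg _)
      exact pow_le_pow_left₀ (U_nonneg _ _) (U_le h t ht _ (sub_ne_zero.2 (hv i))) 2
    have h3 : (Fintype.card ι : ℝ) * ∑ i, (e i * U (chr χ t) (v - y i)) ^ 2 ≤
        Fintype.card ι * ∑ i, e i ^ 2 * ‖v - y i‖⁻¹ ^ 2 :=
      mul_le_mul_of_nonneg_left h2 (Nat.cast_nonneg _)
    have h4 : ((∑ i, e i * U (chr χ t) (v - y i)) - c) ^ 2 ≤
        2 * (∑ i, e i * U (chr χ t) (v - y i)) ^ 2 + 2 * c ^ 2 := by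
      nlinarith [sq_nonneg ((∑ i, e i * U (chr χ t) (v - y i)) + c)]
    linarith
  · have hfin : volume (Metric.ball x 2) < ⊤ := measure_ball_lt_top
    refine Integrable.add ?_ (integrableOn_const hfin.ne)
    refine Integrable.const_mul (Integrable.const_mul ?_ _) _
    refine integrable_finsetSum _ fun i _ => Integrable.const_mul ?_ _
    refine (hC (y i) (3 + ‖x - y i‖) (by positivity)).1.mono_set ?_
    intro v hv
    rw [Metric.mem_ball, dist_eq_norm] at hv ⊢
    have := norm_sub_le_norm_sub_add_norm_sub v x (y i)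
    linarith
  · refine ae_restrict_of_ae ?_
    filter_upwards [hmo_ae y] with v hv
    have h1 : ∀ i, ∀ᶠ t in nhdsWithin (0 : ℝ) (Set.Ioi 0), t < ‖v - y i‖ := by
      intro i
      have : 0 < ‖v - y i‖ := norm_pos_iff.2 (sub_ne_zero.2 (hv i))
      exact (eventually_lt_nhds this).filter_mono nhdsWithin_le_nhds
    have h2 := Filter.eventually_all.2 h1
    refine tendsto_const_nhds.congr' ?_
    filter_upwards [h2, hpos] with t ht htp
    congr 2
    refine sum_congr rfl fun i _ => ?_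
    rw [U_out h t htp _ (by linarith [ht i])]

end

theorem hpt {θ : E3 → ℝ} (hθ : Cut θ) : ∃ C : ℝ, 0 ≤ C ∧ ∀ (x : E3) (ι : Type) (_ : Fintype ι)
    (e : ι → ℝ) (y : ι → E3) (c : ℝ),
    -(C * ∫ v in Metric.ball x 2, ((∑ i, e i * ‖v - y i‖⁻¹) - c) ^ 2) ≤
      (1 / 2) * (∑ i, ∑ l, e i * e l * KJ (Jc θ x 1) (y i) (y l)) -
        c * ∑ i, e i * Jc θ x 1 (y i) ^ 2 := by
  obtain ⟨C, hC, hh⟩ := hsm hθ
  obtain ⟨χ, hχ⟩ := bump_ex
  obtain ⟨L, _, hL⟩ := Jc_lip hθ
  refine ⟨C, hC, fun x ι _ e y c => ?_⟩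
  have hJs := Jc_smooth hθ x 1
  have hK : Continuous (fun p : E3 × E3 => KJ (Jc θ x 1) p.1 p.2) := by
    refine hmo_kj _ hJs.continuous L fun u v => ?_
    have := hL x 1 one_pos u v
    rwa [inv_one, mul_one] at this
  have hl := ((hmo_LL hχ e y x c).const_mul C).neg
  have hr : Filter.Tendsto (fun t => (1 / 2) * (∑ i, ∑ l, e i * e l *
      ∫ p : E3 × E3, KJ (Jc θ x 1) p.1 p.2 *
        (chr χ t (p.1 - y i) ^ 2 * chr χ t (p.2 - y l) ^ 2)) -
        c * ∑ i, e i * ∫ v, Jc θ x 1 v ^ 2 * chr χ t (v - y i) ^ 2) (nhdsWithin 0 (Set.Ioi 0))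
      (nhds ((1 / 2) * (∑ i, ∑ l, e i * e l * KJ (Jc θ x 1) (y i) (y l)) -
        c * ∑ i, e i * Jc θ x 1 (y i) ^ 2)) := by
    refine Filter.Tendsto.sub ?_ ?_
    · refine Filter.Tendsto.const_mul _ ?_
      refine tendsto_finsetSum _ fun i _ => tendsto_finsetSum _ fun l _ => ?_
      exact (hmo_KL hχ y _ hK i l).const_mul _
    · refine Filter.Tendsto.const_mul _ ?_
      refine tendsto_finsetSum _ fun i _ => ?_
      exact (hmo_ML hχ y _ hJs i).const_mul _
  refine le_of_tendsto_of_tendsto hl hr ?_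
  have hpos : ∀ᶠ t in nhdsWithin (0 : ℝ) (Set.Ioi 0), 0 < t := self_mem_nhdsWithin
  filter_upwards [hpos] with t ht
  have h1 := hh x _ (hmo_rc hχ e y t ht) c
  rw [hmo_R hχ e y (Jc θ x 1) hJs hK c t ht] at h1
  simp only [hmo_pot hχ e y t ht] at h1
  exact h1

end H6.CB
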