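import Pool.Agent.H6.CB.Ener
import Pool.Agent.H6.CB.MmF

/-! The local electrostatic inequality for smooth densities. Let `J = Jc θ x 1`, `u = pot ρ - c` (smooth, `lap u = -4 π ρ`), `σ = (4 π)⁻¹ (2 ∑ d, pd d (u * pd d J) - u * lap J)`, smooth, with compact support. Pointwise `J ρ = -(4 π)⁻¹ lap (J u) + σ` (`lap (J u) = J lap u + 2 ∇J · ∇u + u lap J` and `∑ d, pd d (u * pd d J) = ∇u · ∇J + u lap J`). Hence with `Dd_lap`, `Dd_add`, `Dd_symm`: `Dd (J ρ) (J ρ) = ∫ J u (J ρ) + ∫ J u σ + Dd σ σ`... more precisely: writing `a = -(4 π)⁻¹ lap (J u)`, `Dd (Jρ) (Jρ) = Dd a (Jρ) + Dd σ a + Dd σ σ = ∫ J u (J ρ) + ∫ J u σ + Dd σ σ`. So `∫ J² u ρ - Dd (Jρ) (Jρ) = - ∫ J u σ - Dd σ σ`, and `-∫ J u σ = (4 π)⁻¹ ∫ u² |∇J|² ≥ 0` (one integration by parts: `∫ ∑ d, pd d (J u² pd d J) = 0`). Finally `Dd σ σ ≤ 2 (Dd (a+b parts))` by `Dd_nonneg` (parallelogram), `dive` with `F d = u pd d J` and `Dd_l2` with `g = u lap J`; both are supported in the ball of radius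 `2` around `x` and `|∇J|`, `|lap J|` are bounded by a constant which depends only on `θ`. -/

open MeasureTheory Finset

namespace H6.CB

open H6.CM

private theorem hsm_pds (d : Fin 3) (f : E3 → ℝ) (hf : ContDiff ℝ (⊤ : ℕ∞) f) :
    ContDiff ℝ (⊤ : ℕ∞) (pd d f) := by
  unfold pd
  exact (hf.fderiv_right (m := (⊤ : ℕ∞)) (by simp)).clm_apply contDiff_const

private theorem hsm_pdc (d : Fin 3) (f : E3 → ℝ) (hf : Cc f) : Cc (pd d f) := by
  refine ⟨hsm_pds d f hf.1, ?_⟩
  have h1 : HasCompactSupport (fderiv ℝ f) := hf.2.fderiv ℝ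
  exact h1.comp_left (g := fun L : E3 →L[ℝ] ℝ => L (EuclideanSpace.single d 1)) (by simp)

private theorem hsm_mulc (f g : E3 → ℝ) (hf : ContDiff ℝ (⊤ : ℕ∞) f) (hg : Cc g) :
    Cc (fun v => f v * g v) := ⟨hf.mul hg.1, hg.2.mul_left⟩

private theorem hsm_smulc (s : ℝ) (g : E3 → ℝ) (hg : Cc g) : Cc (fun v => s * g v) :=
  hsm_mulc (fun _ => s) g contDiff_const hg

private theorem hsm_addc (f g : E3 → ℝ) (hf : Cc f) (hg : Cc g) : Cc (fun v => f v + g v) :=
  ⟨hf.1.add hg.1, hf.2.add hg.2⟩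

private theorem hsm_sum (F : Fin 3 → E3 → ℝ) (hF : ∀ d, Cc (F d)) : Cc (fun v => ∑ d, F d v) := by
  have e : (fun v => ∑ d, F d v) = fun v => (F 0 v + F 1 v) + F 2 v := by
    funext v
    rw [Fin.sum_univ_three]
  rw [e]
  exact hsm_addc _ _ (hsm_addc _ _ (hF 0) (hF 1)) (hF 2)

private theorem hsm_int (f : E3 → ℝ) (hf : Cc f) : Integrable f :=
  hf.1.continuous.integrable_of_hasCompactSupport hf.2

private theorem hsm_pdm (d : Fin 3) (f g : E3 → ℝ) (hf : ContDiff ℝ (⊤ : ℕ∞) f)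
    (hg : ContDiff ℝ (⊤ : ℕ∞) g) :
    pd d (fun v => f v * g v) = fun v => pd d f v * g v + f v * pd d g v := by
  funext v
  unfold pd
  have h1 : HasFDerivAt (fun v => f v * g v) (f v • fderiv ℝ g v + g v • fderiv ℝ f v) v :=
    ((hf.differentiable (by simp) v).hasFDerivAt).mul
      ((hg.differentiable (by simp) v).hasFDerivAt)
  rw [h1.fderiv]
  simp only [add_apply, smul_apply, smul_eq_mul]
  ring

private theorem hsm_pda (d : Fin 3) (f g : E3 → ℝ) (hf : ContDiff ℝ (⊤ : ℕ∞) f)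
    (hg : ContDiff ℝ (⊤ : ℕ∞) g) :
    pd d (fun v => f v + g v) = fun v => pd d f v + pd d g v := by
  funext v
  unfold pd
  have h1 : HasFDerivAt (fun v => f v + g v) (fderiv ℝ f v + fderiv ℝ g v) v :=
    ((hf.differentiable (by simp) v).hasFDerivAt).add
      ((hg.differentiable (by simp) v).hasFDerivAt)
  rw [h1.fderiv]
  simp only [add_apply]

private theorem hsm_pdk (d : Fin 3) (s : ℝ) (f : E3 → ℝ) (hf : ContDiff ℝ (⊤ : ℕ∞) f) :
    pd d (fun v => s * f v) = fun v => s * pd d f v := by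
  funext v
  unfold pd
  have h1 : HasFDerivAt (fun v => s * f v) (s • fderiv ℝ f v) v :=
    ((hf.differentiable (by simp) v).hasFDerivAt).const_mul s
  rw [h1.fderiv]
  simp only [smul_apply, smul_eq_mul]

private theorem hsm_pdz (d : Fin 3) (g : E3 → ℝ) (hg : Cc g) : ∫ v, pd d g v = 0 := by
  have h1 := ibp d (fun _ => (1 : ℝ)) g contDiff_const hg
  have h2 : ∀ v, pd d (fun _ : E3 => (1 : ℝ)) v = 0 := by
    intro v
    unfold pd
    simp
  simpa [h2] using h1

/-- the Laplacian of a product -/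
private theorem hsm_lapm (f g : E3 → ℝ) (hf : ContDiff ℝ (⊤ : ℕ∞) f)
    (hg : ContDiff ℝ (⊤ : ℕ∞) g) (v : E3) :
    lap (fun v => f v * g v) v =
      lap f v * g v + 2 * (∑ d, pd d f v * pd d g v) + f v * lap g v := by
  unfold lap
  have h : ∀ d : Fin 3, pd d (pd d (fun v => f v * g v)) v =
      pd d (pd d f) v * g v + 2 * (pd d f v * pd d g v) + f v * pd d (pd d g) v := by
    intro d
    rw [hsm_pdm d f g hf hg, hsm_pda d (fun v => pd d f v * g v) (fun v => f v * pd d g v)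
      ((hsm_pds d f hf).mul hg) (hf.mul (hsm_pds d g hg)), hsm_pdm d (pd d f) g (hsm_pds d f hf) hg,
      hsm_pdm d f (pd d g) hf (hsm_pds d g hg)]
    ring
  simp only [h]
  rw [sum_add_distrib, sum_add_distrib, ← sum_mul, ← mul_sum, ← mul_sum]

private theorem hsm_tr (d : Fin 3) (f : E3 → ℝ) (hf : ContDiff ℝ (⊤ : ℕ∞) f) (x : E3) :
    pd d (fun v => f (v - x)) = fun v => pd d f (v - x) := by
  funext v
  unfold pd
  have h1 : HasFDerivAt (fun v => f (v - x))
      ((fderiv ℝ f (v - x)).comp (ContinuousLinearMap.id ℝ E3)) v :=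
    HasFDerivAt.comp v ((hf.differentiable (by simp) (v - x)).hasFDerivAt)
      ((hasFDerivAt_id v).sub_const x)
  rw [h1.fderiv]
  simp

private theorem hsm_ext (d : Fin 3) (f : E3 → ℝ) (hf : ContDiff ℝ (⊤ : ℕ∞) f)
    (h : ∀ w, 2 ≤ ‖w‖ → f w = 0) (w : E3) (hw : 2 ≤ ‖w‖) : pd d f w = 0 := by
  have h1 : ∀ w : E3, 2 < ‖w‖ → pd d f w = 0 := by
    intro w hw
    have h2 : f =ᶠ[nhds w] fun _ => (0 : ℝ) := by
      have h3 : ∀ᶠ v in nhds w, 2 < ‖v‖ := continuous_norm.continuousAt.eventually_const_lt hw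
      filter_upwards [h3] with v hv
      exact h v hv.le
    unfold pd
    rw [h2.fderiv_eq]
    simp
  have h4 : Set.EqOn (fun t : ℝ => pd d f (t • w)) (fun _ => 0) (Set.Ioi 1) := by
    intro t ht
    have ht' : (1 : ℝ) < t := ht
    apply h1
    rw [norm_smul, Real.norm_eq_abs, abs_of_pos (by linarith)]
    nlinarith
  have h5 := h4.closure ((hsm_pds d f hf).continuous.comp (continuous_id.smul continuous_const))
    continuous_const
  rw [closure_Ioi] at h5
  have h6 := h5 (Set.self_mem_Ici : (1 : ℝ) ∈ Set.Ici 1)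
  simpa using h6

private theorem hsm_Ds (s : ℝ) (ρ τ : E3 → ℝ) : Dd (fun x => s * ρ x) τ = s * Dd ρ τ := by
  unfold Dd
  rw [← integral_const_mul]
  congr 1
  funext x
  ring

private theorem hsm_par (P g : E3 → ℝ) (hP : Cc P) (hg : Cc g) :
    Dd (fun x => P x + g x) (fun x => P x + g x) ≤ 2 * Dd P P + 2 * Dd g g := by
  have e1 : ∀ s : ℝ, Dd (fun x => P x + s * g x) (fun x => P x + s * g x) =
      Dd P P + 2 * s * Dd P g + s ^ 2 * Dd g g := by
    intro s
    have hs := hsm_smulc s g hg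
    have hc := hsm_addc P _ hP hs
    rw [Dd_add P (fun x => s * g x) _ hP hs hc, hsm_Ds, Dd_symm P _ hP hc, Dd_symm g _ hg hc,
      Dd_add P (fun x => s * g x) _ hP hs hP, Dd_add P (fun x => s * g x) _ hP hs hg,
      hsm_Ds, hsm_Ds, Dd_symm g P hg hP]
    ring
  have h1 := e1 1
  have h2 := e1 (-1)
  have h3 : 0 ≤ Dd (fun x => P x + -1 * g x) (fun x => P x + -1 * g x) :=
    Dd_nonneg _ (hsm_addc P _ hP (hsm_smulc (-1) g hg))
  simp only [one_mul] at h1
  rw [h1]
  rw [h2] at h3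
  linarith

private theorem hsm_ball (x : E3) (u f : E3 → ℝ) (hu : Continuous u) (hf : Integrable f) (K : ℝ)
    (h : ∀ v, f v ≤ if ‖v - x‖ < 2 then K * u v ^ 2 else 0) :
    ∫ v, f v ≤ K * ∫ v in Metric.ball x 2, u v ^ 2 := by
  have e : ∫ v in Metric.ball x 2, K * u v ^ 2 =
      ∫ v, if ‖v - x‖ < 2 then K * u v ^ 2 else 0 := by
    rw [← integral_indicator Metric.isOpen_ball.measurableSet]
    refine integral_congr_ae (Filter.Eventually.of_forall fun v => ?_)
    simp only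
    by_cases hv : ‖v - x‖ < 2
    · rw [if_pos hv, Set.indicator_of_mem (by rw [Metric.mem_ball, dist_eq_norm]; exact hv)]
    · rw [if_neg hv, Set.indicator_of_notMem (by rw [Metric.mem_ball, dist_eq_norm]; exact hv)]
  rw [← integral_const_mul, e]
  refine integral_mono hf ?_ h
  have h1 : IntegrableOn (fun v => K * u v ^ 2) (Metric.ball x 2) :=
    ((continuous_const.mul (hu.pow 2)).continuousOn.integrableOn_compact
      (isCompact_closedBall x 2)).mono_set Metric.ball_subset_closedBall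
  rw [← integrable_indicator_iff Metric.isOpen_ball.measurableSet] at h1
  refine h1.congr (Filter.Eventually.of_forall fun v => ?_)
  simp only
  by_cases hv : ‖v - x‖ < 2
  · rw [if_pos hv, Set.indicator_of_mem (by rw [Metric.mem_ball, dist_eq_norm]; exact hv)]
  · rw [if_neg hv, Set.indicator_of_notMem (by rw [Metric.mem_ball, dist_eq_norm]; exact hv)]

theorem hsm {θ : E3 → ℝ} (hθ : Cut θ) : ∃ C : ℝ, 0 ≤ C ∧ ∀ (x : E3) (ρ : E3 → ℝ) (_ : Cc ρ)
    (c : ℝ),
    -(C * ∫ v in Metric.ball x 2, (pot ρ v - c) ^ 2) ≤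
      (∫ v, Jc θ x 1 v ^ 2 * (pot ρ v - c) * ρ v) -
        Dd (fun v => Jc θ x 1 v * ρ v) (fun v => Jc θ x 1 v * ρ v) := by
  obtain ⟨J0, hJ0⟩ : ∃ J0 : E3 → ℝ, J0 = fun w => 1 - θ w := ⟨_, rfl⟩
  have hJ0s : ContDiff ℝ (⊤ : ℕ∞) J0 := by
    rw [hJ0]
    exact contDiff_const.sub hθ.smooth
  have hJ0z : ∀ w, 2 ≤ ‖w‖ → J0 w = 0 := by
    intro w hw
    rw [hJ0]
    simp only
    rw [hθ.one w hw, sub_self]
  have hJ0c : Cc J0 := by
    refine ⟨hJ0s, HasCompactSupport.intro (isCompact_closedBall (0 : E3) 2) fun v hv => ?_⟩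
    apply hJ0z
    rw [Metric.mem_closedBall, dist_zero_right, not_le] at hv
    exact hv.le
  -- bound of the Laplacian
  have hlc : Cc (lap J0) := by
    have e : lap J0 = fun v => ∑ d, pd d (pd d J0) v := rfl
    rw [e]
    exact hsm_sum _ fun d => hsm_pdc d _ (hsm_pdc d _ hJ0c)
  obtain ⟨K2, hK2⟩ := hlc.1.continuous.bounded_above_of_compact_support hlc.2
  have hK20 : 0 ≤ K2 := (norm_nonneg _).trans (hK2 0)
  have hlz : ∀ w, 2 ≤ ‖w‖ → lap J0 w = 0 := by
    intro w hw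
    unfold lap
    refine sum_eq_zero fun d _ => ?_
    exact hsm_ext d _ (hsm_pds d _ hJ0s) (hsm_ext d _ hJ0s hJ0z) w hw
  obtain ⟨C1, hC1, hgr⟩ := Jc_grad hθ
  obtain ⟨C2, hC2, hl2⟩ := Dd_l2
  obtain ⟨k, hk⟩ : ∃ k : ℝ, k = (4 * Real.pi)⁻¹ := ⟨_, rfl⟩
  have hk0 : 0 < k := by
    rw [hk]
    positivity
  have hk1 : k * (4 * Real.pi) = 1 := by
    rw [hk]
    exact inv_mul_cancel₀ (by positivity)
  refine ⟨2 * (8 * Real.pi * ((2 * k) ^ 2 * C1)) + 2 * (C2 * (k ^ 2 * K2 ^ 2)), by positivity, ?_⟩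
  intro x ρ hρ c
  obtain ⟨J, hJ⟩ : ∃ J : E3 → ℝ, J = Jc θ x 1 := ⟨_, rfl⟩
  have hJt : J = fun v => J0 (v - x) := by
    rw [hJ, hJ0]
    funext v
    unfold Jc
    simp
  have hJs : ContDiff ℝ (⊤ : ℕ∞) J := by
    rw [hJ]
    exact Jc_smooth hθ x 1
  have hJz : ∀ v, 2 ≤ ‖v - x‖ → J v = 0 := by
    intro v hv
    rw [hJt]
    exact hJ0z _ hv
  have hJc : Cc J := by
    refine ⟨hJs, HasCompactSupport.intro (isCompact_closedBall x 2) fun v hv => ?_⟩
    apply hJz
    rw [Metric.mem_closedBall, dist_eq_norm, not_le] at hv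
    exact hv.le
  have hlapJ : ∀ v, lap J v = lap J0 (v - x) := by
    intro v
    unfold lap
    refine sum_congr rfl fun d _ => ?_
    rw [hJt, hsm_tr d J0 hJ0s x, hsm_tr d (pd d J0) (hsm_pds d J0 hJ0s) x]
  obtain ⟨u, hu⟩ : ∃ u : E3 → ℝ, u = fun v => pot ρ v - c := ⟨_, rfl⟩
  have hus : ContDiff ℝ (⊤ : ℕ∞) u := by
    rw [hu]
    exact (pot_smooth ρ hρ).sub contDiff_const
  have hpu : ∀ d, pd d u = pd d (pot ρ) := by
    intro d
    funext v
    unfold pd
    rw [hu, fderiv_sub_const]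
  have hlu : ∀ v, lap u v = -(4 * Real.pi * ρ v) := by
    intro v
    rw [← pot_lap ρ hρ v]
    unfold lap
    simp only [hpu]
  have hJuc : Cc (fun v => J v * u v) := by
    have := hsm_mulc u J hus hJc
    have e : (fun v => J v * u v) = fun v => u v * J v := by
      funext v
      ring
    rw [e]
    exact this
  -- the vector field and the rest
  obtain ⟨F, hF⟩ : ∃ F : Fin 3 → E3 → ℝ, F = fun d v => 2 * k * (u v * pd d J v) := ⟨_, rfl⟩
  have hFc : ∀ d, Cc (F d) := by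
    intro d
    rw [hF]
    exact hsm_smulc _ _ (hsm_mulc u _ hus (hsm_pdc d J hJc))
  have hlJc : Cc (lap J) := by
    have e : lap J = fun v => ∑ d, pd d (pd d J) v := rfl
    rw [e]
    exact hsm_sum _ fun d => hsm_pdc d _ (hsm_pdc d _ hJc)
  obtain ⟨g, hg⟩ : ∃ g : E3 → ℝ, g = fun v => -k * (u v * lap J v) := ⟨_, rfl⟩
  have hgc : Cc g := by
    rw [hg]
    exact hsm_smulc _ _ (hsm_mulc u _ hus hlJc)
  obtain ⟨P, hP⟩ : ∃ P : E3 → ℝ, P = fun v => ∑ d, pd d (F d) v := ⟨_, rfl⟩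
  have hPc : Cc P := by
    rw [hP]
    exact hsm_sum _ fun d => hsm_pdc d _ (hFc d)
  have hPv : ∀ v, P v = 2 * k * (∑ d, pd d J v * pd d u v) + 2 * k * (u v * lap J v) := by
    intro v
    rw [hP]
    simp only
    have h1 : ∀ d, pd d (F d) v =
        2 * k * (pd d J v * pd d u v) + 2 * k * (u v * pd d (pd d J) v) := by
      intro d
      have e1 : F d = fun v => 2 * k * (u v * pd d J v) := by rw [hF]
      rw [e1, hsm_pdk d _ (fun v => u v * pd d J v) (hus.mul (hsm_pds d J hJs)),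
        hsm_pdm d u (pd d J) hus (hsm_pds d J hJs)]
      ring
    simp only [h1]
    rw [sum_add_distrib, ← mul_sum, ← mul_sum, ← mul_sum]
    rfl
  obtain ⟨A, hA⟩ : ∃ A : E3 → ℝ, A = fun v => k * (-lap (fun v => J v * u v) v) := ⟨_, rfl⟩
  have hlJu : Cc (fun v => -lap (fun v => J v * u v) v) := by
    have h1 : Cc (fun v => -1 * lap (fun v => J v * u v) v) := by
      refine hsm_smulc _ _ ?_
      exact hsm_sum _ fun d => hsm_pdc d _ (hsm_pdc d _ hJuc)
    simpa using h1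
  have hAc : Cc A := by
    rw [hA]
    exact hsm_smulc _ _ hlJu
  have hid : (fun v => J v * ρ v) = fun v => A v + (P v + g v) := by
    funext v
    rw [hA, hg, hPv]
    simp only
    rw [hsm_lapm J u hJs hus v, hlu v]
    have : J v * ρ v = k * (4 * Real.pi) * (J v * ρ v) := by rw [hk1, one_mul]
    rw [this]
    ring
  have hσc := hsm_addc P g hPc hgc
  have hDA : ∀ τ : E3 → ℝ, Cc τ → Dd A τ = ∫ v, J v * u v * τ v := by
    intro τ hτ
    rw [hA, hsm_Ds, Dd_lap _ τ hJuc hτ, ← mul_assoc, hk1, one_mul]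
  have hmain : Dd (fun v => J v * ρ v) (fun v => J v * ρ v) =
      (∫ v, J v * u v * (J v * ρ v)) + (∫ v, J v * u v * (P v + g v)) +
        Dd (fun v => P v + g v) (fun v => P v + g v) := by
    have hJρ : Cc (fun v => J v * ρ v) := hsm_mulc J ρ hJs hρ
    have e1 : Dd (fun v => J v * ρ v) (fun v => J v * ρ v) =
        Dd A (fun v => J v * ρ v) + Dd (fun v => P v + g v) (fun v => J v * ρ v) := by
      conv_lhs => rw [show Dd (fun v => J v * ρ v) (fun v => J v * ρ v) =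
        Dd (fun v => A v + (P v + g v)) (fun v => J v * ρ v) by rw [← hid]]
      rw [Dd_add A (fun v => P v + g v) _ hAc hσc hJρ]
    have e2 : Dd (fun v => P v + g v) (fun v => J v * ρ v) =
        Dd A (fun v => P v + g v) + Dd (fun v => P v + g v) (fun v => P v + g v) := by
      rw [Dd_symm _ _ hσc hJρ, hid, Dd_add A (fun v => P v + g v) _ hAc hσc hσc]
    rw [e1, e2, hDA _ hJρ, hDA _ hσc]
    ring
  -- the cross term
  obtain ⟨H, hH⟩ : ∃ H : Fin 3 → E3 → ℝ, H = fun d v => u v * (u v * (J v * pd d J v)) := ⟨_, rfl⟩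
  have hHc : ∀ d, Cc (H d) := by
    intro d
    rw [hH]
    exact hsm_mulc u _ hus (hsm_mulc u _ hus (hsm_mulc J _ hJs (hsm_pdc d J hJc)))
  have hHv : ∀ d v, pd d (H d) v = 2 * (J v * u v * (pd d J v * pd d u v)) +
      u v ^ 2 * pd d J v ^ 2 + J v * u v * (u v * pd d (pd d J) v) := by
    intro d v
    have e1 : H d = fun v => u v * (u v * (J v * pd d J v)) := by rw [hH]
    have s1 := hsm_pds d J hJs
    rw [e1, hsm_pdm d u (fun v => u v * (J v * pd d J v)) hus (hus.mul (hJs.mul s1)),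
      hsm_pdm d u (fun v => J v * pd d J v) hus (hJs.mul s1), hsm_pdm d J (pd d J) hJs s1]
    ring
  have hcross : ∫ v, J v * u v * (P v + g v) = -(k * ∫ v, u v ^ 2 * ∑ d, pd d J v ^ 2) := by
    have e1 : ∀ v, J v * u v * (P v + g v) =
        k * (∑ d, pd d (H d) v) - k * (u v ^ 2 * ∑ d, pd d J v ^ 2) := by
      intro v
      rw [hPv, hg]
      simp only [hHv]
      rw [sum_add_distrib, sum_add_distrib, ← mul_sum, ← mul_sum, ← mul_sum, ← mul_sum, ← mul_sum]
      have : ∑ d, pd d (pd d J) v = lap J v := rfl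
      rw [this]
      ring
    simp only [e1]
    have i1 : Integrable (fun v => ∑ d, pd d (H d) v) :=
      hsm_int _ (hsm_sum _ fun d => hsm_pdc d _ (hHc d))
    have i2 : Integrable (fun v => u v ^ 2 * ∑ d, pd d J v ^ 2) := by
      refine hsm_int _ (hsm_mulc _ _ (hus.pow 2) (hsm_sum _ fun d => ?_))
      have := hsm_mulc (pd d J) (pd d J) (hsm_pds d J hJs) (hsm_pdc d J hJc)
      simpa [sq] using this
    rw [integral_sub (i1.const_mul k) (i2.const_mul k), integral_const_mul, integral_const_mul,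
      integral_finsetSum _ fun d _ => hsm_int _ (hsm_pdc d _ (hHc d))]
    rw [sum_eq_zero fun d _ => hsm_pdz d _ (hHc d)]
    ring
  have hcross0 : ∫ v, J v * u v * (P v + g v) ≤ 0 := by
    rw [hcross]
    have : 0 ≤ ∫ v, u v ^ 2 * ∑ d, pd d J v ^ 2 :=
      integral_nonneg fun v => mul_nonneg (sq_nonneg _) (sum_nonneg fun d _ => sq_nonneg _)
    have := mul_nonneg hk0.le this
    linarith
  -- the last term
  have hPP : Dd P P ≤ 8 * Real.pi * ((2 * k) ^ 2 * C1) * ∫ v in Metric.ball x 2, u v ^ 2 := by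
    have h1 := dive F hFc
    rw [← hP] at h1
    refine h1.trans ?_
    have h2 : ∫ v, ∑ d, F d v ^ 2 ≤ ((2 * k) ^ 2 * C1) * ∫ v in Metric.ball x 2, u v ^ 2 := by
      refine hsm_ball x u _ hus.continuous ?_ _ fun v => ?_
      · refine hsm_int _ (hsm_sum _ fun d => ?_)
        have := hsm_mulc (F d) (F d) (hFc d).1 (hFc d)
        simpa [sq] using this
      · have h3 := hgr x 1 one_pos v
        have e1 : ∑ d, F d v ^ 2 = (2 * k) ^ 2 * u v ^ 2 * gr (Jc θ x 1) v := by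
          rw [hF, ← hJ]
          unfold gr
          rw [mul_sum]
          refine sum_congr rfl fun d _ => ?_
          simp only [pd]
          ring
        rw [e1]
        simp only [one_pow, inv_one, mul_one] at h3
        split_ifs at h3 ⊢ with hv
        · calc (2 * k) ^ 2 * u v ^ 2 * gr (Jc θ x 1) v ≤ (2 * k) ^ 2 * u v ^ 2 * (C1 * 1) :=
                mul_le_mul_of_nonneg_left h3 (by positivity)
            _ = (2 * k) ^ 2 * C1 * u v ^ 2 := by ring
        · calc (2 * k) ^ 2 * u v ^ 2 * gr (Jc θ x 1) v ≤ (2 * k) ^ 2 * u v ^ 2 * (C1 * 0) :=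
                mul_le_mul_of_nonneg_left h3 (by positivity)
            _ = 0 := by ring
    calc 8 * Real.pi * ∫ v, ∑ d, F d v ^ 2
        ≤ 8 * Real.pi * (((2 * k) ^ 2 * C1) * ∫ v in Metric.ball x 2, u v ^ 2) :=
          mul_le_mul_of_nonneg_left h2 (by positivity)
      _ = _ := by ring
  have hgg : Dd g g ≤ C2 * (k ^ 2 * K2 ^ 2) * ∫ v in Metric.ball x 2, u v ^ 2 := by
    have h1 := hl2 x g hgc (by
      intro v hv
      by_contra hcon
      apply hv
      rw [hg]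
      simp only
      rw [hlapJ v, hlz _ (not_lt.mp hcon)]
      ring)
    refine h1.trans ?_
    have h2 : ∫ v, g v ^ 2 ≤ (k ^ 2 * K2 ^ 2) * ∫ v in Metric.ball x 2, u v ^ 2 := by
      refine hsm_ball x u _ hus.continuous ?_ _ fun v => ?_
      · have := hsm_mulc g g hgc.1 hgc
        refine hsm_int _ ?_
        simpa [sq] using this
      · have e1 : g v ^ 2 = k ^ 2 * (lap J0 (v - x)) ^ 2 * u v ^ 2 := by
          rw [hg]
          simp only
          rw [hlapJ v]
          ring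
        rw [e1]
        split_ifs with hv
        · have h3 := hK2 (v - x)
          rw [Real.norm_eq_abs] at h3
          have h4 : (lap J0 (v - x)) ^ 2 ≤ K2 ^ 2 := by
            rw [← sq_abs]
            exact pow_le_pow_left₀ (abs_nonneg _) h3 2
          have h5 : 0 ≤ k ^ 2 := by positivity
          exact mul_le_mul_of_nonneg_right (mul_le_mul_of_nonneg_left h4 h5) (sq_nonneg _)
        · rw [hlz _ (not_lt.mp hv)]
          simp
    calc C2 * ∫ v, g v ^ 2 ≤ C2 * ((k ^ 2 * K2 ^ 2) * ∫ v in Metric.ball x 2, u v ^ 2) :=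
          mul_le_mul_of_nonneg_left h2 hC2
      _ = _ := by ring
  have hpar := hsm_par P g hPc hgc
  have eL : (∫ v, Jc θ x 1 v ^ 2 * (pot ρ v - c) * ρ v) = ∫ v, J v * u v * (J v * ρ v) := by
    congr 1
    funext v
    rw [hJ, hu]
    ring
  have eB : (∫ v in Metric.ball x 2, (pot ρ v - c) ^ 2) = ∫ v in Metric.ball x 2, u v ^ 2 := by
    rw [hu]
  rw [eL, eB, ← hJ, hmain]
  obtain ⟨I, hI⟩ : ∃ I, I = ∫ v in Metric.ball x 2, u v ^ 2 := ⟨_, rfl⟩
  rw [← hI] at hPP hgg ⊢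
  linarith

end H6.CB
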