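import Pool.Agent.H6.CB.ImsG

/-! Localisation with a bounded family whose sum of squares `F = ∑ f i ²` is symmetric: complete it with `g = sqrt (2 M ² - F)`, which is smooth (`2 M ² - F ≥ M ² > 0`) and symmetric, so that `g ψ` is a wave function and `E * mass (g ψ) ≤ energy (g ψ)`; `|∇ g|² = |∇ F|² / (4 g²) ≤ F (∑ |∇ f i|²) / g² ≤ ∑ |∇ f i|²` by Cauchy-Schwarz (`gm_sqrt`). Then `ims_gen` for the family `f i, g` (index type `Option ι`) with `c = 2 M ²`. -/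

open MeasureTheory Finset

namespace H6.CB

open H6.CM

private theorem lb_gr {ι : Type} [Fintype ι] (h : ι → E3 → ℝ) (v : E3)
    (hh : ∀ i, DifferentiableAt ℝ (h i) v) (M : ℝ) (hM : 0 < M)
    (hF : ∑ i, h i v ^ 2 ≤ M ^ 2) :
    gr (fun v => Real.sqrt (2 * M ^ 2 - ∑ i, h i v ^ 2)) v ≤ ∑ i, gr (h i) v := by
  have h1 : HasFDerivAt (fun u => ∑ i, h i u ^ 2)
      (∑ i, ((2 : ℕ) • h i v ^ (2 - 1)) • fderiv ℝ (h i) v) v :=
    HasFDerivAt.fun_sum fun i _ => (hh i).hasFDerivAt.pow 2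
  have h2 : HasFDerivAt (fun u => 2 * M ^ 2 - ∑ i, h i u ^ 2)
      (-(∑ i, ((2 : ℕ) • h i v ^ (2 - 1)) • fderiv ℝ (h i) v)) v := h1.const_sub (2 * M ^ 2)
  have hM2 : 0 < M ^ 2 := by positivity
  have hpos : 0 < 2 * M ^ 2 - ∑ i, h i v ^ 2 := by linarith
  have h3 := h2.sqrt hpos.ne'
  have hS := Real.sq_sqrt hpos.le
  have hS0 : 0 < Real.sqrt (2 * M ^ 2 - ∑ i, h i v ^ 2) := Real.sqrt_pos.2 hpos
  unfold gr
  rw [sum_comm]
  refine sum_le_sum fun d _ => ?_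
  rw [h3.fderiv]
  generalize Real.sqrt (2 * M ^ 2 - ∑ i, h i v ^ 2) = S at hS hS0
  generalize (EuclideanSpace.single d (1 : ℝ) : E3) = e
  have h4 : ((1 / (2 * S)) • -(∑ i, ((2 : ℕ) • h i v ^ (2 - 1)) • fderiv ℝ (h i) v)) e =
      -(∑ i, h i v * fderiv ℝ (h i) v e) / S := by
    rw [ContinuousLinearMap.smul_apply, ContinuousLinearMap.neg_apply,
      ContinuousLinearMap.sum_apply]
    have h5 : ∀ i, (((2 : ℕ) • h i v ^ (2 - 1)) • fderiv ℝ (h i) v) e =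
        2 * (h i v * fderiv ℝ (h i) v e) := by
      intro i
      rw [ContinuousLinearMap.smul_apply]
      simp only [nsmul_eq_mul, smul_eq_mul]
      norm_num
      ring
    rw [sum_congr rfl fun i _ => h5 i, ← mul_sum, smul_eq_mul]
    field_simp
  rw [h4, neg_div, neg_sq, div_pow, hS, div_le_iff₀ hpos]
  have h6 := sum_mul_sq_le_sq_mul_sq (univ : Finset ι) (fun i => h i v)
    (fun i => fderiv ℝ (h i) v e)
  have h7 : 0 ≤ ∑ i, fderiv ℝ (h i) v e ^ 2 := sum_nonneg fun i _ => sq_nonneg _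
  calc (∑ i, h i v * fderiv ℝ (h i) v e) ^ 2 ≤ (∑ i, h i v ^ 2) * ∑ i, fderiv ℝ (h i) v e ^ 2 := h6
    _ ≤ (2 * M ^ 2 - ∑ i, h i v ^ 2) * ∑ i, fderiv ℝ (h i) v e ^ 2 :=
        mul_le_mul_of_nonneg_right (by linarith) h7
    _ = _ := mul_comm _ _

private theorem lb_dE {n k : ℕ} (F : Cfg n k → ℝ) (hF : Differentiable ℝ F) (q : Cfg n k)
    (b : Fin n) (v : E3) : DifferentiableAt ℝ (fun v => F (Function.update q.1 b v, q.2)) v := by
  have h1 : DifferentiableAt ℝ (fun v : E3 => ((Function.update q.1 b v, q.2) : Cfg n k)) v :=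
    ((hasFDerivAt_update q.1 v).differentiableAt).prodMk (differentiableAt_const _)
  exact (hF _).comp v h1

private theorem lb_dN {n k : ℕ} (F : Cfg n k → ℝ) (hF : Differentiable ℝ F) (q : Cfg n k)
    (b : Fin k) (v : E3) : DifferentiableAt ℝ (fun v => F (q.1, Function.update q.2 b v)) v := by
  have h1 : DifferentiableAt ℝ (fun v : E3 => ((q.1, Function.update q.2 b v) : Cfg n k)) v :=
    (differentiableAt_const _).prodMk ((hasFDerivAt_update q.2 v).differentiableAt)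
  exact (hF _).comp v h1

theorem gm_sqrt {n k : ℕ} {κ : Fin k → ℝ} (hκ : ∀ j, 0 ≤ κ j) {ι : Type} [Fintype ι]
    (f : ι → Cfg n k → ℝ) (hf : ∀ i, ContDiff ℝ (⊤ : ℕ∞) (f i)) (M : ℝ) (hM : 0 < M)
    (hF : ∀ p, ∑ i, f i p ^ 2 ≤ M ^ 2) (p : Cfg n k) :
    Gm κ (fun p => Real.sqrt (2 * M ^ 2 - ∑ i, f i p ^ 2)) p ≤ ∑ i, Gm κ (f i) p := by
  have hd : ∀ i, Differentiable ℝ (f i) := fun i => (hf i).differentiable (by simp)
  unfold Gm
  rw [sum_add_distrib, sum_comm, sum_comm (s := (univ : Finset ι)) (t := (univ : Finset (Fin k)))]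
  refine add_le_add (sum_le_sum fun a _ => ?_) (sum_le_sum fun j _ => ?_)
  · exact lb_gr (fun i v => f i (Function.update p.1 a v, p.2)) (p.1 a)
      (fun i => lb_dE (f i) (hd i) p a _) M hM (hF _)
  · rw [← mul_sum]
    refine mul_le_mul_of_nonneg_left ?_ (hκ j)
    exact lb_gr (fun i v => f i (p.1, Function.update p.2 j v)) (p.2 j)
      (fun i => lb_dN (f i) (hd i) p j _) M hM (hF _)

theorem locB {q n k : ℕ} {Λ : Set E3} {z κ : Fin k → ℝ} (hκ : ∀ j, 0 ≤ κ j) {E ε : ℝ}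
    (hE : LB q n k Λ z κ E) {ψ : (Fin n → Fin q) → Cfg n k → ℂ} (hψ : St q n k Λ ψ)
    (hε : energy z κ ψ ≤ E * mass ψ + ε) {ι : Type} [Fintype ι] (f : ι → Cfg n k → ℝ)
    (hf : ∀ i, ContDiff ℝ (⊤ : ℕ∞) (f i)) (hs : Sy (fun p => ∑ i, f i p ^ 2)) (M : ℝ)
    (hM : 0 < M) (hF : ∀ p, ∑ i, f i p ^ 2 ≤ M ^ 2) :
    ∑ i, (energy z κ (mf (f i) ψ) - E * mass (mf (f i) ψ)) ≤
      2 * M ^ 2 * ε + 2 * mean ψ (fun p => ∑ i, Gm κ (f i) p) := by
  have hsm := St_sm hψ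
  have hM2 : 0 < M ^ 2 := by positivity
  obtain ⟨g, hg⟩ : ∃ g : Cfg n k → ℝ, g = fun p => Real.sqrt (2 * M ^ 2 - ∑ i, f i p ^ 2) :=
    ⟨_, rfl⟩
  have hpos : ∀ p, 0 < 2 * M ^ 2 - ∑ i, f i p ^ 2 := fun p => by linarith [hF p]
  have hgs : ContDiff ℝ (⊤ : ℕ∞) g := by
    rw [hg]
    refine ContDiff.sqrt ?_ fun p => (hpos p).ne'
    exact contDiff_const.sub (ContDiff.sum fun i _ => (hf i).pow 2)
  have hgy : Sy g := by
    intro π p
    rw [hg]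
    show Real.sqrt (2 * M ^ 2 - ∑ i, f i (p.1 ∘ π, p.2) ^ 2) = _
    have h1 : ∑ i, f i (p.1 ∘ π, p.2) ^ 2 = ∑ i, f i p ^ 2 := hs π p
    rw [h1]
  have hg2 : ∀ p, g p ^ 2 = 2 * M ^ 2 - ∑ i, f i p ^ 2 := fun p => by
    rw [hg]
    exact Real.sq_sqrt (hpos p).le
  have hgE : E * mass (mf g ψ) ≤ energy z κ (mf g ψ) := hE _ (mf_st hψ hgs hgy)
  let G : Option ι → Cfg n k → ℝ := fun o => o.elim g f
  have hG : ∀ o, ContDiff ℝ (⊤ : ℕ∞) (G o) := by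
    intro o
    cases o with
    | none => exact hgs
    | some i => exact hf i
  have h1 := ims_gen hsm z κ G hG (2 * M ^ 2) (fun p => by
    rw [Fintype.sum_option]
    show g p ^ 2 + ∑ i, f i p ^ 2 = _
    rw [hg2]
    ring)
  rw [Fintype.sum_option] at h1
  have h2 : energy z κ (mf g ψ) + ∑ i, energy z κ (mf (f i) ψ) =
      2 * M ^ 2 * energy z κ ψ + mean ψ (fun p => ∑ o, Gm κ (G o) p) := h1
  have hGm : ∀ i, IM ψ (Gm κ (f i)) := fun i => IM.cont hsm (Gm_cont κ (hf i))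
  have hsum : IM ψ (fun p => ∑ i, Gm κ (f i) p) := IM.sum _ fun i _ => hGm i
  have hgm : IM ψ (Gm κ g) := IM.cont hsm (Gm_cont κ hgs)
  have h3 : mean ψ (fun p => ∑ o, Gm κ (G o) p) =
      mean ψ (Gm κ g) + mean ψ (fun p => ∑ i, Gm κ (f i) p) := by
    rw [← mean_add hgm hsum]
    congr 1
    funext p
    rw [Fintype.sum_option]
    rfl
  have h4 : mean ψ (Gm κ g) ≤ mean ψ (fun p => ∑ i, Gm κ (f i) p) := by
    refine mean_mono hgm hsum fun σ p _ => ?_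
    rw [hg]
    exact gm_sqrt hκ f hf M hM hF p
  have hfi : ∀ i, IM ψ (fun p => f i p ^ 2) := fun i => IM.cont hsm ((hf i).continuous.pow 2)
  have h5 : mass (mf g ψ) + ∑ i, mass (mf (f i) ψ) = 2 * M ^ 2 * mass ψ := by
    have h6 : ∀ i, mass (mf (f i) ψ) = mean ψ (fun p => f i p ^ 2) := fun i => mass_mf (f i)
    have hgi : IM ψ (fun p => g p ^ 2) := IM.cont hsm (hgs.continuous.pow 2)
    have hfs : IM ψ (fun p => ∑ i, f i p ^ 2) := IM.sum _ fun i _ => hfi i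
    rw [mass_mf, sum_congr rfl fun i _ => h6 i, ← mean_sum _ fun i _ => hfi i,
      ← mean_add hgi hfs, ← mean_const]
    congr 1
    funext p
    rw [hg2]
    ring
  rw [sum_sub_distrib, ← mul_sum]
  rw [h3] at h2
  have h7 : ∑ i, mass (mf (f i) ψ) = 2 * M ^ 2 * mass ψ - mass (mf g ψ) := by linarith
  rw [h7]
  have h8 : 2 * M ^ 2 * energy z κ ψ ≤ 2 * M ^ 2 * (E * mass ψ + ε) :=
    mul_le_mul_of_nonneg_left hε (by positivity)
  nlinarith [h8, h2, h4, hgE]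

end H6.CB
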