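import Pool.Agent.H6.CB.EJ
import Pool.Agent.H6.CB.LocB
import Pool.Agent.H6.CB.MmF
import Pool.Agent.H6.CB.UhF

/-! Relocation of every particle with the weight `J ^ 2`, `J = Jc θ x 1`. Apply `ej` to `mf (fun p => J (p.1 a)) ψ` (antisymmetric under the permutations fixing `a`: `mf_sa`, `St_sa`) and `nj` to `mf (fun p => J (p.2 j)) ψ` (`mf_st`), sum over all particles, and bound the sum of all `energy - E * mass` by `locB` for the family of the functions `J (p.1 a)`, `J (p.2 j)` (index type `Fin n ⊕ Fin k`), whose sum of squares is symmetric and at most `n + k + 1 =: M ^ 2`; the gradients are `gr J` and `κ j * gr J`, at most `C` on the ball of radius `2` (`Jc_grad`). `mean_mf`, `mass_mf`. -/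

open MeasureTheory Finset

namespace H6.CB

open H6.CM

private theorem ks_pr_cont {χ : E3 → ℝ} (hχ : Bump χ) {n k : ℕ} (W : Finset E3)
    (z : Fin k → ℝ) : Continuous (fun p : Cfg n k => pr χ W z p) := by
  have hUc : Continuous (UU χ 1) := (UU_smooth hχ 1 one_pos).continuous
  unfold pr ph
  refine continuous_const.mul (continuous_finsetSum _ fun w _ => Continuous.sub ?_ ?_)
  · refine continuous_finsetSum _ fun l _ => continuous_const.mul (hUc.comp ?_)
    exact continuous_const.sub ((continuous_apply l).comp continuous_snd)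
  · refine continuous_finsetSum _ fun a _ => hUc.comp ?_
    exact continuous_const.sub ((continuous_apply a).comp continuous_fst)

private theorem ks_gr0 (c : ℝ) (v : E3) : gr (fun _ => c) v = 0 := by
  unfold gr
  refine sum_eq_zero fun d _ => ?_
  simp

private theorem ks_gmE {n k : ℕ} (κ : Fin k → ℝ) (J : E3 → ℝ) (a : Fin n) (p : Cfg n k) :
    Gm κ (fun p : Cfg n k => J (p.1 a)) p = gr J (p.1 a) := by
  unfold Gm
  have h1 : ∀ b ∈ (univ : Finset (Fin n)), b ≠ a →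
      gr (fun v => J (Function.update p.1 b v a)) (p.1 b) = 0 := by
    intro b _ hb
    have e : (fun v => J (Function.update p.1 b v a)) = fun _ => J (p.1 a) := by
      funext v
      rw [Function.update_of_ne hb.symm]
    rw [e]
    exact ks_gr0 _ _
  rw [sum_eq_single_of_mem a (mem_univ a) h1]
  simp only [Function.update_self, ks_gr0, mul_zero, sum_const_zero, add_zero]

private theorem ks_gmN {n k : ℕ} (κ : Fin k → ℝ) (J : E3 → ℝ) (j : Fin k) (p : Cfg n k) :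
    Gm κ (fun p : Cfg n k => J (p.2 j)) p = κ j * gr J (p.2 j) := by
  unfold Gm
  have h1 : ∀ l ∈ (univ : Finset (Fin k)), l ≠ j →
      κ l * gr (fun v => J (Function.update p.2 l v j)) (p.2 l) = 0 := by
    intro l _ hl
    have e : (fun v => J (Function.update p.2 l v j)) = fun _ => J (p.2 j) := by
      funext v
      rw [Function.update_of_ne hl.symm]
    rw [e, ks_gr0, mul_zero]
  rw [sum_eq_single_of_mem j (mem_univ j) h1]
  simp only [Function.update_self, ks_gr0, sum_const_zero, zero_add]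

theorem ksum (q : ℕ) (κp : ℝ) {χ : E3 → ℝ} (hχ : Bump χ) {θ : E3 → ℝ} (hθ : Cut θ) :
    ∃ C : ℝ, 0 ≤ C ∧
    ∀ (n k : ℕ) (Λ : Set E3) (z κ : Fin k → ℝ) (_ : ∀ j, 0 ≤ z j)
    (_ : ∀ j, 0 ≤ κ j ∧ κ j ≤ κp) (E ε : ℝ) (_ : 0 ≤ ε)
    (_ : LB q n k Λ z κ E) (ψ : (Fin n → Fin q) → Cfg n k → ℂ)
    (_ : St q n k Λ ψ) (_ : mass ψ = 1) (_ : energy z κ ψ ≤ E + ε)
    (A : ℝ) (_ : 0 ≤ A) (W : Finset E3) (_ : Rf A Λ W ψ) (x : E3),
    ∑ a, kE (mf (fun p => Jc θ x 1 (p.1 a)) ψ) a +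
      ∑ j, κ j * kN (mf (fun p => Jc θ x 1 (p.2 j)) ψ) j +
      mean ψ (fun p => ∑ j, z j * (Jc θ x 1 (p.2 j) ^ 2 * (phiN z j p (p.2 j) - pr χ W z p)) -
        ∑ a, Jc θ x 1 (p.1 a) ^ 2 * (phiE z a p (p.1 a) - pr χ W z p)) ≤
      C * (1 + A) * mean ψ (fun p => ce p x 2 + cn p x 2) + 2 * (n + k + 1) * ε := by
  obtain ⟨C1, hC1, hej⟩ := ej hχ
  obtain ⟨C2, hC2, hnj⟩ := nj hχ
  obtain ⟨C3, hC3, hJg⟩ := Jc_grad hθ
  refine ⟨C1 + C2 * |κp| + 2 * C3 * (1 + |κp|), by positivity, ?_⟩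
  intro n k Λ z κ hz hκ E ε hε hLB ψ hψ hm hen A hA W hW x
  have hsm := St_sm hψ
  have hκ0 : ∀ j, 0 ≤ κ j := fun j => (hκ j).1
  have hκ1 : ∀ j, κ j ≤ |κp| := fun j => (hκ j).2.trans (le_abs_self κp)
  obtain ⟨J, hJ⟩ : ∃ J : E3 → ℝ, J = Jc θ x 1 := ⟨_, rfl⟩
  have hJs : ContDiff ℝ (⊤ : ℕ∞) J := by rw [hJ]; exact Jc_smooth hθ x 1
  have hJ2 : ∀ v, J v ^ 2 ≤ (if ‖v - x‖ < 2 then 1 else 0) := by
    intro v
    rw [hJ]
    split_ifs with h
    · exact pow_le_one₀ (Jc_mem hθ x 1 v).1 (Jc_mem hθ x 1 v).2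
    · rw [Jc_zero hθ x 1 one_pos v (by rw [mul_one]; exact not_lt.1 h)]
      norm_num
  have hJgr : ∀ v, gr J v ≤ C3 * (if ‖v - x‖ < 2 then 1 else 0) := by
    intro v
    have h1 := hJg x 1 one_pos v
    rw [← hJ] at h1
    simpa using h1
  rw [← hJ]
  have hfE : ∀ a : Fin n, ContDiff ℝ (⊤ : ℕ∞) (fun p : Cfg n k => J (p.1 a)) := fun a =>
    hJs.comp ((contDiff_apply ℝ E3 a).comp contDiff_fst)
  have hfN : ∀ j : Fin k, ContDiff ℝ (⊤ : ℕ∞) (fun p : Cfg n k => J (p.2 j)) := fun j =>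
    hJs.comp ((contDiff_apply ℝ E3 j).comp contDiff_snd)
  have hprc : Continuous (fun p : Cfg n k => pr χ W z p) := ks_pr_cont hχ W z
  -- electrons
  have hE1 : ∀ a : Fin n, kE (mf (fun p => J (p.1 a)) ψ) a -
      mean ψ (fun p => J (p.1 a) ^ 2 * phiE z a p (p.1 a)) +
      mean ψ (fun p => J (p.1 a) ^ 2 * pr χ W z p) ≤
      (energy z κ (mf (fun p => J (p.1 a)) ψ) - E * mass (mf (fun p => J (p.1 a)) ψ)) +
        C1 * (1 + A) * mean ψ (fun p => J (p.1 a) ^ 2) := by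
    intro a
    have hsa : Sa q n k Λ a (mf (fun p => J (p.1 a)) ψ) :=
      mf_sa (St_sa hψ a) (hfE a) fun π hπ p => by
        show J (p.1 (π a)) = J (p.1 a)
        rw [hπ]
    have h1 := hej q n k Λ z κ hz hκ0 E hLB a _ hsa A hA W (Rf_mf hW _)
    rw [mean_mf, mean_mf] at h1
    have h2 := mass_mf (ψ := ψ) (fun p => J (p.1 a))
    rw [← h2]
    exact h1
  have hN1 : ∀ j : Fin k, κ j * kN (mf (fun p => J (p.2 j)) ψ) j +
      z j * mean ψ (fun p => J (p.2 j) ^ 2 * phiN z j p (p.2 j)) -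
      z j * mean ψ (fun p => J (p.2 j) ^ 2 * pr χ W z p) ≤
      (energy z κ (mf (fun p => J (p.2 j)) ψ) - E * mass (mf (fun p => J (p.2 j)) ψ)) +
        C2 * κ j * mean ψ (fun p => J (p.2 j) ^ 2) := by
    intro j
    have hst : St q n k Λ (mf (fun p => J (p.2 j)) ψ) := mf_st hψ (hfN j) fun π p => rfl
    have h1 := hnj q n k Λ z κ hz hκ0 E hLB j _ hst A W (Rf_mf hW _)
    rw [mean_mf, mean_mf] at h1
    have h2 := mass_mf (ψ := ψ) (fun p => J (p.2 j))
    rw [← h2]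
    exact h1
  -- the localisation bound
  have hM : 0 < (n : ℝ) + k + 1 := by positivity
  have hloc := locB hκ0 hLB hψ (ε := ε) (by rw [hm, mul_one]; exact hen)
    (Sum.elim (fun (a : Fin n) (p : Cfg n k) => J (p.1 a)) (fun (j : Fin k) (p : Cfg n k) =>
      J (p.2 j))) (by
      rintro (a | j)
      · exact hfE a
      · exact hfN j) (by
      intro π p
      simp only [Fintype.sum_sum_type, Sum.elim_inl, Sum.elim_inr]
      congr 1
      exact Equiv.sum_comp π (fun a => J (p.1 a) ^ 2)) (Real.sqrt ((n : ℝ) + k + 1))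
      (Real.sqrt_pos.2 hM) (by
      intro p
      rw [Real.sq_sqrt hM.le]
      simp only [Fintype.sum_sum_type, Sum.elim_inl, Sum.elim_inr]
      have hb : ∀ v, J v ^ 2 ≤ 1 := fun v => (hJ2 v).trans (by split_ifs <;> norm_num)
      have h1 : ∑ a : Fin n, J (p.1 a) ^ 2 ≤ ∑ _a : Fin n, (1 : ℝ) :=
        sum_le_sum fun a _ => hb _
      have h2 : ∑ j : Fin k, J (p.2 j) ^ 2 ≤ ∑ _j : Fin k, (1 : ℝ) :=
        sum_le_sum fun j _ => hb _
      simp only [sum_const, card_univ, Fintype.card_fin, nsmul_eq_mul, mul_one] at h1 h2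
      linarith)
  rw [Real.sq_sqrt hM.le] at hloc
  simp only [Fintype.sum_sum_type, Sum.elim_inl, Sum.elim_inr, ks_gmE, ks_gmN] at hloc
  -- the gradient terms
  have hgc : Continuous (fun v => gr J v) := by
    unfold gr
    have h1 : Continuous (fderiv ℝ J) := hJs.continuous_fderiv (by simp)
    exact continuous_finsetSum _ fun d _ => ((h1.clm_apply continuous_const).pow 2)
  have hce := IM_ce hsm x 2
  have hcn := IM_cn hsm x 2
  have hgm : mean ψ (fun p => ∑ a : Fin n, gr J (p.1 a) + ∑ j : Fin k, κ j * gr J (p.2 j)) ≤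
      C3 * mean ψ (fun p => ce p x 2) + C3 * |κp| * mean ψ (fun p => cn p x 2) := by
    rw [← mean_cmul, ← mean_cmul, ← mean_add (hce.cmul C3) (hcn.cmul (C3 * |κp|))]
    have hF : Continuous (fun p : Cfg n k => ∑ a : Fin n, gr J (p.1 a) +
        ∑ j : Fin k, κ j * gr J (p.2 j)) := by
      refine Continuous.add (continuous_finsetSum _ fun a _ => ?_)
        (continuous_finsetSum _ fun j _ => continuous_const.mul ?_)
      · exact hgc.comp ((continuous_apply a).comp continuous_fst)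
      · exact hgc.comp ((continuous_apply j).comp continuous_snd)
    refine mean_mono (IM.cont hsm hF) ((hce.cmul C3).add (hcn.cmul (C3 * |κp|))) fun σ p _ => ?_
    unfold ce cn
    rw [mul_sum, mul_sum]
    refine add_le_add (sum_le_sum fun a _ => hJgr _) (sum_le_sum fun j _ => ?_)
    have h1 : 0 ≤ gr J (p.2 j) := sum_nonneg fun d _ => sq_nonneg _
    calc κ j * gr J (p.2 j) ≤ |κp| * gr J (p.2 j) := mul_le_mul_of_nonneg_right (hκ1 j) h1
      _ ≤ |κp| * (C3 * (if ‖p.2 j - x‖ < 2 then 1 else 0)) :=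
          mul_le_mul_of_nonneg_left (hJgr _) (abs_nonneg _)
      _ = C3 * |κp| * (if ‖p.2 j - x‖ < 2 then 1 else 0) := by ring
  -- the masses
  have iE2 : ∀ a : Fin n, IM ψ (fun p => J (p.1 a) ^ 2) := fun a =>
    IM.cont hsm ((hfE a).continuous.pow 2)
  have iN2 : ∀ j : Fin k, IM ψ (fun p => J (p.2 j) ^ 2) := fun j =>
    IM.cont hsm ((hfN j).continuous.pow 2)
  have hmE : ∑ a : Fin n, mean ψ (fun p => J (p.1 a) ^ 2) ≤ mean ψ (fun p => ce p x 2) := by
    rw [← mean_sum _ fun a _ => iE2 a]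
    refine mean_mono (IM.sum _ fun a _ => iE2 a) hce
      fun σ p _ => ?_
    exact sum_le_sum fun a _ => hJ2 _
  have hmN : ∑ j : Fin k, κ j * mean ψ (fun p => J (p.2 j) ^ 2) ≤
      |κp| * mean ψ (fun p => cn p x 2) := by
    have h1 : ∑ j : Fin k, κ j * mean ψ (fun p => J (p.2 j) ^ 2) ≤
        |κp| * ∑ j : Fin k, mean ψ (fun p => J (p.2 j) ^ 2) := by
      rw [mul_sum]
      exact sum_le_sum fun j _ => mul_le_mul_of_nonneg_right (hκ1 j)
        (mean_nonneg fun σ p _ => sq_nonneg _)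
    refine h1.trans (mul_le_mul_of_nonneg_left ?_ (abs_nonneg _))
    rw [← mean_sum _ fun j _ => iN2 j]
    refine mean_mono (IM.sum _ fun j _ => iN2 j) hcn
      fun σ p _ => ?_
    exact sum_le_sum fun j _ => hJ2 _
  -- the mean of the potential terms
  have iE : ∀ a : Fin n, IM ψ (fun p => J (p.1 a) ^ 2 * phiE z a p (p.1 a)) := fun a =>
    IM_mf.1 (IM_phiE (mf_sm hsm (hfE a)) z a)
  have iN : ∀ j : Fin k, IM ψ (fun p => J (p.2 j) ^ 2 * phiN z j p (p.2 j)) := fun j =>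
    IM_mf.1 (IM_phiN (mf_sm hsm (hfN j)) z j)
  have iEp : ∀ a : Fin n, IM ψ (fun p => J (p.1 a) ^ 2 * pr χ W z p) := fun a =>
    IM.cont hsm (((hfE a).continuous.pow 2).mul hprc)
  have iNp : ∀ j : Fin k, IM ψ (fun p => J (p.2 j) ^ 2 * pr χ W z p) := fun j =>
    IM.cont hsm (((hfN j).continuous.pow 2).mul hprc)
  have hpot : mean ψ (fun p => ∑ j, z j * (J (p.2 j) ^ 2 * (phiN z j p (p.2 j) - pr χ W z p)) -
      ∑ a, J (p.1 a) ^ 2 * (phiE z a p (p.1 a) - pr χ W z p)) =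
      ∑ j, (z j * mean ψ (fun p => J (p.2 j) ^ 2 * phiN z j p (p.2 j)) -
        z j * mean ψ (fun p => J (p.2 j) ^ 2 * pr χ W z p)) -
      ∑ a, (mean ψ (fun p => J (p.1 a) ^ 2 * phiE z a p (p.1 a)) -
        mean ψ (fun p => J (p.1 a) ^ 2 * pr χ W z p)) := by
    have e1 : (fun p : Cfg n k => ∑ j, z j * (J (p.2 j) ^ 2 * (phiN z j p (p.2 j) -
        pr χ W z p)) - ∑ a, J (p.1 a) ^ 2 * (phiE z a p (p.1 a) - pr χ W z p)) =
        fun p => ∑ j, (z j * (J (p.2 j) ^ 2 * phiN z j p (p.2 j)) -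
          z j * (J (p.2 j) ^ 2 * pr χ W z p)) -
          ∑ a, (J (p.1 a) ^ 2 * phiE z a p (p.1 a) - J (p.1 a) ^ 2 * pr χ W z p) := by
      funext p
      congr 1
      · exact sum_congr rfl fun j _ => by ring
      · exact sum_congr rfl fun a _ => by ring
    rw [e1, mean_sub (IM.sum _ fun j _ => ((iN j).cmul (z j)).sub ((iNp j).cmul (z j)))
      (IM.sum _ fun a _ => (iE a).sub (iEp a)),
      mean_sum _ fun j _ => ((iN j).cmul (z j)).sub ((iNp j).cmul (z j)),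
      mean_sum _ fun a _ => (iE a).sub (iEp a)]
    congr 1
    · refine sum_congr rfl fun j _ => ?_
      rw [mean_sub ((iN j).cmul (z j)) ((iNp j).cmul (z j)), mean_cmul, mean_cmul]
    · refine sum_congr rfl fun a _ => ?_
      rw [mean_sub (iE a) (iEp a)]
  rw [hpot, mean_add hce hcn]
  have hS1 := sum_le_sum fun (a : Fin n) (_ : a ∈ univ) => hE1 a
  have hS2 := sum_le_sum fun (j : Fin k) (_ : j ∈ univ) => hN1 j
  simp only [sum_add_distrib, sum_sub_distrib, ← mul_sum] at hS1 hS2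
  simp only [sum_sub_distrib, ← mul_sum] at hloc ⊢
  have hS3 : ∑ j : Fin k, C2 * κ j * mean ψ (fun p => J (p.2 j) ^ 2) =
      C2 * ∑ j : Fin k, κ j * mean ψ (fun p => J (p.2 j) ^ 2) := by
    rw [mul_sum]
    exact sum_congr rfl fun j _ => by ring
  rw [hS3] at hS2
  obtain ⟨X, hX⟩ : ∃ X : ℝ, X = mean ψ (fun p => ce p x 2) := ⟨_, rfl⟩
  obtain ⟨Y, hY⟩ : ∃ Y : ℝ, Y = mean ψ (fun p => cn p x 2) := ⟨_, rfl⟩
  have hX0 : 0 ≤ X := by rw [hX]; exact mean_nonneg fun σ p _ => ce_nonneg _ _ _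
  have hY0 : 0 ≤ Y := by rw [hY]; exact mean_nonneg fun σ p _ => cn_nonneg _ _ _
  rw [← hX] at hgm hmE ⊢
  rw [← hY] at hgm hmN ⊢
  have m1 := mul_le_mul_of_nonneg_left hmE (by positivity : 0 ≤ C1 * (1 + A))
  have m2 := mul_le_mul_of_nonneg_left hmN hC2
  have m3 : 0 ≤ A * X := mul_nonneg hA hX0
  have m4 : 0 ≤ A * Y := mul_nonneg hA hY0
  have fin : C1 * (1 + A) * X + C2 * (|κp| * Y) + 2 * (C3 * X + C3 * |κp| * Y) ≤
      (C1 + C2 * |κp| + 2 * C3 * (1 + |κp|)) * (1 + A) * (X + Y) := by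
    have f1 : 0 ≤ C1 * (1 + A) * Y := by positivity
    have f2 : 0 ≤ C2 * |κp| * (1 + A) * X := by positivity
    have f3 : 0 ≤ C2 * |κp| * (A * Y) := by positivity
    have f4 : 0 ≤ C3 * |κp| * (1 + A) * X := by positivity
    have f5 : 0 ≤ C3 * (1 + A) * Y := by positivity
    have f6 : 0 ≤ C3 * (A * X) := by positivity
    have f7 : 0 ≤ C3 * |κp| * (A * Y) := by positivity
    linarith
  linarith

end H6.CB
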