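import Pool.Agent.H6.CB.Lib
import Pool.Agent.H6.CM.PartGrad

/-! The partition of unity at scale `r0`. Everything follows from the files `Pool/Agent/H6/CM/Part.lean` and `PartGrad.lean` for the rescaled points `r0⁻¹ • w`, `r0⁻¹ • x b` (`‖r0⁻¹ • x b - r0⁻¹ • w‖ = r0⁻¹ * ‖x b - w‖`; `gx (slS ..) b x = (r0 ^ 2)⁻¹ * gx (sl ..) b (r0⁻¹ • x)` by the chain rule; `Function.update` commutes with the scaling). -/

open MeasureTheory Finset

namespace H6.CB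

open H6.CM

private theorem nrm_sc {r0 : ℝ} (hr : 0 < r0) (u v : E3) :
    ‖r0⁻¹ • u - r0⁻¹ • v‖ = r0⁻¹ * ‖u - v‖ := by
  rw [← smul_sub, norm_smul, Real.norm_eq_abs, abs_of_pos (inv_pos.2 hr)]

private theorem upd_sc {n : ℕ} (r0 : ℝ) (b : Fin n) (x : Fin n → E3) (v : E3) :
    (fun c => r0⁻¹ • (Function.update x b v) c) =
      Function.update (fun c => r0⁻¹ • x c) b (r0⁻¹ • v) := by
  funext c
  by_cases hc : c = b
  · subst hc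
    rw [Function.update_self, Function.update_self]
  · rw [Function.update_of_ne hc, Function.update_of_ne hc]

private theorem gx_sc {n : ℕ} (s : (Fin n → E3) → ℝ) (r0 : ℝ) (b : Fin n) (x : Fin n → E3) :
    gx (fun y => s (fun c => r0⁻¹ • y c)) b x = (r0 ^ 2)⁻¹ * gx s b (fun c => r0⁻¹ • x c) := by
  unfold gx gr
  rw [mul_sum]
  refine sum_congr rfl fun d _ => ?_
  have h1 : (fun v => s (fun c => r0⁻¹ • (Function.update x b v) c)) =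
      fun v => (fun u => s (Function.update (fun c => r0⁻¹ • x c) b u)) (r0⁻¹ • v) := by
    funext v
    rw [upd_sc]
  obtain ⟨F, hF⟩ : ∃ F : E3 → ℝ, F = fun u => s (Function.update (fun c => r0⁻¹ • x c) b u) :=
    ⟨_, rfl⟩
  rw [h1, ← hF]
  have h2 : fderiv ℝ (fun v => F (r0⁻¹ • v)) (x b) = r0⁻¹ • fderiv ℝ F (r0⁻¹ • x b) :=
    fderiv_comp_smul (𝕜 := ℝ) r0⁻¹
  rw [h2]
  simp only [ContinuousLinearMap.smul_apply, smul_eq_mul]
  rw [mul_pow, inv_pow]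

variable {n : ℕ} {θ : E3 → ℝ} (h : Cut θ) (r0 : ℝ) (hr : 0 < r0) (a : Fin n) (w : E3)
include h hr

theorem partS_sum (L : ℕ) (x : Fin n → E3) :
    ∑ l ∈ range (L + 1), slS θ r0 a w l x ^ 2 + rmS θ r0 a w L x ^ 2 = 1 :=
  part_sum h a (r0⁻¹ • w) L (fun b => r0⁻¹ • x b)

theorem slS_far (l : ℕ) (x : Fin n → E3) (hs : slS θ r0 a w l x ≠ 0) (b : Fin n) (hb : b ≠ a) :
    r0 * ((2 : ℝ) ^ (l + 1))⁻¹ ≤ ‖x b - w‖ := by
  have h1 := sl_far h a (r0⁻¹ • w) l (fun b => r0⁻¹ • x b) hs b hb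
  simp only [nrm_sc hr] at h1
  have h2 := mul_le_mul_of_nonneg_left h1 hr.le
  rwa [mul_inv_cancel_left₀ hr.ne'] at h2

theorem rmS_near (l : ℕ) (x : Fin n → E3) (hs : rmS θ r0 a w l x ≠ 0) :
    ∃ b, b ≠ a ∧ ‖x b - w‖ < r0 * ((2 : ℝ) ^ l)⁻¹ := by
  obtain ⟨b, hb, h1⟩ := rm_near h a (r0⁻¹ • w) l (fun b => r0⁻¹ • x b) hs
  refine ⟨b, hb, ?_⟩
  simp only [nrm_sc hr] at h1
  have h2 := mul_lt_mul_of_pos_left h1 hr
  rwa [mul_inv_cancel_left₀ hr.ne'] at h2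

theorem slS_smooth (l : ℕ) : ContDiff ℝ (⊤ : ℕ∞) (slS θ r0 a w l) :=
  (sl_smooth h a (r0⁻¹ • w) l).comp (contDiff_id.const_smul r0⁻¹)

theorem rmS_smooth (l : ℕ) : ContDiff ℝ (⊤ : ℕ∞) (rmS θ r0 a w l) :=
  (rm_smooth h a (r0⁻¹ • w) l).comp (contDiff_id.const_smul r0⁻¹)

theorem slS_joint (l : ℕ) : Continuous (fun u : E3 × (Fin n → E3) => slS θ r0 a u.1 l u.2) := by
  have h1 : Continuous (fun u : E3 × (Fin n → E3) =>
      ((r0⁻¹ • u.1, fun b => r0⁻¹ • u.2 b) : E3 × (Fin n → E3))) := by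
    fun_prop
  exact (sl_joint h a l).comp h1

theorem rmS_joint (l : ℕ) : Continuous (fun u : E3 × (Fin n → E3) => rmS θ r0 a u.1 l u.2) := by
  have h1 : Continuous (fun u : E3 × (Fin n → E3) =>
      ((r0⁻¹ • u.1, fun b => r0⁻¹ • u.2 b) : E3 × (Fin n → E3))) := by
    fun_prop
  have h2 := (rm_joint h a l).comp h1
  exact h2

theorem slS_upd (l : ℕ) (x : Fin n → E3) (v : E3) :
    slS θ r0 a w l (Function.update x a v) = slS θ r0 a w l x := by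
  unfold slS
  rw [upd_sc, sl_upd]

theorem rmS_upd (l : ℕ) (x : Fin n → E3) (v : E3) :
    rmS θ r0 a w l (Function.update x a v) = rmS θ r0 a w l x := by
  unfold rmS
  rw [upd_sc, rm_upd]

theorem slS_perm (l : ℕ) (x : Fin n → E3) (π : Equiv.Perm (Fin n)) (hπ : π a = a) :
    slS θ r0 a w l (x ∘ π) = slS θ r0 a w l x :=
  sl_perm a (r0⁻¹ • w) l (fun b => r0⁻¹ • x b) π hπ

omit hr in
theorem part_kinS (L : ℕ) (x : Fin n → E3) :
    ∑ l ∈ range (L + 1), (4 : ℝ) ^ (l + 1) * slS θ r0 a w l x ^ 2 ≤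
      4 + 16 * DlS r0 a w L x :=
  part_kin h n a (r0⁻¹ • w) L (fun b => r0⁻¹ • x b)

omit hr in
theorem DlS_nonneg (L : ℕ) (x : Fin n → E3) : 0 ≤ DlS r0 a w L x := by
  unfold DlS Dl
  refine sum_nonneg fun b _ => sum_nonneg fun l _ => ?_
  split_ifs <;> positivity

omit a w hr r0 in
theorem part_gradS : ∃ C : ℝ, 0 ≤ C ∧
    ∀ (n : ℕ) (a : Fin n) (r0 : ℝ) (_ : 0 < r0) (w : E3) (L : ℕ) (x : Fin n → E3),
      ∑ b, (∑ l ∈ range (L + 1), gx (slS θ r0 a w l) b x + gx (rmS θ r0 a w L) b x) ≤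
        C * ((r0 ^ 2)⁻¹ * DlS r0 a w L x) := by
  obtain ⟨C, hC, h1⟩ := part_grad h
  refine ⟨C, hC, fun n a r0 hr w L x => ?_⟩
  have h2 := h1 n a (r0⁻¹ • w) L (fun b => r0⁻¹ • x b)
  have e1 : ∀ (l : ℕ) (b : Fin n), gx (slS θ r0 a w l) b x =
      (r0 ^ 2)⁻¹ * gx (sl θ a (r0⁻¹ • w) l) b (fun b => r0⁻¹ • x b) := fun l b =>
    gx_sc (sl θ a (r0⁻¹ • w) l) r0 b x
  have e2 : ∀ b : Fin n, gx (rmS θ r0 a w L) b x =
      (r0 ^ 2)⁻¹ * gx (rm θ a (r0⁻¹ • w) L) b (fun b => r0⁻¹ • x b) := fun b =>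
    gx_sc (rm θ a (r0⁻¹ • w) L) r0 b x
  have e3 : ∑ b, (∑ l ∈ range (L + 1), gx (slS θ r0 a w l) b x + gx (rmS θ r0 a w L) b x) =
      (r0 ^ 2)⁻¹ * ∑ b, (∑ l ∈ range (L + 1),
        gx (sl θ a (r0⁻¹ • w) l) b (fun b => r0⁻¹ • x b) +
        gx (rm θ a (r0⁻¹ • w) L) b (fun b => r0⁻¹ • x b)) := by
    rw [mul_sum]
    refine sum_congr rfl fun b _ => ?_
    rw [mul_add, mul_sum, e2 b, sum_congr rfl fun l _ => e1 l b]
  rw [e3]
  have h3 := mul_le_mul_of_nonneg_left h2 (show (0 : ℝ) ≤ (r0 ^ 2)⁻¹ by positivity)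
  refine h3.trans (le_of_eq ?_)
  unfold DlS
  ring

end H6.CB
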