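import Pool.Agent.H6.CB.Green

/-! Potentials of smooth densities with compact support. `pot ρ x = ∫ u, ρ (x - u) * ‖u‖⁻¹` is a convolution with a locally integrable kernel, hence smooth with `pd d (pot ρ) = pot (pd d ρ)` (`HasCompactSupport.contDiff_convolution_left`, `hasFDerivAt_convolution`), so `lap (pot ρ) = pot (lap ρ) = -4 π ρ` by `green`. Decay: for `‖x‖` larger than twice the radius of the support the kernel is at most `2 ‖x‖⁻¹`. Symmetry by Fubini. -/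

open MeasureTheory Finset

namespace H6.CB

open H6.CM

private theorem poten_li : LocallyIntegrable (fun v : E3 => ‖v‖⁻¹) volume := by
  obtain ⟨C, hC0, hC⟩ := ballinv
  rw [locallyIntegrable_iff]
  intro K hK
  obtain ⟨r, hr0, hr⟩ := hK.isBounded.subset_ball_lt 0 (0 : E3)
  refine IntegrableOn.mono_set ?_ hr
  have hm : Measurable (fun v : E3 => ‖v‖⁻¹) := by fun_prop
  refine ⟨hm.aestronglyMeasurable, ?_⟩
  rw [HasFiniteIntegral]
  refine lt_of_le_of_lt (le_of_eq ?_) (lt_of_le_of_lt (hC 0 r hr0) ENNReal.ofReal_lt_top)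
  refine lintegral_congr fun v => ?_
  rw [← ofReal_norm, norm_inv, norm_norm]

private theorem poten_pd (d : Fin 3) (ρ : E3 → ℝ) (hρ : Cc ρ) : Cc (pd d ρ) := by
  constructor
  · unfold pd
    exact (hρ.1.fderiv_right (m := (⊤ : ℕ∞)) (by simp)).clm_apply contDiff_const
  · have h1 : HasCompactSupport (fderiv ℝ ρ) := hρ.2.fderiv ℝ
    exact h1.comp_left (g := fun L : E3 →L[ℝ] ℝ => L (EuclideanSpace.single d 1)) (by simp)

private theorem poten_neg (ρ : E3 → ℝ) (hρ : Cc ρ) : Cc (fun x => -ρ x) :=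
  ⟨hρ.1.neg, hρ.2.neg⟩

private theorem poten_add (ρ σ : E3 → ℝ) (hρ : Cc ρ) (hσ : Cc σ) : Cc (fun x => ρ x + σ x) :=
  ⟨hρ.1.add hσ.1, hρ.2.add hσ.2⟩

private theorem poten_lap (ρ : E3 → ℝ) (hρ : Cc ρ) : Cc (lap ρ) := by
  have h : ∀ d : Fin 3, Cc (pd d (pd d ρ)) := fun d => poten_pd d _ (poten_pd d ρ hρ)
  have e : lap ρ = fun v => pd 0 (pd 0 ρ) v + pd 1 (pd 1 ρ) v + pd 2 (pd 2 ρ) v := by
    funext v
    unfold lap
    rw [Fin.sum_univ_three]
  rw [e]
  exact poten_add _ _ (poten_add _ _ (h 0) (h 1)) (h 2)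

private theorem poten_int (ρ : E3 → ℝ) (hρ : Cc ρ) (x : E3) :
    Integrable (fun y => ρ y * ‖x - y‖⁻¹) := by
  have h1 := intK (volume : Measure E3) (ContinuousLinearMap.id ℝ E3)
    (ContinuousLinearMap.id ℝ E3) (fun v => rfl) (-x) ρ hρ.1.continuous hρ.2
  refine h1.congr (Filter.Eventually.of_forall fun y => ?_)
  simp only [ContinuousLinearMap.coe_id', id_eq]
  rw [mul_comm, neg_add_eq_sub, norm_sub_rev]

private theorem poten_conv (ρ : E3 → ℝ) :
    pot ρ = MeasureTheory.convolution (fun v : E3 => ‖v‖⁻¹) ρ (ContinuousLinearMap.mul ℝ ℝ) volume := by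
  funext x
  unfold pot MeasureTheory.convolution
  rw [← integral_sub_left_eq_self (fun t => (ContinuousLinearMap.mul ℝ ℝ) ‖t‖⁻¹ (ρ (x - t))) volume x]
  congr 1
  funext t
  simp only [ContinuousLinearMap.mul_apply', sub_sub_cancel]
  ring

theorem pot_smooth (ρ : E3 → ℝ) (hρ : Cc ρ) : ContDiff ℝ (⊤ : ℕ∞) (pot ρ) := by
  rw [poten_conv]
  exact hρ.2.contDiff_convolution_right _ poten_li hρ.1

private theorem poten_pd_pot (d : Fin 3) (ρ : E3 → ℝ) (hρ : Cc ρ) :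
    pd d (pot ρ) = pot (pd d ρ) := by
  funext x
  have h1 := hρ.2.hasFDerivAt_convolution_right (ContinuousLinearMap.mul ℝ ℝ) poten_li
    (hρ.1.of_le (by exact_mod_cast le_top)) x
  rw [← poten_conv] at h1
  unfold pd
  rw [h1.fderiv]
  rw [convolution_precompR_apply _ poten_li (hρ.2.fderiv ℝ) (hρ.1.continuous_fderiv (by simp))]
  rw [poten_conv]

private theorem poten_sum (ρ σ : E3 → ℝ) (hρ : Cc ρ) (hσ : Cc σ) (x : E3) :
    pot (fun x => ρ x + σ x) x = pot ρ x + pot σ x := by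
  unfold pot
  rw [← integral_add (poten_int ρ hρ x) (poten_int σ hσ x)]
  congr 1
  funext y
  ring

theorem pot_lap (ρ : E3 → ℝ) (hρ : Cc ρ) (x : E3) : lap (pot ρ) x = -(4 * Real.pi * ρ x) := by
  have h : ∀ d : Fin 3, Cc (pd d (pd d ρ)) := fun d => poten_pd d _ (poten_pd d ρ hρ)
  have h1 : lap (pot ρ) x = pot (lap ρ) x := by
    have e : lap ρ = fun v => (pd 0 (pd 0 ρ) v + pd 1 (pd 1 ρ) v) + pd 2 (pd 2 ρ) v := by
      funext v
      unfold lap
      rw [Fin.sum_univ_three]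
    rw [e, poten_sum _ _ (poten_add _ _ (h 0) (h 1)) (h 2), poten_sum _ _ (h 0) (h 1)]
    unfold lap
    rw [Fin.sum_univ_three]
    simp only [poten_pd_pot _ _ hρ, poten_pd_pot _ _ (poten_pd _ ρ hρ)]
  rw [h1, ← green ρ hρ x]
  unfold pot
  rw [← integral_neg]
  congr 1
  funext y
  ring

theorem pot_decay (ρ : E3 → ℝ) (hρ : Cc ρ) : ∃ C : ℝ, 0 ≤ C ∧ ∀ x, |pot ρ x| ≤ C * (1 + ‖x‖)⁻¹ := by
  obtain ⟨R, hR0, hR⟩ := hρ.2.isCompact.isBounded.subset_closedBall_lt 0 (0 : E3)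
  obtain ⟨B, hB⟩ := (isCompact_closedBall (0 : E3) (2 * R + 1)).exists_bound_of_continuousOn
    (pot_smooth ρ hρ).continuous.continuousOn
  have hI : Integrable (fun y => |ρ y|) := (hρ.1.continuous.integrable_of_hasCompactSupport hρ.2).abs
  obtain ⟨A, hA⟩ : ∃ A : ℝ, A = ∫ y, |ρ y| := ⟨_, rfl⟩
  have hA0 : 0 ≤ A := by
    rw [hA]
    exact integral_nonneg fun _ => abs_nonneg _
  have hB0 : 0 ≤ B := (norm_nonneg _).trans (hB 0 (Metric.mem_closedBall_self (by positivity)))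
  refine ⟨4 * A + B * (2 * R + 2), by positivity, fun x => ?_⟩
  have hx1 : 0 < 1 + ‖x‖ := by positivity
  rw [← div_eq_mul_inv, le_div_iff₀ hx1]
  by_cases hx : ‖x‖ ≤ 2 * R + 1
  · have h1 := hB x (by rw [mem_closedBall_zero_iff]; exact hx)
    rw [Real.norm_eq_abs] at h1
    calc |pot ρ x| * (1 + ‖x‖) ≤ B * (2 * R + 2) :=
          mul_le_mul h1 (by linarith) hx1.le hB0
      _ ≤ 4 * A + B * (2 * R + 2) := by linarith
  · rw [not_le] at hx
    have hx0 : 0 < ‖x‖ := by linarith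
    have h2 : |pot ρ x| ≤ ∫ y, 2 * ‖x‖⁻¹ * |ρ y| := by
      unfold pot
      refine (abs_integral_le_integral_abs).trans ?_
      refine integral_mono_of_nonneg (Filter.Eventually.of_forall fun _ => abs_nonneg _)
        (hI.const_mul _) (Filter.Eventually.of_forall fun y => ?_)
      simp only
      rw [abs_mul, abs_of_nonneg (a := ‖x - y‖⁻¹) (by positivity)]
      by_cases hy : ρ y = 0
      · simp [hy]
      · have h3 : ‖y‖ ≤ R := by
          have := hR (subset_tsupport ρ hy)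
          rwa [mem_closedBall_zero_iff] at this
        have h4 : ‖x‖ / 2 ≤ ‖x - y‖ := by
          have := norm_sub_norm_le x y
          linarith
        have h5 : ‖x - y‖⁻¹ ≤ 2 * ‖x‖⁻¹ := by
          calc ‖x - y‖⁻¹ ≤ (‖x‖ / 2)⁻¹ := inv_anti₀ (by positivity) h4
            _ = 2 * ‖x‖⁻¹ := by rw [inv_div, div_eq_mul_inv]
        calc |ρ y| * ‖x - y‖⁻¹ ≤ |ρ y| * (2 * ‖x‖⁻¹) :=
              mul_le_mul_of_nonneg_left h5 (abs_nonneg _)
          _ = 2 * ‖x‖⁻¹ * |ρ y| := by ring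
    rw [integral_const_mul, ← hA] at h2
    calc |pot ρ x| * (1 + ‖x‖) ≤ (2 * ‖x‖⁻¹ * A) * (2 * ‖x‖) :=
          mul_le_mul h2 (by linarith) hx1.le (by positivity)
      _ = 4 * A := by
          field_simp
          ring
      _ ≤ 4 * A + B * (2 * R + 2) := by
          have : 0 ≤ B * (2 * R + 2) := by positivity
          linarith

theorem Dd_int (ρ σ : E3 → ℝ) (hρ : Cc ρ) (hσ : Cc σ) :
    Integrable (fun u : E3 × E3 => ρ u.1 * σ u.2 * ‖u.1 - u.2‖⁻¹) ∧
    Dd ρ σ = ∫ u : E3 × E3, ρ u.1 * σ u.2 * ‖u.1 - u.2‖⁻¹ := by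
  have h1 : Integrable (fun u : E3 × E3 => ρ u.1 * σ u.2 * ‖u.1 - u.2‖⁻¹) := by
    have hc : Continuous (fun u : E3 × E3 => ρ u.1 * σ u.2) :=
      (hρ.1.continuous.comp continuous_fst).mul (hσ.1.continuous.comp continuous_snd)
    have hs : HasCompactSupport (fun u : E3 × E3 => ρ u.1 * σ u.2) := by
      refine HasCompactSupport.intro (hρ.2.isCompact.prod hσ.2.isCompact) ?_
      intro u hu
      rw [Set.mem_prod, not_and_or] at hu
      rcases hu with hu | hu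
      · rw [image_eq_zero_of_notMem_tsupport hu, zero_mul]
      · rw [image_eq_zero_of_notMem_tsupport hu, mul_zero]
    have h2 := intK ((volume : Measure E3).prod volume)
      (ContinuousLinearMap.fst ℝ E3 E3 - ContinuousLinearMap.snd ℝ E3 E3)
      (ContinuousLinearMap.inl ℝ E3 E3) (fun v => by simp) 0 _ hc hs
    refine h2.congr (Filter.Eventually.of_forall fun u => ?_)
    simp only [sub_apply, ContinuousLinearMap.coe_fst',
      ContinuousLinearMap.coe_snd', zero_add]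
    ring
  refine ⟨h1, ?_⟩
  have h3 : (∫ u : E3 × E3, ρ u.1 * σ u.2 * ‖u.1 - u.2‖⁻¹) =
      ∫ x : E3, ∫ y : E3, ρ x * σ y * ‖x - y‖⁻¹ := integral_prod _ h1
  rw [h3]
  unfold Dd pot
  congr 1
  funext x
  rw [← integral_const_mul]
  congr 1
  funext y
  ring

theorem Dd_symm (ρ σ : E3 → ℝ) (hρ : Cc ρ) (hσ : Cc σ) : Dd ρ σ = Dd σ ρ := by
  rw [(Dd_int ρ σ hρ hσ).2, (Dd_int σ ρ hσ hρ).2]
  have h1 := integral_prod_swap (μ := (volume : Measure E3)) (ν := (volume : Measure E3))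
    (fun u : E3 × E3 => ρ u.1 * σ u.2 * ‖u.1 - u.2‖⁻¹)
  refine h1.symm.trans ?_
  refine integral_congr_ae (Filter.Eventually.of_forall fun u => ?_)
  simp only [Prod.fst_swap, Prod.snd_swap]
  rw [norm_sub_rev]
  ring

theorem Dd_add (ρ σ τ : E3 → ℝ) (hρ : Cc ρ) (hσ : Cc σ) (hτ : Cc τ) :
    Dd (fun x => ρ x + σ x) τ = Dd ρ τ + Dd σ τ := by
  rw [(Dd_int ρ τ hρ hτ).2, (Dd_int σ τ hσ hτ).2, (Dd_int _ τ (poten_add ρ σ hρ hσ) hτ).2,
    ← integral_add (Dd_int ρ τ hρ hτ).1 (Dd_int σ τ hσ hτ).1]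
  congr 1
  funext u
  ring

/-- the form with a Laplacian -/
theorem Dd_lap (f ρ : E3 → ℝ) (hf : Cc f) (hρ : Cc ρ) :
    Dd (fun x => -lap f x) ρ = 4 * Real.pi * ∫ x, f x * ρ x := by
  rw [Dd_symm _ _ (poten_neg _ (poten_lap f hf)) hρ]
  unfold Dd pot
  simp only [green f hf]
  rw [← integral_const_mul]
  congr 1
  funext x
  ring

end H6.CB
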