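import Pool.Agent.H6.CB.TriS
import Pool.Agent.H6.CM.Reloc
import Pool.Agent.H6.CM.Reloc

/-! Relocation of electron `a` with amplitude `s`: repeat the proof of `H6.CM.reloc` (file `Pool/Agent/H6/CM/Reloc.lean`) with `Sa q n k Λ a ψ` instead of `St q n k Λ ψ` and `tri_EA` instead of `tri_E` (the hypothesis on `ψ` is used there only for smoothness, compact support and `tri_E`; the public lemmas `rl_...` which are stated for `St` have to be restated for `Sm`, the others can be used). -/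

open MeasureTheory Finset

namespace H6.CB

open H6.CM

section

variable {q n k : ℕ} {Λ : Set E3} {z κ : Fin k → ℝ}
  {ψ : (Fin n → Fin q) → Cfg n k → ℂ} (hψ : Sm q n k Λ ψ) {χ : E3 → ℝ} (hχ : Bump χ)
  (r : ℝ) (hr : 0 < r) (a : Fin n) (w ξ : E3) (α τ : Fin q) (s : (Fin n → E3) → ℝ)
  (hs : ContDiff ℝ (⊤ : ℕ∞) s)

include hψ hs in
private theorem rlS_F_smooth (σ : Fin n → Fin q) : ContDiff ℝ (⊤ : ℕ∞) (mul s ψ σ) := by
  unfold mul
  have h1 : ContDiff ℝ (⊤ : ℕ∞) (fun p : Cfg n k => s p.1) := hs.comp contDiff_fst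
  exact (Complex.ofRealCLM.contDiff.comp h1).mul (hψ.smooth σ)

include hψ in
private theorem rlS_F_cpt (σ : Fin n → Fin q) : HasCompactSupport (mul s ψ σ) := by
  unfold mul
  exact (hψ.cpt σ).mul_left

include hψ hs in
private theorem rlS_kE_ne (b : Fin n) (hb : b ≠ a) : kE (tri χ r a w ξ α τ s ψ) b =
    rlI a α (fun v σ p => chr χ r (v - w) ^ 2 * ge (mul s ψ σ) b p) τ ξ := by
  unfold kE rlI
  refine sum_congr rfl fun σ _ => ?_
  congr 1
  funext p
  by_cases hσ : σ a = α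
  · rw [rl_tri_pos r a w ξ α τ s σ hσ, if_pos hσ]
    exact ge_triE_ne (mul s ψ (Function.update σ a τ))
      ((rlS_F_smooth hψ s hs _).differentiable (by simp)) (fun v => chr χ r (v - w)) a b hb ξ p
  · rw [rl_tri_neg r a w ξ α τ s σ hσ, if_neg hσ, rl_zero_ge]

include hψ hs in
private theorem rlS_kN (j : Fin k) : kN (tri χ r a w ξ α τ s ψ) j =
    rlI a α (fun v σ p => chr χ r (v - w) ^ 2 * gn (mul s ψ σ) j p) τ ξ := by
  unfold kN rlI
  refine sum_congr rfl fun σ _ => ?_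
  congr 1
  funext p
  by_cases hσ : σ a = α
  · rw [rl_tri_pos r a w ξ α τ s σ hσ, if_pos hσ]
    exact gn_triE (mul s ψ (Function.update σ a τ))
      ((rlS_F_smooth hψ s hs _).differentiable (by simp)) (fun v => chr χ r (v - w)) a j ξ p
  · rw [rl_tri_neg r a w ξ α τ s σ hσ, if_neg hσ, rl_zero_gn]

include hψ hs in
private theorem rlS_F_int (σ : Fin n → Fin q) : Integrable (fun p => ‖mul s ψ σ p‖ ^ 2) := by
  have h1 : Continuous (fun p => ‖mul s ψ σ p‖ ^ 2) :=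
    (rlS_F_smooth hψ s hs σ).continuous.norm.pow 2
  refine h1.integrable_of_hasCompactSupport ?_
  exact (rlS_F_cpt hψ s σ).comp_left (g := fun x : ℂ => ‖x‖ ^ 2) (by simp)

include hψ hs in
private theorem rlS_ge_int (σ : Fin n → Fin q) (b : Fin n) :
    Integrable (fun p => ge (mul s ψ σ) b p) := by
  have hc1 : ContDiff ℝ 1 (mul s ψ σ) := (rlS_F_smooth hψ s hs σ).of_le (by exact_mod_cast le_top)
  exact (ge_cont _ hc1 b).integrable_of_hasCompactSupport (ge_cpt _ hc1 (rlS_F_cpt hψ s σ) b)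

include hψ hs in
private theorem rlS_gn_int (σ : Fin n → Fin q) (j : Fin k) :
    Integrable (fun p => gn (mul s ψ σ) j p) := by
  have hc1 : ContDiff ℝ 1 (mul s ψ σ) := (rlS_F_smooth hψ s hs σ).of_le (by exact_mod_cast le_top)
  exact (gn_cont _ hc1 j).integrable_of_hasCompactSupport (gn_cpt _ hc1 (rlS_F_cpt hψ s σ) j)

include hψ hs in
/-- a function integrable against `‖ψ‖ ^ 2` is integrable against `‖mul s ψ‖ ^ 2` -/
private theorem rlS_mul_int (σ : Fin n → Fin q) (f : Cfg n k → ℝ)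
    (hf : Integrable (fun p => f p * ‖ψ σ p‖ ^ 2)) :
    Integrable (fun p => f p * ‖mul s ψ σ p‖ ^ 2) := by
  have hsc : Continuous (fun p : Cfg n k => s p.1 ^ 2) :=
    (hs.continuous.comp continuous_fst).pow 2
  obtain ⟨M, hM⟩ := (hψ.cpt σ).isCompact.exists_bound_of_continuousOn hsc.continuousOn
  have h1 : Integrable (fun p => M * ‖f p * ‖ψ σ p‖ ^ 2‖) := hf.norm.const_mul M
  refine h1.mono' ?_ ?_
  · have h2 : (fun p => f p * ‖mul s ψ σ p‖ ^ 2) =
        fun p => s p.1 ^ 2 * (f p * ‖ψ σ p‖ ^ 2) := by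
      funext p
      unfold mul
      rw [norm_mul, mul_pow, Complex.norm_real, Real.norm_eq_abs, sq_abs]
      ring
    rw [h2]
    exact hsc.aestronglyMeasurable.mul hf.aestronglyMeasurable
  · refine Filter.Eventually.of_forall fun p => ?_
    have h2 : f p * ‖mul s ψ σ p‖ ^ 2 = s p.1 ^ 2 * (f p * ‖ψ σ p‖ ^ 2) := by
      unfold mul
      rw [norm_mul, mul_pow, Complex.norm_real, Real.norm_eq_abs, sq_abs]
      ring
    rw [h2, norm_mul]
    by_cases hp : p ∈ tsupport (ψ σ)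
    · exact mul_le_mul_of_nonneg_right (hM p hp) (norm_nonneg _)
    · have h3 : ψ σ p = 0 := image_eq_zero_of_notMem_tsupport hp
      rw [h3]
      simp

include hψ hχ hr hs in
private theorem rlS_g_ok (σ : Fin n → Fin q) :
    Continuous (fun u : Cfg n k × E3 => chr χ r (u.2 - w) ^ 2 * ‖mul s ψ σ u.1‖ ^ 2) ∧
    HasCompactSupport (fun u : Cfg n k × E3 => chr χ r (u.2 - w) ^ 2 * ‖mul s ψ σ u.1‖ ^ 2) := by
  constructor
  · have h1 : Continuous (fun v => chr χ r (v - w)) := (rl_h_smooth hχ r hr w).continuous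
    have h2 : Continuous (mul s ψ σ) := (rlS_F_smooth hψ s hs σ).continuous
    exact ((h1.comp continuous_snd).pow 2).mul ((h2.comp continuous_fst).norm.pow 2)
  · refine HasCompactSupport.intro ((rlS_F_cpt hψ s σ).isCompact.prod
      (rl_h_cpt hχ r hr w).isCompact) ?_
    intro u hu
    rw [Set.mem_prod, not_and_or] at hu
    rcases hu with hu | hu
    · have h3 : mul s ψ σ u.1 = 0 := image_eq_zero_of_notMem_tsupport hu
      rw [h3]
      simp
    · have h4 : chr χ r (u.2 - w) = 0 :=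
        image_eq_zero_of_notMem_tsupport (f := fun v => chr χ r (v - w)) hu
      rw [h4]
      simp

include hψ hχ hr hs in
private theorem rlS_phi_int (σ : Fin n → Fin q) : Integrable (fun u : Cfg n k × E3 =>
    phiE z a u.1 u.2 * (chr χ r (u.2 - w) ^ 2 * ‖mul s ψ σ u.1‖ ^ 2)) := by
  obtain ⟨hc, hk⟩ := rlS_g_ok hψ hχ r hr w s hs σ
  obtain ⟨g, hg⟩ : ∃ g : Cfg n k × E3 → ℝ,
    g = fun u => chr χ r (u.2 - w) ^ 2 * ‖mul s ψ σ u.1‖ ^ 2 := ⟨_, rfl⟩
  rw [← hg] at hc hk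
  have h1 : ∀ u : Cfg n k × E3, phiE z a u.1 u.2 *
      (chr χ r (u.2 - w) ^ 2 * ‖mul s ψ σ u.1‖ ^ 2) =
      ∑ j, z j * (‖u.2 - u.1.2 j‖⁻¹ * g u) - ∑ b ∈ univ.erase a, ‖u.2 - u.1.1 b‖⁻¹ * g u := by
    intro u
    rw [hg]
    unfold phiE
    rw [sub_mul, sum_mul, sum_mul]
    simp only [mul_assoc]
  simp only [h1]
  refine Integrable.sub ?_ ?_
  · exact integrable_finsetSum _ fun j _ => (int_pn g hc hk j).const_mul (z j)
  · exact integrable_finsetSum _ fun b _ => int_pe g hc hk b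

end

theorem relocS {q n k : ℕ} {Λ : Set E3} {z κ : Fin k → ℝ} {E : ℝ} (hE : LB q n k Λ z κ E)
    {ψ : (Fin n → Fin q) → Cfg n k → ℂ} (a : Fin n) (hψ : Sa q n k Λ a ψ) {χ : E3 → ℝ}
    (hχ : Bump χ) (r : ℝ) (hr : 0 < r) (hr1 : r ≤ 1) (w : E3)
    (hw : Metric.closedBall w 1 ⊆ Λ) (s : (Fin n → E3) → ℝ)
    (hs : ContDiff ℝ (⊤ : ℕ∞) s)
    (hsu : ∀ x v, s (Function.update x a v) = s x)
    (hsa : ∀ π : Equiv.Perm (Fin n), π a = a → ∀ x, s (x ∘ π) = s x)
    (hs0 : ∀ x, s x ≠ 0 → ∀ b, b ≠ a → r ≤ ‖x b - w‖) :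
    E * mean ψ (fun p => s p.1 ^ 2) ≤
      ∑ b ∈ univ.erase a, kE (mul s ψ) b + ∑ j, κ j * kN (mul s ψ) j +
      mean ψ (fun p => s p.1 ^ 2 * (V z p + phiE z a p (p.1 a))) +
      (r ^ 2)⁻¹ * (∫ v, gr χ v) * mean ψ (fun p => s p.1 ^ 2) -
      mean ψ (fun p => s p.1 ^ 2 * ∫ v, chr χ r (v - w) ^ 2 * phiE z a p v) := by
  have hψa := hψ
  replace hψ : Sm q n k Λ ψ := Sa_sm hψa
  rcases Nat.eq_zero_or_pos q with hq | hq
  · subst hq
    have hemp : IsEmpty (Fin n → Fin 0) := ⟨fun f => (f a).elim0⟩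
    simp [mean, kE, kN]
  obtain ⟨α, -⟩ : ∃ α : Fin q, α = ⟨0, hq⟩ := ⟨_, rfl⟩
  -- integrals of the density
  have hF2 : ∀ σ p, ‖mul s ψ σ p‖ ^ 2 = s p.1 ^ 2 * ‖ψ σ p‖ ^ 2 := by
    intro σ p
    unfold mul
    rw [norm_mul, mul_pow, Complex.norm_real, Real.norm_eq_abs, sq_abs]
  have hh1 : ∫ v, chr χ r (v - w) ^ 2 = 1 := by
    rw [integral_sub_right_eq_self (fun v => chr χ r v ^ 2) w]
    exact chr_norm hχ r hr
  have hhg : ∫ v, gr (fun v => chr χ r (v - w)) v = (r ^ 2)⁻¹ * ∫ v, gr χ v := by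
    have h1 : ∀ v, gr (fun v => chr χ r (v - w)) v = gr (chr χ r) (v - w) := by
      intro v
      unfold gr
      simp only [sub_eq_add_neg]
      rw [fderiv_comp_add_right]
    simp only [h1]
    rw [integral_sub_right_eq_self (fun v => gr (chr χ r) v) w]
    exact chr_grad hχ r hr
  have hhi := rl_h_int hχ r hr w
  have hgi := rl_gr_int hχ r hr w
  have hFi := rlS_F_int hψ s hs
  -- the potential energy after the exchange
  have hVa : ∀ σ, Integrable (fun p => (V z p + phiE z a p (p.1 a)) * ‖mul s ψ σ p‖ ^ 2) := by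
    intro σ
    refine rlS_mul_int hψ s hs σ (fun p => V z p + phiE z a p (p.1 a)) ?_
    have h1 := IM_V hψ z σ
    have h2 := IM_phiE hψ z a σ
    refine (h1.add h2).congr (Filter.Eventually.of_forall fun p => ?_)
    change V z p * ‖ψ σ p‖ ^ 2 + phiE z a p (p.1 a) * ‖ψ σ p‖ ^ 2 = _
    ring
  have hph := rlS_phi_int (z := z) hψ hχ r hr a w s hs
  have hVeq : ∀ σ (p : Cfg n k) v, V z (Function.update p.1 a v, p.2) *
      (chr χ r (v - w) ^ 2 * ‖mul s ψ σ p‖ ^ 2) =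
      chr χ r (v - w) ^ 2 * ((V z p + phiE z a p (p.1 a)) * ‖mul s ψ σ p‖ ^ 2) -
      phiE z a p v * (chr χ r (v - w) ^ 2 * ‖mul s ψ σ p‖ ^ 2) := by
    intro σ p v
    rw [V_updE]
    ring
  have hVi : ∀ σ, Integrable (fun u : Cfg n k × E3 => V z (Function.update u.1.1 a u.2, u.1.2) *
      (chr χ r (u.2 - w) ^ 2 * ‖mul s ψ σ u.1‖ ^ 2)) := by
    intro σ
    refine ((rl_prod (hVa σ) hhi).sub (hph σ)).congr (Filter.Eventually.of_forall fun u => ?_)
    exact (hVeq σ u.1 u.2).symm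
  have main := rl_sum a α E κ
    (fun v σ p => chr χ r (v - w) ^ 2 * ‖mul s ψ σ p‖ ^ 2)
    (fun v σ p => gr (fun v => chr χ r (v - w)) v * ‖mul s ψ σ p‖ ^ 2)
    (fun v σ (p : Cfg n k) => V z (Function.update p.1 a v, p.2) *
      (chr χ r (v - w) ^ 2 * ‖mul s ψ σ p‖ ^ 2))
    (fun b v σ p => chr χ r (v - w) ^ 2 * ge (mul s ψ σ) b p)
    (fun j v σ p => chr χ r (v - w) ^ 2 * gn (mul s ψ σ) j p)
    (fun σ => rl_prod (hFi σ) hhi)
    (fun b σ => rl_prod (rlS_ge_int hψ s hs σ b) hhi)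
    (fun σ => rl_prod (hFi σ) hgi)
    (fun j σ => rl_prod (rlS_gn_int hψ s hs σ j) hhi)
    hVi
    (by
      intro τ ξ
      have h1 := tri_EA hE a hψa hχ r hr hr1 w ξ hw α τ s hs hsu hsa hs0
      unfold energy at h1
      have h2 : ∑ j, κ j * kN (tri χ r a w ξ α τ s ψ) j = ∑ j, κ j *
          rlI a α (fun v σ p => chr χ r (v - w) ^ 2 * gn (mul s ψ σ) j p) τ ξ :=
        sum_congr rfl fun j _ => by rw [rlS_kN hψ r a w ξ α τ s hs j]
      have h3 : ∑ b ∈ univ.erase a, kE (tri χ r a w ξ α τ s ψ) b = ∑ b ∈ univ.erase a,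
          rlI a α (fun v σ p => chr χ r (v - w) ^ 2 * ge (mul s ψ σ) b p) τ ξ :=
        sum_congr rfl fun b hb => rlS_kE_ne hψ r a w ξ α τ s hs b (ne_of_mem_erase hb)
      rw [rl_mass r a w ξ α τ s, ← Finset.sum_erase_add _ _ (mem_univ a),
        rl_kE_self hχ r hr a w ξ α τ s, rl_V r a w ξ α τ s, h2, h3] at h1
      exact h1)
  have g1 : rlJ (fun v σ (p : Cfg n k) => chr χ r (v - w) ^ 2 * ‖mul s ψ σ p‖ ^ 2) =
      mean ψ (fun p => s p.1 ^ 2) := by
    unfold rlJ mean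
    refine sum_congr rfl fun σ _ => ?_
    congr 1
    funext p
    rw [integral_mul_const, hh1, one_mul, hF2]
  have g2 : ∀ b, rlJ (fun v σ (p : Cfg n k) => chr χ r (v - w) ^ 2 * ge (mul s ψ σ) b p) =
      kE (mul s ψ) b := by
    intro b
    unfold rlJ kE
    refine sum_congr rfl fun σ _ => ?_
    congr 1
    funext p
    rw [integral_mul_const, hh1, one_mul]
  have g4 : ∀ j, rlJ (fun v σ (p : Cfg n k) => chr χ r (v - w) ^ 2 * gn (mul s ψ σ) j p) =
      kN (mul s ψ) j := by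
    intro j
    unfold rlJ kN
    refine sum_congr rfl fun σ _ => ?_
    congr 1
    funext p
    rw [integral_mul_const, hh1, one_mul]
  have g3 : rlJ (fun v σ (p : Cfg n k) => gr (fun v => chr χ r (v - w)) v *
      ‖mul s ψ σ p‖ ^ 2) = (r ^ 2)⁻¹ * (∫ v, gr χ v) * mean ψ (fun p => s p.1 ^ 2) := by
    unfold rlJ mean
    rw [mul_sum]
    refine sum_congr rfl fun σ _ => ?_
    rw [← integral_const_mul]
    congr 1
    funext p
    rw [integral_mul_const, hhg, hF2]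
  have g5 : rlJ (fun v σ (p : Cfg n k) => V z (Function.update p.1 a v, p.2) *
      (chr χ r (v - w) ^ 2 * ‖mul s ψ σ p‖ ^ 2)) =
      mean ψ (fun p => s p.1 ^ 2 * (V z p + phiE z a p (p.1 a))) -
      mean ψ (fun p => s p.1 ^ 2 * ∫ v, chr χ r (v - w) ^ 2 * phiE z a p v) := by
    unfold rlJ mean
    rw [← sum_sub_distrib]
    refine sum_congr rfl fun σ _ => ?_
    have hA : Integrable (fun p : Cfg n k =>
        ∫ v, chr χ r (v - w) ^ 2 * ((V z p + phiE z a p (p.1 a)) * ‖mul s ψ σ p‖ ^ 2)) :=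
      (rl_prod (hVa σ) hhi).integral_prod_left
    have hB : Integrable (fun p : Cfg n k =>
        ∫ v, phiE z a p v * (chr χ r (v - w) ^ 2 * ‖mul s ψ σ p‖ ^ 2)) :=
      (hph σ).integral_prod_left
    have hsl : ∀ᵐ p : Cfg n k, Integrable (fun v => phiE z a p v *
        (chr χ r (v - w) ^ 2 * ‖mul s ψ σ p‖ ^ 2)) := (hph σ).prod_right_ae
    have h1 : ∫ p : Cfg n k, ∫ v, V z (Function.update p.1 a v, p.2) *
        (chr χ r (v - w) ^ 2 * ‖mul s ψ σ p‖ ^ 2) =
        ∫ p : Cfg n k, ((∫ v, chr χ r (v - w) ^ 2 *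
          ((V z p + phiE z a p (p.1 a)) * ‖mul s ψ σ p‖ ^ 2)) -
          ∫ v, phiE z a p v * (chr χ r (v - w) ^ 2 * ‖mul s ψ σ p‖ ^ 2)) := by
      refine integral_congr_ae ?_
      filter_upwards [hsl] with p hp
      rw [← integral_sub (hhi.mul_const _) hp]
      refine integral_congr_ae (Filter.Eventually.of_forall fun v => ?_)
      exact hVeq σ p v
    rw [h1, integral_sub hA hB]
    congr 1
    · congr 1
      funext p
      rw [integral_mul_const, hh1, one_mul, hF2]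
      ring
    · congr 1
      funext p
      have h2 : ∀ v, phiE z a p v * (chr χ r (v - w) ^ 2 * ‖mul s ψ σ p‖ ^ 2) =
          chr χ r (v - w) ^ 2 * phiE z a p v * ‖mul s ψ σ p‖ ^ 2 := fun v => by ring
      simp only [h2]
      rw [integral_mul_const, hF2]
      ring
  rw [g1, g3, g5, sum_congr rfl (fun b (_ : b ∈ univ.erase a) => g2 b),
    sum_congr rfl (fun j (_ : j ∈ (univ : Finset (Fin k))) => by rw [g4 j])] at main
  linarith

end H6.CB
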