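import Pool.Agent.H6.CB.P12
import Pool.Agent.H6.CB.LocB
import Pool.Agent.H6.CB.GmEh
import Pool.Agent.H6.CB.UhF

/-! The second moment of the relative potential with a localisation `g`. Let `u p = uh χ s W z p v`, `f₊ = eh u * g`, `f₋ = eh (-u) * g` (smooth, symmetric, bounded by `M`, `M ^ 2 = 1 + 2 C n s⁻¹`, `uh_bd`). Apply `p1` to `mf f₊ ψ` and `p2` to `mf f₋ ψ` and add; by `eh_two` the left side is at least `2 ⟨g² u²⟩ - ⟨g²⟩`. The terms `energy - E * mass` are bounded by `locB` (one function each) and `gm_eh`, `gm_uh`: `Gm f± ≤ 2 (1 + 2 |u|) δ g + C g² (q4 s p v + A)` on the support of `ψ`, and `δ |u| g ≤ η u² g² + δ² / η`. The other terms: `f± ^ 2 ≤ (1 + 2 |u|) g²` and `(1 + 2 |u|) Y ≤ Y + η u² + Y² / η` with `Y = s⁻⁴ + A + s⁻¹ ce p v (2 s)`. Choose `η` small (depending on the constants of `p1`, `p2`) and absorb. All means involved are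 finite (`IM.cont`, `IM_ce`, `IM.bmul`; `q4 s p v` is continuous in `p`). -/

open MeasureTheory Finset

namespace H6.CB

open H6.CM

private theorem sm1_pt {K δ A r x g Gp Gm' F F' c q γ Γ Cg : ℝ} (hK : 0 < K) (hδ : 0 ≤ δ) (hA : 0 ≤ A)
    (hr : 0 ≤ r) (hx : 0 ≤ x) (hg : 0 ≤ g) (hg1 : g ≤ 1) (hc : 0 ≤ c) (hCg : 0 ≤ Cg)
    (hγ : γ ≤ δ * g) (hΓ : Γ ≤ Cg * (q + A)) (h1 : Gp ≤ 2 * (1 + 2 * x) * γ + g ^ 2 * Γ)
    (h2 : Gm' ≤ 2 * (1 + 2 * x) * γ + g ^ 2 * Γ) (h3 : F ≤ (1 + 2 * x) * g ^ 2)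
    (h4 : F' ≤ (1 + 2 * x) * g ^ 2) (hq : 0 ≤ q) :
    2 * Gp + 2 * Gm' + (r ^ 4 + A) * (F + F') + r * (F * c) ≤
      (8 * δ + 128 * K * δ ^ 2) + K⁻¹ * (g ^ 2 * x ^ 2) + (4 * Cg + 1 + 3 * (1 + 8 * K)) *
        (g ^ 2 * (1 + A ^ 2 + r ^ 8 + r ^ 2 * c ^ 2 + q)) := by
  have hx1 : 0 ≤ 1 + 2 * x := by linarith
  have hg2 : 0 ≤ g ^ 2 := sq_nonneg g
  obtain ⟨Y, hY⟩ : ∃ Y, Y = r ^ 4 + A + r * c := ⟨_, rfl⟩
  have hrc : 0 ≤ r * c := mul_nonneg hr hc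
  have hr4 : 0 ≤ r ^ 4 := by positivity
  have a1 : 2 * Gp + 2 * Gm' ≤ 8 * ((1 + 2 * x) * (δ * g)) + 4 * (g ^ 2 * (Cg * (q + A))) := by
    have b1 := mul_le_mul_of_nonneg_left hγ hx1
    have b2 := mul_le_mul_of_nonneg_left hΓ hg2
    linarith
  have a2 : (r ^ 4 + A) * (F + F') + r * (F * c) ≤ 2 * ((1 + 2 * x) * g ^ 2 * Y) := by
    have b1 : (r ^ 4 + A) * (F + F') ≤ (r ^ 4 + A) * (2 * ((1 + 2 * x) * g ^ 2)) :=
      mul_le_mul_of_nonneg_left (by linarith) (by linarith)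
    have b2 : F * (r * c) ≤ ((1 + 2 * x) * g ^ 2) * (r * c) := mul_le_mul_of_nonneg_right h3 hrc
    have b3 : 0 ≤ ((1 + 2 * x) * g ^ 2) * (r * c) := mul_nonneg (mul_nonneg hx1 hg2) hrc
    rw [hY]
    linarith
  have a3 : 16 * (x * (δ * g)) ≤ (2 * K)⁻¹ * (g ^ 2 * x ^ 2) + 128 * K * δ ^ 2 := by
    have b1 : 0 ≤ (2 * K)⁻¹ * (x * g - 16 * K * δ) ^ 2 := by positivity
    have b2 : (2 * K)⁻¹ * (x * g - 16 * K * δ) ^ 2 = (2 * K)⁻¹ * (g ^ 2 * x ^ 2) - 16 * (x * (δ * g)) +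
        128 * K * δ ^ 2 := by
      field_simp
      ring
    linarith
  have a4 : 4 * (x * Y) ≤ (2 * K)⁻¹ * x ^ 2 + 8 * K * Y ^ 2 := by
    have b1 : 0 ≤ (2 * K)⁻¹ * (x - 4 * K * Y) ^ 2 := by positivity
    have b2 : (2 * K)⁻¹ * (x - 4 * K * Y) ^ 2 = (2 * K)⁻¹ * x ^ 2 - 4 * (x * Y) + 8 * K * Y ^ 2 := by
      field_simp
      ring
    linarith
  have a4' := mul_le_mul_of_nonneg_left a4 hg2
  have a5 : Y ^ 2 ≤ 3 * (r ^ 8 + A ^ 2 + r ^ 2 * c ^ 2) := by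
    rw [hY]
    nlinarith [sq_nonneg (r ^ 4 - A), sq_nonneg (r ^ 4 - r * c), sq_nonneg (A - r * c)]
  have a6 : 2 * Y ≤ 1 + Y ^ 2 := by nlinarith [sq_nonneg (Y - 1)]
  have a7 : A ≤ 1 + A ^ 2 := by nlinarith [sq_nonneg (A - 1)]
  have hr8 : 0 ≤ r ^ 8 := by positivity
  have hrc2 : 0 ≤ r ^ 2 * c ^ 2 := by positivity
  have a8 : 2 * Y + 8 * K * Y ^ 2 + 4 * (Cg * (q + A)) ≤
      (4 * Cg + 1 + 3 * (1 + 8 * K)) * (1 + A ^ 2 + r ^ 8 + r ^ 2 * c ^ 2 + q) := by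
    have b1 : Cg * (q + A) ≤ Cg * (1 + A ^ 2 + r ^ 8 + r ^ 2 * c ^ 2 + q) :=
      mul_le_mul_of_nonneg_left (by linarith) hCg
    have b2 : (1 + 8 * K) * Y ^ 2 ≤ (1 + 8 * K) * (3 * (1 + A ^ 2 + r ^ 8 + r ^ 2 * c ^ 2 + q)) :=
      mul_le_mul_of_nonneg_left (by linarith) (by linarith)
    have b3 : 0 ≤ A ^ 2 := sq_nonneg A
    linarith
  have a9 := mul_le_mul_of_nonneg_left a8 hg2
  have a10 : δ * g ≤ δ := mul_le_of_le_one_right hδ hg1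
  have a11 : K⁻¹ * (g ^ 2 * x ^ 2) = 2 * ((2 * K)⁻¹ * (g ^ 2 * x ^ 2)) := by
    rw [mul_inv]
    ring
  rw [a11]
  linarith

private theorem sm1_fin {K C1 C2 Cu Cg A ε δ r t4 t2 M2 Z I J c5 x1 x2 y1 y2 g1 g2 D1 D2 N : ℝ}
    (hKdef : K = C1 + C2 + 1) (hC1 : 0 ≤ C1) (hC2 : 0 ≤ C2) (hCu : 0 ≤ Cu) (hCg : 0 ≤ Cg) (hA : 0 ≤ A)
    (hε : 0 ≤ ε) (hδ : 0 ≤ δ) (hsi : 0 ≤ r) (hs4 : 0 ≤ t4) (hs24 : t2 ≤ t4) (m3 : 0 ≤ y1) (m4 : 0 ≤ y2)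
    (m5 : 0 ≤ c5) (hJ : 0 ≤ J) (m8 : J ≤ Z) (hN : 0 ≤ N) (hM2le : M2 ≤ (1 + 2 * Cu) * (1 + N))
    (hDf : 0 ≤ D1) (hDf' : 0 ≤ D2) (hLf : D1 ≤ 2 * M2 * ε + 2 * g1) (hLf' : D2 ≤ 2 * M2 * ε + 2 * g2)
    (s1 : x1 ≤ C1 * (D1 + (t4 + A) * y1 + r * c5)) (s2 : -x2 ≤ C2 * (D2 + (t2 + A) * y2))
    (hleft : 2 * I - J ≤ x1 - x2)
    (hright : 2 * g1 + 2 * g2 + (t4 + A) * (y1 + y2) + r * c5 ≤
      (8 * δ + 128 * K * δ ^ 2) + K⁻¹ * I + (4 * Cg + 1 + 3 * (1 + 8 * K)) * Z) :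
    I ≤ (4 * K * (1 + 2 * Cu) + 8 * K + 128 * K ^ 2 + K * (4 * Cg + 1 + 3 * (1 + 8 * K)) + 1) *
      (ε * (1 + N) + δ + δ ^ 2 + Z) := by
  have hK : 0 < K := by rw [hKdef]; linarith
  have t1 : 0 ≤ (t4 + A) * y1 := mul_nonneg (by linarith) m3
  have t2' : 0 ≤ (t4 + A) * y2 := mul_nonneg (by linarith) m4
  have t3 : 0 ≤ r * c5 := mul_nonneg hsi m5
  have r1 : x1 ≤ K * (D1 + (t4 + A) * y1 + r * c5) := by
    refine s1.trans (mul_le_mul_of_nonneg_right (by rw [hKdef]; linarith) (by linarith))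
  have t4' : (t2 + A) * y2 ≤ (t4 + A) * y2 := mul_le_mul_of_nonneg_right (by linarith) m4
  have r2 : -x2 ≤ K * (D2 + (t4 + A) * y2) := by
    refine s2.trans ?_
    calc C2 * (D2 + (t2 + A) * y2) ≤ C2 * (D2 + (t4 + A) * y2) :=
          mul_le_mul_of_nonneg_left (by linarith) hC2
      _ ≤ K * (D2 + (t4 + A) * y2) :=
          mul_le_mul_of_nonneg_right (by rw [hKdef]; linarith) (by linarith)
  have r3 : 2 * I - J ≤ K * (4 * M2 * ε + ((8 * δ + 128 * K * δ ^ 2) + K⁻¹ * I +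
      (4 * Cg + 1 + 3 * (1 + 8 * K)) * Z)) := by
    refine hleft.trans ?_
    have h1 : x1 - x2 ≤ K * (D1 + D2 + (t4 + A) * (y1 + y2) + r * c5) := by linarith
    refine h1.trans (mul_le_mul_of_nonneg_left ?_ hK.le)
    linarith
  have r4 : K * (4 * M2 * ε + ((8 * δ + 128 * K * δ ^ 2) + K⁻¹ * I +
      (4 * Cg + 1 + 3 * (1 + 8 * K)) * Z)) = 4 * K * (M2 * ε) + 8 * K * δ + 128 * K ^ 2 * δ ^ 2 + I +
      K * (4 * Cg + 1 + 3 * (1 + 8 * K)) * Z := by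
    field_simp
    ring
  rw [r4] at r3
  have r5 : I ≤ 4 * K * (M2 * ε) + 8 * K * δ + 128 * K ^ 2 * δ ^ 2 +
      K * (4 * Cg + 1 + 3 * (1 + 8 * K)) * Z + Z := by linarith
  refine r5.trans ?_
  have hZ : 0 ≤ Z := hJ.trans m8
  have hε' : 0 ≤ ε * (1 + N) := by positivity
  have q1 : M2 * ε ≤ (1 + 2 * Cu) * (ε * (1 + N)) := by
    have := mul_le_mul_of_nonneg_right hM2le hε
    linarith
  have q2 : 4 * K * (M2 * ε) ≤ 4 * K * ((1 + 2 * Cu) * (ε * (1 + N))) :=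
    mul_le_mul_of_nonneg_left q1 (by positivity)
  have hδ2 : 0 ≤ δ ^ 2 := sq_nonneg δ
  have hX : 0 ≤ ε * (1 + N) + δ + δ ^ 2 + Z := by linarith
  generalize ε * (1 + N) = e at *
  have w1 : 4 * K * (1 + 2 * Cu) * e ≤ 4 * K * (1 + 2 * Cu) * (e + δ + δ ^ 2 + Z) :=
    mul_le_mul_of_nonneg_left (by linarith) (by positivity)
  have w2 : 8 * K * δ ≤ 8 * K * (e + δ + δ ^ 2 + Z) :=
    mul_le_mul_of_nonneg_left (by linarith) (by positivity)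
  have w3 : 128 * K ^ 2 * δ ^ 2 ≤ 128 * K ^ 2 * (e + δ + δ ^ 2 + Z) :=
    mul_le_mul_of_nonneg_left (by linarith) (by positivity)
  have w4 : K * (4 * Cg + 1 + 3 * (1 + 8 * K)) * Z ≤
      K * (4 * Cg + 1 + 3 * (1 + 8 * K)) * (e + δ + δ ^ 2 + Z) :=
    mul_le_mul_of_nonneg_left (by linarith) (by positivity)
  linarith

private theorem sm1_q4 {n k : ℕ} (s : ℝ) (hs : 0 < s) (v : E3) :
    Continuous (fun p : Cfg n k => q4 s p v) := by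
  unfold q4
  have hmx : ∀ x : ℝ, (max s x) ^ 4 ≠ 0 := fun x => pow_ne_zero _ (lt_of_lt_of_le hs (le_max_left _ _)).ne'
  refine Continuous.add ?_ ?_
  · refine continuous_finsetSum _ fun a _ => ?_
    refine Continuous.inv₀ ?_ fun p => hmx _
    exact (continuous_const.max (((continuous_apply a).comp continuous_fst).sub continuous_const).norm).pow 4
  · refine continuous_finsetSum _ fun j _ => ?_
    refine Continuous.inv₀ ?_ fun p => hmx _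
    exact (continuous_const.max (((continuous_apply j).comp continuous_snd).sub continuous_const).norm).pow 4

private theorem sm1_q4n {n k : ℕ} (s : ℝ) (hs : 0 < s) (p : Cfg n k) (v : E3) : 0 ≤ q4 s p v := by
  unfold q4
  exact add_nonneg (sum_nonneg fun a _ => by positivity) (sum_nonneg fun a _ => by positivity)

theorem sm1 (q : ℕ) (zm zp κp : ℝ) (hzm : 0 < zm) {χ : E3 → ℝ} (hχ : Bump χ) :
    ∃ C : ℝ, 0 ≤ C ∧
    ∀ (n k : ℕ) (Λ : Set E3) (z κ : Fin k → ℝ) (_ : ∀ j, zm ≤ z j ∧ z j ≤ zp)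
    (_ : ∀ j, 0 ≤ κ j ∧ κ j ≤ κp) (_ : ∑ j, z j = n) (E ε : ℝ) (_ : 0 ≤ ε)
    (_ : LB q n k Λ z κ E) (ψ : (Fin n → Fin q) → Cfg n k → ℂ)
    (_ : St q n k Λ ψ) (_ : mass ψ = 1) (_ : energy z κ ψ ≤ E + ε)
    (A : ℝ) (_ : 0 ≤ A) (W : Finset E3) (_ : Rf A Λ W ψ)
    (g : Cfg n k → ℝ) (_ : ContDiff ℝ (⊤ : ℕ∞) g) (_ : Sy g) (_ : ∀ p, 0 ≤ g p ∧ g p ≤ 1)
    (δ : ℝ) (_ : 0 ≤ δ) (_ : ∀ p, Gm κ g p ≤ δ * g p)
    (s : ℝ) (_ : 0 < s) (_ : s ≤ 1) (v : E3) (_ : Metric.closedBall v 2 ⊆ Λ),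
    mean ψ (fun p => g p ^ 2 * uh χ s W z p v ^ 2) ≤ C * (ε * (1 + n * s⁻¹) + δ + δ ^ 2 +
      mean ψ (fun p => g p ^ 2 * (1 + A ^ 2 + (s ^ 8)⁻¹ + (s ^ 2)⁻¹ * ce p v (2 * s) ^ 2 +
        q4 s p v))) := by
  obtain ⟨C1, hC1, hp1⟩ := p1 q zm zp κp hzm hχ
  obtain ⟨C2, hC2, hp2⟩ := p2 q zm zp κp hzm hχ
  obtain ⟨Cu, hCu, hub⟩ := uh_bd hχ
  obtain ⟨Cg, hCg, hgu⟩ := gm_uh hχ zp κp
  obtain ⟨K, hKdef⟩ : ∃ K, K = C1 + C2 + 1 := ⟨_, rfl⟩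
  have hK : 0 < K := by rw [hKdef]; linarith
  refine ⟨4 * K * (1 + 2 * Cu) + 8 * K + 128 * K ^ 2 + K * (4 * Cg + 1 + 3 * (1 + 8 * K)) + 1,
    by positivity, ?_⟩
  intro n k Λ z κ hz hκ hsum E ε hε hE ψ hψ hmass hen A hA W hW g hg hgs hg01 δ hδ hgg s hs hs1 v hv
  have hz0 : ∀ j, 0 ≤ z j := fun j => hzm.le.trans (hz j).1
  have hS := St_sm hψ
  obtain ⟨u, hu⟩ : ∃ u : Cfg n k → ℝ, u = fun p => uh χ s W z p v := ⟨_, rfl⟩
  have hus : ContDiff ℝ (⊤ : ℕ∞) u := by rw [hu]; exact uh_smooth hχ s hs W z v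
  have huc : Continuous u := hus.continuous
  have husy : Sy u := by rw [hu]; exact uh_sy s W z v
  have hun : ContDiff ℝ (⊤ : ℕ∞) (fun p => -u p) := hus.neg
  have hub1 : ∀ p, |u p| ≤ Cu * n * s⁻¹ := by
    intro p
    rw [hu]
    exact hub n k z hz0 hsum W s hs hs1 p v
  obtain ⟨f, hf⟩ : ∃ f : Cfg n k → ℝ, f = fun p => eh (u p) * g p := ⟨_, rfl⟩
  obtain ⟨f', hf'⟩ : ∃ f : Cfg n k → ℝ, f = fun p => eh (-u p) * g p := ⟨_, rfl⟩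
  have hfs : ContDiff ℝ (⊤ : ℕ∞) f := by rw [hf]; exact (eh_smooth.comp hus).mul hg
  have hfs' : ContDiff ℝ (⊤ : ℕ∞) f' := by rw [hf']; exact (eh_smooth.comp hun).mul hg
  have hfsy : Sy f := by
    rw [hf]
    intro π p
    show eh (u (p.1 ∘ π, p.2)) * g (p.1 ∘ π, p.2) = eh (u p) * g p
    rw [husy π p, hgs π p]
  have hfsy' : Sy f' := by
    rw [hf']
    intro π p
    show eh (-u (p.1 ∘ π, p.2)) * g (p.1 ∘ π, p.2) = eh (-u p) * g p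
    rw [husy π p, hgs π p]
  have hfsq : ∀ p, f p ^ 2 ≤ (1 + 2 * |u p|) * g p ^ 2 := by
    intro p
    rw [hf]
    show (eh (u p) * g p) ^ 2 ≤ _
    rw [mul_pow]
    exact mul_le_mul_of_nonneg_right (eh_le _) (sq_nonneg _)
  have hfsq' : ∀ p, f' p ^ 2 ≤ (1 + 2 * |u p|) * g p ^ 2 := by
    intro p
    rw [hf']
    show (eh (-u p) * g p) ^ 2 ≤ _
    rw [mul_pow]
    have := eh_le (-u p)
    rw [abs_neg] at this
    exact mul_le_mul_of_nonneg_right this (sq_nonneg _)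
  obtain ⟨M2, hM2⟩ : ∃ M2 : ℝ, M2 = 1 + 2 * (Cu * n * s⁻¹) := ⟨_, rfl⟩
  have hM2pos : 0 < M2 := by rw [hM2]; positivity
  have hfM : ∀ p, (1 + 2 * |u p|) * g p ^ 2 ≤ M2 := by
    intro p
    have h1 : g p ^ 2 ≤ 1 := pow_le_one₀ (hg01 p).1 (hg01 p).2
    have h2 : (1 + 2 * |u p|) * g p ^ 2 ≤ (1 + 2 * |u p|) * 1 :=
      mul_le_mul_of_nonneg_left h1 (by positivity)
    rw [hM2]
    have := hub1 p
    linarith
  have hsq : Real.sqrt M2 ^ 2 = M2 := Real.sq_sqrt hM2pos.le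
  have hMpos : 0 < Real.sqrt M2 := Real.sqrt_pos.2 hM2pos
  have hen' : energy z κ ψ ≤ E * mass ψ + ε := by rw [hmass, mul_one]; exact hen
  have hloc : ∀ F : Cfg n k → ℝ, ContDiff ℝ (⊤ : ℕ∞) F → Sy F → (∀ p, F p ^ 2 ≤ M2) →
      energy z κ (mf F ψ) - E * mass (mf F ψ) ≤ 2 * M2 * ε + 2 * mean ψ (Gm κ F) := by
    intro F hF hFs hFM
    have h1 := locB (fun j => (hκ j).1) hE hψ hen' (ι := Unit) (fun _ => F) (fun _ => hF) (by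
      intro π p
      show ∑ _i : Unit, F (p.1 ∘ π, p.2) ^ 2 = ∑ _i : Unit, F p ^ 2
      rw [hFs π p]) (Real.sqrt M2) hMpos (by
      intro p
      rw [hsq]
      simpa using hFM p)
    rw [hsq] at h1
    simpa using h1
  have hD : ∀ F : Cfg n k → ℝ, ContDiff ℝ (⊤ : ℕ∞) F → Sy F →
      0 ≤ energy z κ (mf F ψ) - E * mass (mf F ψ) := by
    intro F hF hFs
    have := hE _ (mf_st hψ hF hFs)
    linarith
  have hDf := hD f hfs hfsy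
  have hDf' := hD f' hfs' hfsy'
  have hLf := hloc f hfs hfsy (fun p => (hfsq p).trans (hfM p))
  have hLf' := hloc f' hfs' hfsy' (fun p => (hfsq' p).trans (hfM p))
  have s1 := hp1 n k Λ z κ hz hκ hsum E hE (mf f ψ) (mf_st hψ hfs hfsy) A hA W (Rf_mf hW f) s hs hs1 v hv
  have s2 := hp2 n k Λ z κ hz hκ hsum E hE (mf f' ψ) (mf_st hψ hfs' hfsy') A hA W (Rf_mf hW f') s hs hs1 v hv
  rw [mean_mf, mass_mf, mean_mf] at s1
  rw [mean_mf, mass_mf] at s2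
  rw [mass_mf] at hDf hDf' hLf hLf'
  have hu' : ∀ p, uh χ s W z p v = u p := fun p => by rw [hu]
  simp only [hu'] at s1 s2 ⊢
  have hgc : Continuous g := hg.continuous
  have hfc : Continuous f := hfs.continuous
  have hfc' : Continuous f' := hfs'.continuous
  -- integrability
  have i1 : IM ψ (fun p => f p ^ 2 * u p) := IM.cont hS ((hfc.pow 2).mul huc)
  have i2 : IM ψ (fun p => f' p ^ 2 * u p) := IM.cont hS ((hfc'.pow 2).mul huc)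
  have i3 : IM ψ (fun p => f p ^ 2) := IM.cont hS (hfc.pow 2)
  have i4 : IM ψ (fun p => f' p ^ 2) := IM.cont hS (hfc'.pow 2)
  have hcem : ∀ p : Cfg n k, |ce p v (2 * s)| ≤ n := fun p => by
    rw [abs_of_nonneg (ce_nonneg p v _)]
    exact ce_le p v _
  have i5 : IM ψ (fun p => f p ^ 2 * ce p v (2 * s)) := by
    have := i3.bmul (ce_meas v (2 * s)) n hcem
    exact this.congr fun _ p _ => by ring
  have i6 : IM ψ (Gm κ f) := IM.cont hS (Gm_cont κ hfs)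
  have i7 : IM ψ (Gm κ f') := IM.cont hS (Gm_cont κ hfs')
  have i8 : IM ψ (fun p => g p ^ 2) := IM.cont hS (hgc.pow 2)
  have i9 : IM ψ (fun p => g p ^ 2 * u p ^ 2) := IM.cont hS ((hgc.pow 2).mul (huc.pow 2))
  have hcm2 : ∀ p : Cfg n k, |ce p v (2 * s) ^ 2| ≤ (n : ℝ) ^ 2 := fun p => by
    rw [abs_of_nonneg (sq_nonneg _)]
    exact pow_le_pow_left₀ (ce_nonneg p v _) (ce_le p v _) 2
  have i10 : IM ψ (fun p => g p ^ 2 * (1 + A ^ 2 + (s ^ 8)⁻¹ + (s ^ 2)⁻¹ * ce p v (2 * s) ^ 2 +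
        q4 s p v)) := by
    have j1 : IM ψ (fun p => g p ^ 2 * (1 + A ^ 2 + (s ^ 8)⁻¹ + q4 s p v)) :=
      IM.cont hS ((hgc.pow 2).mul (continuous_const.add (sm1_q4 s hs v)))
    have j2 := (i8.bmul ((ce_meas v (2 * s)).pow_const 2) _ hcm2).cmul ((s ^ 2)⁻¹)
    exact (j1.add j2).congr fun _ p _ => by ring
  -- the left side
  have hleft : 2 * mean ψ (fun p => g p ^ 2 * u p ^ 2) - mean ψ (fun p => g p ^ 2) ≤
      mean ψ (fun p => f p ^ 2 * u p) - mean ψ (fun p => f' p ^ 2 * u p) := by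
    rw [← mean_cmul, ← mean_sub (i9.cmul 2) i8, ← mean_sub i1 i2]
    refine mean_mono ((i9.cmul 2).sub i8) (i1.sub i2) fun _ p _ => ?_
    have h1 := mul_le_mul_of_nonneg_left (eh_two (u p)) (sq_nonneg (g p))
    rw [hf, hf']
    show 2 * (g p ^ 2 * u p ^ 2) - g p ^ 2 ≤ (eh (u p) * g p) ^ 2 * u p - (eh (-u p) * g p) ^ 2 * u p
    rw [mul_pow, mul_pow]
    linarith
  -- the right side
  have hright : 2 * mean ψ (Gm κ f) + 2 * mean ψ (Gm κ f') +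
      ((s ^ 4)⁻¹ + A) * (mean ψ (fun p => f p ^ 2) + mean ψ (fun p => f' p ^ 2)) +
      s⁻¹ * mean ψ (fun p => f p ^ 2 * ce p v (2 * s)) ≤
      (8 * δ + 128 * K * δ ^ 2) + K⁻¹ * mean ψ (fun p => g p ^ 2 * u p ^ 2) +
      (4 * Cg + 1 + 3 * (1 + 8 * K)) * mean ψ (fun p => g p ^ 2 * (1 + A ^ 2 + (s ^ 8)⁻¹ +
        (s ^ 2)⁻¹ * ce p v (2 * s) ^ 2 + q4 s p v)) := by
    have e1 : 2 * mean ψ (Gm κ f) + 2 * mean ψ (Gm κ f') +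
      ((s ^ 4)⁻¹ + A) * (mean ψ (fun p => f p ^ 2) + mean ψ (fun p => f' p ^ 2)) +
      s⁻¹ * mean ψ (fun p => f p ^ 2 * ce p v (2 * s)) =
      mean ψ (fun p => 2 * Gm κ f p + 2 * Gm κ f' p + ((s ^ 4)⁻¹ + A) * (f p ^ 2 + f' p ^ 2) +
        s⁻¹ * (f p ^ 2 * ce p v (2 * s))) := by
      rw [mean_add (((i6.cmul 2).add (i7.cmul 2)).add ((i3.add i4).cmul _)) (i5.cmul _),
        mean_add ((i6.cmul 2).add (i7.cmul 2)) ((i3.add i4).cmul _),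
        mean_add (i6.cmul 2) (i7.cmul 2), mean_cmul, mean_cmul, mean_cmul, mean_cmul, mean_add i3 i4]
    have e2 : (8 * δ + 128 * K * δ ^ 2) + K⁻¹ * mean ψ (fun p => g p ^ 2 * u p ^ 2) +
      (4 * Cg + 1 + 3 * (1 + 8 * K)) * mean ψ (fun p => g p ^ 2 * (1 + A ^ 2 + (s ^ 8)⁻¹ +
        (s ^ 2)⁻¹ * ce p v (2 * s) ^ 2 + q4 s p v)) =
      mean ψ (fun p => (8 * δ + 128 * K * δ ^ 2) + K⁻¹ * (g p ^ 2 * u p ^ 2) +
      (4 * Cg + 1 + 3 * (1 + 8 * K)) * (g p ^ 2 * (1 + A ^ 2 + (s ^ 8)⁻¹ +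
        (s ^ 2)⁻¹ * ce p v (2 * s) ^ 2 + q4 s p v))) := by
      have k1 : IM ψ (fun _ => (8 * δ + 128 * K * δ ^ 2)) := IM.cont hS continuous_const
      rw [mean_add (k1.add (i9.cmul _)) (i10.cmul _), mean_add k1 (i9.cmul _), mean_cmul, mean_cmul,
        mean_const, hmass, mul_one]
    rw [e1, e2]
    have k1 : IM ψ (fun _ => (8 * δ + 128 * K * δ ^ 2)) := IM.cont hS continuous_const
    refine mean_mono ((((i6.cmul 2).add (i7.cmul 2)).add ((i3.add i4).cmul _)).add (i5.cmul _))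
      ((k1.add (i9.cmul _)).add (i10.cmul _)) fun σ p hp => ?_
    have hG := hgu n k z κ (fun j => ⟨hz0 j, (hz j).2⟩) hκ W hW.ne s hs hs1 v A p (hW.bd σ p hp)
    have h1 := gm_eh (fun j => (hκ j).1) u g hus hg p
    have h2 := gm_eh (fun j => (hκ j).1) (fun p => -u p) g hun hg p
    rw [gm_neg] at h2
    simp only [abs_neg] at h2
    have h3 : Gm κ u p ≤ Cg * (q4 s p v + A) := by rw [hu]; exact hG
    have h4 := sm1_pt hK hδ hA (inv_nonneg.2 hs.le) (abs_nonneg (u p)) (hg01 p).1 (hg01 p).2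
      (ce_nonneg p v (2 * s)) hCg (hgg p) h3 h1 h2 (hfsq p) (hfsq' p) (sm1_q4n s hs p v)
    rw [sq_abs, inv_pow, inv_pow, inv_pow] at h4
    rw [hf, hf']
    rw [hf, hf'] at h4
    exact h4
  -- assembly
  have hs24 : (s ^ 2)⁻¹ ≤ (s ^ 4)⁻¹ := by
    rw [inv_le_inv₀ (by positivity) (by positivity)]
    have : s ^ 2 ≤ 1 := pow_le_one₀ hs.le hs1
    nlinarith [sq_nonneg s]
  have m3 : 0 ≤ mean ψ (fun p => f p ^ 2) := mean_nonneg fun _ p _ => sq_nonneg _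
  have m4 : 0 ≤ mean ψ (fun p => f' p ^ 2) := mean_nonneg fun _ p _ => sq_nonneg _
  have m5 : 0 ≤ mean ψ (fun p => f p ^ 2 * ce p v (2 * s)) :=
    mean_nonneg fun _ p _ => mul_nonneg (sq_nonneg _) (ce_nonneg p v _)
  have m8 : mean ψ (fun p => g p ^ 2) ≤ mean ψ (fun p => g p ^ 2 * (1 + A ^ 2 + (s ^ 8)⁻¹ +
        (s ^ 2)⁻¹ * ce p v (2 * s) ^ 2 + q4 s p v)) := by
    refine mean_mono i8 i10 fun _ p _ => ?_
    refine le_mul_of_one_le_right (sq_nonneg _) ?_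
    have := sm1_q4n s hs p v
    have h1 : 0 ≤ (s ^ 8)⁻¹ := by positivity
    have h2 : 0 ≤ (s ^ 2)⁻¹ * ce p v (2 * s) ^ 2 := by positivity
    have h3 : 0 ≤ A ^ 2 := sq_nonneg A
    linarith
  have hM2le : M2 ≤ (1 + 2 * Cu) * (1 + n * s⁻¹) := by
    have h1 : 0 ≤ (n : ℝ) * s⁻¹ := by positivity
    rw [hM2]
    nlinarith
  have hsi : 0 ≤ s⁻¹ := by positivity
  have hs4 : 0 ≤ (s ^ 4)⁻¹ := by positivity
  have hJ : 0 ≤ mean ψ (fun p => g p ^ 2) := mean_nonneg fun _ p _ => sq_nonneg _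
  have hN : 0 ≤ (n : ℝ) * s⁻¹ := by positivity
  exact sm1_fin hKdef hC1 hC2 hCu hCg hA hε hδ hsi hs4 hs24 m3 m4 m5 hJ m8 hN hM2le hDf hDf' hLf hLf'
    s1 s2 hleft hright

end H6.CB
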