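import Pool.Agent.H6.CB.RelocS
import Pool.Agent.H6.CB.ImsS

/-! Sum of `relocS` over the scales `r = r0 * 2 ^ -(l+1)`, `l ≤ L`, with `s = slS l`: as `H6.CM.sum_ell` (file `Pool/Agent/H6/CM/SumEll.lean`); uses `partS_sum`, `imsS_e`, `imsS_n`, `part_gradS`, `part_kinS`. The integrability facts are in `Pool/Agent/H6/CB/Lib.lean`. -/

open MeasureTheory Finset

namespace H6.CB

open H6.CM

section

variable {q n k : ℕ} {ψ : (Fin n → Fin q) → Cfg n k → ℂ}

private theorem sumS_sq {Λ : Set E3} (hψ : Sm q n k Λ ψ) {s : (Fin n → E3) → ℝ}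
    (hs : ContDiff ℝ (⊤ : ℕ∞) s) {F : Cfg n k → ℝ} (hF : IM ψ F) :
    IM ψ (fun p => s p.1 ^ 2 * F p) := by
  intro σ
  have hsc : Continuous (fun p : Cfg n k => s p.1 ^ 2) :=
    (hs.continuous.comp continuous_fst).pow 2
  obtain ⟨M, hM⟩ := (hψ.cpt σ).isCompact.exists_bound_of_continuousOn hsc.continuousOn
  have h1 : Integrable (fun p => M * ‖F p * ‖ψ σ p‖ ^ 2‖) := (hF σ).norm.const_mul M
  have h2 : (fun p => s p.1 ^ 2 * F p * ‖ψ σ p‖ ^ 2) =
      fun p => s p.1 ^ 2 * (F p * ‖ψ σ p‖ ^ 2) := by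
    funext p
    ring
  rw [h2]
  refine h1.mono' (hsc.aestronglyMeasurable.mul (hF σ).aestronglyMeasurable) ?_
  refine Filter.Eventually.of_forall fun p => ?_
  rw [norm_mul]
  by_cases hp : p ∈ tsupport (ψ σ)
  · exact mul_le_mul_of_nonneg_right (hM p hp) (norm_nonneg _)
  · have h3 : ψ σ p = 0 := image_eq_zero_of_notMem_tsupport hp
    rw [h3]
    simp

private theorem sumS_gx_eq (s : (Fin n → E3) → ℝ) (hs : ContDiff ℝ (⊤ : ℕ∞) s) (b : Fin n)
    (x : Fin n → E3) :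
    gx s b x = ∑ d : Fin 3, (fderiv ℝ s x (Pi.single b (EuclideanSpace.single d 1))) ^ 2 := by
  unfold gx gr
  refine sum_congr rfl fun d _ => ?_
  have h1 : HasFDerivAt (fun v : E3 => Function.update x b v)
      (ContinuousLinearMap.pi (Pi.single b (ContinuousLinearMap.id ℝ E3))) (x b) :=
    hasFDerivAt_update x (x b)
  have h2 : HasFDerivAt s (fderiv ℝ s x) (Function.update x b (x b)) := by
    rw [Function.update_eq_self]
    exact (hs.differentiable (by simp) x).hasFDerivAt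
  have h3 : HasFDerivAt (fun v : E3 => s (Function.update x b v)) _ (x b) :=
    h2.comp (x b) h1
  rw [h3.fderiv]
  congr 1
  rw [ContinuousLinearMap.comp_apply]
  congr 1
  funext i
  simp only [ContinuousLinearMap.coe_pi']
  rcases eq_or_ne i b with rfl | hi
  · simp
  · simp [hi]

private theorem sumS_gx_cont (s : (Fin n → E3) → ℝ) (hs : ContDiff ℝ (⊤ : ℕ∞) s) (b : Fin n) :
    Continuous (fun p : Cfg n k => gx s b p.1) := by
  have h1 : Continuous (gx s b) := by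
    have h2 : gx s b = fun x => ∑ d : Fin 3,
        (fderiv ℝ s x (Pi.single b (EuclideanSpace.single d 1))) ^ 2 :=
      funext fun x => sumS_gx_eq s hs b x
    rw [h2]
    refine continuous_finsetSum _ fun d _ => ?_
    exact ((hs.continuous_fderiv (by simp)).clm_apply continuous_const).pow 2
  exact h1.comp continuous_fst

private theorem sumS_gx_nonneg (s : (Fin n → E3) → ℝ) (b : Fin n) (x : Fin n → E3) :
    0 ≤ gx s b x := by
  unfold gx gr
  exact sum_nonneg fun d _ => sq_nonneg _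

private theorem sumS_dl0 (a : Fin n) (w : E3) (r0 : ℝ) (L : ℕ) (x : Fin n → E3) :
    0 ≤ DlS r0 a w L x := by
  unfold DlS Dl
  refine sum_nonneg fun b _ => sum_nonneg fun l _ => ?_
  split_ifs <;> positivity

private theorem sumS_dl {Λ : Set E3} (hψ : Sm q n k Λ ψ) (a : Fin n) (w : E3) (r0 : ℝ) (L : ℕ) :
    IM ψ (fun p => DlS r0 a w L p.1) := by
  obtain ⟨B, hB⟩ : ∃ B : ℝ, B = ∑ b ∈ univ.erase a, ∑ l ∈ range (L + 1), (4 : ℝ) ^ l := ⟨_, rfl⟩
  have hle : ∀ x : Fin n → E3, DlS r0 a w L x ≤ B := by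
    intro x
    rw [hB]
    unfold DlS Dl
    refine sum_le_sum fun b _ => sum_le_sum fun l _ => ?_
    split_ifs
    · rw [mul_one]
    · rw [mul_zero]
      positivity
  refine IM.bdd hψ ?_ B fun p => ?_
  · unfold DlS Dl
    refine Finset.measurable_fun_sum _ fun b _ => Finset.measurable_fun_sum _ fun l _ => ?_
    refine measurable_const.mul (Measurable.ite ?_ measurable_const measurable_const)
    have h1 : Measurable (fun p : Cfg n k => ‖r0⁻¹ • p.1 b - r0⁻¹ • w‖) :=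
      (((meas_e b).const_smul r0⁻¹).sub_const _).norm
    exact measurableSet_le h1 measurable_const
  · rw [abs_of_nonneg (sumS_dl0 a w r0 L p.1)]
    exact hle p.1

private theorem sumS_pot {Λ : Set E3} (hψ : Sm q n k Λ ψ) (z : Fin k → ℝ) {χ : E3 → ℝ}
    (hχ : Bump χ) (r : ℝ) (hr : 0 < r) (a : Fin n) (w : E3) {s : (Fin n → E3) → ℝ}
    (hs : ContDiff ℝ (⊤ : ℕ∞) s) :
    IM ψ (fun p => s p.1 ^ 2 * ∫ v, chr χ r (v - w) ^ 2 * phiE z a p v) := by
  intro σ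
  obtain ⟨g, hg⟩ : ∃ g : Cfg n k × E3 → ℝ,
    g = fun u => chr χ r (u.2 - w) ^ 2 * (s u.1.1 ^ 2 * ‖ψ σ u.1‖ ^ 2) := ⟨_, rfl⟩
  have hc : Continuous g := by
    rw [hg]
    have h1 : Continuous (fun v => chr χ r (v - w)) := (rl_h_smooth hχ r hr w).continuous
    exact ((h1.comp continuous_snd).pow 2).mul
      (((hs.continuous.comp (continuous_fst.comp continuous_fst)).pow 2).mul
        ((((hψ.smooth σ).continuous).comp continuous_fst).norm.pow 2))
  have hk : HasCompactSupport g := by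
    rw [hg]
    refine HasCompactSupport.intro ((hψ.cpt σ).isCompact.prod
      (rl_h_cpt hχ r hr w).isCompact) ?_
    intro u hu
    rw [Set.mem_prod, not_and_or] at hu
    rcases hu with hu | hu
    · have h3 : ψ σ u.1 = 0 := image_eq_zero_of_notMem_tsupport hu
      rw [h3]
      simp
    · have h4 : chr χ r (u.2 - w) = 0 :=
        image_eq_zero_of_notMem_tsupport (f := fun v => chr χ r (v - w)) hu
      rw [h4]
      simp
  have h5 : Integrable (fun u : Cfg n k × E3 => phiE z a u.1 u.2 * g u) := by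
    have h1 : ∀ u : Cfg n k × E3, phiE z a u.1 u.2 * g u =
        ∑ j, z j * (‖u.2 - u.1.2 j‖⁻¹ * g u) - ∑ b ∈ univ.erase a, ‖u.2 - u.1.1 b‖⁻¹ * g u := by
      intro u
      unfold phiE
      rw [sub_mul, sum_mul, sum_mul]
      simp only [mul_assoc]
    simp only [h1]
    refine Integrable.sub ?_ ?_
    · exact integrable_finsetSum _ fun j _ => (int_pn g hc hk j).const_mul (z j)
    · exact integrable_finsetSum _ fun b _ => int_pe g hc hk b
  refine h5.integral_prod_left.congr (Filter.Eventually.of_forall fun p => ?_)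
  have h2 : ∀ v, phiE z a p v * g (p, v) =
      chr χ r (v - w) ^ 2 * phiE z a p v * (s p.1 ^ 2 * ‖ψ σ p‖ ^ 2) := by
    intro v
    rw [hg]
    ring
  simp only [h2]
  rw [integral_mul_const]
  ring

end

theorem sumS {θ : E3 → ℝ} (h : Cut θ) {χ : E3 → ℝ} (hχ : Bump χ) : ∃ C : ℝ, 0 ≤ C ∧
    ∀ (q n k : ℕ) (Λ : Set E3) (z κ : Fin k → ℝ) (_ : ∀ j, 0 ≤ κ j) (E : ℝ)
    (_ : LB q n k Λ z κ E) (a : Fin n) (ψ : (Fin n → Fin q) → Cfg n k → ℂ)
    (_ : Sa q n k Λ a ψ) (r0 : ℝ) (_ : 0 < r0) (_ : r0 ≤ 1)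
    (w : E3) (_ : Metric.closedBall w 1 ⊆ Λ) (L : ℕ),
    E * (mass ψ - mean ψ (fun p => rmS θ r0 a w L p.1 ^ 2)) ≤
      energy z κ ψ - kE ψ a + mean ψ (fun p => phiE z a p (p.1 a)) +
      mean ψ (fun p => rmS θ r0 a w L p.1 ^ 2 * |V z p + phiE z a p (p.1 a)|) +
      C * (r0 ^ 2)⁻¹ * mean ψ (fun p => 1 + DlS r0 a w L p.1) -
      mean ψ (fun p => ∑ l ∈ range (L + 1), slS θ r0 a w l p.1 ^ 2 *
        ∫ v, chr χ (r0 * ((2 : ℝ) ^ (l + 1))⁻¹) (v - w) ^ 2 * phiE z a p v) := by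
  obtain ⟨C₁, hC₁, hpg⟩ := part_gradS h
  obtain ⟨G0, hG0⟩ : ∃ G0 : ℝ, G0 = ∫ v, gr χ v := ⟨_, rfl⟩
  have hG : 0 ≤ G0 := by
    rw [hG0]
    exact integral_nonneg fun v => sum_nonneg fun d _ => sq_nonneg _
  refine ⟨C₁ + 16 * G0, by positivity, ?_⟩
  intro q n k Λ z κ hκ E hE a ψ hψa r0 hr0 hr01 w hw L
  have hψ : Sm q n k Λ ψ := Sa_sm hψa
  have hsl : ∀ l, ContDiff ℝ (⊤ : ℕ∞) (slS θ r0 a w l) := fun l => slS_smooth h r0 hr0 a w l
  have hrm : ContDiff ℝ (⊤ : ℕ∞) (rmS θ r0 a w L) := rmS_smooth h r0 hr0 a w L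
  have hone : IM ψ (fun _ => (1 : ℝ)) := IM.cont hψ continuous_const
  have hV : IM ψ (V z) := IM_V hψ z
  have hP : IM ψ (fun p => phiE z a p (p.1 a)) := IM_phiE hψ z a
  have hVP : IM ψ (fun p => V z p + phiE z a p (p.1 a)) := hV.add hP
  have hD : IM ψ (fun p => DlS r0 a w L p.1) := sumS_dl hψ a w r0 L
  have hs2 : ∀ l, IM ψ (fun p => slS θ r0 a w l p.1 ^ 2) := fun l =>
    IM.cont hψ (((hsl l).continuous.comp continuous_fst).pow 2)
  have hr2 : IM ψ (fun p => rmS θ r0 a w L p.1 ^ 2) :=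
    IM.cont hψ ((hrm.continuous.comp continuous_fst).pow 2)
  have hrpos : ∀ l : ℕ, 0 < r0 * ((2 : ℝ) ^ (l + 1))⁻¹ := fun l => by positivity
  have hr1 : ∀ l : ℕ, r0 * ((2 : ℝ) ^ (l + 1))⁻¹ ≤ 1 := by
    intro l
    have h1 : ((2 : ℝ) ^ (l + 1))⁻¹ ≤ 1 := inv_le_one_of_one_le₀ (one_le_pow₀ (by norm_num))
    have h0 : 0 < ((2 : ℝ) ^ (l + 1))⁻¹ := by positivity
    nlinarith
  obtain ⟨R, hR⟩ : ∃ R : ℝ, R = (r0 ^ 2)⁻¹ := ⟨_, rfl⟩
  have hR0 : 0 ≤ R := by
    rw [hR]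
    positivity
  -- the inequality for each scale
  have main : ∀ l ∈ range (L + 1), E * mean ψ (fun p => slS θ r0 a w l p.1 ^ 2) ≤
      ∑ b ∈ univ.erase a, kE (mul (slS θ r0 a w l) ψ) b +
      ∑ j, κ j * kN (mul (slS θ r0 a w l) ψ) j +
      mean ψ (fun p => slS θ r0 a w l p.1 ^ 2 * (V z p + phiE z a p (p.1 a))) +
      R * ((4 : ℝ) ^ (l + 1) * G0 * mean ψ (fun p => slS θ r0 a w l p.1 ^ 2)) -
      mean ψ (fun p => slS θ r0 a w l p.1 ^ 2 *
        ∫ v, chr χ (r0 * ((2 : ℝ) ^ (l + 1))⁻¹) (v - w) ^ 2 * phiE z a p v) := by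
    intro l _
    have h1 := relocS hE a hψa hχ (r0 * ((2 : ℝ) ^ (l + 1))⁻¹) (hrpos l) (hr1 l) w hw
      (slS θ r0 a w l) (hsl l) (fun x v => slS_upd h r0 hr0 a w l x v)
      (fun π hπ x => slS_perm h r0 hr0 a w l x π hπ)
      (fun x hx b hb => slS_far h r0 hr0 a w l x hx b hb)
    have h2 : ((r0 * ((2 : ℝ) ^ (l + 1))⁻¹) ^ 2)⁻¹ = R * (4 : ℝ) ^ (l + 1) := by
      rw [hR, mul_pow, mul_inv, inv_pow ((2 : ℝ) ^ (l + 1)), inv_inv, ← pow_mul, mul_comm (l + 1),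
        pow_mul]
      norm_num
    rw [h2, ← hG0] at h1
    refine h1.trans (le_of_eq ?_)
    ring
  have hsum := sum_le_sum main
  rw [← mul_sum] at hsum
  -- (i)
  have i1 : ∑ l ∈ range (L + 1), mean ψ (fun p => slS θ r0 a w l p.1 ^ 2) =
      mass ψ - mean ψ (fun p => rmS θ r0 a w L p.1 ^ 2) := by
    rw [← mean_sum _ fun l _ => hs2 l, eq_sub_iff_add_eq,
      ← mean_add (IM.sum _ fun l _ => hs2 l) hr2, ← mean_one (ψ := ψ)]
    congr 1
    funext p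
    exact partS_sum h r0 hr0 a w L p.1
  -- (ii)
  have hgb : ∀ b, IM ψ (fun p => ∑ l ∈ range (L + 1), gx (slS θ r0 a w l) b p.1 +
      gx (rmS θ r0 a w L) b p.1) := fun b =>
    (IM.sum _ fun l _ => IM.cont hψ (sumS_gx_cont _ (hsl l) b)).add
      (IM.cont hψ (sumS_gx_cont _ hrm b))
  have i2 : ∑ l ∈ range (L + 1), ∑ b ∈ univ.erase a, kE (mul (slS θ r0 a w l) ψ) b ≤
      ∑ b ∈ univ.erase a, kE ψ b + C₁ * (R * mean ψ (fun p => DlS r0 a w L p.1)) := by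
    rw [sum_comm]
    refine (sum_le_sum fun b _ => imsS_e hψ h r0 hr0 a w L b).trans ?_
    rw [sum_add_distrib]
    apply add_le_add le_rfl
    have h3 : ∑ b ∈ univ.erase a, mean ψ (fun p => ∑ l ∈ range (L + 1),
        gx (slS θ r0 a w l) b p.1 + gx (rmS θ r0 a w L) b p.1) ≤
        ∑ b, mean ψ (fun p => ∑ l ∈ range (L + 1),
        gx (slS θ r0 a w l) b p.1 + gx (rmS θ r0 a w L) b p.1) := by
      apply sum_le_sum_of_subset_of_nonneg (erase_subset _ _)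
      intro b _ _
      exact mean_nonneg fun _ p _ => add_nonneg (sum_nonneg fun l _ => sumS_gx_nonneg _ _ _)
        (sumS_gx_nonneg _ _ _)
    refine h3.trans ?_
    rw [← mean_sum _ fun b _ => hgb b, ← mean_cmul, ← mean_cmul]
    refine mean_mono (IM.sum _ fun b _ => hgb b) ((hD.cmul R).cmul C₁) fun _ p _ => ?_
    rw [hR]
    exact hpg n a r0 hr0 w L p.1
  -- (iii)
  have i3 : ∑ l ∈ range (L + 1), ∑ j, κ j * kN (mul (slS θ r0 a w l) ψ) j ≤
      ∑ j, κ j * kN ψ j := by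
    rw [sum_comm]
    refine sum_le_sum fun j _ => ?_
    rw [← mul_sum]
    exact mul_le_mul_of_nonneg_left (imsS_n hψ h r0 hr0 a w L j) (hκ j)
  -- (iv)
  have hsVP : ∀ l, IM ψ (fun p => slS θ r0 a w l p.1 ^ 2 * (V z p + phiE z a p (p.1 a))) :=
    fun l => sumS_sq hψ (hsl l) hVP
  have hrVP : IM ψ (fun p => rmS θ r0 a w L p.1 ^ 2 * |V z p + phiE z a p (p.1 a)|) :=
    sumS_sq hψ hrm hVP.abs
  have i4 : ∑ l ∈ range (L + 1), mean ψ (fun p => slS θ r0 a w l p.1 ^ 2 *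
      (V z p + phiE z a p (p.1 a))) ≤ mean ψ (V z) + mean ψ (fun p => phiE z a p (p.1 a)) +
        mean ψ (fun p => rmS θ r0 a w L p.1 ^ 2 * |V z p + phiE z a p (p.1 a)|) := by
    rw [← mean_sum _ fun l _ => hsVP l, ← mean_add hV hP, ← mean_add hVP hrVP]
    refine mean_mono (IM.sum _ fun l _ => hsVP l) (hVP.add hrVP) fun _ p _ => ?_
    have h4 := partS_sum h r0 hr0 a w L p.1
    rw [← sum_mul]
    have h5 : ∑ l ∈ range (L + 1), slS θ r0 a w l p.1 ^ 2 = 1 - rmS θ r0 a w L p.1 ^ 2 := by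
      linarith
    rw [h5]
    have h6 := neg_abs_le (V z p + phiE z a p (p.1 a))
    nlinarith [sq_nonneg (rmS θ r0 a w L p.1)]
  -- (v)
  have i5 : ∑ l ∈ range (L + 1), R * ((4 : ℝ) ^ (l + 1) * G0 *
      mean ψ (fun p => slS θ r0 a w l p.1 ^ 2)) ≤
      R * (G0 * (4 * mass ψ + 16 * mean ψ (fun p => DlS r0 a w L p.1))) := by
    rw [← mul_sum]
    apply mul_le_mul_of_nonneg_left _ hR0
    have h7 : ∀ l ∈ range (L + 1), (4 : ℝ) ^ (l + 1) * G0 *
        mean ψ (fun p => slS θ r0 a w l p.1 ^ 2) =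
        G0 * mean ψ (fun p => (4 : ℝ) ^ (l + 1) * slS θ r0 a w l p.1 ^ 2) := by
      intro l _
      rw [mean_cmul]
      ring
    rw [sum_congr rfl h7, ← mul_sum]
    apply mul_le_mul_of_nonneg_left _ hG
    rw [← mean_sum _ fun l _ => (hs2 l).cmul _]
    have h8 : 4 * mass ψ + 16 * mean ψ (fun p => DlS r0 a w L p.1) =
        mean ψ (fun p => 4 * 1 + 16 * DlS r0 a w L p.1) := by
      rw [mean_add (hone.cmul 4) (hD.cmul 16), mean_cmul, mean_cmul, mean_one]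
    rw [h8]
    refine mean_mono (IM.sum _ fun l _ => (hs2 l).cmul _)
      ((hone.cmul 4).add (hD.cmul 16)) fun _ p _ => ?_
    rw [mul_one]
    exact part_kinS h r0 a w L p.1
  -- (vi)
  have i6 : ∑ l ∈ range (L + 1), mean ψ (fun p => slS θ r0 a w l p.1 ^ 2 *
        ∫ v, chr χ (r0 * ((2 : ℝ) ^ (l + 1))⁻¹) (v - w) ^ 2 * phiE z a p v) =
      mean ψ (fun p => ∑ l ∈ range (L + 1), slS θ r0 a w l p.1 ^ 2 *
        ∫ v, chr χ (r0 * ((2 : ℝ) ^ (l + 1))⁻¹) (v - w) ^ 2 * phiE z a p v) :=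
    (mean_sum _ fun l _ => sumS_pot hψ z hχ _ (hrpos l) a w (hsl l)).symm
  have i7 : mean ψ (fun p => 1 + DlS r0 a w L p.1) =
      mass ψ + mean ψ (fun p => DlS r0 a w L p.1) := by
    rw [mean_add hone hD, mean_one]
  have i8 : energy z κ ψ - kE ψ a = ∑ b ∈ univ.erase a, kE ψ b + ∑ j, κ j * kN ψ j +
      mean ψ (V z) := by
    unfold energy
    rw [← Finset.sum_erase_add _ _ (mem_univ a)]
    ring
  have hm0 : 0 ≤ mass ψ := mass_nonneg
  have hD0 : 0 ≤ mean ψ (fun p => DlS r0 a w L p.1) :=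
    mean_nonneg fun _ p _ => sumS_dl0 a w r0 L p.1
  rw [sum_sub_distrib, sum_add_distrib, sum_add_distrib, sum_add_distrib, i1, i6] at hsum
  rw [i7, i8, ← hR]
  have k1 : 0 ≤ R * (C₁ * mass ψ) := by positivity
  have k2 : 0 ≤ R * (G0 * mass ψ) := by positivity
  have k3 : (C₁ + 16 * G0) * R * (mass ψ + mean ψ (fun p => DlS r0 a w L p.1)) =
      R * (C₁ * mass ψ) + C₁ * (R * mean ψ (fun p => DlS r0 a w L p.1)) +
      R * (G0 * (4 * mass ψ + 16 * mean ψ (fun p => DlS r0 a w L p.1))) +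
      12 * (R * (G0 * mass ψ)) := by ring
  rw [k3]
  linarith

end H6.CB
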