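import Pool.Agent.H6.CB.Lib
import Pool.Agent.H6.CM.TriE
import Pool.Agent.H6.CM.Exch

/-! Relocation of electron `a` for functions which are antisymmetric only under the permutations fixing `a`. Repeat `Pool/Agent/H6/CM/TriSt.lean` (the four facts on `tri`) and `TriE.lean` with `Sa q n k Λ a ψ` instead of `St q n k Λ ψ`: only permutations with `π a = a` are used there. -/

open MeasureTheory Finset

namespace H6.CB

open H6.CM

section

variable {q n k : ℕ} {Λ : Set E3} {ψ : (Fin n → Fin q) → Cfg n k → ℂ} (a : Fin n)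
  (hψ : Sa q n k Λ a ψ) {χ : E3 → ℝ} (hχ : Bump χ) (r : ℝ) (hr : 0 < r) (hr1 : r ≤ 1) (w ξ : E3)
  (hw : Metric.closedBall w 1 ⊆ Λ) (α τ : Fin q) (s : (Fin n → E3) → ℝ)
  (hs : ContDiff ℝ (⊤ : ℕ∞) s)

/-- the values of the trial function different from zero -/
private theorem TriS_ne (σ : Fin n → Fin q) (p : Cfg n k) (hp : tri χ r a w ξ α τ s ψ σ p ≠ 0) :
    chr χ r (p.1 a - w) ≠ 0 ∧ s (Function.update p.1 a ξ) ≠ 0 ∧
      ψ (Function.update σ a τ) (Function.update p.1 a ξ, p.2) ≠ 0 := by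
  unfold tri at hp
  by_cases hσ : σ a = α
  · rw [if_pos hσ] at hp
    have h1 := left_ne_zero_of_mul hp
    have h2 := right_ne_zero_of_mul hp
    unfold mul at h2
    have h3 := left_ne_zero_of_mul h2
    have h4 := right_ne_zero_of_mul h2
    exact ⟨fun h => h1 (by rw [h]; simp), fun h => h3 (by dsimp only; rw [h]; simp), h4⟩
  · rw [if_neg hσ] at hp
    exact absurd rfl hp

private theorem TriS_upd_cont : Continuous fun p : Cfg n k =>
    ((Function.update p.1 a ξ, p.2) : Cfg n k) := by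
  refine Continuous.prodMk (continuous_fst.update a continuous_const) continuous_snd

include hψ hχ hr hs in
private theorem TriS_smooth (σ : Fin n → Fin q) : ContDiff ℝ (⊤ : ℕ∞) (tri χ r a w ξ α τ s ψ σ) := by
  unfold tri
  by_cases hσ : σ a = α
  · simp only [if_pos hσ]
    have h1 : ContDiff ℝ (⊤ : ℕ∞) fun p : Cfg n k => p.1 a - w :=
      ((contDiff_apply ℝ E3 a).comp contDiff_fst).sub contDiff_const
    have h2 : ContDiff ℝ (⊤ : ℕ∞) fun p : Cfg n k => ((chr χ r (p.1 a - w) : ℝ) : ℂ) :=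
      Complex.ofRealCLM.contDiff.comp ((chr_smooth hχ r hr).comp h1)
    have h3 : ContDiff ℝ (⊤ : ℕ∞) fun p : Cfg n k => Function.update p.1 a ξ := by
      rw [contDiff_pi]
      intro b
      by_cases hb : b = a
      · subst hb
        simp only [Function.update_self]
        exact contDiff_const
      · simp only [Function.update_of_ne hb]
        exact (contDiff_apply ℝ E3 b).comp contDiff_fst
    have h4 : ContDiff ℝ (⊤ : ℕ∞) fun p : Cfg n k =>
        ((Function.update p.1 a ξ, p.2) : Cfg n k) := h3.prodMk contDiff_snd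
    have h5 : ContDiff ℝ (⊤ : ℕ∞) fun p : Cfg n k => ((s (Function.update p.1 a ξ) : ℝ) : ℂ) :=
      Complex.ofRealCLM.contDiff.comp (hs.comp h3)
    exact h2.mul (h5.mul ((hψ.smooth (Function.update σ a τ)).comp h4))
  · simp only [if_neg hσ]
    exact contDiff_const

include hψ hχ hr in
private theorem TriS_cpt (σ : Fin n → Fin q) : HasCompactSupport (tri χ r a w ξ α τ s ψ σ) := by
  set K : Set (Cfg n k) := (fun u : E3 × Cfg n k =>
    ((Function.update u.2.1 a u.1, u.2.2) : Cfg n k)) ''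
      (Metric.closedBall w (r / 2) ×ˢ tsupport (ψ (Function.update σ a τ))) with hK
  have hKc : IsCompact K := by
    refine IsCompact.image ((isCompact_closedBall w (r / 2)).prod (hψ.cpt _)) ?_
    exact Continuous.prodMk ((continuous_fst.comp continuous_snd).update a continuous_fst)
      (continuous_snd.comp continuous_snd)
  refine HasCompactSupport.intro hKc fun p hp => ?_
  by_contra hne
  apply hp
  obtain ⟨h1, -, h3⟩ := TriS_ne a r w ξ α τ s σ p hne
  refine ⟨(p.1 a, (Function.update p.1 a ξ, p.2)), ⟨?_, subset_tsupport _ h3⟩, ?_⟩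
  · rw [Metric.mem_closedBall, dist_eq_norm]
    exact (chr_supp hχ r hr _ h1).le
  · change ((Function.update (Function.update p.1 a ξ) a (p.1 a), p.2) : Cfg n k) = p
    rw [Function.update_idem, Function.update_eq_self]

include hψ hχ hr hr1 hw in
private theorem TriS_supp (σ : Fin n → Fin q) (p : Cfg n k) (hp : p ∈ tsupport (tri χ r a w ξ α τ s ψ σ)) :
    (∀ a, p.1 a ∈ Λ) ∧ ∀ j, p.2 j ∈ Λ := by
  have hcl : IsClosed {p : Cfg n k | p.1 a ∈ Metric.closedBall w (r / 2) ∧
      ((Function.update p.1 a ξ, p.2) : Cfg n k) ∈ tsupport (ψ (Function.update σ a τ))} := by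
    refine IsClosed.inter ?_ ?_
    · have h0 : Continuous fun p : Cfg n k => p.1 a := (continuous_apply a).comp continuous_fst
      exact (Metric.isClosed_closedBall (x := w) (ε := r / 2)).preimage h0
    · exact (isClosed_tsupport _).preimage (TriS_upd_cont a ξ)
  have hsub : Function.support (tri χ r a w ξ α τ s ψ σ) ⊆
      {p : Cfg n k | p.1 a ∈ Metric.closedBall w (r / 2) ∧
      ((Function.update p.1 a ξ, p.2) : Cfg n k) ∈ tsupport (ψ (Function.update σ a τ))} := by
    intro p hp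
    obtain ⟨h1, -, h3⟩ := TriS_ne a r w ξ α τ s σ p hp
    refine ⟨?_, subset_tsupport _ h3⟩
    rw [Metric.mem_closedBall, dist_eq_norm]
    exact (chr_supp hχ r hr _ h1).le
  obtain ⟨h1, h2⟩ := closure_minimal hsub hcl hp
  obtain ⟨h3, h4⟩ := hψ.supp _ _ h2
  refine ⟨fun b => ?_, h4⟩
  by_cases hb : b = a
  · subst hb
    refine hw (Metric.closedBall_subset_closedBall ?_ h1)
    linarith
  · have h5 := h3 b
    dsimp only at h5
    rwa [Function.update_of_ne hb] at h5

include hψ in
private theorem TriS_anti (hsa : ∀ π : Equiv.Perm (Fin n), π a = a → ∀ x, s (x ∘ π) = s x)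
    (π : Equiv.Perm (Fin n)) (hπ : π a = a) (σ : Fin n → Fin q) (p : Cfg n k) :
    tri χ r a w ξ α τ s ψ (σ ∘ π) (p.1 ∘ π, p.2) =
      ((Equiv.Perm.sign π : ℤ) : ℂ) * tri χ r a w ξ α τ s ψ σ p := by
  have hup : ∀ (γ : Type) (f : Fin n → γ) (c : γ),
      Function.update (f ∘ π) a c = Function.update f a c ∘ π := by
    intro γ f c
    funext b
    by_cases hb : b = a
    · subst hb
      rw [Function.update_self, Function.comp_apply, hπ, Function.update_self]
    · have hb' : π b ≠ a := fun h => hb (π.injective (by rw [h, hπ]))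
      rw [Function.update_of_ne hb, Function.comp_apply, Function.comp_apply,
        Function.update_of_ne hb']
  unfold tri
  have h1 : (σ ∘ π) a = σ a := by rw [Function.comp_apply, hπ]
  have h2 : (p.1 ∘ π) a = p.1 a := by rw [Function.comp_apply, hπ]
  rw [h1]
  by_cases hσ : σ a = α
  · rw [if_pos hσ, if_pos hσ]
    dsimp only
    rw [h2, hup, hup]
    unfold mul
    dsimp only
    rw [hsa π hπ, hψ.anti π hπ (Function.update σ a τ) (Function.update p.1 a ξ, p.2)]
    ring
  · rw [if_neg hσ, if_neg hσ, mul_zero]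

end

/-- every trial function satisfies `E * mass ≤ energy` -/
theorem tri_EA {q n k : ℕ} {Λ : Set E3} {z κ : Fin k → ℝ} {E : ℝ} (hE : LB q n k Λ z κ E)
    {ψ : (Fin n → Fin q) → Cfg n k → ℂ} (a : Fin n) (hψ : Sa q n k Λ a ψ) {χ : E3 → ℝ}
    (hχ : Bump χ) (r : ℝ) (hr : 0 < r) (hr1 : r ≤ 1) (w ξ : E3)
    (hw : Metric.closedBall w 1 ⊆ Λ) (α τ : Fin q) (s : (Fin n → E3) → ℝ)
    (hs : ContDiff ℝ (⊤ : ℕ∞) s)
    (hsu : ∀ x v, s (Function.update x a v) = s x)
    (hsa : ∀ π : Equiv.Perm (Fin n), π a = a → ∀ x, s (x ∘ π) = s x)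
    (hs0 : ∀ x, s x ≠ 0 → ∀ b, b ≠ a → r ≤ ‖x b - w‖) :
    E * mass (tri χ r a w ξ α τ s ψ) ≤ energy z κ (tri χ r a w ξ α τ s ψ) := by
  classical
  have hsm := fun σ => TriS_smooth a hψ hχ r hr w ξ α τ s hs σ
  have hcp := fun σ => TriS_cpt a hψ hχ r hr w ξ α τ s σ
  have hsp := fun σ p hp => TriS_supp a hψ hχ r hr hr1 w ξ hw α τ s σ p hp
  have han := fun π hπ σ p => TriS_anti a hψ (χ := χ) r w ξ α τ s hsa π hπ σ p
  have hfar := fun σ p hp => tri_far (ψ := ψ) hχ r hr a w ξ α τ s hsu hs0 σ p hp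
  have h1 := hE _ (anti_st a _ hsm hcp hsp han)
  rw [anti_mass a _ hsm hcp w r hr hfar, anti_energy z κ a _ hsm hcp w r hr hfar] at h1
  have hn : (0 : ℝ) < n := by
    have : 0 < n := lt_of_le_of_lt (Nat.zero_le _) a.isLt
    exact_mod_cast this
  nlinarith [h1, hn]

end H6.CB
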